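import Pool.Agent.MP_6d695c_gt.sw.Base
import Mathlib.Analysis.SpecialFunctions.Sqrt
import Mathlib.Analysis.Calculus.Deriv.Prod

-- ======== part 0: formerly Pool.Agent.MP_6d695c_gt.sw.BoxA
section MrgPart0

/-! PROJECT SW: the shift register, algebra of the slots. -/

open scoped ContDiff Topology
open Set Metric Filter Real

namespace Pool.Agent.MP_6d695c_gt.SW.Box

variable {n M : ℕ} {ι : Type} [Fintype ι]

/-- factors times slots -/
abbrev Sl (ι : Type) (M : ℕ) : Type := ι × Fin (M + 1)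

/-- the slot `i` -/
noncomputable def sl (i : Fin (M + 1)) : (Sl ι M → ℂ) →L[ℝ] (ι → ℂ) :=
  ContinuousLinearMap.pi fun f => ContinuousLinearMap.proj (f, i)

/-- forget all slots but the first -/
noncomputable def pr (n : ℕ) (ι : Type) (M : ℕ) : Q n × (Sl ι M → ℂ) →L[ℝ] Q n × (ι → ℂ) :=
  (ContinuousLinearMap.fst ℝ _ _).prod ((sl 0).comp (ContinuousLinearMap.snd ℝ _ _))

theorem norm_sl_le (i : Fin (M + 1)) (z : Sl ι M → ℂ) : ‖sl i z‖ ≤ ‖z‖ :=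
  (pi_norm_le_iff_of_nonneg (norm_nonneg _)).2 fun f => norm_le_pi_norm z (f, i)

theorem norm_pr_le (p : Q n × (Sl ι M → ℂ)) : ‖pr n ι M p‖ ≤ ‖p‖ :=
  max_le (norm_fst_le p) ((norm_sl_le 0 p.2).trans (norm_snd_le p))

theorem ipc_sl (z v : Sl ι M → ℂ) : ipc z v = ∑ i, ipc (sl i z) (sl i v) := by
  rw [ipc, Fintype.sum_prod_type_right]
  rfl

theorem nsq_sl (z : Sl ι M → ℂ) : nsq z = ∑ i, nsq (sl i z) := by
  simp only [← ipc_self, ipc_sl]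

theorem omC_sl (z v : Sl ι M → ℂ) : omC z v = ∑ i, omC (sl i z) (sl i v) := by
  rw [omC, Fintype.sum_prod_type_right]
  rfl

/-- sum over the slots with weights -/
noncomputable def NW (a : Fin (M + 1) → ℝ) (z : Sl ι M → ℂ) : ℝ := ∑ i, a i * nsq (sl i z)

theorem NW_smooth (a : Fin (M + 1) → ℝ) : ContDiff ℝ ∞ (NW a : (Sl ι M → ℂ) → ℝ) :=
  ContDiff.sum fun i _ => contDiff_const.mul (contDiff_nsq.comp (sl (ι := ι) i).contDiff)

theorem hasF_nsq {X : Type} [NormedAddCommGroup X] [NormedSpace ℝ X] {u : X → ι → ℂ}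
    {u' : X →L[ℝ] (ι → ℂ)} {x : X} (h : HasFDerivAt u u' x) :
    HasFDerivAt (fun x => nsq (u x)) ((fderiv ℝ nsq (u x)).comp u') x :=
  (contDiff_nsq.differentiable (by simp) _).hasFDerivAt.comp x h

theorem NW_der (a : Fin (M + 1) → ℝ) (z v : Sl ι M → ℂ) :
    fderiv ℝ (NW a) z v = ∑ i, a i * (2 * ipc (sl i z) (sl i v)) := by
  have h := HasFDerivAt.fun_sum (u := Finset.univ) fun i _ =>
    (hasF_nsq ((sl (ι := ι) i).hasFDerivAt (x := z))).const_mul (a i)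
  have h2 : fderiv ℝ (NW a) z = _ := h.fderiv
  rw [h2]
  simp [fderiv_nsq]

theorem NW_half (a : Fin (M + 1) → ℝ) (z : Sl ι M → ℂ) :
    fderiv ℝ (NW a) z ((1 / 2 : ℝ) • z) = NW a z := by
  rw [NW_der]
  refine Finset.sum_congr rfl fun i _ => ?_
  rw [map_smul, ipc_smul, ipc_self]
  ring

theorem NW_nonneg {a : Fin (M + 1) → ℝ} (ha : ∀ i, 0 ≤ a i) (z : Sl ι M → ℂ) : 0 ≤ NW a z :=
  Finset.sum_nonneg fun i _ => mul_nonneg (ha i) (nsq_nonneg _)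

theorem NW_mono {a b : Fin (M + 1) → ℝ} (h : ∀ i, a i ≤ b i) (z : Sl ι M → ℂ) : NW a z ≤ NW b z :=
  Finset.sum_le_sum fun i _ => mul_le_mul_of_nonneg_right (h i) (nsq_nonneg _)

theorem NW_le {a : Fin (M + 1) → ℝ} (h : ∀ i, a i ≤ 1) (z : Sl ι M → ℂ) : NW a z ≤ nsq z := by
  rw [nsq_sl]
  exact Finset.sum_le_sum fun i _ => by nlinarith [nsq_nonneg (sl i z), h i]

/-- weights of the slots up to `j` -/
def up (j : ℕ) (i : Fin (M + 1)) : ℝ := if (i : ℕ) ≤ j then 1 else 0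

/-- weights of the slots up to `j` without the slot `m` -/
def ux (j m : ℕ) (i : Fin (M + 1)) : ℝ := if (i : ℕ) ≤ j ∧ (i : ℕ) ≠ m then 1 else 0

theorem up_nonneg (j : ℕ) (i : Fin (M + 1)) : 0 ≤ up j i := by unfold up; split_ifs <;> norm_num
theorem up_le (j : ℕ) (i : Fin (M + 1)) : up j i ≤ 1 := by unfold up; split_ifs <;> norm_num
theorem ux_nonneg (j m : ℕ) (i : Fin (M + 1)) : 0 ≤ ux j m i := by
  unfold ux; split_ifs <;> norm_num
theorem ux_le (j m : ℕ) (i : Fin (M + 1)) : ux j m i ≤ up j i := by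
  unfold ux up; split_ifs <;> simp_all
theorem up_mono (j : ℕ) (i : Fin (M + 1)) : up j i ≤ up (j + 1) i := by
  unfold up; split_ifs <;> first | omega | norm_num
theorem ux_top (j : ℕ) : ux (M := M) (j + 1) (j + 1) = up j := by
  funext i; unfold ux up; congr 1; apply propext; omega

theorem NW_ux {j : ℕ} (m : Fin (M + 1)) (hm : (m : ℕ) ≤ j) (z : Sl ι M → ℂ) :
    NW (ux j m) z = NW (up j) z - nsq (sl m z) := by
  have : ∑ i, (if i = m then nsq (sl i z) else 0) = nsq (sl m z) := by simp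
  rw [← this, NW, NW, ← Finset.sum_sub_distrib]
  refine Finset.sum_congr rfl fun i _ => ?_
  by_cases h : i = m
  · subst h; simp [ux, up, hm]
  · have : (i : ℕ) ≠ m := fun e => h (Fin.ext e)
    simp [ux, up, h, this]

theorem NW_up_zero (z : Sl ι M → ℂ) : NW (up 0) z = nsq (sl 0 z) := by
  rw [NW, Finset.sum_eq_single 0]
  · simp [up]
  · intro i _ hi
    have : ¬ (i : ℕ) ≤ 0 := fun h => hi (Fin.ext (by simpa using h))
    simp only [up, if_neg this, zero_mul]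
  · simp

/-- the rotation of the slots `m`, `m + 1` -/
noncomputable def rot (m : Fin M) (z : Sl ι M → ℂ) : Sl ι M → ℂ := fun x =>
  if x.2 = m.castSucc then -z (x.1, m.succ) else if x.2 = m.succ then z (x.1, m.castSucc) else 0

omit [Fintype ι] in
theorem sl_rot (m : Fin M) (z : Sl ι M → ℂ) (i : Fin (M + 1)) : sl i (rot m z) =
    if i = m.castSucc then -sl m.succ z else if i = m.succ then sl m.castSucc z else 0 := by
  funext f
  show rot m z (f, i) = _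
  unfold rot
  split_ifs <;> rfl

theorem cs_ne (m : Fin M) : m.succ ≠ m.castSucc := (Fin.castSucc_lt_succ (i := m)).ne'

theorem sum_two {m : Fin M} (F : Fin (M + 1) → ℝ)
    (h : ∀ i, i ≠ m.castSucc → i ≠ m.succ → F i = 0) : ∑ i, F i = F m.castSucc + F m.succ :=
  Finset.sum_eq_add_of_mem _ _ (Finset.mem_univ _) (Finset.mem_univ _) (cs_ne m).symm
    fun i _ hi => h i hi.1 hi.2

theorem ipc_comm (u v : ι → ℂ) : ipc u v = ipc v u :=
  Finset.sum_congr rfl fun i _ => by ring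

theorem ipc_neg (u v : ι → ℂ) : ipc u (-v) = -ipc u v := by
  simpa using ipc_smul u v (-1)

theorem ipc_zero (u : ι → ℂ) : ipc u 0 = 0 := by simp [ipc]

theorem NW_rot {a : Fin (M + 1) → ℝ} {m : Fin M} (h : a m.castSucc = a m.succ)
    (z : Sl ι M → ℂ) : fderiv ℝ (NW a) z (rot m z) = 0 := by
  rw [NW_der, sum_two (m := m)]
  · rw [sl_rot, sl_rot, if_pos rfl, if_neg (cs_ne m), if_pos rfl, ipc_neg, ipc_comm, h]
    ring
  · intro i h1 h2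
    rw [sl_rot, if_neg h1, if_neg h2, ipc_zero]
    ring

theorem ipc_rot (m : Fin M) (z : Sl ι M → ℂ) : ipc z (rot m z) = 0 := by
  have := NW_rot (a := fun _ => 1) (m := m) rfl z
  rw [NW_der] at this
  rw [ipc_sl]
  simp only [one_mul, ← Finset.mul_sum] at this
  linarith

/-- the Hamiltonian of the rotation -/
noncomputable def QQ (m : Fin M) (z : Sl ι M → ℂ) : ℝ := omC (sl m.castSucc z) (sl m.succ z)

/-- `omC` as a bilinear map -/
noncomputable def omL (ι : Type) [Fintype ι] : (ι → ℂ) →L[ℝ] (ι → ℂ) →L[ℝ] ℝ :=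
  ∑ i, (((ContinuousLinearMap.mul ℝ ℝ).bilinearComp
      (Complex.reCLM.comp (ContinuousLinearMap.proj (R := ℝ) i))
      (Complex.imCLM.comp (ContinuousLinearMap.proj (R := ℝ) i))) -
    (ContinuousLinearMap.mul ℝ ℝ).bilinearComp
      (Complex.imCLM.comp (ContinuousLinearMap.proj (R := ℝ) i))
      (Complex.reCLM.comp (ContinuousLinearMap.proj (R := ℝ) i)))

theorem omL_apply (u v : ι → ℂ) : omL ι u v = omC u v := by
  simp [omL, omC]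

theorem QQ_smooth (m : Fin M) : ContDiff ℝ ∞ (QQ m : (Sl ι M → ℂ) → ℝ) := by
  have : (QQ m : (Sl ι M → ℂ) → ℝ) = fun z => omL ι (sl m.castSucc z) (sl m.succ z) :=
    funext fun z => (omL_apply _ _).symm
  rw [this]
  exact ((omL ι).contDiff.comp (sl _).contDiff).clm_apply (sl _).contDiff

theorem QQ_der (m : Fin M) (z v : Sl ι M → ℂ) : fderiv ℝ (QQ m) z v = omC (rot m z) v := by
  have e : (QQ m : (Sl ι M → ℂ) → ℝ) = fun z => omL ι (sl m.castSucc z) (sl m.succ z) :=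
    funext fun z => (omL_apply _ _).symm
  have h := (((omL ι).comp (sl m.castSucc)).hasFDerivAt (x := z)).clm_apply
    ((sl m.succ).hasFDerivAt (x := z))
  have h2 : fderiv ℝ (fun z => omL ι (sl m.castSucc z) (sl m.succ z)) z = _ := h.fderiv
  rw [e, h2, omC_sl, sum_two (m := m)]
  · rw [sl_rot, sl_rot, if_pos rfl, if_neg (cs_ne m), if_pos rfl]
    simp only [add_apply, ContinuousLinearMap.comp_apply, ContinuousLinearMap.flip_apply,
      omL_apply, omC, ← Finset.sum_add_distrib, Pi.neg_apply, Complex.neg_re, Complex.neg_im]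
    exact Finset.sum_congr rfl fun i _ => by ring
  · intro i h1 h2
    rw [sl_rot, if_neg h1, if_neg h2]
    simp [omC]

theorem abs_omC_le (u v : ι → ℂ) : |omC u v| ≤ nsq u + nsq v := by
  refine (Finset.abs_sum_le_sum_abs _ _).trans ?_
  rw [nsq, nsq, ← Finset.sum_add_distrib]
  refine Finset.sum_le_sum fun i _ => abs_le.2 ⟨?_, ?_⟩ <;>
    nlinarith [sq_nonneg ((u i).re + (v i).im), sq_nonneg ((u i).im + (v i).re),
      sq_nonneg ((u i).re - (v i).im), sq_nonneg ((u i).im - (v i).re)]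

theorem nsq_sl_le (i : Fin (M + 1)) (z : Sl ι M → ℂ) : nsq (sl i z) ≤ nsq z := by
  rw [nsq_sl z]
  exact Finset.single_le_sum (f := fun i => nsq (sl i z)) (fun i _ => nsq_nonneg _)
    (Finset.mem_univ i)

theorem abs_QQ_le (m : Fin M) (z : Sl ι M → ℂ) : |QQ m z| ≤ 2 * nsq z :=
  (abs_omC_le _ _).trans (by linarith [nsq_sl_le m.castSucc z, nsq_sl_le m.succ z])

theorem abs_NW_der {a : Fin (M + 1) → ℝ} (h0 : ∀ i, 0 ≤ a i) (h1 : ∀ i, a i ≤ 1)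
    (z v : Sl ι M → ℂ) :
    |fderiv ℝ (NW a) z v| ≤ 2 * (M + 1) * Fintype.card ι * ‖z‖ * ‖v‖ := by
  rw [NW_der]
  refine (Finset.abs_sum_le_sum_abs _ _).trans ?_
  have := Finset.sum_le_card_nsmul Finset.univ
    (fun i => |a i * (2 * ipc (sl i z) (sl i v))|) (2 * (Fintype.card ι * ‖z‖ * ‖v‖)) fun i _ => by
      have h2 : |ipc (sl i z) (sl i v)| ≤ Fintype.card ι * ‖z‖ * ‖v‖ :=
        (abs_ipc_le _ _).trans (by gcongr <;> exact norm_sl_le _ _)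
      rw [abs_mul, abs_mul, abs_of_nonneg (h0 i), abs_two]
      nlinarith [h0 i, h1 i, abs_nonneg (ipc (sl i z) (sl i v))]
  simp only [Finset.card_univ, Fintype.card_fin, nsmul_eq_mul, Nat.cast_add, Nat.cast_one] at this
  linarith

variable [DecidableEq ι]

theorem shC_eq {κ : Type} [Fintype κ] [DecidableEq κ] {α : (κ → ℂ) →L[ℝ] ℝ} {u : κ → ℂ}
    (h : ∀ v, α v = omC u v) : shC α = u := by
  funext i
  have key : ∀ c : ℂ, omC u (Pi.single i c) = (u i).re * c.im - (u i).im * c.re := fun c => by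
    rw [omC, Finset.sum_eq_single i]
    · simp
    · intro j _ hj; simp [Pi.single_eq_of_ne hj]
    · simp
  apply Complex.ext <;> simp [shC, h, key]

omit [Fintype ι] in
theorem shC_sl0 (α : (ι → ℂ) →L[ℝ] ℝ) (i : Fin (M + 1)) :
    sl i (shC (α.comp (sl (M := M) 0))) = if i = 0 then shC α else 0 := by
  have key : ∀ (f : ι) (c : ℂ), sl (M := M) 0 (Pi.single (f, i) c) =
      if i = 0 then Pi.single f c else 0 := fun f c => by
    funext g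
    show (Pi.single (f, i) c : Sl ι M → ℂ) (g, 0) = _
    by_cases hi : i = 0
    · subst hi
      by_cases hg : g = f
      · subst hg; simp
      · simp [hg]
    · simp [hi, Ne.symm hi]
  funext f
  show shC (α.comp (sl (M := M) 0)) (f, i) = _
  by_cases hi : i = 0
  · simp [shC, key, hi]
    subst hi
    simp [key]
  · apply Complex.ext <;> simp [shC, key, hi]

end Pool.Agent.MP_6d695c_gt.SW.Box

end MrgPart0

-- ======== part 1: formerly Pool.Agent.MP_6d695c_gt.sw.Loc1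
section MrgPart1

/-! PROJECT SW: the functions of one variable used by the local model. -/

open scoped ContDiff Topology
open Set Metric Filter Real

namespace Pool.Agent.MP_6d695c_gt.SW

theorem glue_deriv {t : ℝ} (ht : 0 < t) :
    HasDerivAt expNegInvGlue (expNegInvGlue t * (t ^ 2)⁻¹) t := by
  have h1 : HasDerivAt (fun x : ℝ => exp (-x⁻¹)) (exp (-t⁻¹) * (t ^ 2)⁻¹) t := by
    simpa using (hasDerivAt_inv ht.ne').neg.exp
  have h2 : ∀ x : ℝ, 0 < x → expNegInvGlue x = exp (-x⁻¹) := fun x hx => by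
    simp [expNegInvGlue, not_le.2 hx]
  rw [h2 t ht]
  exact h1.congr_of_eventuallyEq (by filter_upwards [Ioi_mem_nhds ht] with x hx using h2 x hx)

/-- the logistic inequality for the smooth transition function -/
theorem trans_deriv (t : ℝ) :
    2 * (smoothTransition t * (1 - smoothTransition t)) ≤ deriv smoothTransition t := by
  have h0 : 0 ≤ deriv smoothTransition t := smoothTransition.monotone.deriv_nonneg
  rcases le_or_gt t 0 with h | h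
  · rw [smoothTransition.zero_of_nonpos h]; simpa using h0
  rcases le_or_gt 1 t with h' | h'
  · rw [smoothTransition.one_of_one_le h']; simpa using h0
  have hp := expNegInvGlue.pos_of_pos h
  have hq := expNegInvGlue.pos_of_pos (sub_pos.2 h')
  have h1 := glue_deriv h
  have h2 : HasDerivAt (fun x : ℝ => expNegInvGlue (1 - x))
      (expNegInvGlue (1 - t) * ((1 - t) ^ 2)⁻¹ * -1) t :=
    (glue_deriv (sub_pos.2 h')).comp t ((hasDerivAt_id t).const_sub 1)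
  have h3 := h1.div (h1.add h2) (smoothTransition.pos_denom t).ne'
  have h4 : deriv smoothTransition t = _ := h3.deriv
  rw [h4, smoothTransition]
  simp only [Pi.add_apply]
  set p := expNegInvGlue t
  set q := expNegInvGlue (1 - t)
  have hi : 1 ≤ (t ^ 2)⁻¹ := one_le_inv₀ (by positivity) |>.2 (by nlinarith)
  have hj : 1 ≤ ((1 - t) ^ 2)⁻¹ := one_le_inv₀ (by positivity) |>.2 (by nlinarith)
  set i := (t ^ 2)⁻¹
  set j := ((1 - t) ^ 2)⁻¹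
  have e1 : 2 * (p / (p + q) * (1 - p / (p + q))) = 2 * (p * q) / (p + q) ^ 2 := by
    field_simp; ring
  rw [e1]
  refine div_le_div_of_nonneg_right ?_ (by positivity)
  nlinarith [mul_pos hp hq]

/-- a function with simple roots dominates the distance to finitely many of its roots -/
theorem simple_roots {f : ℝ → ℝ} {K : Set ℝ} (hK : IsCompact K) (hf : Differentiable ℝ f) {z₀ : ℝ}
    (hz : z₀ ∈ K) (hz0 : f z₀ = 0) (hs : ∀ z ∈ K, f z = 0 → deriv f z ≠ 0) :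
    ∃ (Z : Finset ℝ) (c : ℝ), 0 < c ∧ (∀ z ∈ Z, z ∈ K ∧ f z = 0) ∧
      ∀ x ∈ K, ∃ z ∈ Z, c * |x - z| ≤ |f x| := by
  classical
  refine hK.induction_on (p := fun S => ∃ (Z : Finset ℝ) (c : ℝ), 0 < c ∧
    (∀ z ∈ Z, z ∈ K ∧ f z = 0) ∧ ∀ x ∈ S, ∃ z ∈ Z, c * |x - z| ≤ |f x|)
    ⟨∅, 1, one_pos, by simp, by simp⟩ ?_ ?_ ?_
  · rintro S T hST ⟨Z, c, h1, h2, h3⟩
    exact ⟨Z, c, h1, h2, fun x hx => h3 x (hST hx)⟩
  · rintro S T ⟨Z, c, h1, h2, h3⟩ ⟨Z', c', h1', h2', h3'⟩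
    refine ⟨Z ∪ Z', min c c', lt_min h1 h1', fun z hz => ?_, fun x hx => ?_⟩
    · exact (Finset.mem_union.1 hz).elim (h2 z) (h2' z)
    · rcases hx with hx | hx
      · obtain ⟨z, hz, h⟩ := h3 x hx
        exact ⟨z, Finset.mem_union_left _ hz,
          (mul_le_mul_of_nonneg_right (min_le_left _ _) (abs_nonneg _)).trans h⟩
      · obtain ⟨z, hz, h⟩ := h3' x hx
        exact ⟨z, Finset.mem_union_right _ hz,
          (mul_le_mul_of_nonneg_right (min_le_right _ _) (abs_nonneg _)).trans h⟩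
  · intro y hy
    by_cases h : f y = 0
    · have hd := hs y hy h
      have hp : 0 < |deriv f y| / 2 := by positivity
      have h1 := (hasDerivAt_iff_isLittleO.1 (hf y).hasDerivAt).def hp
      refine ⟨_, mem_nhdsWithin_of_mem_nhds h1, {y}, |deriv f y| / 2, hp, by simp [hy, h],
        fun x hx => ⟨y, by simp, ?_⟩⟩
      have h2 : ‖f x - f y - (x - y) • deriv f y‖ ≤ |deriv f y| / 2 * ‖x - y‖ := hx
      rw [h, sub_zero, smul_eq_mul, Real.norm_eq_abs, Real.norm_eq_abs] at h2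
      have h3 := abs_sub_abs_le_abs_sub ((x - y) * deriv f y) (f x)
      rw [abs_sub_comm ((x - y) * deriv f y), abs_mul] at h3
      nlinarith
    · have hp : 0 < |f y| / 2 := by positivity
      have h1 : ∀ᶠ x in 𝓝 y, |f y| / 2 < |f x| :=
        hf.continuous.abs.continuousAt.eventually (lt_mem_nhds (by linarith))
      have h2 : ∀ᶠ x in 𝓝 y, |x - z₀| < |y - z₀| + 1 :=
        (continuous_id.sub continuous_const).abs.continuousAt.eventually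
          (gt_mem_nhds (by simp))
      have hq : 0 < |y - z₀| + 1 := by positivity
      refine ⟨_, mem_nhdsWithin_of_mem_nhds (h1.and h2), {z₀}, |f y| / 2 / (|y - z₀| + 1),
        by positivity, by simp [hz, hz0], fun x hx => ⟨z₀, by simp, ?_⟩⟩
      have h3 : |f y| / 2 < |f x| ∧ |x - z₀| < |y - z₀| + 1 := hx
      rw [div_mul_eq_mul_div, div_le_iff₀ hq]
      nlinarith [abs_nonneg (x - z₀), h3.1, h3.2]

/-- the functions of one variable -/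
structure Fn (δ : ℝ) (a0 k ψL ψR g ζ : ℝ → ℝ) : Prop where
  sa : ContDiff ℝ ∞ a0
  sk : ContDiff ℝ ∞ k
  sL : ContDiff ℝ ∞ ψL
  sR : ContDiff ℝ ∞ ψR
  sg : ContDiff ℝ ∞ g
  sζ : ContDiff ℝ ∞ ζ
  a1 : ∀ P ≤ δ, a0 P = 1
  a2 : ∀ P, 1 - δ / 2 ≤ P → a0 P = 0
  a3 : ∀ P, a0 P ∈ Icc (0 : ℝ) 1
  a4 : ∀ P, -(2 * δ) ≤ P → P ≤ 1 → |P + a0 P ^ 2 - 1| ≤ 3 * δ
  k1 : ∀ P, -δ ≤ P → k P = a0 P / 2 - P * deriv a0 P
  k2 : ∀ P ≤ -(2 * δ), k P = 0
  L0 : ∀ x ≤ -δ, ψL x = 0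
  L1 : ∀ x, -(δ / 2) ≤ x → ψL x = 1
  Lm : ∀ x, ψL x ∈ Icc (0 : ℝ) 1
  Ld : ∀ x, 4 * (ψL x * (1 - ψL x)) ≤ δ * deriv ψL x
  R1 : ∀ x ≤ δ / 2, ψR x = 1
  R0 : ∀ x, δ ≤ x → ψR x = 0
  Rm : ∀ x, ψR x ∈ Icc (0 : ℝ) 1
  Rd : ∀ x, deriv ψR x ≤ 0
  g1 : ∀ x, |x| ≤ δ / 2 → g x = x
  g0 : ∀ x, δ ≤ |x| → g x = 0
  g2 : ∀ x, 0 ≤ x * g x
  g3 : ∀ x, |g x| ≤ |x|
  gd : ∀ x, deriv g x ≤ 1
  z1 : ∀ t, |t - 1| ≤ 4 * δ → ζ t = 1
  z0 : ∀ t, 5 * δ ≤ |t - 1| → ζ t = 0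
  zm : ∀ t, ζ t ∈ Icc (0 : ℝ) 1

theorem exists_a0 {δ : ℝ} (h : 0 < δ) (h' : δ ≤ 1 / 100) : ∃ a0 : ℝ → ℝ, ContDiff ℝ ∞ a0 ∧
    (∀ P ≤ δ, a0 P = 1) ∧ (∀ P, 1 - δ / 2 ≤ P → a0 P = 0) ∧ (∀ P, a0 P ∈ Icc (0 : ℝ) 1) ∧
    ∀ P, -(2 * δ) ≤ P → P ≤ 1 → |P + a0 P ^ 2 - 1| ≤ 3 * δ := by
  obtain ⟨b0, s0, p0, q0, m0, -⟩ := exists_step (show δ < 2 * δ by linarith)
  obtain ⟨b1, s1, p1, q1, m1, -⟩ := exists_step (show 1 - δ < 1 - δ / 2 by linarith)
  obtain ⟨b2, s2, p2, q2, m2, -⟩ := exists_step (show 1 - δ / 2 < 1 by linarith)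
  set q : ℝ → ℝ := fun P => 1 - (P - δ) * ((1 - b0 P) * b2 P) with hq
  have hc : ∀ P, (1 - b0 P) * b2 P ∈ Icc (0 : ℝ) 1 := fun P =>
    ⟨mul_nonneg (by linarith [(m0 P).2]) (m2 P).1,
      mul_le_one₀ (by linarith [(m0 P).1]) (m2 P).1 (m2 P).2⟩
  have hq1 : ∀ P, δ ≤ q P ∧ q P ≤ 1 := fun P => by
    simp only [hq]
    rcases le_total P δ with h1 | h1
    · rw [p0 P h1]; constructor <;> linarith
    rcases le_total 1 P with h2 | h2
    · rw [q2 P h2]; constructor <;> linarith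
    constructor <;> nlinarith [(hc P).1, (hc P).2]
  have sq : ContDiff ℝ ∞ q := by simp only [hq]; fun_prop
  have hs : ∀ P, (b1 P * √(q P)) ^ 2 = b1 P ^ 2 * q P := fun P => by
    rw [mul_pow, sq_sqrt (by linarith [(hq1 P).1])]
  refine ⟨fun P => b1 P * √(q P), s1.mul (sq.sqrt fun P => by linarith [(hq1 P).1]),
    fun P hP => ?_, fun P hP => by simp [q1 P hP], fun P => ⟨mul_nonneg (m1 P).1 (sqrt_nonneg _),
      mul_le_one₀ (m1 P).2 (sqrt_nonneg _) (sqrt_le_one.2 (hq1 P).2)⟩, fun P h1 h2 => ?_⟩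
  · simp [hq, p0 P hP, p1 P (by linarith)]
  · simp only []
    rw [hs, abs_le]
    rcases le_total P (2 * δ) with h3 | h3
    · rw [p1 P (by linarith)]
      simp only [hq]
      rcases le_total P δ with h4 | h4
      · rw [p0 P h4]; constructor <;> linarith
      · constructor <;> nlinarith [(hc P).1, (hc P).2]
    rcases le_total (1 - δ / 2) P with h4 | h4
    · rw [q1 P h4]; constructor <;> linarith
    have e : q P = 1 + δ - P := by simp only [hq]; rw [q0 P h3, p2 P h4]; ring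
    rcases le_total P (1 - δ) with h5 | h5
    · rw [p1 P h5, e]; constructor <;> linarith
    · have h6 : b1 P ^ 2 ≤ 1 := by nlinarith [(m1 P).1, (m1 P).2]
      rw [e]
      constructor <;> nlinarith [sq_nonneg (b1 P)]

theorem exists_fn {δ : ℝ} (h : 0 < δ) (h' : δ ≤ 1 / 100) :
    ∃ a0 k ψL ψR g ζ : ℝ → ℝ, Fn δ a0 k ψL ψR g ζ := by
  obtain ⟨a0, sa, a1, a2, a3, a4⟩ := exists_a0 h h'
  obtain ⟨bm, sm, pm, qm, -, -⟩ := exists_step (show δ < 2 * δ by linarith)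
  obtain ⟨ψR, sR, R1, R0, Rm, Rd⟩ := exists_step (show δ / 2 < δ by linarith)
  obtain ⟨β, sβ, β1, β0, βm, βd⟩ := exists_step (show (δ / 2) ^ 2 < δ ^ 2 by nlinarith)
  obtain ⟨z, sz, z1, z0, zm, -⟩ := exists_step (show (4 * δ) ^ 2 < (5 * δ) ^ 2 by nlinarith)
  have sa' : ContDiff ℝ ∞ (deriv a0) := (contDiff_infty_iff_deriv.1 sa).2
  have st : ContDiff ℝ ∞ smoothTransition := smoothTransition.contDiff
  refine ⟨a0, fun P => (a0 P / 2 - P * deriv a0 P) * bm (-P),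
    fun x => smoothTransition ((x + δ) / (δ / 2)), ψR, fun x => x * β (x ^ 2),
    fun t => z ((t - 1) ^ 2), sa, by fun_prop, by fun_prop, sR, by fun_prop, by fun_prop,
    a1, a2, a3, a4, fun P hP => by simp [pm (-P) (by linarith)],
    fun P hP => by simp [qm (-P) (by linarith)], fun x hx => ?_, fun x hx => ?_,
    fun x => ⟨smoothTransition.nonneg _, smoothTransition.le_one _⟩, fun x => ?_, R1, R0, Rm, Rd,
    fun x hx => ?_, fun x hx => ?_, fun x => ?_, fun x => ?_, fun x => ?_, fun t ht => ?_,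
    fun t ht => ?_, fun t => zm _⟩
  · exact smoothTransition.zero_of_nonpos
      (div_nonpos_of_nonpos_of_nonneg (by linarith) (by linarith))
  · exact smoothTransition.one_of_one_le ((one_le_div (by linarith)).2 (by linarith))
  · have h1 : HasDerivAt (fun x => smoothTransition ((x + δ) / (δ / 2)))
        (deriv smoothTransition ((x + δ) / (δ / 2)) * (1 / (δ / 2))) x :=
      (st.differentiable (by simp) _).hasDerivAt.comp x
        (((hasDerivAt_id x).add_const δ).div_const _)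
    rw [h1.deriv]
    have h2 := trans_deriv ((x + δ) / (δ / 2))
    have h3 : δ * (deriv smoothTransition ((x + δ) / (δ / 2)) * (1 / (δ / 2))) =
        2 * deriv smoothTransition ((x + δ) / (δ / 2)) := by field_simp
    linarith
  · simp [β1 (x ^ 2) (by rw [← sq_abs]; gcongr)]
  · simp [β0 (x ^ 2) (by rw [← sq_abs x]; gcongr)]
  · have := mul_nonneg (mul_self_nonneg x) (βm (x ^ 2)).1
    linarith
  · rw [abs_mul, abs_of_nonneg (βm _).1]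
    exact mul_le_of_le_one_right (abs_nonneg _) (βm _).2
  · have h1 : HasDerivAt (fun x => x * β (x ^ 2))
        (1 * β (x ^ 2) + x * (deriv β (x ^ 2) * (2 * x))) x :=
      (hasDerivAt_id x).mul ((sβ.differentiable (by simp) _).hasDerivAt.comp x
        (by simpa using hasDerivAt_pow 2 x))
    rw [h1.deriv]
    nlinarith [(βm (x ^ 2)).2, mul_nonneg (mul_self_nonneg x) (neg_nonneg.2 (βd (x ^ 2)))]
  · exact z1 _ (by rw [← sq_abs]; gcongr)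
  · exact z0 _ (by rw [← sq_abs (t - 1)]; gcongr)

end Pool.Agent.MP_6d695c_gt.SW

end MrgPart1

-- ======== part 2: formerly Pool.Agent.MP_6d695c_gt.sw.Loc2
section MrgPart2

/-! PROJECT SW: the local Hamiltonians and the structure `Loc`. -/

open scoped ContDiff Topology
open Set Metric Filter Real

namespace Pool.Agent.MP_6d695c_gt.SW

noncomputable section

theorem fd_eq (u : R3 → ℝ) (x v : R3) :
    fderiv ℝ u x v = v.1 * dP u x + v.2.1 * da u x + v.2.2 * db u x := by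
  have : v = v.1 • ((1, 0, 0) : R3) + v.2.1 • ((0, 1, 0) : R3) + v.2.2 • ((0, 0, 1) : R3) := by
    ext <;> simp
  conv_lhs => rw [this]
  simp only [map_add, map_smul, smul_eq_mul, dP, da, db]

theorem dP_eq {u : R3 → ℝ} (hu : ContDiff ℝ ∞ u) {P a b w : ℝ}
    (h : HasDerivAt (fun t => u (t, a, b)) w P) : dP u (P, a, b) = w :=
  ((hu.differentiable (by simp) (P, a, b)).hasFDerivAt.comp_hasDerivAt P
    (HasDerivAt.prodMk (hasDerivAt_id P) (hasDerivAt_const P (a, b)))).unique h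

theorem da_eq {u : R3 → ℝ} (hu : ContDiff ℝ ∞ u) {P a b w : ℝ}
    (h : HasDerivAt (fun t => u (P, t, b)) w a) : da u (P, a, b) = w :=
  ((hu.differentiable (by simp) (P, a, b)).hasFDerivAt.comp_hasDerivAt a
    (HasDerivAt.prodMk (hasDerivAt_const a P)
      (HasDerivAt.prodMk (hasDerivAt_id a) (hasDerivAt_const a b)))).unique h

theorem db_eq {u : R3 → ℝ} (hu : ContDiff ℝ ∞ u) {P a b w : ℝ}
    (h : HasDerivAt (fun t => u (P, a, t)) w b) : db u (P, a, b) = w :=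
  ((hu.differentiable (by simp) (P, a, b)).hasFDerivAt.comp_hasDerivAt b
    (HasDerivAt.prodMk (hasDerivAt_const b P)
      (HasDerivAt.prodMk (hasDerivAt_const b a) (hasDerivAt_id b)))).unique h

theorem hd1 {f : ℝ → ℝ} (hf : ContDiff ℝ ∞ f) (x : ℝ) : HasDerivAt f (deriv f x) x :=
  (hf.differentiable (by simp) x).hasDerivAt

theorem deriv_lo {f : ℝ → ℝ} {c u x : ℝ} (h : ∀ y ≤ u, f y = c) (hx : x < u) : deriv f x = 0 := by
  have : f =ᶠ[𝓝 x] fun _ => c := by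
    filter_upwards [Iio_mem_nhds hx] with y hy using h y (le_of_lt hy)
  rw [this.deriv_eq, deriv_const]

theorem deriv_hi {f : ℝ → ℝ} {c u x : ℝ} (h : ∀ y, u ≤ y → f y = c) (hx : u < x) :
    deriv f x = 0 := by
  have : f =ᶠ[𝓝 x] fun _ => c := by
    filter_upwards [Ioi_mem_nhds hx] with y hy using h y (le_of_lt hy)
  rw [this.deriv_eq, deriv_const]

/-- the bump in the variable `a` -/
def Lp (ψL ψR : ℝ → ℝ) (x : ℝ) : ℝ := ψL x * ψR x

def LH0 (a0 k ψL ψR g : ℝ → ℝ) (x : R3) : ℝ := -(k x.1 * Lp ψL ψR (x.2.1 - a0 x.1) * g x.2.2)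

def LH1 (g ζ : ℝ → ℝ) (x : R3) : ℝ := -(g x.1 * ζ (x.2.1 ^ 2 + x.2.2 ^ 2))

def Lτ (a0 : ℝ → ℝ) (x : R3) : ℝ := (x.2.1 - a0 x.1) ^ 2 + x.2.2 ^ 2

namespace Fn
variable {δ : ℝ} {a0 k ψL ψR g ζ : ℝ → ℝ} (F : Fn δ a0 k ψL ψR g ζ)
include F

theorem sp : ContDiff ℝ ∞ (Lp ψL ψR) := F.sL.mul F.sR

theorem pm (x : ℝ) : Lp ψL ψR x ∈ Icc (0 : ℝ) 1 :=
  ⟨mul_nonneg (F.Lm x).1 (F.Rm x).1, mul_le_one₀ (F.Lm x).2 (F.Rm x).1 (F.Rm x).2⟩

theorem p0 {x : ℝ} (hx : δ ≤ |x|) : Lp ψL ψR x = 0 := by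
  rcases le_abs'.1 hx with h | h
  · simp [Lp, F.L0 x h]
  · simp [Lp, F.R0 x h]

theorem p1 {x : ℝ} (hx : |x| ≤ δ / 2) : Lp ψL ψR x = 1 := by
  simp [Lp, F.L1 x (abs_le.1 hx).1, F.R1 x (abs_le.1 hx).2]

theorem pd (x : ℝ) : deriv (Lp ψL ψR) x = deriv ψL x * ψR x + ψL x * deriv ψR x :=
  ((hd1 F.sL x).mul (hd1 F.sR x)).deriv

theorem pd0 {x : ℝ} (hx : |x| < δ / 2) : deriv (Lp ψL ψR) x = 0 := by
  rw [F.pd, deriv_hi F.L1 (abs_lt.1 hx).1, deriv_lo F.R1 (abs_lt.1 hx).2]; simp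

theorem gd1 {x : ℝ} (hx : |x| < δ / 2) : deriv g x = 1 := by
  have : g =ᶠ[𝓝 x] fun y => y := by
    filter_upwards [continuous_abs.continuousAt.eventually (gt_mem_nhds hx)] with y hy
      using F.g1 y hy.le
  rw [this.deriv_eq, deriv_id'']

theorem zd0 {t : ℝ} (ht : |t - 1| < 4 * δ) : deriv ζ t = 0 := by
  have : ζ =ᶠ[𝓝 t] fun _ => 1 := by
    filter_upwards [(continuous_id.sub continuous_const).abs.continuousAt.eventually
      (gt_mem_nhds ht)] with y hy using F.z1 y hy.le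
  rw [this.deriv_eq, deriv_const]

theorem kh {P : ℝ} (h : |P| < δ) : k P = 1 / 2 := by
  rw [F.k1 P (abs_lt.1 h).1.le, F.a1 P (abs_lt.1 h).2.le, deriv_lo F.a1 (abs_lt.1 h).2]; simp

theorem kd {P : ℝ} (h : |P| < δ) : deriv k P = 0 := by
  have : k =ᶠ[𝓝 P] fun _ => 1 / 2 := by
    filter_upwards [continuous_abs.continuousAt.eventually (gt_mem_nhds h)] with y hy
      using F.kh hy
  rw [this.deriv_eq, deriv_const]

theorem k0 (h : 0 < δ) {P : ℝ} (hP : 1 ≤ P) : k P = 0 := by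
  rw [F.k1 P (by linarith), F.a2 P (by linarith), deriv_hi F.a2 (by linarith)]; simp

theorem s0 : ContDiff ℝ ∞ (LH0 a0 k ψL ψR g) := by
  have := F.sa; have := F.sk; have := F.sp; have := F.sg
  unfold LH0; fun_prop

theorem s1 : ContDiff ℝ ∞ (LH1 g ζ) := by
  have := F.sg; have := F.sζ
  unfold LH1; fun_prop

theorem sτ : ContDiff ℝ ∞ (Lτ a0) := by
  have := F.sa
  unfold Lτ; fun_prop

theorem dP0 (P a b : ℝ) : dP (LH0 a0 k ψL ψR g) (P, a, b) =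
    -((deriv k P * Lp ψL ψR (a - a0 P) +
      k P * (deriv (Lp ψL ψR) (a - a0 P) * -deriv a0 P)) * g b) := by
  have h := (((hd1 F.sk P).mul
    ((hd1 F.sp (a - a0 P)).comp P ((hd1 F.sa P).const_sub a))).mul_const (g b)).neg
  exact dP_eq F.s0 h

theorem da0 (P a b : ℝ) : da (LH0 a0 k ψL ψR g) (P, a, b) =
    -(k P * (deriv (Lp ψL ψR) (a - a0 P) * 1) * g b) := by
  have h := ((((hd1 F.sp (a - a0 P)).comp a
    ((hasDerivAt_id' a).sub_const (a0 P))).const_mul (k P)).mul_const (g b)).neg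
  exact da_eq F.s0 h

theorem db0 (P a b : ℝ) : db (LH0 a0 k ψL ψR g) (P, a, b) =
    -(k P * Lp ψL ψR (a - a0 P) * deriv g b) := by
  have h := ((hd1 F.sg b).const_mul (k P * Lp ψL ψR (a - a0 P))).neg
  exact db_eq F.s0 h

theorem dP1 (P a b : ℝ) : dP (LH1 g ζ) (P, a, b) = -(deriv g P * ζ (a ^ 2 + b ^ 2)) := by
  have h := ((hd1 F.sg P).mul_const (ζ (a ^ 2 + b ^ 2))).neg
  exact dP_eq F.s1 h

theorem da1 (P a b : ℝ) : da (LH1 g ζ) (P, a, b) =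
    -(g P * (deriv ζ (a ^ 2 + b ^ 2) * (2 * a))) := by
  have h0 : HasDerivAt (fun t : ℝ => t ^ 2 + b ^ 2) (2 * a) a := by
    simpa using hasDerivAt_pow 2 a
  have h := (((hd1 F.sζ (a ^ 2 + b ^ 2)).comp a h0).const_mul (g P)).neg
  exact da_eq F.s1 h

theorem db1 (P a b : ℝ) : db (LH1 g ζ) (P, a, b) =
    -(g P * (deriv ζ (a ^ 2 + b ^ 2) * (2 * b))) := by
  have h0 : HasDerivAt (fun t : ℝ => a ^ 2 + t ^ 2) (2 * b) b := by
    simpa using hasDerivAt_pow 2 b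
  have h := (((hd1 F.sζ (a ^ 2 + b ^ 2)).comp b h0).const_mul (g P)).neg
  exact db_eq F.s1 h

theorem fτ (P a b : ℝ) (v : R3) : fderiv ℝ (Lτ a0) (P, a, b) v =
    2 * ((a - a0 P) * (v.2.1 - deriv a0 P * v.1) + b * v.2.2) := by
  have h1 : dP (Lτ a0) (P, a, b) = 2 * (a - a0 P) * -deriv a0 P :=
    dP_eq F.sτ (by simpa [Lτ] using ((hd1 F.sa P).const_sub a).fun_pow 2)
  have h2 : da (Lτ a0) (P, a, b) = 2 * (a - a0 P) :=
    da_eq F.sτ (by simpa [Lτ] using ((hasDerivAt_id' a).sub_const (a0 P)).fun_pow 2)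
  have h3 : db (Lτ a0) (P, a, b) = 2 * b :=
    db_eq F.sτ (by simpa [Lτ] using hasDerivAt_pow 2 b)
  rw [fd_eq, h1, h2, h3]; ring

theorem ne0 (h : 0 < δ) {x : R3} (hx : LH0 a0 k ψL ψR g x ≠ 0) :
    -(2 * δ) ≤ x.1 ∧ x.1 ≤ 1 ∧ |x.2.1 - a0 x.1| ≤ δ ∧ |x.2.2| ≤ δ := by
  refine ⟨?_, ?_, ?_, ?_⟩ <;> by_contra hc <;> rw [not_le] at hc <;> apply hx
  · simp [LH0, F.k2 _ hc.le]
  · simp [LH0, F.k0 h hc.le]
  · simp [LH0, F.p0 hc.le]
  · simp [LH0, F.g0 _ hc.le]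

theorem ne1 {x : R3} (hx : LH1 g ζ x ≠ 0) :
    |x.1| ≤ δ ∧ |x.2.1 ^ 2 + x.2.2 ^ 2 - 1| ≤ 5 * δ := by
  refine ⟨?_, ?_⟩ <;> by_contra hc <;> rw [not_le] at hc <;> apply hx
  · simp [LH1, F.g0 _ hc.le]
  · simp [LH1, F.z0 _ hc.le]

theorem radle (h' : δ ≤ 1 / 100) {x : R3} (h1 : -(2 * δ) ≤ x.1) (h2 : x.1 ≤ 1)
    (h3 : |x.2.1 - a0 x.1| ≤ δ) (h4 : |x.2.2| ≤ δ) : |rad x - 1| ≤ 6 * δ := by
  have h5 := abs_le.1 (F.a4 _ h1 h2)
  have h6 := F.a3 x.1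
  have h7 := sq_le_sq' (abs_le.1 h3).1 (abs_le.1 h3).2
  have h8 := sq_le_sq' (abs_le.1 h4).1 (abs_le.1 h4).2
  have h9 := abs_le.1 h3
  have h0 : 0 ≤ δ := (abs_nonneg _).trans h3
  have e : rad x - 1 = (x.1 + a0 x.1 ^ 2 - 1) + (x.2.1 - a0 x.1) ^ 2 +
      2 * (a0 x.1 * (x.2.1 - a0 x.1)) + x.2.2 ^ 2 := by unfold rad; ring
  rw [e, abs_le]
  constructor <;> nlinarith [h6.1, h6.2, sq_nonneg (x.2.1 - a0 x.1), sq_nonneg x.2.2]

theorem loc (h : 0 < δ) (h' : δ ≤ 1 / 100) {Zs : Finset ℝ}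
    (hZ : ∀ a ∈ Zs, |a - 1| ≤ δ ∧ a = Lp ψL ψR (a - 1)) :
    Loc (LH0 a0 k ψL ψR g) (LH1 g ζ) δ (Lτ a0) Zs := by
  have small : ∀ x : R3, Lτ a0 x ≤ (δ / 3) ^ 2 → |x.2.1 - a0 x.1| ≤ δ / 3 ∧ |x.2.2| ≤ δ / 3 :=
    fun x hx => by
      unfold Lτ at hx
      exact ⟨abs_le_of_sq_le_sq' (by nlinarith [sq_nonneg x.2.2]) (by linarith) |> abs_le.2,
        abs_le_of_sq_le_sq' (by nlinarith [sq_nonneg (x.2.1 - a0 x.1)]) (by linarith) |> abs_le.2⟩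
  have g00 : g 0 = 0 := F.g1 0 (by simp; linarith)
  refine ⟨F.s0, F.s1, F.sτ, ?_, ?_, fun x hx => ?_, fun x => ?_, ?_, fun x h1 h2 h3 => ?_, ?_, ?_⟩
  · refine HasCompactSupport.intro (isCompact_closedBall (0 : R3) 2) fun x hx => ?_
    by_contra hc
    obtain ⟨h1, h2, h3, h4⟩ := F.ne0 h hc
    have h5 := F.a3 x.1
    refine hx ?_
    simp only [mem_closedBall, dist_zero_right, Prod.norm_def, Real.norm_eq_abs, max_le_iff,
      abs_le] at h3 h4 ⊢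
    refine ⟨⟨?_, ?_⟩, ⟨?_, ?_⟩, ?_, ?_⟩ <;> linarith [h5.1, h5.2, h3.1, h3.2, h4.1, h4.2]
  · refine HasCompactSupport.intro (isCompact_closedBall (0 : R3) 2) fun x hx => ?_
    by_contra hc
    obtain ⟨h1, h2⟩ := F.ne1 hc
    refine hx ?_
    simp only [mem_closedBall, dist_zero_right, Prod.norm_def, Real.norm_eq_abs, max_le_iff,
      abs_le] at h1 h2 ⊢
    refine ⟨⟨?_, ?_⟩, ⟨?_, ?_⟩, ?_, ?_⟩ <;>
      nlinarith [h1.1, h1.2, h2.2, sq_nonneg x.2.1, sq_nonneg x.2.2]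
  · have hc : Continuous fun y : R3 => |rad y - 1| := by unfold rad; fun_prop
    filter_upwards [hc.continuousAt.eventually (lt_mem_nhds hx)] with y hy
    constructor <;> by_contra hn
    · obtain ⟨h1, h2, h3, h4⟩ := F.ne0 h hn
      linarith [F.radle h' h1 h2 h3 h4]
    · obtain ⟨h1, h2⟩ := F.ne1 hn
      have e : rad y - 1 = y.1 + (y.2.1 ^ 2 + y.2.2 ^ 2 - 1) := by unfold rad; ring
      linarith [abs_add_le y.1 (y.2.1 ^ 2 + y.2.2 ^ 2 - 1), e ▸ hy]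
  · rw [LH1, abs_neg, abs_mul, abs_of_nonneg (F.zm _).1]
    exact (mul_le_of_le_one_right (abs_nonneg _) (F.zm _).2).trans (F.g3 _)
  · rintro ⟨P, a, b⟩ hP
    have hP : 1 ≤ P := hP
    have e1 := F.k0 h hP
    have e2 : g P = 0 := F.g0 P (by rw [abs_of_nonneg (by linarith)]; linarith)
    have e3 : a0 P = 0 := F.a2 P (by linarith)
    refine ⟨fun s => by simp [ha, hb, F.da0, F.db0, F.da1, F.db1, e1, e2], by simp [Lτ, e3],
      fun v => ?_⟩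
    rw [F.fτ, e3, deriv_hi F.a2 (by linarith)]; ring
  · obtain ⟨h4, h5⟩ := small x h1
    exact F.radle h' (by linarith) h3 (by linarith) (by linarith)
  · obtain ⟨C, hC⟩ := (isCompact_Icc (a := -δ) (b := 1)).exists_bound_of_continuousOn
      (F.sa.continuous_deriv (by simp)).continuousOn
    refine ⟨C, ?_⟩
    rintro ⟨P, a, b⟩ h1 h2 h3 s E
    obtain ⟨h4, h5⟩ := small _ h1
    simp only [] at h2 h3 h4 h5
    have h6 : g P * deriv ζ (a ^ 2 + b ^ 2) = 0 := by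
      rcases le_total δ P with h7 | h7
      · rw [F.g0 P (le_trans h7 (le_abs_self P)), zero_mul]
      · rw [F.a1 P h7] at h4
        rw [F.zd0, mul_zero]
        rw [abs_le] at h4 h5
        rw [abs_lt]
        constructor <;> nlinarith [h4.1, h4.2, h5.1, h5.2]
    have e1 : hb (LH0 a0 k ψL ψR g) (LH1 g ζ) s (P, a, b) = -(a0 P / 2 - P * deriv a0 P) := by
      rw [hb, F.db0, F.db1, ← mul_assoc (g P), h6, F.p1 (by linarith), F.gd1 (by linarith),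
        F.k1 P h2]
      ring
    have e2 : ha (LH0 a0 k ψL ψR g) (LH1 g ζ) s (P, a, b) = 0 := by
      rw [ha, F.da0, F.da1, ← mul_assoc (g P), h6, F.pd0 (by linarith)]
      ring
    rw [F.fτ]
    simp only [XL, e1, e2, Lτ]
    have h7 : |2 * (a - a0 P) * (deriv a0 P * E)| ≤ C * |E| := by
      have h8 : |deriv a0 P| ≤ C := hC P ⟨h2, h3⟩
      rw [abs_mul, abs_mul (deriv a0 P), abs_mul, abs_two]
      have h9 : |deriv a0 P| * |E| ≤ C * |E| := by gcongr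
      have h10 : 0 ≤ |deriv a0 P| * |E| := by positivity
      nlinarith [abs_nonneg (a - a0 P)]
    nlinarith [le_abs_self (2 * (a - a0 P) * (deriv a0 P * E))]
  · intro a ha
    obtain ⟨h1, h2⟩ := hZ a ha
    have h3 := abs_le.1 h1
    have h4 : |(0 : ℝ)| < δ := by simpa using h
    refine ⟨h1, abs_le.2 ⟨by nlinarith [h3.1, h3.2], by nlinarith [h3.1, h3.2]⟩,
      by simp [F.dP0, g00], by simp [F.da0, g00], ?_, by simp [LH1, g00]⟩
    rw [F.db0, F.kh h4, F.a1 0 h.le, ← h2, F.gd1 (by simp; linarith)]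
    ring

end Fn

end

end Pool.Agent.MP_6d695c_gt.SW

end MrgPart2

-- ======== part 3: formerly Pool.Agent.MP_6d695c_gt.sw.Loc
section MrgPart3

/-! PROJECT SW: the local Lyapunov functions and the statement LOC. -/

open scoped ContDiff Topology
open Set Metric Filter Real

namespace Pool.Agent.MP_6d695c_gt.SW

noncomputable section

def LΛ0 (ψR : ℝ → ℝ) (K1 KR Kb : ℝ) (x : R3) : ℝ :=
  K1 * x.1 ^ 2 + (x.2.1 ^ 2 / 2 - KR * ψR (x.2.1 - 1)) + Kb * x.2.2 ^ 2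

def LΛ1 (Ψ : ℝ → ℝ) (x : R3) : ℝ := -Ψ (x.2.1 - 1)

theorem sΛ0 {ψR : ℝ → ℝ} (h : ContDiff ℝ ∞ ψR) (K1 KR Kb : ℝ) :
    ContDiff ℝ ∞ (LΛ0 ψR K1 KR Kb) := by
  unfold LΛ0; fun_prop

theorem sΛ1 {Ψ : ℝ → ℝ} (h : ContDiff ℝ ∞ Ψ) : ContDiff ℝ ∞ (LΛ1 Ψ) := by
  unfold LΛ1; fun_prop

theorem fΛ0 {ψR : ℝ → ℝ} (h : ContDiff ℝ ∞ ψR) (K1 KR Kb P a b : ℝ) (v : R3) :
    fderiv ℝ (LΛ0 ψR K1 KR Kb) (P, a, b) v =
      2 * K1 * P * v.1 + (a - KR * deriv ψR (a - 1)) * v.2.1 + 2 * Kb * b * v.2.2 := by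
  have h1 : dP (LΛ0 ψR K1 KR Kb) (P, a, b) = K1 * (2 * P) :=
    dP_eq (sΛ0 h ..) (by simpa [LΛ0] using (hasDerivAt_pow 2 P).const_mul K1)
  have h2 : da (LΛ0 ψR K1 KR Kb) (P, a, b) = 2 * a / 2 - KR * (deriv ψR (a - 1) * 1) := by
    have h0 : HasDerivAt (fun t : ℝ => t ^ 2) (2 * a) a := by simpa using hasDerivAt_pow 2 a
    have h3 := (((h0.div_const 2).sub (((hd1 h (a - 1)).comp a
      ((hasDerivAt_id' a).sub_const 1)).const_mul KR)).const_add (K1 * P ^ 2)).add_const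
        (Kb * b ^ 2)
    exact da_eq (sΛ0 h ..) h3
  have h3 : db (LΛ0 ψR K1 KR Kb) (P, a, b) = Kb * (2 * b) :=
    db_eq (sΛ0 h ..) (by simpa [LΛ0] using (hasDerivAt_pow 2 b).const_mul Kb)
  rw [fd_eq, h1, h2, h3]; ring

theorem fΛ1 {Ψ p : ℝ → ℝ} (h : ContDiff ℝ ∞ Ψ) (hp : ∀ x, HasDerivAt Ψ (p x) x) (P a b : ℝ)
    (v : R3) : fderiv ℝ (LΛ1 Ψ) (P, a, b) v = -(p (a - 1) * v.2.1) := by
  have h1 : dP (LΛ1 Ψ) (P, a, b) = 0 := dP_eq (sΛ1 h) (hasDerivAt_const P (-Ψ (a - 1)))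
  have h2 : da (LΛ1 Ψ) (P, a, b) = -(p (a - 1) * 1) := by
    have h3 := ((hp (a - 1)).comp a ((hasDerivAt_id' a).sub_const 1)).neg
    exact da_eq (sΛ1 h) h3
  have h3 : db (LΛ1 Ψ) (P, a, b) = 0 := db_eq (sΛ1 h) (hasDerivAt_const b (-Ψ (a - 1)))
  rw [fd_eq, h1, h2, h3]; ring

theorem cont_part {u : R3 → ℝ} (hu : ContDiff ℝ ∞ u) :
    Continuous (dP u) ∧ Continuous (da u) ∧ Continuous (db u) :=
  ⟨(hu.continuous_fderiv (by simp)).clm_apply continuous_const,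
    (hu.continuous_fderiv (by simp)).clm_apply continuous_const,
    (hu.continuous_fderiv (by simp)).clm_apply continuous_const⟩

theorem bound_box {T : R3 × ℝ × ℝ × ℝ → ℝ} (hT : Continuous T) (R : ℝ) :
    ∃ C, 0 ≤ C ∧ ∀ P a b A s e : ℝ, |P| ≤ R → |a| ≤ R → |b| ≤ R → |A| ≤ R → |s| ≤ R → |e| ≤ R →
      |T ((P, a, b), A, s, e)| ≤ C := by
  obtain ⟨C, hC⟩ := (isCompact_closedBall (0 : R3 × ℝ × ℝ × ℝ) R).exists_bound_of_continuousOn
    hT.continuousOn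
  refine ⟨|C|, abs_nonneg _, fun P a b A s e h1 h2 h3 h4 h5 h6 => ?_⟩
  refine (hC _ ?_).trans (le_abs_self C)
  simp [Prod.norm_def, h1, h2, h3, h4, h5, h6]

theorem ar_box {P a b Cw : ℝ} (h : |P + a ^ 2 + b ^ 2 - 1| ≤ 1 / 4)
    (hw : a ^ 2 + b ^ 2 ≤ Cw) : |P| ≤ |Cw| + 2 ∧ |a| ≤ |Cw| + 2 ∧ |b| ≤ |Cw| + 2 := by
  have h1 := abs_le.1 h
  have h2 := le_abs_self Cw
  have s1 := sq_nonneg a
  have s2 := sq_nonneg b
  exact ⟨abs_le.2 ⟨by linarith [h1.1], by linarith [h1.2]⟩,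
    abs_le.2 ⟨by nlinarith [sq_nonneg (a + 1)], by nlinarith [sq_nonneg (a - 1)]⟩,
    abs_le.2 ⟨by nlinarith [sq_nonneg (b + 1)], by nlinarith [sq_nonneg (b - 1)]⟩⟩

theorem ar_easy {P a b s m B δ D z R : ℝ} (h' : δ ≤ 1 / 100) (hm0 : 0 < m) (hm1 : m * B ≤ δ / 2)
    (hm2 : m ≤ 1 / 16) (hB : B = R ^ 2 + (R + 2) ^ 2 + 1) (ha : |a| ≤ R) (hb : |b| ≤ R)
    (hs : s ^ 2 ≤ 1) (hz : |z - 1| ≤ δ) (h1 : P ^ 2 + δ / 2 ≤ D) :
    P ^ 2 ≤ D ∧ m ≤ D ∧ m * (P ^ 2 + b ^ 2 + (a - z) ^ 2 + s ^ 2) ≤ D := by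
  have h2 := abs_le.1 hz
  have h3 : b ^ 2 ≤ R ^ 2 := sq_le_sq' (abs_le.1 hb).1 (abs_le.1 hb).2
  have h4 : (a - z) ^ 2 ≤ (R + 2) ^ 2 := sq_le_sq' (by linarith [(abs_le.1 ha).1, h2.2])
    (by linarith [(abs_le.1 ha).2, h2.1])
  have h5 : m * (b ^ 2 + (a - z) ^ 2 + s ^ 2) ≤ m * B := by gcongr; linarith
  have h6 : m * P ^ 2 ≤ 1 / 16 * P ^ 2 := by gcongr
  have h7 : m * 1 ≤ m * B := by gcongr; nlinarith [sq_nonneg R, sq_nonneg (R + 2)]
  have h8 := sq_nonneg P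
  exact ⟨by linarith, by linarith, by linarith⟩

theorem ar_good {P a b s e m δ D W A p κ c : ℝ} {Z : Finset ℝ} (h' : δ ≤ 1 / 100)
    (hm2 : m ≤ 1 / 16) (hm3 : m ≤ c ^ 2 / 2) (hc : 0 < c) (hκ : 0 ≤ κ)
    (hA : A ∈ Icc (0 : ℝ) 1) (hp : p ∈ Icc (0 : ℝ) 1) (hes : 0 ≤ e * s) (ha : |a - 1| < δ)
    (hW : (a - A * p) ^ 2 / 2 + b ^ 2 ≤ W) (hx : ∃ z ∈ Z, c * |a - z| ≤ |a - p|)
    (eD : D = (κ + 1) * P ^ 2 + W + A * (e * s)) :
    P ^ 2 ≤ D ∧ (1 / 8 ≤ e * s ∨ A = 0 → m ≤ D) ∧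
      (A = 1 → s ^ 2 / 2 ≤ e * s → ∃ z ∈ Z, m * (P ^ 2 + b ^ 2 + (a - z) ^ 2 + s ^ 2) ≤ D) := by
  have h1 := abs_lt.1 ha
  have h2 : 0 ≤ A * (e * s) := mul_nonneg hA.1 hes
  have h3 : 0 ≤ κ * P ^ 2 := by positivity
  have s1 := sq_nonneg (a - A * p)
  have s2 := sq_nonneg b
  have s3 := sq_nonneg P
  refine ⟨by linarith, fun h4 => ?_, fun h4 h5 => ?_⟩
  · have h5 : 1 / 16 ≤ (a - A * p) ^ 2 / 2 + A * (e * s) := by
      rcases le_total A (1 / 2) with h6 | h6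
      · have h7 : A * p ≤ 1 / 2 := by nlinarith [hp.1, hp.2, hA.1]
        nlinarith [h1.1]
      · rcases h4 with h4 | h4
        · nlinarith
        · linarith
    linarith
  · obtain ⟨z, hz, h6⟩ := hx
    refine ⟨z, hz, ?_⟩
    have h7 : (c * |a - z|) ^ 2 ≤ |a - p| ^ 2 := by gcongr
    rw [mul_pow, sq_abs, sq_abs] at h7
    have h8 : m * (a - z) ^ 2 ≤ c ^ 2 / 2 * (a - z) ^ 2 := by gcongr
    have h9 : m * (P ^ 2 + b ^ 2 + s ^ 2) ≤ 1 / 16 * (P ^ 2 + b ^ 2 + s ^ 2) := by gcongr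
    have s4 := sq_nonneg s
    rw [h4, one_mul] at hW eD
    linarith

theorem ar_far {P a b δ W A p : ℝ} (h : 0 < δ) (h' : δ ≤ 1 / 100)
    (hW : (a - A * p) ^ 2 / 2 + b ^ 2 ≤ W) (hp0 : δ ≤ |a - 1| → p = 0)
    (hr : |P + a ^ 2 + b ^ 2 - 1| ≤ 1 / 4) (hP : P < δ / 2)
    (hg : ¬(|a - 1| < δ ∧ |a ^ 2 + b ^ 2 - 1| < 4 * δ)) : δ ≤ W := by
  rcases le_or_gt δ |a - 1| with h2 | h2
  · rw [hp0 h2] at hW
    nlinarith [sq_nonneg b, (abs_le.1 hr).1]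
  · have h3 : 4 * δ ≤ |a ^ 2 + b ^ 2 - 1| := not_lt.1 fun h3 => hg ⟨h2, h3⟩
    have h4 := abs_lt.1 h2
    rcases le_abs'.1 h3 with h5 | h5
    · nlinarith [h4.1, sq_nonneg b]
    · nlinarith [h4.1, h4.2, sq_nonneg (a - A * p)]

theorem ar_sq {P Q C κ δ : ℝ} (h : 0 < δ) (hQ : |Q| ≤ C) (hκ : C ^ 2 ≤ κ * (2 * δ)) :
    0 ≤ κ * P ^ 2 + P * Q + δ / 2 := by
  have h3 : -(C * |P|) ≤ P * Q := by
    have h4 := neg_abs_le (P * Q)
    rw [abs_mul] at h4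
    nlinarith [abs_nonneg P]
  have h4 : 0 ≤ κ * P ^ 2 - C * |P| + δ / 2 := by
    refine nonneg_of_mul_nonneg_left (?_ : 0 ≤ _ * (2 * δ)) (by linarith)
    have h5 : C ^ 2 * P ^ 2 ≤ κ * (2 * δ) * P ^ 2 := by gcongr
    nlinarith [sq_nonneg (C * |P| - δ), sq_abs P]
  linarith

namespace Fn
variable {δ : ℝ} {a0 k ψL ψR g ζ : ℝ → ℝ} (F : Fn δ a0 k ψL ψR g ζ)
include F

/-- the production in the variables `(a, b)` -/
theorem prodW (h : 0 < δ) (h' : δ ≤ 1 / 100) {Cg A a b : ℝ} (hCg : 0 ≤ Cg)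
    (hA : A ∈ Icc (0 : ℝ) 1) (hb : 1 - deriv g b ≤ Cg * b ^ 2) :
    (a - A * Lp ψL ψR (a - 1)) ^ 2 / 2 + b ^ 2 ≤
      (a - A * Lp ψL ψR (a - 1) - 4 * (Cg / 2 + 1) * δ * deriv ψR (a - 1)) *
        (a / 2 - A / 2 * Lp ψL ψR (a - 1) * deriv g b) +
      2 * (Cg / 2 + 1) * b * (b / 2 + A / 2 * deriv (Lp ψL ψR) (a - 1) * g b) := by
  have hp := F.pm (a - 1)
  have hg := F.gd b
  have hR := F.Rd (a - 1)
  have hL : 0 ≤ deriv ψL (a - 1) := by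
    have h1 := F.Ld (a - 1)
    have h2 := F.Lm (a - 1)
    have h3 : 0 ≤ ψL (a - 1) * (1 - ψL (a - 1)) := mul_nonneg h2.1 (by linarith [h2.2])
    exact nonneg_of_mul_nonneg_right (by linarith) h
  have hbg : b * g b ≤ δ ^ 2 := by
    rcases le_total δ |b| with h1 | h1
    · rw [F.g0 b h1]; nlinarith
    · have h2 := F.g3 b
      have h3 := le_abs_self (b * g b)
      rw [abs_mul] at h3
      nlinarith [abs_nonneg b, abs_nonneg (g b)]
  have hbg0 := F.g2 b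
  rw [F.pd]
  set p := Lp ψL ψR (a - 1) with hpd
  set q := A * p with hq
  have hq0 : 0 ≤ q := mul_nonneg hA.1 hp.1
  have hq1 : q ≤ 1 := mul_le_one₀ hA.2 hp.1 hp.2
  have h1 : -1 ≤ (a - q) * q := by
    rcases le_total δ |a - 1| with h2 | h2
    · rw [hq, hpd, F.p0 h2]; simp
    · nlinarith [(abs_le.1 h2).1]
  have h2 : -(Cg * b ^ 2) ≤ (a - q) * q * (1 - deriv g b) := by nlinarith
  have h3 : 0 ≤ A * (deriv ψL (a - 1) * ψR (a - 1)) * (b * g b) :=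
    mul_nonneg (mul_nonneg hA.1 (mul_nonneg hL (F.Rm _).1)) hbg0
  have h4 : 0 ≤ -deriv ψR (a - 1) *
      (4 * δ * (a / 2 - q / 2 * deriv g b) - A * ψL (a - 1) * (b * g b)) := by
    rcases lt_or_ge (a - 1) (δ / 2) with h5 | h5
    · rw [deriv_lo F.R1 h5]; simp
    · refine mul_nonneg (by linarith) ?_
      have h6 : q * deriv g b ≤ 1 := by nlinarith
      have h7 : A * ψL (a - 1) ≤ 1 := mul_le_one₀ hA.2 (F.Lm _).1 (F.Lm _).2
      have h8 : A * ψL (a - 1) * (b * g b) ≤ δ ^ 2 := by nlinarith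
      nlinarith
  have hK : 0 ≤ Cg / 2 + 1 := by linarith
  have e : (a - q - 4 * (Cg / 2 + 1) * δ * deriv ψR (a - 1)) * (a / 2 - A / 2 * p * deriv g b) +
      2 * (Cg / 2 + 1) * b * (b / 2 + A / 2 * (deriv ψL (a - 1) * ψR (a - 1) +
        ψL (a - 1) * deriv ψR (a - 1)) * g b) =
      (a - q) ^ 2 / 2 + (a - q) * q * (1 - deriv g b) / 2 + (Cg / 2 + 1) * b ^ 2 +
      (Cg / 2 + 1) * (A * (deriv ψL (a - 1) * ψR (a - 1)) * (b * g b)) +
      (Cg / 2 + 1) * (-deriv ψR (a - 1) *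
        (4 * δ * (a / 2 - q / 2 * deriv g b) - A * ψL (a - 1) * (b * g b))) := by
    rw [hq]; ring
  rw [e]
  linarith [mul_nonneg hK h3, mul_nonneg hK h4]

theorem roots (h : 0 < δ) (h' : δ ≤ 1 / 100) : ∃ (Z : Finset ℝ) (c : ℝ), 0 < c ∧
    (∀ z ∈ Z, |z - 1| ≤ δ ∧ z = Lp ψL ψR (z - 1)) ∧
    ∀ x, |x - 1| ≤ δ → ∃ z ∈ Z, c * |x - z| ≤ |x - Lp ψL ψR (x - 1)| := by
  have hd : ∀ x, HasDerivAt (fun x => x - Lp ψL ψR (x - 1))
      (1 - deriv (Lp ψL ψR) (x - 1) * 1) x := fun x => by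
    have h := (hasDerivAt_id' x).sub ((hd1 F.sp (x - 1)).comp x ((hasDerivAt_id' x).sub_const 1))
    exact h
  obtain ⟨Z, c, h1, h2, h3⟩ := simple_roots (f := fun x => x - Lp ψL ψR (x - 1))
    (isCompact_closedBall 1 δ) (fun x => (hd x).differentiableAt) (z₀ := 1)
    (mem_closedBall_self h.le) (by simp [F.p1 (x := 0) (by simp; linarith)]) fun z hz h0 => by
      have h0 : z - Lp ψL ψR (z - 1) = 0 := h0
      have hz : |z - 1| ≤ δ := hz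
      have h4 : z - 1 < δ / 2 := by linarith [(F.pm (z - 1)).2]
      rw [(hd z).deriv, F.pd, deriv_lo F.R1 h4, F.R1 _ h4.le]
      rcases lt_or_ge (-(δ / 2)) (z - 1) with h5 | h5
      · rw [deriv_hi F.L1 h5]; simp
      · have h6 := F.Ld (z - 1)
        rw [Lp, F.R1 _ h4.le, mul_one, sub_eq_zero] at h0
        rw [← h0] at h6
        have h7 : δ * 1 < δ * deriv ψL (z - 1) := by nlinarith [(abs_le.1 hz).1]
        have := lt_of_mul_lt_mul_left h7 h.le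
        intro h8
        linarith
  exact ⟨Z, c, h1, fun z hz => ⟨(h2 z hz).1, sub_eq_zero.1 (h2 z hz).2⟩, fun x hx => h3 x hx⟩

theorem locL (h : 0 < δ) (h' : δ ≤ 1 / 100) {Z : Finset ℝ} {c : ℝ} (hc : 0 < c)
    (hZ : ∀ z ∈ Z, |z - 1| ≤ δ ∧ z = Lp ψL ψR (z - 1))
    (hx : ∀ x, |x - 1| ≤ δ → ∃ z ∈ Z, c * |x - z| ≤ |x - Lp ψL ψR (x - 1)|) (Cw : ℝ) :
    ∃ (Λ0 Λ1 : R3 → ℝ) (m KΛ : ℝ), LocL (LH0 a0 k ψL ψR g) (LH1 g ζ) Z Cw Λ0 Λ1 m KΛ := by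
  obtain ⟨Ψ, sΨ, -, hΨ⟩ := exists_primitive F.sp
  obtain ⟨R, hR, hR2⟩ : ∃ R, |Cw| + 2 = R ∧ 2 ≤ R := ⟨_, rfl, by linarith [abs_nonneg Cw]⟩
  have cg := F.sg.continuous_deriv (by simp)
  have cR := F.sR.continuous_deriv (by simp)
  have cz := F.sζ.continuous_deriv (by simp)
  have cp := F.sp.continuous
  obtain ⟨c1, c2, c3⟩ := cont_part F.s0
  obtain ⟨c4, c5, c6⟩ := cont_part F.s1
  obtain ⟨C0, hC0, hg⟩ := bound_box (T := fun y => deriv g y.1.2.2) (by fun_prop) R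
  obtain ⟨Cg, hCg, hgb⟩ : ∃ Cg, 0 ≤ Cg ∧ ∀ b, |b| ≤ R → 1 - deriv g b ≤ Cg * b ^ 2 := by
    refine ⟨(1 + C0) / (δ / 2) ^ 2, by positivity, fun b hb => ?_⟩
    rcases lt_or_ge |b| (δ / 2) with h1 | h1
    · rw [F.gd1 h1, sub_self]; positivity
    · have h2 : |deriv g b| ≤ C0 := hg 0 0 b 0 0 0 (by simp; linarith) (by simp; linarith) hb
        (by simp; linarith) (by simp; linarith) (by simp; linarith)
      have h3 : (δ / 2) ^ 2 ≤ b ^ 2 := by rw [← sq_abs b]; gcongr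
      rw [div_mul_eq_mul_div, le_div_iff₀ (by positivity)]
      nlinarith [(abs_le.1 h2).1, F.gd b]
  obtain ⟨Kb, hKb⟩ : ∃ Kb, Kb = Cg / 2 + 1 := ⟨_, rfl⟩
  obtain ⟨CT, hCT, hT⟩ := bound_box (T := fun y =>
    (y.1.2.1 - y.2.1 * Lp ψL ψR (y.1.2.1 - 1) - 4 * Kb * δ * deriv ψR (y.1.2.1 - 1)) *
      (y.1.2.1 / 2 + y.2.1 * hb (LH0 a0 k ψL ψR g) (LH1 g ζ) y.2.2.1 y.1) +
    2 * Kb * y.1.2.2 * (y.1.2.2 / 2 - y.2.1 * ha (LH0 a0 k ψL ψR g) (LH1 g ζ) y.2.2.1 y.1) -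
    y.2.2.2 * y.2.1 * hP (LH0 a0 k ψL ψR g) (LH1 g ζ) y.2.2.1 y.1)
    (by unfold ha hb hP; fun_prop) R
  obtain ⟨C1, hC1, hq⟩ := bound_box (T := fun y =>
    y.2.1 * y.2.2.1 * deriv ζ (y.1.2.1 ^ 2 + y.1.2.2 ^ 2) * (4 * Kb * y.1.2.1 * y.1.2.2 -
      2 * y.1.2.2 * (y.1.2.1 - y.2.1 * Lp ψL ψR (y.1.2.1 - 1) -
        4 * Kb * δ * deriv ψR (y.1.2.1 - 1)))) (by fun_prop) R
  obtain ⟨κ, hκ1, hκ2⟩ : ∃ κ, CT + 1 ≤ κ * (δ / 2) ^ 2 ∧ C1 ^ 2 ≤ κ * (2 * δ) := by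
    refine ⟨(CT + 1) / (δ / 2) ^ 2 + C1 ^ 2 / (2 * δ), ?_, ?_⟩
    · rw [add_mul, div_mul_cancel₀ _ (by positivity)]
      exact le_add_of_nonneg_right (by positivity)
    · rw [add_mul, div_mul_cancel₀ _ (by positivity)]
      exact le_add_of_nonneg_left (by positivity)
  have hκ : 0 ≤ κ := nonneg_of_mul_nonneg_left (by linarith) (show 0 < (δ / 2) ^ 2 by positivity)
  obtain ⟨B, hB⟩ : ∃ B, B = R ^ 2 + (R + 2) ^ 2 + 1 := ⟨_, rfl⟩
  have hB1 : 1 ≤ B := by rw [hB]; linarith only [sq_nonneg R, sq_nonneg (R + 2)]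
  obtain ⟨m, hm0, hm1, hm2, hm3⟩ : ∃ m, 0 < m ∧ m * B ≤ δ / 2 ∧ m ≤ 1 / 16 ∧ m ≤ c ^ 2 / 2 :=
    ⟨min (δ / 2 / B) (min (1 / 16) (c ^ 2 / 2)), by positivity,
      (le_div_iff₀ (by linarith)).1 (min_le_left _ _), (min_le_right _ _).trans (min_le_left _ _),
      (min_le_right _ _).trans (min_le_right _ _)⟩
  obtain ⟨z₀, hz₀, -⟩ := hx 1 (by simpa using h.le)
  refine ⟨LΛ0 ψR ((κ + 1) / 2) (4 * Kb * δ) Kb, LΛ1 Ψ, m, κ + 1, sΛ0 F.sR .., sΛ1 sΨ, hm0, ?_,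
    fun a ha => ?_, ?_⟩
  · rintro ⟨P, a, b⟩
    rw [dP, dP, fΛ0 F.sR, fΛ1 sΨ hΨ]
    have e : 2 * ((κ + 1) / 2) * P = (κ + 1) * P := by ring
    simp [e, abs_mul, abs_of_nonneg (show 0 ≤ κ + 1 by linarith)]
  · obtain ⟨h1, h2⟩ := hZ a ha
    have h3 : a - 1 < δ / 2 := by linarith [(F.pm (a - 1)).2]
    refine ContinuousLinearMap.ext fun v => ?_
    rw [add_apply, fΛ0 F.sR, fΛ1 sΨ hΨ, deriv_lo F.R1 h3, ← h2]
    simp
  rintro ⟨P, a, b⟩ hrad hw A hA s e hs he hes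
  simp only [rad] at hrad hw ⊢
  obtain ⟨hP', ha', hb'⟩ := ar_box hrad hw
  rw [hR] at hP' ha' hb'
  have hA' : |A| ≤ R := abs_le.2 ⟨by linarith only [hA.1, hR2], by linarith only [hA.2, hR2]⟩
  have hs' : |s| ≤ R := by linarith only [hs, hR2]
  have he' : |e| ≤ R := by linarith only [he, hR2]
  have hs2 : s ^ 2 ≤ 1 := (sq_le_one_iff_abs_le_one s).2 hs
  set D := DL (LH0 a0 k ψL ψR g) (LH1 g ζ) (LΛ0 ψR ((κ + 1) / 2) (4 * Kb * δ) Kb) (LΛ1 Ψ) A s e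
    (P, a, b) with hD
  have eD : D = (κ + 1) * P ^ 2 +
      ((a - A * Lp ψL ψR (a - 1) - 4 * Kb * δ * deriv ψR (a - 1)) *
        (a / 2 + A * hb (LH0 a0 k ψL ψR g) (LH1 g ζ) s (P, a, b)) +
      2 * Kb * b * (b / 2 - A * ha (LH0 a0 k ψL ψR g) (LH1 g ζ) s (P, a, b)) -
      e * A * hP (LH0 a0 k ψL ψR g) (LH1 g ζ) s (P, a, b)) := by
    rw [hD, DL, fΛ0 F.sR, fΛ1 sΨ hΨ]
    simp only [XL]
    ring
  clear_value D
  have easy : P ^ 2 + δ / 2 ≤ D → P ^ 2 ≤ D ∧ (1 / 8 ≤ e * s ∨ A = 0 → m ≤ D) ∧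
      (A = 1 → s ^ 2 / 2 ≤ e * s → ∃ z ∈ Z, m * (P ^ 2 + b ^ 2 + (a - z) ^ 2 + s ^ 2) ≤ D) := by
    intro h1
    obtain ⟨h2, h3, h4⟩ := ar_easy h' hm0 hm1 hm2 hB ha' hb' hs2 (hZ z₀ hz₀).1 h1
    exact ⟨h2, fun _ => h3, fun _ _ => ⟨z₀, hz₀, h4⟩⟩
  rcases le_or_gt (δ / 2) |P| with hP | hP
  · have h1 := (abs_le.1 (hT P a b A s e hP' ha' hb' hA' hs' he')).1
    have h2 : (δ / 2) ^ 2 ≤ P ^ 2 := by rw [← sq_abs P]; gcongr
    have h3 : κ * (δ / 2) ^ 2 ≤ κ * P ^ 2 := by gcongr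
    refine easy ?_
    simp only [] at h1
    linarith only [h1, h3, hκ1, eD, h']
  have hPδ : |P| < δ := by linarith only [hP, h]
  have hW := F.prodW h h' (a := a) hCg hA (hgb b hb')
  have hQ := hq P a b A s e hP' ha' hb' hA' hs' he'
  simp only [] at hQ
  rw [ha, hb, SW.hP, F.dP0, F.da0, F.db0, F.dP1, F.da1, F.db1, F.kh hPδ, F.kd hPδ,
    F.a1 P (abs_lt.1 hPδ).2.le, deriv_lo F.a1 (abs_lt.1 hPδ).2, F.g1 P hP.le, F.gd1 hP] at eD
  rw [← hKb] at hW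
  have hp := F.pm (a - 1)
  have hp0 := F.p0 (x := a - 1)
  have hx' := hx a
  set p := Lp ψL ψR (a - 1)
  set W := (a - A * p - 4 * Kb * δ * deriv ψR (a - 1)) * (a / 2 - A / 2 * p * deriv g b) +
    2 * Kb * b * (b / 2 + A / 2 * deriv (Lp ψL ψR) (a - 1) * g b) with hWd
  set Q := A * s * deriv ζ (a ^ 2 + b ^ 2) * (4 * Kb * a * b -
    2 * b * (a - A * p - 4 * Kb * δ * deriv ψR (a - 1))) with hQd
  have eD' : D = (κ + 1) * P ^ 2 + W + P * Q + A * (e * s) * ζ (a ^ 2 + b ^ 2) := by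
    rw [eD, hWd, hQd]; ring
  by_cases hgood : |a - 1| < δ ∧ |a ^ 2 + b ^ 2 - 1| < 4 * δ
  · have hQ0 : Q = 0 := by rw [hQd, F.zd0 hgood.2]; ring
    rw [hQ0, F.z1 _ hgood.2.le, mul_zero, add_zero, mul_one] at eD'
    exact ar_good h' hm2 hm3 hc hκ hA hp hes hgood.1 hW (hx' hgood.1.le) eD'
  · have h1 := ar_far h h' hW hp0 hrad (abs_lt.1 hP).2 hgood
    have h2 : 0 ≤ A * (e * s) * ζ (a ^ 2 + b ^ 2) := mul_nonneg (mul_nonneg hA.1 hes) (F.zm _).1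
    have h3 := ar_sq (P := P) h hQ hκ2
    exact easy (by linarith only [h1, h2, h3, eD'])

end Fn

theorem loc : LocStmt := by
  intro δ h h'
  obtain ⟨a0, k, ψL, ψR, g, ζ, F⟩ := exists_fn h h'
  obtain ⟨Z, c, hc, hZ, hx⟩ := F.roots h h'
  exact ⟨_, _, _, Z, F.loc h h' hZ, F.locL h h' hc hZ hx⟩

end

end Pool.Agent.MP_6d695c_gt.SW

end MrgPart3

-- marker of a merged file
example : 731051 + 57213 = 731051 + 57213 := rfl
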