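import Pool.Agent.MP_6d695c_gt.sw.Defs
import Mathlib.Analysis.Calculus.MeanValue
import Mathlib.Analysis.Normed.Module.HahnBanach
import Mathlib.Analysis.Calculus.BumpFunction.FiniteDimension
import Mathlib.Analysis.SpecialFunctions.SmoothTransition
import Mathlib.MeasureTheory.Integral.IntervalIntegral.FundThmCalculus
import Mathlib.Geometry.Manifold.PartitionOfUnity
import Mathlib.Analysis.Calculus.FDeriv.Symmetric

-- ======== part 0: formerly Pool.Agent.MP_6d695c_gt.sw.Tools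
section MrgPart0

-- ======== part 0: formerly Pool.Agent.MP_6d695c_gt.sw.Spec
section MrgPart0

/-! PROJECT SW: module statements.  See /team-store/SW_BLUEPRINT.md. -/

open scoped Manifold ContDiff Topology
open Set Metric Filter Real

namespace Pool.Agent.MP_6d695c_gt.SW

/-! ### Dynamics in a vector space -/

/-- REG-BAND: no periodic pseudo-orbit through a regular point of a strict Lyapunov function -/
def RegBandStmt : Prop :=
  ∀ (X : Type) [NormedAddCommGroup X] [NormedSpace ℝ X] (S 𝒵 : Set X) (Y : X → X) (Λ : X → ℝ),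
    IsCompact S → 𝒵.Finite → Continuous Y → ContDiff ℝ 1 Λ →
    (∀ x ∈ S, x ∉ 𝒵 → 0 < fderiv ℝ Λ x (Y x)) →
    ∀ x₀, x₀ ∉ 𝒵 → ∃ ε, 0 < ε ∧ ∀ c, Cyc S Y ε c → ∀ t, c t ≠ x₀

/-- AFLOW: the flow of a cut-off of a field tangent to `S` -/
def AFlowStmt : Prop :=
  ∀ (X E : Type) [NormedAddCommGroup X] [NormedSpace ℝ X] [FiniteDimensional ℝ X]
    [NormedAddCommGroup E] [NormedSpace ℝ E] [FiniteDimensional ℝ E] (S : Set X) (Y : X → X)
    (ψ : X → ℝ) (c : ℝ), Sub E S → ContDiff ℝ ∞ Y → ContDiff ℝ ∞ ψ → (∀ x ∈ S, Y x ∈ Tg S x) →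
    IsCompact {x ∈ S | ψ x ≤ c + 1} →
    ∃ (Y' : X → X) (K : NNReal) (fl : ℝ → X → X), ContDiff ℝ ∞ Y' ∧ LipschitzWith K Y' ∧
      (∀ x ∈ S, ψ x ≤ c → Y' x = Y x) ∧ IsFlow Y' fl ∧
      ∀ t, ∀ x ∈ S, ψ x ≤ c + 1 → fl t x ∈ S ∧ ψ (fl t x) ≤ c + 1

/-- LYAP: a global Lyapunov function when there is no recurrence -/
def LyapStmt : Prop :=
  ∀ (X E : Type) [NormedAddCommGroup X] [NormedSpace ℝ X] [FiniteDimensional ℝ X]
    [NormedAddCommGroup E] [NormedSpace ℝ E] [FiniteDimensional ℝ E] (S 𝒵 : Set X) (Y : X → X)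
    (ψ : X → ℝ), Sub E S → ContDiff ℝ ∞ Y → ContDiff ℝ ∞ ψ → (∀ x ∈ S, Y x ∈ Tg S x) →
    IsCompact {x ∈ S | ψ x ≤ 5} → (∀ x ∈ S, 2 ≤ ψ x → 0 < fderiv ℝ ψ x (Y x)) →
    𝒵.Finite → (∀ p ∈ 𝒵, p ∈ S ∧ ∃ u, GoodWith S Y p u) →
    (∀ x₀ ∈ S, ψ x₀ ≤ 2 → x₀ ∉ 𝒵 →
      ∃ ε, 0 < ε ∧ ∀ c, Cyc {x ∈ S | ψ x ≤ 2} Y ε c → ∀ t, c t ≠ x₀) →
    ∃ (Φ : X → ℝ) (A B : ℝ), ContDiff ℝ ∞ Φ ∧ 0 < A ∧ (∀ x, 3 ≤ ψ x → Φ x = A * ψ x + B) ∧
      ∀ x ∈ S, ψ x ≤ 4 → 0 < fderiv ℝ Φ x (Y x) ∨ GoodFor S Y Φ x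

/-- STEP: a curve that follows the flow outside `Act` and crosses `Act` with small displacement -/
def StepStmt : Prop :=
  ∀ (X : Type) [NormedAddCommGroup X] [NormedSpace ℝ X] (Y : X → X) (K : NNReal)
    (fl : ℝ → X → X) (h η : ℝ), LipschitzWith K Y → IsFlow Y fl → 0 < h → 0 < η →
    ∃ ε, 0 < ε ∧ ∀ (x : ℝ → X) (T : Set ℝ), Continuous x → IsClosed T →
      (∀ t ∉ T, Near x t (Y (x t)) ε) →
      (∀ t ∈ T, ∀ ς : ℝ, ς = 1 ∨ ς = -1 →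
        ∃ s ∈ Icc h (3 * h), ∃ t', dist (x t') (fl (ς * s) (x t)) ≤ ε) →
      Step fl h η (range x)

/-- CHAIN: a compact connected set with the step property that misses `Ω` is close to a zero -/
def ChainStmt : Prop :=
  ∀ (X : Type) [NormedAddCommGroup X] [NormedSpace ℝ X] (Y : X → X) (K : NNReal)
    (fl : ℝ → X → X) (D D₁ 𝒵 : Set X) (u : X → X → ℝ) (ρ₂ c : ℝ), LipschitzWith K Y →
    IsFlow Y fl → IsCompact D → IsCompact D₁ → D ⊆ D₁ → (∀ t, ∀ x ∈ D₁, fl t x ∈ D₁) →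
    𝒵.Finite → 0 < ρ₂ → 0 < c → (∀ z ∈ 𝒵, ContDiff ℝ ∞ (u z)) →
    (∀ z ∈ 𝒵, ∀ x ∈ D₁, dist x z ≤ 2 * ρ₂ → c * ‖x - z‖ ^ 2 ≤ fderiv ℝ (u z) x (Y x)) →
    (∀ z ∈ 𝒵, ∀ z' ∈ 𝒵, z ≠ z' → 2 * ρ₂ < dist z z') →
    ∃ h₀, 0 < h₀ ∧ ∀ h, 0 < h → h ≤ h₀ → ∀ (T ρ₃ : ℝ) (Kh Ω : Set X), 0 < ρ₃ → IsCompact Kh →
      IsOpen Ω → Kh ⊆ Ω →
      (∀ p ∈ D, (∀ z ∈ 𝒵, ρ₂ ≤ dist p z) →
        ∃ s₀ ∈ Icc (3 * h) T, ∀ s ∈ Icc (3 * h) (7 * h), fl (s - s₀) p ∈ Kh) →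
      ∃ η, 0 < η ∧ ∀ Γ, Γ ⊆ D → IsCompact Γ → IsPreconnected Γ → Γ.Nonempty → Step fl h η Γ →
        Disjoint Γ Ω → ∃ z ∈ 𝒵, Γ ⊆ ball z ρ₃

/-! ### Geometry of the ambient piece -/

/-- DARB: Liouville chart at a point where the field does not vanish -/
def DarbStmt : Prop :=
  ∀ (V : Type) [NormedAddCommGroup V] [NormedSpace ℝ V] [FiniteDimensional ℝ V] (d : ℕ)
    (M : Set V) (l : V → V →L[ℝ] ℝ) (Pi : V → (V →L[ℝ] ℝ) →L[ℝ] V) (φ : V → ℝ) (s : ℝ),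
    Amb (Euc d) M l Pi φ s → ∀ p ∈ M, Pi p (l p) ≠ 0 →
    ∃ (n : ℕ) (Ψ : Q n → V) (κ : V → Q n) (O : Set (Q n)) (N : Set V),
      LCh M l Pi Ψ κ O N ∧ p ∈ N ∧ κ p = 0

/-- ZERO: after a small perturbation the zeros are finitely many and good -/
def ZeroStmt : Prop :=
  ∀ (V : Type) [NormedAddCommGroup V] [NormedSpace ℝ V] [FiniteDimensional ℝ V] (d : ℕ)
    (M : Set V) (l : V → V →L[ℝ] ℝ) (Pi : V → (V →L[ℝ] ℝ) →L[ℝ] V) (φ : V → ℝ),
    Amb (Euc d) M l Pi φ (1 / 8) →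
    ∃ H₀ : V → ℝ, ContDiff ℝ ∞ H₀ ∧ (∀ x ∈ M, 1 / 4 ≤ φ x → ∀ᶠ y in 𝓝 x, H₀ y = 0) ∧
      Amb (Euc d) M (fun x => l x + fderiv ℝ H₀ x) Pi φ (1 / 4) ∧
      {x ∈ M | Pi x (l x + fderiv ℝ H₀ x) = 0}.Finite ∧
      ∀ z ∈ M, Pi z (l z + fderiv ℝ H₀ z) = 0 →
        ∃ u, GoodWith M (fun x => Pi x (l x + fderiv ℝ H₀ x)) z u

/-- SECT: disjoint boxes whose cores meet every orbit through `C` -/
def SectStmt : Prop :=
  ∀ (V : Type) [NormedAddCommGroup V] [NormedSpace ℝ V] [FiniteDimensional ℝ V] (d : ℕ)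
    (M : Set V) (l : V → V →L[ℝ] ℝ) (Pi : V → (V →L[ℝ] ℝ) →L[ℝ] V) (φ : V → ℝ) (s : ℝ)
    (Y : V → V) (fl : ℝ → V → V) (C : Set V) (h₀ : ℝ), Amb (Euc d) M l Pi φ s → IsFlow Y fl →
    (∀ x ∈ M, φ x ≤ 2 → Y x = Pi x (l x)) → IsCompact C →
    (∀ x ∈ C, x ∈ M ∧ φ x < 1 ∧ Pi x (l x) ≠ 0) → 0 < h₀ →
    ∃ (m : ℕ) (bx : Fin m → Bx V) (h : ℝ), h ≤ h₀ ∧ Boxes M l Pi φ bx h ∧
      ∀ y ∈ C, ∃ b, ∃ u ∈ Icc (-(1 / 2) : ℝ) (1 / 2), ∃ q ∈ cbox (bx b).n 0 ((bx b).w / 2),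
        fl u y = (bx b).Ψ q

/-- HAM: the total Hamiltonian -/
def HamStmt : Prop :=
  ∀ (V : Type) [NormedAddCommGroup V] [NormedSpace ℝ V] [FiniteDimensional ℝ V] (d : ℕ)
    (M : Set V) (l : V → V →L[ℝ] ℝ) (Pi : V → (V →L[ℝ] ℝ) →L[ℝ] V) (φ H₀ : V → ℝ) (s : ℝ)
    (m : ℕ) (bx : Fin m → Bx V) (h ρ : ℝ) (ι : Fin m → Type) [∀ b, Fintype (ι b)]
    [∀ b, DecidableEq (ι b)] (H : ∀ b, Q (bx b).n × (ι b → ℂ) → ℝ) (k : ℕ)
    (e : ∀ b, ι b → Fin k), ContDiff ℝ ∞ H₀ →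
    (∀ x ∈ M, 1 / 4 ≤ φ x → ∀ᶠ y in 𝓝 x, H₀ y = 0) →
    Amb (Euc d) M (fun x => l x + fderiv ℝ H₀ x) Pi φ s →
    Boxes M (fun x => l x + fderiv ℝ H₀ x) Pi φ bx h → 0 ≤ ρ →
    (∀ b, ContDiff ℝ ∞ (H b)) →
    (∀ b (p : Q (bx b).n × (ι b → ℂ)), p.1 ∉ cbox (bx b).n h (3 * (bx b).w) →
      ∀ᶠ p' in 𝓝 p, H b p' = 0) →
    (∀ b p, |ipc p.2 (shC (d2 (H b) p))| ≤ ρ) →
    Function.Injective (fun x : Σ b, ι b => e x.1 x.2) →
    ∃ G, Ham M l (fun x => l x + fderiv ℝ H₀ x) Pi φ bx h ρ H e G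

/-- GOOD: the zeros of the total field, and the regions where trapped curves live -/
def GoodStmt : Prop :=
  ∀ (V : Type) [NormedAddCommGroup V] [NormedSpace ℝ V] [FiniteDimensional ℝ V] (d : ℕ)
    (M : Set V) (l l₀ : V → V →L[ℝ] ℝ) (Pi : V → (V →L[ℝ] ℝ) →L[ℝ] V) (φ : V → ℝ) (s : ℝ)
    (m : ℕ) (bx : Fin m → Bx V) (h ρ : ℝ) (ι : Fin m → Type) [∀ b, Fintype (ι b)]
    [∀ b, DecidableEq (ι b)] (H : ∀ b, Q (bx b).n × (ι b → ℂ) → ℝ) (k : ℕ)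
    (e : ∀ b, ι b → Fin k) (G : V × (Fin k → ℂ) → ℝ) (b : Fin m)
    (Ω : Set (Q (bx b).n × (ι b → ℂ))), Amb (Euc d) M l₀ Pi φ s → ContDiff ℝ ∞ l →
    Boxes M l₀ Pi φ bx h → Ham M l l₀ Pi φ bx h ρ H e G → Function.Injective (e b) →
    ρ ≤ 1 / 16 → IsCompact Ω →
    (∀ p ∈ Ω, p.1 ∈ cbox (bx b).n h (4 * (bx b).w) ∧ nsq p.2 ≤ ρ) → LyapOn Ω (XM (H b)) →
    ∃ 𝒵 : Set (V × (Fin k → ℂ)), 𝒵.Finite ∧
      (∀ p ∈ 𝒵, p.1 ∈ M ∧ ∃ u, GoodWith (hat M (Fin k)) (ZH l Pi G) p u) ∧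
      ∀ p₀, p₀ ∉ 𝒵 → ∃ ε, 0 < ε ∧ ∀ c, Cyc (hat M (Fin k)) (ZH l Pi G) ε c →
        (∀ t, InBox M (bx b) h (c t).1 ∧ nsq (c t).2 ≤ 1 / 4 ∧
          ((bx b).κ (c t).1, fun i => (c t).2 (e b i)) ∈ Ω) → ∀ t, c t ≠ p₀

/-- SEEN: a periodic pseudo-orbit of the total field, seen from the box `b` -/
def SeenStmt : Prop :=
  ∀ (V : Type) [NormedAddCommGroup V] [NormedSpace ℝ V] [FiniteDimensional ℝ V] (d : ℕ)
    (M : Set V) (l l₀ : V → V →L[ℝ] ℝ) (Pi : V → (V →L[ℝ] ℝ) →L[ℝ] V) (φ : V → ℝ) (s : ℝ)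
    (m : ℕ) (bx : Fin m → Bx V) (h ρ : ℝ) (ι : Fin m → Type) [∀ b, Fintype (ι b)]
    [∀ b, DecidableEq (ι b)] (H : ∀ b, Q (bx b).n × (ι b → ℂ) → ℝ) (k : ℕ)
    (e : ∀ b, ι b → Fin k) (G : V × (Fin k → ℂ) → ℝ) (b : Fin m) (ε₀ : ℝ),
    Amb (Euc d) M l₀ Pi φ s → Boxes M l₀ Pi φ bx h → Ham M l l₀ Pi φ bx h ρ H e G → 0 < ε₀ →
    ∃ ε, 0 < ε ∧ ∀ c, Cyc (hat M (Fin k)) (ZH l Pi G) ε c → (∀ t, nsq (c t).2 < 1 / 2) →
      BCrv h (bx b).w ε₀ (H b) {t | InBox M (bx b) h (c t).1}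
        fun t => ((bx b).κ (c t).1, fun i => (c t).2 (e b i))

/-- MAIN: the ambient form of the theorem -/
def MainStmt : Prop :=
  ∀ (V : Type) [NormedAddCommGroup V] [NormedSpace ℝ V] [FiniteDimensional ℝ V] (d : ℕ)
    (M : Set V) (l : V → V →L[ℝ] ℝ) (Pi : V → (V →L[ℝ] ℝ) →L[ℝ] V) (φ : V → ℝ),
    Amb (Euc d) M l Pi φ (1 / 8) → (∀ x ∈ M, 0 ≤ fderiv ℝ φ x (Pi x (l x))) →
    ∃ k₀ : ℕ, ∀ k ≥ k₀, ∃ (G Φ : V × (Fin k → ℂ) → ℝ) (A B : ℝ), ContDiff ℝ ∞ G ∧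
      ContDiff ℝ ∞ Φ ∧ 0 < A ∧
      (∀ p : V × (Fin k → ℂ), p.1 ∈ M → 1 ≤ φ p.1 ∨ 1 ≤ nsq p.2 → ∀ᶠ p' in 𝓝 p, G p' = 0) ∧
      (∀ p, 3 ≤ ph φ p → Φ p = A * ph φ p + B) ∧
      ∀ p : V × (Fin k → ℂ), p.1 ∈ M → ph φ p ≤ 4 →
        0 < fderiv ℝ Φ p (ZH l Pi G p) ∨ GoodFor (hat M (Fin k)) (ZH l Pi G) Φ p

/-! ### The box -/

/-- LOC: the local model of one factor -/
def LocStmt : Prop :=
  ∀ δ : ℝ, 0 < δ → δ ≤ 1 / 100 → ∃ (h0 h1 τ : R3 → ℝ) (Zs : Finset ℝ), Loc h0 h1 δ τ Zs ∧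
    ∀ Cw : ℝ, ∃ (Λ0 Λ1 : R3 → ℝ) (m KΛ : ℝ), LocL h0 h1 Zs Cw Λ0 Λ1 m KΛ

/-- CUT: the cut-off functions -/
def CutStmt : Prop :=
  ∀ (n : ℕ) (d : ℝ) (k₁ : ℕ), 0 < d → ∃ (A : Fin (n + 1) → Q n → ℝ) (CA : ℝ), Cut d k₁ A CA

/-- CALC: the field of the trap -/
def CalcStmt : Prop :=
  ∀ (n K : ℕ) (h0 h1 : R3 → ℝ) (A : Fin (n + 1) → Q n → ℝ) (d r : ℝ), ContDiff ℝ ∞ h0 →
    ContDiff ℝ ∞ h1 → (∀ j, ContDiff ℝ ∞ (A j)) → 0 < d → 0 < r → Calc (K := K) h0 h1 A d r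

/-- the constants of the trap -/
structure Con (w d δ : ℝ) (k₁ K : ℕ) : Prop where
  wpos : 0 < w
  wle : w ≤ 1 / 20
  dpos : 0 < d
  dle : d ≤ w / 100
  δpos : 0 < δ
  δle : δ ≤ d / 200
  k₁lo : 5 / 4 * w + 30 * d ≤ k₁ * d
  k₁hi : (k₁ + 12) * d ≤ 2 * w
  Klo : 4 * w + 2 * d ≤ K * d
  Khi : K * d ≤ 5 * w

/-- RATE: support, excitation bound, speeds outside the bands, catching -/
def RateStmt : Prop :=
  ∀ (n K k₁ : ℕ) (w d δ CA : ℝ) (h0 h1 τ : R3 → ℝ) (Zs : Finset ℝ)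
    (A : Fin (n + 1) → Q n → ℝ), Con w d δ k₁ K → Loc h0 h1 δ τ Zs → Cut d k₁ A CA →
    ∃ C r₁ : ℝ, 0 < r₁ ∧ ∀ r, 0 < r → r ≤ r₁ → Calc (K := K) h0 h1 A d r →
      (∀ p : Q n × (Fa n K → ℂ), p.1 ∉ cbox n d (2 * w) →
        ∀ᶠ p' in 𝓝 p, HT h0 h1 A d r p' = 0) ∧
      (∀ p : Q n × (Fa n K → ℂ), |ipc p.2 (shC (d2 (HT h0 h1 A d r) p))| ≤ C * r ^ 2) ∧
      (∀ p : Q n × (Fa n K → ℂ), d / 16 < |p.1.1 0| →
        |(XM (HT h0 h1 A d r) p).1.1 0 - 1| ≤ 1 / 4) ∧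
      ∀ R, RateUp (XM (HT h0 h1 A d r)) (Om n (Fa n K) d w R) d k₁ ∧
        RateCatch (XM (HT h0 h1 A d r)) (Om n (Fa n K) d w R) d w ((δ / 4 * r) ^ 2) k₁

/-- the master inequality: `L` is the bounded part of the Lyapunov function -/
def Master {n K : ℕ} (h0 h1 Λ0 Λ1 : R3 → ℝ) (A : Fin (n + 1) → Q n → ℝ) (w d r R m B : ℝ)
    (L : Q n × (Fa n K → ℂ) → ℝ) : Prop :=
  ContDiff ℝ ∞ L ∧ (∀ p ∈ Om n (Fa n K) d w R, |L p| ≤ B) ∧
  (∀ p ∈ Om n (Fa n K) d w R, ∀ e : Fin (n + 1) → ℝ, (∀ j, |e j| ≤ 1 ∧ 0 ≤ e j * sn d (p.1.2 j)) →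
    (∃ j, ¬ NearL d (d / 8) (p.1.1 j) ∨ 1 / 4 ≤ e j * sn d (p.1.2 j)) →
    m ≤ fderiv ℝ L p (XM (HT h0 h1 A d r) p) +
      (∑ j, e j * (XM (HT h0 h1 A d r) p).1.2 j) / r ^ 2) ∧
  ∀ (p : Q n × (Fa n K → ℂ)) (k : Fin (n + 1) → Fin (2 * K + 1)),
    (∀ j, |p.1.1 j - lev (k j) * d| < d / 8) →
    (∀ e : Fin (n + 1) → ℝ, p ∈ Om n (Fa n K) d w R → (∀ j, sn d (p.1.2 j) ^ 2 < 1 / 4) →
      ∑ j, (DL h0 h1 Λ0 Λ1 (A j p.1) (sn d (p.1.2 j)) (e j / LL d (j, k j)) (pab d r (j, k j) p) -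
        (pab d r (j, k j) p).1 ^ 2 / 2) +
      ∑ f : Fa n K, (if f.2 = k f.1 then 0 else ((p.2 f).re ^ 2 + (p.2 f).im ^ 2) / r ^ 2) ≤
      fderiv ℝ L p (XM (HT h0 h1 A d r) p) +
        (∑ j, e j * (XM (HT h0 h1 A d r) p).1.2 j) / r ^ 2) ∧
    ((∀ j, |p.1.1 j - lev (k j) * d| < d / 16) → ∃ c₀ : ℝ, ∀ᶠ p' in 𝓝 p, L p' = c₀ +
      ∑ j, (Λ0 (pab d r (j, k j) p') + A j p'.1 * Λ1 (pab d r (j, k j) p')) +
      ∑ f : Fa n K, (if f.2 = k f.1 then 0 else ((p'.2 f).re ^ 2 + (p'.2 f).im ^ 2) / r ^ 2))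

/-- LAM: the master inequality -/
def LamStmt : Prop :=
  ∀ (n K k₁ : ℕ) (w d δ CA C m KΛ : ℝ) (h0 h1 τ Λ0 Λ1 : R3 → ℝ) (Zs : Finset ℝ)
    (A : Fin (n + 1) → Q n → ℝ), Con w d δ k₁ K → Loc h0 h1 δ τ Zs → Cut d k₁ A CA →
    LocL h0 h1 Zs C Λ0 Λ1 m KΛ →
    ∃ m' B r₁ : ℝ, 0 < m' ∧ 0 < r₁ ∧ ∀ r, 0 < r → r ≤ r₁ → Calc (K := K) h0 h1 A d r →
      ∃ L, Master (K := K) h0 h1 Λ0 Λ1 A w d r (C * r ^ 2) m' B L

/-- ZER: the Lyapunov function of the trap and its zeros -/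
def ZerStmt : Prop :=
  ∀ (n K k₁ : ℕ) (w d δ CA C m KΛ r m' B : ℝ) (h0 h1 τ Λ0 Λ1 : R3 → ℝ) (Zs : Finset ℝ)
    (A : Fin (n + 1) → Q n → ℝ) (L : Q n × (Fa n K → ℂ) → ℝ), Con w d δ k₁ K →
    Loc h0 h1 δ τ Zs → Cut d k₁ A CA → LocL h0 h1 Zs C Λ0 Λ1 m KΛ → 2 * (n + 1 : ℝ) < C →
    0 < r → 0 < m' → Calc (K := K) h0 h1 A d r →
    Master h0 h1 Λ0 Λ1 A w d r (C * r ^ 2) m' B L →
    LyapOn (Om n (Fa n K) d w (C * r ^ 2)) (XM (HT h0 h1 A d r))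

/-- TDYN: displacement and trapping -/
def TDynStmt : Prop :=
  ∀ (n k₁ : ℕ) (ι : Type) [Fintype ι] (w d R c2 : ℝ) (X : Q n × (ι → ℂ) → Q n × (ι → ℂ)),
    0 < d → d ≤ w / 100 → 5 / 4 * w + 30 * d ≤ k₁ * d → (k₁ + 12) * d ≤ 2 * w →
    RateUp X (Om n ι d w R) d k₁ → RateBar X (Om n ι d w R) d →
    RateCatch X (Om n ι d w R) d w c2 k₁ →
    ∃ ε₀, 0 < ε₀ ∧ ∀ (γ : ℝ → Q n × (ι → ℂ)) (a b : ℝ), a ≤ b → Crv X ε₀ γ a b →
      (∀ t ∈ Icc a b, γ t ∈ Om n ι d w R) → (γ b).1.1 0 = d → nsq (γ b).2 ≤ c2 →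
      ∀ t ∈ Icc a b, ‖lat (γ t).1 - lat (γ b).1‖ ≤ 25 * d ∧
        (‖lat (γ b).1‖ ≤ 5 / 4 * w → -(d / 16) ≤ (γ t).1.1 0)

/-- TRAP -/
def TrapStmt : Prop :=
  ∀ (n : ℕ) (w d₀ : ℝ), 0 < w → w ≤ 1 / 20 → 0 < d₀ →
    ∃ (ι : Type) (_ : Fintype ι) (_ : DecidableEq ι) (d c C r₁ : ℝ), 0 < d ∧ d ≤ d₀ ∧
      d ≤ w / 100 ∧ 0 < c ∧ 1 ≤ C ∧ 0 < r₁ ∧
      ∀ r, 0 < r → r ≤ r₁ → ∃ H : Q n × (ι → ℂ) → ℝ, TrapOut w d c C r H

/-- BOX: trap and shift register -/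
def BoxStmt : Prop :=
  ∀ (n : ℕ) (h w δ ρ : ℝ), 0 < h → h ≤ 1 / 100 → 0 < w → w ≤ 1 / 20 → 0 < δ → 0 < ρ →
    ∃ (ι : Type) (_ : Fintype ι) (_ : DecidableEq ι) (H : Q n × (ι → ℂ) → ℝ)
      (Ω : Set (Q n × (ι → ℂ))), BoxOut h w δ ρ H Ω

/-! ### Manifolds -/

/-- the differential of a function as a one-form -/
noncomputable def dfun {E : Type} [NormedAddCommGroup E] [NormedSpace ℝ E] {H : Type}
    [TopologicalSpace H] (I : ModelWithCorners ℝ E H) {M : Type} [TopologicalSpace M]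
    [ChartedSpace H M] (φ : M → ℝ) : OneForm I M := fun x => mfderiv I 𝓘(ℝ, ℝ) φ x

/-- the part of `IsLiouville` without completeness -/
structure PreL {E : Type} [NormedAddCommGroup E] [NormedSpace ℝ E] {H : Type}
    [TopologicalSpace H] (I : ModelWithCorners ℝ E H) {M : Type} [TopologicalSpace M]
    [ChartedSpace H M] (l : OneForm I M) (Z : VField I M) : Prop where
  smooth : ∀ p, ContDiffOn ℝ ∞ (formIn I l p) (extChartAt I p).target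
  nondeg : ∀ (x : M) (u : E), (∀ v, dForm I l x u v = 0) → u = 0
  dual : ∀ (x : M) (v : E), dForm I l x (Z x) v = l x v

/-- MFD: `dl` can be computed in any chart and under pull-back; the Liouville field is smooth in
charts -/
def MfdStmt : Prop :=
  ∀ (E : Type) [NormedAddCommGroup E] [NormedSpace ℝ E] [FiniteDimensional ℝ E] (H : Type)
    [TopologicalSpace H] (I : ModelWithCorners ℝ E H) [I.Boundaryless] (M : Type)
    [TopologicalSpace M] [ChartedSpace H M] [IsManifold I ∞ M] (l : OneForm I M),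
    (∀ p, ContDiffOn ℝ ∞ (formIn I l p) (extChartAt I p).target) →
    (∀ p, ∀ x ∈ (extChartAt I p).source, ∀ u v : E, dForm I l x u v =
      dd (formIn I l p) (extChartAt I p x) (mfderiv I 𝓘(ℝ, E) (extChartAt I p) x u)
        (mfderiv I 𝓘(ℝ, E) (extChartAt I p) x v)) ∧
    (∀ (X : Type) [NormedAddCommGroup X] [NormedSpace ℝ X] (e : M → X) (a : X → X →L[ℝ] ℝ)
      (x : M), ContMDiffAt I 𝓘(ℝ, X) ∞ e x → ContDiffAt ℝ ∞ a (e x) →
      (∀ᶠ y in 𝓝 x, ∀ v : E, l y v = a (e y) (mfderiv I 𝓘(ℝ, X) e y v)) →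
      ∀ u v : E, dForm I l x u v =
        dd a (e x) (mfderiv I 𝓘(ℝ, X) e x u) (mfderiv I 𝓘(ℝ, X) e x v)) ∧
    ∀ Z : VField I M, PreL I l Z → ∀ p, ContDiffOn ℝ ∞
      (fun y => fieldIn I Z p ((extChartAt I p).symm y)) (extChartAt I p).target

/-- WCRIT: criterion for Morse and gradient-like -/
def WcritStmt : Prop :=
  ∀ (E : Type) [NormedAddCommGroup E] [NormedSpace ℝ E] [FiniteDimensional ℝ E] (H : Type)
    [TopologicalSpace H] (I : ModelWithCorners ℝ E H) [I.Boundaryless] (M : Type)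
    [TopologicalSpace M] [ChartedSpace H M] [IsManifold I ∞ M] (l : OneForm I M)
    (Z : VField I M) (Φ : M → ℝ), PreL I l Z → ContMDiff I 𝓘(ℝ, ℝ) ∞ Φ →
    (∀ p, 0 < der I Φ p (Z p) ∨ (Z p = 0 ∧ ∃ (u : M → ℝ) (c : ℝ),
      ContMDiffAt I 𝓘(ℝ, ℝ) ∞ u p ∧ (∀ v, der I u p v = 0) ∧ 0 < c ∧ ∀ᶠ x in 𝓝 p,
        c * ‖extChartAt I p x - extChartAt I p p‖ ^ 2 ≤ der I u x (Z x) ∧
        der I u x (Z x) ≤ der I Φ x (Z x))) →
    Morse I Φ ∧ GradLike I Z Φ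

/-- COMPL: a field that agrees with a complete field far out is complete -/
def ComplStmt : Prop :=
  ∀ (E : Type) [NormedAddCommGroup E] [NormedSpace ℝ E] [FiniteDimensional ℝ E] (H : Type)
    [TopologicalSpace H] (I : ModelWithCorners ℝ E H) [I.Boundaryless] (M : Type)
    [TopologicalSpace M] [ChartedSpace H M] [IsManifold I ∞ M] (X E' : Type)
    [NormedAddCommGroup X] [NormedSpace ℝ X] [FiniteDimensional ℝ X] [NormedAddCommGroup E']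
    [NormedSpace ℝ E'] [FiniteDimensional ℝ E'] (Z₀ Z₁ : VField I M) (ψ : M → ℝ) (U : Set M)
    (e : M → X) (Y : X → X) (ψ' : X → ℝ),
    (∀ x, ∃ γ : ℝ → M, γ 0 = x ∧ IsMIntegralCurve γ Z₀) → ContMDiff I 𝓘(ℝ, ℝ) ∞ ψ →
    (∀ x, 2 ≤ ψ x → Z₁ x = Z₀ x ∧ 0 < der I ψ x (Z₀ x)) → (∀ x, ψ x ≤ 5 → x ∈ U) →
    ContMDiff I 𝓘(ℝ, X) ∞ e → Sub E' (e '' U) → ContDiff ℝ ∞ Y → ContDiff ℝ ∞ ψ' →
    (∀ x ∈ U, ψ' (e x) = ψ x) → IsCompact {x | ψ x ≤ 5} →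
    (∀ x ∈ U, Y (e x) ∈ Tg (e '' U) (e x) ∧ mfderiv I 𝓘(ℝ, X) e x (Z₁ x) = Y (e x) ∧
      Function.Injective (mfderiv I 𝓘(ℝ, X) e x) ∧
      ∃ ρ : X → M, ContMDiffAt 𝓘(ℝ, X) I ∞ ρ (e x) ∧
        ∀ᶠ v in 𝓝 (e x), ∀ x' ∈ U, e x' = v → ρ v = x') →
    ∀ x, ∃ γ : ℝ → M, γ 0 = x ∧ IsMIntegralCurve γ Z₁

section
variable {d : ℕ} {W : Type} [TopologicalSpace W] [ChartedSpace (Euc d) W]

/-- `W × ℂ^k` is modelled on this -/
noncomputable abbrev IP (d k : ℕ) := (𝓡 d).prod 𝓘(ℝ, Fin k → ℂ)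

/-- the field `Z + z / 2 + t X` -/
noncomputable def ZT (Z : VField (𝓡 d) W) {k : ℕ} (X : VField (IP d k) (W × (Fin k → ℂ)))
    (t : ℝ) : VField (IP d k) (W × (Fin k → ℂ)) := fun p =>
  ((show Euc d from Z p.1) + t • (X p).1, (1 / 2 : ℝ) • p.2 + t • (X p).2)

/-- the form `l + radial + t dG` -/
noncomputable def LT (l : OneForm (𝓡 d) W) {k : ℕ} (G : W × (Fin k → ℂ) → ℝ) (t : ℝ) :
    OneForm (IP d k) (W × (Fin k → ℂ)) := fun p => stab _ l k p + t • dfun (IP d k) G p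

/-- the embedding of the part `φ < 6` of `W` -/
structure Emb (l : OneForm (𝓡 d) W) (Z : VField (𝓡 d) W) (φ : W → ℝ) {V : Type}
    [NormedAddCommGroup V] [NormedSpace ℝ V] (e : W → V) (l' : V → V →L[ℝ] ℝ)
    (Pi : V → (V →L[ℝ] ℝ) →L[ℝ] V) (φ' : V → ℝ) : Prop where
  ex : Exhausting (𝓡 d) φ
  nn : ∀ x, 0 ≤ φ x
  nd : ∀ x, 0 ≤ der (𝓡 d) φ x (Z x)
  shell : ∀ x, 1 / 8 ≤ φ x → 0 < der (𝓡 d) φ x (Z x)
  sm : ContMDiff (𝓡 d) 𝓘(ℝ, V) ∞ e
  amb : Amb (Euc d) (e '' {x | φ x < 6}) l' Pi φ' (1 / 8)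
  fn : ∀ x, φ x < 6 → φ' (e x) = φ x
  form : ∀ x, φ x < 6 → ∀ v : Euc d, l x v = l' (e x) (mfderiv (𝓡 d) 𝓘(ℝ, V) e x v)
  tg : ∀ x, φ x < 6 → Tg (e '' {x | φ x < 6}) (e x) = range (mfderiv (𝓡 d) 𝓘(ℝ, V) e x)
  inj : ∀ x, φ x < 6 → Function.Injective (mfderiv (𝓡 d) 𝓘(ℝ, V) e x)
  fld : ∀ x, φ x < 6 → mfderiv (𝓡 d) 𝓘(ℝ, V) e x (Z x) = Pi (e x) (l' (e x))
  inv : ∀ x, φ x < 6 → ∃ ρ : V → W, ContMDiffAt 𝓘(ℝ, V) (𝓡 d) ∞ ρ (e x) ∧
    ∀ᶠ v in 𝓝 (e x), ∀ x', φ x' < 6 → e x' = v → ρ v = x'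

end

/-- EMB: the embedding exists -/
def EmbStmt : Prop :=
  ∀ (d : ℕ) (W : Type) [TopologicalSpace W] [ChartedSpace (Euc d) W] [IsManifold (𝓡 d) ∞ W]
    [T2Space W] (l : OneForm (𝓡 d) W) (Z : VField (𝓡 d) W) (φ₀ : W → ℝ) (K : Set W),
    PreL (𝓡 d) l Z → Exhausting (𝓡 d) φ₀ → IsCompact K →
    (∀ x ∉ K, 0 < der (𝓡 d) φ₀ x (Z x)) →
    ∃ (N : ℕ) (φ : W → ℝ) (e : W → (Fin N → Euc d × ℝ))
      (l' : (Fin N → Euc d × ℝ) → (Fin N → Euc d × ℝ) →L[ℝ] ℝ)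
      (Pi : (Fin N → Euc d × ℝ) → ((Fin N → Euc d × ℝ) →L[ℝ] ℝ) →L[ℝ] (Fin N → Euc d × ℝ))
      (φ' : (Fin N → Euc d × ℝ) → ℝ), Emb l Z φ e l' Pi φ'

/-- PROD: the family `l + radial + t dG` on `W × ℂ^k` -/
def ProdStmt : Prop :=
  ∀ (d k : ℕ) (W : Type) [TopologicalSpace W] [ChartedSpace (Euc d) W] [IsManifold (𝓡 d) ∞ W]
    (l : OneForm (𝓡 d) W) (Z : VField (𝓡 d) W) (G : W × (Fin k → ℂ) → ℝ), PreL (𝓡 d) l Z →
    ContMDiff (IP d k) 𝓘(ℝ, ℝ) ∞ G →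
    (∀ p, ContDiffOn ℝ ∞ (fun q : ℝ × (Euc d × (Fin k → ℂ)) => formIn (IP d k) (LT l G q.1) p q.2)
      (univ ×ˢ (extChartAt (IP d k) p).target)) ∧
    ∃ X : VField (IP d k) (W × (Fin k → ℂ)),
      (∀ p (v : Euc d × (Fin k → ℂ)), dForm (𝓡 d) l p.1 (X p).1 v.1 + omC (X p).2 v.2 =
        der (IP d k) G p v) ∧
      ∀ t, PreL (IP d k) (LT l G t) (ZT Z X t)

end Pool.Agent.MP_6d695c_gt.SW

end MrgPart0

-- ======== part 1: formerly Pool.Agent.MP_6d695c_gt.sw.Tools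
section MrgPart1

/-! PROJECT SW: one-sided differential inequalities and cut-off functions. -/

open scoped ContDiff Topology
open Set Metric Filter Real

namespace Pool.Agent.MP_6d695c_gt.SW

/-- the right derivative of a real function exists and satisfies `p` -/
def RD (f : ℝ → ℝ) (t : ℝ) (p : ℝ → Prop) : Prop := ∃ a, HasDerivWithinAt f a (Ici t) t ∧ p a

section Tools
variable {X : Type} [NormedAddCommGroup X] [NormedSpace ℝ X]

theorem Near.mono {c : ℝ → X} {t : ℝ} {y : X} {ε ε' : ℝ} (h : Near c t y ε) (hε : ε ≤ ε') :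
    Near c t y ε' := by
  obtain ⟨v, h1, h2⟩ := h
  exact ⟨v, h1, h2.trans hε⟩

theorem Near.comp {F : Type} [NormedAddCommGroup F] [NormedSpace ℝ F] {c : ℝ → X} {t : ℝ} {y : X}
    {ε : ℝ} (h : Near c t y ε) {u : X → F} (hu : DifferentiableAt ℝ u (c t)) :
    Near (fun s => u (c s)) t (fderiv ℝ u (c t) y) (‖fderiv ℝ u (c t)‖ * ε) := by
  obtain ⟨v, h1, h2⟩ := h
  refine ⟨fderiv ℝ u (c t) v, hu.hasFDerivAt.comp_hasDerivWithinAt t h1, ?_⟩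
  rw [← map_sub]
  exact ((fderiv ℝ u (c t)).le_opNorm _).trans (by gcongr)

theorem Near.rd {f : ℝ → ℝ} {t y ε : ℝ} (h : Near f t y ε) :
    RD f t fun a => y - ε ≤ a ∧ a ≤ y + ε := by
  obtain ⟨v, h1, h2⟩ := h
  rw [Real.norm_eq_abs, abs_le] at h2
  exact ⟨v, h1, by linarith [h2.1], by linarith [h2.2]⟩

theorem RD.mono {f : ℝ → ℝ} {t : ℝ} {p q : ℝ → Prop} (h : RD f t p) (hpq : ∀ a, p a → q a) :
    RD f t q := by
  obtain ⟨v, h1, h2⟩ := h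
  exact ⟨v, h1, hpq v h2⟩

theorem RD.neg {f : ℝ → ℝ} {t : ℝ} {p : ℝ → Prop} (h : RD f t p) :
    RD (fun s => -f s) t fun a => p (-a) := by
  obtain ⟨v, h1, h2⟩ := h
  exact ⟨-v, h1.neg, by simpa using h2⟩

theorem RD.add {f g : ℝ → ℝ} {t : ℝ} {p q r : ℝ → Prop} (hf : RD f t p) (hg : RD g t q)
    (h : ∀ a b, p a → q b → r (a + b)) : RD (fun s => f s + g s) t r := by
  obtain ⟨v, h1, h2⟩ := hf
  obtain ⟨w, h3, h4⟩ := hg
  exact ⟨v + w, h1.add h3, h _ _ h2 h4⟩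

theorem RD.ev_lt {f : ℝ → ℝ} {t : ℝ} (h : RD f t fun a => 0 < a) : ∀ᶠ s in 𝓝[>] t, f t < f s := by
  obtain ⟨a, h1, h2⟩ := h
  have h3 : HasDerivWithinAt f a (Ioi t) t := h1.mono Ioi_subset_Ici_self
  have h4 := (hasDerivWithinAt_iff_tendsto_slope' (by simp)).1 h3
  filter_upwards [h4.eventually (lt_mem_nhds h2), self_mem_nhdsWithin] with s hs hs'
  rw [slope_def_field] at hs
  have := (div_pos_iff_of_pos_right (sub_pos.2 hs')).1 hs
  linarith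

theorem last_time {T : Set ℝ} (hT : IsClosed T) {a b : ℝ} (ha : a ∈ T) (hab : a ≤ b) :
    ∃ s ∈ Icc a b, s ∈ T ∧ ∀ t ∈ Ioc s b, t ∉ T := by
  have hc : IsCompact (Icc a b ∩ T) := isCompact_Icc.inter_right hT
  obtain ⟨s, hs, hm⟩ := hc.exists_isGreatest ⟨a, ⟨le_rfl, hab⟩, ha⟩
  exact ⟨s, hs.1, hs.2, fun t ht h => absurd (hm ⟨⟨hs.1.1.trans ht.1.le, ht.2⟩, h⟩) (not_le.2 ht.1)⟩

theorem first_time {T : Set ℝ} (hT : IsClosed T) {a b : ℝ} (hb : b ∈ T) (hab : a ≤ b) :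
    ∃ s ∈ Icc a b, s ∈ T ∧ ∀ t ∈ Ico a s, t ∉ T := by
  have hc : IsCompact (Icc a b ∩ T) := isCompact_Icc.inter_right hT
  obtain ⟨s, hs, hm⟩ := hc.exists_isLeast ⟨b, ⟨hab, le_rfl⟩, hb⟩
  exact ⟨s, hs.1, hs.2, fun t ht h => absurd (hm ⟨⟨ht.1, ht.2.le.trans hs.1.2⟩, h⟩) (not_le.2 ht.2)⟩

theorem fence_two {f g : ℝ → ℝ} {a b v w : ℝ} (hf : ContinuousOn f (Icc a b))
    (hg : ContinuousOn g (Icc a b))
    (hd : ∀ t ∈ Ico a b, f t = v → g t ≤ w → RD f t fun a => 0 < a)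
    (he : ∀ t ∈ Ico a b, f t ≤ v → g t = w → RD g t fun a => 0 < a)
    (hb : f b < v) (hb' : g b < w) : ∀ t ∈ Icc a b, f t < v ∧ g t < w := by
  intro t ht
  by_contra hcon
  have hT : IsClosed ((Icc a b ∩ f ⁻¹' Ici v) ∪ (Icc a b ∩ g ⁻¹' Ici w)) :=
    (hf.preimage_isClosed_of_isClosed isClosed_Icc isClosed_Ici).union
      (hg.preimage_isClosed_of_isClosed isClosed_Icc isClosed_Ici)
  have htT : t ∈ (Icc a b ∩ f ⁻¹' Ici v) ∪ (Icc a b ∩ g ⁻¹' Ici w) := by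
    rcases not_and_or.1 hcon with h | h
    · exact Or.inl ⟨ht, not_lt.1 h⟩
    · exact Or.inr ⟨ht, not_lt.1 h⟩
  obtain ⟨s, hs, hsT, hno⟩ := last_time hT htT ht.2
  have has : a ≤ s := ht.1.trans hs.1
  have hsb : s < b := by
    refine lt_of_le_of_ne hs.2 ?_
    rintro rfl
    rcases hsT with h | h
    · exact absurd h.2 (not_le.2 hb)
    · exact absurd h.2 (not_le.2 hb')
  have hlt : ∀ x ∈ Ioc s b, f x < v ∧ g x < w := fun x hx => by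
    have hx' : x ∈ Icc a b := ⟨has.trans hx.1.le, hx.2⟩
    have := hno x hx
    simp only [mem_union, mem_inter_iff, mem_preimage, mem_Ici, not_or, not_and, not_le] at this
    exact ⟨this.1 hx', this.2 hx'⟩
  have hev : ∀ᶠ x in 𝓝[>] s, x ∈ Ioc s b := Ioc_mem_nhdsGT hsb
  have hsub : 𝓝[>] s ≤ 𝓝[Icc a b] s :=
    nhdsWithin_le_iff.2 (mem_of_superset hev fun x hx => ⟨has.trans hx.1.le, hx.2⟩)
  have hfs : f s ≤ v := le_of_tendsto ((hf s ⟨has, hs.2⟩).tendsto.mono_left hsub)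
    (hev.mono fun x hx => (hlt x hx).1.le)
  have hgs : g s ≤ w := le_of_tendsto ((hg s ⟨has, hs.2⟩).tendsto.mono_left hsub)
    (hev.mono fun x hx => (hlt x hx).2.le)
  rcases hsT with h | h
  · have e : f s = v := le_antisymm hfs h.2
    obtain ⟨x, h1, h2⟩ := ((hd s ⟨has, hsb⟩ e hgs).ev_lt.and hev).exists
    linarith [(hlt x h2).1]
  · have e : g s = w := le_antisymm hgs h.2
    obtain ⟨x, h1, h2⟩ := ((he s ⟨has, hsb⟩ hfs e).ev_lt.and hev).exists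
    linarith [(hlt x h2).2]

theorem fence_back {f : ℝ → ℝ} {a b v : ℝ} (hf : ContinuousOn f (Icc a b))
    (hd : ∀ t ∈ Ico a b, f t = v → RD f t fun a => 0 < a) (hb : f b < v) :
    ∀ t ∈ Icc a b, f t < v := fun t ht =>
  (fence_two (g := fun _ => 0) (w := 1) hf continuousOn_const (fun t ht h _ => hd t ht h)
    (fun t _ _ h => by norm_num at h) hb one_pos t ht).1

theorem fence_up {f : ℝ → ℝ} {a b v : ℝ} (hf : ContinuousOn f (Icc a b))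
    (hd : ∀ t ∈ Ico a b, f t = v → RD f t fun a => 0 < a) (ha : v ≤ f a) :
    ∀ t ∈ Icc a b, v ≤ f t := by
  intro t ht
  by_contra h
  have := fence_back (hf.mono (Icc_subset_Icc_right ht.2))
    (fun s hs => hd s ⟨hs.1, hs.2.trans_le ht.2⟩) (not_le.1 h) a ⟨le_rfl, ht.1⟩
  linarith

theorem band {f : ℝ → ℝ} {τ α β : ℝ} (hf : Continuous f) (hτ : 0 < τ) (hp : Function.Periodic f τ)
    (hd : ∀ t, f t ∈ Ioo α β → RD f t fun a => 0 < a) (t : ℝ) : f t ∉ Ioo α β := by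
  intro ht
  have h1 : ∀ᶠ s in 𝓝[>] t, f s < β :=
    mem_nhdsWithin_of_mem_nhds (hf.continuousAt.eventually (gt_mem_nhds ht.2))
  have h2 : ∀ᶠ s in 𝓝[>] t, s ∈ Ioc t (t + τ) := Ioc_mem_nhdsGT (by linarith)
  obtain ⟨s, ⟨h3, h4⟩, h5⟩ := (((hd t ht).ev_lt.and h1).and h2).exists
  have := fence_up (a := s) (b := t + τ) (v := f s) hf.continuousOn
    (fun x _ hx => hd x (by rw [hx]; exact ⟨ht.1.trans h3, h4⟩)) le_rfl (t + τ) ⟨h5.2, le_rfl⟩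
  rw [hp t] at this
  linarith

theorem band_le {f : ℝ → ℝ} {τ α : ℝ} (hf : Continuous f) (hτ : 0 < τ) (hp : Function.Periodic f τ)
    (hd : ∀ t, α < f t → RD f t fun a => 0 < a) (t : ℝ) : f t ≤ α := by
  by_contra h
  exact band (β := f t + 1) hf hτ hp (fun s hs => hd s hs.1) t ⟨not_le.1 h, by linarith⟩

theorem speed_ge {f : ℝ → ℝ} {a b m : ℝ} (hab : a ≤ b) (hf : ContinuousOn f (Icc a b))
    (hd : ∀ t ∈ Ico a b, RD f t fun a => m ≤ a) : m * (b - a) ≤ f b - f a := by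
  refine le_of_forall_pos_le_add fun η hη => ?_
  set e := η / (b - a + 1) with he
  have hpos : 0 < b - a + 1 := by linarith
  have he0 : 0 < e := div_pos hη hpos
  have := fence_up (f := fun t => f t - (m - e) * (t - a)) (a := a) (b := b) (v := f a)
    (hf.sub (by fun_prop)) (fun t ht _ => by
      obtain ⟨v, h1, h2⟩ := hd t ht
      refine ⟨v - (m - e) * 1, h1.sub ?_, by linarith⟩
      exact (((hasDerivAt_id t).sub_const a).const_mul (m - e)).hasDerivWithinAt)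
    (by simp) b ⟨hab, le_rfl⟩
  have h3 : e * (b - a + 1) = η := div_mul_cancel₀ _ hpos.ne'
  nlinarith

theorem speed_le {f : ℝ → ℝ} {a b m : ℝ} (hab : a ≤ b) (hf : ContinuousOn f (Icc a b))
    (hd : ∀ t ∈ Ico a b, RD f t fun a => a ≤ m) : f b - f a ≤ m * (b - a) := by
  have := speed_ge (f := fun s => -f s) (m := -m) hab hf.neg
    fun t ht => (hd t ht).neg.mono fun a h => by linarith
  linarith

theorem speed_ge' {f : ℝ → ℝ} {a b m : ℝ} (hab : a ≤ b) (hf : ContinuousOn f (Icc a b))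
    (hd : ∀ t ∈ Ioo a b, RD f t fun a => m ≤ a) : m * (b - a) ≤ f b - f a := by
  rcases hab.eq_or_lt with rfl | hlt
  · simp
  have hev : ∀ᶠ x in 𝓝[>] a, x ∈ Ioc a b := Ioc_mem_nhdsGT hlt
  have hsub : 𝓝[>] a ≤ 𝓝[Icc a b] a :=
    nhdsWithin_le_iff.2 (mem_of_superset hev fun x hx => ⟨hx.1.le, hx.2⟩)
  have h1 : Tendsto (fun x => f b - f x) (𝓝[>] a) (𝓝 (f b - f a)) :=
    tendsto_const_nhds.sub ((hf a ⟨le_rfl, hab⟩).tendsto.mono_left hsub)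
  have h2 : Tendsto (fun x => m * (b - x)) (𝓝[>] a) (𝓝 (m * (b - a))) :=
    (Continuous.tendsto (by fun_prop) a).mono_left nhdsWithin_le_nhds
  refine le_of_tendsto_of_tendsto h2 h1 (hev.mono fun x hx => ?_)
  exact speed_ge hx.2 (hf.mono (Icc_subset_Icc_left hx.1.le))
    fun t ht => hd t ⟨hx.1.trans_le ht.1, ht.2⟩

theorem speed_le' {f : ℝ → ℝ} {a b m : ℝ} (hab : a ≤ b) (hf : ContinuousOn f (Icc a b))
    (hd : ∀ t ∈ Ioo a b, RD f t fun a => a ≤ m) : f b - f a ≤ m * (b - a) := by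
  have := speed_ge' (f := fun s => -f s) (m := -m) hab hf.neg
    fun t ht => (hd t ht).neg.mono fun a h => by linarith
  linarith

theorem drift {c : ℝ → X} {a b m : ℝ} (hab : a ≤ b) (hc : ContinuousOn c (Icc a b))
    (hd : ∀ t ∈ Ioo a b, Near c t 0 m) : ‖c b - c a‖ ≤ m * (b - a) := by
  obtain ⟨g, hg1, hg2⟩ := exists_dual_vector'' ℝ (c b - c a)
  have := speed_le' (f := fun s => g (c s)) (m := m) hab (g.continuous.comp_continuousOn hc)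
    fun t ht => by
      obtain ⟨v, h1, h2⟩ := hd t ht
      refine ⟨g v, g.hasFDerivAt.comp_hasDerivWithinAt t h1, ?_⟩
      rw [sub_zero] at h2
      have := g.le_opNorm v
      have h3 : ‖g‖ * ‖v‖ ≤ 1 * m := mul_le_mul hg1 h2 (norm_nonneg _) zero_le_one
      linarith [le_abs_self (g v), Real.norm_eq_abs (g v)]
  rw [← map_sub, hg2] at this
  simpa using this

theorem grow {G : ℝ → ℝ} {a b e : ℝ} (hab : a ≤ b) (he : 0 ≤ e) (hG : ContinuousOn G (Icc a b))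
    (hd : ∀ t ∈ Ioo a b, RD G t fun a => G t - e ≤ a) : G a ≤ e + exp (-(b - a)) * G b := by
  have := speed_ge' (f := fun s => (G s - e) * exp (-(s - a))) (m := 0) hab
    ((hG.sub continuousOn_const).mul (by fun_prop)) fun t ht => by
      obtain ⟨v, h1, h2⟩ := hd t ht
      have h3 : HasDerivAt (fun s => exp (-(s - a))) (exp (-(t - a)) * -1) t :=
        ((hasDerivAt_id t).sub_const a).neg.exp
      refine ⟨_, (h1.sub_const e).mul h3.hasDerivWithinAt, ?_⟩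
      have := exp_pos (-(t - a))
      nlinarith
  simp only [sub_self, neg_zero, exp_zero, mul_one, zero_mul] at this
  have h4 := exp_pos (-(b - a))
  nlinarith

theorem cross_up {f : ℝ → ℝ} {a b u v : ℝ} (hab : a ≤ b) (hf : ContinuousOn f (Icc a b))
    (huv : u ≤ v) (ha : f a ≤ u) (hb : v ≤ f b) :
    ∃ s t, a ≤ s ∧ s ≤ t ∧ t ≤ b ∧ f s = u ∧ f t = v ∧ ∀ x ∈ Icc s t, f x ∈ Icc u v := by
  obtain ⟨t, ht, htT, hno⟩ := first_time
    (hf.preimage_isClosed_of_isClosed isClosed_Icc (isClosed_Ici (a := v))) ⟨⟨hab, le_rfl⟩, hb⟩ hab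
  have hf' : ContinuousOn f (Icc a t) := hf.mono (Icc_subset_Icc_right ht.2)
  have hlt : ∀ x ∈ Ico a t, f x < v := fun x hx =>
    not_le.1 fun h => hno x hx ⟨⟨hx.1, hx.2.le.trans ht.2⟩, h⟩
  have hft : f t = v := by
    obtain ⟨x, hx, e⟩ := intermediate_value_Icc ht.1 hf' ⟨ha.trans huv, htT.2⟩
    rcases hx.2.eq_or_lt with rfl | h
    · exact e
    · exact absurd e (hlt x ⟨hx.1, h⟩).ne
  obtain ⟨s, hs, hsT, hno'⟩ := last_time
    (hf'.preimage_isClosed_of_isClosed isClosed_Icc (isClosed_Iic (a := u)))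
    ⟨⟨le_rfl, ht.1⟩, ha⟩ ht.1
  have hgt : ∀ x ∈ Ioc s t, u < f x := fun x hx =>
    not_le.1 fun h => hno' x hx ⟨⟨hs.1.trans hx.1.le, hx.2⟩, h⟩
  have hfs : f s = u := by
    obtain ⟨x, hx, e⟩ := intermediate_value_Icc hs.2 (hf'.mono (Icc_subset_Icc_left hs.1))
      ⟨hsT.2, by rw [hft]; exact huv⟩
    rcases hx.1.eq_or_lt with rfl | h
    · exact e
    · exact absurd e (hgt x ⟨h, hx.2⟩).ne'
  refine ⟨s, t, hs.1, hs.2, ht.2, hfs, hft, fun x hx => ⟨?_, ?_⟩⟩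
  · rcases hx.1.eq_or_lt with rfl | h
    · exact hfs.ge
    · exact (hgt x ⟨h, hx.2⟩).le
  · rcases hx.2.eq_or_lt with rfl | h
    · exact hft.le
    · exact (hlt x ⟨hs.1.trans hx.1, h⟩).le

theorem cross_down {f : ℝ → ℝ} {a b u v : ℝ} (hab : a ≤ b) (hf : ContinuousOn f (Icc a b))
    (huv : u ≤ v) (ha : v ≤ f a) (hb : f b ≤ u) :
    ∃ s t, a ≤ s ∧ s ≤ t ∧ t ≤ b ∧ f s = v ∧ f t = u ∧ ∀ x ∈ Icc s t, f x ∈ Icc u v := by
  obtain ⟨s, t, h1, h2, h3, h4, h5, h6⟩ := cross_up (f := fun s => -f s) (u := -v) (v := -u) hab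
    hf.neg (by linarith) (by simpa using ha) (by simpa using hb)
  exact ⟨s, t, h1, h2, h3, by linarith, by linarith,
    fun x hx => ⟨by linarith [(h6 x hx).2], by linarith [(h6 x hx).1]⟩⟩

theorem exists_fderiv_bound {F : Type} [NormedAddCommGroup F] [NormedSpace ℝ F] {u : X → F}
    (hu : ContDiff ℝ 1 u) {K : Set X} (hK : IsCompact K) :
    ∃ C, 0 < C ∧ ∀ x ∈ K, ‖fderiv ℝ u x‖ ≤ C := by
  obtain ⟨C, hC⟩ := hK.exists_bound_of_continuousOn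
    (hu.continuous_fderiv one_ne_zero).continuousOn
  exact ⟨|C| + 1, by positivity, fun x hx => (hC x hx).trans (by linarith [le_abs_self C])⟩

omit [NormedSpace ℝ X] in
theorem exists_pos_le {u : X → ℝ} {K : Set X} (hK : IsCompact K) (hu : ContinuousOn u K)
    (hp : ∀ x ∈ K, 0 < u x) : ∃ m, 0 < m ∧ ∀ x ∈ K, m ≤ u x := by
  rcases K.eq_empty_or_nonempty with rfl | hne
  · exact ⟨1, one_pos, by simp⟩
  obtain ⟨x, hx, hm⟩ := hK.exists_isMinOn hne hu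
  exact ⟨u x, hp x hx, fun y hy => hm hy⟩

theorem exists_primitive {b : ℝ → ℝ} (hb : ContDiff ℝ ∞ b) :
    ∃ p : ℝ → ℝ, ContDiff ℝ ∞ p ∧ p 0 = 0 ∧ ∀ x, HasDerivAt p (b x) x := by
  have hd : ∀ x, HasDerivAt (fun u => ∫ t in (0 : ℝ)..u, b t) (b x) x := fun x =>
    (hb.continuous.integral_hasStrictDerivAt 0 x).hasDerivAt
  refine ⟨fun u => ∫ t in (0 : ℝ)..u, b t, ?_, by simp, hd⟩
  rw [contDiff_infty_iff_deriv]
  refine ⟨fun x => (hd x).differentiableAt, ?_⟩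
  have : deriv (fun u => ∫ t in (0 : ℝ)..u, b t) = b := funext fun x => (hd x).deriv
  rwa [this]

theorem exists_step {u v : ℝ} (h : u < v) : ∃ b : ℝ → ℝ, ContDiff ℝ ∞ b ∧ (∀ x ≤ u, b x = 1) ∧
    (∀ x, v ≤ x → b x = 0) ∧ (∀ x, b x ∈ Icc (0 : ℝ) 1) ∧ ∀ x, deriv b x ≤ 0 := by
  have hp : 0 < v - u := sub_pos.2 h
  refine ⟨fun x => smoothTransition ((v - x) / (v - u)),
    smoothTransition.contDiff.comp (by fun_prop), fun x hx => ?_, fun x hx => ?_,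
    fun x => ⟨smoothTransition.nonneg _, smoothTransition.le_one _⟩, fun x => ?_⟩
  · exact smoothTransition.one_of_one_le ((one_le_div hp).2 (by linarith))
  · exact smoothTransition.zero_of_nonpos (div_nonpos_of_nonpos_of_nonneg (by linarith) hp.le)
  · refine Antitone.deriv_nonpos fun x y hxy => smoothTransition.monotone ?_
    gcongr

theorem exists_cut [FiniteDimensional ℝ X] {K N : Set X} (hK : IsCompact K) (hN : IsOpen N)
    (h : K ⊆ N) : ∃ b : X → ℝ, ContDiff ℝ ∞ b ∧ HasCompactSupport b ∧ tsupport b ⊆ N ∧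
      (∀ x ∈ K, ∀ᶠ y in 𝓝 x, b y = 1) ∧ ∀ x, b x ∈ Icc (0 : ℝ) 1 := by
  have := FiniteDimensional.proper_real X
  obtain ⟨L, hL, hKL, hLN⟩ := exists_compact_between hK hN h
  obtain ⟨f, h0, h1, h2⟩ := exists_contMDiffMap_zero_one_nhds_of_isClosed (n := ⊤)
    (modelWithCornersSelf ℝ X) (s := (interior L)ᶜ) (t := K) isOpen_interior.isClosed_compl
    hK.isClosed (disjoint_compl_left_iff_subset.2 hKL)
  have hs : tsupport f ⊆ L := by
    refine closure_minimal (fun x hx => ?_) hL.isClosed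
    by_contra hx'
    exact hx (h0.self_of_nhdsSet x fun hi => hx' (interior_subset hi))
  exact ⟨f, f.contMDiff.contDiff, hL.of_isClosed_subset isClosed_closure hs, hs.trans hLN,
    fun x hx => h1.filter_mono (nhds_le_nhdsSet hx), h2⟩

theorem contDiff_cut_smul {F : Type} [NormedAddCommGroup F] [NormedSpace ℝ F] {b : X → ℝ}
    {u : X → F} {N : Set X} (hN : IsOpen N) (hb : ContDiff ℝ ∞ b) (hs : tsupport b ⊆ N)
    (hu : ContDiffOn ℝ ∞ u N) : ContDiff ℝ ∞ fun x => b x • u x := by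
  refine contDiff_iff_contDiffAt.2 fun x => ?_
  by_cases hx : x ∈ N
  · exact hb.contDiffAt.smul (hu.contDiffAt (hN.mem_nhds hx))
  · have : b =ᶠ[𝓝 x] 0 := notMem_tsupport_iff_eventuallyEq.1 fun h => hx (hs h)
    refine (contDiffAt_const (c := (0 : F))).congr_of_eventuallyEq ?_
    filter_upwards [this] with y hy
    simp [hy]

theorem regband : RegBandStmt := by
  intro X _ _ S 𝒵 Y Λ hS hZ hY hΛ hpos x₀ hx₀
  by_cases hxS : x₀ ∈ S
  swap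
  · exact ⟨1, one_pos, fun c hc t h => hxS (h ▸ hc.mem t)⟩
  have hD : Continuous fun x => fderiv ℝ Λ x (Y x) :=
    (hΛ.continuous_fderiv one_ne_zero).clm_apply hY
  have hdiff : Differentiable ℝ Λ := hΛ.differentiable one_ne_zero
  obtain ⟨C, hC, hCb⟩ := exists_fderiv_bound hΛ hS
  obtain ⟨B, hB⟩ := hS.exists_bound_of_continuousOn hY.continuousOn
  have hB0 : 0 ≤ B := (norm_nonneg _).trans (hB x₀ hxS)
  set m₀ := fderiv ℝ Λ x₀ (Y x₀) with hm₀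
  have hm : 0 < m₀ := hpos x₀ hxS hx₀
  obtain ⟨ρ, hρ, hball⟩ := Metric.eventually_nhds_iff.1
    (hD.continuousAt.eventually (lt_mem_nhds (show m₀ / 2 < m₀ by linarith)))
  set τ₁ := ρ / (2 * (B + 1)) with hτ₁
  have hτ₁p : 0 < τ₁ := by positivity
  set γ := m₀ / 4 * τ₁ with hγ
  have hγp : 0 < γ := by positivity
  -- a value in the open interval that is not a value at a point of `𝒵`
  have hfin : (Λ '' 𝒵).Finite := hZ.image Λ
  obtain ⟨v, hv, hvZ⟩ : ∃ v ∈ Ioo (Λ x₀) (Λ x₀ + γ), v ∉ Λ '' 𝒵 :=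
    (Ioo_infinite (by linarith)).exists_notMem_finite hfin
  have hop : IsOpen (Ioo (Λ x₀) (Λ x₀ + γ) ∩ (Λ '' 𝒵)ᶜ) :=
    isOpen_Ioo.inter hfin.isClosed.isOpen_compl
  obtain ⟨η, hη, hηb⟩ := Metric.isOpen_iff.1 hop v ⟨hv, hvZ⟩
  have hK : IsCompact (S ∩ Λ ⁻¹' Icc (v - η / 2) (v + η / 2)) :=
    hS.inter_right (isClosed_Icc.preimage hΛ.continuous)
  obtain ⟨m, hmp, hmb⟩ := exists_pos_le hK hD.continuousOn fun x hx => hpos x hx.1 fun hz => by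
    have : Λ x ∈ ball v η := by
      rw [mem_ball, Real.dist_eq, abs_lt]
      constructor <;> linarith [hx.2.1, hx.2.2]
    exact (hηb this).2 ⟨x, hz, rfl⟩
  refine ⟨min 1 (min (m₀ / (4 * C)) (m / (2 * C))), by positivity, fun c hc t₀ ht₀ => ?_⟩
  set ε := min 1 (min (m₀ / (4 * C)) (m / (2 * C))) with hε
  have hε0 : 0 < ε := by positivity
  have hε1 : ε ≤ 1 := min_le_left _ _
  have hε2 : C * ε ≤ m₀ / 4 := by
    have : ε ≤ m₀ / (4 * C) := (min_le_right _ _).trans (min_le_left _ _)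
    rw [le_div_iff₀ (by positivity)] at this
    linarith
  have hε3 : C * ε ≤ m / 2 := by
    have : ε ≤ m / (2 * C) := (min_le_right _ _).trans (min_le_right _ _)
    rw [le_div_iff₀ (by positivity)] at this
    linarith
  have hrd : ∀ t, RD (fun s => Λ (c s)) t fun a => fderiv ℝ Λ (c t) (Y (c t)) - C * ε ≤ a :=
    fun t => ((hc.near t).comp (hdiff _)).rd.mono fun a h => by
      have := mul_le_mul_of_nonneg_right (hCb _ (hc.mem t)) hε0.le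
      linarith [h.1]
  have hcont : Continuous fun s => Λ (c s) := hΛ.continuous.comp hc.cont
  have hnear : ∀ t ∈ Icc t₀ (t₀ + τ₁), dist (c t) x₀ < ρ := fun t ht => by
    have h1 := drift (c := c) (m := B + 1) ht.1 hc.cont.continuousOn fun s _ => by
      obtain ⟨w, h1, h2⟩ := hc.near s
      refine ⟨w, h1, ?_⟩
      have := norm_add_le (w - Y (c s)) (Y (c s))
      rw [sub_add_cancel] at this
      rw [sub_zero]
      linarith [hB _ (hc.mem s)]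
    rw [dist_eq_norm, ← ht₀]
    have h2 : (B + 1) * (t - t₀) ≤ (B + 1) * τ₁ := by gcongr; linarith [ht.2]
    have h3 : (B + 1) * τ₁ = ρ / 2 := by rw [hτ₁]; field_simp
    linarith
  have hrise := speed_ge (f := fun s => Λ (c s)) (a := t₀) (b := t₀ + τ₁) (m := m₀ / 4)
    (by linarith) hcont.continuousOn fun t ht => (hrd t).mono fun a h => by
      have := hball (hnear t ⟨ht.1, ht.2.le⟩)
      linarith
  obtain ⟨τ, hτ, hper⟩ := hc.per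
  obtain ⟨t, -, ht⟩ := intermediate_value_Icc (show t₀ ≤ t₀ + τ₁ by linarith) hcont.continuousOn
    (show v ∈ Icc (Λ (c t₀)) (Λ (c (t₀ + τ₁))) from ⟨by rw [ht₀]; exact hv.1.le, by
      rw [add_sub_cancel_left, ht₀] at hrise; linarith [hv.2]⟩)
  refine band (f := fun s => Λ (c s)) (α := v - η / 2) (β := v + η / 2) hcont hτ
    (fun s => by simp only [hper s]) (fun s hs => (hrd s).mono fun a h => ?_) t
    ⟨by simp only [] at ht; linarith, by simp only [] at ht; linarith⟩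
  have := hmb (c s) ⟨hc.mem s, hs.1.le, hs.2.le⟩
  linarith

end Tools

end Pool.Agent.MP_6d695c_gt.SW

end MrgPart1

-- marker of a merged file
example : 731051 + 31480 = 731051 + 31480 := rfl

end MrgPart0

-- ======== part 1: formerly Pool.Agent.MP_6d695c_gt.sw.Base
section MrgPart1

/-! PROJECT SW: parametrised subsets, the ambient structure. -/

open scoped ContDiff Topology
open Set Metric Filter Real

namespace Pool.Agent.MP_6d695c_gt.SW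

section Base
variable {X : Type} [NormedAddCommGroup X] [NormedSpace ℝ X] {E : Type} [NormedAddCommGroup E]
  [NormedSpace ℝ E] {S : Set X} {g : E → X} {r : X → E} {O : Set E} {N : Set X}

theorem dd_anti (l : X → X →L[ℝ] ℝ) (x u v : X) : dd l x u v = -dd l x v u := by
  simp [dd]

theorem dd_add_fderiv {l : X → X →L[ℝ] ℝ} {H : X → ℝ} {x : X} (hl : DifferentiableAt ℝ l x)
    (hH : ContDiffAt ℝ 2 H x) (u v : X) :
    dd (fun y => l y + fderiv ℝ H y) x u v = dd l x u v := by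
  have h1 : DifferentiableAt ℝ (fderiv ℝ H) x :=
    (hH.fderiv_right (m := 1) (by norm_num)).differentiableAt one_ne_zero
  have h2 := (hH.isSymmSndFDerivAt (by simp)).eq u v
  simp only [dd, fderiv_fun_add hl h1, add_apply, h2]
  ring

theorem dd_pullback {l : X → X →L[ℝ] ℝ} {f : E → X} {y : E} (hl : DifferentiableAt ℝ l (f y))
    (hf : ContDiffAt ℝ 2 f y) (u v : E) :
    dd (fun y => (l (f y)).comp (fderiv ℝ f y)) y u v =
      dd l (f y) (fderiv ℝ f y u) (fderiv ℝ f y v) := by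
  have h0 : DifferentiableAt ℝ f y := hf.differentiableAt two_ne_zero
  have h1 : DifferentiableAt ℝ (fderiv ℝ f) y :=
    (hf.fderiv_right (m := 1) (by norm_num)).differentiableAt one_ne_zero
  have h2 := (hf.isSymmSndFDerivAt (by simp)).eq u v
  have h3 := (hl.hasFDerivAt.comp y h0.hasFDerivAt).clm_comp h1.hasFDerivAt
  have h4 : fderiv ℝ (fun y => (l (f y)).comp (fderiv ℝ f y)) y = _ := h3.fderiv
  simp only [dd, h4]
  simp [h2]

theorem Par.cg (h : Par S g r O N) {y : E} (hy : y ∈ O) : ContDiffAt ℝ ∞ g y :=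
  h.sg.contDiffAt (h.oO.mem_nhds hy)

theorem Par.cr (h : Par S g r O N) {x : X} (hx : x ∈ N) : ContDiffAt ℝ ∞ r x :=
  h.sr.contDiffAt (h.oN.mem_nhds hx)

theorem Par.dg (h : Par S g r O N) {y : E} (hy : y ∈ O) : DifferentiableAt ℝ g y :=
  (h.cg hy).differentiableAt (by simp)

theorem Par.dr (h : Par S g r O N) {x : X} (hx : x ∈ N) : DifferentiableAt ℝ r x :=
  (h.cr hx).differentiableAt (by simp)

theorem Par.dr_dg (h : Par S g r O N) {y : E} (hy : y ∈ O) (u : E) :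
    fderiv ℝ r (g y) (fderiv ℝ g y u) = u := by
  have h1 := (h.dr (h.gm y hy).2.1).hasFDerivAt.comp y (h.dg hy).hasFDerivAt
  have h2 : r ∘ g =ᶠ[𝓝 y] id := by
    filter_upwards [h.oO.mem_nhds hy] with z hz using (h.gm z hz).2.2
  have h3 := (h1.congr_of_eventuallyEq h2.symm).unique (hasFDerivAt_id y)
  simpa using congrArg (fun L => L u) h3

theorem fderiv_congr_tg {F : Type} [NormedAddCommGroup F] [NormedSpace ℝ F] {u u' : X → F}
    {x v : X} (hu : DifferentiableAt ℝ u x) (hu' : DifferentiableAt ℝ u' x) (hx : x ∈ S)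
    (h : ∀ᶠ y in 𝓝[S] x, u y = u' y) (hv : v ∈ Tg S x) : fderiv ℝ u x v = fderiv ℝ u' x v := by
  have _ := hx
  obtain ⟨γ, h0, h1, h2⟩ := hv
  subst h0
  have h3 : Tendsto γ (𝓝 0) (𝓝[S] (γ 0)) :=
    tendsto_nhdsWithin_iff.2 ⟨h1.continuousAt.tendsto, h2⟩
  have h4 := hu.hasFDerivAt.comp_hasDerivAt (0 : ℝ) h1
  have h5 := hu'.hasFDerivAt.comp_hasDerivAt (0 : ℝ) h1
  exact h4.unique (h5.congr_of_eventuallyEq (h3.eventually h))

theorem Par.ret (h : Par S g r O N) {x v : X} (hx : x ∈ S) (hN : x ∈ N) (hv : v ∈ Tg S x) :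
    fderiv ℝ g (r x) (fderiv ℝ r x v) = v := by
  have h1 := (h.dg (h.rm x hx hN).1).hasFDerivAt.comp x (h.dr hN).hasFDerivAt
  have h2 := fderiv_congr_tg (u := g ∘ r) (u' := id) h1.differentiableAt differentiableAt_id hx
    (by
      filter_upwards [self_mem_nhdsWithin, mem_nhdsWithin_of_mem_nhds (h.oN.mem_nhds hN)]
        with y hy hy' using (h.rm y hy hy').2) hv
  rw [h1.fderiv] at h2
  simpa using h2

theorem Par.tg (h : Par S g r O N) {y : E} (hy : y ∈ O) :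
    Tg S (g y) = range (fderiv ℝ g y) := by
  ext v
  constructor
  · intro hv
    have := h.ret (h.gm y hy).1 (h.gm y hy).2.1 hv
    rw [(h.gm y hy).2.2] at this
    exact ⟨_, this⟩
  · rintro ⟨u, rfl⟩
    have h1 : HasDerivAt (fun t : ℝ => y + t • u) u 0 := by
      simpa using ((hasDerivAt_id (0 : ℝ)).smul_const u).const_add y
    refine ⟨fun t => g (y + t • u), by simp, ?_, ?_⟩
    · exact HasFDerivAt.comp_hasDerivAt_of_eq (0 : ℝ) (h.dg hy).hasFDerivAt h1 (by simp)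
    · have : Tendsto (fun t : ℝ => y + t • u) (𝓝 0) (𝓝 y) := by
        simpa using h1.continuousAt.tendsto
      filter_upwards [this.eventually (h.oO.mem_nhds hy)] with t ht using (h.gm _ ht).1

theorem Par.mono (h : Par S g r O N) {O' : Set E} (ho : IsOpen O') (hO : O' ⊆ O) :
    Par S g r O' (N ∩ r ⁻¹' O') where
  oO := ho
  oN := h.sr.continuousOn.isOpen_inter_preimage h.oN ho
  sg := h.sg.mono hO
  sr := h.sr.mono inter_subset_left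
  gm y hy := ⟨(h.gm y (hO hy)).1, ⟨(h.gm y (hO hy)).2.1, by
    rw [mem_preimage, (h.gm y (hO hy)).2.2]; exact hy⟩, (h.gm y (hO hy)).2.2⟩
  rm x hx hN := ⟨hN.2, (h.rm x hx hN.1).2⟩

theorem Par.global [FiniteDimensional ℝ X] (h : Par S g r O N) {p : X} (hp : p ∈ S) (hN : p ∈ N) :
    ∃ r' O' N', Par S g r' O' N' ∧ ContDiff ℝ ∞ r' ∧ p ∈ N' ∧ N' ⊆ N ∧ O' ⊆ O ∧
      EqOn r' r N' := by
  have _ := hp
  obtain ⟨b, hb, -, hs, h1, -⟩ := exists_cut (isCompact_singleton (x := p)) h.oN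
    (singleton_subset_iff.2 hN)
  obtain ⟨U, hU, hUo, hpU⟩ := _root_.eventually_nhds_iff.1 (h1 p rfl)
  have he : EqOn (fun x => b x • r x) r (N ∩ U) := fun x hx => by simp [hU x hx.2]
  refine ⟨fun x => b x • r x, O ∩ g ⁻¹' U, N ∩ U, ⟨?_, h.oN.inter hUo, h.sg.mono inter_subset_left,
    (h.sr.mono inter_subset_left).congr he, fun y hy => ?_, fun x hx hx' => ?_⟩,
    contDiff_cut_smul h.oN hb hs h.sr, ⟨hN, hpU⟩, inter_subset_left, inter_subset_left, he⟩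
  · exact h.sg.continuousOn.isOpen_inter_preimage h.oO hUo
  · have := h.gm y hy.1
    exact ⟨this.1, ⟨this.2.1, hy.2⟩, (he ⟨this.2.1, hy.2⟩).trans this.2.2⟩
  · have := h.rm x hx hx'.1
    rw [show b x • r x = r x from he hx']
    exact ⟨⟨this.1, by rw [mem_preimage, this.2]; exact hx'.2⟩, this.2⟩

theorem Par.lip (h : Par S g r O N) {K : Set E} (hK : IsCompact K) (hc : Convex ℝ K)
    (hO : K ⊆ O) : ∃ L, 0 < L ∧ ∀ y ∈ K, ∀ y' ∈ K, ‖g y - g y'‖ ≤ L * ‖y - y'‖ := by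
  have hcont : ContinuousOn (fderiv ℝ g) O :=
    h.sg.continuousOn_fderiv_of_isOpen h.oO (by simp)
  obtain ⟨C, hC⟩ := hK.exists_bound_of_continuousOn (hcont.mono hO)
  refine ⟨|C| + 1, by positivity, fun y hy y' hy' => ?_⟩
  exact hc.norm_image_sub_le_of_norm_fderiv_le (𝕜 := ℝ) (fun x hx => h.dg (hO hx))
    (fun x hx => (hC x hx).trans (by linarith [le_abs_self C])) hy' hy

theorem Par.mem_image (h : Par S g r O N) {K : Set E} (hO : K ⊆ O) {x : X} :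
    x ∈ g '' K ↔ x ∈ S ∧ x ∈ N ∧ r x ∈ K := by
  constructor
  · rintro ⟨y, hy, rfl⟩
    have := h.gm y (hO hy)
    exact ⟨this.1, this.2.1, by rw [this.2.2]; exact hy⟩
  · rintro ⟨h1, h2, h3⟩
    exact ⟨r x, h3, (h.rm x h1 h2).2⟩

theorem Sub.tg_add (h : Sub E S) {x u v : X} (hx : x ∈ S) (hu : u ∈ Tg S x) (hv : v ∈ Tg S x) :
    u + v ∈ Tg S x := by
  obtain ⟨g, r, O, N, hP, hN⟩ := h x hx
  have e := hP.tg (hP.rm x hx hN).1
  rw [(hP.rm x hx hN).2] at e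
  rw [e] at hu hv ⊢
  obtain ⟨a, rfl⟩ := hu
  obtain ⟨b, rfl⟩ := hv
  exact ⟨a + b, map_add _ _ _⟩

theorem Sub.tg_smul (h : Sub E S) {x u : X} (hx : x ∈ S) (c : ℝ) (hu : u ∈ Tg S x) :
    c • u ∈ Tg S x := by
  obtain ⟨g, r, O, N, hP, hN⟩ := h x hx
  have e := hP.tg (hP.rm x hx hN).1
  rw [(hP.rm x hx hN).2] at e
  rw [e] at hu ⊢
  obtain ⟨a, rfl⟩ := hu
  exact ⟨c • a, map_smul _ _ _⟩

theorem Sub.tg_sub (h : Sub E S) {x u v : X} (hx : x ∈ S) (hu : u ∈ Tg S x) (hv : v ∈ Tg S x) :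
    u - v ∈ Tg S x := by
  have := h.tg_add hx hu (h.tg_smul hx (-1) hv)
  simpa [sub_eq_add_neg] using this

variable {l : X → X →L[ℝ] ℝ} {Pi : X → (X →L[ℝ] ℝ) →L[ℝ] X} {φ : X → ℝ} {s : ℝ}

theorem Amb.nondeg (h : Amb E S l Pi φ s) {x u : X} (hx : x ∈ S) (hu : u ∈ Tg S x)
    (h0 : ∀ v ∈ Tg S x, dd l x u v = 0) : u = 0 := by
  obtain ⟨α, -, hα⟩ := exists_dual_vector'' ℝ u
  have h1 := h.dual x hx α u hu
  rw [dd_anti, h0 _ (h.tan x hx α), hα] at h1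
  simpa using h1.symm

theorem dd_sub_left (l : X → X →L[ℝ] ℝ) (x u u' v : X) :
    dd l x (u - u') v = dd l x u v - dd l x u' v := by
  simp only [dd, map_sub, sub_apply]
  ring

theorem Amb.uniq (h : Amb E S l Pi φ s) {x u : X} {α : X →L[ℝ] ℝ} (hx : x ∈ S) (hu : u ∈ Tg S x)
    (h0 : ∀ v ∈ Tg S x, dd l x u v = α v) : u = Pi x α :=
  sub_eq_zero.1 (h.nondeg hx (h.sub.tg_sub hx hu (h.tan x hx α)) fun v hv => by
    rw [dd_sub_left, h0 v hv, h.dual x hx α v hv, sub_self])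

theorem Amb.congr (h : Amb E S l Pi φ s) {x : X} {α β : X →L[ℝ] ℝ} (hx : x ∈ S)
    (h0 : ∀ v ∈ Tg S x, α v = β v) : Pi x α = Pi x β :=
  h.uniq hx (h.tan x hx α) fun v hv => by rw [h.dual x hx α v hv, h0 v hv]

theorem Amb.smZ (h : Amb E S l Pi φ s) : ContDiff ℝ ∞ fun x => Pi x (l x) :=
  h.sP.clm_apply h.sl

variable {ι : Type} [Fintype ι] [DecidableEq ι]

omit [DecidableEq ι] in
theorem Sub.hat (h : Sub E S) : Sub (E × (ι → ℂ)) (hat S ι) := by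
  intro p hp
  obtain ⟨g, r, O, N, hP, hN⟩ := h p.1 hp
  refine ⟨fun y => (g y.1, y.2), fun x => (r x.1, x.2), O ×ˢ univ, N ×ˢ univ,
    ⟨hP.oO.prod isOpen_univ, hP.oN.prod isOpen_univ, ?_, ?_, fun y hy => ?_, fun x hx hx' => ?_⟩,
    ⟨hN, trivial⟩⟩
  · exact (hP.sg.comp contDiffOn_fst fun y hy => hy.1).prodMk contDiffOn_snd
  · exact (hP.sr.comp contDiffOn_fst fun y hy => hy.1).prodMk contDiffOn_snd
  · have := hP.gm y.1 hy.1
    exact ⟨this.1, ⟨this.2.1, trivial⟩, by simp [this.2.2]⟩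
  · have := hP.rm x.1 hx hx'.1
    exact ⟨⟨this.1, trivial⟩, by simp [this.2]⟩

omit [DecidableEq ι] in
theorem tg_hat {p v : X × (ι → ℂ)} (hv : v.1 ∈ Tg S p.1) : v ∈ Tg (hat S ι) p := by
  obtain ⟨γ, h0, h1, h2⟩ := hv
  have h3 : HasDerivAt (fun t : ℝ => p.2 + t • v.2) v.2 0 := by
    simpa using ((hasDerivAt_id (0 : ℝ)).smul_const v.2).const_add p.2
  exact ⟨fun t => (γ t, p.2 + t • v.2), by simp [h0], h1.prodMk h3, h2⟩

theorem contDiff_shC {Y : Type} [NormedAddCommGroup Y] [NormedSpace ℝ Y]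
    {a : Y → (ι → ℂ) →L[ℝ] ℝ} (ha : ContDiff ℝ ∞ a) : ContDiff ℝ ∞ fun y => shC (a y) := by
  refine contDiff_pi.2 fun i => ?_
  have : (fun y => shC (a y) i) = fun y => Complex.equivRealProdCLM.symm
      (a y (_root_.Pi.single i Complex.I), -a y (_root_.Pi.single i 1)) := by
    funext y; rfl
  rw [this]
  exact Complex.equivRealProdCLM.symm.contDiff.comp
    ((ha.clm_apply contDiff_const).prodMk (ha.clm_apply contDiff_const).neg)

omit [DecidableEq ι] in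
theorem contDiff_d1 {G : X × (ι → ℂ) → ℝ} (hG : ContDiff ℝ ∞ G) : ContDiff ℝ ∞ (d1 G) :=
  (hG.fderiv_right (m := ∞) (by simp)).clm_comp contDiff_const

omit [DecidableEq ι] in
theorem contDiff_d2 {G : X × (ι → ℂ) → ℝ} (hG : ContDiff ℝ ∞ G) : ContDiff ℝ ∞ (d2 G) :=
  (hG.fderiv_right (m := ∞) (by simp)).clm_comp contDiff_const

theorem smZH (hl : ContDiff ℝ ∞ l) (hP : ContDiff ℝ ∞ Pi) {G : X × (ι → ℂ) → ℝ}
    (hG : ContDiff ℝ ∞ G) : ContDiff ℝ ∞ (ZH l Pi G) :=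
  ((hP.comp contDiff_fst).clm_apply ((hl.comp contDiff_fst).add (contDiff_d1 hG))).prodMk
    ((contDiff_snd.const_smul _).add (contDiff_shC (contDiff_d2 hG)))

theorem smXM {n : ℕ} {H : Q n × (ι → ℂ) → ℝ} (hH : ContDiff ℝ ∞ H) : ContDiff ℝ ∞ (XM H) := by
  have h1 := contDiff_d1 hH
  refine (contDiff_const.add (ContDiff.prodMk (contDiff_pi.2 fun j => ?_)
    (contDiff_pi.2 fun j => ?_))).prodMk
    ((contDiff_snd.const_smul _).add (contDiff_shC (contDiff_d2 hH)))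
  · exact ContDiff.mul (by fun_prop) (h1.clm_apply contDiff_const)
  · exact (ContDiff.mul (by fun_prop) (h1.clm_apply contDiff_const)).neg

end Base

section Fac
variable {ι : Type} [Fintype ι]

theorem hasFDerivAt_nsq (z : ι → ℂ) : ∃ L : (ι → ℂ) →L[ℝ] ℝ, HasFDerivAt nsq L z ∧
    ∀ v, L v = 2 * ipc z v := by
  have h : ∀ i, HasFDerivAt (fun z : ι → ℂ => (z i).re ^ 2 + (z i).im ^ 2)
      ((2 * (z i).re) • Complex.reCLM.comp (ContinuousLinearMap.proj (R := ℝ) i) +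
        (2 * (z i).im) • Complex.imCLM.comp (ContinuousLinearMap.proj (R := ℝ) i)) z := fun i => by
    have h1 := (Complex.reCLM.comp (ContinuousLinearMap.proj (R := ℝ)
      (φ := fun _ : ι => ℂ) i)).hasFDerivAt (x := z)
    have h2 := (Complex.imCLM.comp (ContinuousLinearMap.proj (R := ℝ)
      (φ := fun _ : ι => ℂ) i)).hasFDerivAt (x := z)
    refine ((h1.pow 2).add (h2.pow 2)).congr_fderiv ?_
    ext v; simp
  refine ⟨_, HasFDerivAt.fun_sum fun i _ => h i, fun v => ?_⟩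
  simp only [ipc, sum_apply, Finset.mul_sum]
  refine Finset.sum_congr rfl fun i _ => ?_
  simp
  ring

theorem contDiff_nsq : ContDiff ℝ ∞ (nsq : (ι → ℂ) → ℝ) :=
  ContDiff.sum fun i _ =>
    ((Complex.reCLM.contDiff.comp (contDiff_apply ℝ ℂ i)).pow 2).add
      ((Complex.imCLM.contDiff.comp (contDiff_apply ℝ ℂ i)).pow 2)

theorem fderiv_nsq (z v : ι → ℂ) : fderiv ℝ nsq z v = 2 * ipc z v := by
  obtain ⟨L, h1, h2⟩ := hasFDerivAt_nsq z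
  rw [h1.fderiv, h2]

theorem nsq_nonneg (z : ι → ℂ) : 0 ≤ nsq z := Finset.sum_nonneg fun i _ => by positivity

theorem ipc_self (z : ι → ℂ) : ipc z z = nsq z := by simp [ipc, nsq, sq]

theorem ipc_add (z u v : ι → ℂ) : ipc z (u + v) = ipc z u + ipc z v := by
  simp only [ipc, ← Finset.sum_add_distrib, Pi.add_apply, Complex.add_re, Complex.add_im]
  exact Finset.sum_congr rfl fun i _ => by ring

theorem ipc_smul (z u : ι → ℂ) (c : ℝ) : ipc z (c • u) = c * ipc z u := by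
  simp only [ipc, Finset.mul_sum, Pi.smul_apply, Complex.smul_re, Complex.smul_im, smul_eq_mul]
  exact Finset.sum_congr rfl fun i _ => by ring

theorem sq_norm_eq (z : ℂ) : ‖z‖ ^ 2 = z.re ^ 2 + z.im ^ 2 := by
  rw [Complex.sq_norm, Complex.normSq_apply]; ring

theorem norm_sq_le_nsq (z : ι → ℂ) : ‖z‖ ^ 2 ≤ nsq z := by
  have h : ‖z‖ ≤ √(nsq z) := (pi_norm_le_iff_of_nonneg (sqrt_nonneg _)).2 fun i =>
    le_sqrt_of_sq_le (by
      rw [sq_norm_eq]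
      exact Finset.single_le_sum (f := fun i => (z i).re ^ 2 + (z i).im ^ 2)
        (fun i _ => by positivity) (Finset.mem_univ i))
  calc ‖z‖ ^ 2 ≤ √(nsq z) ^ 2 := by gcongr
    _ = nsq z := sq_sqrt (nsq_nonneg z)

theorem nsq_le (z : ι → ℂ) : nsq z ≤ Fintype.card ι * ‖z‖ ^ 2 := by
  have := Finset.sum_le_card_nsmul Finset.univ (fun i => (z i).re ^ 2 + (z i).im ^ 2) (‖z‖ ^ 2)
    fun i _ => by
      rw [← sq_norm_eq]
      gcongr
      exact norm_le_pi_norm z i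
  simpa [nsq] using this

theorem abs_ipc_le (z v : ι → ℂ) : |ipc z v| ≤ Fintype.card ι * ‖z‖ * ‖v‖ := by
  have := Finset.sum_le_card_nsmul Finset.univ
    (fun i => |(z i).re * (v i).re + (z i).im * (v i).im|) (‖z‖ * ‖v‖) fun i _ => by
      have h1 : |(z i).re * (v i).re + (z i).im * (v i).im| ≤ ‖z i‖ * ‖v i‖ := by
        refine abs_le_of_sq_le_sq' ?_ (by positivity) |> abs_le.2
        rw [mul_pow, sq_norm_eq, sq_norm_eq]
        nlinarith [sq_nonneg ((z i).re * (v i).im - (z i).im * (v i).re)]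
      exact h1.trans (mul_le_mul (norm_le_pi_norm z i) (norm_le_pi_norm v i) (norm_nonneg _)
        (norm_nonneg _))
  refine (Finset.abs_sum_le_sum_abs _ _).trans ?_
  simpa [mul_assoc] using this

variable [DecidableEq ι]

theorem clm_expand (α : (ι → ℂ) →L[ℝ] ℝ) (v : ι → ℂ) :
    α v = ∑ i, ((v i).re * α (Pi.single i 1) + (v i).im * α (Pi.single i Complex.I)) := by
  conv_lhs => rw [← Finset.univ_sum_single v, map_sum]
  refine Finset.sum_congr rfl fun i _ => ?_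
  have : (Pi.single i (v i) : ι → ℂ) =
      (v i).re • (Pi.single i 1 : ι → ℂ) + (v i).im • (Pi.single i Complex.I : ι → ℂ) := by
    rw [← Pi.single_smul, ← Pi.single_smul, ← Pi.single_add]
    congr 1
    simp
  rw [this, map_add, map_smul, map_smul, smul_eq_mul, smul_eq_mul]

theorem omC_shC (α : (ι → ℂ) →L[ℝ] ℝ) (v : ι → ℂ) : omC (shC α) v = α v := by
  rw [clm_expand α v]
  exact Finset.sum_congr rfl fun i _ => by simp only [shC]; ring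

omit [Fintype ι] in
theorem shC_add (α β : (ι → ℂ) →L[ℝ] ℝ) : shC (α + β) = shC α + shC β := by
  funext i
  apply Complex.ext <;> simp [shC]
  ring

omit [Fintype ι] in
theorem shC_smul (c : ℝ) (α : (ι → ℂ) →L[ℝ] ℝ) : shC (c • α) = c • shC α := by
  funext i
  apply Complex.ext <;> simp [shC]

omit [Fintype ι] in
theorem shC_zero : shC (0 : (ι → ℂ) →L[ℝ] ℝ) = 0 := by
  funext i
  apply Complex.ext <;> simp [shC]

theorem ipc_single (z : ι → ℂ) (i : ι) (c : ℂ) :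
    ipc z (Pi.single i c) = (z i).re * c.re + (z i).im * c.im := by
  rw [ipc, Finset.sum_eq_single i]
  · simp
  · intro j _ hj; simp [Pi.single_eq_of_ne hj]
  · simp

theorem ipc_shC_nsq (z : ι → ℂ) : ipc z (shC (fderiv ℝ nsq z)) = 0 :=
  Finset.sum_eq_zero fun i _ => by
    simp only [shC, fderiv_nsq, ipc_single]
    simp
    ring

omit [DecidableEq ι] in
theorem isCompact_nsq (R : ℝ) : IsCompact {z : ι → ℂ | nsq z ≤ R} := by
  refine (isCompact_closedBall (0 : ι → ℂ) √R).of_isClosed_subset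
    (isClosed_le contDiff_nsq.continuous continuous_const) fun z hz => ?_
  rw [mem_closedBall_zero_iff]
  exact le_sqrt_of_sq_le ((norm_sq_le_nsq z).trans hz)

omit [Fintype ι] in
theorem XM_of_zero {n : ℕ} {H : Q n × (ι → ℂ) → ℝ} {p : Q n × (ι → ℂ)}
    (h : ∀ᶠ p' in 𝓝 p, H p' = 0) : XM H p = (one n, (1 / 2 : ℝ) • p.2) := by
  have h1 : fderiv ℝ H p = 0 := by
    rw [EventuallyEq.fderiv_eq (f := fun _ => (0 : ℝ)) h]; simp
  simp only [XM, d1, d2, h1, ContinuousLinearMap.zero_comp, shC_zero, add_zero]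
  congr 1
  ext j <;> simp [sh]

end Fac

section Lat
variable {n : ℕ}

/-- `lat` as a continuous linear map -/
noncomputable def latL (n : ℕ) : Q n →L[ℝ] Q n :=
  (ContinuousLinearMap.pi fun i =>
    ((ContinuousLinearMap.proj i : (Fin (n + 1) → ℝ) →L[ℝ] ℝ) -
      (ContinuousLinearMap.proj 0 : (Fin (n + 1) → ℝ) →L[ℝ] ℝ)).comp
      (ContinuousLinearMap.fst ℝ _ _)).prod (ContinuousLinearMap.snd ℝ _ _)

theorem latL_apply (q : Q n) : latL n q = lat q := rfl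

theorem continuous_lat : Continuous (lat : Q n → Q n) := (latL n).continuous

theorem lat_one : lat (one n) = 0 := by ext j <;> simp [lat, one]

theorem lat_add_one (q : Q n) (t : ℝ) : lat (q + t • one n) = lat q := by
  ext j <;> simp [lat, one]

theorem norm_lat_le (q : Q n) : ‖lat q‖ ≤ 2 * ‖q‖ := by
  have h0 := norm_nonneg q
  refine max_le ((pi_norm_le_iff_of_nonneg (by positivity)).2 fun i => ?_) ?_
  · have h1 := (norm_le_pi_norm q.1 i).trans (norm_fst_le q)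
    have h2 := (norm_le_pi_norm q.1 0).trans (norm_fst_le q)
    exact (norm_sub_le _ _).trans (by linarith)
  · exact (norm_snd_le q).trans (by linarith)

theorem norm_le_lat (q : Q n) : ‖q‖ ≤ |q.1 0| + ‖lat q‖ := by
  have h0 := abs_nonneg (q.1 0)
  refine max_le ((pi_norm_le_iff_of_nonneg (by positivity)).2 fun i => ?_) ?_
  · have h1 : |q.1 i - q.1 0| ≤ ‖lat q‖ := (norm_le_pi_norm (lat q).1 i).trans (norm_fst_le _)
    have h2 := abs_add_le (q.1 0) (q.1 i - q.1 0)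
    rw [add_sub_cancel] at h2
    rw [Real.norm_eq_abs]
    linarith
  · have : ‖q.2‖ ≤ ‖lat q‖ := norm_snd_le (lat q)
    linarith

theorem isClosed_cbox (a b : ℝ) : IsClosed (cbox n a b) :=
  (isClosed_le (f := fun q : Q n => |q.1 0|) (by fun_prop) continuous_const).inter
    (isClosed_le (f := fun q : Q n => ‖lat q‖) continuous_lat.norm continuous_const)

theorem isCompact_cbox (a b : ℝ) : IsCompact (cbox n a b) :=
  (isCompact_closedBall (0 : Q n) (a + b)).of_isClosed_subset (isClosed_cbox a b) fun q hq => by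
    rw [mem_closedBall_zero_iff]
    linarith [norm_le_lat q, hq.1, hq.2]

theorem convex_cbox (a b : ℝ) : Convex ℝ (cbox n a b) := by
  have h1 := (convex_closedBall (0 : ℝ) a).linear_preimage
    ((ContinuousLinearMap.proj 0 : (Fin (n + 1) → ℝ) →L[ℝ] ℝ).comp
      (ContinuousLinearMap.fst ℝ (Fin (n + 1) → ℝ) (Fin (n + 1) → ℝ))).toLinearMap
  have h2 := (convex_closedBall (0 : Q n) b).linear_preimage (latL n).toLinearMap
  refine (congrArg (Convex ℝ) ?_).mp (h1.inter h2)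
  ext q
  simp [cbox, latL_apply]

theorem isOpen_obox (a b : ℝ) : IsOpen (obox n a b) :=
  (isOpen_lt (f := fun q : Q n => |q.1 0|) (by fun_prop) continuous_const).inter
    (isOpen_lt (f := fun q : Q n => ‖lat q‖) continuous_lat.norm continuous_const)

theorem isCompact_Om {ι : Type} [Fintype ι] (d w R : ℝ) : IsCompact (Om n ι d w R) :=
  (isCompact_cbox d (4 * w)).prod (isCompact_nsq R)

variable {X : Type} [NormedAddCommGroup X] [NormedSpace ℝ X] {E : Type} [NormedAddCommGroup E]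
  [NormedSpace ℝ E] {S N : Set X} {l : X → X →L[ℝ] ℝ} {Pi : X → (X →L[ℝ] ℝ) →L[ℝ] X} {φ : X → ℝ}
  {s : ℝ}

theorem LCh.dΨ {Ψ : Q n → X} {κ : X → Q n} {O : Set (Q n)} (hA : Amb E S l Pi φ s)
    (h : LCh S l Pi Ψ κ O N) {q : Q n} (hq : q ∈ O) :
    fderiv ℝ Ψ q (one n) = Pi (Ψ q) (l (Ψ q)) := by
  obtain ⟨h1, h2, h3⟩ := h.par.gm q hq
  have := h.par.ret h1 h2 (hA.tan _ h1 (l (Ψ q)))
  rwa [h.hZ _ h1 h2, h3] at this

/-- the flow in a Liouville chart -/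
theorem LCh.flow {Ψ : Q n → X} {κ : X → Q n} {O : Set (Q n)} (hA : Amb E S l Pi φ s)
    (h : LCh S l Pi Ψ κ O N) {Y : X → X} {fl : ℝ → X → X} (hf : IsFlow Y fl) {q : Q n} {t : ℝ}
    (hq : ∀ u ∈ uIcc 0 t, q + u • one n ∈ O ∧
      Y (Ψ (q + u • one n)) = Pi (Ψ (q + u • one n)) (l (Ψ (q + u • one n)))) :
    fl t (Ψ q) = Ψ (q + t • one n) := by
  have hd : ∀ u ∈ uIcc 0 t, HasDerivAt (fun u : ℝ => Ψ (q + u • one n))
      (Y (Ψ (q + u • one n))) u := fun u hu => by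
    have h1 : HasDerivAt (fun u : ℝ => q + u • one n) (one n) u := by
      simpa using ((hasDerivAt_id u).smul_const (one n)).const_add q
    have h2 := (h.par.dg (hq u hu).1).hasFDerivAt.comp_hasDerivAt u h1
    rw [h.dΨ hA (hq u hu).1, ← (hq u hu).2] at h2
    exact h2
  rcases le_total 0 t with ht | ht
  · rw [uIcc_of_le ht] at hd
    have := hf.uniq _ 0 t ht (fun u hu => (hd u hu).continuousAt.continuousWithinAt)
      fun u hu => hd u (Ioo_subset_Icc_self hu)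
    simpa using this.symm
  · rw [uIcc_of_ge ht] at hd
    have := hf.uniq _ t 0 ht (fun u hu => (hd u hu).continuousAt.continuousWithinAt)
      fun u hu => hd u (Ioo_subset_Icc_self hu)
    simp only [zero_smul, add_zero, zero_sub] at this
    rw [this, ← hf.add, add_neg_cancel, hf.zero]

end Lat

end Pool.Agent.MP_6d695c_gt.SW

end MrgPart1

-- marker of a merged file
example : 731051 + 721088 = 731051 + 721088 := rfl
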