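import Pool.Agent.MP_6d695c_gt.sw.BoxB
import Pool.Agent.MP_6d695c_gt.sw.Base
import Mathlib.Analysis.Complex.ExponentialBounds

-- ======== part 0: formerly Pool.Agent.MP_6d695c_gt.sw.BoxC
section MrgPart0

/-! PROJECT SW: passes of a periodic curve through a box. -/

open scoped ContDiff Topology
open Set Metric Filter Real

namespace Pool.Agent.MP_6d695c_gt.SW.Box

variable {n : ℕ}

/-- the base component of a periodic curve -/
structure Geo (h w d μ : ℝ) (I : Set ℝ) (q : ℝ → Q n) : Prop where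
  hpos : 0 < h
  wpos : 0 < w
  dpos : 0 < d
  dle : d ≤ h / 4
  μ0 : 0 ≤ μ
  μle : μ ≤ 1 / 2
  μw : 80 * h * μ ≤ w / 8
  cont : Continuous q
  per : ∃ τ, 0 < τ ∧ Function.Periodic q τ ∧ ∀ t, t + τ ∈ I ↔ t ∈ I
  op : IsOpen I
  mem : ∀ t ∈ I, q t ∈ obox n (10 * h) (5 * w)
  cl : ∀ K, IsCompact K → K ⊆ obox n (10 * h) (5 * w) → IsClosed {t | t ∈ I ∧ q t ∈ K}
  fr : ∀ t ∈ I, q t ∉ cbox n d (2 * w) → Near q t (one n) μ
  up : ∀ t ∈ I, d / 16 < |(q t).1 0| → RD (fun s => (q s).1 0) t fun a => 0 < a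

/-- one pass -/
structure Ps (h w : ℝ) (I : Set ℝ) (q : ℝ → Q n) (a b : ℝ) : Prop where
  le : a ≤ b
  sub : Icc a b ⊆ I
  fa : (q a).1 0 = -(2 * h)
  fb : (q b).1 0 = 2 * h
  mem : ∀ t ∈ Icc a b, q t ∈ cbox n (2 * h) (4 * w)

theorem per_all {P : ℝ → Prop} {τ : ℝ} (hτ : 0 < τ) (hP : ∀ s, P (s + τ) ↔ P s) {t : ℝ}
    (h : (∀ s ≤ t, P s) ∨ ∀ s, t ≤ s → P s) (s : ℝ) : P s := by
  have hp : Function.Periodic P τ := fun s => propext (hP s)
  rcases h with h | h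
  · obtain ⟨y, hy, e⟩ := hp.exists_mem_Ico hτ s (t - τ)
    exact e ▸ h y (by linarith [hy.2])
  · obtain ⟨y, hy, e⟩ := hp.exists_mem_Ico hτ s t
    exact e ▸ h y hy.1

variable {h w d μ : ℝ} {I : Set ℝ} {q : ℝ → Q n}

theorem Geo.cf (g : Geo h w d μ I q) : Continuous fun s => (q s).1 0 :=
  (f0L n).continuous.comp g.cont

theorem Geo.cn (g : Geo h w d μ I q) : Continuous fun s => ‖lat (q s)‖ :=
  (continuous_lat.comp g.cont).norm

theorem Geo.free (g : Geo h w d μ I q) {a b : ℝ} (hab : a ≤ b) (hI : Icc a b ⊆ I)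
    (hf : ∀ t ∈ Ioo a b, q t ∉ cbox n d (2 * w)) :
    (q b).1 0 - (q a).1 0 ≤ 3 / 2 * (b - a) ∧ ‖lat (q b) - lat (q a)‖ ≤ 80 * h * μ := by
  have key : ∀ t ∈ Ioo a b, RD (fun s => (q s).1 0) t fun v => 1 / 2 ≤ v ∧ v ≤ 3 / 2 :=
    fun t ht => by
      obtain ⟨v, h1, h2⟩ := g.fr t (hI (Ioo_subset_Icc_self ht)) (hf t ht)
      refine ⟨v.1 0, (f0L n).hasFDerivAt.comp_hasDerivWithinAt t h1, ?_⟩
      have h3 : |v.1 0 - 1| ≤ μ :=
        ((norm_le_pi_norm (v - one n).1 0).trans (norm_fst_le _)).trans h2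
      rw [abs_le] at h3
      constructor <;> linarith [g.μle, h3.1, h3.2]
  have h1 := speed_ge' hab g.cf.continuousOn fun t ht => (key t ht).mono fun v hv => hv.1
  have h2 := speed_le' hab g.cf.continuousOn fun t ht => (key t ht).mono fun v hv => hv.2
  have h3 := drift (c := fun s => lat (q s)) (m := 2 * μ) hab
    (continuous_lat.comp g.cont).continuousOn fun t ht => by
      obtain ⟨v, h1, h2⟩ := g.fr t (hI (Ioo_subset_Icc_self ht)) (hf t ht)
      refine ⟨latL n v, (latL n).hasFDerivAt.comp_hasDerivWithinAt t h1, ?_⟩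
      have h4 : latL n v = lat (v - one n) := by
        rw [← latL_apply, map_sub, latL_apply (one n), lat_one, sub_zero]
      rw [sub_zero, h4]
      linarith [norm_lat_le (v - one n)]
  have h4 := abs_lt.1 (g.mem a (hI ⟨le_rfl, hab⟩)).1
  have h5 := abs_lt.1 (g.mem b (hI ⟨hab, le_rfl⟩)).1
  refine ⟨h2, h3.trans ?_⟩
  nlinarith [g.μ0]

theorem Geo.strict (g : Geo h w d μ I q) {t s v : ℝ} (hts : t < s) (hI : Icc t s ⊆ I)
    (hv : d / 16 < |v|) (h0 : v ≤ (q t).1 0) : v < (q s).1 0 := by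
  obtain ⟨x, hx, hvx⟩ : ∃ x ∈ Icc t s, v < (q x).1 0 := by
    rcases h0.eq_or_lt with e | h0
    · have h1 := (g.up t (hI ⟨le_rfl, hts.le⟩) (e ▸ hv)).ev_lt
      obtain ⟨x, h2, h3⟩ := (h1.and (Ioc_mem_nhdsGT hts)).exists
      exact ⟨x, ⟨h3.1.le, h3.2⟩, e ▸ h2⟩
    · exact ⟨t, ⟨le_rfl, hts.le⟩, h0⟩
  have h1 : ∀ᶠ y in 𝓝[>] v, d / 16 < |y| :=
    mem_nhdsWithin_of_mem_nhds (continuous_abs.continuousAt.eventually (lt_mem_nhds hv))
  obtain ⟨y, h2, h3⟩ := (h1.and (Ioc_mem_nhdsGT hvx)).exists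
  exact h3.1.trans_le (fence_up (f := fun s => (q s).1 0) g.cf.continuousOn
    (fun z hz e => g.up z (hI ⟨hx.1.trans hz.1, hz.2.le⟩) (e ▸ h2)) h3.2 s ⟨hx.2, le_rfl⟩)

theorem Geo.mono (g : Geo h w d μ I q) {t s v : ℝ} (hts : t ≤ s) (hI : Icc t s ⊆ I)
    (hv : d / 16 < |v|) (h0 : v ≤ (q t).1 0) : v ≤ (q s).1 0 := by
  rcases hts.eq_or_lt with rfl | h1
  · exact h0
  · exact (g.strict h1 hI hv h0).le

theorem Geo.level (g : Geo h w d μ I q) {a b v : ℝ} (hab : a ≤ b) (hI : Icc a b ⊆ I)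
    (hv : d / 16 < |v|) (ha : (q a).1 0 ≤ v) (hb : v ≤ (q b).1 0) :
    ∃ s ∈ Icc a b, (q s).1 0 = v ∧ (∀ t ∈ Ico a s, (q t).1 0 < v) ∧
      ∀ t ∈ Ioc s b, v < (q t).1 0 := by
  obtain ⟨s, hs, e⟩ := intermediate_value_Icc hab g.cf.continuousOn ⟨ha, hb⟩
  have e' : (q s).1 0 = v := e
  refine ⟨s, hs, e', fun t ht => not_le.1 fun h0 => ?_, fun t ht => ?_⟩
  · exact (g.strict ht.2 ((Icc_subset_Icc ht.1 hs.2).trans hI) hv h0).ne' e'
  · exact g.strict ht.1 ((Icc_subset_Icc hs.1 ht.2).trans hI) hv e'.ge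

theorem Geo.jump (g : Geo h w d μ I q) {a b v : ℝ} (hab : a ≤ b) (hI : Icc a b ⊆ I)
    (hv : 2 * w ≤ v) : (‖lat (q a)‖ ≤ v → ‖lat (q b)‖ ≤ v + w / 8) ∧
      (‖lat (q b)‖ ≤ v → ‖lat (q a)‖ ≤ v + w / 8) := by
  have hT : IsClosed {s | ‖lat (q s)‖ ≤ v} := isClosed_le g.cn continuous_const
  constructor <;> intro h0
  · obtain ⟨s, hs, h1, h2⟩ := last_time hT h0 hab
    have h3 := (g.free hs.2 ((Icc_subset_Icc_left hs.1).trans hI) fun t ht h' =>
      h2 t ⟨ht.1, ht.2.le⟩ (h'.2.trans hv)).2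
    have h4 : ‖lat (q s)‖ ≤ v := h1
    linarith [norm_sub_norm_le (lat (q b)) (lat (q s)), g.μw]
  · obtain ⟨s, hs, h1, h2⟩ := first_time hT h0 hab
    have h3 := (g.free hs.1 ((Icc_subset_Icc_right hs.2).trans hI) fun t ht h' =>
      h2 t ⟨ht.1.le, ht.2⟩ (h'.2.trans hv)).2
    have h4 : ‖lat (q s)‖ ≤ v := h1
    rw [norm_sub_rev] at h3
    linarith [norm_sub_norm_le (lat (q a)) (lat (q s)), g.μw]

/-- the curve stays near the trap for all times -/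
def Conf (w d : ℝ) (I : Set ℝ) (q : ℝ → Q n) : Prop := ∀ t, t ∈ I ∧ q t ∈ cbox n d (4 * w)

theorem Geo.conf (g : Geo h w d μ I q) {H t : ℝ}
    (h0 : (∀ s ≤ t, s ∈ I ∧ q s ∈ obox n H (4 * w)) ∨
      ∀ s, t ≤ s → s ∈ I ∧ q s ∈ obox n H (4 * w)) : Conf w d I q := by
  obtain ⟨τ, hτ, hp, hI⟩ := g.per
  have h1 := per_all (P := fun s => s ∈ I ∧ q s ∈ obox n H (4 * w)) hτ
    (fun s => by rw [hI, hp]) h0
  have hd := g.dpos
  have hp' : Function.Periodic (fun s => (q s).1 0) τ := fun s => by simp only [hp s]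
  intro s
  have h2 := band_le (α := d / 16) g.cf hτ hp'
    (fun x hx => g.up x (h1 x).1 (hx.trans_le (le_abs_self _))) s
  have h3 := band (α := (q s).1 0 - 1) (β := -(d / 16)) g.cf hτ hp'
    (fun x hx => g.up x (h1 x).1 (by linarith [hx.2, neg_le_abs ((q x).1 0)])) s
  have h4 : -(d / 16) ≤ (q s).1 0 := not_lt.1 fun h' => h3 ⟨by linarith, h'⟩
  exact ⟨(h1 s).1, abs_le.2 ⟨by linarith, by linarith⟩, (h1 s).2.2.le⟩

theorem Geo.sets (g : Geo h w d μ I q) {H : ℝ} (hH : H < 10 * h) :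
    IsClosed {s | s ∈ I ∧ q s ∈ obox n H (4 * w)}ᶜ ∧
      IsClosed {s | s ∈ I ∧ q s ∈ cbox n H (4 * w)} :=
  ⟨(g.op.inter ((isOpen_obox _ _).preimage g.cont)).isClosed_compl,
    g.cl _ (isCompact_cbox _ _) fun x hx => ⟨hx.1.trans_lt hH, by linarith [hx.2, g.wpos]⟩⟩

theorem Geo.back (g : Geo h w d μ I q) {H t : ℝ} (hH : 2 * h ≤ H) (hH' : H < 10 * h) (ht : t ∈ I)
    (hf : |(q t).1 0| < H) (hl : ‖lat (q t)‖ ≤ 7 / 2 * w) :
    Conf w d I q ∨ ∃ a ≤ t, (q a).1 0 = -H ∧ ∀ x ∈ Icc a t, x ∈ I ∧ q x ∈ cbox n H (4 * w) := by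
  have hw := g.wpos
  by_cases h0 : ∀ s ≤ t, s ∈ I ∧ q s ∈ obox n H (4 * w)
  · exact Or.inl (g.conf (Or.inl h0))
  right
  obtain ⟨s, hs, hs'⟩ : ∃ s ≤ t, ¬ (s ∈ I ∧ q s ∈ obox n H (4 * w)) := by
    by_contra h1
    exact h0 fun s hs => by_contra fun h2 => h1 ⟨s, hs, h2⟩
  obtain ⟨hU, hA⟩ := g.sets hH'
  obtain ⟨a, ha, h1, h2⟩ := last_time hU hs' hs
  have hlt : a < t := ha.2.lt_of_ne fun e => h1 (e ▸ ⟨ht, hf, by linarith⟩)
  have h3 : Icc a t ⊆ {s | s ∈ I ∧ q s ∈ cbox n H (4 * w)} := by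
    rw [← closure_Ioc hlt.ne]
    refine hA.closure_subset_iff.2 fun x hx => ?_
    have h4 := not_not.1 (h2 x hx)
    exact ⟨h4.1, h4.2.1.le, h4.2.2.le⟩
  have hI : Icc a t ⊆ I := fun x hx => (h3 hx).1
  refine ⟨a, ha.2, ?_, h3⟩
  have h4 := h3 ⟨le_rfl, ha.2⟩
  have h5 := (g.jump ha.2 hI (v := 7 / 2 * w) (by linarith)).2 hl
  have h6 : H ≤ |(q a).1 0| := not_lt.1 fun h' => h1 ⟨h4.1, h', by linarith⟩
  have h7 : (q a).1 0 < H := not_le.1 fun h' => by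
    have := g.mono ha.2 hI (v := H) (by linarith [le_abs_self H, g.dle, g.dpos]) h'
    linarith [le_abs_self ((q t).1 0)]
  have h8 := abs_le.1 h4.2.1
  rcases le_abs.1 h6 with h9 | h9 <;> linarith [h8.1]

theorem Geo.fwd (g : Geo h w d μ I q) {H t : ℝ} (hH : 2 * h ≤ H) (hH' : H < 10 * h) (ht : t ∈ I)
    (hf : |(q t).1 0| < H) (hl : ‖lat (q t)‖ ≤ 7 / 2 * w) :
    Conf w d I q ∨ ∃ b, t ≤ b ∧ (q b).1 0 = H ∧ ∀ x ∈ Icc t b, x ∈ I ∧ q x ∈ cbox n H (4 * w) := by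
  have hw := g.wpos
  by_cases h0 : ∀ s, t ≤ s → s ∈ I ∧ q s ∈ obox n H (4 * w)
  · exact Or.inl (g.conf (Or.inr h0))
  right
  obtain ⟨s, hs, hs'⟩ : ∃ s, t ≤ s ∧ ¬ (s ∈ I ∧ q s ∈ obox n H (4 * w)) := by
    by_contra h1
    exact h0 fun s hs => by_contra fun h2 => h1 ⟨s, hs, h2⟩
  obtain ⟨hU, hA⟩ := g.sets hH'
  obtain ⟨b, hb, h1, h2⟩ := first_time hU hs' hs
  have hlt : t < b := hb.1.lt_of_ne fun e => h1 (e ▸ ⟨ht, hf, by linarith⟩)
  have h3 : Icc t b ⊆ {s | s ∈ I ∧ q s ∈ cbox n H (4 * w)} := by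
    rw [← closure_Ico hlt.ne]
    refine hA.closure_subset_iff.2 fun x hx => ?_
    have h4 := not_not.1 (h2 x hx)
    exact ⟨h4.1, h4.2.1.le, h4.2.2.le⟩
  have hI : Icc t b ⊆ I := fun x hx => (h3 hx).1
  refine ⟨b, hb.1, ?_, h3⟩
  have h4 := h3 ⟨hb.1, le_rfl⟩
  have h5 := (g.jump hb.1 hI (v := 7 / 2 * w) (by linarith)).1 hl
  have h6 : H ≤ |(q b).1 0| := not_lt.1 fun h' => h1 ⟨h4.1, h', by linarith⟩
  have h7 : -H < (q b).1 0 := g.strict hlt hI (v := -H)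
    (by linarith [neg_le_abs (-H), g.dle, g.dpos]) (by linarith [neg_abs_le ((q t).1 0)])
  have h8 := abs_le.1 h4.2.1
  rcases le_abs.1 h6 with h9 | h9 <;> linarith [h8.2]

theorem Geo.exists_ps (g : Geo h w d μ I q) (hc : ¬ Conf w d I q) {t : ℝ} (ht : t ∈ I)
    (hq : q t ∈ cbox n h (7 / 2 * w)) : ∃ a b, Ps h w I q a b ∧ t ∈ Icc a b := by
  have hh := g.hpos
  obtain ⟨a, ha, h1, h2⟩ := (g.back (H := 2 * h) le_rfl (by linarith) ht
    (by linarith [hq.1]) hq.2).resolve_left hc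
  obtain ⟨b, hb, h3, h4⟩ := (g.fwd (H := 2 * h) le_rfl (by linarith) ht
    (by linarith [hq.1]) hq.2).resolve_left hc
  have h5 : ∀ x ∈ Icc a b, x ∈ I ∧ q x ∈ cbox n (2 * h) (4 * w) := fun x hx =>
    (le_total x t).elim (fun h' => h2 x ⟨hx.1, h'⟩) fun h' => h4 x ⟨h', hx.2⟩
  exact ⟨a, b, ⟨ha.trans hb, fun x hx => (h5 x hx).1, h1, h3, fun x hx => (h5 x hx).2⟩, ha, hb⟩

theorem Geo.hit_ps (g : Geo h w d μ I q) (hc : ¬ Conf w d I q) {t : ℝ} (ht : t ∈ I)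
    (h1 : 2 * h ≤ (q t).1 0) (h2 : (q t).1 0 ≤ 9 * h) (hl : ‖lat (q t)‖ ≤ w) :
    ∃ a b, Ps h w I q a b ∧ ‖lat (q b)‖ ≤ w + w / 8 := by
  have hh := g.hpos
  have hw := g.wpos
  obtain ⟨a, ha, h3, h4⟩ := (g.back (H := 19 / 2 * h) (by linarith) (by linarith) ht
    (abs_lt.2 ⟨by linarith, by linarith⟩) (by linarith)).resolve_left hc
  obtain ⟨a', b', k1, k2, k3, k4, k5, k6⟩ := cross_up (f := fun s => (q s).1 0) (u := -(2 * h))
    (v := 2 * h) ha g.cf.continuousOn (by linarith) (by linarith) h1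
  have hI : Icc b' t ⊆ I := fun x hx => (h4 x ⟨by linarith [hx.1], hx.2⟩).1
  refine ⟨a', b', ⟨k2, fun x hx => (h4 x ⟨k1.trans hx.1, hx.2.trans k3⟩).1, k4, k5, fun x hx =>
    ⟨abs_le.2 (k6 x hx), (h4 x ⟨k1.trans hx.1, hx.2.trans k3⟩).2.2⟩⟩, ?_⟩
  have h5 := (g.free k3 hI fun x hx h' => by
    have h6 := g.mono hx.1.le ((Icc_subset_Icc_right hx.2.le).trans hI) (v := 2 * h)
      (by linarith [le_abs_self (2 * h), g.dle, g.dpos]) k5.ge
    linarith [le_abs_self ((q x).1 0), h'.1, g.dle]).2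
  rw [norm_sub_rev] at h5
  linarith [norm_sub_norm_le (lat (q b')) (lat (q t)), g.μw]

/-- what the trap does during a pass -/
def Core (h w d : ℝ) (I : Set ℝ) (q : ℝ → Q n) : Prop :=
  ∀ a b, Ps h w I q a b → ∀ s t, a ≤ s → s ≤ t → t ≤ b → (q t).1 0 = d →
    (∀ x ∈ Icc s t, |(q x).1 0| ≤ d) → (∀ x ∈ Ioc t b, d < (q x).1 0) →
    ∀ x ∈ Icc s t, ‖lat (q x) - lat (q t)‖ ≤ 25 * d ∧
      (‖lat (q t)‖ ≤ 5 / 4 * w → -(d / 16) ≤ (q x).1 0)

theorem Geo.core (g : Geo h w d μ I q) (hc : Core h w d I q) {a b : ℝ} (p : Ps h w I q a b) :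
    ∃ y : Q n, (∀ x ∈ Icc a b, ‖lat (q x) - y‖ ≤ 25 * d + 80 * h * μ) ∧
      w + w / 8 < ‖lat (q b)‖ := by
  have hh := g.hpos
  have hd := g.dpos
  have hdl := g.dle
  have hη : 0 ≤ 80 * h * μ := by have := g.μ0; positivity
  obtain ⟨s, hs, s1, s2, s3⟩ := g.level p.le p.sub (v := -d) (by rw [abs_neg, abs_of_pos hd]; linarith)
    (by linarith [p.fa]) (by linarith [p.fb])
  obtain ⟨t, ht, t1, t2, t3⟩ := g.level p.le p.sub (v := d) (by rw [abs_of_pos hd]; linarith)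
    (by linarith [p.fa]) (by linarith [p.fb])
  have hst : s ≤ t := not_lt.1 fun h' => by linarith [s2 t ⟨ht.1, h'⟩]
  have h1 := hc a b p s t hs.1 hst ht.2 t1 (fun x hx => abs_le.2 ⟨by
    rcases hx.1.eq_or_lt with rfl | h'
    · exact s1.ge
    · exact (s3 x ⟨h', hx.2.trans ht.2⟩).le, by
    rcases hx.2.eq_or_lt with rfl | h'
    · exact t1.le
    · exact (t2 x ⟨hs.1.trans hx.1, h'⟩).le⟩) t3
  have h2 : ∀ x ∈ Icc t b, ‖lat (q x) - lat (q t)‖ ≤ 80 * h * μ := fun x hx =>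
    (g.free hx.1 ((Icc_subset_Icc ht.1 hx.2).trans p.sub) fun y hy h' => by
      linarith [t3 y ⟨hy.1, hy.2.le.trans hx.2⟩, le_abs_self ((q y).1 0), h'.1]).2
  have h3 : ∀ x ∈ Icc a s, ‖lat (q s) - lat (q x)‖ ≤ 80 * h * μ := fun x hx =>
    (g.free hx.2 ((Icc_subset_Icc hx.1 hs.2).trans p.sub) fun y hy h' => by
      linarith [s2 y ⟨hx.1.trans hy.1.le, hy.2⟩, neg_abs_le ((q y).1 0), h'.1]).2
  refine ⟨lat (q t), fun x hx => ?_, ?_⟩
  · rcases le_total x s with h' | h'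
    · have h4 := h3 x ⟨hx.1, h'⟩
      rw [norm_sub_rev] at h4
      linarith [norm_sub_le_norm_sub_add_norm_sub (lat (q x)) (lat (q s)) (lat (q t)),
        (h1 s ⟨le_rfl, hst⟩).1]
    rcases le_total x t with h'' | h''
    · linarith [(h1 x ⟨h', h''⟩).1]
    · linarith [h2 x ⟨h'', hx.2⟩]
  · have h4 : 5 / 4 * w < ‖lat (q t)‖ := not_le.1 fun h' => by
      linarith [(h1 s ⟨le_rfl, hst⟩).2 h']
    have h5 := h2 b ⟨ht.2, le_rfl⟩
    rw [norm_sub_rev] at h5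
    linarith [norm_sub_norm_le (lat (q t)) (lat (q b)), g.μw]

theorem Geo.out {ι : Type} {c : ℝ → Q n × (ι → ℂ)} (g : Geo h w d μ I fun t => (c t).1)
    (hn : ¬ Conf w d I fun t => (c t).1) (hc : Core h w d I fun t => (c t).1) {δ : ℝ}
    (hδ : 50 * d + 160 * h * μ ≤ δ) : Pass h w δ I c ∧ NoHit h w I c := by
  refine ⟨fun t ht hq ς hς => ?_, fun t ht h1 h2 => not_le.1 fun hl => ?_⟩
  · obtain ⟨a, b, p, hab⟩ := g.exists_ps hn ht hq
    obtain ⟨y, hy, -⟩ := g.core hc p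
    have key : ∀ x ∈ Icc a b, ‖lat (c x).1 - lat (c t).1‖ ≤ δ := fun x hx => by
      have h1 := hy t hab
      rw [norm_sub_rev] at h1
      linarith [norm_sub_le_norm_sub_add_norm_sub (lat (c x).1) y (lat (c t).1), hy x hx]
    rcases hς with rfl | rfl
    · exact ⟨b, p.sub ⟨p.le, le_rfl⟩, by rw [one_mul]; exact p.fb, p.mem b ⟨p.le, le_rfl⟩,
        key b ⟨p.le, le_rfl⟩⟩
    · exact ⟨a, p.sub ⟨le_rfl, p.le⟩, by rw [neg_one_mul]; exact p.fa, p.mem a ⟨le_rfl, p.le⟩,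
        key a ⟨le_rfl, p.le⟩⟩
  · obtain ⟨a, b, p, hb⟩ := g.hit_ps hn ht h1 h2 hl
    obtain ⟨y, -, hy⟩ := g.core hc p
    linarith

end Pool.Agent.MP_6d695c_gt.SW.Box

end MrgPart0

-- ======== part 1: formerly Pool.Agent.MP_6d695c_gt.sw.BoxD
section MrgPart1

/-! PROJECT SW: the shift register cleans the first slot. -/

open scoped ContDiff Topology
open Set Metric Filter Real

namespace Pool.Agent.MP_6d695c_gt.SW.Box

variable {n M : ℕ} {ι : Type} [Fintype ι]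

/-- growth at rate one, up to the error `e` -/
def Gr (G : ℝ → ℝ) (e t : ℝ) : Prop := RD G t fun v => G t - e ≤ v

theorem grow' {G : ℝ → ℝ} {a b e : ℝ} (hab : a ≤ b) (he : 0 ≤ e) (hG : Continuous G)
    (hd : ∀ t ∈ Ioo a b, Gr G e t) (hb : 0 ≤ G b) : G a ≤ e + G b := by
  have h1 := grow hab he hG.continuousOn hd
  have h2 : exp (-(b - a)) ≤ 1 := exp_le_one_iff.2 (by linarith)
  nlinarith

/-- weights between zero and one -/
def Wt (a : Fin (M + 1) → ℝ) : Prop := (∀ i, 0 ≤ a i) ∧ ∀ i, a i ≤ 1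

theorem wt_up (j : ℕ) : Wt (M := M) (up j) := ⟨up_nonneg j, up_le j⟩

theorem wt_ux (j m : ℕ) : Wt (M := M) (ux j m) :=
  ⟨ux_nonneg j m, fun i => (ux_le j m i).trans (up_le j i)⟩

/-- how the slots move along a curve -/
structure Sh (h w d e : ℝ) (u : ℕ → ℝ) (I : Set ℝ) (c : ℝ → Q n × (Sl ι M → ℂ))
    (G : Fin M → ℝ → ℝ) : Prop where
  cont : Continuous c
  per : ∃ τ, 0 < τ ∧ Function.Periodic c τ ∧ ∀ t, t + τ ∈ I ↔ t ∈ I
  e0 : 0 ≤ e
  u0 : u 0 = -(h / 2)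
  uM : u M = -h
  anti : StrictAnti u
  free : ∀ a, Wt a → ∀ t, ¬ (t ∈ I ∧ (c t).1 ∈ cbox n h (7 / 2 * w)) →
    Gr (fun s => NW a (c s).2) e t
  low : ∀ a, Wt a → ∀ t ∈ I, (c t).1.1 0 ≤ -(h / 2) →
    (∀ m : Fin M, (c t).1.1 0 ∈ Ioo (u (m + 1)) (u m) → a m.castSucc = a m.succ) →
    Gr (fun s => NW a (c s).2) e t
  high : ∀ a, Wt a → ∀ t ∈ I, -(h / 2) ≤ (c t).1.1 0 →
    (a 0 = 0 ∨ (c t).1 ∉ cbox n d (2 * w)) → Gr (fun s => NW a (c s).2) e t
  cG : ∀ m, Continuous (G m)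
  G0 : ∀ (m : Fin M) t, (c t).1.1 0 = u (m + 1) → G m t = nsq (sl m.succ (c t).2)
  G1 : ∀ (m : Fin M) t, (c t).1.1 0 = u m → G m t = nsq (sl m.castSucc (c t).2)
  dG : ∀ (m : Fin M), ∀ t ∈ I, (c t).1.1 0 ∈ Icc (u (m + 1)) (u m) →
    ‖lat (c t).1‖ ≤ 5 / 2 * w → RD (G m) t fun v => v ≤ G m t + e

variable {h w d μ e : ℝ} {u : ℕ → ℝ} {I : Set ℝ} {c : ℝ → Q n × (Sl ι M → ℂ)}
  {G : Fin M → ℝ → ℝ}

theorem Sh.cN (s : Sh h w d e u I c G) (a : Fin (M + 1) → ℝ) :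
    Continuous fun t => NW a (c t).2 :=
  (NW_smooth a).continuous.comp s.cont.snd

theorem one_pass (g : Geo h w d μ I fun t => (c t).1) (s : Sh h w d e u I c G) {a b : ℝ}
    (p : Ps h w I (fun t => (c t).1) a b) {j : ℕ} (hj : j + 1 ≤ M) :
    NW (up j) (c a).2 ≤ (2 * M + 3) * e + exp (-h) * NW (up (j + 1)) (c b).2 := by
  have hh := g.hpos
  have hd := g.dpos
  have hdl := g.dle
  have he := s.e0
  have hw := g.wpos
  have fa : (c a).1.1 0 = -(2 * h) := p.fa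
  have fb : (c b).1.1 0 = 2 * h := p.fb
  have hu : ∀ m ≤ M, -h ≤ u m ∧ u m ≤ -(h / 2) := fun m hm =>
    ⟨s.uM ▸ s.anti.antitone hm, s.u0 ▸ s.anti.antitone (Nat.zero_le m)⟩
  choose! τ hτ τ1 τ2 τ3 using fun m (hm : m ≤ M) => g.level p.le p.sub (v := u m)
    (by linarith [(hu m hm).2, neg_le_abs (u m)]) (by linarith [(hu m hm).1])
    (by linarith [(hu m hm).2])
  obtain ⟨t, ht, t1, t2, t3⟩ := g.level p.le p.sub (v := h / 2)
    (by linarith [le_abs_self (h / 2)]) (by linarith) (by linarith)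
  have hτt : ∀ m ≤ M, τ m ≤ t := fun m hm => not_lt.1 fun h' => by
    linarith [τ2 m hm t ⟨ht.1, h'⟩, (hu m hm).2]
  have hC : NW (up (j + 1)) (c t).2 ≤ e + exp (-h) * NW (up (j + 1)) (c b).2 := by
    have hout : ∀ x ∈ Ioo t b, (c x).1 ∉ cbox n d (2 * w) := fun x hx h' => by
      linarith [t3 x ⟨hx.1, hx.2.le⟩, le_abs_self ((c x).1.1 0), h'.1]
    have h1 := (g.free ht.2 ((Icc_subset_Icc_left ht.1).trans p.sub) hout).1
    have h2 := grow ht.2 he (s.cN (up (j + 1))).continuousOn fun x hx =>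
      s.high _ (wt_up _) x (p.sub ⟨ht.1.trans hx.1.le, hx.2.le⟩)
        (by linarith [t3 x ⟨hx.1, hx.2.le⟩]) (Or.inr (hout x hx))
    have h3 : exp (-(b - t)) ≤ exp (-h) := exp_le_exp.2 (by linarith)
    have h4 := NW_nonneg (up_nonneg (j + 1)) (c b).2
    nlinarith
  have hA : NW (up j) (c a).2 ≤ e + NW (up j) (c (τ (j + 1))).2 :=
    grow' (hτ _ hj).1 he (s.cN _) (fun x hx => s.low _ (wt_up _) x
      (p.sub ⟨hx.1.le, hx.2.le.trans (hτ _ hj).2⟩)
      (by linarith [τ2 _ hj x ⟨hx.1.le, hx.2⟩, (hu _ hj).2]) fun m hm => by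
        have h1 := s.anti.lt_iff_gt.1 (hm.1.trans (τ2 _ hj x ⟨hx.1.le, hx.2⟩))
        simp only [up, Fin.val_castSucc, Fin.val_succ]
        rw [if_neg (by omega), if_neg (by omega)]) (NW_nonneg (up_nonneg _) _)
  have hlow : ∀ x ∈ Ioc (τ (j + 1)) b, (c x).1.1 0 ≤ -(h / 2) →
      Gr (fun s => NW (up (j + 1)) (c s).2) e x := fun x hx h' =>
    s.low _ (wt_up _) x (p.sub ⟨(hτ _ hj).1.trans hx.1.le, hx.2⟩) h' fun m hm => by
      have h1 := s.anti.lt_iff_gt.1 ((τ3 _ hj x hx).trans hm.2)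
      simp only [up, Fin.val_castSucc, Fin.val_succ]
      rw [if_pos (by omega), if_pos (by omega)]
  have hM : (0 : ℝ) ≤ M := Nat.cast_nonneg M
  by_cases hfull : ∃ x ∈ Icc a b, (c x).1 ∈ cbox n d (2 * w)
  swap
  · have hB : NW (up (j + 1)) (c (τ (j + 1))).2 ≤ e + NW (up (j + 1)) (c t).2 :=
      grow' (hτt _ hj) he (s.cN _) (fun x hx => (le_total ((c x).1.1 0) (-(h / 2))).elim
        (hlow x ⟨hx.1, hx.2.le.trans ht.2⟩) fun h' => s.high _ (wt_up _) x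
          (p.sub ⟨(hτ _ hj).1.trans hx.1.le, hx.2.le.trans ht.2⟩) h' (Or.inr fun h'' =>
            hfull ⟨x, ⟨(hτ _ hj).1.trans hx.1.le, hx.2.le.trans ht.2⟩, h''⟩))
        (NW_nonneg (up_nonneg _) _)
    have := NW_mono (up_mono (M := M) j) (c (τ (j + 1))).2
    nlinarith
  obtain ⟨y, hy, hy'⟩ := hfull
  have h0M := Nat.zero_le M
  have hτy : τ 0 ≤ y := not_lt.1 fun h' => by
    linarith [τ2 0 h0M y ⟨hy.1, h'⟩, (hu 0 h0M).2, neg_abs_le ((c y).1.1 0), hy'.1]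
  have hmono : ∀ m m', m ≤ m' → m' ≤ M → τ m' ≤ τ m := fun m m' h1 h2 => not_lt.1 fun h' => by
    have h3 := τ3 m (h1.trans h2) (τ m') ⟨h', (hτ _ h2).2⟩
    rw [τ1 m' h2] at h3
    exact absurd (s.anti.antitone h1) (not_le.2 h3)
  have key : ∀ k ≤ j + 1, NW (ux (j + 1) k) (c (τ k)).2 ≤
      2 * k * e + NW (ux (j + 1) 0) (c (τ 0)).2 := fun k hk => by
    induction k with
    | zero => simp
    | succ k ih =>
      have hk1 : k + 1 ≤ M := hk.trans hj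
      have hk0 : k ≤ M := by omega
      set m : Fin M := ⟨k, hk1⟩ with hm
      have e1 : NW (ux (j + 1) (k + 1)) (c (τ (k + 1))).2 =
          NW (up (j + 1)) (c (τ (k + 1))).2 + -G m (τ (k + 1)) := by
        rw [s.G0 m _ (τ1 _ hk1), ← sub_eq_add_neg]
        exact NW_ux m.succ hk _
      have e2 : NW (ux (j + 1) k) (c (τ k)).2 = NW (up (j + 1)) (c (τ k)).2 + -G m (τ k) := by
        rw [s.G1 m _ (τ1 _ hk0), ← sub_eq_add_neg]
        exact NW_ux m.castSucc (show k ≤ j + 1 by omega) _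
      have h1 := grow' (G := fun x => NW (up (j + 1)) (c x).2 + -G m x) (e := 2 * e)
        (hmono k (k + 1) (by omega) hk1) (by linarith) ((s.cN _).add (s.cG m).neg)
        (fun x hx => by
          have x1 : a ≤ x := (hτ _ hk1).1.trans hx.1.le
          have x2 : x ≤ b := hx.2.le.trans (hτ _ hk0).2
          have x3 := τ2 k hk0 x ⟨x1, hx.2⟩
          have x4 := τ3 _ hk1 x ⟨hx.1, x2⟩
          have x5 : x ≤ y := hx.2.le.trans ((hmono 0 k (by omega) hk0).trans hτy)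
          have x6 := (g.jump x5 ((Icc_subset_Icc x1 hy.2).trans p.sub) le_rfl).2 hy'.2
          refine (hlow x ⟨(hmono _ _ hk hj).trans_lt hx.1, x2⟩ (by linarith [(hu k hk0).2])).add
            (s.dG m x (p.sub ⟨x1, x2⟩) ⟨x4.le, x3.le⟩ (by linarith)).neg fun v v' h1 h2 => ?_
          linarith) (e2 ▸ NW_nonneg (ux_nonneg _ _) _)
      have h2 := ih (by omega)
      rw [e1]
      rw [e2] at h2
      push_cast
      linarith
  have h1 := key _ le_rfl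
  rw [ux_top] at h1
  have h2 : NW (ux (j + 1) 0) (c (τ 0)).2 ≤ e + NW (ux (j + 1) 0) (c t).2 :=
    grow' (hτt 0 h0M) he (s.cN _) (fun x hx => s.high _ (wt_ux _ _) x
      (p.sub ⟨(hτ 0 h0M).1.trans hx.1.le, hx.2.le.trans ht.2⟩)
      (by linarith [τ3 0 h0M x ⟨hx.1, hx.2.le.trans ht.2⟩, s.u0]) (Or.inl (by simp [ux])))
      (NW_nonneg (ux_nonneg _ _) _)
  have h3 := NW_mono (ux_le (M := M) (j + 1) 0) (c t).2
  have h4 : ((j + 1 : ℕ) : ℝ) ≤ M := by exact_mod_cast hj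
  nlinarith

theorem tops (g : Geo h w d μ I fun t => (c t).1) (s : Sh h w d e u I c G)
    (hn : ¬ Conf w d I fun t => (c t).1) {R : ℝ} (hR : ∀ t, nsq (c t).2 ≤ R) (k : ℕ) :
    ∀ j, j + k = M → ∀ b ∈ I, (c b).1.1 0 = 2 * h →
      NW (up j) (c b).2 ≤ k * ((2 * M + 4) * e) + exp (-(k * h)) * R := by
  have hh := g.hpos
  have he := s.e0
  have hM : (0 : ℝ) ≤ M := Nat.cast_nonneg M
  have hR0 : 0 ≤ R := (nsq_nonneg _).trans (hR 0)
  induction k with
  | zero => exact fun j _ b _ _ => by simpa using (NW_le (up_le j) _).trans (hR b)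
  | succ k ih =>
    intro j hj b hb fb
    have hk : (0 : ℝ) ≤ k := Nat.cast_nonneg k
    have hE : 0 ≤ k * ((2 * M + 4) * e) := by positivity
    have hT : IsClosed {t | t ∈ I ∧ (c t).1 ∈ cbox n h (7 / 2 * w)} :=
      g.cl _ (isCompact_cbox _ _) fun x hx => ⟨by linarith [hx.1], by linarith [hx.2, g.wpos]⟩
    push_cast
    by_cases h0 : ∀ t, b ≤ t → ¬ (t ∈ I ∧ (c t).1 ∈ cbox n h (7 / 2 * w))
    · obtain ⟨τ, hτ, hp, hI⟩ := s.per
      have h1 := per_all (P := fun t => ¬ (t ∈ I ∧ (c t).1 ∈ cbox n h (7 / 2 * w))) hτ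
        (fun t => by rw [hI, hp]) (Or.inr h0)
      have h2 := band_le (α := e) (s.cN (up j)) hτ (fun t => by simp only [hp t])
        (fun t ht => (s.free _ (wt_up j) t (h1 t)).mono fun v hv => by linarith) b
      have h3 : 0 ≤ exp (-((k + 1) * h)) * R := by positivity
      nlinarith
    obtain ⟨t, ht, ht'⟩ : ∃ t, b ≤ t ∧ t ∈ I ∧ (c t).1 ∈ cbox n h (7 / 2 * w) := by
      by_contra h1
      exact h0 fun t ht h2 => h1 ⟨t, ht, h2⟩
    obtain ⟨x, hx, x1, x2⟩ := first_time hT ht' ht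
    obtain ⟨a', b', p, hab⟩ := g.exists_ps hn x1.1 x1.2
    have hba : b ≤ a' := not_lt.1 fun h' => by
      have := g.mono hx.1 ((Icc_subset_Icc h'.le hab.2).trans p.sub) (v := 2 * h)
        (by linarith [le_abs_self (2 * h), g.dle, g.dpos]) fb.ge
      linarith [le_abs_self ((c x).1.1 0), x1.2.1]
    have h1 : NW (up j) (c b).2 ≤ e + NW (up j) (c a').2 :=
      grow' hba he (s.cN _) (fun y hy => s.free _ (wt_up j) y
        (x2 y ⟨hy.1.le, hy.2.trans_le hab.1⟩)) (NW_nonneg (up_nonneg _) _)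
    have h2 := one_pass g s p (j := j) (by omega)
    have h3 := ih (j + 1) (by omega) b' (p.sub ⟨p.le, le_rfl⟩) p.fb
    have h4 : exp (-((k + 1) * h)) = exp (-h) * exp (-(k * h)) := by
      rw [← exp_add]; congr 1; ring
    have h5 : exp (-h) ≤ 1 := exp_le_one_iff.2 (by linarith)
    have h6 := mul_le_mul_of_nonneg_left h3 (exp_pos (-h)).le
    rw [h4]
    nlinarith

theorem clean (g : Geo h w d μ I fun t => (c t).1) (s : Sh h w d e u I c G)
    (hn : ¬ Conf w d I fun t => (c t).1) {R : ℝ} (hR : ∀ t, nsq (c t).2 ≤ R) {a b t : ℝ}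
    (p : Ps h w I (fun t => (c t).1) a b) (ht : t ∈ Icc a b)
    (hd : ∀ x ∈ Ioc t b, d < (c x).1.1 0) :
    nsq (sl 0 (c t).2) ≤ (1 + M * (2 * M + 4)) * e + exp (-(M * h)) * R := by
  have h1 := tops g s hn hR M 0 (zero_add M) b (p.sub ⟨p.le, le_rfl⟩) p.fb
  have h2 : NW (up 0) (c t).2 ≤ e + NW (up 0) (c b).2 :=
    grow' ht.2 s.e0 (s.cN _) (fun x hx => s.high _ (wt_up 0) x
      (p.sub ⟨ht.1.trans hx.1.le, hx.2.le⟩)
      (by linarith [hd x ⟨hx.1, hx.2.le⟩, g.dpos, g.hpos]) (Or.inr fun h' => by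
        linarith [hd x ⟨hx.1, hx.2.le⟩, le_abs_self ((c x).1.1 0), h'.1]))
      (NW_nonneg (up_nonneg _) _)
  rw [← NW_up_zero]
  linarith

end Pool.Agent.MP_6d695c_gt.SW.Box

end MrgPart1

-- ======== part 2: formerly Pool.Agent.MP_6d695c_gt.sw.Box
section MrgPart2

/-! PROJECT SW: trap and shift register make a box. -/

open scoped ContDiff Topology
open Set Metric Filter Real

namespace Pool.Agent.MP_6d695c_gt.SW

namespace Box

variable {n M : ℕ} {ι : Type} [Fintype ι]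

theorem near_clm {X F : Type} [NormedAddCommGroup X] [NormedSpace ℝ X] [NormedAddCommGroup F]
    [NormedSpace ℝ F] {c : ℝ → X} {t ε : ℝ} {y : X} (h : Near c t y ε) (L : X →L[ℝ] F)
    (hL : ∀ v, ‖L v‖ ≤ ‖v‖) : Near (fun s => L (c s)) t (L y) ε := by
  obtain ⟨v, h1, h2⟩ := h
  exact ⟨L v, L.hasFDerivAt.comp_hasDerivWithinAt t h1, by rw [← map_sub]; exact (hL _).trans h2⟩

theorem nsq_le_NW {i : Fin (M + 1)} (hi : i ≠ 0) (z : Sl ι M → ℂ) :
    nsq (sl i z) ≤ NW (ux M 0) z := by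
  have h1 : ux M 0 i = 1 := if_pos ⟨Nat.lt_succ_iff.1 i.2, fun e => hi (Fin.ext e)⟩
  have := Finset.single_le_sum (f := fun i => ux M 0 i * nsq (sl i z))
    (fun i _ => mul_nonneg (ux_nonneg _ _ _) (nsq_nonneg _)) (Finset.mem_univ i)
  rwa [h1, one_mul] at this

theorem norm_sq_le (v : Q n × (Sl ι M → ℂ)) : ‖v‖ ^ 2 ≤ ‖pr n ι M v‖ ^ 2 + NW (ux M 0) v.2 := by
  have h0 := NW_nonneg (ux_nonneg M 0) v.2
  have h1 : ‖pr n ι M v‖ ≤ √(‖pr n ι M v‖ ^ 2 + NW (ux M 0) v.2) := le_sqrt_of_sq_le (by linarith)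
  have h2 : ‖v‖ ≤ √(‖pr n ι M v‖ ^ 2 + NW (ux M 0) v.2) := by
    refine max_le ((norm_fst_le (pr n ι M v)).trans h1)
      ((pi_norm_le_iff_of_nonneg (sqrt_nonneg _)).2 fun x => ?_)
    refine (norm_le_pi_norm (sl x.2 v.2) x.1).trans ?_
    by_cases hx : x.2 = 0
    · rw [hx]
      exact (norm_snd_le (pr n ι M v)).trans h1
    · exact le_sqrt_of_sq_le (by
        linarith [norm_sq_le_nsq (sl x.2 v.2), nsq_le_NW hx v.2, sq_nonneg ‖pr n ι M v‖])
  exact (le_sqrt (norm_nonneg _) (by positivity)).1 h2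

theorem NW_slots {a : Fin (M + 1) → ℝ} (ha : a 0 = 0) {z v : Sl ι M → ℂ}
    (h : ∀ i, i ≠ 0 → sl i v = (1 / 2 : ℝ) • sl i z) : fderiv ℝ (NW a) z v = NW a z := by
  rw [NW_der]
  refine Finset.sum_congr rfl fun i _ => ?_
  by_cases hi : i = 0
  · rw [hi, ha, zero_mul, zero_mul]
  · rw [h i hi, ipc_smul, ipc_self]
    ring

theorem NW_zero {z : Sl ι M → ℂ} (h : ∀ i, i ≠ 0 → sl i z = 0) : NW (ux M 0) z = 0 :=
  Finset.sum_eq_zero fun i _ => by
    by_cases hi : i = 0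
    · simp [hi, ux]
    · simp [h i hi, nsq]

theorem eq_zero_of_pr {v : Q n × (Sl ι M → ℂ)} (h1 : pr n ι M v = 0)
    (h2 : ∀ i, i ≠ 0 → sl i v.2 = 0) : v = 0 := by
  have := norm_sq_le v
  rw [h1, NW_zero h2, norm_zero] at this
  exact norm_eq_zero.1 (by nlinarith [norm_nonneg v])

theorem lyap_pr {h d w R : ℝ} (hd : d < h) {XT : Q n × (ι → ℂ) → Q n × (ι → ℂ)}
    {X : Q n × (Sl ι M → ℂ) → Q n × (Sl ι M → ℂ)} (hT : LyapOn (Om n ι d w R) XT)
    (hX : ∀ p, -h ≤ p.1.1 0 → pr n ι M (X p) = XT (pr n ι M p) ∧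
      ∀ i, i ≠ 0 → sl i (X p).2 = (1 / 2 : ℝ) • sl i p.2) : LyapOn (Om n (Sl ι M) d w R) X := by
  obtain ⟨Λ, 𝒵, sΛ, fin, -, pos, good⟩ := hT
  have hder : ∀ p v : Q n × (Sl ι M → ℂ), fderiv ℝ (fun p => Λ (pr n ι M p) + NW (ux M 0) p.2) p v =
      fderiv ℝ Λ (pr n ι M p) (pr n ι M v) + fderiv ℝ (NW (ux M 0)) p.2 v.2 := fun p v => by
    have h1 := ((sΛ.differentiable (by simp) _).hasFDerivAt.comp p (pr n ι M).hasFDerivAt).fun_add
      (((NW_smooth (ι := ι) (ux M 0)).differentiable (by simp) p.2).hasFDerivAt.comp p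
        hasFDerivAt_snd)
    have h2 : fderiv ℝ (fun p => Λ (pr n ι M p) + NW (ux M 0) p.2) p = _ := h1.fderiv
    rw [h2]
    rfl
  have hX' : ∀ p : Q n × (Sl ι M → ℂ), -h ≤ p.1.1 0 →
      fderiv ℝ (fun p => Λ (pr n ι M p) + NW (ux M 0) p.2) p (X p) =
      fderiv ℝ Λ (pr n ι M p) (XT (pr n ι M p)) + NW (ux M 0) p.2 := fun p hp => by
    rw [hder, (hX p hp).1, NW_slots (by simp [ux]) (hX p hp).2]
  have hlow : ∀ p ∈ Om n (Sl ι M) d w R, -h < p.1.1 0 := fun p hp => by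
    linarith [neg_abs_le (p.1.1 0), hp.1.1]
  have sm : ContDiff ℝ ∞ fun p => Λ (pr n ι M p) + NW (ux M 0) p.2 :=
    (sΛ.comp (pr n ι M).contDiff).add ((NW_smooth _).comp contDiff_snd)
  refine ⟨_, {p | p ∈ Om n (Sl ι M) d w R ∧ pr n ι M p ∈ 𝒵 ∧ ∀ i, i ≠ 0 → sl i p.2 = 0}, sm,
    Finite.of_finite_image (f := pr n ι M) (fin.subset ?_) fun p hp p' hp' e => ?_,
    fun p hp => hp.1, fun p hp hz => ?_, fun p hp => ⟨?_, sm, ?_, ?_⟩⟩
  · rintro _ ⟨p, hp, rfl⟩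
    exact hp.2.1
  · refine sub_eq_zero.1 (eq_zero_of_pr (by rw [map_sub, e, sub_self]) fun i hi => ?_)
    rw [Prod.snd_sub, map_sub, hp.2.2 i hi, hp'.2.2 i hi, sub_self]
  · rw [hX' p (hlow p hp).le]
    have h0 := NW_nonneg (ux_nonneg M 0) p.2
    by_cases h1 : pr n ι M p ∈ 𝒵
    · obtain ⟨i, hi, h2⟩ : ∃ i, i ≠ 0 ∧ sl i p.2 ≠ 0 := by
        by_contra h2
        exact hz ⟨hp, h1, fun i hi => by_contra fun h3 => h2 ⟨i, hi, h3⟩⟩
      have h3 := norm_pos_iff.2 h2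
      rw [(good _ h1).1, map_zero]
      nlinarith [norm_sq_le_nsq (sl i p.2), nsq_le_NW hi p.2]
    · linarith [pos (pr n ι M p) ⟨hp.1, (nsq_sl_le 0 p.2).trans hp.2⟩ h1]
  · refine eq_zero_of_pr ?_ fun i hi => ?_
    · rw [(hX p (hlow p hp.1).le).1, (good _ hp.2.1).1]
    · rw [(hX p (hlow p hp.1).le).2 i hi, hp.2.2 i hi, smul_zero]
  · refine ContinuousLinearMap.ext fun v => ?_
    rw [hder, (good _ hp.2.1).2.2.1, NW_der, Finset.sum_eq_zero]
    · simp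
    · intro i _
      by_cases hi : i = 0
      · simp [hi, ux]
      · simp [hp.2.2 i hi, ipc]
  · obtain ⟨-, -, -, c, hc, hev⟩ := good _ hp.2.1
    rw [nhdsWithin_univ] at hev ⊢
    refine ⟨min c 1, lt_min hc one_pos, ?_⟩
    have h1 : ∀ᶠ x : Q n × (Sl ι M → ℂ) in 𝓝 p, -h < x.1.1 0 :=
      (((f0L n).continuous.comp continuous_fst).continuousAt (x := p)).eventually
        (lt_mem_nhds (hlow p hp.1))
    filter_upwards [h1, (pr n ι M).continuous.continuousAt.eventually hev] with x hx hx'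
    rw [hX' x hx.le]
    have h2 := norm_sq_le (x - p)
    have h3 : NW (ux M 0) (x - p).2 = NW (ux M 0) x.2 := Finset.sum_congr rfl fun i _ => by
      by_cases hi : i = 0
      · simp [hi, ux]
      · rw [Prod.snd_sub, map_sub, hp.2.2 i hi, sub_zero]
    rw [h3, map_sub] at h2
    have h4 := NW_nonneg (ux_nonneg M 0) x.2
    have h5 := mul_le_mul_of_nonneg_left h2 (lt_min hc one_pos).le
    nlinarith [min_le_left c 1, min_le_right c 1, sq_nonneg ‖pr n ι M x - pr n ι M p‖]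

theorem gr_NW {z : ℝ → Sl ι M → ℂ} {t ε e : ℝ} {y : Sl ι M → ℂ} {a : Fin (M + 1) → ℝ}
    (h : Near z t y ε) (ha : Wt a) (hz : nsq (z t) ≤ 1) (hy : fderiv ℝ (NW a) (z t) y = NW a (z t))
    (he : 2 * (M + 1) * Fintype.card ι * ε ≤ e) : Gr (fun s => NW a (z s)) e t := by
  obtain ⟨v, h1, h2⟩ := h
  refine ⟨_, ((NW_smooth a).differentiable (by simp) _).hasFDerivAt.comp_hasDerivWithinAt t h1, ?_⟩
  have h3 := abs_NW_der ha.1 ha.2 (z t) (v - y)
  have h4 : ‖z t‖ ≤ 1 := by nlinarith [norm_sq_le_nsq (z t), norm_nonneg (z t)]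
  have h5 : 2 * (M + 1 : ℝ) * Fintype.card ι * ‖z t‖ * ‖v - y‖ ≤
      2 * (M + 1) * Fintype.card ι * 1 * ε := by gcongr
  rw [map_sub, hy] at h3
  linarith [neg_abs_le (fderiv ℝ (NW a) (z t) v - NW a (z t))]

theorem apriori {κ : Type} [Fintype κ] {z : ℝ → κ → ℂ} {τ ε A : ℝ} (hz : Continuous z) (hτ : 0 < τ)
    (hp : Function.Periodic z τ) (hε : 4 * (Fintype.card κ * ε) ^ 2 ≤ A)
    (h : ∀ t, ∃ y, Near z t y ε ∧ nsq (z t) / 2 - A ≤ ipc (z t) y) (t : ℝ) : nsq (z t) ≤ 4 * A := by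
  refine band_le (f := fun s => nsq (z s)) (contDiff_nsq.continuous.comp hz) hτ
    (fun s => by simp only [hp s]) (fun s hs => ?_) t
  obtain ⟨y, ⟨v, h1, h2⟩, h3⟩ := h s
  refine ⟨_, (contDiff_nsq.differentiable (by simp) _).hasFDerivAt.comp_hasDerivWithinAt s h1, ?_⟩
  have h4 : ipc (z s) v = ipc (z s) y + ipc (z s) (v - y) := by rw [← ipc_add, add_sub_cancel]
  have h5 : |ipc (z s) (v - y)| ≤ Fintype.card κ * ‖z s‖ * ε := (abs_ipc_le _ _).trans (by gcongr)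
  rw [fderiv_nsq, h4]
  nlinarith [neg_abs_le (ipc (z s) (v - y)), norm_sq_le_nsq (z s),
    sq_nonneg (‖z s‖ / 2 - 2 * (Fintype.card κ * ε))]

theorem small {f : ℝ → ℝ} (hf : Continuous f) (h0 : f 0 = 0) {a : ℝ} (ha : 0 < a) :
    ∀ᶠ x in 𝓝[>] (0 : ℝ), f x ≤ a :=
  mem_nhdsWithin_of_mem_nhds (hf.continuousAt.eventually (ge_mem_nhds (h0.trans_lt ha)))

end Box

open Box in
theorem box (trap : TrapStmt) : BoxStmt := by
  intro n h w δ ρ hh hh' hw hw' hδ hρ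
  obtain ⟨ι, _, _, d, c, C, r₁, hd, hd0, -, hc, hC, hr₁, hT⟩ :=
    trap n w (min (h / 4) (δ / 100)) hw hw' (by positivity)
  have hdh : d ≤ h / 4 := hd0.trans (min_le_left _ _)
  have hdδ : d ≤ δ / 100 := hd0.trans (min_le_right _ _)
  obtain ⟨M, hM, hM0⟩ : ∃ M : ℕ, exp (-(M * h)) * (4 * C) ≤ c ^ 2 / 2 ∧ 0 < M := by
    have h1 : Tendsto (fun M : ℕ => exp (-(M * h)) * (4 * C)) atTop (𝓝 (0 * (4 * C))) :=
      (tendsto_exp_neg_atTop_nhds_zero.comp
        (tendsto_natCast_atTop_atTop.atTop_mul_const hh)).mul_const _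
    exact ((h1.eventually (ge_mem_nhds (by rw [zero_mul]; positivity))).and
      (eventually_gt_atTop 0)).exists
  obtain ⟨CR, u, G, HR, hCR, rg⟩ := exists_reg n M ι hM0 hh hw
  obtain ⟨μ, ⟨⟨μ1, μ2⟩, μ3⟩, μ0⟩ := ((((small (f := fun x => x) (by fun_prop) rfl one_half_pos).and
    (small (f := fun x => 80 * h * x) (a := w / 8) (by fun_prop) (by simp) (by positivity))).and
    (small (f := fun x => 160 * h * x) (a := δ / 2) (by fun_prop) (by simp) (by positivity))).and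
    self_mem_nhdsWithin).exists
  replace μ0 : 0 < μ := μ0
  obtain ⟨r, ⟨⟨⟨r1, r2⟩, r3⟩, r4⟩, r0⟩ := (((((small (f := fun x => x) (by fun_prop) rfl hr₁).and
    (small (f := fun x => 4 * C * x ^ 2) (by fun_prop) (by simp) hρ)).and
    (small (f := fun x => 4 * C * x ^ 2) (by fun_prop) (by simp) one_pos)).and
    (small (f := fun x => CR * (4 * C * x ^ 2)) (a := μ / 2) (by fun_prop) (by simp)
      (by positivity))).and self_mem_nhdsWithin).exists
  replace r0 : 0 < r := r0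
  obtain ⟨HT, tr⟩ := hT r r0 r1
  have hA : 0 < C * r ^ 2 := by positivity
  set H : Q n × (Sl ι M → ℂ) → ℝ := fun p => HT (pr n ι M p) + HR p with hH
  have evT : ∀ p : Q n × (Sl ι M → ℂ), p.1 ∉ cbox n d (2 * w) →
      ∀ᶠ p' in 𝓝 p, H p' = HR p' := fun p hp =>
    ((pr n ι M).continuous.continuousAt.eventually (tr.supp (pr n ι M p) hp)).mono
      fun p' h' => by simp only [hH, h', zero_add]
  have evR : ∀ p : Q n × (Sl ι M → ℂ), -(h / 2) ≤ p.1.1 0 →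
      ∀ᶠ p' in 𝓝 p, H p' = HT (pr n ι M p') := fun p hp =>
    (rg.supp p (Or.inr hp)).mono fun p' h' => by simp only [hH, h', add_zero]
  have lowT : ∀ q : Q n, q.1 0 ≤ -(h / 2) → q ∉ cbox n d (2 * w) := fun q hq h' => by
    linarith [neg_abs_le (q.1 0), h'.1]
  have slab : ∀ p : Q n × (Sl ι M → ℂ), -(h / 2) ≤ p.1.1 0 →
      pr n ι M (XM H p) = XM HT (pr n ι M p) ∧
        ∀ i, i ≠ 0 → sl i (XM H p).2 = (1 / 2 : ℝ) • sl i p.2 := fun p hp => by
    rw [XM_congr (evR p hp)]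
    exact XM_pr tr.sm p
  have supp : ∀ p : Q n × (Sl ι M → ℂ), p.1 ∉ cbox n h (3 * w) → ∀ᶠ p' in 𝓝 p, H p' = 0 :=
    fun p hp => ((evT p fun h' => hp ⟨by linarith [h'.1], by linarith [h'.2]⟩).and
      (rg.supp p (Or.inl hp))).mono fun p' h' => h'.1.trans h'.2
  have rad : ∀ p, |ipc p.2 (shC (d2 H p))| ≤ C * r ^ 2 := fun p => by
    rcases le_total (p.1.1 0) (-(h / 2)) with hp | hp
    · have : d2 H p = d2 HR p := by
        simp only [d2, EventuallyEq.fderiv_eq (evT p (lowT _ hp))]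
      rw [this, rg.rad, abs_zero]
      exact hA.le
    · have : d2 H p = d2 (fun p => HT (pr n ι M p)) p := by
        simp only [d2, EventuallyEq.fderiv_eq (evR p hp)]
      rw [this, rad_pr tr.sm]
      exact tr.rad _
  have hK : ∀ a b R : ℝ, IsCompact {p : Q n × (Sl ι M → ℂ) | p.1 ∈ cbox n a b ∧ nsq p.2 ≤ R} :=
    fun a b R => (isCompact_cbox a b).prod (isCompact_nsq R)
  refine ⟨Sl ι M, inferInstance, inferInstance, H, Om n (Sl ι M) d w (4 * C * r ^ 2),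
    (tr.sm.comp (pr n ι M).contDiff).add rg.sm, supp, fun p => (rad p).trans (by linarith),
    hK _ _ _, fun p hp => ⟨⟨by linarith [hp.1.1], hp.1.2⟩, hp.2.trans r2⟩,
    lyap_pr (h := h / 2) (by linarith) tr.lyap slab, ?_⟩
  obtain ⟨ε₀, hε₀, hdyn⟩ := tr.dyn
  choose L hL0 hL using fun m => exists_fderiv_bound ((rg.smG m).of_le (by simp))
    (hK (10 * h) (5 * w) 1)
  set L₀ : ℝ := 2 * (M + 1) * Fintype.card ι + ∑ m, L m with hL₀
  have hs0 : 0 ≤ ∑ m, L m := Finset.sum_nonneg fun m _ => (hL0 m).le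
  obtain ⟨ε, ⟨⟨⟨ε1, ε2⟩, ε3⟩, ε4⟩, ε0⟩ := (((((small (f := fun x => x) (by fun_prop) rfl hε₀).and
    (small (f := fun x => x) (a := μ / 2) (by fun_prop) rfl (by positivity))).and
    (small (f := fun x => 4 * (Fintype.card (Sl ι M) * x) ^ 2) (by fun_prop) (by simp) hA)).and
    (small (f := fun x => (1 + M * (2 * M + 4)) * (L₀ * x)) (a := (c * r) ^ 2 / 2) (by fun_prop)
      (by simp) (by positivity))).and self_mem_nhdsWithin).exists
  replace ε0 : 0 < ε := ε0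
  refine ⟨ε, ε0, fun I γ b => ?_⟩
  have nz : ∀ t ∈ I, Near (fun s => (γ s).2) t (XM H (γ t)).2 ε := fun t ht =>
    near_clm (b.ins t ht) (ContinuousLinearMap.snd ℝ _ _) norm_snd_le
  have nq : ∀ t ∈ I, Near (fun s => (γ s).1) t (XM H (γ t)).1 ε := fun t ht =>
    near_clm (b.ins t ht) (ContinuousLinearMap.fst ℝ _ _) norm_fst_le
  obtain ⟨τ, hτ, hper, hI⟩ := b.per
  have hR : ∀ t, nsq (γ t).2 ≤ 4 * C * r ^ 2 := fun t => by
    rw [mul_assoc]
    refine apriori b.cont.snd hτ (fun s => by simp only [hper s]) ε3 (fun s => ?_) t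
    by_cases hs : s ∈ I
    · refine ⟨_, nz s hs, ?_⟩
      show _ ≤ ipc _ ((1 / 2 : ℝ) • (γ s).2 + _)
      rw [ipc_add, ipc_smul, ipc_self]
      linarith [neg_abs_le (ipc (γ s).2 (shC (d2 H (γ s)))), rad (γ s)]
    · refine ⟨_, b.out s hs, ?_⟩
      rw [ipc_smul, ipc_self]
      linarith
  have fr : ∀ t ∈ I, (γ t).1 ∉ cbox n d (2 * w) → Near (fun s => (γ s).1) t (one n) μ :=
    fun t ht hq => by
      obtain ⟨v, h1, h2⟩ := nq t ht
      refine ⟨v, h1, ?_⟩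
      rw [XM_congr (evT _ hq)] at h2
      have h3 := mul_le_mul_of_nonneg_left (hR t) hCR.le
      linarith [norm_sub_le_norm_sub_add_norm_sub v (XM HR (γ t)).1 (one n), rg.bd (γ t)]
  have g : Geo h w d μ I fun t => (γ t).1 :=
    ⟨hh, hw, hd, hdh, μ0.le, μ1, μ2, b.cont.fst, ⟨τ, hτ, fun s => by simp only [hper s], hI⟩, b.op,
      b.mem, b.cl, fr, fun t ht hf => by
      have key : ∀ y : Q n, ∀ η, Near (fun s => (γ s).1) t y η → η < y.1 0 →
          RD (fun s => (γ s).1.1 0) t fun a => 0 < a := fun y η h1 h2 =>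
        (near_clm h1 (f0L n) fun v => (norm_le_pi_norm v.1 0).trans (norm_fst_le v)).rd.mono
          fun a ha => by linarith [ha.1, f0L_apply y]
      rcases le_total ((γ t).1.1 0) (-(h / 2)) with hp | hp
      · exact key _ _ (fr t ht (lowT _ hp)) (by show μ < 1; linarith)
      · refine key _ _ (nq t ht) ?_
        have h1 : (XM H (γ t)).1 = (XM HT (pr n ι M (γ t))).1 := congrArg Prod.fst (slab _ hp).1
        have h2 := abs_le.1 (tr.up (pr n ι M (γ t)) hf)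
        rw [h1]
        linarith [h2.1]⟩
  have he : 2 * (M + 1) * Fintype.card ι * ε ≤ L₀ * ε := by
    rw [hL₀]
    nlinarith
  have hR1 : ∀ t, nsq (γ t).2 ≤ 1 := fun t => (hR t).trans r3
  have s : Sh h w d (L₀ * ε) u I γ fun m t => G m (γ t) :=
    ⟨b.cont, b.per, by positivity, rg.u0, rg.uM, rg.anti, fun a ha t ht => by
      by_cases hs : t ∈ I
      · refine gr_NW (nz t hs) ha (hR1 t) ?_ he
        rw [XM_of_zero (supp _ fun h' => ht ⟨hs, h'.1, by linarith [h'.2]⟩), NW_half]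
      · exact gr_NW (b.out t hs) ha (hR1 t) (NW_half _ _) he,
    fun a ha t ht hf hm => gr_NW (nz t ht) ha (hR1 t) (by
      rw [XM_congr (evT _ (lowT _ hf))]
      exact rg.low _ a hm) he,
    fun a ha t ht hf hm => gr_NW (nz t ht) ha (hR1 t) (by
      rcases hm with hm | hm
      · exact NW_slots hm (slab _ hf).2
      · rw [XM_congr (evT _ hm), XM_of_zero (rg.supp _ (Or.inr hf)), NW_half]) he,
    fun m => (rg.smG m).continuous.comp b.cont, fun m t => rg.G0 m _, fun m t => rg.G1 m _,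
    fun m t ht hf hl => by
      have h1 : u m ≤ -(h / 2) := rg.u0 ▸ rg.anti.antitone (Nat.zero_le m)
      refine ((b.ins t ht).comp ((rg.smG m).differentiable (by simp) _)).rd.mono fun v hv => ?_
      have h2 := hv.2
      rw [XM_congr (evT _ (lowT _ (hf.2.trans h1))), rg.dG m _ hf hl] at h2
      have h3 := hL m (γ t) ⟨⟨(b.mem t ht).1.le, (b.mem t ht).2.le⟩, hR1 t⟩
      have h4 : L m ≤ ∑ m, L m :=
        Finset.single_le_sum (fun m _ => (hL0 m).le) (Finset.mem_univ m)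
      have h5 : (0 : ℝ) ≤ 2 * (M + 1) * Fintype.card ι := by positivity
      have h6 : ‖fderiv ℝ (G m) (γ t)‖ * ε ≤ L₀ * ε := by gcongr; linarith
      linarith⟩
  by_cases hn : Conf w d I fun t => (γ t).1
  · exact Or.inl fun t => ⟨(hn t).1, (hn t).2, hR t⟩
  refine Or.inr (g.out hn (fun a b' p x y h1 h2 h3 h4 h5 h6 => ?_) (by linarith))
  have h7 := clean g s hn hR p ⟨h1.trans h2, h3⟩ h6
  refine hdyn (fun t => pr n ι M (γ t)) x y h2
    ⟨((pr n ι M).continuous.comp b.cont).continuousOn, fun t ht => ?_⟩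
    (fun t ht => ⟨⟨h5 t ht, (p.mem t ⟨h1.trans ht.1, ht.2.trans h3⟩).2⟩,
      (nsq_sl_le 0 _).trans (hR t)⟩) h4 (h7.trans ?_)
  · have h8 := near_clm (b.ins t (p.sub ⟨h1.trans ht.1, ht.2.le.trans h3⟩)) (pr n ι M) norm_pr_le
    rw [(slab _ (by linarith [neg_abs_le ((γ t).1.1 0), h5 t ⟨ht.1, ht.2.le⟩])).1] at h8
    exact h8.mono ε1
  · have := mul_le_mul_of_nonneg_right hM (sq_nonneg r)
    nlinarith

end Pool.Agent.MP_6d695c_gt.SW

end MrgPart2

-- ======== part 3: formerly Pool.Agent.MP_6d695c_gt.sw.Lam1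
section MrgPart3

/-! PROJECT SW, row LAM, part 1: bounded families, the levels, the derivative of one term. -/

open scoped ContDiff Topology
open Set Metric Filter Real

namespace Pool.Agent.MP_6d695c_gt.SW.Lam

theorem exists_bump {u v : ℝ} (h : u < v) : ∃ b : ℝ → ℝ, ContDiff ℝ ∞ b ∧
    (∀ x, |x| ≤ u → b x = 1) ∧ (∀ x, v ≤ |x| → b x = 0) ∧ (∀ x, b x ∈ Icc (0 : ℝ) 1) ∧
    (∀ x, |x| < u → deriv b x = 0) ∧ ∀ x, v < |x| → deriv b x = 0 := by
  obtain ⟨s, hs, h1, h0, hm, -⟩ := exists_step h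
  have e1 : ∀ x, |x| ≤ u → s x * s (-x) = 1 := fun x hx => by
    rw [h1 x (le_of_abs_le hx), h1 (-x) (by linarith [neg_abs_le x]), mul_one]
  have e0 : ∀ x, v ≤ |x| → s x * s (-x) = 0 := fun x hx => by
    rcases le_abs.1 hx with hx | hx
    · rw [h0 x hx, zero_mul]
    · rw [h0 (-x) hx, mul_zero]
  refine ⟨fun x => s x * s (-x), hs.mul (hs.comp contDiff_neg), e1, e0, fun x =>
    ⟨mul_nonneg (hm _).1 (hm _).1, mul_le_one₀ (hm _).2 (hm _).1 (hm _).2⟩, fun x hx => ?_,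
    fun x hx => ?_⟩
  · have : (fun x => s x * s (-x)) =ᶠ[𝓝 x] fun _ => 1 := by
      filter_upwards [(isOpen_lt continuous_abs continuous_const).mem_nhds hx] with y hy
      exact e1 y (le_of_lt hy)
    rw [this.deriv_eq, deriv_const]
  · have : (fun x => s x * s (-x)) =ᶠ[𝓝 x] fun _ => 0 := by
      filter_upwards [(isOpen_lt continuous_const continuous_abs).mem_nhds hx] with y hy
      exact e0 y (le_of_lt hy)
    rw [this.deriv_eq, deriv_const]

theorem small {D ε : ℝ} (hD : 0 ≤ D) (hε : 0 < ε) :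
    ∃ r₁, 0 < r₁ ∧ ∀ r, 0 < r → r ≤ r₁ → r ≤ 1 ∧ r ^ 2 * D ≤ ε := by
  refine ⟨min 1 (ε / (D + 1)), lt_min one_pos (by positivity), fun r h0 h => ?_⟩
  have h1 : r ≤ 1 := h.trans (min_le_left _ _)
  have h2 : r * (D + 1) ≤ ε := (le_div_iff₀ (by positivity)).1 (h.trans (min_le_right _ _))
  refine ⟨h1, ?_⟩
  have : r ^ 2 ≤ r := by nlinarith
  nlinarith [mul_le_mul_of_nonneg_right this hD]

/-- `F` is bounded on `s` -/
def Bd {α : Type} (s : Set α) (F : α → ℝ) : Prop := ∃ c, ∀ x ∈ s, |F x| ≤ c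

section Bd
variable {α : Type} {s : Set α} {F G : α → ℝ}

theorem Bd.const (c : ℝ) : Bd s fun _ => c := ⟨|c|, fun _ _ => le_rfl⟩

theorem Bd.add (hF : Bd s F) (hG : Bd s G) : Bd s fun x => F x + G x := by
  obtain ⟨a, ha⟩ := hF
  obtain ⟨b, hb⟩ := hG
  exact ⟨a + b, fun x hx => (abs_add_le _ _).trans (add_le_add (ha x hx) (hb x hx))⟩

theorem Bd.mul (hF : Bd s F) (hG : Bd s G) : Bd s fun x => F x * G x := by
  obtain ⟨a, ha⟩ := hF
  obtain ⟨b, hb⟩ := hG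
  refine ⟨a * b, fun x hx => ?_⟩
  rw [abs_mul]
  exact mul_le_mul (ha x hx) (hb x hx) (abs_nonneg _) ((abs_nonneg _).trans (ha x hx))

theorem Bd.neg (hF : Bd s F) : Bd s fun x => -F x := by
  obtain ⟨a, ha⟩ := hF
  exact ⟨a, fun x hx => by rw [abs_neg]; exact ha x hx⟩

theorem Bd.congr (hG : Bd s G) (h : ∀ x ∈ s, F x = G x) : Bd s F := by
  obtain ⟨a, ha⟩ := hG
  exact ⟨a, fun x hx => by rw [h x hx]; exact ha x hx⟩

theorem Bd.sub (hF : Bd s F) (hG : Bd s G) : Bd s fun x => F x - G x :=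
  (hF.add hG.neg).congr fun _ _ => sub_eq_add_neg _ _

theorem Bd.div (hF : Bd s F) (c : ℝ) : Bd s fun x => F x / c :=
  (hF.mul (Bd.const c⁻¹)).congr fun _ _ => div_eq_mul_inv _ _

theorem Bd.sum {ι : Type} [Fintype ι] {F : ι → α → ℝ} (h : ∀ i, Bd s (F i)) :
    Bd s fun x => ∑ i, F i x := by
  choose c hc using h
  exact ⟨∑ i, c i, fun x hx => (Finset.abs_sum_le_sum_abs _ _).trans
    (Finset.sum_le_sum fun i _ => hc i x hx)⟩

theorem Bd.unif {ι : Type} [Fintype ι] {F : ι → α → ℝ} (h : ∀ i, Bd s (F i)) :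
    ∃ c, 0 ≤ c ∧ ∀ i, ∀ x ∈ s, |F i x| ≤ c := by
  choose c hc using h
  refine ⟨∑ i, |c i|, Finset.sum_nonneg fun _ _ => abs_nonneg _, fun i x hx => ?_⟩
  exact ((hc i x hx).trans (le_abs_self _)).trans
    (Finset.single_le_sum (f := fun i => |c i|) (fun _ _ => abs_nonneg _) (Finset.mem_univ i))

theorem Bd.of_cont {Y : Type} [TopologicalSpace Y] {K : Set Y} (hK : IsCompact K) {g : α → Y}
    (hg : ∀ x ∈ s, g x ∈ K) {u : Y → ℝ} (hu : Continuous u) : Bd s fun x => u (g x) := by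
  obtain ⟨c, hc⟩ := hK.exists_bound_of_continuousOn hu.continuousOn
  exact ⟨c, fun x hx => hc _ (hg x hx)⟩

end Bd

theorem fderiv_R3 (u : R3 → ℝ) (x v : R3) :
    fderiv ℝ u x v = v.1 * dP u x + v.2.1 * da u x + v.2.2 * db u x := by
  have : v = v.1 • ((1, 0, 0) : R3) + v.2.1 • ((0, 1, 0) : R3) + v.2.2 • ((0, 0, 1) : R3) := by
    ext <;> simp
  conv_lhs => rw [this]
  simp only [map_add, map_smul, smul_eq_mul, dP, da, db]

theorem fderiv_Q {n : ℕ} (L : Q n →L[ℝ] ℝ) (v : Q n) :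
    L v = ∑ i, v.1 i * L (Pi.single i 1, 0) + ∑ i, v.2 i * L (0, Pi.single i 1) := by
  have : v = ∑ i, v.1 i • ((Pi.single i 1, 0) : Q n) + ∑ i, v.2 i • ((0, Pi.single i 1) : Q n) := by
    ext j <;> simp [Prod.fst_sum, Prod.snd_sum, Finset.sum_apply, Pi.single_apply]
  conv_lhs => rw [this]
  simp only [map_add, map_sum, map_smul, smul_eq_mul]

theorem cont_dir {Y : Type} [NormedAddCommGroup Y] [NormedSpace ℝ Y] {u : Y → ℝ}
    (hu : ContDiff ℝ ∞ u) (v : Y) : Continuous fun x => fderiv ℝ u x v :=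
  (hu.continuous_fderiv (by simp)).clm_apply continuous_const

/-- both functions vanish to first order -/
structure Van (h0 h1 : R3 → ℝ) (x : R3) : Prop where
  v0 : h0 x = 0
  v1 : h1 x = 0
  d0 : fderiv ℝ h0 x = 0
  d1 : fderiv ℝ h1 x = 0

section Van
variable {h0 h1 : R3 → ℝ} {x : R3}

theorem Van.hP (h : Van h0 h1 x) (s : ℝ) : hP h0 h1 s x = 0 := by
  simp [SW.hP, dP, h.d0, h.d1]

theorem Van.hr (h : Van h0 h1 x) (s : ℝ) : hr h0 h1 s x = 0 := by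
  simp [SW.hr, ha, hb, da, db, h.d0, h.d1]

end Van

variable {n K k₁ : ℕ} {w d δ CA C r : ℝ} {h0 h1 τ Λ0 Λ1 : R3 → ℝ} {Zs : Finset ℝ}
  {A : Fin (n + 1) → Q n → ℝ}

/-- distance to the level -/
noncomputable def xx (d : ℝ) (f : Fa n K) (p : Q n × (Fa n K → ℂ)) : ℝ := p.1.1 f.1 - lev f.2 * d

/-- normalised square of the factor -/
noncomputable def W (r : ℝ) (f : Fa n K) (p : Q n × (Fa n K → ℂ)) : ℝ :=
  ((p.2 f).re ^ 2 + (p.2 f).im ^ 2) / r ^ 2

theorem W_nonneg (f : Fa n K) (p : Q n × (Fa n K → ℂ)) : 0 ≤ W r f p := by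
  unfold W; positivity

theorem W_eq (hr : 0 < r) (hC : Calc (K := K) h0 h1 A d r) (f : Fa n K)
    (p : Q n × (Fa n K → ℂ)) : W r f p = (pab d r f p).2.1 ^ 2 + (pab d r f p).2.2 ^ 2 := by
  rw [W, ← hC.absp f p]; field_simp

theorem W_le (hr : 0 < r) (f : Fa n K) {p : Q n × (Fa n K → ℂ)}
    (hp : p ∈ Om n (Fa n K) d w (C * r ^ 2)) : W r f p ≤ C := by
  have h := hp.2
  have h2 : (p.2 f).re ^ 2 + (p.2 f).im ^ 2 ≤ nsq p.2 :=
    Finset.single_le_sum (f := fun i => (p.2 i).re ^ 2 + (p.2 i).im ^ 2)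
      (fun _ _ => by positivity) (Finset.mem_univ f)
  rw [W, div_le_iff₀ (by positivity)]
  linarith

theorem van (hc : Con w d δ k₁ K) (hl : Loc h0 h1 δ τ Zs) (hC : Calc (K := K) h0 h1 A d r)
    {f : Fa n K} {p : Q n × (Fa n K → ℂ)} (h : d / 16 ≤ |xx d f p|) :
    Van h0 h1 (pab d r f p) := by
  have hd := hc.dpos
  have h1' := hc.dle
  have h2 := hc.wle
  have h3 := hc.δle
  have : 6 * δ < |rad (pab d r f p) - 1| := by
    rw [hC.radp]
    change 6 * δ < |exp (xx d f p) - 1|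
    rcases le_abs.1 h with h | h
    · exact lt_abs.2 (Or.inl (by linarith [add_one_le_exp (xx d f p)]))
    · have e1 : exp (xx d f p) ≤ exp (-(d / 16)) := exp_le_exp.2 (by linarith)
      have e2 : exp (-(d / 16)) * exp (d / 16) = 1 := by rw [← exp_add]; simp
      have e3 := add_one_le_exp (d / 16)
      have e4 := exp_pos (-(d / 16))
      have e5 : exp (-(d / 16)) * (d / 16 + 1) ≤ 1 := by nlinarith
      have e6 : exp (-(d / 16)) ≤ 1 - d / 32 := by nlinarith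
      exact lt_abs.2 (Or.inr (by linarith))
  have hs := hl.supp _ this
  have e0 : h0 =ᶠ[𝓝 (pab d r f p)] fun _ => 0 := hs.mono fun _ h => h.1
  have e1 : h1 =ᶠ[𝓝 (pab d r f p)] fun _ => 0 := hs.mono fun _ h => h.2
  exact ⟨e0.self_of_nhds, e1.self_of_nhds, by rw [e0.fderiv_eq]; simp, by rw [e1.fderiv_eq]; simp⟩

theorem far (hd : 0 < d) {j : Fin (n + 1)} {k k' : Fin (2 * K + 1)} {p : Q n × (Fa n K → ℂ)}
    (hk : k' ≠ k) (h : |xx d (j, k) p| ≤ d / 2) : d / 2 ≤ |xx d (j, k') p| := by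
  have h1 : lev k - lev k' ≠ 0 := by
    intro h0
    apply hk
    unfold lev at h0
    exact Fin.ext (by omega)
  have h2 : (1 : ℝ) ≤ |(lev k : ℝ) - lev k'| := by exact_mod_cast Int.one_le_abs h1
  have h3 : xx d (j, k') p - xx d (j, k) p = ((lev k : ℝ) - lev k') * d := by
    simp only [xx]; ring
  have h4 := abs_sub (xx d (j, k') p) (xx d (j, k) p)
  rw [h3, abs_mul, abs_of_pos hd] at h4
  nlinarith

theorem f_le {R : ℝ} {p : Q n × (Fa n K → ℂ)} (hp : p ∈ Om n (Fa n K) d w R) (j : Fin (n + 1)) :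
    |p.1.1 j| ≤ d + 4 * w := by
  have h1 : |p.1.1 0| ≤ d := hp.1.1
  have h2 : ‖lat p.1‖ ≤ 4 * w := hp.1.2
  have h3 : |p.1.1 j - p.1.1 0| ≤ 4 * w :=
    ((norm_le_pi_norm (lat p.1).1 j).trans (norm_fst_le _)).trans h2
  have := abs_add_le (p.1.1 j - p.1.1 0) (p.1.1 0)
  rw [sub_add_cancel] at this
  linarith

theorem exists_lev (hc : Con w d δ k₁ K) {R : ℝ} {p : Q n × (Fa n K → ℂ)}
    (hp : p ∈ Om n (Fa n K) d w R) (j : Fin (n + 1)) : ∃ k, |xx d (j, k) p| ≤ d / 2 := by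
  have hd := hc.dpos
  have h1 := f_le hp j
  have h2 := abs_sub_round (p.1.1 j / d)
  set m := round (p.1.1 j / d)
  have h3 : |p.1.1 j - m * d| ≤ d / 2 := by
    have : p.1.1 j - m * d = (p.1.1 j / d - m) * d := by field_simp
    rw [this, abs_mul, abs_of_pos hd]
    nlinarith
  have h4 := hc.Klo
  obtain ⟨a1, a2⟩ := abs_le.1 h1
  obtain ⟨a3, a4⟩ := abs_le.1 h3
  have h5 : (m : ℝ) ≤ K := le_of_mul_le_mul_right (by linarith) hd
  have h6 : -(K : ℝ) ≤ m := le_of_mul_le_mul_right (by linarith) hd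
  have h7 : m ≤ K := by exact_mod_cast h5
  have h8 : -(K : ℤ) ≤ m := by exact_mod_cast h6
  refine ⟨⟨(m + K).toNat, by omega⟩, ?_⟩
  have : lev (⟨(m + K).toNat, by omega⟩ : Fin (2 * K + 1)) = m := by
    simp only [lev]; omega
  simpa only [xx, this] using h3

theorem LL_mem (hc : Con w d δ k₁ K) (f : Fa n K) : 1 / 2 ≤ LL d f ∧ LL d f ≤ 2 := by
  have hd := hc.dpos
  have h1 := hc.Khi
  have h2 := hc.wle
  have h3 : lev f.2 ≤ K := by have := f.2.2; unfold lev; omega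
  have h4 : -(K : ℤ) ≤ lev f.2 := by unfold lev; omega
  have h5 : (lev f.2 : ℝ) ≤ K := by exact_mod_cast h3
  have h6 : -(K : ℝ) ≤ lev f.2 := by exact_mod_cast h4
  have h7 : (lev f.2 : ℝ) * d ≤ 1 / 4 := by nlinarith
  have h8 : -(1 / 4) ≤ (lev f.2 : ℝ) * d := by nlinarith
  have e1 := add_one_le_exp ((lev f.2 : ℝ) * d)
  have e2 := add_one_le_exp (-((lev f.2 : ℝ) * d))
  have e3 : exp ((lev f.2 : ℝ) * d) * exp (-((lev f.2 : ℝ) * d)) = 1 := by rw [← exp_add]; simp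
  have e4 := exp_pos ((lev f.2 : ℝ) * d)
  unfold LL
  constructor <;> nlinarith

theorem rad_near (hc : Con w d δ k₁ K) (hC : Calc (K := K) h0 h1 A d r) {f : Fa n K}
    {p : Q n × (Fa n K → ℂ)} (h : |xx d f p| ≤ d / 2) : |rad (pab d r f p) - 1| ≤ 1 / 4 := by
  have h1 := hc.dle
  have h2 := hc.wle
  rw [hC.radp]
  change |exp (xx d f p) - 1| ≤ 1 / 4
  have := abs_exp_sub_one_le (x := xx d f p) (by linarith)
  linarith

theorem sum_split (k : Fin (n + 1) → Fin (2 * K + 1)) {F G : Fa n K → ℝ}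
    (h : ∀ f, f.2 ≠ k f.1 → F f = G f) :
    ∑ f, F f = ∑ j, F (j, k j) + ∑ f : Fa n K, if f.2 = k f.1 then 0 else G f := by
  have : ∑ j, F (j, k j) = ∑ f : Fa n K, if f.2 = k f.1 then F f else 0 := by
    rw [Fintype.sum_prod_type]
    simp
  rw [this, ← Finset.sum_add_distrib]
  refine Finset.sum_congr rfl fun f _ => ?_
  split_ifs with hf
  · simp
  · simp [h f hf]

theorem sum_one (k : Fin (2 * K + 1)) {F : Fin (2 * K + 1) → ℝ}
    (h : ∀ k', k' ≠ k → F k' = 0) : ∑ k', F k' = F k :=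
  Finset.sum_eq_single k (fun k' _ hk => h k' hk) (by simp)

/-- the local Lyapunov function of a factor -/
noncomputable def Lm (Λ0 Λ1 : R3 → ℝ) (A : Fin (n + 1) → Q n → ℝ) (d r : ℝ) (f : Fa n K)
    (p : Q n × (Fa n K → ℂ)) : ℝ := Λ0 (pab d r f p) + A f.1 p.1 * Λ1 (pab d r f p)

/-- the term of a factor -/
noncomputable def T (th : ℝ → ℝ) (Λ0 Λ1 : R3 → ℝ) (A : Fin (n + 1) → Q n → ℝ) (d r : ℝ)
    (f : Fa n K) (p : Q n × (Fa n K → ℂ)) : ℝ :=
  th (xx d f p) * Lm Λ0 Λ1 A d r f p + (1 - th (xx d f p)) * W r f p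

/-- the coordinate `f j` -/
noncomputable def cf (K : ℕ) (j : Fin (n + 1)) : (Q n × (Fa n K → ℂ)) →L[ℝ] ℝ :=
  (ContinuousLinearMap.proj j).comp
    ((ContinuousLinearMap.fst ℝ _ _).comp (ContinuousLinearMap.fst ℝ _ _))

/-- the coordinate `z f` -/
noncomputable def cz (f : Fa n K) : (Q n × (Fa n K → ℂ)) →L[ℝ] ℂ :=
  (ContinuousLinearMap.proj f).comp (ContinuousLinearMap.snd ℝ _ _)

theorem contDiff_T {th : ℝ → ℝ} (hth : ContDiff ℝ ∞ th) (h₀ : ContDiff ℝ ∞ Λ0)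
    (h₁ : ContDiff ℝ ∞ Λ1) (hA : ∀ j, ContDiff ℝ ∞ (A j)) (hC : Calc (K := K) h0 h1 A d r)
    (f : Fa n K) : ContDiff ℝ ∞ (T th Λ0 Λ1 A d r f) := by
  have hx : ContDiff ℝ ∞ fun p => th (xx d f p) :=
    hth.comp ((cf K f.1).contDiff.sub contDiff_const)
  have hre : ContDiff ℝ ∞ fun p : Q n × (Fa n K → ℂ) => (p.2 f).re :=
    (Complex.reCLM.comp (cz f)).contDiff
  have him : ContDiff ℝ ∞ fun p : Q n × (Fa n K → ℂ) => (p.2 f).im :=
    (Complex.imCLM.comp (cz f)).contDiff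
  exact (hx.mul ((h₀.comp (hC.smp f)).add (((hA f.1).comp contDiff_fst).mul
    (h₁.comp (hC.smp f))))).add ((contDiff_const.sub hx).mul
      (((hre.pow 2).add (him.pow 2)).div_const _))

theorem dT {th : ℝ → ℝ} (hth : ContDiff ℝ ∞ th) (h₀ : ContDiff ℝ ∞ Λ0)
    (h₁ : ContDiff ℝ ∞ Λ1) (hA : ∀ j, ContDiff ℝ ∞ (A j)) (hC : Calc (K := K) h0 h1 A d r)
    (f : Fa n K) (p v : Q n × (Fa n K → ℂ)) : fderiv ℝ (T th Λ0 Λ1 A d r f) p v =
      deriv th (xx d f p) * v.1.1 f.1 * (Lm Λ0 Λ1 A d r f p - W r f p) +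
      th (xx d f p) * (fderiv ℝ Λ0 (pab d r f p) (fderiv ℝ (pab d r f) p v) +
        fderiv ℝ (A f.1) p.1 v.1 * Λ1 (pab d r f p) +
        A f.1 p.1 * fderiv ℝ Λ1 (pab d r f p) (fderiv ℝ (pab d r f) p v)) +
      (1 - th (xx d f p)) *
        (2 * ((p.2 f).re * (v.2 f).re + (p.2 f).im * (v.2 f).im) / r ^ 2) := by
  have hx : HasFDerivAt (xx d f) (cf K f.1) p := (cf K f.1).hasFDerivAt.sub_const _
  have ht := ((hth.differentiable (by simp)) (xx d f p)).hasDerivAt.comp_hasFDerivAt p hx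
  have hp := ((hC.smp f).differentiable (by simp) p).hasFDerivAt
  have l0 := ((h₀.differentiable (by simp)) (pab d r f p)).hasFDerivAt.comp p hp
  have l1 := ((h₁.differentiable (by simp)) (pab d r f p)).hasFDerivAt.comp p hp
  have ha := (((hA f.1).differentiable (by simp)) p.1).hasFDerivAt.comp p
    (hasFDerivAt_fst (𝕜 := ℝ) (p := p))
  have hre : HasFDerivAt (fun p : Q n × (Fa n K → ℂ) => (p.2 f).re) (Complex.reCLM.comp (cz f)) p :=
    (Complex.reCLM.comp (cz f)).hasFDerivAt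
  have him : HasFDerivAt (fun p : Q n × (Fa n K → ℂ) => (p.2 f).im) (Complex.imCLM.comp (cz f)) p :=
    (Complex.imCLM.comp (cz f)).hasFDerivAt
  have hW := ((hre.mul hre).add (him.mul him)).mul_const (r ^ 2)⁻¹
  have hT := (ht.mul (l0.add (ha.mul l1))).add ((ht.const_sub 1).mul hW)
  have hT' := hT.congr_of_eventuallyEq (f₁ := T th Λ0 Λ1 A d r f) (Eventually.of_forall fun y => by
    simp only [T, Lm, W, Pi.add_apply, Pi.mul_apply, Function.comp_apply]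
    ring)
  rw [hT'.fderiv]
  simp only [Lm, W, cf, cz, Pi.add_apply, Pi.mul_apply, Function.comp_apply,
    add_apply, smul_apply, ContinuousLinearMap.comp_apply,
    neg_apply, ContinuousLinearMap.proj_apply, ContinuousLinearMap.coe_fst',
    ContinuousLinearMap.coe_snd', Complex.reCLM_apply, Complex.imCLM_apply, smul_eq_mul]
  ring

theorem dTX {th : ℝ → ℝ} (hth : ContDiff ℝ ∞ th) (h₀ : ContDiff ℝ ∞ Λ0)
    (h₁ : ContDiff ℝ ∞ Λ1) (hA : ∀ j, ContDiff ℝ ∞ (A j)) (hr : 0 < r)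
    (hC : Calc (K := K) h0 h1 A d r) (f : Fa n K) (p : Q n × (Fa n K → ℂ)) :
    fderiv ℝ (T th Λ0 Λ1 A d r f) p (XM (HT h0 h1 A d r) p) =
      deriv th (xx d f p) * (XM (HT h0 h1 A d r) p).1.1 f.1 * (Lm Λ0 Λ1 A d r f p - W r f p) +
      th (xx d f p) * (fderiv ℝ Λ0 (pab d r f p) (fderiv ℝ (pab d r f) p (XM (HT h0 h1 A d r) p)) +
        fderiv ℝ (A f.1) p.1 (XM (HT h0 h1 A d r) p).1 * Λ1 (pab d r f p) +
        A f.1 p.1 * fderiv ℝ Λ1 (pab d r f p) (fderiv ℝ (pab d r f) p (XM (HT h0 h1 A d r) p))) +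
      (1 - th (xx d f p)) * (W r f p +
        2 * (A f.1 p.1 * SW.hr h0 h1 (sn d (p.1.2 f.1)) (pab d r f p))) := by
  rw [dT hth h₀ h₁ hA hC]
  congr 2
  have h := hC.rdot p f
  have e1 : ((XM (HT h0 h1 A d r) p).2 f).re =
      (p.2 f).re / 2 + (shC (d2 (HT h0 h1 A d r) p) f).re := by
    simp [XM]; ring
  have e2 : ((XM (HT h0 h1 A d r) p).2 f).im =
      (p.2 f).im / 2 + (shC (d2 (HT h0 h1 A d r) p) f).im := by
    simp [XM]; ring
  rw [e1, e2, W]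
  field_simp
  linarith

end Pool.Agent.MP_6d695c_gt.SW.Lam

end MrgPart3

-- ======== part 4: formerly Pool.Agent.MP_6d695c_gt.sw.Lam
section MrgPart4

/-! PROJECT SW, row LAM: the master inequality. -/

open scoped ContDiff Topology
open Set Metric Filter Real

namespace Pool.Agent.MP_6d695c_gt.SW

namespace Lam

variable {n K k₁ : ℕ} {w d δ CA C r m KΛ : ℝ} {h0 h1 τ Λ0 Λ1 : R3 → ℝ} {Zs : Finset ℝ}
  {A : Fin (n + 1) → Q n → ℝ}

/-- admissible pairs `(r, p)` -/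
def SS (K : ℕ) (h0 h1 : R3 → ℝ) (A : Fin (n + 1) → Q n → ℝ) (d w C : ℝ) :
    Set (ℝ × (Q n × (Fa n K → ℂ))) :=
  {y | 0 < y.1 ∧ y.1 ≤ 1 ∧ Calc (K := K) h0 h1 A d y.1 ∧ y.2 ∈ Om n (Fa n K) d w (C * y.1 ^ 2)}

/-- the speed of `g j` divided by `r²` -/
noncomputable def gd (h0 h1 : R3 → ℝ) (A : Fin (n + 1) → Q n → ℝ) (d r : ℝ) (j : Fin (n + 1))
    (p : Q n × (Fa n K → ℂ)) : ℝ :=
  -(exp (-p.1.1 j) * Fcut h0 h1 A d r j p +
    A j p.1 * ∑ k, hP h0 h1 (sn d (p.1.2 j)) (pab d r (j, k) p) / LL d (j, k))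

theorem gdot_eq (hC : Calc (K := K) h0 h1 A d r) (p : Q n × (Fa n K → ℂ)) (j : Fin (n + 1)) :
    (XM (HT h0 h1 A d r) p).1.2 j = r ^ 2 * gd h0 h1 A d r j p := by
  rw [hC.gdot, gd]; ring

theorem bdQ {u : Q n → ℝ} (hu : Continuous u) : Bd (SS K h0 h1 A d w C) fun y => u y.2.1 :=
  Bd.of_cont (isCompact_cbox d (4 * w)) (fun _ hy => hy.2.2.2.1) hu

theorem bdr : Bd (SS K h0 h1 A d w C) fun y => y.1 ^ 2 :=
  ⟨1, fun y hy => by
    rw [abs_of_nonneg (sq_nonneg _)]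
    exact pow_le_one₀ hy.1.le hy.2.1⟩

theorem bdW (f : Fa n K) : Bd (SS K h0 h1 A d w C) fun y => W y.1 f y.2 :=
  ⟨C, fun y hy => by
    rw [abs_of_nonneg (W_nonneg _ _)]
    exact W_le hy.1 f hy.2.2.2⟩

theorem bdP (f : Fa n K) {u : R3 → ℝ} (hu : Continuous u) :
    Bd (SS K h0 h1 A d w C) fun y => u (pab d y.1 f y.2) := by
  obtain ⟨c, hc⟩ := bdQ (K := K) (h0 := h0) (h1 := h1) (A := A) (d := d) (w := w) (C := C)
    (u := fun q => exp (q.1 f.1 - lev f.2 * d)) (by fun_prop)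
  refine Bd.of_cont (isCompact_closedBall (0 : R3) (|c| + |C| + 1)) (fun y hy => ?_) hu
  have e1 := hy.2.2.1.radp f y.2
  have e2 := W_eq hy.1 hy.2.2.1 f y.2
  have e3 := W_le hy.1 f hy.2.2.2
  have e4 := hc y hy
  beta_reduce at e4
  rw [← e1, abs_le] at e4
  set x := pab d y.1 f y.2
  have := le_abs_self c
  have := le_abs_self C
  have := abs_nonneg c
  rw [mem_closedBall_zero_iff, Prod.norm_def, Prod.norm_def]
  simp only [rad] at e4
  refine max_le (abs_le.2 ⟨?_, ?_⟩) (max_le (abs_le.2 ⟨?_, ?_⟩) (abs_le.2 ⟨?_, ?_⟩)) <;>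
    nlinarith [sq_nonneg x.2.1, sq_nonneg x.2.2, sq_nonneg (x.2.1 - 1), sq_nonneg (x.2.1 + 1),
      sq_nonneg (x.2.2 - 1), sq_nonneg (x.2.2 + 1)]

theorem bds (j : Fin (n + 1)) : Bd (SS K h0 h1 A d w C) fun y => sn d (y.2.1.2 j) :=
  bdQ (u := fun q => sn d (q.2 j)) (by unfold sn; fun_prop)

theorem bde (j : Fin (n + 1)) : Bd (SS K h0 h1 A d w C) fun y => exp (-y.2.1.1 j) :=
  bdQ (u := fun q => exp (-q.1 j)) (by fun_prop)

section Bounds
variable (hl : Loc h0 h1 δ τ Zs) (hA : Cut d k₁ A CA)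
include hl

theorem bd_hs (f : Fa n K) : Bd (SS K h0 h1 A d w C)
    fun y => hs h0 h1 (sn d (y.2.1.2 f.1)) (pab d y.1 f y.2) :=
  (bdP f hl.sm0.continuous).add ((bds f.1).mul (bdP f hl.sm1.continuous))

theorem bd_hP (f : Fa n K) : Bd (SS K h0 h1 A d w C)
    fun y => hP h0 h1 (sn d (y.2.1.2 f.1)) (pab d y.1 f y.2) :=
  (bdP f (cont_dir hl.sm0 _)).add ((bds f.1).mul (bdP f (cont_dir hl.sm1 _)))

theorem bd_ha (f : Fa n K) : Bd (SS K h0 h1 A d w C)
    fun y => ha h0 h1 (sn d (y.2.1.2 f.1)) (pab d y.1 f y.2) :=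
  (bdP f (cont_dir hl.sm0 _)).add ((bds f.1).mul (bdP f (cont_dir hl.sm1 _)))

theorem bd_hb (f : Fa n K) : Bd (SS K h0 h1 A d w C)
    fun y => hb h0 h1 (sn d (y.2.1.2 f.1)) (pab d y.1 f y.2) :=
  (bdP f (cont_dir hl.sm0 _)).add ((bds f.1).mul (bdP f (cont_dir hl.sm1 _)))

theorem bd_hr (f : Fa n K) : Bd (SS K h0 h1 A d w C)
    fun y => hr h0 h1 (sn d (y.2.1.2 f.1)) (pab d y.1 f y.2) :=
  ((bdP f (u := fun x => x.2.1) (by fun_prop)).mul (bd_hb hl f)).sub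
    ((bdP f (u := fun x => x.2.2) (by fun_prop)).mul (bd_ha hl f))

include hA

omit hl in
theorem bdA (j : Fin (n + 1)) : Bd (SS K h0 h1 A d w C) fun y => A j y.2.1 :=
  bdQ (hA.sm j).continuous

theorem bd_EE (j : Fin (n + 1)) : Bd (SS K h0 h1 A d w C)
    fun y => Ecut h0 h1 A d y.1 j y.2 + Esin h1 A d y.1 j y.2 :=
  (Bd.sum fun f => (bdQ (cont_dir (hA.sm f.1) _)).mul (bd_hs hl f)).add
    (((bdA hA j).mul (bdQ (u := fun q => π / d * cos (π * q.2 j / d)) (by fun_prop))).mul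
      (Bd.sum fun k => bdP (j, k) hl.sm1.continuous))

theorem bd_gd (j : Fin (n + 1)) : Bd (SS K h0 h1 A d w C) fun y => gd h0 h1 A d y.1 j y.2 := by
  have a1 : Bd (SS K h0 h1 A d w C) fun y => Fcut h0 h1 A d y.1 j y.2 :=
    Bd.sum fun f => (bdQ (cont_dir (hA.sm f.1) _)).mul (bd_hs hl f)
  have a2 : Bd (SS K h0 h1 A d w C) fun y =>
      ∑ k, hP h0 h1 (sn d (y.2.1.2 j)) (pab d y.1 (j, k) y.2) / LL d (j, k) :=
    Bd.sum fun k => (bd_hP hl (j, k)).div (LL d (j, k))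
  exact (((bde j).mul a1).add ((bdA hA j).mul a2)).neg

theorem bd_fd (j : Fin (n + 1)) : Bd (SS K h0 h1 A d w C)
    fun y => (XM (HT h0 h1 A d y.1) y.2).1.1 j :=
  ((Bd.const 1).add ((bde j).mul ((bdr.mul (bd_EE hl hA j)).add (Bd.sum fun k =>
    ((Bd.const (2 * LL d (j, k))).mul (bdA hA j)).mul (bd_hr hl (j, k)))))).congr
    fun y hy => hy.2.2.1.fdot y.2 j

theorem bd_DA (j : Fin (n + 1)) : Bd (SS K h0 h1 A d w C)
    fun y => fderiv ℝ (A j) y.2.1 (XM (HT h0 h1 A d y.1) y.2).1 :=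
  ((Bd.sum fun i => (bd_fd hl hA i).mul (bdQ (cont_dir (hA.sm j) _))).add
    (Bd.sum fun i => ((bdr.mul (bd_gd hl hA i)).congr fun y hy => gdot_eq hy.2.2.1 y.2 i).mul
      (bdQ (cont_dir (hA.sm j) _)))).congr fun _ _ => fderiv_Q _ _

theorem bd_XL (f : Fa n K) {u : R3 → ℝ} (hu : ContDiff ℝ ∞ u) : Bd (SS K h0 h1 A d w C)
    fun y => fderiv ℝ u (pab d y.1 f y.2) (XL h0 h1 (A f.1 y.2.1) (sn d (y.2.1.2 f.1))
      (y.1 ^ 2 * (Ecut h0 h1 A d y.1 f.1 y.2 + Esin h1 A d y.1 f.1 y.2) / LL d f)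
      (pab d y.1 f y.2)) :=
  (((((bdP f continuous_fst).add ((bdr.mul (bd_EE hl hA f.1)).div _)).mul
    (bdP f (cont_dir hu _))).add
    (((bdP f (u := fun x => x.2.1 / 2) (by fun_prop)).add ((bdA hA f.1).mul (bd_hb hl f))).mul
      (bdP f (cont_dir hu _)))).add
    (((bdP f (u := fun x => x.2.2 / 2) (by fun_prop)).sub ((bdA hA f.1).mul (bd_ha hl f))).mul
      (bdP f (cont_dir hu _)))).congr fun _ _ => fderiv_R3 _ _ _

end Bounds

theorem others (hc : Con w d δ k₁ K) (hl : Loc h0 h1 δ τ Zs) (hC : Calc (K := K) h0 h1 A d r)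
    {j : Fin (n + 1)} {k k' : Fin (2 * K + 1)} {p : Q n × (Fa n K → ℂ)} (hk : k' ≠ k)
    (h : |xx d (j, k) p| ≤ d / 2) : Van h0 h1 (pab d r (j, k') p) :=
  van hc hl hC ((by linarith [hc.dpos] : d / 16 ≤ d / 2).trans (far hc.dpos hk h))

theorem bandX (hc : Con w d δ k₁ K) (hl : Loc h0 h1 δ τ Zs) (hA : Cut d k₁ A CA)
    (hC : Calc (K := K) h0 h1 A d r) {f : Fa n K} {p : Q n × (Fa n K → ℂ)}
    (h : |xx d f p| < d / 4) : Fcut h0 h1 A d r f.1 p = 0 ∧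
      fderiv ℝ (pab d r f) p (XM (HT h0 h1 A d r) p) =
      XL h0 h1 (A f.1 p.1) (sn d (p.1.2 f.1))
        (r ^ 2 * (Ecut h0 h1 A d r f.1 p + Esin h1 A d r f.1 p) / LL d f) (pab d r f p) := by
  have h1' : Fcut h0 h1 A d r f.1 p = 0 :=
    Finset.sum_eq_zero fun f' _ => by rw [hA.ff f'.1 p.1 f.1 ⟨lev f.2, h⟩, zero_mul]
  refine ⟨h1', hC.band p f h1' fun k hk => ?_⟩
  have := others hc hl hC (j := f.1) (k := f.2) (p := p) hk (by linarith [hc.dpos])
  exact ⟨this.hP _, this.hr _⟩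

/-- the cut-off in the level -/
structure Th (d : ℝ) (th : ℝ → ℝ) : Prop where
  sm : ContDiff ℝ ∞ th
  one : ∀ x, |x| < d / 8 → th x = 1 ∧ deriv th x = 0
  zero : ∀ x, d / 4 ≤ |x| → th x = 0 ∧ deriv th x = 0

variable {th : ℝ → ℝ}

theorem dT_far (hc : Con w d δ k₁ K) (hl : Loc h0 h1 δ τ Zs) (hA : Cut d k₁ A CA)
    (hL : LocL h0 h1 Zs C Λ0 Λ1 m KΛ) (ht : Th d th) (hr : 0 < r)
    (hC : Calc (K := K) h0 h1 A d r) {f : Fa n K} {p : Q n × (Fa n K → ℂ)}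
    (h : d / 4 ≤ |xx d f p|) :
    fderiv ℝ (T th Λ0 Λ1 A d r f) p (XM (HT h0 h1 A d r) p) = W r f p := by
  rw [dTX ht.sm hL.sm0 hL.sm1 hA.sm hr hC, (ht.zero _ h).1, (ht.zero _ h).2,
    (van hc hl hC (by linarith [hc.dpos])).hr]
  ring

theorem crude (hc : Con w d δ k₁ K) (hl : Loc h0 h1 δ τ Zs) (hA : Cut d k₁ A CA)
    (hL : LocL h0 h1 Zs C Λ0 Λ1 m KΛ) (ht : Th d th) (f : Fa n K) : Bd (SS K h0 h1 A d w C)
      fun y => fderiv ℝ (T th Λ0 Λ1 A d y.1 f) y.2 (XM (HT h0 h1 A d y.1) y.2) := by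
  have b1 : Bd (SS K h0 h1 A d w C) fun y => th (xx d f y.2) :=
    bdQ (u := fun q => th (q.1 f.1 - lev f.2 * d)) (ht.sm.continuous.comp (by fun_prop))
  have b2 : Bd (SS K h0 h1 A d w C) fun y => deriv th (xx d f y.2) :=
    bdQ (u := fun q => deriv th (q.1 f.1 - lev f.2 * d))
      ((ht.sm.continuous_deriv (by simp)).comp (by fun_prop))
  have b3 := bdA (K := K) (h0 := h0) (h1 := h1) (w := w) (C := C) hA f.1
  have b4 := bdP (h0 := h0) (h1 := h1) (A := A) (d := d) (w := w) (C := C) f hL.sm1.continuous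
  obtain ⟨c, hb⟩ := (((b2.mul (bd_fd hl hA f.1)).mul
    (((bdP f hL.sm0.continuous).add (b3.mul b4)).sub (bdW f))).add
    (b1.mul (((bd_XL hl hA f hL.sm0).add ((bd_DA hl hA f.1).mul b4)).add
      (b3.mul (bd_XL hl hA f hL.sm1))))).add
    (((Bd.const 1).sub b1).mul ((bdW f).add ((Bd.const 2).mul (b3.mul (bd_hr hl f)))))
  obtain ⟨c', hb'⟩ := bdW (h0 := h0) (h1 := h1) (A := A) (d := d) (w := w) (C := C) f
  refine ⟨max c c', fun y hy => ?_⟩
  rcases lt_or_ge |xx d f y.2| (d / 4) with h | h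
  · refine le_max_of_le_left ?_
    beta_reduce
    rw [dTX ht.sm hL.sm0 hL.sm1 hA.sm hy.1 hy.2.2.1, (bandX hc hl hA hy.2.2.1 h).2]
    exact hb y hy
  · refine le_max_of_le_right ?_
    beta_reduce
    rw [dT_far hc hl hA hL ht hy.1 hy.2.2.1 h]
    exact hb' y hy

theorem good (hc : Con w d δ k₁ K) (hl : Loc h0 h1 δ τ Zs) (hA : Cut d k₁ A CA)
    (hL : LocL h0 h1 Zs C Λ0 Λ1 m KΛ) (ht : Th d th) (hr : 0 < r)
    (hC : Calc (K := K) h0 h1 A d r) {j : Fin (n + 1)} {k : Fin (2 * K + 1)}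
    {p : Q n × (Fa n K → ℂ)} (h : |xx d (j, k) p| < d / 8) (e : ℝ) :
    fderiv ℝ (T th Λ0 Λ1 A d r (j, k)) p (XM (HT h0 h1 A d r) p) + e * gd h0 h1 A d r j p =
      DL h0 h1 Λ0 Λ1 (A j p.1) (sn d (p.1.2 j)) (e / LL d (j, k)) (pab d r (j, k) p) +
      r ^ 2 * ((Ecut h0 h1 A d r j p + Esin h1 A d r j p) / LL d (j, k) *
        dP Λ0 (pab d r (j, k) p)) +
      fderiv ℝ (A j) p.1 (XM (HT h0 h1 A d r) p).1 * Λ1 (pab d r (j, k) p) := by
  have hd := hc.dpos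
  obtain ⟨b1, b2⟩ := bandX hc hl hA hC (f := (j, k)) (p := p) (by linarith)
  rw [dTX ht.sm hL.sm0 hL.sm1 hA.sm hr hC, (ht.one _ h).1, (ht.one _ h).2, b2, gd, b1,
    sum_one k fun k' hk => by rw [(others hc hl hC hk (by linarith)).hP, zero_div], DL]
  simp only [fderiv_R3, XL, (hL.dPle _).2]
  ring

/-- the weight of the directions outside the bands -/
theorem exists_S (hd : 0 < d) (K : ℕ) : ∃ σ S : ℝ → ℝ, ContDiff ℝ ∞ S ∧
    (∀ x, HasDerivAt S (σ x) x) ∧ (∀ x, 0 ≤ σ x) ∧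
    (∀ x (k : Fin (2 * K + 1)), |x - lev k * d| < d / 16 → σ x = 0 ∧ S x = S (lev k * d)) ∧
    ∀ x, (∀ k : Fin (2 * K + 1), d / 8 ≤ |x - lev k * d|) → σ x = 1 := by
  obtain ⟨b, hb, b1, b0, bm, -⟩ := exists_bump (u := d / 16) (v := d / 8) (by linarith)
  obtain ⟨S, hS, -, hder⟩ := exists_primitive
    (b := fun x => ∏ k : Fin (2 * K + 1), (1 - b (x - lev k * d)))
    (contDiff_prod fun k _ => contDiff_const.sub (hb.comp (contDiff_id.sub contDiff_const)))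
  have z : ∀ x (k : Fin (2 * K + 1)), |x - lev k * d| < d / 16 →
      ∏ k : Fin (2 * K + 1), (1 - b (x - lev k * d)) = 0 := fun x k h =>
    Finset.prod_eq_zero (Finset.mem_univ k) (by rw [b1 _ h.le, sub_self])
  refine ⟨_, S, hS, hder, fun x => Finset.prod_nonneg fun k _ => sub_nonneg.2 (bm _).2,
    fun x k h => ⟨z x k h, ?_⟩, fun x h => Finset.prod_eq_one fun k _ => by
      rw [b0 _ (h k), sub_zero]⟩
  have := (convex_ball ((lev k : ℝ) * d) (d / 16)).norm_image_sub_le_of_norm_hasDerivWithin_le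
    (C := 0) (fun y _ => (hder y).hasDerivWithinAt)
    (fun y hy => by rw [z y k (by simpa [Real.dist_eq] using hy), norm_zero])
    (mem_ball_self (by linarith)) (show x ∈ ball _ _ by simpa [Real.dist_eq] using h)
  rw [zero_mul, norm_le_zero_iff, sub_eq_zero] at this
  exact this

theorem dL (hc : Con w d δ k₁ K) (hl : Loc h0 h1 δ τ Zs) (hA : Cut d k₁ A CA)
    (hL : LocL h0 h1 Zs C Λ0 Λ1 m KΛ) (ht : Th d th) (hr : 0 < r)
    (hC : Calc (K := K) h0 h1 A d r) {σ S : ℝ → ℝ} (hS : ∀ x, HasDerivAt S (σ x) x) (KS : ℝ)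
    {p : Q n × (Fa n K → ℂ)} {k : Fin (n + 1) → Fin (2 * K + 1)}
    (h : ∀ j, |xx d (j, k j) p| ≤ d / 2) (e : Fin (n + 1) → ℝ) :
    fderiv ℝ (fun p : Q n × (Fa n K → ℂ) => ∑ j, KS * S (p.1.1 j) + ∑ f, T th Λ0 Λ1 A d r f p) p
      (XM (HT h0 h1 A d r) p) + (∑ j, e j * (XM (HT h0 h1 A d r) p).1.2 j) / r ^ 2 =
      ∑ j, (KS * (σ (p.1.1 j) * (XM (HT h0 h1 A d r) p).1.1 j) +
        (fderiv ℝ (T th Λ0 Λ1 A d r (j, k j)) p (XM (HT h0 h1 A d r) p) +
          e j * gd h0 h1 A d r j p)) +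
      ∑ f : Fa n K, if f.2 = k f.1 then 0 else W r f p := by
  have h1' : ∀ j, HasFDerivAt (fun p : Q n × (Fa n K → ℂ) => KS * S (p.1.1 j))
      (KS • (σ (p.1.1 j) • cf K j)) p := fun j =>
    ((hS (p.1.1 j)).comp_hasFDerivAt p (cf K j).hasFDerivAt).const_mul KS
  have h2 : ∀ f : Fa n K, HasFDerivAt (T th Λ0 Λ1 A d r f) (fderiv ℝ (T th Λ0 Λ1 A d r f) p) p :=
    fun f => ((contDiff_T ht.sm hL.sm0 hL.sm1 hA.sm hC f).differentiable (by simp) p).hasFDerivAt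
  have h3 := (HasFDerivAt.fun_sum (u := Finset.univ) fun j _ => h1' j).fun_add
    (HasFDerivAt.fun_sum (u := Finset.univ) fun f _ => h2 f)
  rw [h3.fderiv]
  simp only [add_apply, sum_apply, smul_apply, smul_eq_mul]
  rw [sum_split k (G := fun f => W r f p) fun f hf => dT_far hc hl hA hL ht hr hC
    ((by linarith [hc.dpos] : d / 4 ≤ d / 2).trans (far hc.dpos hf (h f.1)))]
  have h4 : (∑ j, e j * (XM (HT h0 h1 A d r) p).1.2 j) / r ^ 2 =
      ∑ j, e j * gd h0 h1 A d r j p := by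
    rw [Finset.sum_div]
    refine Finset.sum_congr rfl fun j _ => ?_
    rw [gdot_eq hC]
    field_simp
  rw [h4, Finset.sum_add_distrib, Finset.sum_add_distrib]
  simp only [cf, ContinuousLinearMap.comp_apply, ContinuousLinearMap.proj_apply,
    ContinuousLinearMap.coe_fst']
  ring

theorem sum_ge {N : ℕ} {F : Fin (N + 1) → ℝ} {a b : ℝ} (h : ∀ j, -a ≤ F j) {j₀ : Fin (N + 1)}
    (h₀ : b - a ≤ F j₀) : b - (N + 1) * a ≤ ∑ j, F j := by
  have h1 : F j₀ + a ≤ ∑ j, (F j + a) :=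
    Finset.single_le_sum (f := fun j => F j + a) (fun j _ => by linarith [h j]) (Finset.mem_univ _)
  rw [Finset.sum_add_distrib] at h1
  simp only [Finset.sum_const, Finset.card_univ, Fintype.card_fin, nsmul_eq_mul] at h1
  push_cast at h1
  linarith

end Lam

open Lam in
theorem lam : LamStmt := by
  intro n K k₁ w d δ CA C m KΛ h0 h1 τ Λ0 Λ1 Zs A hc hl hA hL
  have hd := hc.dpos
  have hm := hL.pos
  obtain ⟨th, t1, t2, t3, -, t5, t6⟩ := exists_bump (u := d / 8) (v := 3 * d / 16) (by linarith)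
  have ht : Th d th := ⟨t1, fun x h => ⟨t2 x h.le, t5 x h⟩,
    fun x h => ⟨t3 x (by linarith), t6 x (by linarith)⟩⟩
  obtain ⟨σ, S, hS, hσ, σ0, σz, σ1⟩ := exists_S hd K
  obtain ⟨c1, p1, b1⟩ := Bd.unif fun j =>
    (bde j).mul (bd_EE (K := K) (w := w) (C := C) hl hA j)
  obtain ⟨c2, p2, b2⟩ := Bd.unif (bd_gd (K := K) (w := w) (C := C) hl hA)
  obtain ⟨c3, p3, b3⟩ := Bd.unif (crude hc hl hA hL ht)
  obtain ⟨c4, p4, b4⟩ := Bd.unif fun f : Fa n K =>
    (((bd_EE (K := K) (w := w) (C := C) hl hA f.1).div (LL d f)).mul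
      (bdP f (u := dP Λ0) (cont_dir hL.sm0 _))).add
    ((Bd.sum fun i => (bd_gd hl hA i).mul (bdQ (cont_dir (hA.sm f.1) (0, Pi.single i 1)))).mul
      (bdP f hL.sm1.continuous))
  set KS : ℝ := 2 * ((n + 1) * (c2 + c3) + 1) with hKS
  have pK : 0 ≤ KS := by positivity
  obtain ⟨B, hB⟩ : Bd (SS K h0 h1 A d w C) fun y =>
      ∑ j, KS * S (y.2.1.1 j) + ∑ f, T th Λ0 Λ1 A d y.1 f y.2 := by
    refine (Bd.sum fun j => bdQ (u := fun q => KS * S (q.1 j)) ?_).add (Bd.sum fun f => ?_)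
    · have := hS.continuous
      fun_prop
    · have b : Bd (SS K h0 h1 A d w C) fun y => th (xx d f y.2) :=
        bdQ (u := fun q => th (q.1 f.1 - lev f.2 * d)) (t1.continuous.comp (by fun_prop))
      exact (b.mul ((bdP f hL.sm0.continuous).add ((bdA hA f.1).mul
        (bdP f hL.sm1.continuous)))).add (((Bd.const 1).sub b).mul (bdW f))
  obtain ⟨r1, q1, s1⟩ := small p1 (ε := 1 / 2) (by norm_num)
  obtain ⟨r2, q2, s2⟩ := small (D := (n + 1) * c4) (ε := m / 2) (by positivity) (by positivity)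
  obtain ⟨r3, q3, s3⟩ := small (D := π / d * 2 * |KΛ|) (ε := 1 / 2) (by positivity) (by norm_num)
  refine ⟨min 1 (m / 2), B, min r1 (min r2 r3), by positivity, by positivity,
    fun r hr hrle hC => ⟨fun p => ∑ j, KS * S (p.1.1 j) + ∑ f, T th Λ0 Λ1 A d r f p, ?_⟩⟩
  obtain ⟨r_1, e1⟩ := s1 r hr (hrle.trans (min_le_left _ _))
  have e2 := (s2 r hr (hrle.trans ((min_le_right _ _).trans (min_le_left _ _)))).2
  have e3 := (s3 r hr (hrle.trans ((min_le_right _ _).trans (min_le_right _ _)))).2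
  have mem : ∀ p ∈ Om n (Fa n K) d w (C * r ^ 2), (r, p) ∈ SS K h0 h1 A d w C :=
    fun p hp => ⟨hr, r_1, hC, hp⟩
  have up : ∀ p ∈ Om n (Fa n K) d w (C * r ^ 2), ∀ j, (∀ k, d / 16 ≤ |xx d (j, k) p|) →
      1 / 2 ≤ (XM (HT h0 h1 A d r) p).1.1 j := fun p hp j h => by
    rw [hC.fdot, Finset.sum_eq_zero fun k _ => by rw [(van hc hl hC (h k)).hr, mul_zero]]
    have := (abs_le.1 (b1 j _ (mem p hp))).1
    have h2 := mul_le_mul_of_nonneg_left this (sq_nonneg r)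
    simp only at h2
    linarith
  have Sn : ∀ p ∈ Om n (Fa n K) d w (C * r ^ 2), ∀ j,
      0 ≤ KS * (σ (p.1.1 j) * (XM (HT h0 h1 A d r) p).1.1 j) := fun p hp j => by
    refine mul_nonneg pK ?_
    by_cases h : ∀ k, d / 16 ≤ |xx d (j, k) p|
    · exact mul_nonneg (σ0 _) (by linarith [up p hp j h])
    · push Not at h
      obtain ⟨k, hk⟩ := h
      rw [(σz _ k hk).1, zero_mul]
  have Wn : ∀ (p : Q n × (Fa n K → ℂ)) (k : Fin (n + 1) → Fin (2 * K + 1)),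
      0 ≤ ∑ f : Fa n K, if f.2 = k f.1 then 0 else W r f p := fun p k =>
    Finset.sum_nonneg fun f _ => by split_ifs; exacts [le_rfl, W_nonneg _ _]
  refine ⟨(ContDiff.sum fun j _ => contDiff_const.mul (hS.comp (cf K j).contDiff)).add
    (ContDiff.sum fun f _ => contDiff_T t1 hL.sm0 hL.sm1 hA.sm hC f),
    fun p hp => hB _ (mem p hp), fun p hp e he hj => ?_, fun p k hk => ⟨fun e hp hs => ?_, fun h => ?_⟩⟩
  · choose k hk using exists_lev hc hp
    rw [dL hc hl hA hL ht hr hC hσ KS hk e]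
    refine le_trans ?_ (le_add_of_nonneg_right (Wn p k))
    by_cases hg : ∀ j, |xx d (j, k j) p| < d / 8
    · obtain ⟨j₀, hj₀⟩ := hj
      have hj₀ : 1 / 4 ≤ e j₀ * sn d (p.1.2 j₀) := hj₀.resolve_left fun h => h ⟨_, hg j₀⟩
      have key : ∀ j, DL h0 h1 Λ0 Λ1 (A j p.1) (sn d (p.1.2 j)) (e j / LL d (j, k j))
          (pab d r (j, k j) p) - r ^ 2 * c4 ≤
          KS * (σ (p.1.1 j) * (XM (HT h0 h1 A d r) p).1.1 j) +
          (fderiv ℝ (T th Λ0 Λ1 A d r (j, k j)) p (XM (HT h0 h1 A d r) p) +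
            e j * gd h0 h1 A d r j p) := fun j => by
        rw [good hc hl hA hL ht hr hC (hg j), fderiv_Q, Finset.sum_eq_zero (f := fun i =>
          (XM (HT h0 h1 A d r) p).1.1 i * fderiv ℝ (A j) p.1 (Pi.single i 1, 0)) fun i _ => by
            rw [hA.ff j p.1 i ⟨lev (k i), (hg i).trans (by linarith)⟩, mul_zero]]
        have := (abs_le.1 (b4 (j, k j) _ (mem p hp))).1
        have h2 := mul_le_mul_of_nonneg_left this (sq_nonneg r)
        simp only [gdot_eq hC, mul_assoc, ← Finset.mul_sum] at h2 ⊢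
        linarith [Sn p hp j]
      have pr := fun j => hL.prod (pab d r (j, k j) p) (rad_near hc hC (hk j))
        ((W_eq hr hC _ p).symm.le.trans (W_le hr _ hp)) (A j p.1) (hA.mem j p.1) (sn d (p.1.2 j))
        (e j / LL d (j, k j)) (abs_sin_le_one _) (by
          have := LL_mem hc (j, k j)
          rw [abs_div, abs_of_pos (by linarith : 0 < LL d (j, k j)), div_le_iff₀ (by linarith)]
          linarith [(he j).1]) (by
          have := LL_mem hc (j, k j)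
          rw [div_mul_eq_mul_div]
          exact div_nonneg (he j).2 (by linarith))
      have := sum_ge (a := r ^ 2 * c4) (b := m) (j₀ := j₀)
        (fun j => le_trans (by linarith [(pr j).1, sq_nonneg (pab d r (j, k j) p).1]) (key j))
        (le_trans (by
          have := LL_mem hc (j₀, k j₀)
          linarith [(pr j₀).2.1 (Or.inl (by
            rw [div_mul_eq_mul_div, le_div_iff₀ (by linarith)]; linarith))]) (key j₀))
      refine (min_le_right _ _).trans (le_trans ?_ this)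
      linarith
    · push Not at hg
      obtain ⟨j₀, hj₀⟩ := hg
      have all : ∀ k', d / 8 ≤ |xx d (j₀, k') p| := fun k' => by
        by_cases h : k' = k j₀
        · rw [h]; exact hj₀
        · linarith [far hd h (hk j₀)]
      have key : ∀ j, -(c2 + c3) ≤
          fderiv ℝ (T th Λ0 Λ1 A d r (j, k j)) p (XM (HT h0 h1 A d r) p) +
            e j * gd h0 h1 A d r j p := fun j => by
        have a1 := (abs_le.1 (b3 (j, k j) _ (mem p hp))).1
        have a2 : |e j * gd h0 h1 A d r j p| ≤ 1 * c2 := by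
          rw [abs_mul]
          exact mul_le_mul (he j).1 (b2 j _ (mem p hp)) (abs_nonneg _) zero_le_one
        simp only at a1
        linarith [(abs_le.1 a2).1]
      have := sum_ge (a := c2 + c3) (b := KS / 2) (j₀ := j₀)
        (F := fun j => KS * (σ (p.1.1 j) * (XM (HT h0 h1 A d r) p).1.1 j) +
          (fderiv ℝ (T th Λ0 Λ1 A d r (j, k j)) p (XM (HT h0 h1 A d r) p) +
            e j * gd h0 h1 A d r j p))
        (fun j => by linarith [key j, Sn p hp j]) (by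
          have a1 := up p hp j₀ fun k' => by linarith [all k']
          have a2 := mul_le_mul_of_nonneg_left a1 pK
          rw [σ1 _ all, one_mul]
          linarith [key j₀])
      refine (min_le_left _ _).trans (le_trans ?_ this)
      rw [hKS]
      linarith
  · have hk2 : ∀ j, |xx d (j, k j) p| ≤ d / 2 := fun j => (hk j).le.trans (by linarith)
    rw [dL hc hl hA hL ht hr hC hσ KS hk2 e]
    refine add_le_add (Finset.sum_le_sum fun j _ => ?_) le_rfl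
    have a1 : fderiv ℝ (A j) p.1 = 0 := by
      have : A j =ᶠ[𝓝 p.1] fun _ => A j p.1 :=
        (hA.loc j p.1 (fun i => ⟨lev (k i), (hk i).trans (by linarith)⟩) hs).2
      rw [this.fderiv_eq]
      simp
    have a2 : Ecut h0 h1 A d r j p = 0 :=
      Finset.sum_eq_zero fun f _ => by rw [hA.gg f.1 p.1 j (hs j), zero_mul]
    have a3 : |Esin h1 A d r j p| ≤ 1 * (π / d * 1) * |(pab d r (j, k j) p).1| := by
      rw [Esin, sum_one (k j) fun k' hk' => (others hc hl hC hk' (hk2 j)).v1, abs_mul, abs_mul,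
        abs_mul, abs_of_nonneg (hA.mem j p.1).1, abs_of_pos (by positivity : 0 < π / d)]
      exact mul_le_mul (mul_le_mul (hA.mem j p.1).2 (mul_le_mul_of_nonneg_left (abs_cos_le_one _)
        (by positivity)) (by positivity) zero_le_one) (hl.h1le _) (abs_nonneg _) (by positivity)
    have a4 := LL_mem hc (j, k j)
    have a5 : |Esin h1 A d r j p / LL d (j, k j) * dP Λ0 (pab d r (j, k j) p)| ≤
        π / d * 2 * |(pab d r (j, k j) p).1| * (|KΛ| * |(pab d r (j, k j) p).1|) := by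
      rw [abs_mul]
      refine mul_le_mul ?_ ((hL.dPle _).1.trans ?_) (abs_nonneg _) (by positivity)
      · rw [abs_div, abs_of_pos (by linarith : 0 < LL d (j, k j)), div_le_iff₀ (by linarith)]
        have : 0 ≤ π / d * |(pab d r (j, k j) p).1| := by positivity
        nlinarith
      · gcongr
        exact le_abs_self _
    have a6 := mul_le_mul_of_nonneg_left (abs_le.1 a5).1 (sq_nonneg r)
    have a7 := mul_le_mul_of_nonneg_right e3 (sq_nonneg (pab d r (j, k j) p).1)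
    rw [good hc hl hA hL ht hr hC (hk j), a1, a2, zero_add, zero_apply, zero_mul]
    have a8 := sq_abs (pab d r (j, k j) p).1
    have a9 := Sn p hp j
    nlinarith
  · refine ⟨∑ j, KS * S (lev (k j) * d), ?_⟩
    have : ∀ᶠ p' in 𝓝 p, ∀ j, |xx d (j, k j) p'| < d / 16 := by
      refine eventually_all.2 fun j => ?_
      have hcont : Continuous fun p' : Q n × (Fa n K → ℂ) => |xx d (j, k j) p'| := by
        unfold xx; fun_prop
      exact (isOpen_lt hcont continuous_const).mem_nhds (h j)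
    filter_upwards [this] with p' hp'
    rw [sum_split k (G := fun f => W r f p') fun f hf => by
      rw [T, (ht.zero _ ((by linarith : d / 4 ≤ d / 2).trans
        (far hd hf ((hp' f.1).le.trans (by linarith))))).1]
      ring, add_assoc]
    congr 1
    · exact Finset.sum_congr rfl fun j _ => by rw [(σz _ (k j) (hp' j)).2]
    · congr 1
      refine Finset.sum_congr rfl fun j _ => ?_
      rw [T, (ht.one _ ((hp' j).trans (by linarith))).1, Lm]
      ring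

end Pool.Agent.MP_6d695c_gt.SW

end MrgPart4

-- ======== part 5: formerly Pool.Agent.MP_6d695c_gt.sw.Rate
section MrgPart5

/-! PROJECT SW, row RATE: support, excitation, speeds, catching. -/

open scoped ContDiff Topology
open Set Metric Filter Real

namespace Pool.Agent.MP_6d695c_gt.SW

namespace Lam

variable {n K k₁ : ℕ} {w d δ CA C r : ℝ} {h0 h1 τ : R3 → ℝ} {Zs : Finset ℝ}
  {A : Fin (n + 1) → Q n → ℝ}

theorem near_of_rad (hc : Con w d δ k₁ K) (hC : Calc (K := K) h0 h1 A d r) {f : Fa n K}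
    {p : Q n × (Fa n K → ℂ)} (h : |rad (pab d r f p) - 1| ≤ 6 * δ) : |xx d f p| < d / 16 := by
  have hd := hc.dpos
  have h1' := hc.dle
  have h2 := hc.wle
  have h3 := hc.δle
  rw [hC.radp] at h
  change |exp (xx d f p) - 1| ≤ 6 * δ at h
  obtain ⟨a1, a2⟩ := abs_le.1 h
  refine abs_lt.2 ⟨?_, by linarith [add_one_le_exp (xx d f p)]⟩
  by_contra hn
  have e1 : exp (xx d f p) ≤ exp (-(d / 16)) := exp_le_exp.2 (not_lt.1 hn)
  have e2 : exp (-(d / 16)) * exp (d / 16) = 1 := by rw [← exp_add]; simp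
  have e3 := add_one_le_exp (d / 16)
  have e4 := exp_pos (-(d / 16))
  have e5 : exp (-(d / 16)) * (d / 16 + 1) ≤ 1 := by nlinarith
  have e6 : exp (-(d / 16)) ≤ 1 - d / 32 := by nlinarith
  linarith

theorem lat_le (hc : Con w d δ k₁ K) {q : Q n} (h0' : |q.1 0| ≤ 3 / 4 * d)
    (hz : Zone ((k₁ + 11) * d) q) : ‖lat q‖ ≤ 2 * w := by
  have hd := hc.dpos
  have hw := hc.wpos
  have h := hc.k₁hi
  rw [Prod.norm_def]
  refine max_le ((pi_norm_le_iff_of_nonneg (by positivity)).2 fun i => ?_)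
    ((pi_norm_le_iff_of_nonneg (by positivity)).2 fun i => ?_)
  · by_cases hi : i = 0
    · subst hi
      simp only [lat, sub_self, norm_zero]
      positivity
    · have := abs_sub (q.1 i) (q.1 0)
      have := hz.1 i hi
      change |q.1 i - q.1 0| ≤ 2 * w
      linarith
  · have := hz.2 i
    change |q.2 i| ≤ 2 * w
    linarith

theorem bdG {s : Set (ℝ × (Q n × (Fa n K → ℂ)))} (f : Fa n K) {u : R3 → ℝ} (hu : Continuous u)
    (h : HasCompactSupport u) : Bd s fun y => u (pab d y.1 f y.2) := by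
  obtain ⟨c, hc⟩ := hu.bounded_above_of_compact_support h
  exact ⟨c, fun _ _ => hc _⟩

theorem exists_level (hc : Con w d δ k₁ K) {k : ℤ} (hk : |(k : ℝ)| * d ≤ 4 * w + 2 * d) :
    ∃ k' : Fin (2 * K + 1), lev k' = k := by
  have h1' : |(k : ℝ)| ≤ K := le_of_mul_le_mul_right (hk.trans hc.Klo) hc.dpos
  have h2 : |k| ≤ K := by exact_mod_cast h1'
  obtain ⟨h3, h4⟩ := abs_le.1 h2
  exact ⟨⟨(k + K).toNat, by omega⟩, by simp only [lev]; omega⟩

/-- all pairs `(r, p)` -/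
abbrev UU (n K : ℕ) : Set (ℝ × (Q n × (Fa n K → ℂ))) := univ

theorem gs (j : Fin (n + 1)) : Bd (UU n K) fun y => sn d (y.2.1.2 j) :=
  ⟨1, fun _ _ => abs_sin_le_one _⟩

theorem gA (hA : Cut d k₁ A CA) (j : Fin (n + 1)) : Bd (UU n K) fun y => A j y.2.1 :=
  ⟨1, fun y _ => by rw [abs_of_nonneg (hA.mem _ _).1]; exact (hA.mem _ _).2⟩

theorem gD (hA : Cut d k₁ A CA) (j : Fin (n + 1)) (v : Q n) :
    Bd (UU n K) fun y => fderiv ℝ (A j) y.2.1 v :=
  ⟨CA * ‖v‖, fun y _ => ((fderiv ℝ (A j) y.2.1).le_opNorm v).trans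
    (mul_le_mul_of_nonneg_right (hA.bd _ _) (norm_nonneg _))⟩

theorem gE (hl : Loc h0 h1 δ τ Zs) (hA : Cut d k₁ A CA) (j : Fin (n + 1)) :
    Bd (UU n K) fun y => Ecut h0 h1 A d y.1 j y.2 := by
  have a : ∀ f : Fa n K, Bd (UU n K) fun y => hs h0 h1 (sn d (y.2.1.2 f.1)) (pab d y.1 f y.2) :=
    fun f => (bdG f hl.sm0.continuous hl.cp0).add ((gs f.1).mul (bdG f hl.sm1.continuous hl.cp1))
  exact Bd.sum fun f => (gD hA f.1 (0, Pi.single j 1)).mul (a f)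

theorem gS (hl : Loc h0 h1 δ τ Zs) (hA : Cut d k₁ A CA) (j : Fin (n + 1)) :
    Bd (UU n K) fun y => Esin h1 A d y.1 j y.2 := by
  have a : Bd (UU n K) fun y => cos (π * y.2.1.2 j / d) := ⟨1, fun _ _ => abs_cos_le_one _⟩
  have b : Bd (UU n K) fun y => ∑ k, h1 (pab d y.1 (j, k) y.2) :=
    Bd.sum fun k => bdG (j, k) hl.sm1.continuous hl.cp1
  exact ((gA hA j).mul ((Bd.const (π / d)).mul a)).mul b

theorem gR (f : Fa n K) {u : R3 → ℝ} (hu : ContDiff ℝ ∞ u) (hs : HasCompactSupport u) :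
    Bd (UU n K) fun y => (pab d y.1 f y.2).2.1 * db u (pab d y.1 f y.2) -
      (pab d y.1 f y.2).2.2 * da u (pab d y.1 f y.2) := by
  have a : Continuous fun x : R3 => x.2.1 * db u x - x.2.2 * da u x :=
    ((by fun_prop : Continuous fun x : R3 => x.2.1).mul (cont_dir hu _)).sub
      ((by fun_prop : Continuous fun x : R3 => x.2.2).mul (cont_dir hu _))
  have b : HasCompactSupport fun x : R3 => x.2.1 * db u x - x.2.2 * da u x :=
    (hs.fderiv ℝ).mono fun x hx h => hx (by simp [da, db, h])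
  exact bdG f a b

theorem gH (hl : Loc h0 h1 δ τ Zs) (hA : Cut d k₁ A CA) : Bd (UU n K) fun y =>
    ∑ f : Fa n K, A f.1 y.2.1 * hr h0 h1 (sn d (y.2.1.2 f.1)) (pab d y.1 f y.2) := by
  have a : ∀ f : Fa n K, Bd (UU n K) fun y => hr h0 h1 (sn d (y.2.1.2 f.1)) (pab d y.1 f y.2) :=
    fun f => ((gR (d := d) f hl.sm0 hl.cp0).add ((gs (d := d) f.1).mul
      (gR (d := d) f hl.sm1 hl.cp1))).congr fun y _ => by simp only [hr, ha, hb]; ring
  exact Bd.sum fun f => (gA hA f.1).mul (a f)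

end Lam

open Lam in
theorem rate : RateStmt := by
  intro n K k₁ w d δ CA h0 h1 τ Zs A hc hl hA
  have hd := hc.dpos
  have hδ := hc.δpos
  have hw1 := hc.dle
  have hw2 := hc.wle
  have hδ1 := hc.δle
  obtain ⟨c0, b0⟩ := gH (K := K) hl hA
  obtain ⟨c1, p1, b1⟩ := Bd.unif (gE (K := K) hl hA)
  obtain ⟨c2, p2, b2⟩ := Bd.unif fun f : Fa n K => ((gE (K := K) hl hA f.1).add (gS hl hA f.1)).div (LL d f)
  obtain ⟨Cτ, hτ⟩ := hl.fence
  obtain ⟨r1, q1, s1⟩ := small (D := 3 * c1) (ε := 1 / 4) (by positivity) (by norm_num)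
  obtain ⟨r2, q2, s2⟩ := small p2 (ε := δ / 2) (by positivity)
  obtain ⟨r3, q3, s3⟩ := small (D := |Cτ| * c2) (ε := (δ / 3) ^ 2 / 2) (by positivity)
    (by positivity)
  refine ⟨c0, min r1 (min r2 r3), by positivity, fun r hr hrle hC => ?_⟩
  have e1 := (s1 r hr (hrle.trans (min_le_left _ _))).2
  have e2 := (s2 r hr (hrle.trans ((min_le_right _ _).trans (min_le_left _ _)))).2
  have e3 := (s3 r hr (hrle.trans ((min_le_right _ _).trans (min_le_right _ _)))).2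
  have sup : ∀ p : Q n × (Fa n K → ℂ), 3 / 4 * d < |p.1.1 0| ∨ ¬ Zone ((k₁ + 11) * d) p.1 →
      ∀ᶠ p' in 𝓝 p, HT h0 h1 A d r p' = 0 := fun p h => by
    have : ∀ᶠ q in 𝓝 p.1, ∀ j, A j q = 0 := eventually_all.2 fun j => hA.supp j p.1 h
    filter_upwards [continuous_fst.continuousAt.eventually this] with p' hp'
    simp [HT, hp']
  have up : ∀ (p : Q n × (Fa n K → ℂ)) j, |p.1.1 j| ≤ 1 →
      (A j p.1 = 0 ∨ ∀ k, d / 16 ≤ |xx d (j, k) p|) →
      |(XM (HT h0 h1 A d r) p).1.1 j - 1| ≤ 1 / 4 := fun p j hf h => by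
    have a1 : Esin h1 A d r j p = 0 ∧
        ∑ k, 2 * LL d (j, k) * A j p.1 * SW.hr h0 h1 (sn d (p.1.2 j)) (pab d r (j, k) p) = 0 := by
      rcases h with h | h
      · simp [Esin, h]
      · exact ⟨by rw [Esin, Finset.sum_eq_zero fun k _ => (van hc hl hC (h k)).v1, mul_zero],
          Finset.sum_eq_zero fun k _ => by rw [(van hc hl hC (h k)).hr, mul_zero]⟩
    have a2 : exp (-p.1.1 j) ≤ 3 :=
      (exp_le_exp.2 (by linarith [neg_abs_le (p.1.1 j)] : _ ≤ (1 : ℝ))).trans exp_one_lt_three.le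
    have a3 : |Ecut h0 h1 A d r j p| ≤ c1 := b1 j (r, p) trivial
    rw [hC.fdot, a1.1, a1.2, add_zero, add_zero, add_sub_cancel_left, abs_mul, abs_mul,
      abs_of_pos (exp_pos _), abs_of_nonneg (sq_nonneg r)]
    calc exp (-p.1.1 j) * (r ^ 2 * |Ecut h0 h1 A d r j p|) ≤ 3 * (r ^ 2 * c1) := by gcongr
      _ ≤ 1 / 4 := by linarith
  have up0 : ∀ p : Q n × (Fa n K → ℂ), d / 16 < |p.1.1 0| →
      |(XM (HT h0 h1 A d r) p).1.1 0 - 1| ≤ 1 / 4 := fun p h => by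
    rcases lt_or_ge (3 / 4 * d) |p.1.1 0| with h' | h'
    · rw [XM_of_zero (sup p (Or.inl h'))]
      simp [one]
    · refine up p 0 (by linarith) (Or.inr fun k => ?_)
      by_cases hk : lev k = 0
      · simp only [xx, hk, Int.cast_zero, zero_mul, sub_zero]
        exact h.le
      · have a1 : (1 : ℝ) ≤ |(lev k : ℝ)| := by exact_mod_cast Int.one_le_abs hk
        have a2 := abs_sub (p.1.1 0) (xx d (0, k) p)
        have a3 : p.1.1 0 - xx d (0, k) p = lev k * d := by simp only [xx]; ring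
        rw [a3, abs_mul, abs_of_pos hd] at a2
        nlinarith
  refine ⟨fun p hp => sup p ?_, fun p => ?_, up0, fun R => ⟨⟨fun p hp j h => ?_, fun p hp h => ?_⟩,
    fun j k hk => ?_⟩⟩
  · by_contra hn
    push Not at hn
    exact hp ⟨by linarith [hn.1], lat_le hc hn.1 hn.2⟩
  · have : ipc p.2 (shC (d2 (HT h0 h1 A d r) p)) =
        r ^ 2 * ∑ f : Fa n K, A f.1 p.1 * SW.hr h0 h1 (sn d (p.1.2 f.1)) (pab d r f p) := by
      rw [ipc, Finset.mul_sum]
      exact Finset.sum_congr rfl fun f _ => hC.rdot p f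
    rw [this, abs_mul, abs_of_nonneg (sq_nonneg r), mul_comm]
    exact mul_le_mul_of_nonneg_right (b0 (r, p) trivial) (sq_nonneg r)
  · exact up p j (by linarith [f_le hp j]) (Or.inr fun k => (h (lev k)).le)
  · rcases h with h | h
    · exact up0 p h
    · exact up p 0 (by linarith [f_le hp 0]) (Or.inl (hA.supp0 p.1 h))
  obtain ⟨k', rfl⟩ := exists_level hc hk
  have hE : ∀ p : Q n × (Fa n K → ℂ),
      |r ^ 2 * (Ecut h0 h1 A d r j p + Esin h1 A d r j p) / LL d (j, k')| ≤ r ^ 2 * c2 := fun p => by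
    rw [mul_div_assoc, abs_mul, abs_of_nonneg (sq_nonneg r)]
    exact mul_le_mul_of_nonneg_left (b2 (j, k') (r, p) trivial) (sq_nonneg r)
  have dp := fun p => ((hC.smp (j, k')).differentiable (by simp) p).hasFDerivAt
  refine ⟨fun p => τ (pab d r (j, k') p), fun p => (pab d r (j, k') p).1, (δ / 3) ^ 2, δ,
    min ((δ / 3) ^ 2 / 2) (δ / 2), hl.smτ.comp (hC.smp _), contDiff_fst.comp (hC.smp _),
    by positivity, fun p hp h1' h2 => ?_, fun p hp h1' h2 => ?_, fun p hp h1' h2 h3 => ?_,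
    fun p hp h1' h2 => ?_⟩
  · have a1 := hC.radp (j, k') p
    have a2 := add_one_le_exp (p.1.1 j - lev k' * d)
    have a3 := W_eq hr hC (j, k') p
    have a4 : W r (j, k') p ≤ (δ / 4) ^ 2 :=
      W_le (d := d) (w := w) hr _ ⟨hp.1, by rw [← mul_pow]; exact h2⟩
    simp only [rad] at a1
    have a5 : 1 ≤ (pab d r (j, k') p).1 := by nlinarith
    refine ⟨?_, by linarith⟩
    beta_reduce
    rw [(hl.top _ a5).2.1, ← a3]
    nlinarith
  · rcases le_total 1 (pab d r (j, k') p).1 with h | h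
    · have a1 := hC.radp (j, k') p
      simp only [rad] at a1
      have a2 : 1 ≤ exp (p.1.1 j - lev k' * d) := by
        nlinarith [sq_nonneg (pab d r (j, k') p).2.1, sq_nonneg (pab d r (j, k') p).2.2]
      have a3 := one_le_exp_iff.1 a2
      linarith
    · have := (abs_lt.1 (near_of_rad hc hC (hl.tube _ h1' h2 h))).1
      simp only [xx] at this
      linarith
  · have a0 : fderiv ℝ (fun p => τ (pab d r (j, k') p)) p (XM (HT h0 h1 A d r) p) =
        fderiv ℝ τ (pab d r (j, k') p) (fderiv ℝ (pab d r (j, k')) p (XM (HT h0 h1 A d r) p)) := by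
      have := ((hl.smτ.differentiable (by simp) _).hasFDerivAt.comp p (dp p)).fderiv
      exact congrArg (fun L : _ →L[ℝ] ℝ => L (XM (HT h0 h1 A d r) p)) this
    rw [a0]
    refine (min_le_left _ _).trans ?_
    rcases le_total 1 (pab d r (j, k') p).1 with h | h
    · obtain ⟨t1, t2, t3⟩ := hl.top _ h
      have a1 := hC.wdot p (j, k')
      simp only [SW.hr, (t1 _).1, (t1 _).2] at a1
      rw [t3, a1]
      beta_reduce at h1'
      nlinarith [sq_nonneg (δ / 3)]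
    · have a1 := near_of_rad hc hC (hl.tube _ h1'.le h2 h)
      have a2 := hA.full j p.1 (h3 a1.le)
      rw [(bandX hc hl hA hC (f := (j, k')) (by linarith)).2, a2]
      refine le_trans ?_ (hτ _ h1'.le h2 h _ _)
      have a3 := mul_le_mul (le_abs_self Cτ) (hE p) (abs_nonneg _) (abs_nonneg _)
      beta_reduce at h1'
      rw [h1']
      linarith
  · have a0 : fderiv ℝ (fun p => (pab d r (j, k') p).1) p (XM (HT h0 h1 A d r) p) =
        (fderiv ℝ (pab d r (j, k')) p (XM (HT h0 h1 A d r) p)).1 := by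
      rw [(dp p).fst.fderiv]; rfl
    beta_reduce at h2
    have a1 := near_of_rad hc hC (hl.tube _ h1' h2.ge (by linarith))
    rw [a0, (bandX hc hl hA hC (f := (j, k')) (by linarith)).2]
    have a2 := (abs_le.1 (hE p)).2
    have a3 := min_le_right ((δ / 3) ^ 2 / 2) (δ / 2)
    simp only [XL]
    linarith

end Pool.Agent.MP_6d695c_gt.SW

end MrgPart5

-- marker of a merged file
example : 731051 + 98404 = 731051 + 98404 := rfl
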