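import Pool.Agent.MP_6d695c_gt.sw.Base
import Mathlib.Analysis.Calculus.Deriv.Prod

-- ======== part 0: formerly Pool.Agent.MP_6d695c_gt.sw.Sect
section MrgPart0

/-! PROJECT SW, row SECT: disjoint boxes whose cores meet every orbit. -/

open scoped ContDiff Topology
open Set Metric Filter Real

namespace Pool.Agent.MP_6d695c_gt.SW

namespace Sect

theorem ext_compact {α β : Type*} [TopologicalSpace α] (Inv : Set β → Prop) (cov : β → α → Prop)
    {K : Set α} (hK : IsCompact K)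
    (h : ∀ x ∈ K, ∃ W ∈ 𝓝[K] x, ∀ S, Inv S → ∃ S', Inv S' ∧ S ⊆ S' ∧ ∀ y ∈ W, ∃ B ∈ S', cov B y) :
    ∀ S, Inv S → ∃ S', Inv S' ∧ S ⊆ S' ∧ ∀ y ∈ K, ∃ B ∈ S', cov B y := by
  refine hK.induction_on
    (p := fun W => ∀ S, Inv S → ∃ S', Inv S' ∧ S ⊆ S' ∧ ∀ y ∈ W, ∃ B ∈ S', cov B y)
    (fun S hS => ⟨S, hS, Subset.rfl, fun _ hy => hy.elim⟩) (fun s t hst ht S hS => ?_)
    (fun s t hs ht S hS => ?_) h
  · obtain ⟨S', h1, h2, h3⟩ := ht S hS
    exact ⟨S', h1, h2, fun y hy => h3 y (hst hy)⟩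
  · obtain ⟨S', h1, h2, h3⟩ := hs S hS
    obtain ⟨S'', h4, h5, h6⟩ := ht S' h1
    refine ⟨S'', h4, h2.trans h5, fun y hy => hy.elim (fun hy => ?_) (h6 y)⟩
    obtain ⟨B, hB, hc⟩ := h3 y hy
    exact ⟨B, h5 hB, hc⟩

section Model
variable {n : ℕ}

/-- coordinates centred at `c` -/
noncomputable def Rf (c q : Q n) : Q n := (q.1 - c.1, fun j => exp (c.1 j) * (q.2 j - c.2 j))

/-- the inverse change of coordinates -/
noncomputable def Ri (c q : Q n) : Q n := (q.1 + c.1, fun j => exp (-c.1 j) * q.2 j + c.2 j)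

/-- the linear part -/
noncomputable def Lc (c : Q n) : Q n →L[ℝ] Q n :=
  (ContinuousLinearMap.fst ℝ _ _).prod (ContinuousLinearMap.pi fun j =>
    exp (c.1 j) • ((ContinuousLinearMap.proj j : (Fin (n + 1) → ℝ) →L[ℝ] ℝ).comp
      (ContinuousLinearMap.snd ℝ _ _)))

theorem Lc_apply (c q : Q n) : Lc c q = (q.1, fun j => exp (c.1 j) * q.2 j) := rfl

theorem Rf_eq (c : Q n) : Rf c = fun q => Lc c q - Lc c c := by
  ext q j <;> simp [Rf, Lc_apply, mul_sub]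

theorem Rf_Ri (c q : Q n) : Rf c (Ri c q) = q := by
  ext j <;> simp [Rf, Ri, ← mul_assoc, ← exp_add]

theorem Ri_Rf (c q : Q n) : Ri c (Rf c q) = q := by
  ext j <;> simp [Rf, Ri, ← mul_assoc, ← exp_add]

theorem sm_Rf (c : Q n) : ContDiff ℝ ∞ (Rf c) := by
  rw [Rf_eq]; exact (Lc c).contDiff.sub contDiff_const

theorem sm_Ri (c : Q n) : ContDiff ℝ ∞ (Ri c) := by
  unfold Ri
  fun_prop

theorem cont_Rf : Continuous fun p : Q n × Q n => Rf p.1 p.2 := by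
  unfold Rf
  fun_prop

theorem cont_Ri : Continuous fun p : Q n × Q n => Ri p.1 p.2 := by
  unfold Ri
  fun_prop

theorem Lc_sh (c q : Q n) (α : Q n →L[ℝ] ℝ) : Lc c (sh q (α.comp (Lc c))) = sh (Rf c q) α := by
  have h1 : ∀ j, Lc c (0, Pi.single j 1) = exp (c.1 j) • ((0, Pi.single j 1) : Q n) := fun j => by
    ext i
    · simp [Lc_apply]
    · by_cases h : i = j
      · simp [Lc_apply, h]
      · simp [Lc_apply, h]
  have h2 : ∀ j, Lc c (Pi.single j 1, 0) = (Pi.single j 1, 0) := fun j => by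
    ext i <;> simp [Lc_apply]
  rw [Lc_apply c (sh _ _)]
  ext j
  · simp only [sh, ContinuousLinearMap.comp_apply, h1, map_smul, Rf,
      Pi.sub_apply, smul_eq_mul, neg_sub, exp_sub, exp_neg]
    ring
  · simp only [sh, ContinuousLinearMap.comp_apply, h2, Rf,
      Pi.sub_apply, neg_sub, exp_sub, exp_neg]
    ring

theorem lat_lat (q : Q n) : lat (lat q) = lat q := by
  ext j <;> simp [lat]

theorem lat_add (q : Q n) (v : ℝ) : lat q + v • one n = q + (v - q.1 0) • one n := by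
  ext j
  · simp [lat, one]; ring
  · simp [lat, one]

theorem lev_add (q : Q n) (v : ℝ) : (q + v • one n).1 0 = q.1 0 + v := by
  simp [one]

theorem lev_lat (q : Q n) : (lat q).1 0 = 0 := by
  simp [lat]

theorem thick {W : Set (Q n)} (hW : IsOpen W) {b : ℝ} (h : cbox n 0 b ⊆ W) :
    ∀ᶠ t in 𝓝 (0 : ℝ), cbox n (10 * t) b ⊆ W := by
  have h1 : ∀ᶠ t in 𝓝 (0 : ℝ), ∀ q ∈ cbox n 0 b, q + t • one n ∈ W :=
    (isCompact_cbox 0 b).eventually_forall_of_forall_eventually fun q hq =>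
      (show Continuous fun z : ℝ × Q n => z.2 + z.1 • one n by fun_prop).continuousAt.eventually
        (hW.mem_nhds (by simpa using h hq))
  obtain ⟨δ, hδ, h2⟩ := Metric.eventually_nhds_iff.1 h1
  filter_upwards [Iio_mem_nhds (show (0 : ℝ) < δ / 10 by positivity)] with t ht q hq
  have h3 := h2 (y := q.1 0) (by
    rw [Real.dist_eq, sub_zero]; linarith [hq.1, mem_Iio.1 ht]) (lat q)
    ⟨by rw [lev_lat, abs_zero], by rw [lat_lat]; exact hq.2⟩
  rwa [lat_add, sub_self, zero_smul, add_zero] at h3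

theorem small {W : Set (Q n)} (hW : W ∈ 𝓝 (0 : Q n)) :
    ∃ a, 0 < a ∧ a ≤ 1 / 4 ∧ cbox n a a ⊆ W := by
  obtain ⟨ε, hε, h⟩ := Metric.mem_nhds_iff.1 hW
  refine ⟨min (ε / 4) (1 / 4), by positivity, min_le_right _ _, fun q hq => h ?_⟩
  rw [mem_ball_zero_iff]
  linarith [norm_le_lat q, hq.1, hq.2, min_le_left (ε / 4) (1 / 4)]

end Model

variable {V : Type} [NormedAddCommGroup V] [NormedSpace ℝ V] {M : Set V}
  {l : V → V →L[ℝ] ℝ} {Pi : V → (V →L[ℝ] ℝ) →L[ℝ] V} {φ : V → ℝ} {s : ℝ} {d n : ℕ}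
  {Ψ : Q n → V} {κ : V → Q n} {O : Set (Q n)} {N : Set V} {Y : V → V} {fl : ℝ → V → V}

theorem recentre (h : LCh M l Pi Ψ κ O N) (c : Q n) :
    LCh M l Pi (fun q => Ψ (Ri c q)) (fun x => Rf c (κ x)) (Ri c ⁻¹' O) N := by
  have hd : ∀ x, fderiv ℝ (fun x => Rf c (κ x)) x = (Lc c).comp (fderiv ℝ κ x) := fun x => by
    rw [Rf_eq]
    exact (((Lc c).hasFDerivAt.comp x
      (h.sκ.differentiable (by simp) x).hasFDerivAt).sub_const _).fderiv
  refine ⟨⟨h.par.oO.preimage (sm_Ri c).continuous, h.par.oN,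
    h.par.sg.comp (sm_Ri c).contDiffOn fun _ hq => hq, ((sm_Rf c).comp h.sκ).contDiffOn,
    fun y hy => ?_, fun x hx hN => ?_⟩, (sm_Rf c).comp h.sκ, fun x hx hN => ?_,
    fun x hx hN α => ?_⟩
  · obtain ⟨h1, h2, h3⟩ := h.par.gm _ hy
    exact ⟨h1, h2, by rw [h3, Rf_Ri]⟩
  · rw [mem_preimage, Ri_Rf]
    exact h.par.rm x hx hN
  · rw [hd, ContinuousLinearMap.comp_apply, h.hZ x hx hN]
    ext j <;> simp [Lc_apply, one]
  · rw [hd, ContinuousLinearMap.comp_apply, ← ContinuousLinearMap.comp_assoc, h.hP x hx hN, Lc_sh]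

theorem open_pre (h : LCh M l Pi Ψ κ O N) {U : Set V} (hU : IsOpen U) : IsOpen (O ∩ Ψ ⁻¹' U) :=
  h.par.sg.continuousOn.isOpen_inter_preimage h.par.oO hU

theorem flow (hA : Amb (Euc d) M l Pi φ s) (hf : IsFlow Y fl)
    (hY : ∀ x ∈ M, φ x ≤ 2 → Y x = Pi x (l x)) (h : LCh M l Pi Ψ κ O N) {q : Q n} {t : ℝ}
    (hq : ∀ u ∈ uIcc 0 t, q + u • one n ∈ O ∩ Ψ ⁻¹' {x | φ x < 1}) :
    fl t (Ψ q) = Ψ (q + t • one n) :=
  h.flow hA hf fun u hu => ⟨(hq u hu).1, hY _ (h.par.gm _ (hq u hu).1).1 (by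
    have : φ (Ψ (q + u • one n)) < 1 := (hq u hu).2
    linarith)⟩

/-- the flat piece -/
def Pc (B : Bx V) : Set V := B.Ψ '' cbox B.n 0 (5 * B.w)

variable (M l Pi φ) in
/-- a good piece -/
structure GP (B : Bx V) : Prop where
  wpos : 0 < B.w
  wle : B.w ≤ 1 / 20
  ch : LCh M l Pi B.Ψ B.κ B.O B.N
  sub : cbox B.n 0 (5 * B.w) ⊆ B.O ∩ B.Ψ ⁻¹' {x | φ x < 1}

variable (M l Pi φ) in
/-- a finite family of disjoint good pieces -/
def Fam (S : Set (Bx V)) : Prop :=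
  S.Finite ∧ (∀ B ∈ S, GP M l Pi φ B) ∧ S.Pairwise fun B B' => Disjoint (Pc B) (Pc B')

variable (fl) in
/-- the orbit of `y` meets the core -/
def Cov (B : Bx V) (y : V) : Prop :=
  ∃ u ∈ Icc (-(1 / 2) : ℝ) (1 / 2), ∃ q ∈ cbox B.n 0 (B.w / 2), fl u y = B.Ψ q

theorem GP.cpt {B : Bx V} (h : GP M l Pi φ B) : IsCompact (Pc B) :=
  (isCompact_cbox _ _).image_of_continuousOn
    (h.ch.par.sg.continuousOn.mono fun _ hq => (h.sub hq).1)

theorem GP.thin (hA : Amb (Euc d) M l Pi φ s) (hf : IsFlow Y fl)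
    (hY : ∀ x ∈ M, φ x ≤ 2 → Y x = Pi x (l x)) {B : Bx V} (h : GP M l Pi φ B) (z : V) :
    Dense {t | fl t z ∉ Pc B} := by
  intro t
  by_cases ht : fl t z ∈ Pc B
  swap
  · exact subset_closure ht
  obtain ⟨q, hq, e⟩ := ht
  have h1 : ∀ᶠ u in 𝓝 (0 : ℝ), q + u • one B.n ∈ B.O ∩ B.Ψ ⁻¹' {x | φ x < 1} :=
    (show Continuous fun u : ℝ => q + u • one B.n by fun_prop).continuousAt.eventually
      ((open_pre h.ch (isOpen_lt hA.sφ.continuous continuous_const)).mem_nhds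
        (by simpa using h.sub hq))
  obtain ⟨δ, hδ, h2⟩ := Metric.eventually_nhds_iff.1 h1
  have h3 : Tendsto (fun u : ℝ => u + t) (𝓝[≠] 0) (𝓝 t) := by
    simpa using ((continuous_add_const t).tendsto 0).mono_left nhdsWithin_le_nhds
  refine mem_closure_of_tendsto h3 ?_
  filter_upwards [self_mem_nhdsWithin, mem_nhdsWithin_of_mem_nhds (ball_mem_nhds (0 : ℝ) hδ)]
    with u hu0 hu
  rintro ⟨q', hq', e'⟩
  rw [hf.add, ← e, flow hA hf hY h.ch fun v hv =>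
    h2 ((abs_sub_left_of_mem_uIcc hv).trans_lt hu)] at e'
  have h4 := congrArg B.κ e'
  rw [(h.ch.par.gm _ (h.sub hq').1).2.2, (h.ch.par.gm _ (h2 hu).1).2.2] at h4
  have h5 := abs_nonpos_iff.1 hq'.1
  rw [h4, lev_add, abs_nonpos_iff.1 hq.1, zero_add] at h5
  exact hu0 h5

theorem loc (hA : Amb (Euc d) M l Pi φ s) (hf : IsFlow Y fl)
    (hY : ∀ x ∈ M, φ x ≤ 2 → Y x = Pi x (l x)) (h : LCh M l Pi Ψ κ O N) {a : ℝ} (ha : 0 < a)
    (ha' : a ≤ 1 / 4) (hs : cbox n a a ⊆ O ∩ Ψ ⁻¹' {x | φ x < 1}) (S : Set (Bx V))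
    (hS : Fam M l Pi φ S) :
    ∃ S', Fam M l Pi φ S' ∧ S ⊆ S' ∧ ∀ y ∈ cbox n a a, ∃ B ∈ S', Cov fl B (Ψ y) := by
  have hfl : ∀ y ∈ cbox n a a, ∀ v, |v| ≤ a →
      lat y + v • one n ∈ cbox n a a ∧ fl (v - y.1 0) (Ψ y) = Ψ (lat y + v • one n) := by
    intro y hy v hv
    refine ⟨⟨by rwa [lev_add, lev_lat, zero_add], by rw [lat_add_one, lat_lat]; exact hy.2⟩, ?_⟩
    rw [lat_add]
    refine flow hA hf hY h fun u hu => hs ⟨?_, by rw [lat_add_one]; exact hy.2⟩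
    rw [lev_add]
    have h1 := abs_le.1 hy.1
    have h2 := abs_le.1 hv
    rcases mem_uIcc.1 hu with h3 | h3 <;> exact abs_le.2 ⟨by linarith, by linarith⟩
  have hcl : IsClosed (⋃ B ∈ S, Pc B) :=
    hS.1.isClosed_biUnion fun B hB => (hS.2.1 B hB).cpt.isClosed
  obtain ⟨S', ⟨h1, -⟩, h2, h3⟩ := ext_compact
    (fun S' => Fam M l Pi φ S' ∧ ∃ L : Set ℝ, L.Finite ∧ ∀ B ∈ S', B ∈ S ∨
      ∀ z ∈ Pc B, ∃ q ∈ O, q.1 0 ∈ L ∧ z = Ψ q) (fun B y => Cov fl B (Ψ y))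
    (isCompact_cbox (n := n) a a) (fun x hx => by
      have hc : Continuous fun t => fl t (Ψ x) :=
        hf.sm.continuous.comp (continuous_id.prodMk continuous_const)
      obtain ⟨t, t1, t2⟩ := (dense_biInter_of_isOpen (f := fun B => {t | fl t (Ψ x) ∉ Pc B})
        (fun B hB => (hS.2.1 B hB).cpt.isClosed.isOpen_compl.preimage hc) hS.1.countable
        fun B hB => (hS.2.1 B hB).thin hA hf hY _).exists_mem_open
        (isOpen_Ioo (a := -a - x.1 0) (b := a - x.1 0)) (nonempty_Ioo.2 (by linarith))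
      obtain ⟨u, rfl⟩ : ∃ u, t = u - x.1 0 := ⟨t + x.1 0, by ring⟩
      have hu : |u| < a := abs_lt.2 ⟨by linarith [t2.1], by linarith [t2.2]⟩
      obtain ⟨x1, x2⟩ := hfl x hx u hu.le
      have hG : IsOpen (O ∩ Ψ ⁻¹' ({x | φ x < 1} ∩ (⋃ B ∈ S, Pc B)ᶜ)) :=
        open_pre h ((isOpen_lt hA.sφ.continuous continuous_const).inter hcl.isOpen_compl)
      have e1 : ∀ᶠ p : ℝ × Q n in 𝓝 (u, 0), Ri (lat x + p.1 • one n) p.2 ∈
          O ∩ Ψ ⁻¹' ({x | φ x < 1} ∩ (⋃ B ∈ S, Pc B)ᶜ) := by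
        refine (cont_Ri.comp (show Continuous fun p : ℝ × Q n => (lat x + p.1 • one n, p.2) by
          fun_prop)).continuousAt.eventually (hG.mem_nhds ?_)
        have : Ri (lat x + u • one n) 0 = lat x + u • one n := by ext j <;> simp [Ri]
        simp only [Function.comp_apply, this]
        refine ⟨(hs x1).1, (hs x1).2, fun hm => ?_⟩
        obtain ⟨B, hB, hm⟩ := mem_iUnion₂.1 hm
        exact mem_iInter₂.1 t1 B hB (x2 ▸ hm)
      obtain ⟨I, hI, W, hW, e1⟩ := mem_nhds_prod_iff.1 e1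
      obtain ⟨b, b0, b1, b2⟩ := small hW
      have e2 : ∀ᶠ p : ℝ × Q n in 𝓝 (u, x),
          ‖lat (Rf (lat x + p.1 • one n) (lat p.2 + p.1 • one n))‖ < b / 5 / 2 := by
        have c1 := continuous_lat (n := n)
        refine (c1.comp (cont_Rf.comp (show Continuous fun p : ℝ × Q n =>
          (lat x + p.1 • one n, lat p.2 + p.1 • one n) by fun_prop))).norm.continuousAt.eventually
          (Iio_mem_nhds ?_)
        have : lat (Rf (lat x + u • one n) (lat x + u • one n)) = 0 := by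
          ext j <;> simp [Rf, lat]
        simp only [Function.comp_apply, this, norm_zero]
        positivity
      obtain ⟨I', hI', W', hW', e2⟩ := mem_nhds_prod_iff.1 e2
      refine ⟨W' ∩ cbox n a a, inter_mem (mem_nhdsWithin_of_mem_nhds hW') self_mem_nhdsWithin, ?_⟩
      rintro S' ⟨f1, L, l1, l2⟩
      obtain ⟨v, ⟨⟨v1, v2⟩, v3⟩, v4⟩ := (infinite_of_mem_nhds u (inter_mem (inter_mem hI hI')
        (Ioo_mem_nhds (abs_lt.1 hu).1 (abs_lt.1 hu).2))).exists_notMem_finite l1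
      have hb : ∀ q ∈ cbox n 0 (5 * (b / 5)), Ri (lat x + v • one n) q ∈
          O ∩ Ψ ⁻¹' ({x | φ x < 1} ∩ (⋃ B ∈ S, Pc B)ᶜ) ∧ (Ri (lat x + v • one n) q).1 0 = v :=
        fun q hq => ⟨e1 (mk_mem_prod v1 (b2 ⟨hq.1.trans b0.le, hq.2.trans (by linarith)⟩)), by
          show q.1 0 + (lat x + v • one n).1 0 = v
          rw [lev_add, lev_lat, abs_nonpos_iff.1 hq.1, zero_add, zero_add]⟩
      let B : Bx V := ⟨n, fun q => Ψ (Ri (lat x + v • one n) q),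
        fun z => Rf (lat x + v • one n) (κ z), Ri (lat x + v • one n) ⁻¹' O, N, b / 5⟩
      have hdis : ∀ B' ∈ S', Disjoint (Pc B) (Pc B') := fun B' hB' => by
        rw [Set.disjoint_left]
        rintro _ ⟨q, hq, rfl⟩ hz
        obtain ⟨g1, g2⟩ := hb q hq
        rcases l2 B' hB' with g3 | g3
        · exact g1.2.2 (mem_iUnion₂.2 ⟨B', g3, hz⟩)
        · obtain ⟨q', g4, g5, g6⟩ := g3 _ hz
          have g7 := congrArg κ g6
          rw [(h.par.gm _ g4).2.2, show κ (B.Ψ q) = _ from (h.par.gm _ g1.1).2.2] at g7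
          exact v4 (by rwa [← g7, g2] at g5)
      refine ⟨insert B S', ⟨⟨f1.1.insert B, ?_, f1.2.2.insert fun B' hB' _ =>
        ⟨hdis B' hB', (hdis B' hB').symm⟩⟩, insert v L, l1.insert v, ?_⟩, subset_insert _ _,
        fun y hy => ⟨B, mem_insert _ _, v - y.1 0, ?_,
          Rf (lat x + v • one n) (lat y + v • one n), ⟨?_, (e2 (mk_mem_prod v2 hy.1)).le⟩, ?_⟩⟩
      · rintro B' (rfl | hB')
        · exact ⟨show 0 < b / 5 by positivity, show b / 5 ≤ 1 / 20 by linarith, recentre h _,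
            fun q hq => ⟨(hb q hq).1.1, (hb q hq).1.2.1⟩⟩
        · exact f1.2.1 B' hB'
      · rintro B' (rfl | hB')
        · right
          rintro _ ⟨q, hq, rfl⟩
          exact ⟨_, (hb q hq).1.1, Or.inl (hb q hq).2, rfl⟩
        · refine (l2 B' hB').imp_right fun g z hz => ?_
          obtain ⟨q, g1, g2, g3⟩ := g z hz
          exact ⟨q, g1, Or.inr g2, g3⟩
      · have := abs_le.1 hy.2.1
        exact ⟨by linarith [v3.1], by linarith [v3.2]⟩
      · show |(lat y + v • one n).1 0 - (lat x + v • one n).1 0| ≤ 0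
        rw [lev_add, lev_add, lev_lat, lev_lat, sub_self, abs_zero]
      · show _ = Ψ (Ri _ _)
        rw [Ri_Rf, (hfl y hy.2 v (abs_lt.2 v3).le).2])
    S ⟨hS, ∅, finite_empty, fun B hB => Or.inl hB⟩
  exact ⟨S', h1, h2, h3⟩

end Sect

open Sect in
theorem sect (darb : DarbStmt) : SectStmt := by
  intro V _ _ _ d M l Pi φ s Y fl C h₀ hA hf hY hC hCM h0
  obtain ⟨S, ⟨s1, s2, s3⟩, -, s4⟩ := ext_compact (Fam M l Pi φ) (Cov fl) hC (fun p hp => by
    obtain ⟨p1, p2, p3⟩ := hCM p hp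
    obtain ⟨n, Ψ, κ, O, N, h, hN, hκ⟩ := darb V d M l Pi φ s hA p p1 p3
    obtain ⟨r1, r2⟩ := h.par.rm p p1 hN
    rw [hκ] at r1 r2
    obtain ⟨a, a0, a1, a2⟩ := small
      ((open_pre h (isOpen_lt hA.sφ.continuous continuous_const)).mem_nhds
        (show (0 : Q n) ∈ O ∩ Ψ ⁻¹' {x | φ x < 1} from ⟨r1, by
          rw [mem_preimage, r2]; exact p2⟩))
    refine ⟨C ∩ (N ∩ κ ⁻¹' obox n a a), inter_mem_nhdsWithin _ ((h.par.oN.inter
      ((isOpen_obox a a).preimage h.sκ.continuous)).mem_nhds ⟨hN, ?_⟩), fun S hS => ?_⟩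
    · rw [mem_preimage, hκ]
      exact ⟨by simpa using a0, by rw [← latL_apply, map_zero, norm_zero]; exact a0⟩
    · obtain ⟨S', g1, g2, g3⟩ := loc hA hf hY h a0 a1 a2 S hS
      refine ⟨S', g1, g2, fun y hy => ?_⟩
      have := g3 (κ y) ⟨hy.2.2.1.le, hy.2.2.2.le⟩
      rwa [(h.par.rm y (hCM y hy.1).1 hy.2.1).2] at this)
    ∅ ⟨finite_empty, fun _ h => h.elim, pairwise_empty _⟩
  obtain ⟨m, bx, hinj, rfl⟩ := s1.fin_param
  have g : ∀ b, GP M l Pi φ (bx b) := fun b => s2 _ (mem_range_self b)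
  have e1 : ∀ᶠ t in 𝓝 (0 : ℝ), ∀ b, cbox (bx b).n (10 * t) (5 * (bx b).w) ⊆
      (bx b).O ∩ (bx b).Ψ ⁻¹' {x | φ x < 1} := eventually_all.2 fun b =>
    thick (open_pre (g b).ch (isOpen_lt hA.sφ.continuous continuous_const)) (g b).sub
  have e2 : ∀ᶠ t in 𝓝 (0 : ℝ), ∀ b b', b ≠ b' → ∀ q ∈ cbox (bx b).n (10 * t) (5 * (bx b).w),
      ∀ q' ∈ cbox (bx b').n (10 * t) (5 * (bx b').w), (bx b).Ψ q ≠ (bx b').Ψ q' := by
    refine eventually_all.2 fun b => eventually_all.2 fun b' => eventually_all.2 fun hb => ?_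
    obtain ⟨U, U', u1, u2, u3, u4, u5⟩ := SeparatedNhds.of_isCompact_isCompact (g b).cpt (g b').cpt
      (s3 (mem_range_self b) (mem_range_self b') fun e => hb (hinj e))
    filter_upwards [thick (open_pre (g b).ch u1) fun q hq => ⟨((g b).sub hq).1, u3 ⟨q, hq, rfl⟩⟩,
      thick (open_pre (g b').ch u2) fun q hq => ⟨((g b').sub hq).1, u4 ⟨q, hq, rfl⟩⟩]
      with t t1 t2 q hq q' hq' e
    exact Set.disjoint_left.1 u5 (t1 hq).2 (by rw [e]; exact (t2 hq').2)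
  obtain ⟨t, ⟨⟨t1, t2⟩, t3, t4⟩, t5⟩ := (((e1.and e2).and ((eventually_le_nhds h0).and
    (eventually_le_nhds (show (0 : ℝ) < 1 / 100 by norm_num)))).filter_mono
    (nhdsWithin_le_nhds (s := Ioi 0))).and self_mem_nhdsWithin |>.exists
  refine ⟨m, bx, t, t3, ⟨t5, t4, fun b => (g b).wpos, fun b => (g b).wle, fun b => (g b).ch,
    fun b q hq => (t1 b hq).1, fun b q hq => (t1 b hq).2, t2⟩, fun y hy => ?_⟩
  obtain ⟨_, ⟨b, rfl⟩, hb⟩ := s4 y hy
  exact ⟨b, hb⟩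

end Pool.Agent.MP_6d695c_gt.SW

end MrgPart0

-- ======== part 1: formerly Pool.Agent.MP_6d695c_gt.sw.Trap
section MrgPart1

-- ======== part 0: formerly Pool.Agent.MP_6d695c_gt.sw.TDyn
section MrgPart0

/-! PROJECT SW: displacement and trapping of the curves of the trap. -/

open scoped ContDiff Topology
open Set Metric Filter Real

namespace Pool.Agent.MP_6d695c_gt.SW

namespace TD

theorem offband {d x : ℝ} (hd : 0 < d) (m : ℤ) (h1 : (m + 1 / 16) * d < x)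
    (h2 : x < (m + 15 / 16) * d) (m' : ℤ) : d / 16 < |x - m' * d| := by
  rcases le_or_gt m' m with h | h
  · have : (m' : ℝ) * d ≤ m * d := by gcongr
    exact lt_abs.2 (Or.inl (by linarith))
  · have h3 : (m : ℝ) + 1 ≤ m' := by exact_mod_cast h
    have : ((m : ℝ) + 1) * d ≤ m' * d := by gcongr
    exact lt_abs.2 (Or.inr (by linarith))

theorem le_left {f : ℝ → ℝ} {s e v : ℝ} (hse : s < e) (hf : ContinuousOn f (Icc s e))
    (h : ∀ x ∈ Ioc s e, v ≤ f x) : v ≤ f s := by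
  have hev : ∀ᶠ x in 𝓝[>] s, x ∈ Ioc s e := Ioc_mem_nhdsGT hse
  have hsub : 𝓝[>] s ≤ 𝓝[Icc s e] s :=
    nhdsWithin_le_iff.2 (mem_of_superset hev fun x hx => ⟨hx.1.le, hx.2⟩)
  exact ge_of_tendsto ((hf s ⟨le_rfl, hse.le⟩).tendsto.mono_left hsub) (hev.mono h)

/-- a function that grows with speed about one outside the bands around the lattice -/
structure Lad (d : ℝ) (f : ℝ → ℝ) (a b : ℝ) : Prop where
  cont : ContinuousOn f (Icc a b)
  up : ∀ t ∈ Ico a b, (∀ m : ℤ, d / 16 < |f t - m * d|) → RD f t fun v => 1 / 2 ≤ v ∧ v ≤ 3 / 2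

section Lad
variable {d : ℝ} {f : ℝ → ℝ} {a b : ℝ}

theorem Lad.mono (h : Lad d f a b) {s t : ℝ} (hs : a ≤ s) (ht : t ≤ b) : Lad d f s t :=
  ⟨h.cont.mono (Icc_subset_Icc hs ht), fun x hx => h.up x ⟨hs.trans hx.1, hx.2.trans_le ht⟩⟩

theorem Lad.back (h : Lad d f a b) {v : ℝ} (hv : ∀ m : ℤ, d / 16 < |v - m * d|) (hb : f b < v) :
    ∀ t ∈ Icc a b, f t < v :=
  fence_back h.cont (fun t ht e => (h.up t ht (e ▸ hv)).mono fun a h => by linarith [h.1]) hb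

theorem Lad.fwd (h : Lad d f a b) {v : ℝ} (hv : ∀ m : ℤ, d / 16 < |v - m * d|) (ha : v ≤ f a) :
    ∀ t ∈ Icc a b, v ≤ f t :=
  fence_up h.cont (fun t ht e => (h.up t ht (e ▸ hv)).mono fun a h => by linarith [h.1]) ha

theorem Lad.le_add (h : Lad d f a b) (hd : 0 < d) (hab : a ≤ b) : f a ≤ f b + d := by
  have h1 := Int.floor_le (f b / d + 1 / 2)
  have h2 := Int.lt_floor_add_one (f b / d + 1 / 2)
  set m := ⌊f b / d + 1 / 2⌋
  have e : f b / d * d = f b := div_mul_cancel₀ _ hd.ne'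
  have h3 := mul_le_mul_of_nonneg_right h1 hd.le
  have h4 := mul_lt_mul_of_pos_right h2 hd
  have := h.back (v := (m + 1 / 2) * d) (offband hd m (by nlinarith) (by nlinarith))
    (by linarith) a ⟨le_rfl, hab⟩
  linarith

theorem Lad.time (hd : 0 < d) (N : ℕ) : ∀ (m : ℤ) (a : ℝ), Lad d f a b → a ≤ b →
    f a ≤ (m + 1 / 8) * d → (m + N - 1 / 8) * d ≤ f b → N * (d / 2) ≤ b - a := by
  induction N with
  | zero => intro m a _ hab _ _; simpa using hab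
  | succ N ih =>
    intro m a h hab h1 h2
    have hN : 0 ≤ (N : ℝ) * d := by positivity
    push_cast at h2 ⊢
    obtain ⟨s, t, h3, h4, h5, h6, h7, h8⟩ := cross_up (u := (m + 1 / 8) * d)
      (v := (m + 7 / 8) * d) hab h.cont (by linarith) h1 (by linarith)
    have h9 := speed_le (m := 3 / 2) h4 (h.mono h3 h5).cont fun x hx =>
      (h.up x ⟨h3.trans hx.1, hx.2.trans_le h5⟩ (offband hd m
        (by linarith [(h8 x ⟨hx.1, hx.2.le⟩).1]) (by linarith [(h8 x ⟨hx.1, hx.2.le⟩).2]))).mono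
        fun a h => h.2
    have := ih (m + 1) t (h.mono (h3.trans h4) le_rfl) h5 (by push_cast; linarith)
      (by push_cast; linarith)
    linarith

theorem Lad.rise (h : Lad d f a b) (hd : 0 < d) (hab : a ≤ b) (ht : b - a ≤ 4 * d) :
    f b - f a ≤ 10 * d := by
  by_contra hc
  have h1 := Int.le_ceil (f a / d - 1 / 8)
  have h2 := Int.ceil_lt_add_one (f a / d - 1 / 8)
  set m := ⌈f a / d - 1 / 8⌉
  have e : f a / d * d = f a := div_mul_cancel₀ _ hd.ne'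
  have h3 := mul_le_mul_of_nonneg_right h1 hd.le
  have h4 := mul_lt_mul_of_pos_right h2 hd
  have := Lad.time hd 9 m a h hab (by linarith) (by push_cast; linarith)
  push_cast at this
  linarith

end Lad

theorem half_le_sn {d x : ℝ} (hd : 0 < d) (m : ℤ) (h1 : (2 * m + 1 / 6) * d ≤ x)
    (h2 : x ≤ (2 * m + 5 / 6) * d) : 1 / 2 ≤ sn d x := by
  have h3 : 2 * m + 1 / 6 ≤ x / d := (le_div_iff₀ hd).2 h1
  have h4 : x / d ≤ 2 * m + 5 / 6 := (div_le_iff₀ hd).2 h2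
  have e : π * x / d = π * (x / d - 2 * m) + m * (2 * π) := by ring
  have hp := pi_pos
  have h5 : π * (1 / 6) ≤ π * (x / d - 2 * m) := by gcongr; linarith
  have h6 : π * (x / d - 2 * m) ≤ π * (5 / 6) := by gcongr; linarith
  rw [sn, e, sin_add_int_mul_two_pi, ← sin_pi_div_six]
  rcases le_total (π * (x / d - 2 * m)) (π / 2) with h | h
  · exact sin_le_sin_of_le_of_le_pi_div_two (by linarith) h (by linarith)
  · rw [← sin_pi_sub (π * (x / d - 2 * m))]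
    exact sin_le_sin_of_le_of_le_pi_div_two (by linarith) (by linarith) (by linarith)

theorem bar_le {d : ℝ} {g L : ℝ → ℝ} {a b : ℝ} (hd : 0 < d) (hab : a ≤ b)
    (hg : ContinuousOn g (Icc a b)) (hL : ContinuousOn L (Icc a b))
    (ho : ∀ s ∈ Icc a b, ∀ t ∈ Icc a b, L s - L t ≤ d / 2)
    (hr : ∀ t ∈ Ico a b, 1 / 2 ≤ sn d (g t) → RD (fun s => g s + L s) t fun v => 0 ≤ v) :
    g a ≤ g b + 3 * d := by
  by_contra hc
  have h1 := Int.le_ceil (g b / d / 2 - 1 / 12)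
  have h2 := Int.ceil_lt_add_one (g b / d / 2 - 1 / 12)
  set m := ⌈g b / d / 2 - 1 / 12⌉
  have e : g b / d * d = g b := div_mul_cancel₀ _ hd.ne'
  have h3 := mul_le_mul_of_nonneg_right h1 hd.le
  have h4 := mul_lt_mul_of_pos_right h2 hd
  obtain ⟨s, t, h5, h6, h7, h8, h9, h10⟩ := cross_down (u := (2 * m + 1 / 6) * d)
    (v := (2 * m + 5 / 6) * d) hab hg (by linarith) (by linarith) (by linarith)
  have h11 := speed_ge (f := fun s => g s + L s) (m := 0) h6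
    ((hg.add hL).mono (Icc_subset_Icc h5 h7)) fun x hx =>
      hr x ⟨h5.trans hx.1, hx.2.trans_le h7⟩
        (half_le_sn hd m (h10 x ⟨hx.1, hx.2.le⟩).1 (h10 x ⟨hx.1, hx.2.le⟩).2)
  have := ho t ⟨h5.trans h6, h7⟩ s ⟨h5, h6.trans h7⟩
  linarith

variable {n : ℕ}

theorem isClosed_zone (c : ℝ) : IsClosed {q : Q n | Zone c q} := by
  simp only [Zone, ofPred_and, ofPred_forall]
  exact (isClosed_iInter fun i => isClosed_iInter fun _ =>
    isClosed_le (by fun_prop) continuous_const).inter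
    (isClosed_iInter fun i => isClosed_le (by fun_prop) continuous_const)

/-- what is used about a curve in the base -/
structure Dyn (d W : ℝ) (k₁ : ℕ) (q : ℝ → Q n) (a b : ℝ) : Prop where
  cont : ContinuousOn q (Icc a b)
  f0 : ∀ t ∈ Icc a b, |(q t).1 0| ≤ d
  lad : ∀ j, Lad d (fun s => (q s).1 j) a b
  up0 : ∀ t ∈ Ico a b, d / 16 < |(q t).1 0| ∨ ¬ Zone ((k₁ + 1) * d) (q t) →
    RD (fun s => (q s).1 0) t fun v => 1 / 2 ≤ v
  gg : ∀ s t, a ≤ s → s ≤ t → t ≤ b → ∀ j, |(q s).2 j - (q t).2 j| ≤ 3 * d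
  cat : ∀ (j : Fin (n + 1)) (k : ℤ), |(k : ℝ)| * d ≤ W → (k + 1 / 16) * d ≤ (q b).1 j →
    ∀ s ∈ Icc a b, (∀ x ∈ Ico s b, |(q x).1 j - k * d| ≤ d / 16 → Full d k₁ j (q x)) →
      (k - 1 / 16) * d ≤ (q s).1 j

section Dyn
variable {d W : ℝ} {k₁ : ℕ} {q : ℝ → Q n} {a b : ℝ}

theorem Dyn.fast (h : Dyn d W k₁ q a b) (hd : 0 < d) {s t : ℝ} (hs : a ≤ s) (hst : s ≤ t)
    (ht : t ≤ b) (hf : ∀ x ∈ Ioo s t, d / 16 < |(q x).1 0| ∨ ¬ Zone ((k₁ + 1) * d) (q x))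
    (i : Fin (n + 1)) : (q t).1 i - (q s).1 i ≤ 10 * d := by
  have h1 := speed_ge' (m := 1 / 2) hst ((h.lad 0).mono hs ht).cont fun x hx =>
    h.up0 x ⟨hs.trans hx.1.le, hx.2.trans_le ht⟩ (hf x hx)
  have h2 := abs_le.1 (h.f0 s ⟨hs, hst.trans ht⟩)
  have h3 := abs_le.1 (h.f0 t ⟨hs.trans hst, ht⟩)
  exact ((h.lad i).mono hs ht).rise hd hst (by linarith [h2.1, h3.2])

theorem Dyn.cat' (h : Dyn d W k₁ q a b) {j : Fin (n + 1)} {k : ℤ} (hk : |(k : ℝ)| * d ≤ W)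
    (hb : (k + 1 / 16) * d ≤ (q b).1 j) {s : ℝ} (hs : s ∈ Icc a b)
    (hF : ∀ x ∈ Ioo s b, |(q x).1 j - k * d| ≤ d / 16 → Full d k₁ j (q x)) :
    (k - 1 / 16) * d ≤ (q s).1 j := by
  rcases hs.2.eq_or_lt with e | hlt
  · exact h.cat j k hk hb s hs fun x hx => absurd (hx.1.trans_lt hx.2) (by simp [e])
  · exact le_left (f := fun s => (q s).1 j) hlt ((h.lad j).mono hs.1 le_rfl).cont fun x hx =>
      h.cat j k hk hb x ⟨hs.1.trans hx.1.le, hx.2⟩ fun y hy => hF y ⟨hx.1.trans_le hy.1, hy.2⟩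

/-- below a point of the zone the curve is caught in all directions -/
theorem Dyn.slow (h : Dyn d W k₁ q a b) (hd : 0 < d) (hW : (k₁ + 3) * d ≤ W) {a' c : ℝ}
    (ha : a ≤ a') (hac : a' ≤ c) (hc : c ≤ b) (h0 : |(q c).1 0| ≤ d / 16)
    (hZ : Zone ((k₁ + 1) * d) (q c)) (i : Fin (n + 1)) (hi : i ≠ 0) :
    (q c).1 i - (q a').1 i ≤ 12 * d := by
  have hk : ∀ j, ∃ k : ℤ, (k + 1 / 8) * d ≤ (q c).1 j ∧ (q c).1 j < (k + 9 / 8) * d := fun j => by
    have h1 := Int.floor_le ((q c).1 j / d - 1 / 8)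
    have h2 := Int.lt_floor_add_one ((q c).1 j / d - 1 / 8)
    have e : (q c).1 j / d * d = (q c).1 j := div_mul_cancel₀ _ hd.ne'
    have h3 := mul_le_mul_of_nonneg_right h1 hd.le
    have h4 := mul_lt_mul_of_pos_right h2 hd
    exact ⟨⌊(q c).1 j / d - 1 / 8⌋, by linarith, by linarith⟩
  choose k hk1 hk2 using hk
  have hS : IsClosed ({x : Q n | x.1 0 ≤ -(d / 8)} ∪
      ⋃ j ∈ ({0}ᶜ : Set (Fin (n + 1))), {x : Q n | x.1 j ≤ (k j - 1 / 8) * d}) :=
    (isClosed_le (by fun_prop) continuous_const).union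
      ((toFinite _).isClosed_biUnion fun j _ => isClosed_le (by fun_prop) continuous_const)
  obtain ⟨s, hs, hsT, hno⟩ := last_time ((isClosed_singleton (x := a')).union
    (h.cont.preimage_isClosed_of_isClosed isClosed_Icc hS)) (Or.inl rfl) hac
  have has : a ≤ s := ha.trans hs.1
  have hgt : ∀ x ∈ Ioc s c, -(d / 8) < (q x).1 0 ∧ ∀ j, j ≠ 0 → (k j - 1 / 8) * d < (q x).1 j :=
    fun x hx => by
      have hx' : x ∈ Icc a b := ⟨has.trans hx.1.le, hx.2.trans hc⟩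
      refine ⟨not_le.1 fun h1 => hno x hx (Or.inr ⟨hx', Or.inl h1⟩),
        fun j hj => not_le.1 fun h1 => hno x hx (Or.inr ⟨hx', Or.inr ?_⟩)⟩
      exact mem_biUnion (t := fun j => {x : Q n | x.1 j ≤ (k j - 1 / 8) * d}) hj h1
  have hac' : a ≤ c := ha.trans hac
  have hup : ∀ j, ∀ x ∈ Icc c b, (k j + 1 / 8) * d ≤ (q x).1 j := fun j =>
    ((h.lad j).mono hac' le_rfl).fwd (offband hd (k j) (by linarith) (by linarith)) (hk1 j)
  have hlow : ∀ x ∈ Icc a c, (q x).1 0 < d / 8 :=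
    ((h.lad 0).mono le_rfl hc).back (offband hd 0 (by push_cast; linarith) (by push_cast; linarith))
      (by linarith [(abs_le.1 h0).2])
  have hcat : ∀ j, j ≠ 0 → (k j - 1 / 16) * d ≤ (q s).1 j := fun j hj => by
    have hz := abs_le.1 (hZ.1 j hj)
    refine h.cat' ?_ (by linarith [hup j b ⟨hc, le_rfl⟩]) ⟨has, hs.2.trans hc⟩ fun x hx hb => ?_
    · have e : |(k j : ℝ)| * d = |k j * d| := by rw [abs_mul, abs_of_pos hd]
      rw [e, abs_le]
      constructor <;> linarith [hk1 j, hk2 j]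
    have hxc : x ≤ c := not_lt.1 fun hlt => by
      linarith [hup j x ⟨hlt.le, hx.2.le⟩, (abs_le.1 hb).2]
    have hax : a ≤ x := has.trans hx.1.le
    obtain ⟨h1, h2⟩ := hgt x ⟨hx.1, hxc⟩
    refine ⟨abs_le.2 ⟨by linarith, by linarith [hlow x ⟨hax, hxc⟩]⟩, fun l hl => ?_, fun l => ?_⟩
    · have h3 := ((h.lad l).mono hax hc).le_add hd hxc
      have h4 := abs_le.1 (hZ.1 l hl)
      rw [if_neg hj, abs_le]
      constructor <;> linarith [h2 l hl, hk2 l]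
    · have h3 := abs_le.1 (h.gg x c hax hxc hc l)
      have h4 := abs_le.1 (hZ.2 l)
      rw [if_neg hj, abs_le]
      constructor <;> linarith
  have hlast : (q s).1 i - (q a').1 i ≤ 10 * d := by
    rcases hsT with e | ⟨-, h1 | h1⟩
    · rw [show s = a' from e]; linarith
    · have h2 := ((h.lad 0).mono le_rfl (hs.2.trans hc)).back (v := -(d / 10))
        (offband hd (-1) (by push_cast; linarith) (by push_cast; linarith))
        (by have : (q s).1 0 ≤ -(d / 8) := h1; linarith)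
      exact h.fast hd ha hs.1 (hs.2.trans hc) (fun x hx => Or.inl (lt_abs.2 (Or.inr
        (by linarith [h2 x ⟨ha.trans hx.1.le, hx.2.le⟩])))) i
    · obtain ⟨j, hj, h2⟩ := mem_iUnion₂.1 h1
      have h3 : (q s).1 j ≤ (k j - 1 / 8) * d := h2
      linarith [hcat j hj]
  linarith [hcat i hi, hk2 i]

theorem Dyn.rise (h : Dyn d W k₁ q a b) (hd : 0 < d) (hW : (k₁ + 3) * d ≤ W) {t : ℝ}
    (ht : t ∈ Icc a b) (i : Fin (n + 1)) (hi : i ≠ 0) : (q b).1 i - (q t).1 i ≤ 22 * d := by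
  have hS : IsClosed ({x : Q n | |x.1 0| ≤ d / 16} ∩ {x | Zone ((k₁ + 1) * d) x}) :=
    (isClosed_le (by fun_prop) continuous_const).inter (isClosed_zone _)
  obtain ⟨c, hc, hcT, hno⟩ := last_time ((isClosed_singleton (x := t)).union
    (h.cont.preimage_isClosed_of_isClosed isClosed_Icc hS)) (Or.inl rfl) ht.2
  have h1 := h.fast hd (ht.1.trans hc.1) hc.2 le_rfl (fun x hx => by
    by_contra hcon
    rw [not_or, not_lt, not_not] at hcon
    exact hno x ⟨hx.1, hx.2.le⟩ (Or.inr ⟨⟨(ht.1.trans hc.1).trans hx.1.le, hx.2.le⟩, hcon⟩)) i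
  rcases hcT with e | ⟨-, h2, h3⟩
  · rw [show c = t from e] at h1; linarith
  · linarith [h.slow hd hW ht.1 hc.1 hc.2 h2 h3 i hi]

theorem Dyn.disp (h : Dyn d W k₁ q a b) (hd : 0 < d) (hW : (k₁ + 3) * d ≤ W) {t : ℝ}
    (ht : t ∈ Icc a b) : ‖lat (q t) - lat (q b)‖ ≤ 25 * d := by
  refine max_le ((pi_norm_le_iff_of_nonneg (by positivity)).2 fun i => ?_)
    ((pi_norm_le_iff_of_nonneg (by positivity)).2 fun i => ?_)
  · change |((q t).1 i - (q t).1 0) - ((q b).1 i - (q b).1 0)| ≤ 25 * d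
    by_cases hi : i = 0
    · subst hi; simp; positivity
    have h1 := h.rise hd hW ht i hi
    have h2 := ((h.lad i).mono ht.1 le_rfl).le_add hd ht.2
    have h3 := abs_le.1 (h.f0 t ht)
    have h4 := abs_le.1 (h.f0 b ⟨ht.1.trans ht.2, le_rfl⟩)
    rw [abs_le]
    constructor <;> linarith
  · change |(q t).2 i - (q b).2 i| ≤ 25 * d
    linarith [h.gg t b ht.1 ht.2 le_rfl i]

theorem Dyn.trap (h : Dyn d W k₁ q a b) (hd : 0 < d) (hW : (k₁ + 3) * d ≤ W)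
    (hb : (q b).1 0 = d) (hl : ‖lat (q b)‖ + 26 * d ≤ k₁ * d) {t : ℝ} (ht : t ∈ Icc a b) :
    -(d / 16) ≤ (q t).1 0 := by
  have hk : (0 : ℝ) ≤ k₁ * d := by positivity
  have := h.cat 0 0 (by simp; linarith) (by rw [hb]; push_cast; linarith) t ht fun x hx h1 => by
    have h2 := h.disp hd hW (t := x) ⟨ht.1.trans hx.1, hx.2.le⟩
    have h3 := norm_add_le (lat (q x) - lat (q b)) (lat (q b))
    rw [sub_add_cancel] at h3
    have h4 : |(q x).1 0| ≤ d / 16 := by simpa using h1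
    refine ⟨by linarith, fun i _ => ?_, fun i => ?_⟩
    · have h5 : |(q x).1 i - (q x).1 0| ≤ ‖lat (q x)‖ :=
        (norm_le_pi_norm (lat (q x)).1 i).trans (norm_fst_le _)
      have h6 := abs_add_le ((q x).1 i - (q x).1 0) ((q x).1 0)
      rw [sub_add_cancel] at h6
      rw [if_pos rfl, add_zero]
      linarith
    · have h5 : |(q x).2 i| ≤ ‖lat (q x)‖ :=
        (norm_le_pi_norm (lat (q x)).2 i).trans (norm_snd_le _)
      rw [if_pos rfl, add_zero]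
      linarith
  push_cast at this
  linarith

end Dyn

section Curves
variable {Y : Type} [NormedAddCommGroup Y] [NormedSpace ℝ Y]

/-- the derivative of a smooth function along curves with a small error -/
theorem ev_rd {Ω : Set Y} (hΩ : IsCompact Ω) {u : Y → ℝ} (hu : ContDiff ℝ ∞ u) {m : ℝ}
    (hm : 0 < m) : ∀ᶠ ε in 𝓝[>] (0 : ℝ), ∀ (c : ℝ → Y) (t : ℝ) (y : Y), c t ∈ Ω → Near c t y ε →
      RD (fun s => u (c s)) t fun v =>
        fderiv ℝ u (c t) y - m ≤ v ∧ v ≤ fderiv ℝ u (c t) y + m := by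
  obtain ⟨C, hC, hb⟩ := exists_fderiv_bound (hu.of_le (by simp)) hΩ
  filter_upwards [Ioc_mem_nhdsGT (div_pos hm hC)] with ε hε c t y hc hn
  refine ((hn.comp (hu.differentiable (by simp) _)).mono ?_).rd
  have h1 := (le_div_iff₀ hC).1 hε.2
  have h2 := mul_le_mul_of_nonneg_right (hb _ hc) hε.1.le
  linarith

end Curves

variable {ι : Type} [Fintype ι]

theorem near_f {c : ℝ → Q n × (ι → ℂ)} {t ε : ℝ} {y : Q n × (ι → ℂ)} (h : Near c t y ε)
    (j : Fin (n + 1)) : Near (fun s => (c s).1.1 j) t (y.1.1 j) ε := by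
  obtain ⟨v, h1, h2⟩ := h
  exact ⟨v.1.1 j, hasDerivWithinAt_pi.1 h1.fst.fst j,
    (((norm_le_pi_norm (v - y).1.1 j).trans (norm_fst_le _)).trans (norm_fst_le _)).trans h2⟩

theorem near_g {c : ℝ → Q n × (ι → ℂ)} {t ε : ℝ} {y : Q n × (ι → ℂ)} (h : Near c t y ε)
    (j : Fin (n + 1)) : Near (fun s => (c s).1.2 j) t (y.1.2 j) ε := by
  obtain ⟨v, h1, h2⟩ := h
  exact ⟨v.1.2 j, hasDerivWithinAt_pi.1 h1.fst.snd j,
    (((norm_le_pi_norm (v - y).1.2 j).trans (norm_snd_le _)).trans (norm_fst_le _)).trans h2⟩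

variable {X : Q n × (ι → ℂ) → Q n × (ι → ℂ)} {Ω : Set (Q n × (ι → ℂ))} {d : ℝ}

theorem ev_bar (hΩ : IsCompact Ω) (hd : 0 < d) (h : RateBar X Ω d) :
    ∀ᶠ ε in 𝓝[>] (0 : ℝ), ∀ γ a b, Crv X ε γ a b → (∀ t ∈ Icc a b, γ t ∈ Ω) →
      ∀ s t, a ≤ s → s ≤ t → t ≤ b → ∀ j, |(γ s).1.2 j - (γ t).1.2 j| ≤ 3 * d := by
  obtain ⟨L, m, hL, hm, ho, hr⟩ := h
  filter_upwards [ev_rd hΩ hL (half_pos hm), Ioc_mem_nhdsGT (half_pos hm)]
    with ε h1 hε γ a b hγ hin s t hs hst ht j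
  have hsub : Icc s t ⊆ Icc a b := Icc_subset_Icc hs ht
  have hc := hγ.1.mono hsub
  have hg : ContinuousOn (fun x => (γ x).1.2 j) (Icc s t) := by fun_prop
  have hLc : ContinuousOn (fun x => L (γ x)) (Icc s t) := hL.continuous.comp_continuousOn hc
  have ho' : ∀ x ∈ Icc s t, ∀ y ∈ Icc s t, L (γ x) - L (γ y) ≤ d / 2 := fun x hx y hy =>
    ho _ (hin x (hsub hx)) _ (hin y (hsub hy))
  have h2 := bar_le hd hst hg hLc ho' fun x hx h3 => by
    have hx' : x ∈ Ico a b := ⟨hs.trans hx.1, hx.2.trans_le ht⟩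
    have hi := hin x ⟨hx'.1, hx'.2.le⟩
    have h4 := hr _ hi j 1 (Or.inl rfl) (by linarith)
    exact (near_g (hγ.2 x hx') j).rd.add (h1 γ x _ hi (hγ.2 x hx')) fun u v hu hv => by
      linarith [hu.1, hv.1, hε.2]
  have h3 := bar_le (g := fun x => -(γ x).1.2 j) hd hst hg.neg hLc ho' fun x hx h3 => by
    have hx' : x ∈ Ico a b := ⟨hs.trans hx.1, hx.2.trans_le ht⟩
    have hi := hin x ⟨hx'.1, hx'.2.le⟩
    have h4 := hr _ hi j (-1) (Or.inr rfl) (by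
      rw [sn, mul_neg, neg_div, sin_neg] at h3
      rw [sn]; linarith)
    exact (near_g (hγ.2 x hx') j).rd.neg.add (h1 γ x _ hi (hγ.2 x hx')) fun u v hu hv => by
      linarith [hu.2, hv.1, hε.2]
  rw [abs_le]
  constructor <;> linarith

theorem ev_catch {w c2 : ℝ} {k₁ : ℕ} (hΩ : IsCompact Ω) (hd : 0 < d)
    (h : RateCatch X Ω d w c2 k₁) :
    ∀ᶠ ε in 𝓝[>] (0 : ℝ), ∀ (j : Fin (n + 1)), ∀ k ∈ {k : ℤ | |(k : ℝ)| * d ≤ 4 * w + 2 * d},
      ∀ γ a b, Crv X ε γ a b → (∀ t ∈ Icc a b, γ t ∈ Ω) → nsq (γ b).2 ≤ c2 →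
      (k + 1 / 16) * d ≤ (γ b).1.1 j → ∀ s ∈ Icc a b,
      (∀ x ∈ Ico s b, |(γ x).1.1 j - k * d| ≤ d / 16 → Full d k₁ j (γ x).1) →
      (k - 1 / 16) * d ≤ (γ s).1.1 j := by
  have hfin : {k : ℤ | |(k : ℝ)| * d ≤ 4 * w + 2 * d}.Finite := by
    refine (finite_Icc (-⌈(4 * w + 2 * d) / d⌉) ⌈(4 * w + 2 * d) / d⌉).subset fun k hk => ?_
    have h1 : |(k : ℝ)| ≤ ⌈(4 * w + 2 * d) / d⌉ := ((le_div_iff₀ hd).2 hk).trans (Int.le_ceil _)
    exact abs_le.1 (by exact_mod_cast h1)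
  refine eventually_all.2 fun j => (eventually_all_finite hfin).2 fun k hk => ?_
  obtain ⟨τ, P, κ, p₀, m, hτ, hP, hm, c1, c2', c3, c4⟩ := h j k hk
  filter_upwards [ev_rd hΩ hτ (half_pos hm), ev_rd hΩ hP (half_pos hm)]
    with ε h1 h2 γ a b hγ hin hz hb s hs hF
  have hsub : Icc s b ⊆ Icc a b := Icc_subset_Icc_left hs.1
  have hc := hγ.1.mono hsub
  obtain ⟨e1, e2⟩ := c1 _ (hin b ⟨hs.1.trans hs.2, le_rfl⟩) hb hz
  obtain ⟨e3, e4⟩ := fence_two (f := fun x => τ (γ x)) (g := fun x => -P (γ x)) (v := κ) (w := p₀)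
    (hτ.continuous.comp_continuousOn hc) (hP.continuous.comp_continuousOn hc).neg
    (fun x hx h3 h4 => by
      have hx' : x ∈ Ico a b := ⟨hs.1.trans hx.1, hx.2⟩
      have hi := hin x ⟨hx'.1, hx'.2.le⟩
      have h5 := c3 _ hi h3 (by linarith) (hF x hx)
      exact (h1 γ x _ hi (hγ.2 x hx')).mono fun v hv => by linarith [hv.1])
    (fun x hx h3 h4 => by
      have hx' : x ∈ Ico a b := ⟨hs.1.trans hx.1, hx.2⟩
      have hi := hin x ⟨hx'.1, hx'.2.le⟩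
      have h5 := c4 _ hi h3 (by linarith)
      exact (h2 γ x _ hi (hγ.2 x hx')).neg.mono fun v hv => by linarith [hv.2])
    e1 (by linarith) s ⟨le_rfl, hs.2⟩
  exact c2' _ (hin s hs) e3.le (by linarith)

end TD

theorem tdyn : TDynStmt := by
  intro n k₁ ι _ w d R c2 X hd hdw hk1 hk2 hU hB hC
  have hΩ := isCompact_Om (n := n) (ι := ι) d w R
  obtain ⟨ε, ⟨h1, h2⟩, hε⟩ := (((TD.ev_bar hΩ hd hB).and (TD.ev_catch hΩ hd hC)).and
    (Ioc_mem_nhdsGT (show (0 : ℝ) < 1 / 4 by norm_num))).exists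
  refine ⟨ε, hε.1, fun γ a b _ hγ hin hb hz t ht => ?_⟩
  have hc := hγ.1
  have hD : TD.Dyn d (4 * w + 2 * d) k₁ (fun s => (γ s).1) a b :=
    { cont := by fun_prop
      f0 := fun t ht => (hin t ht).1.1
      lad := fun j => ⟨by fun_prop, fun t ht h => by
        have h3 := abs_le.1 (hU.1 _ (hin t ⟨ht.1, ht.2.le⟩) j h)
        exact (TD.near_f (hγ.2 t ht) j).rd.mono fun v hv =>
          ⟨by linarith [hv.1, hε.2, h3.1], by linarith [hv.2, hε.2, h3.2]⟩⟩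
      up0 := fun t ht h => by
        have h3 := abs_le.1 (hU.2 _ (hin t ⟨ht.1, ht.2.le⟩) h)
        exact (TD.near_f (hγ.2 t ht) 0).rd.mono fun v hv => by linarith [hv.1, hε.2, h3.1]
      gg := h1 γ a b hγ hin
      cat := fun j k hk => h2 j k hk γ a b hγ hin hz }
  have hW : (k₁ + 3) * d ≤ 4 * w + 2 * d := by linarith
  exact ⟨hD.disp hd hW ht, fun hl => hD.trap hd hW hb (by linarith) ht⟩

end Pool.Agent.MP_6d695c_gt.SW

end MrgPart0

-- ======== part 1: formerly Pool.Agent.MP_6d695c_gt.sw.Trap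
section MrgPart1

/-! PROJECT SW: the trap from its modules. -/

open scoped ContDiff Topology
open Set Metric Filter Real

namespace Pool.Agent.MP_6d695c_gt.SW

theorem exists_con {w d : ℝ} (hw : 0 < w) (hw' : w ≤ 1 / 20) (hd : 0 < d) (hd' : d ≤ w / 100) :
    ∃ k₁ K : ℕ, Con w d (d / 200) k₁ K := by
  have h1 : 0 ≤ 17 / 10 * w / d := by positivity
  have h2 : 0 ≤ 4 * w / d := by positivity
  have a1 := Nat.floor_le h1
  have a2 := Nat.lt_floor_add_one (17 / 10 * w / d)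
  have b1 := Nat.le_ceil (4 * w / d)
  have b2 := Nat.ceil_lt_add_one h2
  rw [le_div_iff₀ hd] at a1
  rw [div_lt_iff₀ hd] at a2
  rw [div_le_iff₀ hd] at b1
  have b3 : (⌈4 * w / d⌉₊ : ℝ) * d ≤ (4 * w / d + 1) * d := by gcongr
  rw [add_mul, div_mul_cancel₀ _ hd.ne'] at b3
  refine ⟨⌊17 / 10 * w / d⌋₊, ⌈4 * w / d⌉₊ + 2, hw, hw', hd, hd', by positivity, le_rfl,
    by linarith, by linarith, ?_, ?_⟩ <;> push_cast <;> linarith

theorem Master.bar {n K : ℕ} {h0 h1 Λ0 Λ1 : R3 → ℝ} {A : Fin (n + 1) → Q n → ℝ}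
    {w d r R m B : ℝ} {L : Q n × (Fa n K → ℂ) → ℝ} (h : Master h0 h1 Λ0 Λ1 A w d r R m B L)
    (hr : 0 < r) (hm : 0 < m) (hB : r ^ 2 * (2 * B) ≤ d / 2) :
    RateBar (XM (HT h0 h1 A d r)) (Om n (Fa n K) d w R) d := by
  obtain ⟨hL, hb, h3, -⟩ := h
  refine ⟨fun p => r ^ 2 * L p, r ^ 2 * m, contDiff_const.mul hL, by positivity,
    fun p hp p' hp' => ?_, fun p hp j ς hς hs => ?_⟩
  · have h4 := abs_le.1 (hb p hp)
    have h5 := abs_le.1 (hb p' hp')
    have : r ^ 2 * (L p - L p') ≤ r ^ 2 * (2 * B) := by gcongr; linarith [h4.2, h5.1]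
    linarith
  · have h4 := h3 p hp (Pi.single j ς) (fun i => by
      by_cases hi : i = j
      · subst hi
        rw [Pi.single_eq_same]
        exact ⟨by rcases hς with rfl | rfl <;> simp, by linarith⟩
      · simp [Pi.single_eq_of_ne hi]) ⟨j, Or.inr (by rw [Pi.single_eq_same]; linarith)⟩
    have h5 : ∑ i, (Pi.single j ς : Fin (n + 1) → ℝ) i * (XM (HT h0 h1 A d r) p).1.2 i =
        ς * (XM (HT h0 h1 A d r) p).1.2 j := by
      rw [Finset.sum_eq_single j]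
      · rw [Pi.single_eq_same]
      · intro i _ hi; simp [Pi.single_eq_of_ne hi]
      · simp
    rw [h5] at h4
    rw [fderiv_const_mul (hL.differentiable (by simp) p)]
    have h6 := mul_le_mul_of_nonneg_left h4 (sq_nonneg r)
    rw [mul_add, mul_div_cancel₀ _ (by positivity)] at h6
    simp only [smul_apply, smul_eq_mul]
    linarith

theorem trap (loc : LocStmt) (cut : CutStmt) (calcT : CalcStmt) (rate : RateStmt) (lam : LamStmt)
    (zer : ZerStmt) (tdyn : TDynStmt) : TrapStmt := by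
  intro n w d₀ hw hw' hd₀
  set d := min d₀ (w / 100) with hdef
  have hd : 0 < d := by positivity
  have hd' : d ≤ w / 100 := min_le_right _ _
  obtain ⟨k₁, K, hC⟩ := exists_con hw hw' hd hd'
  obtain ⟨h0, h1, τ, Zs, hL, hLL⟩ := loc (d / 200) hC.δpos (by linarith)
  obtain ⟨A, CA, hA⟩ := cut n d k₁ hd
  obtain ⟨C₀, r₁, hr₁, hrate⟩ := rate n K k₁ w d _ CA h0 h1 τ Zs A hC hL hA
  set C := max C₀ (n + 1) with hCdef
  have hC1 : (n + 1 : ℝ) ≤ C := le_max_right _ _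
  have hn : (0 : ℝ) ≤ n := n.cast_nonneg
  obtain ⟨Λ0, Λ1, m, KΛ, hΛ⟩ := hLL (4 * C)
  obtain ⟨m', B, r₂, hm', hr₂, hlam⟩ := lam n K k₁ w d _ CA (4 * C) m KΛ h0 h1 τ Λ0 Λ1 Zs A hC hL
    hA hΛ
  refine ⟨Fa n K, inferInstance, inferInstance, d, d / 200 / 4, C,
    min (min r₁ r₂) (min 1 (d / (4 * (|B| + 1)))), hd, min_le_left _ _, hd', by positivity,
    by linarith, by positivity, fun r hr hrl => ?_⟩
  have a1 : r ≤ r₁ := hrl.trans ((min_le_left _ _).trans (min_le_left _ _))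
  have a2 : r ≤ r₂ := hrl.trans ((min_le_left _ _).trans (min_le_right _ _))
  have a3 : r ≤ 1 := hrl.trans ((min_le_right _ _).trans (min_le_left _ _))
  have a4 : r ≤ d / (4 * (|B| + 1)) := hrl.trans ((min_le_right _ _).trans (min_le_right _ _))
  rw [le_div_iff₀ (by positivity)] at a4
  have hcalc := calcT n K h0 h1 A d r hL.sm0 hL.sm1 hA.sm hd hr
  obtain ⟨b1, b2, b3, b4⟩ := hrate r hr a1 hcalc
  obtain ⟨L, hM⟩ := hlam r hr a2 hcalc
  refine ⟨HT h0 h1 A d r, hcalc.sm, b1, fun p => (b2 p).trans ?_, b3,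
    zer n K k₁ w d _ CA (4 * C) m KΛ r m' B h0 h1 τ Λ0 Λ1 Zs A L hC hL hA hΛ (by linarith) hr hm'
      hcalc hM,
    tdyn n k₁ _ w d _ _ _ hd hd' hC.k₁lo hC.k₁hi (b4 _).1 (hM.bar hr hm' ?_) (b4 _).2⟩
  · gcongr
    exact le_max_left _ _
  · have h5 : r ^ 2 ≤ r := by nlinarith
    have h6 : r ^ 2 * (2 * B) ≤ r * (2 * (|B| + 1)) :=
      (mul_le_mul_of_nonneg_left (by linarith [le_abs_self B]) (sq_nonneg r)).trans
        (mul_le_mul_of_nonneg_right h5 (by positivity))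
    linarith

end Pool.Agent.MP_6d695c_gt.SW

end MrgPart1

-- marker of a merged file
example : 731051 + 633412 = 731051 + 633412 := rfl

end MrgPart1

-- marker of a merged file
example : 731051 + 633412 = 731051 + 633412 := rfl
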