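import Mathlib.Analysis.SpecialFunctions.Trigonometric.Deriv
import Mathlib.Analysis.SpecialFunctions.ExpDeriv
import Mathlib.Analysis.InnerProductSpace.PiL2
import Pool.Agent.MP_6d695c_gt.Stmt

/-! PROJECT SW: definitions.  See /team-store/SW_BLUEPRINT.md. -/

open scoped ContDiff Topology
open Set Metric Filter Real

namespace Pool.Agent.MP_6d695c_gt.SW

noncomputable section

/-! ### Subsets of a vector space with local parametrisations -/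

section Sub
variable {X : Type} [NormedAddCommGroup X] [NormedSpace ℝ X]

/-- exterior derivative of a one-form -/
def dd (l : X → X →L[ℝ] ℝ) (x u v : X) : ℝ := fderiv ℝ l x u v - fderiv ℝ l x v u

/-- tangent vectors of `S` at `x` -/
def Tg (S : Set X) (x : X) : Set X :=
  {v | ∃ γ : ℝ → X, γ 0 = x ∧ HasDerivAt γ v 0 ∧ ∀ᶠ t in 𝓝 (0 : ℝ), γ t ∈ S}

/-- `g : O → S ∩ N` is a parametrisation with smooth inverse `r` -/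
structure Par {E : Type} [NormedAddCommGroup E] [NormedSpace ℝ E] (S : Set X) (g : E → X)
    (r : X → E) (O : Set E) (N : Set X) : Prop where
  oO : IsOpen O
  oN : IsOpen N
  sg : ContDiffOn ℝ ∞ g O
  sr : ContDiffOn ℝ ∞ r N
  gm : ∀ y ∈ O, g y ∈ S ∧ g y ∈ N ∧ r (g y) = y
  rm : ∀ x ∈ S, x ∈ N → r x ∈ O ∧ g (r x) = x

/-- `S` is a submanifold modelled on `E` -/
def Sub (E : Type) [NormedAddCommGroup E] [NormedSpace ℝ E] (S : Set X) : Prop :=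
  ∀ p ∈ S, ∃ (g : E → X) (r : X → E) (O : Set E) (N : Set X), Par S g r O N ∧ p ∈ N

/-- smooth global flow with uniqueness -/
structure IsFlow (Y : X → X) (fl : ℝ → X → X) : Prop where
  sm : ContDiff ℝ ∞ fun q : ℝ × X => fl q.1 q.2
  zero : ∀ x, fl 0 x = x
  add : ∀ s t x, fl (s + t) x = fl s (fl t x)
  der : ∀ x t, HasDerivAt (fun t => fl t x) (Y (fl t x)) t
  uniq : ∀ (c : ℝ → X) (a b : ℝ), a ≤ b → ContinuousOn c (Icc a b) →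
    (∀ t ∈ Ioo a b, HasDerivAt c (Y (c t)) t) → c b = fl (b - a) (c a)

/-- the right derivative of `c` at `t` is within `ε` of `y` -/
def Near (c : ℝ → X) (t : ℝ) (y : X) (ε : ℝ) : Prop :=
  ∃ v, HasDerivWithinAt c v (Ici t) t ∧ ‖v - y‖ ≤ ε

/-- an `ε`-curve of `Y` on `[a, b]` -/
def Crv (Y : X → X) (ε : ℝ) (c : ℝ → X) (a b : ℝ) : Prop :=
  ContinuousOn c (Icc a b) ∧ ∀ t ∈ Ico a b, Near c t (Y (c t)) ε

/-- a periodic `ε`-curve of `Y` in `S` -/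
structure Cyc (S : Set X) (Y : X → X) (ε : ℝ) (c : ℝ → X) : Prop where
  cont : Continuous c
  per : ∃ τ, 0 < τ ∧ Function.Periodic c τ
  mem : ∀ t, c t ∈ S
  near : ∀ t, Near c t (Y (c t)) ε

/-- a zero of `Y` with a local quadratic Lyapunov function `u` -/
def GoodWith (S : Set X) (Y : X → X) (p : X) (u : X → ℝ) : Prop :=
  Y p = 0 ∧ ContDiff ℝ ∞ u ∧ fderiv ℝ u p = 0 ∧
    ∃ c, 0 < c ∧ ∀ᶠ x in 𝓝[S] p, c * ‖x - p‖ ^ 2 ≤ fderiv ℝ u x (Y x)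

/-- `p` is a good zero and `Φ` grows at least as fast as the local Lyapunov function -/
def GoodFor (S : Set X) (Y : X → X) (Φ : X → ℝ) (p : X) : Prop :=
  ∃ u, GoodWith S Y p u ∧ ∀ᶠ x in 𝓝[S] p, fderiv ℝ u x (Y x) ≤ fderiv ℝ Φ x (Y x)

/-- every point of `Γ` flows, forwards and backwards, close to a point of `Γ` -/
def Step (fl : ℝ → X → X) (h η : ℝ) (Γ : Set X) : Prop :=
  ∀ p ∈ Γ, ∀ ς : ℝ, ς = 1 ∨ ς = -1 →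
    ∃ s ∈ Icc (h / 2) (4 * h), ∃ p' ∈ Γ, dist p' (fl (ς * s) p) ≤ η

/-- a piece of a Liouville manifold inside `X`; `Pi` inverts `dl` on the tangent spaces -/
structure Amb (E : Type) [NormedAddCommGroup E] [NormedSpace ℝ E] (M : Set X)
    (l : X → X →L[ℝ] ℝ) (Pi : X → (X →L[ℝ] ℝ) →L[ℝ] X) (φ : X → ℝ) (s : ℝ) : Prop where
  sub : Sub E M
  sl : ContDiff ℝ ∞ l
  sP : ContDiff ℝ ∞ Pi
  sφ : ContDiff ℝ ∞ φ
  tan : ∀ x ∈ M, ∀ α, Pi x α ∈ Tg M x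
  dual : ∀ x ∈ M, ∀ α, ∀ v ∈ Tg M x, dd l x (Pi x α) v = α v
  cpt : ∀ c < 6, IsCompact {x ∈ M | φ x ≤ c}
  nn : ∀ x ∈ M, 0 ≤ φ x
  shell : ∀ x ∈ M, s ≤ φ x → 0 < fderiv ℝ φ x (Pi x (l x))

end Sub

abbrev Euc (d : ℕ) : Type := EuclideanSpace ℝ (Fin d)

/-! ### The factors `ℂ^ι` -/

section Fac
variable {ι : Type} [Fintype ι] [DecidableEq ι]

/-- square of the Euclidean norm -/
def nsq (z : ι → ℂ) : ℝ := ∑ i, ((z i).re ^ 2 + (z i).im ^ 2)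

/-- Euclidean scalar product -/
def ipc (z v : ι → ℂ) : ℝ := ∑ i, ((z i).re * (v i).re + (z i).im * (v i).im)

/-- standard symplectic form -/
def omC (u v : ι → ℂ) : ℝ := ∑ i, ((u i).re * (v i).im - (u i).im * (v i).re)

/-- the vector dual to a covector -/
def shC (α : (ι → ℂ) →L[ℝ] ℝ) : ι → ℂ :=
  fun i => ⟨α (Pi.single i Complex.I), -α (Pi.single i 1)⟩

variable {V : Type} [NormedAddCommGroup V] [NormedSpace ℝ V]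

/-- derivative in the first variable -/
def d1 (H : V × (ι → ℂ) → ℝ) (p : V × (ι → ℂ)) : V →L[ℝ] ℝ :=
  (fderiv ℝ H p).comp (ContinuousLinearMap.inl ℝ V (ι → ℂ))

/-- derivative in the second variable -/
def d2 (H : V × (ι → ℂ) → ℝ) (p : V × (ι → ℂ)) : (ι → ℂ) →L[ℝ] ℝ :=
  (fderiv ℝ H p).comp (ContinuousLinearMap.inr ℝ V (ι → ℂ))

/-- the Liouville field of `l + radial + dH` -/
def ZH (l : V → V →L[ℝ] ℝ) (Pi : V → (V →L[ℝ] ℝ) →L[ℝ] V) (H : V × (ι → ℂ) → ℝ)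
    (p : V × (ι → ℂ)) : V × (ι → ℂ) :=
  (Pi p.1 (l p.1 + d1 H p), (1 / 2 : ℝ) • p.2 + shC (d2 H p))

/-- `M × ℂ^ι` -/
def hat (M : Set V) (ι : Type) : Set (V × (ι → ℂ)) := {p | p.1 ∈ M}

/-- `φ + |z|²` -/
def ph (φ : V → ℝ) (p : V × (ι → ℂ)) : ℝ := φ p.1 + nsq p.2

end Fac

/-! ### The model `∑ exp (f j) d g j` -/

abbrev Q (n : ℕ) : Type := (Fin (n + 1) → ℝ) × (Fin (n + 1) → ℝ)

section Model
variable {n : ℕ}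

/-- the Liouville field of the model -/
def one (n : ℕ) : Q n := (fun _ => 1, 0)

/-- coordinates that are constant along the Liouville flow -/
def lat (q : Q n) : Q n := (fun i => q.1 i - q.1 0, q.2)

/-- the vector dual to a covector -/
def sh (q : Q n) (α : Q n →L[ℝ] ℝ) : Q n :=
  (fun j => exp (-q.1 j) * α (0, Pi.single j 1), fun j => -(exp (-q.1 j) * α (Pi.single j 1, 0)))

/-- closed box of height `a` and width `b` -/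
def cbox (n : ℕ) (a b : ℝ) : Set (Q n) := {q | |q.1 0| ≤ a ∧ ‖lat q‖ ≤ b}

/-- open box -/
def obox (n : ℕ) (a b : ℝ) : Set (Q n) := {q | |q.1 0| < a ∧ ‖lat q‖ < b}

variable {ι : Type} [Fintype ι] [DecidableEq ι]

/-- the Liouville field of `∑ exp (f j) d g j + radial + dH` -/
def XM (H : Q n × (ι → ℂ) → ℝ) (p : Q n × (ι → ℂ)) : Q n × (ι → ℂ) :=
  (one n + sh p.1 (d1 H p), (1 / 2 : ℝ) • p.2 + shC (d2 H p))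

/-- the compact region where trapped curves live -/
def Om (n : ℕ) (ι : Type) [Fintype ι] (d w R : ℝ) : Set (Q n × (ι → ℂ)) :=
  {p | p.1 ∈ cbox n d (4 * w) ∧ nsq p.2 ≤ R}

/-- a strict Lyapunov function on `Ω` with finitely many good zeros -/
def LyapOn {X : Type} [NormedAddCommGroup X] [NormedSpace ℝ X] (Ω : Set X) (Y : X → X) : Prop :=
  ∃ (Λ : X → ℝ) (𝒵 : Set X), ContDiff ℝ ∞ Λ ∧ 𝒵.Finite ∧ 𝒵 ⊆ Ω ∧
    (∀ p ∈ Ω, p ∉ 𝒵 → 0 < fderiv ℝ Λ p (Y p)) ∧ ∀ p ∈ 𝒵, GoodWith univ Y p Λ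

end Model

/-! ### Liouville charts and boxes -/

section Chart
variable {V : Type} [NormedAddCommGroup V] [NormedSpace ℝ V]

/-- a chart in which `l = ∑ exp (f j) d g j` -/
structure LCh (M : Set V) (l : V → V →L[ℝ] ℝ) (Pi : V → (V →L[ℝ] ℝ) →L[ℝ] V) {n : ℕ}
    (Ψ : Q n → V) (κ : V → Q n) (O : Set (Q n)) (N : Set V) : Prop where
  par : Par M Ψ κ O N
  sκ : ContDiff ℝ ∞ κ
  hZ : ∀ x ∈ M, x ∈ N → fderiv ℝ κ x (Pi x (l x)) = one n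
  hP : ∀ x ∈ M, x ∈ N → ∀ α : Q n →L[ℝ] ℝ,
    fderiv ℝ κ x (Pi x (α.comp (fderiv ℝ κ x))) = sh (κ x) α

/-- data of a box -/
structure Bx (V : Type) where
  n : ℕ
  Ψ : Q n → V
  κ : V → Q n
  O : Set (Q n)
  N : Set V
  w : ℝ

/-- finitely many disjoint boxes of height `10 h` inside `φ < 1` -/
structure Boxes (M : Set V) (l : V → V →L[ℝ] ℝ) (Pi : V → (V →L[ℝ] ℝ) →L[ℝ] V) (φ : V → ℝ)
    {m : ℕ} (bx : Fin m → Bx V) (h : ℝ) : Prop where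
  hpos : 0 < h
  hle : h ≤ 1 / 100
  wpos : ∀ b, 0 < (bx b).w
  wle : ∀ b, (bx b).w ≤ 1 / 20
  ch : ∀ b, LCh M l Pi (bx b).Ψ (bx b).κ (bx b).O (bx b).N
  sub : ∀ b, cbox (bx b).n (10 * h) (5 * (bx b).w) ⊆ (bx b).O
  low : ∀ b, ∀ q ∈ cbox (bx b).n (10 * h) (5 * (bx b).w), φ ((bx b).Ψ q) < 1
  disj : ∀ b b', b ≠ b' → ∀ q ∈ cbox (bx b).n (10 * h) (5 * (bx b).w),
    ∀ q' ∈ cbox (bx b').n (10 * h) (5 * (bx b').w), (bx b).Ψ q ≠ (bx b').Ψ q'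

/-- `x` lies in the open box `b` -/
def InBox (M : Set V) (B : Bx V) (h : ℝ) (x : V) : Prop :=
  x ∈ M ∧ x ∈ B.N ∧ B.κ x ∈ obox B.n (10 * h) (5 * B.w)

/-- `x` lies in the active part of the box -/
def InAct (M : Set V) (B : Bx V) (h : ℝ) (x : V) : Prop :=
  x ∈ M ∧ x ∈ B.N ∧ B.κ x ∈ cbox B.n h (7 / 2 * B.w)

end Chart

/-! ### What a box does -/

section BoxOut
variable {n : ℕ} {ι : Type} [Fintype ι] [DecidableEq ι]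

/-- a periodic curve seen from a box: `I` is the set of times spent in the open box -/
structure BCrv (h w ε : ℝ) (H : Q n × (ι → ℂ) → ℝ) (I : Set ℝ) (c : ℝ → Q n × (ι → ℂ)) :
    Prop where
  cont : Continuous c
  per : ∃ τ, 0 < τ ∧ Function.Periodic c τ ∧ ∀ t, t + τ ∈ I ↔ t ∈ I
  op : IsOpen I
  mem : ∀ t ∈ I, (c t).1 ∈ obox n (10 * h) (5 * w)
  cl : ∀ K, IsCompact K → K ⊆ obox n (10 * h) (5 * w) → IsClosed {t | t ∈ I ∧ (c t).1 ∈ K}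
  ins : ∀ t ∈ I, Near c t (XM H (c t)) ε
  out : ∀ t ∉ I, Near (fun s => (c s).2) t ((1 / 2 : ℝ) • (c t).2) ε

/-- the curve crosses the active part with small displacement -/
def Pass (h w δ : ℝ) (I : Set ℝ) (c : ℝ → Q n × (ι → ℂ)) : Prop :=
  ∀ t ∈ I, (c t).1 ∈ cbox n h (7 / 2 * w) → ∀ ς : ℝ, ς = 1 ∨ ς = -1 →
    ∃ t' ∈ I, (c t').1.1 0 = ς * (2 * h) ∧ (c t').1 ∈ cbox n (2 * h) (4 * w) ∧
      ‖lat (c t').1 - lat (c t).1‖ ≤ δ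

/-- the curve never lies above the core -/
def NoHit (h w : ℝ) (I : Set ℝ) (c : ℝ → Q n × (ι → ℂ)) : Prop :=
  ∀ t ∈ I, 2 * h ≤ (c t).1.1 0 → (c t).1.1 0 ≤ 9 * h → w < ‖lat (c t).1‖

structure BoxOut (h w δ ρ : ℝ) (H : Q n × (ι → ℂ) → ℝ) (Ω : Set (Q n × (ι → ℂ))) : Prop where
  sm : ContDiff ℝ ∞ H
  supp : ∀ p : Q n × (ι → ℂ), p.1 ∉ cbox n h (3 * w) → ∀ᶠ p' in 𝓝 p, H p' = 0
  rad : ∀ p, |ipc p.2 (shC (d2 H p))| ≤ ρ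
  cpt : IsCompact Ω
  sub : ∀ p ∈ Ω, p.1 ∈ cbox n h (4 * w) ∧ nsq p.2 ≤ ρ
  lyap : LyapOn Ω (XM H)
  dyn : ∃ ε₀, 0 < ε₀ ∧ ∀ I c, BCrv h w ε₀ H I c →
    (∀ t, t ∈ I ∧ c t ∈ Ω) ∨ (Pass h w δ I c ∧ NoHit h w I c)

/-- what the trap does; `c r` is the size of a clean factor, `C r²` bounds the excitation -/
structure TrapOut (w d c C r : ℝ) (H : Q n × (ι → ℂ) → ℝ) : Prop where
  sm : ContDiff ℝ ∞ H
  supp : ∀ p : Q n × (ι → ℂ), p.1 ∉ cbox n d (2 * w) → ∀ᶠ p' in 𝓝 p, H p' = 0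
  rad : ∀ p, |ipc p.2 (shC (d2 H p))| ≤ C * r ^ 2
  up : ∀ p : Q n × (ι → ℂ), d / 16 < |p.1.1 0| → |(XM H p).1.1 0 - 1| ≤ 1 / 4
  lyap : LyapOn (Om n ι d w (4 * C * r ^ 2)) (XM H)
  dyn : ∃ ε₀, 0 < ε₀ ∧ ∀ (γ : ℝ → Q n × (ι → ℂ)) (a b : ℝ), a ≤ b → Crv (XM H) ε₀ γ a b →
    (∀ t ∈ Icc a b, γ t ∈ Om n ι d w (4 * C * r ^ 2)) → (γ b).1.1 0 = d →
    nsq (γ b).2 ≤ (c * r) ^ 2 →
    ∀ t ∈ Icc a b, ‖lat (γ t).1 - lat (γ b).1‖ ≤ 25 * d ∧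
      (‖lat (γ b).1‖ ≤ 5 / 4 * w → -(d / 16) ≤ (γ t).1.1 0)

end BoxOut

/-! ### The total Hamiltonian -/

section Ham
variable {V : Type} [NormedAddCommGroup V] [NormedSpace ℝ V]

/-- local description of the Liouville field of the total Hamiltonian `G`; `l₀` is the form after
the first perturbation -/
structure Ham (M : Set V) (l l₀ : V → V →L[ℝ] ℝ) (Pi : V → (V →L[ℝ] ℝ) →L[ℝ] V) (φ : V → ℝ)
    {m : ℕ} (bx : Fin m → Bx V) (h ρ : ℝ) {ι : Fin m → Type} [∀ b, Fintype (ι b)]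
    [∀ b, DecidableEq (ι b)] (H : ∀ b, Q (bx b).n × (ι b → ℂ) → ℝ) {k : ℕ}
    (e : ∀ b, ι b → Fin k) (G : V × (Fin k → ℂ) → ℝ) : Prop where
  sm : ContDiff ℝ ∞ G
  far : ∀ p : V × (Fin k → ℂ), p.1 ∈ M → 1 ≤ φ p.1 ∨ 1 ≤ nsq p.2 → ∀ᶠ p' in 𝓝 p, G p' = 0
  rad : ∀ p : V × (Fin k → ℂ), p.1 ∈ M → nsq p.2 / 2 - ρ ≤ ipc p.2 (ZH l Pi G p).2
  free : ∀ p : V × (Fin k → ℂ), p.1 ∈ M → nsq p.2 < 1 / 2 → (∀ b, ¬ InAct M (bx b) h p.1) →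
    ZH l Pi G p = (Pi p.1 (l₀ p.1), (1 / 2 : ℝ) • p.2)
  ins : ∀ p : V × (Fin k → ℂ), nsq p.2 < 1 / 2 → ∀ b, InBox M (bx b) h p.1 →
    (fderiv ℝ (bx b).κ p.1 (ZH l Pi G p).1, fun i => (ZH l Pi G p).2 (e b i)) =
      XM (H b) ((bx b).κ p.1, fun i => p.2 (e b i)) ∧
    ∀ j, j ∉ range (e b) → (ZH l Pi G p).2 j = (1 / 2 : ℝ) • p.2 j
  out : ∀ p : V × (Fin k → ℂ), p.1 ∈ M → nsq p.2 < 1 / 2 → ∀ b, ¬ InBox M (bx b) h p.1 →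
    ∀ i, (ZH l Pi G p).2 (e b i) = (1 / 2 : ℝ) • p.2 (e b i)

end Ham

/-! ### The local model of one factor, in the variables `(P, a, b)` -/

abbrev R3 : Type := ℝ × ℝ × ℝ

section Loc

def dP (u : R3 → ℝ) (x : R3) : ℝ := fderiv ℝ u x (1, 0, 0)
def da (u : R3 → ℝ) (x : R3) : ℝ := fderiv ℝ u x (0, 1, 0)
def db (u : R3 → ℝ) (x : R3) : ℝ := fderiv ℝ u x (0, 0, 1)

/-- `P + a² + b²` -/
def rad (x : R3) : ℝ := x.1 + x.2.1 ^ 2 + x.2.2 ^ 2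

variable (h0 h1 : R3 → ℝ)

def hs (s : ℝ) (x : R3) : ℝ := h0 x + s * h1 x
def hP (s : ℝ) (x : R3) : ℝ := dP h0 x + s * dP h1 x
def ha (s : ℝ) (x : R3) : ℝ := da h0 x + s * da h1 x
def hb (s : ℝ) (x : R3) : ℝ := db h0 x + s * db h1 x

/-- `a ∂_b h - b ∂_a h` -/
def hr (s : ℝ) (x : R3) : ℝ := x.2.1 * hb h0 h1 s x - x.2.2 * ha h0 h1 s x

/-- the local vector field -/
def XL (A s E : ℝ) (x : R3) : R3 :=
  (x.1 + E, x.2.1 / 2 + A * hb h0 h1 s x, x.2.2 / 2 - A * ha h0 h1 s x)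

/-- the production of the local Lyapunov function -/
def DL (Λ0 Λ1 : R3 → ℝ) (A s e : ℝ) (x : R3) : ℝ :=
  fderiv ℝ Λ0 x (XL h0 h1 A s 0 x) + A * fderiv ℝ Λ1 x (XL h0 h1 A s 0 x) -
    e * A * hP h0 h1 s x

structure Loc (δ : ℝ) (τ : R3 → ℝ) (Zs : Finset ℝ) : Prop where
  sm0 : ContDiff ℝ ∞ h0
  sm1 : ContDiff ℝ ∞ h1
  smτ : ContDiff ℝ ∞ τ
  cp0 : HasCompactSupport h0
  cp1 : HasCompactSupport h1
  supp : ∀ x, 6 * δ < |rad x - 1| → ∀ᶠ y in 𝓝 x, h0 y = 0 ∧ h1 y = 0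
  h1le : ∀ x, |h1 x| ≤ |x.1|
  top : ∀ x : R3, 1 ≤ x.1 → (∀ s, ha h0 h1 s x = 0 ∧ hb h0 h1 s x = 0) ∧
    τ x = x.2.1 ^ 2 + x.2.2 ^ 2 ∧
    ∀ v : R3, fderiv ℝ τ x v = 2 * (x.2.1 * v.2.1 + x.2.2 * v.2.2)
  tube : ∀ x : R3, τ x ≤ (δ / 3) ^ 2 → -δ ≤ x.1 → x.1 ≤ 1 → |rad x - 1| ≤ 6 * δ
  fence : ∃ Cτ, ∀ x : R3, τ x ≤ (δ / 3) ^ 2 → -δ ≤ x.1 → x.1 ≤ 1 → ∀ s E,
    τ x - Cτ * |E| ≤ fderiv ℝ τ x (XL h0 h1 1 s E x)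
  zero : ∀ a ∈ Zs, |a - 1| ≤ δ ∧ |a ^ 2 - 1| ≤ 6 * δ ∧ dP h0 (0, a, 0) = 0 ∧
    da h0 (0, a, 0) = 0 ∧ db h0 (0, a, 0) = -(a / 2) ∧ h1 (0, a, 0) = 0

structure LocL (Zs : Finset ℝ) (Cw : ℝ) (Λ0 Λ1 : R3 → ℝ) (m KΛ : ℝ) : Prop where
  sm0 : ContDiff ℝ ∞ Λ0
  sm1 : ContDiff ℝ ∞ Λ1
  pos : 0 < m
  dPle : ∀ x : R3, |dP Λ0 x| ≤ KΛ * |x.1| ∧ dP Λ1 x = 0
  crit : ∀ a ∈ Zs, fderiv ℝ Λ0 (0, a, 0) + fderiv ℝ Λ1 (0, a, 0) = 0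
  prod : ∀ x : R3, |rad x - 1| ≤ 1 / 4 → x.2.1 ^ 2 + x.2.2 ^ 2 ≤ Cw → ∀ A ∈ Icc (0 : ℝ) 1,
    ∀ s e : ℝ, |s| ≤ 1 → |e| ≤ 2 → 0 ≤ e * s →
    x.1 ^ 2 ≤ DL h0 h1 Λ0 Λ1 A s e x ∧
    (1 / 8 ≤ e * s ∨ A = 0 → m ≤ DL h0 h1 Λ0 Λ1 A s e x) ∧
    (A = 1 → s ^ 2 / 2 ≤ e * s → ∃ a ∈ Zs,
      m * (x.1 ^ 2 + x.2.2 ^ 2 + (x.2.1 - a) ^ 2 + s ^ 2) ≤ DL h0 h1 Λ0 Λ1 A s e x)

end Loc

/-! ### The trap -/

section Trap
variable {n : ℕ}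

/-- `x` is closer than `η` to the lattice `d ℤ` -/
def NearL (d η x : ℝ) : Prop := ∃ m : ℤ, |x - m * d| < η

/-- all `f i` (`i ≠ 0`) and all `g i` are at most `a` -/
def Zone (a : ℝ) (q : Q n) : Prop := (∀ i, i ≠ 0 → |q.1 i| ≤ a) ∧ ∀ i, |q.2 i| ≤ a

/-- the cut-off of the direction `j` is one -/
def Full (d : ℝ) (k₁ : ℕ) (j : Fin (n + 1)) (q : Q n) : Prop :=
  |q.1 0| ≤ d / 4 ∧ Zone ((k₁ + if j = 0 then 0 else 10) * d) q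

def sn (d x : ℝ) : ℝ := sin (π * x / d)

structure Cut (d : ℝ) (k₁ : ℕ) (A : Fin (n + 1) → Q n → ℝ) (CA : ℝ) : Prop where
  sm : ∀ j, ContDiff ℝ ∞ (A j)
  mem : ∀ j q, A j q ∈ Icc (0 : ℝ) 1
  bd : ∀ j q, ‖fderiv ℝ (A j) q‖ ≤ CA
  ff : ∀ j q i, NearL d (d / 4) (q.1 i) → fderiv ℝ (A j) q (Pi.single i 1, 0) = 0
  gg : ∀ j q i, sn d (q.2 i) ^ 2 < 1 / 4 → fderiv ℝ (A j) q (0, Pi.single i 1) = 0
  loc : ∀ j q, (∀ i, NearL d (d / 4) (q.1 i)) → (∀ i, sn d (q.2 i) ^ 2 < 1 / 4) →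
    (A j q = 0 ∨ A j q = 1) ∧ ∀ᶠ q' in 𝓝 q, A j q' = A j q
  supp : ∀ j q, 3 / 4 * d < |q.1 0| ∨ ¬ Zone ((k₁ + 11) * d) q → ∀ᶠ q' in 𝓝 q, A j q' = 0
  supp0 : ∀ q, ¬ Zone ((k₁ + 1) * d) q → A 0 q = 0
  full : ∀ j q, Full d k₁ j q → A j q = 1

/-- the factors: a direction and a level -/
abbrev Fa (n K : ℕ) : Type := Fin (n + 1) × Fin (2 * K + 1)

/-- the level -/
def lev {K : ℕ} (k : Fin (2 * K + 1)) : ℤ := (k : ℕ) - K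

variable {K : ℕ}

/-- `exp` of the level -/
def LL (d : ℝ) (f : Fa n K) : ℝ := exp (lev f.2 * d)

/-- the angle of the rotating frame -/
def ang (d r : ℝ) (f : Fa n K) (q : Q n) : ℝ := 2 * LL d f / r ^ 2 * q.2 f.1

/-- the variables `(P, a, b)` of the factor `f` -/
def pab (d r : ℝ) (f : Fa n K) (p : Q n × (Fa n K → ℂ)) : R3 :=
  (exp (p.1.1 f.1) / LL d f - ((p.2 f).re ^ 2 + (p.2 f).im ^ 2) / r ^ 2,
    ((p.2 f).re * cos (ang d r f p.1) - (p.2 f).im * sin (ang d r f p.1)) / r,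
    ((p.2 f).re * sin (ang d r f p.1) + (p.2 f).im * cos (ang d r f p.1)) / r)

variable (h0 h1 : R3 → ℝ) (A : Fin (n + 1) → Q n → ℝ)

/-- the Hamiltonian of the trap -/
def HT (d r : ℝ) (p : Q n × (Fa n K → ℂ)) : ℝ :=
  r ^ 2 * ∑ f : Fa n K, A f.1 p.1 * hs h0 h1 (sn d (p.1.2 f.1)) (pab d r f p)

/-- explicit `g j`-derivative through the cut-offs, divided by `r²` -/
def Ecut (d r : ℝ) (j : Fin (n + 1)) (p : Q n × (Fa n K → ℂ)) : ℝ :=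
  ∑ f : Fa n K, fderiv ℝ (A f.1) p.1 (0, Pi.single j 1) *
    hs h0 h1 (sn d (p.1.2 f.1)) (pab d r f p)

/-- explicit `f j`-derivative through the cut-offs, divided by `r²` -/
def Fcut (d r : ℝ) (j : Fin (n + 1)) (p : Q n × (Fa n K → ℂ)) : ℝ :=
  ∑ f : Fa n K, fderiv ℝ (A f.1) p.1 (Pi.single j 1, 0) *
    hs h0 h1 (sn d (p.1.2 f.1)) (pab d r f p)

/-- explicit `g j`-derivative through the sine, divided by `r²` -/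
def Esin (d r : ℝ) (j : Fin (n + 1)) (p : Q n × (Fa n K → ℂ)) : ℝ :=
  A j p.1 * (π / d * cos (π * p.1.2 j / d)) * ∑ k, h1 (pab d r (j, k) p)

/-- exact formulas for the field of the trap -/
structure Calc (d r : ℝ) : Prop where
  sm : ContDiff ℝ ∞ (HT (K := K) h0 h1 A d r)
  smp : ∀ f : Fa n K, ContDiff ℝ ∞ (pab d r f)
  radp : ∀ (f : Fa n K) p, rad (pab d r f p) = exp (p.1.1 f.1 - lev f.2 * d)
  absp : ∀ (f : Fa n K) p, r ^ 2 * ((pab d r f p).2.1 ^ 2 + (pab d r f p).2.2 ^ 2) =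
    (p.2 f).re ^ 2 + (p.2 f).im ^ 2
  fdot : ∀ (p : Q n × (Fa n K → ℂ)) j, (XM (HT h0 h1 A d r) p).1.1 j = 1 + exp (-p.1.1 j) *
    (r ^ 2 * (Ecut h0 h1 A d r j p + Esin h1 A d r j p) +
      ∑ k, 2 * LL d (j, k) * A j p.1 * hr h0 h1 (sn d (p.1.2 j)) (pab d r (j, k) p))
  gdot : ∀ (p : Q n × (Fa n K → ℂ)) j, (XM (HT h0 h1 A d r) p).1.2 j = -(r ^ 2 *
    (exp (-p.1.1 j) * Fcut h0 h1 A d r j p +
      A j p.1 * ∑ k, hP h0 h1 (sn d (p.1.2 j)) (pab d r (j, k) p) / LL d (j, k)))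
  zdot : ∀ (p : Q n × (Fa n K → ℂ)) f,
    let x := pab d r f p
    let s := sn d (p.1.2 f.1)
    let u := A f.1 p.1 * (hb h0 h1 s x - 2 * x.2.2 * hP h0 h1 s x)
    let v := -(A f.1 p.1 * (ha h0 h1 s x - 2 * x.2.1 * hP h0 h1 s x))
    (shC (d2 (HT h0 h1 A d r) p) f).re =
        r * (u * cos (ang d r f p.1) + v * sin (ang d r f p.1)) ∧
      (shC (d2 (HT h0 h1 A d r) p) f).im =
        r * (v * cos (ang d r f p.1) - u * sin (ang d r f p.1))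
  rdot : ∀ (p : Q n × (Fa n K → ℂ)) f,
    (p.2 f).re * (shC (d2 (HT h0 h1 A d r) p) f).re +
      (p.2 f).im * (shC (d2 (HT h0 h1 A d r) p) f).im =
      r ^ 2 * (A f.1 p.1 * hr h0 h1 (sn d (p.1.2 f.1)) (pab d r f p))
  wdot : ∀ (p : Q n × (Fa n K → ℂ)) f,
    let x := pab d r f p
    let v := fderiv ℝ (pab d r f) p (XM (HT h0 h1 A d r) p)
    x.2.1 * v.2.1 + x.2.2 * v.2.2 = (x.2.1 ^ 2 + x.2.2 ^ 2) / 2 +
      A f.1 p.1 * hr h0 h1 (sn d (p.1.2 f.1)) x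
  band : ∀ (p : Q n × (Fa n K → ℂ)) (f : Fa n K), Fcut h0 h1 A d r f.1 p = 0 →
    (∀ k, k ≠ f.2 → hP h0 h1 (sn d (p.1.2 f.1)) (pab d r (f.1, k) p) = 0 ∧
      hr h0 h1 (sn d (p.1.2 f.1)) (pab d r (f.1, k) p) = 0) →
    fderiv ℝ (pab d r f) p (XM (HT h0 h1 A d r) p) =
      XL h0 h1 (A f.1 p.1) (sn d (p.1.2 f.1))
        (r ^ 2 * (Ecut h0 h1 A d r f.1 p + Esin h1 A d r f.1 p) / LL d f) (pab d r f p)

end Trap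

/-! ### Differential inequalities used by the dynamics of the trap -/

section Rates
variable {n : ℕ} {ι : Type} [Fintype ι]

/-- outside the bands the `f j` grow with speed about one -/
def RateUp (X : Q n × (ι → ℂ) → Q n × (ι → ℂ)) (Ω : Set (Q n × (ι → ℂ))) (d : ℝ) (k₁ : ℕ) :
    Prop :=
  (∀ p ∈ Ω, ∀ j, (∀ m : ℤ, d / 16 < |p.1.1 j - m * d|) → |(X p).1.1 j - 1| ≤ 1 / 4) ∧
  ∀ p ∈ Ω, d / 16 < |p.1.1 0| ∨ ¬ Zone ((k₁ + 1) * d) p.1 → |(X p).1.1 0 - 1| ≤ 1 / 4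

/-- barriers for the `g j` -/
def RateBar (X : Q n × (ι → ℂ) → Q n × (ι → ℂ)) (Ω : Set (Q n × (ι → ℂ))) (d : ℝ) : Prop :=
  ∃ (L : Q n × (ι → ℂ) → ℝ) (m : ℝ), ContDiff ℝ ∞ L ∧ 0 < m ∧
    (∀ p ∈ Ω, ∀ p' ∈ Ω, L p - L p' ≤ d / 2) ∧
    ∀ p ∈ Ω, ∀ j, ∀ ς : ℝ, ς = 1 ∨ ς = -1 → 1 / 2 ≤ ς * sn d (p.1.2 j) →
      m ≤ ς * (X p).1.2 j + fderiv ℝ L p (X p)

/-- a clean factor holds `f j` at the level `k` -/
def RateCatch (X : Q n × (ι → ℂ) → Q n × (ι → ℂ)) (Ω : Set (Q n × (ι → ℂ))) (d w c2 : ℝ)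
    (k₁ : ℕ) : Prop :=
  ∀ (j : Fin (n + 1)) (k : ℤ), |(k : ℝ)| * d ≤ 4 * w + 2 * d →
    ∃ (τ P : Q n × (ι → ℂ) → ℝ) (κ p₀ m : ℝ), ContDiff ℝ ∞ τ ∧ ContDiff ℝ ∞ P ∧ 0 < m ∧
      (∀ p ∈ Ω, (k + 1 / 16) * d ≤ p.1.1 j → nsq p.2 ≤ c2 → τ p < κ ∧ -p₀ < P p) ∧
      (∀ p ∈ Ω, τ p ≤ κ → -p₀ ≤ P p → (k - 1 / 16) * d ≤ p.1.1 j) ∧
      (∀ p ∈ Ω, τ p = κ → -p₀ ≤ P p → (|p.1.1 j - k * d| ≤ d / 16 → Full d k₁ j p.1) →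
        m ≤ fderiv ℝ τ p (X p)) ∧
      ∀ p ∈ Ω, τ p ≤ κ → P p = -p₀ → fderiv ℝ P p (X p) ≤ -m

end Rates

end

end Pool.Agent.MP_6d695c_gt.SW
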