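import Mathlib.Analysis.ODE.ExistUnique
import Mathlib.Analysis.Calculus.ImplicitContDiff
import Mathlib.Topology.MetricSpace.Contracting
import Mathlib.Topology.ContinuousMap.Compact
import Mathlib.Topology.ContinuousMap.Algebra
import Mathlib.MeasureTheory.Integral.IntervalIntegral.FundThmCalculus
import Mathlib.MeasureTheory.Integral.DominatedConvergence
import Pool.Agent.MP_6d695c_gt.sw.Defs

/-! PROJECT SW: the smooth global flow of a smooth globally Lipschitz vector field
(self-contained copy of three modules of `MP_2291e2_gt/zl`). -/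

open scoped ContDiff Topology
open Set Filter Real

namespace Pool.Agent.MP_6d695c_gt.SW.Fl

abbrev II : Type := unitInterval

/-- Composition operators on spaces of continuous maps are smooth. -/
def NemStmt : Prop :=
  ∀ (K : Type) [TopologicalSpace K] [CompactSpace K] (A B : Type) [NormedAddCommGroup A]
    [NormedSpace ℝ A] [NormedAddCommGroup B] [NormedSpace ℝ B] (Ω : Set A) (χ : A → B),
    IsOpen Ω → ContDiffOn ℝ ∞ χ Ω →
    IsOpen {g : C(K, A) | ∀ k, g k ∈ Ω} ∧
    ∃ N : C(K, A) → C(K, B), ContDiffOn ℝ ∞ N {g | ∀ k, g k ∈ Ω} ∧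
      ∀ g : C(K, A), (∀ k, g k ∈ Ω) → ∀ k, N g k = χ (g k)

/-- Fixed points of uniform contractions depend smoothly on parameters. -/
def FixStmt : Prop :=
  ∀ (X Y : Type) [NormedAddCommGroup X] [NormedSpace ℝ X] [CompleteSpace X] [NormedAddCommGroup Y]
    [NormedSpace ℝ Y] [CompleteSpace Y] (Ω : Set X) (T : X × Y → Y), IsOpen Ω →
    ContDiffOn ℝ ∞ T (Ω ×ˢ univ) →
    (∀ x ∈ Ω, ∀ y y', ‖T (x, y) - T (x, y')‖ ≤ 1 / 2 * ‖y - y'‖) →
    ∃ g : X → Y, ContDiffOn ℝ ∞ g Ω ∧ ∀ x ∈ Ω, T (x, g x) = g x ∧ ∀ y, T (x, y) = y → y = g x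

theorem fix_of : FixStmt := by
  intro X Y _ _ _ _ _ _ Ω T hΩ hT hc
  have ex : ∀ x, ∃ y, x ∈ Ω → T (x, y) = y ∧ ∀ y', T (x, y') = y' → y' = y := by
    intro x
    by_cases hx : x ∈ Ω
    · have h : ContractingWith (1 / 2) fun y => T (x, y) :=
        ⟨by norm_num, LipschitzWith.of_dist_le_mul fun y y' => by
          simpa only [dist_eq_norm, NNReal.coe_div, NNReal.coe_one, NNReal.coe_ofNat]
            using hc x hx y y'⟩
      exact ⟨h.fixedPoint _, fun _ => ⟨h.fixedPoint_isFixedPt, fun y' hy => h.fixedPoint_unique hy⟩⟩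
    · exact ⟨0, fun h => absurd h hx⟩
  choose g hg using ex
  refine ⟨g, fun x₀ hx => ContDiffAt.contDiffWithinAt ?_, hg⟩
  have hT₀ : ContDiffAt ℝ ∞ T (x₀, g x₀) :=
    hT.contDiffAt ((hΩ.prod isOpen_univ).mem_nhds ⟨hx, mem_univ _⟩)
  have cdf : ContDiffAt ℝ ∞ (fun q : X × Y => q.2 - T q) (x₀, g x₀) := contDiffAt_snd.sub hT₀
  have d1 := (hT₀.differentiableAt (by simp)).hasFDerivAt
  have d2 : HasFDerivAt (fun y => T (x₀, y))
      (fderiv ℝ T (x₀, g x₀) ∘L ContinuousLinearMap.inr ℝ X Y) (g x₀) :=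
    d1.comp (g x₀) (hasFDerivAt_prodMk_right x₀ (g x₀))
  have n1 : ‖fderiv ℝ T (x₀, g x₀) ∘L ContinuousLinearMap.inr ℝ X Y‖ < 1 :=
    (d2.le_of_lip' (by norm_num) (Eventually.of_forall fun y => hc x₀ hx y _)).trans_lt
      (by norm_num)
  have inv : (fderiv ℝ (fun q : X × Y => q.2 - T q) (x₀, g x₀) ∘L
      ContinuousLinearMap.inr ℝ X Y).IsInvertible := by
    refine ⟨ContinuousLinearEquiv.ofUnit (Units.oneSub _ n1), ?_⟩
    rw [(hasFDerivAt_snd.fun_sub d1).fderiv]
    ext y
    simp [ContinuousLinearEquiv.ofUnit]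
  refine (cdf.contDiffAt_implicitFunction (by simp) inv).congr_of_eventuallyEq ?_
  filter_upwards [cdf.eventually_apply_implicitFunction (by simp) inv, hΩ.mem_nhds hx] with x h hx'
  simp only [(hg x₀ hx).1, sub_self] at h
  exact ((hg x hx').2 _ (sub_eq_zero.1 h).symm).symm

namespace Nem

variable {K A : Type} [TopologicalSpace K] [CompactSpace K] [NormedAddCommGroup A]
  [NormedSpace ℝ A]

/-- Pointwise application of a family of linear maps. -/
noncomputable def app (K A B : Type) [TopologicalSpace K] [CompactSpace K] [NormedAddCommGroup A]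
    [NormedSpace ℝ A] [NormedAddCommGroup B] [NormedSpace ℝ B] :
    C(K, A →L[ℝ] B) →L[ℝ] C(K, A) →L[ℝ] C(K, B) :=
  LinearMap.mkContinuous₂ (LinearMap.mk₂ ℝ
    (fun (F : C(K, A →L[ℝ] B)) (h : C(K, A)) =>
      (⟨fun k => F k (h k), F.continuous.clm_apply h.continuous⟩ : C(K, B)))
    (fun F F' h => by ext k; simp) (fun c F h => by ext k; simp)
    (fun F h h' => by ext k; simp) (fun c F h => by ext k; simp)) 1 fun F h => by
      rw [one_mul]
      refine (ContinuousMap.norm_le _ (by positivity)).2 fun k => ?_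
      exact ((F k).le_opNorm (h k)).trans (mul_le_mul (F.norm_coe_le_norm k)
        (h.norm_coe_le_norm k) (norm_nonneg _) (by positivity))

/-- The composition operator. -/
noncomputable def nem {B : Type} [NormedAddCommGroup B] (χ : A → B) (g : C(K, A)) : C(K, B) :=
  ContinuousMap.mkD (fun k => χ (g k)) 0

omit [CompactSpace K] [NormedSpace ℝ A] in
theorem nem_apply {B : Type} [NormedAddCommGroup B] {Ω : Set A} {χ : A → B}
    (hχ : ContinuousOn χ Ω) {g : C(K, A)} (hg : ∀ k, g k ∈ Ω) (k : K) : nem χ g k = χ (g k) :=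
  ContinuousMap.mkD_apply_of_continuous (hχ.comp_continuous g.continuous hg)

omit [NormedSpace ℝ A] in
theorem isOpen_dom {Ω : Set A} (hΩ : IsOpen Ω) : IsOpen {g : C(K, A) | ∀ k, g k ∈ Ω} := by
  have := ContinuousMap.isOpen_setOfPred_mapsTo (X := K) isCompact_univ hΩ
  simpa only [mapsTo_univ_iff] using this

theorem hasFDerivAt_nem {B : Type} [NormedAddCommGroup B] [NormedSpace ℝ B] {Ω : Set A}
    {χ : A → B} (hΩ : IsOpen Ω) (hχ : ContDiffOn ℝ ∞ χ Ω) {g : C(K, A)} (hg : ∀ k, g k ∈ Ω) :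
    HasFDerivAt (nem χ) (app K A B (nem (fderiv ℝ χ) g)) g := by
  have h1 : ContinuousOn (fderiv ℝ χ) Ω := hχ.continuousOn_fderiv_of_isOpen hΩ (by simp)
  have hK : IsCompact (range g) := isCompact_range g.continuous
  have hs : range g ⊆ Ω := range_subset_iff.2 hg
  rw [hasFDerivAt_iff_isLittleO, Asymptotics.isLittleO_iff]
  intro ε hε
  obtain ⟨δ₁, hδ₁, t1⟩ := hK.exists_thickening_subset_open hΩ hs
  obtain ⟨δ₂, hδ₂, t2⟩ := Metric.mem_uniformity_dist.1
    (hK.uniformContinuousAt_of_continuousAt (fderiv ℝ χ)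
      (fun a ha => h1.continuousAt (hΩ.mem_nhds (hs ha))) (Metric.dist_mem_uniformity hε))
  have hb : ∀ k, Metric.ball (g k) (min δ₁ δ₂) ⊆ Ω := fun k y hy =>
    t1 (Metric.mem_thickening_iff.2 ⟨g k, ⟨k, rfl⟩, hy.trans_le (min_le_left _ _)⟩)
  filter_upwards [Metric.ball_mem_nhds g (lt_min hδ₁ hδ₂)] with g' hg'
  have hk : ∀ k, g' k ∈ Metric.ball (g k) (min δ₁ δ₂) := fun k =>
    (ContinuousMap.dist_apply_le_dist k).trans_lt hg'
  refine (ContinuousMap.norm_le _ (by positivity)).2 fun k => ?_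
  have e : (nem χ g' - nem χ g - app K A B (nem (fderiv ℝ χ) g) (g' - g)) k =
      χ (g' k) - χ (g k) - fderiv ℝ χ (g k) (g' k - g k) := by
    rw [← nem_apply hχ.continuousOn hg k, ← nem_apply hχ.continuousOn (fun k => hb k (hk k)) k,
      ← nem_apply h1 hg k]
    rfl
  rw [e]
  refine (Convex.norm_image_sub_le_of_norm_hasFDerivWithin_le' (f' := fderiv ℝ χ) (C := ε)
    (fun y hy => ?_) (fun y hy => ?_) (convex_ball _ _)
    (Metric.mem_ball_self (lt_min hδ₁ hδ₂)) (hk k)).trans ?_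
  · exact ((hχ.contDiffAt (hΩ.mem_nhds (hb k hy))).differentiableAt
      (by simp)).hasFDerivAt.hasFDerivWithinAt
  · rw [← dist_eq_norm, dist_comm]
    exact (t2 (a := g k) (b := y) ((Metric.mem_ball'.1 hy).trans_le (min_le_right _ _))
      ⟨k, rfl⟩).le
  · exact mul_le_mul_of_nonneg_left ((g' - g).norm_coe_le_norm k) hε.le

theorem contDiffOn_nem {Ω : Set A} (hΩ : IsOpen Ω) (n : ℕ) : ∀ (B : Type) [NormedAddCommGroup B]
    [NormedSpace ℝ B] (χ : A → B), ContDiffOn ℝ ∞ χ Ω →
    ContDiffOn ℝ n (nem χ) {g : C(K, A) | ∀ k, g k ∈ Ω} := by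
  induction n with
  | zero =>
    intro B _ _ χ hχ
    exact contDiffOn_zero.2 fun g hg => (hasFDerivAt_nem hΩ hχ hg).continuousAt.continuousWithinAt
  | succ n ih =>
    intro B _ _ χ hχ
    rw [Nat.cast_succ, contDiffOn_succ_iff_fderiv_of_isOpen (isOpen_dom hΩ)]
    refine ⟨fun g hg => (hasFDerivAt_nem hΩ hχ hg).differentiableAt.differentiableWithinAt,
      fun h => absurd h (by simp), ?_⟩
    have h1 := ih (A →L[ℝ] B) (fderiv ℝ χ) (hχ.fderiv_of_isOpen hΩ (by simp))
    have h2 : ContDiff ℝ n (app K A B) :=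
      ContinuousLinearMap.contDiff (𝕜 := ℝ) (E := C(K, A →L[ℝ] B)) (F := C(K, A) →L[ℝ] C(K, B))
        (app K A B)
    have h3 : ContDiffOn ℝ n (fun g => app K A B (nem (fderiv ℝ χ) g))
        {g : C(K, A) | ∀ k, g k ∈ Ω} := h2.comp_contDiffOn h1
    exact h3.congr fun g hg => (hasFDerivAt_nem hΩ hχ hg).fderiv

end Nem

theorem nem_of : NemStmt := fun _ _ _ _ B _ _ _ _ _ χ hΩ hχ =>
  ⟨Nem.isOpen_dom hΩ, Nem.nem χ, contDiffOn_infty.2 fun n => Nem.contDiffOn_nem hΩ n B χ hχ,
    fun _ hg => Nem.nem_apply hχ.continuousOn hg⟩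

namespace Flow

variable {X : Type} [NormedAddCommGroup X] [NormedSpace ℝ X]

/-- Extension of a function on the unit interval to the line. -/
noncomputable def ex (g : C(II, X)) (r : ℝ) : X := g (projIcc 0 1 zero_le_one r)

omit [NormedSpace ℝ X] in
lemma continuous_ex (g : C(II, X)) : Continuous (ex g) :=
  g.continuous.comp continuous_projIcc

omit [NormedSpace ℝ X] in
lemma ex_of_mem (g : C(II, X)) {r : ℝ} (h : r ∈ Icc (0 : ℝ) 1) : ex g r = g ⟨r, h⟩ := by
  simp only [ex, projIcc_of_mem _ h]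

lemma continuous_prim [CompleteSpace X] {c : ℝ → X} (hc : Continuous c) :
    Continuous fun s => ∫ r in (0 : ℝ)..s, c r :=
  intervalIntegral.continuous_primitive (fun a b => hc.intervalIntegrable a b) 0

/-- The primitive as a linear map. -/
noncomputable def primL [CompleteSpace X] : C(II, X) →ₗ[ℝ] C(II, X) where
  toFun g := ⟨fun s => ∫ r in (0 : ℝ)..(s : ℝ), ex g r,
    (continuous_prim (continuous_ex g)).comp continuous_subtype_val⟩
  map_add' g h := by
    ext s
    have e : ex (g + h) = fun r => ex g r + ex h r := rfl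
    simp only [ContinuousMap.coe_mk, ContinuousMap.add_apply, e]
    exact intervalIntegral.integral_add ((continuous_ex g).intervalIntegrable _ _)
      ((continuous_ex h).intervalIntegrable _ _)
  map_smul' c g := by
    ext s
    have e : ex (c • g) = fun r => c • ex g r := rfl
    simp only [ContinuousMap.coe_mk, ContinuousMap.smul_apply, e, RingHom.id_apply]
    exact intervalIntegral.integral_smul c _

lemma primL_apply [CompleteSpace X] (g : C(II, X)) (s : II) :
    primL g s = ∫ r in (0 : ℝ)..(s : ℝ), ex g r := rfl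

/-- The primitive as a continuous linear map. -/
noncomputable def prim [CompleteSpace X] : C(II, X) →L[ℝ] C(II, X) :=
  primL.mkContinuous 1 (by
    intro g
    rw [one_mul, ContinuousMap.norm_le _ (norm_nonneg g)]
    intro s
    rw [primL_apply]
    have h := intervalIntegral.norm_integral_le_of_norm_le_const (a := 0) (b := (s : ℝ))
      (C := ‖g‖) (f := ex g) (fun r _ => g.norm_coe_le_norm _)
    refine h.trans ?_
    have h1 : |(s : ℝ) - 0| ≤ 1 := by
      rw [sub_zero, abs_of_nonneg s.2.1]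
      exact s.2.2
    exact mul_le_of_le_one_right (norm_nonneg g) h1)

lemma prim_apply [CompleteSpace X] (g : C(II, X)) (s : II) :
    prim g s = ∫ r in (0 : ℝ)..(s : ℝ), ex g r := rfl

/-- The graph embedding. -/
noncomputable def emb (q : ℝ × C(II, X)) : C(II, ℝ × ℝ × X) :=
  ⟨fun r => (q.1, (r : ℝ), q.2 r), by fun_prop⟩

omit [NormedSpace ℝ X] in
lemma emb_apply (q : ℝ × C(II, X)) (r : II) : emb q r = (q.1, (r : ℝ), q.2 r) := rfl

lemma contDiff_emb : ContDiff ℝ ∞ (emb : ℝ × C(II, X) → C(II, ℝ × ℝ × X)) := by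
  let c0 : C(II, ℝ × ℝ × X) := ⟨fun r => (0, (r : ℝ), 0), by fun_prop⟩
  let A : ℝ →L[ℝ] C(II, ℝ × ℝ × X) :=
    (ContinuousLinearMap.const ℝ II).comp (ContinuousLinearMap.inl ℝ ℝ (ℝ × X))
  let B : C(II, X) →L[ℝ] C(II, ℝ × ℝ × X) :=
    ContinuousLinearMap.compLeftContinuous ℝ II
      ((ContinuousLinearMap.inr ℝ ℝ (ℝ × X)).comp (ContinuousLinearMap.inr ℝ ℝ X))
  have e : (emb : ℝ × C(II, X) → C(II, ℝ × ℝ × X)) = fun q => c0 + A q.1 + B q.2 := by
    funext q
    ext r <;> simp [emb_apply, c0, A, B]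
  rw [e]
  exact (contDiff_const.add (A.contDiff.comp contDiff_fst)).add (B.contDiff.comp contDiff_snd)

lemma nem (hN : NemStmt) {A B : Type} [NormedAddCommGroup A] [NormedSpace ℝ A]
    [NormedAddCommGroup B] [NormedSpace ℝ B] {χ : A → B} (h : ContDiff ℝ ∞ χ) :
    ∃ N : C(II, A) → C(II, B), ContDiff ℝ ∞ N ∧ ∀ g k, N g k = χ (g k) := by
  obtain ⟨-, N, h1, h2⟩ := hN II A B univ χ isOpen_univ h.contDiffOn
  refine ⟨N, ?_, fun g k => h2 g (fun _ => mem_univ _) k⟩
  rw [← contDiffOn_univ]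
  exact h1.mono fun g _ _ => mem_univ _

/-- The weight. -/
noncomputable def wt (K : ℝ) (t : ℝ) : ℝ := 2 * (K + 1) * (1 + t ^ 2)

lemma wt_pos {K : ℝ} (hK : 0 ≤ K) (t : ℝ) : 0 < wt K t := by
  unfold wt
  positivity

lemma wt_bound {K : ℝ} (hK : 0 ≤ K) (t : ℝ) : |t| * K ≤ 1 / 2 * wt K t := by
  unfold wt
  have h1 : |t| ≤ 1 + t ^ 2 := by
    have := sq_abs t
    nlinarith [abs_nonneg t, sq_nonneg (|t| - 1)]
  have h2 : |t| * K ≤ (1 + t ^ 2) * K := mul_le_mul_of_nonneg_right h1 hK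
  nlinarith [sq_nonneg t]

lemma integral_exp_le {L : ℝ} (hL : 0 < L) (s : ℝ) :
    ∫ r in (0 : ℝ)..s, exp (L * r) ≤ exp (L * s) / L := by
  have h : ∀ r ∈ uIcc (0 : ℝ) s, HasDerivAt (fun r => exp (L * r) / L) (exp (L * r)) r := by
    intro r _
    have h1 : HasDerivAt (fun r => exp (L * r)) (exp (L * r) * (L * 1)) r :=
      ((hasDerivAt_id r).const_mul L).exp
    have h2 := h1.div_const L
    have e : exp (L * r) * (L * 1) / L = exp (L * r) := by field_simp
    rwa [e] at h2
  rw [intervalIntegral.integral_eq_sub_of_hasDerivAt h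
    ((by fun_prop : Continuous fun r => exp (L * r)).intervalIntegrable _ _)]
  have : 0 < exp (L * 0) / L := by positivity
  linarith

/-- Solutions of the integral equation that depend smoothly on the data. -/
lemma exists_sol (hN : NemStmt) (hF : FixStmt) [CompleteSpace X] {f : X → X} {K : NNReal}
    (hf : ContDiff ℝ ∞ f) (hK : LipschitzWith K f) :
    ∃ y : ℝ × X → C(II, X), ContDiff ℝ ∞ y ∧
      ∀ q s, y q s = q.2 + q.1 • ∫ r in (0 : ℝ)..(s : ℝ), f (ex (y q) r) := by
  have hK0 : (0 : ℝ) ≤ K := K.2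
  have hw : ContDiff ℝ ∞ (wt K) := by
    unfold wt
    fun_prop
  have hw1 : ContDiff ℝ ∞ (fun a : ℝ × ℝ × X => wt K a.1 * a.2.1) :=
    (hw.comp contDiff_fst).mul (contDiff_fst.comp contDiff_snd)
  have hup : ContDiff ℝ ∞ (fun a : ℝ × ℝ × X => exp (wt K a.1 * a.2.1) • a.2.2) :=
    hw1.exp.smul (contDiff_snd.comp contDiff_snd)
  have hdn : ContDiff ℝ ∞ (fun a : ℝ × ℝ × X => exp (-(wt K a.1 * a.2.1)) • a.2.2) :=
    hw1.neg.exp.smul (contDiff_snd.comp contDiff_snd)
  obtain ⟨N0, s0, v0⟩ := nem hN hup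
  obtain ⟨N1, s1, v1⟩ := nem hN (hf.comp hup)
  obtain ⟨N2, s2, v2⟩ := nem hN hdn
  let T : (ℝ × X) × C(II, X) → C(II, X) := fun a =>
    N2 (emb (a.1.1, ContinuousLinearMap.const ℝ II a.1.2 + a.1.1 • prim (N1 (emb (a.1.1, a.2)))))
  have hT : ContDiff ℝ ∞ T := by
    have h1 : ContDiff ℝ ∞ (fun a : (ℝ × X) × C(II, X) => a.1.1) := contDiff_fst.comp contDiff_fst
    have h2 : ContDiff ℝ ∞ (fun a : (ℝ × X) × C(II, X) => a.1.2) := contDiff_snd.comp contDiff_fst
    refine s2.comp (contDiff_emb.comp (h1.prodMk ?_))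
    refine ((ContinuousLinearMap.const ℝ II : X →L[ℝ] C(II, X)).contDiff.comp h2).add
      (h1.smul ?_)
    exact (prim : C(II, X) →L[ℝ] C(II, X)).contDiff.comp
      (s1.comp (contDiff_emb.comp (h1.prodMk contDiff_snd)))
  have vT : ∀ a s, T a s = exp (-(wt K a.1.1 * s)) •
      (a.1.2 + a.1.1 • ∫ r in (0 : ℝ)..(s : ℝ), ex (N1 (emb (a.1.1, a.2))) r) := by
    intro a s
    simp only [T, v2, emb_apply]
    rfl
  have hc : ∀ q ∈ (univ : Set (ℝ × X)), ∀ z z', ‖T (q, z) - T (q, z')‖ ≤ 1 / 2 * ‖z - z'‖ := by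
    intro q _ z z'
    rw [ContinuousMap.norm_le _ (by positivity)]
    intro s
    have hL := wt_pos hK0 q.1
    rw [ContinuousMap.sub_apply, vT, vT, ← smul_sub, add_sub_add_left_eq_sub, ← smul_sub,
      ← intervalIntegral.integral_sub ((continuous_ex _).intervalIntegrable _ _)
        ((continuous_ex _).intervalIntegrable _ _)]
    have hb : ‖∫ r in (0 : ℝ)..(s : ℝ),
        (ex (N1 (emb (q.1, z))) r - ex (N1 (emb (q.1, z'))) r)‖
        ≤ ∫ r in (0 : ℝ)..(s : ℝ), K * ‖z - z'‖ * exp (wt K q.1 * r) := by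
      refine intervalIntegral.norm_integral_le_of_norm_le s.2.1 (Eventually.of_forall ?_)
        ((by fun_prop : Continuous fun r => K * ‖z - z'‖ * exp (wt K q.1 * r)).intervalIntegrable
          _ _)
      intro r hr
      have hr' : r ∈ Icc (0 : ℝ) 1 := ⟨hr.1.le, hr.2.trans s.2.2⟩
      rw [ex_of_mem _ hr', ex_of_mem _ hr', v1, v1]
      simp only [emb_apply, Function.comp]
      refine (hK.norm_sub_le _ _).trans ?_
      rw [← smul_sub, norm_smul, Real.norm_of_nonneg (exp_pos _).le, mul_assoc,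
        mul_comm ‖z - z'‖]
      refine mul_le_mul_of_nonneg_left (mul_le_mul_of_nonneg_left ?_ (exp_pos _).le) hK0
      exact (z - z').norm_coe_le_norm ⟨r, hr'⟩
    rw [intervalIntegral.integral_const_mul] at hb
    have hb2 := hb.trans (mul_le_mul_of_nonneg_left (integral_exp_le hL s)
      (mul_nonneg hK0 (norm_nonneg _)))
    rw [norm_smul, norm_smul, Real.norm_of_nonneg (exp_pos _).le, Real.norm_eq_abs]
    refine (mul_le_mul_of_nonneg_left (mul_le_mul_of_nonneg_left hb2 (abs_nonneg _))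
      (exp_pos _).le).trans ?_
    have e : exp (-(wt K q.1 * s)) * (|q.1| * (K * ‖z - z'‖ * (exp (wt K q.1 * s) / wt K q.1)))
        = (|q.1| * K / wt K q.1) * ‖z - z'‖ := by
      rw [exp_neg]
      field_simp
    rw [e]
    refine mul_le_mul_of_nonneg_right ?_ (norm_nonneg _)
    rw [div_le_iff₀ hL]
    exact wt_bound hK0 q.1
  obtain ⟨g, hg, hg2⟩ := hF (ℝ × X) C(II, X) univ T isOpen_univ hT.contDiffOn hc
  rw [contDiffOn_univ] at hg
  refine ⟨fun q => N0 (emb (q.1, g q)), s0.comp (contDiff_emb.comp (contDiff_fst.prodMk hg)), ?_⟩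
  intro q s
  have e1 : ∀ r, ex (N1 (emb (q.1, g q))) r = f (ex (N0 (emb (q.1, g q))) r) := by
    intro r
    simp only [ex, v0, v1, Function.comp]
  have e2 := vT (q, g q) s
  rw [(hg2 q (mem_univ _)).1] at e2
  simp only [e1] at e2
  rw [v0]
  simp only [emb_apply]
  rw [e2, smul_smul, ← exp_add, add_neg_cancel, exp_zero, one_smul]

/-- The end point map of the solutions satisfies the integral equation in time. -/
lemma exists_flow (hN : NemStmt) (hF : FixStmt) [CompleteSpace X] {f : X → X} {K : NNReal}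
    (hf : ContDiff ℝ ∞ f) (hK : LipschitzWith K f) :
    ∃ φ : ℝ → X → X, ContDiff ℝ ∞ (fun q : ℝ × X => φ q.1 q.2) ∧
      ∀ t x, φ t x = x + ∫ r in (0 : ℝ)..t, f (φ r x) := by
  obtain ⟨y, hy, hy2⟩ := exists_sol hN hF hf hK
  let Y : ℝ × X → ℝ → X := fun q s => q.2 + q.1 • ∫ r in (0 : ℝ)..s, f (ex (y q) r)
  have hYe : ∀ q, ∀ s ∈ Icc (0 : ℝ) 1, Y q s = ex (y q) s := by
    intro q s hs
    rw [ex_of_mem _ hs, hy2]
  have hYd : ∀ q s, HasDerivAt (Y q) (q.1 • f (ex (y q) s)) s := by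
    intro q s
    have hc : Continuous fun r => f (ex (y q) r) := hf.continuous.comp (continuous_ex _)
    exact (((hc.integral_hasStrictDerivAt 0 s).hasDerivAt).const_smul q.1).const_add q.2
  have hsc : ∀ t x, ∀ s ∈ Icc (0 : ℝ) 1, Y (t, x) s = Y (t * s, x) 1 := by
    intro t x s hs
    have hv : ∀ _ : ℝ, LipschitzWith (‖t * s‖₊ * K) (fun w => (t * s) • f w) := fun _ =>
      (lipschitzWith_smul (t * s)).comp hK
    have d1 : ∀ r, HasDerivAt (fun r => Y (t, x) (s * r))
        ((t * s) • f (ex (y (t, x)) (s * r))) r := by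
      intro r
      have h1 := (hYd (t, x) (s * r)).scomp r ((hasDerivAt_id r).const_mul s)
      rw [mul_one, smul_smul, mul_comm s t] at h1
      exact h1
    have key := ODE_solution_unique (v := fun _ w => (t * s) • f w) (a := 0) (b := 1)
      (f := fun r => Y (t, x) (s * r)) (g := Y (t * s, x)) hv
      (fun r _ => (d1 r).continuousAt.continuousWithinAt)
      (fun r hr => by
        have hm : s * r ∈ Icc (0 : ℝ) 1 :=
          ⟨mul_nonneg hs.1 hr.1, mul_le_one₀ hs.2 hr.1 hr.2.le⟩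
        have h1 := (d1 r).hasDerivWithinAt (s := Ici r)
        rwa [← hYe _ _ hm] at h1)
      (fun r _ => (hYd _ r).continuousAt.continuousWithinAt)
      (fun r hr => by
        have h1 := (hYd (t * s, x) r).hasDerivWithinAt (s := Ici r)
        rwa [← hYe _ _ (Ico_subset_Icc_self hr)] at h1)
      (by simp [Y])
    have h2 := key (right_mem_Icc.2 zero_le_one)
    simpa only [mul_one] using h2
  have hone : (1 : ℝ) ∈ Icc (0 : ℝ) 1 := right_mem_Icc.2 zero_le_one
  refine ⟨fun t x => Y (t, x) 1, ?_, ?_⟩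
  · have e : (fun q : ℝ × X => Y (q.1, q.2) 1)
        = fun q => ContinuousMap.evalCLM ℝ (⟨1, hone⟩ : II) (y q) := by
      funext q
      rw [hYe _ _ hone, ex_of_mem _ hone]
      rfl
    rw [e]
    exact (ContinuousMap.evalCLM ℝ (⟨1, hone⟩ : II) : C(II, X) →L[ℝ] X).contDiff.comp hy
  · intro t x
    have e : ∫ r in (0 : ℝ)..1, f (ex (y (t, x)) r) = ∫ r in (0 : ℝ)..1, f (Y (t * r, x) 1) := by
      refine intervalIntegral.integral_congr fun r hr => ?_
      rw [uIcc_of_le zero_le_one] at hr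
      simp only [← hsc t x r hr, hYe _ _ hr]
    have e2 := intervalIntegral.smul_integral_comp_mul_left (a := 0) (b := 1)
      (fun r => f (Y (r, x) 1)) t
    rw [mul_zero, mul_one] at e2
    rw [← e2, ← e]

end Flow

end Pool.Agent.MP_6d695c_gt.SW.Fl

namespace Pool.Agent.MP_6d695c_gt.SW

/-- the smooth global flow of a smooth globally Lipschitz vector field -/
theorem exists_isFlow {X : Type} [NormedAddCommGroup X] [NormedSpace ℝ X] [CompleteSpace X]
    {f : X → X} {K : NNReal} (hf : ContDiff ℝ ∞ f) (hK : LipschitzWith K f) :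
    ∃ fl, IsFlow f fl := by
  obtain ⟨φ, hs, he⟩ := Fl.Flow.exists_flow Fl.nem_of Fl.fix_of hf hK
  have h0 : ∀ x, φ 0 x = x := fun x => by
    rw [he]
    simp
  have hd : ∀ x t, HasDerivAt (fun t => φ t x) (f (φ t x)) t := by
    intro x t
    have hc : Continuous fun r => f (φ r x) :=
      hf.continuous.comp (hs.continuous.comp (continuous_id.prodMk continuous_const))
    have h1 := ((hc.integral_hasStrictDerivAt 0 t).hasDerivAt).const_add x
    have e : (fun t => φ t x) = fun t => x + ∫ r in (0 : ℝ)..t, f (φ r x) := funext fun t => he t x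
    rw [e]
    exact h1
  have hd' : ∀ x c t, HasDerivAt (fun t => φ (t + c) x) (f (φ (t + c) x)) t := fun x c t =>
    (hd x (t + c)).comp_add_const t c
  have hv : ∀ _ : ℝ, LipschitzOnWith K f univ := fun _ => hK.lipschitzOnWith
  have ha : ∀ s t x, φ (s + t) x = φ s (φ t x) := by
    intro s t x
    have key := ODE_solution_unique_univ (v := fun _ => f) (s := fun _ => univ) (t₀ := 0)
      (f := fun s => φ (s + t) x) (g := fun s => φ s (φ t x)) hv
      (fun s => ⟨hd' x t s, mem_univ _⟩) (fun s => ⟨hd _ s, mem_univ _⟩)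
      (by simp only [zero_add, h0])
    exact congrFun key s
  refine ⟨φ, hs, h0, ha, hd, ?_⟩
  intro c a b hab hc hc'
  rcases hab.eq_or_lt with rfl | hlt
  · rw [sub_self, h0]
  · have hm : (a + b) / 2 ∈ Ioo a b := ⟨by linarith, by linarith⟩
    have key := ODE_solution_unique_of_mem_Icc (v := fun _ => f) (s := fun _ => univ)
      (f := c) (g := fun t => φ (t + -((a + b) / 2)) (c ((a + b) / 2))) (fun t _ => hv t) hm hc hc'
      (fun _ _ => mem_univ _) (fun t _ => (hd' _ _ t).continuousAt.continuousWithinAt)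
      (fun t _ => hd' _ _ t) (fun _ _ => mem_univ _) (by simp only [add_neg_cancel, h0])
    have k1 := key (left_mem_Icc.2 hab)
    have k2 := key (right_mem_Icc.2 hab)
    simp only at k1 k2
    rw [k2, k1, ← ha]
    congr 1
    ring

/-- the flow of a smooth field with compact support -/
theorem exists_isFlow_cpt {X : Type} [NormedAddCommGroup X] [NormedSpace ℝ X] [CompleteSpace X]
    {f : X → X} (hf : ContDiff ℝ ∞ f) (hc : HasCompactSupport f) :
    ∃ K fl, LipschitzWith K f ∧ IsFlow f fl := by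
  obtain ⟨K, hK⟩ := hf.lipschitzWith_of_hasCompactSupport hc (by simp)
  obtain ⟨fl, h⟩ := exists_isFlow hf hK
  exact ⟨K, fl, hK, h⟩

variable {X : Type} [NormedAddCommGroup X] [NormedSpace ℝ X] {Y : X → X} {fl : ℝ → X → X}

theorem IsFlow.cont (h : IsFlow Y fl) (x : X) : Continuous fun t => fl t x :=
  h.sm.continuous.comp (continuous_id.prodMk continuous_const)

/-- uniqueness in both directions of time -/
theorem IsFlow.eq_of (h : IsFlow Y fl) {c : ℝ → X} {a b : ℝ}
    (hd : ∀ t ∈ uIcc a b, HasDerivAt c (Y (c t)) t) : c b = fl (b - a) (c a) := by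
  rcases le_total a b with hab | hab
  · rw [uIcc_of_le hab] at hd
    exact h.uniq c a b hab (fun t ht => (hd t ht).continuousAt.continuousWithinAt)
      fun t ht => hd t (Ioo_subset_Icc_self ht)
  · rw [uIcc_of_ge hab] at hd
    rw [h.uniq c b a hab (fun t ht => (hd t ht).continuousAt.continuousWithinAt)
      fun t ht => hd t (Ioo_subset_Icc_self ht), ← h.add, show b - a + (a - b) = 0 by ring, h.zero]

theorem IsFlow.fix (h : IsFlow Y fl) {x : X} (hx : Y x = 0) (t : ℝ) : fl t x = x := by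
  have := h.eq_of (c := fun _ => x) (a := 0) (b := t) fun s _ => by
    rw [hx]; exact hasDerivAt_const s x
  rw [sub_zero] at this
  exact this.symm

end Pool.Agent.MP_6d695c_gt.SW
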