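import Pool.Agent.MP_6d695c_gt.sw.Base
import Pool.Agent.MP_6d695c_gt.sw.Flow
import Mathlib.Analysis.ODE.Gronwall
import Mathlib.Analysis.Calculus.Deriv.MeanValue
import Mathlib.Analysis.SpecialFunctions.Trigonometric.Bounds
import Mathlib.Analysis.Calculus.Deriv.Prod
import Mathlib.Geometry.Manifold.IntegralCurve.Transform
import Mathlib.Geometry.Manifold.MFDeriv.FDeriv

-- ======== part 0: formerly Pool.Agent.MP_6d695c_gt.sw.Main
section MrgPart0

-- ======== part 0: formerly Pool.Agent.MP_6d695c_gt.sw.AFlow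
section MrgPart0

/-! PROJECT SW, row AFLOW: the flow of a cut-off of a field tangent to `S`. -/

open scoped ContDiff Topology
open Set Metric Filter Real

namespace Pool.Agent.MP_6d695c_gt.SW

variable {X : Type} [NormedAddCommGroup X] [NormedSpace ℝ X] {E : Type} [NormedAddCommGroup E]
  [NormedSpace ℝ E] {S : Set X} {Y : X → X} {fl : ℝ → X → X}

/-- the flow of a tangent field stays in `S` for a short time -/
theorem IsFlow.ev_mem [CompleteSpace E] (hf : IsFlow Y fl) (hS : Sub E S) (hY : ContDiff ℝ ∞ Y)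
    (hT : ∀ x ∈ S, Y x ∈ Tg S x) {y : X} (hy : y ∈ S) : ∀ᶠ s in 𝓝 (0 : ℝ), fl s y ∈ S := by
  obtain ⟨g, r, O, N, hP, hN⟩ := hS y hy
  obtain ⟨h1, h2⟩ := hP.rm y hy hN
  have hg := hP.cg h1
  have hr : ContDiffAt ℝ ∞ (fderiv ℝ r) (g (r y)) :=
    (hP.cr (h2.symm ▸ hN)).fderiv_right (m := ∞) (by simp)
  have hu : ContDiffAt ℝ 1 (fun e => fderiv ℝ r (g e) (Y (g e))) (r y) :=
    ((hr.comp _ hg).clm_apply (hY.contDiffAt.comp _ hg)).of_le (by simp)
  obtain ⟨σ, h0, ε, hε, hσ⟩ :=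
    hu.exists_forall_mem_closedBall_exists_eq_forall_mem_Ioo_hasDerivAt₀ 0
  have hI : Ioo (0 - ε) (0 + ε) ∈ 𝓝 (0 : ℝ) := Ioo_mem_nhds (by linarith) (by linarith)
  have hO : ∀ᶠ s in 𝓝 (0 : ℝ), σ s ∈ O :=
    (hσ 0 (mem_of_mem_nhds hI)).continuousAt.eventually (hP.oO.mem_nhds (h0.symm ▸ h1))
  obtain ⟨δ, hδ, hb⟩ := Metric.eventually_nhds_iff_ball.1 (hO.and hI)
  filter_upwards [ball_mem_nhds (0 : ℝ) hδ] with s hs
  have key := hf.eq_of (c := fun t => g (σ t)) (a := 0) (b := s) fun t ht => by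
    have ht' : t ∈ ball (0 : ℝ) δ :=
      (convex_ball (0 : ℝ) δ).ordConnected.uIcc_subset (mem_ball_self hδ) hs ht
    obtain ⟨k1, k2⟩ := hb t ht'
    obtain ⟨m1, m2, m3⟩ := hP.gm _ k1
    have d := (hP.dg k1).hasFDerivAt.comp_hasDerivAt t (hσ t k2)
    have e := hP.ret m1 m2 (hT _ m1)
    rw [m3] at e
    rw [e] at d
    exact d
  simp only [sub_zero, h0, h2] at key
  rw [← key]
  exact (hP.gm _ (hb s hs).1).1

theorem aflow : AFlowStmt := by
  intro X E _ _ _ _ _ _ S Y ψ c hS hY hψ hT hc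
  obtain ⟨θ, hθ, θ1, θ0, -, -⟩ := exists_step (u := c) (v := c + 3 / 4) (by linarith)
  obtain ⟨b, hb, bc, -, b1, -⟩ := exists_cut hc isOpen_univ (subset_univ _)
  have hY' : ContDiff ℝ ∞ fun x => b x • θ (ψ x) • Y x := hb.smul ((hθ.comp hψ).smul hY)
  obtain ⟨K, fl, hK, hf⟩ := exists_isFlow_cpt hY' (bc.smul_right (f' := fun x => θ (ψ x) • Y x))
  refine ⟨_, K, fl, hY', hK, fun x hx h => ?_, hf, fun t x hx h => ?_⟩
  · simp only [(b1 x ⟨hx, by linarith⟩).self_of_nhds, θ1 _ h, one_smul]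
  · have hT' : ∀ x ∈ S, b x • θ (ψ x) • Y x ∈ Tg S x := fun x hx =>
      hS.tg_smul hx _ (hS.tg_smul hx _ (hT x hx))
    have hcl : IsClosed ((fun t => fl t x) ⁻¹' {x ∈ S | ψ x ≤ c + 1}) :=
      hc.isClosed.preimage (hf.cont x)
    have hop : IsOpen ((fun t => fl t x) ⁻¹' {x ∈ S | ψ x ≤ c + 1}) := by
      refine isOpen_iff_mem_nhds.2 fun t ht => ?_
      have e : ∀ s, fl s x = fl (s - t) (fl t x) := fun s => by rw [← hf.add, sub_add_cancel]
      rcases lt_or_ge (ψ (fl t x)) (c + 1) with h1 | h1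
      · have h2 : Tendsto (fun s : ℝ => s - t) (𝓝 t) (𝓝 0) :=
          (continuous_sub_right t).tendsto' t 0 (sub_self t)
        filter_upwards [h2.eventually (hf.ev_mem hS hY' hT' ht.1),
          (hψ.continuous.comp (hf.cont x)).continuousAt.eventually (gt_mem_nhds h1)] with s k1 k2
        exact ⟨by rwa [← e s] at k1, k2.le⟩
      · refine Eventually.of_forall fun s => ?_
        have : fl s x = fl t x := by
          rw [e s]
          exact hf.fix (by rw [θ0 _ (by linarith), zero_smul, smul_zero]) _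
        change fl s x ∈ {x ∈ S | ψ x ≤ c + 1}
        rw [this]
        exact ht
    have := (IsClopen.eq_univ ⟨hcl, hop⟩ ⟨0, by simpa [hf.zero] using ⟨hx, h⟩⟩).symm.subset
      (mem_univ t)
    exact this

end Pool.Agent.MP_6d695c_gt.SW

end MrgPart0

-- ======== part 1: formerly Pool.Agent.MP_6d695c_gt.sw.Chain
section MrgPart1

/-! PROJECT SW: pseudo-orbits make steps along the flow; sets with the step property. -/

open scoped ContDiff Topology
open Set Metric Filter Real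

namespace Pool.Agent.MP_6d695c_gt.SW

namespace Chn

variable {X : Type} [NormedAddCommGroup X] [NormedSpace ℝ X] {Y : X → X} {K : NNReal}
  {fl : ℝ → X → X}

theorem der_sgn (hf : IsFlow Y fl) (ς : ℝ) (x : X) (t : ℝ) :
    HasDerivAt (fun s => fl (ς * s) x) (ς • Y (fl (ς * t) x)) t := by
  have := (hf.der x (ς * t)).scomp t ((hasDerivAt_id t).const_mul ς)
  rw [mul_one] at this
  exact this

theorem cont (hf : IsFlow Y fl) (t : ℝ) : Continuous (fl t) :=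
  hf.sm.continuous.comp (continuous_const.prodMk continuous_id)

theorem lip (hY : LipschitzWith K Y) (hf : IsFlow Y fl) {ς s : ℝ} (hς : ς = 1 ∨ ς = -1)
    (hs : 0 ≤ s) (x y : X) : dist (fl (ς * s) x) (fl (ς * s) y) ≤ dist x y * exp (K * s) := by
  have hv : LipschitzWith K fun x => ς • Y x := by
    rcases hς with rfl | rfl
    · simpa using hY
    · simp only [neg_smul, one_smul]
      exact hY.neg
  have := dist_le_of_trajectories_ODE (v := fun _ x => ς • Y x) (fun _ => hv) (a := 0) (b := s)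
    (f := fun s => fl (ς * s) x) (g := fun s => fl (ς * s) y) (δ := dist x y)
    (fun t _ => (der_sgn hf ς x t).continuousAt.continuousWithinAt)
    (fun t _ => (der_sgn hf ς x t).hasDerivWithinAt)
    (fun t _ => (der_sgn hf ς y t).continuousAt.continuousWithinAt)
    (fun t _ => (der_sgn hf ς y t).hasDerivWithinAt) (by simp [hf.zero]) s ⟨hs, le_rfl⟩
  simpa using this

theorem approx0 (hY : LipschitzWith K Y) (hf : IsFlow Y fl) {x : ℝ → X} (hx : Continuous x)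
    {a b ε : ℝ} (hab : a ≤ b) (hε : 0 ≤ ε) (hn : ∀ t ∈ Ico a b, Near x t (Y (x t)) ε) :
    dist (x b) (fl (b - a) (x a)) ≤ ε * exp ((K + 1) * (b - a)) := by
  choose! v hv hv' using hn
  have hd : ∀ t, HasDerivAt (fun t => fl (t - a) (x a)) (Y (fl (t - a) (x a))) t := fun t =>
    (hf.der (x a) (t - a)).comp_sub_const t a
  have := dist_le_of_approx_trajectories_ODE (v := fun _ => Y) (K := K + 1)
    (fun _ => hY.weaken le_self_add) hx.continuousOn hv (εf := ε)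
    (fun t ht => by rw [dist_eq_norm]; exact hv' t ht)
    (fun t _ => (hd t).continuousAt.continuousWithinAt) (fun t _ => (hd t).hasDerivWithinAt)
    (εg := 0) (fun t _ => by simp) (δ := 0) (by simp [hf.zero]) b ⟨hab, le_rfl⟩
  have hK : (1 : ℝ) ≤ K + 1 := le_add_of_nonneg_left K.2
  rw [gronwallBound_of_K_ne_0 (by push_cast; linarith)] at this
  refine this.trans ?_
  push_cast
  have h1 : (ε + 0) / (K + 1) ≤ ε := by
    rw [add_zero]
    exact div_le_self hε hK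
  have h2 : 1 ≤ exp ((K + 1) * (b - a)) := one_le_exp (mul_nonneg (by linarith) (by linarith))
  nlinarith [mul_le_mul_of_nonneg_right h1 (sub_nonneg.2 h2)]

theorem approx (hY : LipschitzWith K Y) (hf : IsFlow Y fl) {x : ℝ → X} (hx : Continuous x)
    {a b ε : ℝ} (hab : a ≤ b) (hε : 0 ≤ ε) (hn : ∀ t ∈ Ioo a b, Near x t (Y (x t)) ε) :
    dist (x b) (fl (b - a) (x a)) ≤ ε * exp ((K + 1) * (b - a)) := by
  rcases hab.eq_or_lt with rfl | hlt
  · exact approx0 hY hf hx le_rfl hε fun t ht => absurd ht.2 (not_lt.2 ht.1)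
  have hc : Continuous fun s => fl (b - s) (x s) :=
    hf.sm.continuous.comp ((continuous_const.sub continuous_id).prodMk hx)
  have hcl : IsClosed {s | dist (x b) (fl (b - s) (x s)) ≤ ε * exp ((K + 1) * (b - s))} :=
    isClosed_le (continuous_const.dist hc) (by fun_prop)
  refine hcl.closure_subset_iff.2 (fun s (hs : s ∈ Ioo a b) => approx0 hY hf hx hs.2.le hε
    fun t ht => hn t ⟨hs.1.trans_le ht.1, ht.2⟩) ?_
  rw [closure_Ioo hlt.ne]
  exact ⟨le_rfl, hab⟩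

theorem follow (hY : LipschitzWith K Y) (hf : IsFlow Y fl) {x : ℝ → X} (hx : Continuous x)
    {T : Set ℝ} (hT : IsClosed T) {h ε : ℝ} (hh : 0 ≤ h) (hε : 0 ≤ ε)
    (hn : ∀ t ∉ T, Near x t (Y (x t)) ε) (t : ℝ) {ς : ℝ} (hς : ς = 1 ∨ ς = -1) :
    ∃ τ ∈ Icc 0 h, (τ = h ∨ t + ς * τ ∈ T) ∧
      dist (x (t + ς * τ)) (fl (ς * τ) (x t)) ≤ ε * exp ((K + 1) * h) * exp (K * h) := by
  have hK : (0 : ℝ) ≤ K := K.2
  have hm : ∀ τ ≤ h, ε * exp ((K + 1) * τ) ≤ ε * exp ((K + 1) * h) := fun τ hτ => by gcongr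
  rcases hς with rfl | rfl
  · obtain ⟨s, hs, h1, h2⟩ := first_time (hT.union (isClosed_singleton (x := t + h)))
      (a := t) (Or.inr rfl) (by linarith)
    refine ⟨s - t, ⟨by linarith [hs.1], by linarith [hs.2]⟩, h1.symm.imp
      (fun e => by rw [mem_singleton_iff.1 e]; ring) fun e => by simpa using e, ?_⟩
    have := approx hY hf hx hs.1 hε fun u hu => hn u fun h' => h2 u ⟨hu.1.le, hu.2⟩ (Or.inl h')
    simp only [one_mul, add_sub_cancel]
    exact (this.trans (hm _ (by linarith [hs.2]))).trans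
      (le_mul_of_one_le_right (by positivity) (one_le_exp (by positivity)))
  · obtain ⟨s, hs, h1, h2⟩ := last_time (hT.union (isClosed_singleton (x := t - h)))
      (b := t) (Or.inr rfl) (by linarith)
    refine ⟨t - s, ⟨by linarith [hs.2], by linarith [hs.1]⟩, h1.symm.imp
      (fun e => by rw [mem_singleton_iff.1 e]; ring) fun e => by simpa using e, ?_⟩
    have h3 := approx hY hf hx hs.2 hε fun u hu => hn u fun h' => h2 u ⟨hu.1, hu.2.le⟩ (Or.inl h')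
    have h4 := lip hY hf (Or.inr rfl) (sub_nonneg.2 hs.2) (fl (t - s) (x s)) (x t)
    rw [← hf.add, show -1 * (t - s) + (t - s) = 0 by ring, hf.zero, dist_comm (fl _ _) (x t)] at h4
    rw [show t + -1 * (t - s) = s by ring]
    refine h4.trans (mul_le_mul (h3.trans (hm _ (by linarith [hs.1]))) ?_ (exp_pos _).le
      (by positivity))
    gcongr
    linarith [hs.1]

/-- Far from the zeros backward steps lead into `Ω`. -/
theorem far (hY : LipschitzWith K Y) (hf : IsFlow Y fl) {h T : ℝ} (hh : 0 < h) {Kh Ω : Set X}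
    (hK : IsCompact Kh) (hΩ : IsOpen Ω) (hKΩ : Kh ⊆ Ω) :
    ∃ η₀, 0 < η₀ ∧ ∀ η ∈ Ioc 0 η₀, ∀ Γ, Step fl h η Γ → Disjoint Γ Ω → ∀ p ∈ Γ,
      ¬∃ s₀ ∈ Icc (3 * h) T, ∀ s ∈ Icc (3 * h) (7 * h), fl (s - s₀) p ∈ Kh := by
  obtain ⟨δ, hδ, hsub⟩ := hK.exists_thickening_subset_open hΩ hKΩ
  obtain ⟨M, hM⟩ := exists_nat_ge (T / (h / 2))
  set L := exp (K * (4 * h)) with hL
  have hL0 : 0 < L := exp_pos _
  refine ⟨δ / 2 / (L + 1) ^ M, by positivity, fun η hη Γ hs hd p hp ⟨s₀, h0, h1⟩ => ?_⟩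
  have key : ∀ m : ℕ, ∃ S, ∃ p' ∈ Γ, dist p' (fl (-S) p) ≤ η * (L + 1) ^ m ∧ S ≤ s₀ - 3 * h ∧
      (s₀ - 7 * h ≤ S ∨ m * (h / 2) ≤ S) := fun m => by
    induction m with
    | zero => exact ⟨0, p, hp, by simp [hf.zero, hη.1.le], by linarith [h0.1], Or.inr (by simp)⟩
    | succ m ih =>
      obtain ⟨S, p', hp', e, h2, h3⟩ := ih
      have h4 : 1 ≤ (L + 1) ^ m := one_le_pow₀ (by linarith)
      have h5 : η ≤ η * (L + 1) ^ m := le_mul_of_one_le_right hη.1.le h4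
      by_cases hS : s₀ - 7 * h ≤ S
      · refine ⟨S, p', hp', e.trans ?_, h2, Or.inl hS⟩
        rw [pow_succ, ← mul_assoc]
        exact le_mul_of_one_le_right (hη.1.le.trans h5) (by linarith)
      · obtain ⟨s, hs', q, hq, e'⟩ := hs p' hp' (-1) (Or.inr rfl)
        refine ⟨S + s, q, hq, ?_, by linarith [hs'.2], Or.inr ?_⟩
        · have h6 := lip hY hf (Or.inr rfl) (by linarith [hs'.1] : 0 ≤ s) p' (fl (-S) p)
          rw [← hf.add, show -1 * s + -S = -(S + s) by ring] at h6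
          have h7 : exp (K * s) ≤ L := by
            rw [hL]
            gcongr
            exact hs'.2
          have h8 := mul_le_mul e h7 (exp_pos _).le (hη.1.le.trans h5)
          have := dist_triangle q (fl (-1 * s) p') (fl (-(S + s)) p)
          rw [pow_succ, ← mul_assoc]
          linarith
        · push_cast
          linarith [h3.resolve_left hS, hs'.1]
  obtain ⟨S, p', hp', e, h2, h3⟩ := key M
  have h4 : s₀ - 7 * h ≤ S := h3.elim id fun h3 => by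
    have := (div_le_iff₀ (half_pos hh)).1 hM
    linarith [h0.2]
  have h5 := h1 (s₀ - S) ⟨by linarith, by linarith⟩
  rw [show s₀ - S - s₀ = -S by ring] at h5
  have h6 : η * (L + 1) ^ M ≤ δ / 2 := (le_div_iff₀ (by positivity)).1 hη.2
  exact disjoint_left.1 hd hp' (hsub (mem_thickening_iff.2 ⟨_, h5, by linarith⟩))

/-- The gain of the local Lyapunov function along the flow. -/
theorem gain (hf : IsFlow Y fl) {D : Set X} (hD : IsCompact D) {u : X → ℝ} (hu : ContDiff ℝ ∞ u)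
    {z : X} {ρ₂ c h : ℝ} (hc : 0 < c) (hh : 0 < h)
    (hd : ∀ x ∈ D, dist x z ≤ ρ₂ → ∀ s, |s| ≤ 4 * h →
      c * ‖fl s x - z‖ ^ 2 ≤ fderiv ℝ u (fl s x) (Y (fl s x))) {ρ : ℝ} (hρ : 0 < ρ) :
    ∃ γ, 0 < γ ∧ ∀ x ∈ D, ρ ≤ dist x z → dist x z ≤ ρ₂ → ∀ ς : ℝ, ς = 1 ∨ ς = -1 →
      ∀ s ∈ Icc (h / 2) (4 * h), γ ≤ ς * (u (fl (ς * s) x) - u x) := by
  have hder : ∀ x s, HasDerivAt (fun s => u (fl s x)) (fderiv ℝ u (fl s x) (Y (fl s x))) s :=
    fun x s => (hu.differentiable (by simp) _).hasFDerivAt.comp_hasDerivAt s (hf.der x s)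
  have hmono : ∀ x ∈ D, dist x z ≤ ρ₂ →
      MonotoneOn (fun s => u (fl s x)) (Icc (-(4 * h)) (4 * h)) := fun x hx hz =>
    monotoneOn_of_deriv_nonneg (convex_Icc _ _)
      (fun s _ => (hder x s).continuousAt.continuousWithinAt)
      (fun s _ => (hder x s).differentiableAt.differentiableWithinAt) fun s hs => by
        rw [(hder x s).deriv]
        exact le_trans (by positivity) (hd x hx hz s (abs_le.2 (mem_Icc.1 (interior_subset hs))))
  have hpos : ∀ x ∈ D ∩ {x | ρ ≤ dist x z ∧ dist x z ≤ ρ₂},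
      0 < min (u (fl (h / 2) x) - u x) (u x - u (fl (-(h / 2)) x)) := by
    rintro x ⟨hx, h1, h2⟩
    have h3 : 0 < fderiv ℝ u (fl 0 x) (Y (fl 0 x)) := by
      refine lt_of_lt_of_le ?_ (hd x hx h2 0 (by simp [hh.le]))
      have : 0 < ‖fl 0 x - z‖ := by rw [hf.zero, ← dist_eq_norm]; linarith
      positivity
    have h4 := (hasDerivAt_iff_tendsto_slope.1 (hder x 0)).eventually (lt_mem_nhds h3)
    simp only [slope_def_field, sub_zero, hf.zero] at h4
    rw [lt_min_iff]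
    constructor
    · obtain ⟨s, h5, h6⟩ := ((h4.filter_mono (nhdsGT_le_nhdsNE 0)).and
        (Ioc_mem_nhdsGT (half_pos hh))).exists
      have h7 := hmono x hx h2 (a := s) (b := h / 2) ⟨by linarith [h6.1], by linarith [h6.2]⟩
        ⟨by linarith, by linarith⟩ h6.2
      have h8 := (div_pos_iff_of_pos_right h6.1).1 h5
      linarith
    · obtain ⟨s, h5, h6⟩ := ((h4.filter_mono (nhdsLT_le_nhdsNE 0)).and
        (Ico_mem_nhdsLT (neg_lt_zero.2 (half_pos hh)))).exists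
      have h7 := hmono x hx h2 (a := -(h / 2)) (b := s) ⟨by linarith, by linarith⟩
        ⟨by linarith [h6.1], by linarith [h6.2]⟩ h6.1
      have h8 : u (fl s x) - u x < 0 := by
        by_contra h9
        exact absurd h5 (not_lt.2 (div_nonpos_of_nonneg_of_nonpos (not_lt.1 h9) h6.2.le))
      linarith
  have hcu := hu.continuous
  obtain ⟨γ, hγ, hle⟩ := exists_pos_le (hD.inter_right
    ((isClosed_le continuous_const (continuous_id.dist continuous_const)).inter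
      (isClosed_le (continuous_id.dist continuous_const) continuous_const)))
    (((hcu.comp (cont hf _)).sub hcu).min (hcu.sub (hcu.comp (cont hf _)))).continuousOn hpos
  refine ⟨γ, hγ, fun x hx h1 h2 ς hς s hs => ?_⟩
  have h3 : γ ≤ u (fl (h / 2) x) - u x ∧ γ ≤ u x - u (fl (-(h / 2)) x) :=
    le_min_iff.1 (hle x ⟨hx, h1, h2⟩)
  rcases hς with rfl | rfl
  · have := hmono x hx h2 (a := h / 2) (b := s) ⟨by linarith, by linarith⟩
      ⟨by linarith [hs.1], hs.2⟩ hs.1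
    simp only [one_mul]
    linarith [h3.1]
  · have := hmono x hx h2 (a := -1 * s) (b := -(h / 2)) ⟨by linarith [hs.2], by linarith [hs.1]⟩
      ⟨by linarith, by linarith⟩ (by linarith [hs.1])
    linarith [h3.2]

/-- Near a zero a set with the step property is very near it. -/
theorem near (hf : IsFlow Y fl) {D : Set X} (hD : IsCompact D) (hi : ∀ t, ∀ x ∈ D, fl t x ∈ D)
    {u : X → ℝ} (hu : ContDiff ℝ ∞ u) {z : X} {ρ₂ ρ₃ c h : ℝ} (hc : 0 < c) (hh : 0 < h)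
    (hρ : 0 < ρ₃) (hd : ∀ x ∈ D, dist x z ≤ ρ₂ → ∀ s, |s| ≤ 4 * h →
      c * ‖fl s x - z‖ ^ 2 ≤ fderiv ℝ u (fl s x) (Y (fl s x))) :
    ∃ η₀, 0 < η₀ ∧ ∀ η ∈ Ioc 0 η₀, ∀ Γ, Γ ⊆ D → IsCompact Γ → Step fl h η Γ → Γ ⊆ ball z ρ₂ →
      Γ ⊆ ball z ρ₃ := by
  obtain ⟨γ₃, hγ₃, h3⟩ := gain hf hD hu hc hh hd hρ
  obtain ⟨ρ₄, hρ₄, h4⟩ := Metric.continuousAt_iff.1 (hu.continuous.continuousAt (x := z)) (γ₃ / 4)
    (by positivity)
  obtain ⟨γ₄, hγ₄, h5⟩ := gain hf hD hu hc hh hd hρ₄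
  obtain ⟨δ, hδ, h6⟩ := Metric.uniformContinuousOn_iff.1
    (hD.uniformContinuousOn_of_continuous hu.continuous.continuousOn) (min γ₄ (γ₃ / 2))
    (by positivity)
  refine ⟨δ / 2, half_pos hδ, fun η hη Γ hΓ hK hs hb p hp => ?_⟩
  have st : ∀ q ∈ Γ, ∀ ς : ℝ, ς = 1 ∨ ς = -1 → ∃ s ∈ Icc (h / 2) (4 * h), ∃ q' ∈ Γ,
      |u q' - u (fl (ς * s) q)| < min γ₄ (γ₃ / 2) := fun q hq ς hς => by
    obtain ⟨s, h1, q', hq', e⟩ := hs q hq ς hς
    exact ⟨s, h1, q', hq', h6 _ (hΓ hq') _ (hi _ _ (hΓ hq)) (by linarith [hη.2])⟩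
  obtain ⟨a, ha, hmin⟩ := hK.exists_isMinOn ⟨p, hp⟩ hu.continuous.continuousOn
  obtain ⟨b, hb', hmax⟩ := hK.exists_isMaxOn ⟨p, hp⟩ hu.continuous.continuousOn
  have h7 : dist a z < ρ₄ := by
    by_contra hn
    obtain ⟨s, h1, q, hq, e⟩ := st a ha (-1) (Or.inr rfl)
    have := h5 a (hΓ ha) (not_lt.1 hn) (mem_ball.1 (hb ha)).le (-1) (Or.inr rfl) s h1
    have h2 : u a ≤ u q := hmin hq
    linarith [(abs_lt.1 (e.trans_le (min_le_left _ _))).2]
  have h8 : dist b z < ρ₄ := by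
    by_contra hn
    obtain ⟨s, h1, q, hq, e⟩ := st b hb' 1 (Or.inl rfl)
    have := h5 b (hΓ hb') (not_lt.1 hn) (mem_ball.1 (hb hb')).le 1 (Or.inl rfl) s h1
    have h2 : u q ≤ u b := hmax hq
    linarith [(abs_lt.1 (e.trans_le (min_le_left _ _))).1]
  by_contra hn
  obtain ⟨s, h1, q, hq, e⟩ := st p hp 1 (Or.inl rfl)
  have := h3 p (hΓ hp) (not_lt.1 hn) (mem_ball.1 (hb hp)).le 1 (Or.inl rfl) s h1
  have h2 : u q ≤ u b := hmax hq
  have h9 : u a ≤ u p := hmin hp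
  have h10 := abs_lt.1 (Real.dist_eq _ _ ▸ h4 h7)
  have h11 := abs_lt.1 (Real.dist_eq _ _ ▸ h4 h8)
  linarith [(abs_lt.1 (e.trans_le (min_le_right _ _))).1, h10.1, h11.2]

end Chn

open Chn

theorem step : StepStmt := by
  intro X _ _ Y K fl h η hY hf hh hη
  set L := exp ((K + 1) * (h / 2)) * exp (K * (h / 2)) with hL
  set L' := exp (K * (3 * h)) with hL'
  have hL0 : 0 < L := by positivity
  have hL1 : 1 ≤ L' := one_le_exp (by positivity)
  have hε : 0 < η / (1 + L * L') := by positivity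
  have he : η / (1 + L * L') * (1 + L * L') = η := div_mul_cancel₀ _ (by positivity)
  refine ⟨_, hε, ?_⟩
  generalize η / (1 + L * L') = ε at hε he
  rintro x T hx hT hn hs _ ⟨t, rfl⟩ ς hς
  obtain ⟨τ, hτ, h1, h2⟩ := follow hY hf hx hT (half_pos hh).le hε.le hn t hς
  rw [mul_assoc, ← hL] at h2
  rcases h1 with rfl | h1
  · refine ⟨h / 2, ⟨le_rfl, by linarith⟩, _, ⟨_, rfl⟩, h2.trans ?_⟩
    nlinarith [mul_le_mul_of_nonneg_left hL1 (mul_pos hε hL0).le]
  · obtain ⟨s, hs', t', e⟩ := hs _ h1 ς hς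
    refine ⟨s + τ, ⟨by linarith [hs'.1, hτ.1], by linarith [hs'.2, hτ.2]⟩, _, ⟨t', rfl⟩, ?_⟩
    have h3 := lip hY hf hς (by linarith [hs'.1] : 0 ≤ s) (x (t + ς * τ)) (fl (ς * τ) (x t))
    rw [← hf.add, ← mul_add] at h3
    have h4 : exp (K * s) ≤ L' := by
      rw [hL']
      gcongr
      exact hs'.2
    have h5 := mul_le_mul h2 h4 (exp_pos _).le (mul_pos hε hL0).le
    have := dist_triangle (x t') (fl (ς * s) (x (t + ς * τ))) (fl (ς * (s + τ)) (x t))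
    linarith

theorem chain : ChainStmt := by
  intro X _ _ Y K fl D D₁ 𝒵 u ρ₂ c hY hf _ hD₁ hDD hi hZ hρ₂ hc hu hd hsep
  obtain ⟨B, hB⟩ := hD₁.exists_bound_of_continuousOn hY.continuous.continuousOn
  refine ⟨ρ₂ / (4 * (|B| + 1)), by positivity, fun h hh hh₀ T ρ₃ Kh Ω hρ₃ hK hΩ hKΩ hp => ?_⟩
  have hmove : ∀ x ∈ D₁, ∀ s, |s| ≤ 4 * h → dist (fl s x) x ≤ ρ₂ := fun x hx s hs => by
    have := convex_univ.norm_image_sub_le_of_norm_hasDerivWithin_le (f := fun t => fl t x)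
      (C := |B| + 1) (fun t _ => (hf.der x t).hasDerivWithinAt)
      (fun t _ => (hB _ (hi t x hx)).trans (by linarith [le_abs_self B])) (mem_univ 0) (mem_univ s)
    rw [hf.zero, sub_zero, Real.norm_eq_abs, ← dist_eq_norm] at this
    have h1 := (le_div_iff₀ (by positivity)).1 hh₀
    nlinarith [mul_le_mul_of_nonneg_left hs (by positivity : 0 ≤ |B| + 1)]
  obtain ⟨η₀, hη₀, h0⟩ := far (T := T) hY hf hh hK hΩ hKΩ
  have h1 : ∀ᶠ η in 𝓝[>] (0 : ℝ), ∀ z ∈ 𝒵, ∀ Γ, Γ ⊆ D₁ → IsCompact Γ → Step fl h η Γ →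
      Γ ⊆ ball z ρ₂ → Γ ⊆ ball z ρ₃ := (eventually_all_finite hZ).2 fun z hz => by
    obtain ⟨η₁, hη₁, h2⟩ := near hf hD₁ hi (hu z hz) (z := z) (ρ₂ := ρ₂) hc hh hρ₃
      fun x hx hxz s hs => hd z hz _ (hi s x hx) (by
        linarith [dist_triangle (fl s x) x z, hmove x hx s hs])
    exact eventually_of_mem (Ioc_mem_nhdsGT hη₁) h2
  obtain ⟨η, h2, hη⟩ := (h1.and (Ioc_mem_nhdsGT hη₀)).exists
  refine ⟨η, hη.1, fun Γ hΓ hc hcon ⟨p, hpΓ⟩ hs hdis => ?_⟩
  have h3 : ∀ q ∈ Γ, ∃ z ∈ 𝒵, dist q z < ρ₂ := fun q hq => by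
    by_contra hn
    push Not at hn
    exact h0 η hη Γ hs hdis q hq (hp q (hΓ hq) hn)
  obtain ⟨z, hz, hpz⟩ := h3 p hpΓ
  refine ⟨z, hz, h2 z hz Γ (hΓ.trans hDD) hc hs ?_⟩
  refine hcon.subset_left_of_subset_union (v := ⋃ z' ∈ 𝒵 \ {z}, ball z' ρ₂) isOpen_ball
    (isOpen_biUnion fun _ _ => isOpen_ball) ?_ (fun q hq => ?_) ⟨p, hpΓ, hpz⟩
  · refine disjoint_iUnion₂_right.2 fun z' hz' => ball_disjoint_ball ?_
    linarith [hsep z hz z' hz'.1 (Ne.symm hz'.2)]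
  · obtain ⟨z', hz', hq'⟩ := h3 q hq
    by_cases e : z' = z
    · exact Or.inl (e ▸ hq')
    · exact Or.inr (mem_iUnion₂.2 ⟨z', ⟨hz', e⟩, hq'⟩)

end Pool.Agent.MP_6d695c_gt.SW

end MrgPart1

-- ======== part 2: formerly Pool.Agent.MP_6d695c_gt.sw.Cut
section MrgPart2

/-! PROJECT SW, row CUT: the cut-off functions of the trap. -/

open scoped ContDiff Topology
open Set Metric Filter Real

namespace Pool.Agent.MP_6d695c_gt.SW

namespace Ct

theorem fd_zero {X : Type} [NormedAddCommGroup X] [NormedSpace ℝ X] {F : X → ℝ} {p v : X}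
    (hF : DifferentiableAt ℝ F p) (h : ∀ᶠ t in 𝓝 (0 : ℝ), F (p + t • v) = F p) :
    fderiv ℝ F p v = 0 := by
  have h1 : HasDerivAt (fun t : ℝ => p + t • v) v 0 := by
    simpa using ((hasDerivAt_id (0 : ℝ)).smul_const v).const_add p
  have h2 : HasDerivAt (fun t : ℝ => F (p + t • v)) (fderiv ℝ F p v) 0 :=
    HasFDerivAt.comp_hasDerivAt_of_eq (0 : ℝ) hF.hasFDerivAt h1 (by simp)
  exact h2.unique ((hasDerivAt_const (0 : ℝ) (F p)).congr_of_eventuallyEq h)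

theorem exists_c {d : ℝ} (hd : 0 < d) : ∃ c : ℕ → ℝ → ℝ, (∀ m, ContDiff ℝ ∞ (c m)) ∧
    (∀ m x, c m x ∈ Icc (0 : ℝ) 1) ∧ (∀ (m : ℕ) x, |x| ≤ (m + 1 / 4) * d → c m x = 1) ∧
    ∀ (m : ℕ) x, (m + 3 / 4) * d ≤ |x| → c m x = 0 := by
  have h : ∀ m : ℕ, (m + 1 / 4) * d < (m + 3 / 4) * d := fun m => by nlinarith
  choose b h1 h2 h3 h4 _ using fun m => exists_step (h m)
  refine ⟨fun m x => b m x * b m (-x), fun m => (h1 m).mul ((h1 m).comp contDiff_neg),
    fun m x => ⟨mul_nonneg (h4 m x).1 (h4 m _).1, mul_le_one₀ (h4 m x).2 (h4 m _).1 (h4 m _).2⟩,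
    fun m x hx => ?_, fun m x hx => ?_⟩
  · simp [h2 m x (le_of_abs_le hx), h2 m (-x) (neg_le.1 (neg_le_of_abs_le hx))]
  · rcases le_abs.1 hx with hx | hx <;> simp [h3 m _ hx]

theorem near_cases {d x : ℝ} (hd : 0 < d) (h : NearL d (d / 4) x) (m : ℕ) :
    |x| < (m + 1 / 4) * d ∨ (m + 3 / 4) * d < |x| := by
  obtain ⟨k, hk⟩ := h
  have h1 := (abs_abs_sub_abs_le_abs_sub x (k * d)).trans_lt hk
  rw [abs_mul, abs_of_pos hd, abs_lt] at h1
  rcases le_or_gt |k| (m : ℤ) with hm | hm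
  · have : |(k : ℝ)| ≤ m := by exact_mod_cast hm
    exact Or.inl (by nlinarith [h1.2])
  · have : (m : ℝ) + 1 ≤ |(k : ℝ)| := by exact_mod_cast hm
    exact Or.inr (by nlinarith [h1.1])

theorem near_of_sn {d x : ℝ} (hd : 0 < d) (h : sn d x ^ 2 < 1 / 4) : NearL d (d / 4) x := by
  refine ⟨round (x / d), ?_⟩
  set y := x / d - round (x / d) with hy
  have h1 : |y| ≤ 1 / 2 := abs_sub_round _
  have h2 : sn d x ^ 2 = sin (π * y) ^ 2 := by
    have : π * x / d = π * y + (round (x / d) : ℤ) * π := by rw [hy]; ring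
    rw [sn, this, sin_add_int_mul_pi, mul_pow, ← zpow_natCast, ← zpow_mul, mul_comm (round _),
      zpow_mul]
    simp
  have h3 : 2 / π * |π * y| ≤ |sin (π * y)| :=
    mul_abs_le_abs_sin (by rw [abs_mul, abs_of_pos pi_pos]; nlinarith [pi_pos])
  rw [abs_mul, abs_of_pos pi_pos, ← mul_assoc, div_mul_cancel₀ _ pi_pos.ne'] at h3
  have h4 : |sin (π * y)| < 1 / 2 := abs_lt_of_sq_lt_sq (by rw [← h2]; linarith) (by norm_num)
  have h5 : x - round (x / d) * d = y * d := by rw [hy]; field_simp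
  rw [h5, abs_mul, abs_of_pos hd]
  nlinarith

end Ct

open Ct in
theorem cut : CutStmt := by
  intro n d k₁ hd
  obtain ⟨c, c1, c2, c3, c4⟩ := exists_c hd
  have ev1 : ∀ (m : ℕ) x, |x| < (m + 1 / 4) * d → ∀ᶠ y in 𝓝 x, c m y = 1 := fun m x hx =>
    (continuous_abs.continuousAt.eventually_lt continuousAt_const hx).mono fun y hy => c3 m y hy.le
  have ev0 : ∀ (m : ℕ) x, (m + 3 / 4) * d < |x| → ∀ᶠ y in 𝓝 x, c m y = 0 := fun m x hx =>
    (continuousAt_const.eventually_lt continuous_abs.continuousAt hx).mono fun y hy => c4 m y hy.le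
  have lc : ∀ (m : ℕ) x, NearL d (d / 4) x →
      (c m x = 0 ∨ c m x = 1) ∧ ∀ᶠ y in 𝓝 x, c m y = c m x := fun m x hx => by
    rcases near_cases hd hx m with h | h
    · exact ⟨Or.inr (c3 m x h.le), (ev1 m x h).mono fun y hy => hy.trans (c3 m x h.le).symm⟩
    · exact ⟨Or.inl (c4 m x h.le), (ev0 m x h).mono fun y hy => hy.trans (c4 m x h.le).symm⟩
  let kk : Fin (n + 1) → ℕ := fun j => k₁ + if j = 0 then 0 else 10
  let A : Fin (n + 1) → Q n → ℝ := fun j q =>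
    (∏ i, c (if i = 0 then 0 else kk j) (q.1 i)) * ∏ i, c (kk j) (q.2 i)
  have t1 : ∀ i, Continuous fun q : Q n => q.1 i := fun i => by fun_prop
  have t2 : ∀ i, Continuous fun q : Q n => q.2 i := fun i => by fun_prop
  have sm : ∀ j, ContDiff ℝ ∞ (A j) := fun j =>
    (contDiff_prod fun i _ => (c1 _).comp (by fun_prop)).mul
      (contDiff_prod fun i _ => (c1 _).comp (by fun_prop))
  have z : ∀ j (a : ℕ) q, kk j ≤ a → 3 / 4 * d < |q.1 0| ∨ ¬ Zone ((a + 1) * d) q →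
      ∀ᶠ q' in 𝓝 q, A j q' = 0 := by
    intro j a q ha h
    have ha' : ((kk j : ℕ) + 3 / 4 : ℝ) * d < (a + 1) * d := by
      have : (kk j : ℝ) ≤ a := by exact_mod_cast ha
      nlinarith
    have f0 : ∀ i, ((if i = 0 then 0 else kk j : ℕ) + 3 / 4 : ℝ) * d < |q.1 i| →
        ∀ᶠ q' in 𝓝 q, A j q' = 0 := fun i hi =>
      ((t1 i).continuousAt.eventually (ev0 _ _ hi)).mono fun y hy =>
        mul_eq_zero_of_left (Finset.prod_eq_zero (Finset.mem_univ i) hy) _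
    rcases h with h | h
    · exact f0 0 (by simpa using h)
    · simp only [Zone, not_and_or, not_forall, not_le] at h
      rcases h with ⟨i, hi, h⟩ | ⟨i, h⟩
      · exact f0 i (by rw [if_neg hi]; exact ha'.trans h)
      · exact ((t2 i).continuousAt.eventually (ev0 _ _ (ha'.trans h))).mono fun y hy =>
          mul_eq_zero_of_right _ (Finset.prod_eq_zero (Finset.mem_univ i) hy)
  have supp : ∀ j q, 3 / 4 * d < |q.1 0| ∨ ¬ Zone ((k₁ + 11) * d) q →
      ∀ᶠ q' in 𝓝 q, A j q' = 0 := fun j q h =>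
    z j (k₁ + 10) q (by simp only [kk]; split_ifs <;> omega) (by
      have : (((k₁ + 10 : ℕ) : ℝ) + 1) = k₁ + 11 := by push_cast; ring
      rwa [this])
  choose C hC0 hC using fun j =>
    exists_fderiv_bound ((sm j).of_le (by simp)) (isCompact_closedBall (0 : Q n) ((k₁ + 11) * d))
  have line : ∀ (x : Fin (n + 1) → ℝ) (i : Fin (n + 1)) (m : Fin (n + 1) → ℕ),
      NearL d (d / 4) (x i) → ∀ᶠ t in 𝓝 (0 : ℝ),
        ∏ i', c (m i') ((x + t • (Pi.single i 1 : Fin (n + 1) → ℝ)) i') = ∏ i', c (m i') (x i') := by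
    intro x i m h
    have hc : Tendsto (fun t : ℝ => x i + t) (𝓝 0) (𝓝 (x i)) :=
      (by fun_prop : Continuous fun t : ℝ => x i + t).tendsto' _ _ (by simp)
    filter_upwards [hc.eventually (lc (m i) _ h).2] with t ht
    refine Finset.prod_congr rfl fun i' _ => ?_
    by_cases hi : i' = i
    · subst hi; simpa using ht
    · simp [hi]
  refine ⟨A, ∑ j, C j, sm, fun j q => ?_, fun j q => ?_, fun j q i h => ?_, fun j q i h => ?_,
    fun j q h1 h2 => ⟨?_, ?_⟩, supp, fun q h => ?_, fun j q h => ?_⟩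
  · have p1 : ∀ (m : Fin (n + 1) → ℕ) (x : Fin (n + 1) → ℝ), ∏ i, c (m i) (x i) ∈ Icc (0 : ℝ) 1 :=
      fun m x => ⟨Finset.prod_nonneg fun i _ => (c2 _ _).1,
        Finset.prod_le_one (fun i _ => (c2 _ _).1) fun i _ => (c2 _ _).2⟩
    exact ⟨mul_nonneg (p1 _ _).1 (p1 _ _).1, mul_le_one₀ (p1 _ _).2 (p1 _ _).1 (p1 _ _).2⟩
  · refine le_trans ?_ (Finset.single_le_sum (fun i _ => (hC0 i).le) (Finset.mem_univ j))
    by_cases hq : q ∈ closedBall (0 : Q n) ((k₁ + 11) * d)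
    · exact hC j q hq
    have : A j =ᶠ[𝓝 q] fun _ => 0 := by
      refine supp j q ?_
      by_contra hn
      rw [not_or, not_not, not_lt] at hn
      have h0 : (0 : ℝ) ≤ (k₁ + 11) * d := by positivity
      refine hq (mem_closedBall_zero_iff.2 (norm_prod_le_iff.2 ⟨?_, ?_⟩))
      · refine (pi_norm_le_iff_of_nonneg h0).2 fun i => ?_
        by_cases hi : i = 0
        · subst hi
          exact hn.1.trans (by nlinarith [(k₁.cast_nonneg : (0 : ℝ) ≤ k₁)])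
        · exact hn.2.1 i hi
      · exact (pi_norm_le_iff_of_nonneg h0).2 hn.2.2
    simpa [this.fderiv_eq] using (hC0 j).le
  · refine fd_zero ((sm j).differentiable (by simp) q) ?_
    filter_upwards [line q.1 i (fun i => if i = 0 then 0 else kk j) h] with t ht
    simp only [A, Prod.fst_add, Prod.snd_add, Prod.smul_mk, smul_zero, add_zero, ht]
  · refine fd_zero ((sm j).differentiable (by simp) q) ?_
    filter_upwards [line q.2 i (fun _ => kk j) (near_of_sn hd h)] with t ht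
    simp only [A, Prod.fst_add, Prod.snd_add, Prod.smul_mk, smul_zero, add_zero, ht]
  · have p2 : ∀ (m : Fin (n + 1) → ℕ) (x : Fin (n + 1) → ℝ), (∀ i, NearL d (d / 4) (x i)) →
        ∏ i, c (m i) (x i) = 0 ∨ ∏ i, c (m i) (x i) = 1 := fun m x hx =>
      Finset.prod_induction _ (fun y : ℝ => y = 0 ∨ y = 1)
        (by rintro a b (rfl | rfl) (rfl | rfl) <;> simp) (Or.inr rfl) fun i _ => (lc _ _ (hx i)).1
    rcases p2 (fun i => if i = 0 then 0 else kk j) q.1 h1 with a | a <;>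
      rcases p2 (fun _ => kk j) q.2 fun i => near_of_sn hd (h2 i) with b | b <;> simp [A, a, b]
  · filter_upwards [eventually_all.2 fun i => (t1 i).continuousAt.eventually
        (lc (if i = 0 then 0 else kk j) _ (h1 i)).2,
      eventually_all.2 fun i => (t2 i).continuousAt.eventually
        (lc (kk j) _ (near_of_sn hd (h2 i))).2] with y a b
    simp only [A, a, b]
  · exact (z 0 k₁ q (by simp [kk]) (Or.inr h)).self_of_nhds
  · have hk : ((k₁ : ℝ) + if j = 0 then 0 else 10) * d ≤ ((kk j : ℕ) + 1 / 4) * d := by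
      simp only [kk]; split_ifs <;> push_cast <;> nlinarith
    have a : ∏ i, c (if i = 0 then 0 else kk j) (q.1 i) = 1 := by
      refine Finset.prod_eq_one fun i _ => c3 _ _ ?_
      by_cases hi : i = 0
      · subst hi
        exact h.1.trans (by simp; linarith)
      · rw [if_neg hi]
        exact (h.2.1 i hi).trans hk
    have b : ∏ i, c (kk j) (q.2 i) = 1 :=
      Finset.prod_eq_one fun i _ => c3 _ _ ((h.2.2 i).trans hk)
    simp only [A, a, b, mul_one]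

end Pool.Agent.MP_6d695c_gt.SW

end MrgPart2

-- ======== part 3: formerly Pool.Agent.MP_6d695c_gt.sw.MainA
section MrgPart3

/-! PROJECT SW: lemmas for the ambient theorem. -/

open scoped ContDiff Topology
open Set Metric Filter Real

namespace Pool.Agent.MP_6d695c_gt.SW

variable {V : Type} [NormedAddCommGroup V] [NormedSpace ℝ V] {E : Type} [NormedAddCommGroup E]
  [NormedSpace ℝ E] {M : Set V} {l l₀ : V → V →L[ℝ] ℝ} {Pi : V → (V →L[ℝ] ℝ) →L[ℝ] V} {φ : V → ℝ}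

theorem Cyc.mono {S S' : Set V} {Y : V → V} {ε ε' : ℝ} {c : ℝ → V} (h : Cyc S Y ε c)
    (hS : ∀ t, c t ∈ S') (hε : ε ≤ ε') : Cyc S' Y ε' c :=
  ⟨h.cont, h.per, hS, fun t => (h.near t).mono hε⟩

theorem ev_cyc {S : Set V} {Y : V → V} {P : (ℝ → V) → Prop}
    (h : ∃ ε, 0 < ε ∧ ∀ c, Cyc S Y ε c → P c) : ∀ᶠ ε in 𝓝[>] (0 : ℝ), ∀ c, Cyc S Y ε c → P c := by
  obtain ⟨ε, hε, h⟩ := h
  filter_upwards [Ioo_mem_nhdsGT hε] with η hη c hc using h c (hc.mono hc.mem hη.2.le)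

theorem exists_time (hA : Amb E M l Pi φ (1 / 4)) {Y : V → V} {fl : ℝ → V → V} (hf : IsFlow Y fl)
    (hY : ∀ x ∈ M, φ x ≤ 2 → Y x = Pi x (l x))
    (hinv : ∀ t, ∀ x ∈ M, φ x ≤ 2 + 1 → fl t x ∈ M ∧ φ (fl t x) ≤ 2 + 1) :
    ∃ T, 1 ≤ T ∧ ∀ p ∈ M, φ p ≤ 1 → φ (fl (-T) p) ≤ 1 / 2 := by
  have hK : IsCompact ({x ∈ M | φ x ≤ 2} ∩ {x | 1 / 2 ≤ φ x}) :=
    (hA.cpt 2 (by norm_num)).inter_right (isClosed_le continuous_const hA.sφ.continuous)
  obtain ⟨m, hm, hmb⟩ := exists_pos_le hK (u := fun x => fderiv ℝ φ x (Pi x (l x)))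
    ((hA.sφ.continuous_fderiv (by simp)).clm_apply hA.smZ.continuous).continuousOn
    fun x hx => hA.shell x hx.1.1 (by linarith [show 1 / 2 ≤ φ x from hx.2])
  refine ⟨max 1 (1 / m), le_max_left _ _, fun p hp hφ => ?_⟩
  set T := max 1 (1 / m) with hT
  have hT1 : 1 ≤ T := le_max_left _ _
  have hTm : 1 ≤ m * T := by
    have : 1 / m ≤ T := le_max_right _ _
    rwa [div_le_iff₀' hm] at this
  have hd : ∀ s, HasDerivAt (fun s => φ (fl s p)) (fderiv ℝ φ (fl s p) (Y (fl s p))) s := fun s =>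
    (hA.sφ.differentiable (by simp) _).hasFDerivAt.comp_hasDerivAt s (hf.der p s)
  have hc : Continuous fun s => φ (fl s p) := continuous_iff_continuousAt.2 fun s =>
    (hd s).continuousAt
  have hrd : ∀ s, 1 / 2 ≤ φ (fl s p) → φ (fl s p) ≤ 2 → RD (fun s => φ (fl s p)) s fun a => m ≤ a :=
    fun s h1 h2 => by
      have hM := (hinv s p hp (by linarith)).1
      exact ⟨_, (hd s).hasDerivWithinAt, by rw [hY _ hM h2]; exact hmb _ ⟨⟨hM, h2⟩, h1⟩⟩
  have h1 := fence_back (a := -T) (b := 0) (v := 3 / 2) hc.continuousOn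
    (fun s _ h => (hrd s (by linarith) (by linarith)).mono fun a ha => by linarith)
    (by rw [hf.zero]; linarith)
  by_contra hcon
  have h2 := fence_up (a := -T) (b := 0) (v := 1 / 2) hc.continuousOn
    (fun s _ h => (hrd s (by linarith) (by linarith)).mono fun a ha => by linarith)
    (not_le.1 hcon).le
  have h3 := speed_ge (a := -T) (b := 0) (m := m) (by linarith) hc.continuousOn fun s hs =>
    hrd s (h2 s (Ico_subset_Icc_self hs)) (by linarith [h1 s (Ico_subset_Icc_self hs)])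
  rw [hf.zero] at h3
  linarith [not_le.1 hcon]

omit [NormedSpace ℝ V] in
theorem ev_sep {𝒵 : Set V} (h : 𝒵.Finite) :
    ∀ᶠ δ in 𝓝[>] (0 : ℝ), ∀ z ∈ 𝒵, ∀ z' ∈ 𝒵, z ≠ z' → 2 * δ < dist z z' := by
  refine (eventually_all_finite h).2 fun z _ => (eventually_all_finite h).2 fun z' _ => ?_
  by_cases hz : z = z'
  · exact Eventually.of_forall fun _ h => absurd hz h
  · filter_upwards [Ioo_mem_nhdsGT (half_pos (dist_pos.2 hz))] with δ hδ _
    linarith [hδ.2]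

theorem ev_good {S : Set V} {Y : V → V} {z : V} {u : V → ℝ} (h : GoodWith S Y z u)
    (hφ : Continuous φ) (hz : φ z < 2) : ∀ᶠ δ in 𝓝[>] (0 : ℝ), ∀ x ∈ S, dist x z ≤ 2 * δ →
      φ x ≤ 2 ∧ δ * ‖x - z‖ ^ 2 ≤ fderiv ℝ u x (Y x) := by
  obtain ⟨-, -, -, c, hc, hev⟩ := h
  have h2 := hev.and (mem_nhdsWithin_of_mem_nhds (hφ.continuousAt.eventually (gt_mem_nhds hz)))
  obtain ⟨ρ, hρ, hb⟩ := Metric.mem_nhdsWithin_iff.1 h2
  filter_upwards [Ioo_mem_nhdsGT (lt_min hc (show 0 < ρ / 3 by positivity))] with δ hδ x hx hd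
  have h3 := hb ⟨(show dist x z < ρ by linarith [hδ.2.trans_le (min_le_right _ _)]), hx⟩
  refine ⟨h3.2.le, le_trans ?_ h3.1⟩
  gcongr
  exact (hδ.2.trans_le (min_le_left _ _)).le

variable {ι : Type} [Fintype ι] [DecidableEq ι] {G : V × (ι → ℂ) → ℝ}

omit [Fintype ι] in
theorem ZH_of_zero {p : V × (ι → ℂ)} (h : ∀ᶠ p' in 𝓝 p, G p' = 0) :
    ZH l Pi G p = (Pi p.1 (l p.1), (1 / 2 : ℝ) • p.2) := by
  have h1 : fderiv ℝ G p = 0 := by
    rw [EventuallyEq.fderiv_eq (f := fun _ => (0 : ℝ)) h]; simp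
  simp [ZH, d1, d2, h1, shC_zero]

omit [DecidableEq ι] in
theorem fderiv_ph {u : V → ℝ} (hu : ContDiff ℝ ∞ u) (p v : V × (ι → ℂ)) :
    fderiv ℝ (ph u) p v = fderiv ℝ u p.1 v.1 + 2 * ipc p.2 v.2 := by
  have h1 := ((hu.differentiable (by simp) p.1).hasFDerivAt.comp p hasFDerivAt_fst).add
    ((contDiff_nsq.differentiable (by simp) p.2).hasFDerivAt.comp p hasFDerivAt_snd)
  have h2 : fderiv ℝ (ph u) p = _ := h1.fderiv
  rw [h2]
  simp [fderiv_nsq]

omit [DecidableEq ι] in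
theorem contDiff_ph {u : V → ℝ} (hu : ContDiff ℝ ∞ u) :
    ContDiff ℝ ∞ (ph u : V × (ι → ℂ) → ℝ) :=
  (hu.comp contDiff_fst).add (contDiff_nsq.comp contDiff_snd)

omit [DecidableEq ι] in
theorem cpt_hat {s : ℝ} (hA : Amb E M l Pi φ s) {c : ℝ} (hc : c < 6) :
    IsCompact {p ∈ hat M ι | ph φ p ≤ c} := by
  refine ((hA.cpt c hc).prod (isCompact_nsq c)).inter_right
    (isClosed_le (contDiff_ph hA.sφ).continuous (continuous_const (y := c))) |>.of_isClosed_subset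
    ?_ ?_
  · have : {p ∈ hat M ι | ph φ p ≤ c} = ({x ∈ M | φ x ≤ c} ×ˢ {z | nsq z ≤ c}) ∩
        {p | ph φ p ≤ c} := by
      ext p
      constructor
      · rintro ⟨h1, h2⟩
        have h3 := hA.nn _ h1
        have h4 := nsq_nonneg p.2
        simp only [ph] at h2
        exact ⟨⟨⟨h1, by linarith⟩, by simp only [mem_ofPred_eq]; linarith⟩, h2⟩
      · rintro ⟨⟨h1, -⟩, h2⟩
        exact ⟨h1.1, h2⟩
    rw [this]
    exact (((hA.cpt c hc).prod (isCompact_nsq c)).inter_right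
      (isClosed_le (contDiff_ph hA.sφ).continuous continuous_const)).isClosed
  · rintro p ⟨h1, h2⟩
    have h3 := hA.nn _ h1
    have h4 := nsq_nonneg p.2
    simp only [ph] at h2
    exact ⟨⟨⟨h1, by linarith⟩, by simp only [mem_ofPred_eq]; linarith⟩, h2⟩

/-- periodic curves have small `z` and lie in `φ ≤ 1` -/
theorem cyc_small (hA : Amb E M l Pi φ (1 / 8))
    (far : ∀ p : V × (ι → ℂ), p.1 ∈ M → 1 ≤ φ p.1 ∨ 1 ≤ nsq p.2 → ∀ᶠ p' in 𝓝 p, G p' = 0)
    (rad : ∀ p : V × (ι → ℂ), p.1 ∈ M → nsq p.2 / 2 - 1 / 16 ≤ ipc p.2 (ZH l Pi G p).2) :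
    ∃ ε, 0 < ε ∧ ∀ c, Cyc {p ∈ hat M ι | ph φ p ≤ 2} (ZH l Pi G) ε c →
      ∀ t, nsq (c t).2 ≤ 1 / 4 ∧ φ (c t).1 ≤ 1 := by
  have hS := cpt_hat (ι := ι) hA (c := 2) (by norm_num)
  have h1 : ContDiff ℝ ∞ fun p : V × (ι → ℂ) => nsq p.2 := contDiff_nsq.comp contDiff_snd
  have h2 : ContDiff ℝ ∞ fun p : V × (ι → ℂ) => φ p.1 := hA.sφ.comp contDiff_fst
  obtain ⟨C₁, hC₁, hb₁⟩ := exists_fderiv_bound (h1.of_le (by simp)) hS
  obtain ⟨C₂, hC₂, hb₂⟩ := exists_fderiv_bound (h2.of_le (by simp)) hS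
  have hK : IsCompact ({x ∈ M | φ x ≤ 2} ∩ {x | 1 ≤ φ x}) :=
    (hA.cpt 2 (by norm_num)).inter_right (isClosed_le continuous_const hA.sφ.continuous)
  obtain ⟨m, hm, hmb⟩ := exists_pos_le hK (u := fun x => fderiv ℝ φ x (Pi x (l x)))
    ((hA.sφ.continuous_fderiv (by simp)).clm_apply hA.smZ.continuous).continuousOn
    fun x hx => hA.shell x hx.1.1 (by linarith [show 1 ≤ φ x from hx.2])
  refine ⟨min (1 / (16 * C₁)) (m / (2 * C₂)), by positivity, fun c hc t => ?_⟩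
  set ε := min (1 / (16 * C₁)) (m / (2 * C₂)) with hε
  have hε0 : 0 < ε := by positivity
  have e1 : C₁ * ε ≤ 1 / 16 := by
    have : ε ≤ 1 / (16 * C₁) := min_le_left _ _
    rw [le_div_iff₀ (by positivity)] at this
    linarith
  have e2 : C₂ * ε ≤ m / 2 := by
    have : ε ≤ m / (2 * C₂) := min_le_right _ _
    rw [le_div_iff₀ (by positivity)] at this
    linarith
  obtain ⟨τ, hτ, hper⟩ := hc.per
  constructor
  · refine band_le (f := fun s => nsq (c s).2) (h1.continuous.comp hc.cont) hτ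
      (fun s => by simp only [hper s]) (fun s hs => ?_) t
    refine ((hc.near s).comp (h1.differentiable (by simp) _)).rd.mono fun a ha => ?_
    have h3 := mul_le_mul_of_nonneg_right (hb₁ _ (hc.mem s)) hε0.le
    have h4 : fderiv ℝ (fun p : V × (ι → ℂ) => nsq p.2) (c s) (ZH l Pi G (c s)) =
        2 * ipc (c s).2 (ZH l Pi G (c s)).2 := by
      have := ((contDiff_nsq.differentiable (by simp) (c s).2).hasFDerivAt.comp (c s)
        hasFDerivAt_snd).fderiv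
      rw [show (fun p : V × (ι → ℂ) => nsq p.2) = nsq ∘ Prod.snd from rfl, this]
      simp [fderiv_nsq]
    have h5 := rad (c s) (hc.mem s).1
    linarith [ha.1]
  · refine band_le (f := fun s => φ (c s).1) (h2.continuous.comp hc.cont) hτ
      (fun s => by simp only [hper s]) (fun s hs => ?_) t
    refine ((hc.near s).comp (h2.differentiable (by simp) _)).rd.mono fun a ha => ?_
    have h3 := mul_le_mul_of_nonneg_right (hb₂ _ (hc.mem s)) hε0.le
    have h4 : fderiv ℝ (fun p : V × (ι → ℂ) => φ p.1) (c s) (ZH l Pi G (c s)) =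
        fderiv ℝ φ (c s).1 (Pi (c s).1 (l (c s).1)) := by
      have := ((hA.sφ.differentiable (by simp) (c s).1).hasFDerivAt.comp (c s)
        hasFDerivAt_fst).fderiv
      rw [show (fun p : V × (ι → ℂ) => φ p.1) = φ ∘ Prod.fst from rfl, this,
        ZH_of_zero (far _ (hc.mem s).1 (Or.inl hs.le))]
      simp
    have h6 := (hc.mem s).2
    have h7 := nsq_nonneg (c s).2
    simp only [ph] at h6
    have h5 := hmb (c s).1 ⟨⟨(hc.mem s).1, by linarith⟩, hs.le⟩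
    linarith [ha.1]

end Pool.Agent.MP_6d695c_gt.SW

end MrgPart3

-- ======== part 4: formerly Pool.Agent.MP_6d695c_gt.sw.MainB
section MrgPart4

/-! PROJECT SW: boxes and the flow. -/

open scoped ContDiff Topology
open Set Metric Filter Real

namespace Pool.Agent.MP_6d695c_gt.SW

variable {V : Type} [NormedAddCommGroup V] [NormedSpace ℝ V] {E : Type} [NormedAddCommGroup E]
  [NormedSpace ℝ E] {M : Set V} {l l₀ : V → V →L[ℝ] ℝ} {Pi : V → (V →L[ℝ] ℝ) →L[ℝ] V} {φ : V → ℝ}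
  {m : ℕ} {bx : Fin m → Bx V} {h s : ℝ} {Y : V → V} {fl : ℝ → V → V}

theorem cbox_mono {n : ℕ} {a b a' b' : ℝ} (ha : a ≤ a') (hb : b ≤ b') :
    cbox n a b ⊆ cbox n a' b' := fun _ hq => ⟨hq.1.trans ha, hq.2.trans hb⟩

theorem Boxes.cpt (hB : Boxes M l Pi φ bx h) (b : Fin m) {K : Set (Q (bx b).n)} (hK : IsCompact K)
    (hs : K ⊆ cbox (bx b).n (10 * h) (5 * (bx b).w)) : IsCompact ((bx b).Ψ '' K) :=
  hK.image_of_continuousOn ((hB.ch b).par.sg.continuousOn.mono (hs.trans (hB.sub b)))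

theorem Boxes.act_sub (hB : Boxes M l Pi φ bx h) (b : Fin m) :
    cbox (bx b).n h (7 / 2 * (bx b).w) ⊆ cbox (bx b).n (10 * h) (5 * (bx b).w) :=
  cbox_mono (by linarith [hB.hpos]) (by linarith [hB.wpos b])

theorem Boxes.act_iff (hB : Boxes M l Pi φ bx h) (b : Fin m) (x : V) :
    InAct M (bx b) h x ↔ x ∈ (bx b).Ψ '' cbox (bx b).n h (7 / 2 * (bx b).w) :=
  ((hB.ch b).par.mem_image ((hB.act_sub b).trans (hB.sub b))).symm

theorem Boxes.isClosed_act (hB : Boxes M l Pi φ bx h) : IsClosed {x | ∃ b, InAct M (bx b) h x} := by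
  have : {x | ∃ b, InAct M (bx b) h x} = ⋃ b, (bx b).Ψ '' cbox (bx b).n h (7 / 2 * (bx b).w) := by
    ext x
    simp only [mem_ofPred_eq, hB.act_iff, mem_iUnion]
  rw [this]
  exact isClosed_iUnion_of_finite fun b =>
    (hB.cpt b (isCompact_cbox _ _) (hB.act_sub b)).isClosed

theorem Boxes.flow (hB : Boxes M l Pi φ bx h) (hA : Amb E M l Pi φ s) (hf : IsFlow Y fl)
    (hY : ∀ x ∈ M, φ x ≤ 2 → Y x = Pi x (l x)) (b : Fin m) {q : Q (bx b).n} {t : ℝ}
    (h0 : q ∈ cbox (bx b).n (10 * h) (5 * (bx b).w)) (h1 : |q.1 0 + t| ≤ 10 * h) :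
    fl t ((bx b).Ψ q) = (bx b).Ψ (q + t • one _) := by
  refine (hB.ch b).flow hA hf fun u hu => ?_
  have hm : q + u • one _ ∈ cbox (bx b).n (10 * h) (5 * (bx b).w) := by
    refine ⟨?_, by rw [lat_add_one]; exact h0.2⟩
    have h2 := abs_le.1 h0.1
    have h3 := abs_le.1 h1
    have : (q + u • one (bx b).n).1 0 = q.1 0 + u := by simp [one]
    rw [this, abs_le]
    rcases mem_uIcc.1 hu with h4 | h4 <;> constructor <;> linarith [h4.1, h4.2]
  exact ⟨hB.sub b hm, hY _ ((hB.ch b).par.gm _ (hB.sub b hm)).1 (by linarith [hB.low b _ hm])⟩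

theorem Boxes.ne_zero (hB : Boxes M l Pi φ bx h) (b : Fin m) {x : V}
    (hx : x ∈ (bx b).Ψ '' cbox (bx b).n (10 * h) (5 * (bx b).w)) : Pi x (l x) ≠ 0 := by
  obtain ⟨h1, h2, -⟩ := ((hB.ch b).par.mem_image (hB.sub b)).1 hx
  intro h0
  have := (hB.ch b).hZ x h1 h2
  rw [h0, map_zero] at this
  simpa [one] using congrArg (fun q => q.1 0) this

theorem norm_eq_lat {n : ℕ} {q q' : Q n} (h : q.1 0 = q'.1 0) : ‖q - q'‖ ≤ ‖lat q - lat q'‖ := by
  have := norm_le_lat (q - q')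
  rw [← latL_apply, map_sub, latL_apply, latL_apply] at this
  simpa [h] using this

/-- a pass through the box is close to the flow -/
theorem Boxes.pass (hB : Boxes M l Pi φ bx h) (hA : Amb E M l Pi φ s) (hf : IsFlow Y fl)
    (hY : ∀ x ∈ M, φ x ≤ 2 → Y x = Pi x (l x)) (b : Fin m) {ε : ℝ} (hε : 0 < ε) :
    ∃ δ, 0 < δ ∧ ∀ (ι : Type) (x : ℝ → V) (z : ℝ → ι → ℂ),
      Pass h (bx b).w δ {t | InBox M (bx b) h (x t)} (fun t => ((bx b).κ (x t), z t)) →
      ∀ t, InAct M (bx b) h (x t) → ∀ ς : ℝ, ς = 1 ∨ ς = -1 →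
        ∃ s ∈ Icc h (3 * h), ∃ t', dist (x t') (fl (ς * s) (x t)) ≤ ε := by
  obtain ⟨L, hL, hLb⟩ := (hB.ch b).par.lip (isCompact_cbox _ _) (convex_cbox _ _) (hB.sub b)
  refine ⟨ε / L, by positivity, fun ι x z hP t ht ς hς => ?_⟩
  have hh := hB.hpos
  have hw := hB.wpos b
  have hI : InBox M (bx b) h (x t) :=
    ⟨ht.1, ht.2.1, ht.2.2.1.trans_lt (by linarith), ht.2.2.2.trans_lt (by linarith)⟩
  obtain ⟨t', hI', h1, h2, h3⟩ := hP t hI ht.2.2 ς hς
  simp only [] at h1 h2 h3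
  have ha := abs_le.1 ht.2.2.1
  set q := (bx b).κ (x t) with hq
  set q' := (bx b).κ (x t') with hq'
  have hss : ς * ς = 1 := by rcases hς with rfl | rfl <;> norm_num
  have e0 : q.1 0 + ς * (2 * h - ς * q.1 0) = ς * (2 * h) := by
    linear_combination (-q.1 0) * hss
  refine ⟨2 * h - ς * q.1 0, ?_, t', ?_⟩
  · rcases hς with rfl | rfl <;> constructor <;> linarith [ha.1, ha.2]
  have hx : x t = (bx b).Ψ q := ((hB.ch b).par.rm _ ht.1 ht.2.1).2.symm
  have hx' : x t' = (bx b).Ψ q' := ((hB.ch b).par.rm _ hI'.1 hI'.2.1).2.symm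
  have habs : |q.1 0 + ς * (2 * h - ς * q.1 0)| ≤ 10 * h := by
    rw [e0, abs_le]
    rcases hς with rfl | rfl <;> constructor <;> linarith
  have e1 : (q + (ς * (2 * h - ς * q.1 0)) • one (bx b).n).1 0 =
      q.1 0 + ς * (2 * h - ς * q.1 0) := by simp [one]
  rw [hx, hB.flow hA hf hY b (hB.act_sub b ht.2.2) habs, hx', dist_eq_norm]
  refine (hLb _ (cbox_mono (by linarith) (by linarith) h2) _
    ⟨by rw [e1]; exact habs, by rw [lat_add_one]; linarith [ht.2.2.2]⟩).trans ?_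
  have h4 := norm_eq_lat (q := q') (q' := q + (ς * (2 * h - ς * q.1 0)) • one (bx b).n)
    (by rw [e1, e0, h1])
  rw [lat_add_one] at h4
  calc _ ≤ L * (ε / L) := by gcongr; exact h4.trans h3
    _ = ε := by field_simp

/-- the region above the cores -/
def HitK (bx : Fin m → Bx V) (h : ℝ) : Set V :=
  ⋃ b, (bx b).Ψ '' (cbox (bx b).n (7 * h) ((bx b).w / 2) ∩ {q | 3 * h ≤ q.1 0})

def HitO (bx : Fin m → Bx V) (h : ℝ) : Set V :=
  ⋃ b, (bx b).N ∩ (bx b).κ ⁻¹' (obox (bx b).n (9 * h) (bx b).w ∩ {q | 2 * h < q.1 0})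

theorem Boxes.hit_sub (hB : Boxes M l Pi φ bx h) (b : Fin m) :
    cbox (bx b).n (7 * h) ((bx b).w / 2) ∩ {q | 3 * h ≤ q.1 0} ⊆
      cbox (bx b).n (10 * h) (5 * (bx b).w) :=
  inter_subset_left.trans (cbox_mono (by linarith [hB.hpos]) (by linarith [hB.wpos b]))

theorem Boxes.cptK (hB : Boxes M l Pi φ bx h) : IsCompact (HitK bx h) :=
  isCompact_iUnion fun b => hB.cpt b ((isCompact_cbox _ _).inter_right
    (isClosed_le continuous_const (by fun_prop))) (hB.hit_sub b)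

theorem Boxes.opO (hB : Boxes M l Pi φ bx h) : IsOpen (HitO bx h) :=
  isOpen_iUnion fun b => (hB.ch b).par.oN.inter (((isOpen_obox _ _).inter
    (isOpen_lt continuous_const (by fun_prop))).preimage (hB.ch b).sκ.continuous)

theorem Boxes.KO (hB : Boxes M l Pi φ bx h) : HitK bx h ⊆ HitO bx h := by
  refine iUnion_mono fun b x hx => ?_
  obtain ⟨-, h2, h3⟩ := ((hB.ch b).par.mem_image ((hB.hit_sub b).trans (hB.sub b))).1 hx
  have hh := hB.hpos
  have hw := hB.wpos b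
  have h4 : 3 * h ≤ ((bx b).κ x).1 0 := h3.2
  exact ⟨h2, ⟨h3.1.1.trans_lt (by linarith), h3.1.2.trans_lt (by linarith)⟩,
    show 2 * h < ((bx b).κ x).1 0 by linarith⟩

theorem Boxes.hit (hB : Boxes M l Pi φ bx h) (hA : Amb E M l Pi φ s) (hf : IsFlow Y fl)
    (hY : ∀ x ∈ M, φ x ≤ 2 → Y x = Pi x (l x)) {T : ℝ} (hT : 1 ≤ T) {p : V}
    (hp : ∃ b, ∃ u ∈ Icc (-(1 / 2) : ℝ) (1 / 2), ∃ q ∈ cbox (bx b).n 0 ((bx b).w / 2),
      fl u (fl (-T) p) = (bx b).Ψ q) :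
    ∃ s₀ ∈ Icc (3 * h) (T + 1), ∀ s ∈ Icc (3 * h) (7 * h), fl (s - s₀) p ∈ HitK bx h := by
  obtain ⟨b, u, hu, q, hq, e⟩ := hp
  have hh := hB.hpos
  have hw := hB.wpos b
  have hq0 : q.1 0 = 0 := abs_nonpos_iff.1 hq.1
  refine ⟨T - u, ⟨by linarith [hu.2, hB.hle], by linarith [hu.1]⟩, fun s hs => ?_⟩
  have e1 : (q + s • one (bx b).n).1 0 = s := by simp [one, hq0]
  rw [show s - (T - u) = s + (u + -T) by ring, hf.add, hf.add, e,
    hB.flow hA hf hY b (cbox_mono (by linarith) (by linarith) hq)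
      (by rw [hq0, zero_add, abs_le]; constructor <;> linarith [hs.1, hs.2])]
  refine mem_iUnion.2 ⟨b, _, ⟨⟨?_, by rw [lat_add_one]; exact hq.2⟩, ?_⟩, rfl⟩
  · rw [e1, abs_le]; constructor <;> linarith [hs.1, hs.2]
  · show 3 * h ≤ (q + s • one (bx b).n).1 0
    rw [e1]; exact hs.1

theorem Boxes.nohit (hB : Boxes M l Pi φ bx h) {x : ℝ → V} (hx : ∀ t, x t ∈ M)
    {ι : Fin m → Type} {z : ∀ b, ℝ → ι b → ℂ}
    (hN : ∀ b, NoHit h (bx b).w {t | InBox M (bx b) h (x t)} fun t => ((bx b).κ (x t), z b t)) :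
    Disjoint (range x) (HitO bx h) := by
  refine disjoint_left.2 ?_
  rintro _ ⟨t, rfl⟩ hO
  obtain ⟨b, h1, h2, h3⟩ := mem_iUnion.1 hO
  have hh := hB.hpos
  have hw := hB.wpos b
  have := hN b t ⟨hx t, h1, h2.1.trans (by linarith), h2.2.trans (by linarith)⟩ (le_of_lt h3)
    ((le_abs_self _).trans h2.1.le)
  exact absurd h2.2 (not_lt.2 this.le)

theorem Boxes.ev_far (hB : Boxes M l Pi φ bx h) {z : V} (hz : Pi z (l z) = 0) :
    ∀ᶠ ρ in 𝓝[>] (0 : ℝ), ∀ x, dist x z ≤ ρ → ∀ b, ¬ InAct M (bx b) h x := by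
  have h1 : {x | ∃ b, InAct M (bx b) h x}ᶜ ∈ 𝓝 z := hB.isClosed_act.isOpen_compl.mem_nhds (by
    rintro ⟨b, hb⟩
    exact hB.ne_zero b (image_mono (hB.act_sub b) ((hB.act_iff b z).1 hb)) hz)
  obtain ⟨ρ, hρ, hb⟩ := Metric.mem_nhds_iff.1 h1
  filter_upwards [Ioo_mem_nhdsGT hρ] with η hη x hx b hb'
  exact hb (show dist x z < ρ from hx.trans_lt hη.2) ⟨b, hb'⟩

end Pool.Agent.MP_6d695c_gt.SW

end MrgPart4

-- ======== part 5: formerly Pool.Agent.MP_6d695c_gt.sw.Ham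
section MrgPart5

/-! PROJECT SW, row HAM: the total Hamiltonian. -/

open scoped ContDiff Topology
open Set Metric Filter Real

namespace Pool.Agent.MP_6d695c_gt.SW

namespace Hm

section Fac
variable {ι κ : Type} [Fintype ι] [DecidableEq ι] [Fintype κ] [DecidableEq κ]

theorem ipc_shC (z : ι → ℂ) (β : (ι → ℂ) →L[ℝ] ℝ) :
    ipc z (shC β) = β fun i => Complex.I * z i := by
  rw [← omC_shC β]
  exact Finset.sum_congr rfl fun i _ => by simp; ring

/-- restriction to some of the factors -/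
noncomputable def res (e : ι → κ) : (κ → ℂ) →L[ℝ] (ι → ℂ) :=
  ContinuousLinearMap.pi fun i => ContinuousLinearMap.proj (e i)

omit [Fintype ι] [DecidableEq ι] [Fintype κ] [DecidableEq κ] in
theorem res_apply (e : ι → κ) (z : κ → ℂ) : res e z = fun i => z (e i) := rfl

omit [Fintype ι] [Fintype κ] in
theorem shC_res {e : ι → κ} (he : Function.Injective e) (β : (ι → ℂ) →L[ℝ] ℝ) (i : ι) :
    shC (β.comp (res e)) (e i) = shC β i := by
  have h : ∀ c : ℂ, res e (Pi.single (e i) c) = Pi.single i c := fun c => funext fun j => by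
    simp [res_apply, Pi.single_apply, he.eq_iff]
  simp only [shC, ContinuousLinearMap.comp_apply, h]

omit [Fintype ι] [DecidableEq ι] [Fintype κ] in
theorem shC_res_out {e : ι → κ} (β : (ι → ℂ) →L[ℝ] ℝ) {j : κ} (hj : j ∉ range e) :
    shC (β.comp (res e)) j = 0 := by
  have h : ∀ c : ℂ, res e (Pi.single j c) = 0 := fun c => funext fun i =>
    Pi.single_eq_of_ne (M := fun _ => ℂ) (fun h => hj ⟨i, h⟩) c
  apply Complex.ext <;> simp [shC, h]

variable {V : Type} [NormedAddCommGroup V] [NormedSpace ℝ V] {X : Type} [NormedAddCommGroup X]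
  [NormedSpace ℝ X]

omit [DecidableEq ι] [DecidableEq κ] in
theorem d_box {G : V × (κ → ℂ) → ℝ} {H₀ : V → ℝ} {H : X × (ι → ℂ) → ℝ} {c : V → X} {e : ι → κ}
    {p : V × (κ → ℂ)} (h₀ : ContDiff ℝ ∞ H₀) (hH : ContDiff ℝ ∞ H) (hc : ContDiff ℝ ∞ c)
    (h : ∀ᶠ p' in 𝓝 p, G p' = H₀ p'.1 + H (c p'.1, fun i => p'.2 (e i))) :
    d1 G p = fderiv ℝ H₀ p.1 + (d1 H (c p.1, fun i => p.2 (e i))).comp (fderiv ℝ c p.1) ∧
      d2 G p = (d2 H (c p.1, fun i => p.2 (e i))).comp (res e) := by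
  have h1 := ((h₀.differentiable (by simp) p.1).hasFDerivAt.comp p hasFDerivAt_fst).add
    ((hH.differentiable (by simp) (c p.1, res e p.2)).hasFDerivAt.comp p
      (((hc.differentiable (by simp) p.1).hasFDerivAt.comp p hasFDerivAt_fst).prodMk
        ((res e).hasFDerivAt.comp p hasFDerivAt_snd)))
  have h2 := (h1.congr_of_eventuallyEq h).fderiv
  have h3 : res e p.2 = fun i => p.2 (e i) := rfl
  constructor <;> refine ContinuousLinearMap.ext fun v => ?_ <;> simp [d1, d2, h2, h3]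

omit [DecidableEq κ] in
theorem d_free {G : V × (κ → ℂ) → ℝ} {H₀ : V → ℝ} {p : V × (κ → ℂ)} (h₀ : ContDiff ℝ ∞ H₀)
    (h : ∀ᶠ p' in 𝓝 p, G p' = H₀ p'.1) : d1 G p = fderiv ℝ H₀ p.1 ∧ d2 G p = 0 := by
  have h1 := (h₀.differentiable (by simp) p.1).hasFDerivAt.comp p hasFDerivAt_fst
  have h2 := (h1.congr_of_eventuallyEq h).fderiv
  constructor <;> refine ContinuousLinearMap.ext fun v => ?_ <;> simp [d1, d2, h2]

theorem ipc_cut {G : V × (κ → ℂ) → ℝ} {β : ℝ → ℝ} (hG : ContDiff ℝ ∞ G) (hβ : ContDiff ℝ ∞ β)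
    (p : V × (κ → ℂ)) : ipc p.2 (shC (d2 (fun p => β (nsq p.2) * G p) p)) =
      β (nsq p.2) * ipc p.2 (shC (d2 G p)) := by
  have h0 := ipc_shC_nsq p.2
  have h1 := ((hβ.differentiable (by simp) _).hasDerivAt.comp_hasFDerivAt p
    ((contDiff_nsq.differentiable (by simp) p.2).hasFDerivAt.comp p hasFDerivAt_snd)).mul
    (hG.differentiable (by simp) p).hasFDerivAt
  have h2 : fderiv ℝ (fun p : V × (κ → ℂ) => β (nsq p.2) * G p) p = _ := h1.fderiv
  rw [ipc_shC] at h0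
  simp [ipc_shC, d2, h2, h0]

end Fac

theorem cbox_mono {n : ℕ} {a b a' b' : ℝ} (ha : a ≤ a') (hb : b ≤ b') :
    cbox n a b ⊆ cbox n a' b' := fun _ h => ⟨h.1.trans ha, h.2.trans hb⟩

theorem cbox_obox {n : ℕ} {a b a' b' : ℝ} (ha : a < a') (hb : b < b') :
    cbox n a b ⊆ obox n a' b' := fun _ h => ⟨h.1.trans_lt ha, h.2.trans_lt hb⟩

theorem obox_cbox {n : ℕ} {a b : ℝ} : obox n a b ⊆ cbox n a b := fun _ h => ⟨h.1.le, h.2.le⟩

end Hm

open Hm in
theorem ham : HamStmt := by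
  intro V _ _ _ d M l Pi φ H₀ s m bx h ρ ι _ _ H k e hH₀ hfar hA hB hρ hH hs hr he
  have hh := hB.hpos
  obtain ⟨β, hβ, β1, β0, βm, -⟩ := exists_step (u := 1 / 2) (v := 9 / 10) (by norm_num)
  have hcut := fun b => exists_cut
    ((isCompact_cbox (10 * h) (5 * (bx b).w)).image_of_continuousOn
      ((hB.ch b).par.sg.continuousOn.mono (hB.sub b))) (hB.ch b).par.oN
    (by rintro _ ⟨q, hq, rfl⟩; exact ((hB.ch b).par.gm q (hB.sub b hq)).2.1)
  choose χ hχ _ χs χ1 _ using hcut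
  have hc : ∀ b, ContDiff ℝ ∞ fun p : V × (Fin k → ℂ) =>
      (((bx b).κ p.1, fun i => p.2 (e b i)) : Q (bx b).n × (ι b → ℂ)) := fun b =>
    ((hB.ch b).sκ.comp contDiff_fst).prodMk ((res (e b)).contDiff.comp contDiff_snd)
  set T : Fin m → V × (Fin k → ℂ) → ℝ := fun b p =>
    χ b p.1 * H b ((bx b).κ p.1, fun i => p.2 (e b i)) with hT
  set G : V × (Fin k → ℂ) → ℝ := fun p => H₀ p.1 + ∑ b, T b p with hG
  have sG : ContDiff ℝ ∞ G := (hH₀.comp contDiff_fst).add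
    (ContDiff.sum fun b _ => ((hχ b).comp contDiff_fst).mul ((hH b).comp (hc b)))
  have van : ∀ b (p : V × (Fin k → ℂ)),
      ¬ (p.1 ∈ (bx b).N ∧ (bx b).κ p.1 ∈ cbox (bx b).n h (3 * (bx b).w)) →
      ∀ᶠ p' in 𝓝 p, T b p' = 0 := fun b p hp => by
    rcases not_and_or.1 hp with h1 | h1
    · filter_upwards [continuous_fst.continuousAt.eventually
        (notMem_tsupport_iff_eventuallyEq.1 fun h' => h1 (χs b h'))] with p' h2
      exact mul_eq_zero_of_left h2 _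
    · filter_upwards [(hc b).continuous.continuousAt.eventually (hs b _ h1)] with p' h2
      exact mul_eq_zero_of_right _ h2
  have act : ∀ b x, x ∈ M → x ∈ (bx b).N ∧ (bx b).κ x ∈ cbox (bx b).n h (3 * (bx b).w) →
      InBox M (bx b) h x := fun b x hx h1 =>
    ⟨hx, h1.1, cbox_obox (by linarith) (by linarith [hB.wpos b]) h1.2⟩
  have uni : ∀ b b' x, InBox M (bx b) h x → InBox M (bx b') h x → b = b' := fun b b' x h1 h2 => by
    by_contra hne
    exact hB.disj b b' hne _ (obox_cbox h1.2.2) _ (obox_cbox h2.2.2)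
      (((hB.ch b).par.rm x h1.1 h1.2.1).2.trans ((hB.ch b').par.rm x h2.1 h2.2.1).2.symm)
  have kA : ∀ p : V × (Fin k → ℂ),
      (∀ b, ¬ (p.1 ∈ (bx b).N ∧ (bx b).κ p.1 ∈ cbox (bx b).n h (3 * (bx b).w))) →
      ∀ᶠ p' in 𝓝 p, G p' = H₀ p'.1 := fun p hp => by
    filter_upwards [eventually_all.2 fun b => van b p (hp b)] with p' h1
    simp only [hG, h1, Finset.sum_const_zero, add_zero]
  have kB : ∀ (p : V × (Fin k → ℂ)) b, InBox M (bx b) h p.1 →
      ∀ᶠ p' in 𝓝 p, G p' = H₀ p'.1 + H b ((bx b).κ p'.1, fun i => p'.2 (e b i)) := fun p b hp => by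
    have h1 : ∀ b', ∀ᶠ p' in 𝓝 p, b' ≠ b → T b' p' = 0 := fun b' => by
      by_cases hb : b' = b
      · exact Eventually.of_forall fun _ h => absurd hb h
      · exact (van b' p fun h => hb (uni _ _ _ (act b' _ hp.1 h) hp)).mono fun _ h _ => h
    filter_upwards [eventually_all.2 h1, continuous_fst.continuousAt.eventually
      (χ1 b p.1 ⟨_, obox_cbox hp.2.2, ((hB.ch b).par.rm _ hp.1 hp.2.1).2⟩)] with p' h2 h3
    simp only [hG]
    rw [Finset.sum_eq_single b (fun b' _ hb => h2 b' hb) (by simp)]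
    simp only [hT, h3, one_mul]
  have one : ∀ p : V × (Fin k → ℂ), nsq p.2 < 1 / 2 → ∀ᶠ p' in 𝓝 p, β (nsq p'.2) * G p' = G p' :=
    fun p hp => by
      filter_upwards [(contDiff_nsq.continuous.comp continuous_snd).continuousAt.eventually
        (gt_mem_nhds hp)] with p' h1
      rw [β1 (nsq p'.2) (le_of_lt h1), one_mul]
  have fr : ∀ p : V × (Fin k → ℂ), nsq p.2 < 1 / 2 →
      (∀ b, ¬ (p.1 ∈ (bx b).N ∧ (bx b).κ p.1 ∈ cbox (bx b).n h (3 * (bx b).w))) →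
      ZH l Pi (fun p => β (nsq p.2) * G p) p =
        (Pi p.1 (l p.1 + fderiv ℝ H₀ p.1), (1 / 2 : ℝ) • p.2) := fun p hp h1 => by
    obtain ⟨e1, e2⟩ := d_free (G := fun p => β (nsq p.2) * G p) hH₀
      (((one p hp).and (kA p h1)).mono fun _ h => h.1.trans h.2)
    rw [ZH, e1, e2, shC_zero, add_zero]
  have ins : ∀ p : V × (Fin k → ℂ), nsq p.2 < 1 / 2 → ∀ b, InBox M (bx b) h p.1 →
      (fderiv ℝ (bx b).κ p.1 (ZH l Pi (fun p => β (nsq p.2) * G p) p).1,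
        fun i => (ZH l Pi (fun p => β (nsq p.2) * G p) p).2 (e b i)) =
        XM (H b) ((bx b).κ p.1, fun i => p.2 (e b i)) ∧
      ∀ j, j ∉ range (e b) →
        (ZH l Pi (fun p => β (nsq p.2) * G p) p).2 j = (1 / 2 : ℝ) • p.2 j := fun p hp b hb => by
    obtain ⟨e1, e2⟩ := d_box (G := fun p => β (nsq p.2) * G p) hH₀ (hH b) (hB.ch b).sκ
      (((one p hp).and (kB p b hb)).mono fun _ h => h.1.trans h.2)
    have hi : Function.Injective (e b) := fun i j hij =>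
      sigma_mk_injective (he (a₁ := ⟨b, i⟩) (a₂ := ⟨b, j⟩) hij)
    rw [ZH, e1, e2]
    refine ⟨Prod.ext ?_ (funext fun i => ?_), fun j hj => ?_⟩
    · simp only [XM]
      rw [← add_assoc, map_add, map_add, (hB.ch b).hZ _ hb.1 hb.2.1, (hB.ch b).hP _ hb.1 hb.2.1]
    · simp only [XM, _root_.Pi.add_apply, shC_res hi, _root_.Pi.smul_apply]
    · simp only [_root_.Pi.add_apply, shC_res_out _ hj, _root_.Pi.smul_apply, add_zero]
  refine ⟨fun p => β (nsq p.2) * G p, (hβ.comp (contDiff_nsq.comp contDiff_snd)).mul sG,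
    fun p hp h1 => ?_, fun p hp => ?_, fun p hp h1 h2 => fr p h1 fun b h3 => h2 b
      ⟨hp, h3.1, cbox_mono le_rfl (by linarith [hB.wpos b]) h3.2⟩, ins, fun p hp h1 b h2 i => ?_⟩
  · rcases h1 with h1 | h1
    · filter_upwards [kA p fun b h2 => by
        have h3 := hB.low b _ (obox_cbox (act b _ hp h2).2.2)
        rw [((hB.ch b).par.rm _ hp h2.1).2] at h3
        linarith, continuous_fst.continuousAt.eventually (hfar p.1 hp (by linarith))] with p' h2 h3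
      rw [h2, h3, mul_zero]
    · filter_upwards [(contDiff_nsq.continuous.comp continuous_snd).continuousAt.eventually
        (lt_mem_nhds (show 9 / 10 < nsq p.2 by linarith))] with p' h2
      rw [β0 (nsq p'.2) (le_of_lt h2), zero_mul]
  · have h1 : |ipc p.2 (shC (d2 G p))| ≤ ρ := by
      by_cases h2 : ∃ b, InBox M (bx b) h p.1
      · obtain ⟨b, hb⟩ := h2
        have h3 := hr b ((bx b).κ p.1, fun i => p.2 (e b i))
        rw [ipc_shC] at h3 ⊢
        rw [(d_box hH₀ (hH b) (hB.ch b).sκ (kB p b hb)).2]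
        exact h3
      · rw [(d_free hH₀ (kA p fun b h3 => h2 ⟨b, act b _ hp h3⟩)).2, ipc_shC]
        simpa using hρ
    simp only [ZH]
    rw [ipc_add, ipc_smul, ipc_self, ipc_cut sG hβ]
    have h2 := βm (nsq p.2)
    have h3 := abs_le.1 h1
    nlinarith [h2.1, h2.2]
  · by_cases h3 : ∃ b', InBox M (bx b') h p.1
    · obtain ⟨b', hb⟩ := h3
      refine (ins p h1 b' hb).2 _ ?_
      rintro ⟨j, hj⟩
      have h4 : b' = b := congrArg Sigma.fst (he (a₁ := ⟨b', j⟩) (a₂ := ⟨b, i⟩) hj)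
      exact h2 (h4 ▸ hb)
    · rw [fr p h1 fun b' h4 => h3 ⟨b', act b' _ hp h4⟩]
      rfl

end Pool.Agent.MP_6d695c_gt.SW

end MrgPart5

-- ======== part 6: formerly Pool.Agent.MP_6d695c_gt.sw.Main
section MrgPart6

/-! PROJECT SW: the ambient theorem from the modules. -/

open scoped ContDiff Topology
open Set Metric Filter Real

namespace Pool.Agent.MP_6d695c_gt.SW

section
variable {V : Type} [NormedAddCommGroup V] [NormedSpace ℝ V] {E : Type} [NormedAddCommGroup E]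
  [NormedSpace ℝ E] {M : Set V} {l l₀ : V → V →L[ℝ] ℝ} {Pi : V → (V →L[ℝ] ℝ) →L[ℝ] V} {φ : V → ℝ}
  {ι : Type} [Fintype ι] [DecidableEq ι] {G : V × (ι → ℂ) → ℝ} {z : V} {u : V → ℝ} {ρ c s : ℝ}

theorem old_prod (hu : ContDiff ℝ ∞ u) {p : V × (ι → ℂ)}
    (h : ZH l Pi G p = (Pi p.1 (l₀ p.1), (1 / 2 : ℝ) • p.2)) :
    fderiv ℝ (ph u) p (ZH l Pi G p) = fderiv ℝ u p.1 (Pi p.1 (l₀ p.1)) + nsq p.2 := by
  rw [fderiv_ph hu, h]
  simp only [ipc_smul, ipc_self]
  ring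

theorem old_good (hρ : 0 < ρ) (hg : GoodWith M (fun x => Pi x (l₀ x)) z u) (hz : z ∈ M)
    (free : ∀ p : V × (ι → ℂ), p.1 ∈ M → nsq p.2 < 1 / 2 → dist p.1 z ≤ ρ →
      ZH l Pi G p = (Pi p.1 (l₀ p.1), (1 / 2 : ℝ) • p.2)) :
    GoodWith (hat M ι) (ZH l Pi G) (z, 0) (ph u) := by
  obtain ⟨h0, hu, h1, c, hc, hev⟩ := hg
  have hn : nsq (0 : ι → ℂ) = 0 := by simp [nsq]
  refine ⟨?_, contDiff_ph hu, ?_, min c 1, by positivity, ?_⟩
  · rw [free (z, 0) hz (by rw [hn]; norm_num) (by simpa using hρ.le)]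
    simp only [] at h0
    simp [h0]
  · refine ContinuousLinearMap.ext fun v => ?_
    rw [fderiv_ph hu]
    simp [h1, ipc]
  · have t1 : Tendsto Prod.fst (𝓝[hat M ι] (z, (0 : ι → ℂ))) (𝓝[M] z) :=
      tendsto_nhdsWithin_iff.2 ⟨(continuous_fst.tendsto _).mono_left nhdsWithin_le_nhds,
        self_mem_nhdsWithin⟩
    have t2 : ∀ᶠ p in 𝓝 (z, (0 : ι → ℂ)), nsq p.2 < 1 / 2 :=
      (contDiff_nsq.continuous.comp continuous_snd).continuousAt.eventually
        (gt_mem_nhds (by simp [hn]))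
    have t3 : ∀ᶠ p in 𝓝 (z, (0 : ι → ℂ)), dist p.1 z < ρ :=
      (continuous_fst.dist continuous_const).continuousAt.eventually (gt_mem_nhds (by simpa))
    filter_upwards [t1.eventually hev, self_mem_nhdsWithin, mem_nhdsWithin_of_mem_nhds t2,
      mem_nhdsWithin_of_mem_nhds t3] with p h2 h3 h4 h5
    rw [old_prod hu (free p h3 h4 h5.le)]
    have h6 := norm_sq_le_nsq p.2
    have h7 : ‖p - (z, 0)‖ ^ 2 ≤ ‖p.1 - z‖ ^ 2 + ‖p.2‖ ^ 2 := by
      rw [Prod.norm_def]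
      simp only [Prod.fst_sub, Prod.snd_sub, sub_zero]
      rcases le_total ‖p.1 - z‖ ‖p.2‖ with h | h
      · rw [max_eq_right h]; linarith [sq_nonneg ‖p.1 - z‖]
      · rw [max_eq_left h]; linarith [sq_nonneg ‖p.2‖]
    have h8 : min c 1 ≤ c := min_le_left _ _
    have h9 : min c 1 ≤ 1 := min_le_right _ _
    have h10 : 0 ≤ min c 1 := by positivity
    nlinarith [sq_nonneg ‖p.1 - z‖, sq_nonneg ‖p.2‖, mul_le_mul_of_nonneg_left h7 h10]

theorem old_reg (hA : Amb E M l₀ Pi φ s) (hY : Continuous (ZH l Pi G)) (hu : ContDiff ℝ ∞ u)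
    (hc : 0 < c) (hq : ∀ x ∈ M, dist x z ≤ ρ → c * ‖x - z‖ ^ 2 ≤ fderiv ℝ u x (Pi x (l₀ x)))
    (free : ∀ p : V × (ι → ℂ), p.1 ∈ M → nsq p.2 < 1 / 2 → dist p.1 z ≤ ρ →
      ZH l Pi G p = (Pi p.1 (l₀ p.1), (1 / 2 : ℝ) • p.2)) {p₀ : V × (ι → ℂ)} (hp : p₀ ≠ (z, 0)) :
    ∃ ε, 0 < ε ∧ ∀ γ, Cyc {p ∈ hat M ι | ph φ p ≤ 2} (ZH l Pi G) ε γ →
      (∀ t, nsq (γ t).2 ≤ 1 / 4 ∧ dist (γ t).1 z ≤ ρ) → ∀ t, γ t ≠ p₀ := by
  have hS : IsCompact ({p ∈ hat M ι | ph φ p ≤ 2} ∩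
      ({p | nsq p.2 ≤ 1 / 4} ∩ {p | dist p.1 z ≤ ρ})) :=
    (cpt_hat hA (by norm_num)).inter_right
      ((isClosed_le (contDiff_nsq.continuous.comp continuous_snd) continuous_const).inter
        (isClosed_le (continuous_fst.dist continuous_const) continuous_const))
  obtain ⟨ε, hε, h⟩ := regband _ _ {(z, 0)} _ (ph u) hS (finite_singleton _) hY
    ((contDiff_ph hu).of_le (by simp)) (fun p hp hp' => by
      rw [old_prod hu (free p hp.1.1 (by linarith [show nsq p.2 ≤ 1 / 4 from hp.2.1]) hp.2.2)]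
      have h1 := hq p.1 hp.1.1 hp.2.2
      have h2 := norm_sq_le_nsq p.2
      by_cases h3 : p.1 = z
      · have h4 : p.2 ≠ 0 := fun h => hp' (Prod.ext h3 h)
        have := pow_pos (norm_pos_iff.2 h4) 2
        nlinarith [sq_nonneg ‖p.1 - z‖]
      · have := mul_pos hc (pow_pos (norm_pos_iff.2 (sub_ne_zero.2 h3)) 2)
        nlinarith [sq_nonneg ‖p.2‖]) p₀ hp
  exact ⟨ε, hε, fun γ hγ hb => h γ (hγ.mono (fun t => ⟨hγ.mem t, hb t⟩) le_rfl)⟩

end

theorem main (aflow : AFlowStmt) (lyap : LyapStmt) (step : StepStmt) (chain : ChainStmt)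
    (zero : ZeroStmt) (sect : SectStmt) (ham : HamStmt) (good : GoodStmt) (seen : SeenStmt)
    (box : BoxStmt) : MainStmt := by
  intro V _ _ _ d M l Pi φ hA hnn
  obtain ⟨H₀, hH₀, hfar₀, hA₀, hfin, hgood⟩ := zero V d M l Pi φ hA
  set l₀ : V → V →L[ℝ] ℝ := fun x => l x + fderiv ℝ H₀ x with hl₀
  set 𝒵₀ : Set V := {x ∈ M | Pi x (l x + fderiv ℝ H₀ x) = 0} with h𝒵₀
  obtain ⟨Y, K, fl, -, hK, hY, hf, hinv⟩ := aflow V (Euc d) M (fun x => Pi x (l₀ x)) φ 2 hA₀.sub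
    hA₀.smZ hA₀.sφ (fun x hx => hA₀.tan x hx _) (hA₀.cpt _ (by norm_num))
  have hgood' : ∀ z, ∃ u, z ∈ 𝒵₀ → GoodWith M (fun x => Pi x (l₀ x)) z u := fun z => by
    by_cases hz : z ∈ 𝒵₀
    · obtain ⟨u, hu⟩ := hgood z hz.1 hz.2
      exact ⟨u, fun _ => hu⟩
    · exact ⟨0, fun h => absurd h hz⟩
  choose u hu using hgood'
  have hlow : ∀ z ∈ 𝒵₀, φ z < 2 := fun z hz => by
    by_contra h
    have := hA₀.shell z hz.1 (by linarith [not_lt.1 h])
    rw [show Pi z (l₀ z) = 0 from hz.2, map_zero] at this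
    exact lt_irrefl _ this
  obtain ⟨ρ₂, ⟨hsep, hq⟩, hρ₂⟩ := (((ev_sep hfin).and ((eventually_all_finite hfin).2
    fun z hz => ev_good (hu z hz) hA₀.sφ.continuous (hlow z hz))).and self_mem_nhdsWithin).exists
  have hD := hA₀.cpt 1 (by norm_num)
  obtain ⟨h₀, hh₀, hchain⟩ := chain V Y K fl {x ∈ M | φ x ≤ 1} {x ∈ M | φ x ≤ 2 + 1} 𝒵₀ u ρ₂ ρ₂ hK
    hf hD (hA₀.cpt _ (by norm_num)) (fun x hx => ⟨hx.1, by linarith [hx.2]⟩)
    (fun t x hx => hinv t x hx.1 hx.2) hfin hρ₂ hρ₂ (fun z hz => (hu z hz).2.1)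
    (fun z hz x hx hd => by
      rw [hY x hx.1 (hq z hz x hx.1 hd).1]; exact (hq z hz x hx.1 hd).2) hsep
  obtain ⟨T, hT, hTφ⟩ := exists_time hA₀ hf hY hinv
  have hR : IsCompact ({x ∈ M | φ x ≤ 1} ∩ ⋂ z ∈ 𝒵₀, {p | ρ₂ ≤ dist p z}) :=
    hD.inter_right (isClosed_biInter fun z _ => isClosed_le continuous_const (by fun_prop))
  have hflc : ∀ t, Continuous (fl t) := fun t =>
    hf.sm.continuous.comp (continuous_const.prodMk continuous_id)
  obtain ⟨m, bx, h, hh, hB, hcov⟩ := sect V d M l₀ Pi φ _ Y fl _ h₀ hA₀ hf hY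
    (hR.image (hflc (-T))) (by
      rintro _ ⟨p, hp, rfl⟩
      have h1 := hTφ p hp.1.1 hp.1.2
      have h2 := (hinv (-T) p hp.1.1 (by linarith [hp.1.2])).1
      refine ⟨h2, by linarith, fun h0 => ?_⟩
      have h3 := hf.uniq (fun _ => fl (-T) p) 0 T (by linarith) continuousOn_const fun t _ => by
        rw [hY _ h2 (by linarith), h0]; exact hasDerivAt_const _ _
      rw [sub_zero, ← hf.add, add_neg_cancel, hf.zero] at h3
      have h4 : ρ₂ ≤ dist p (fl (-T) p) := mem_iInter₂.1 hp.2 _ ⟨h2, h0⟩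
      rw [h3, dist_self] at h4
      exact absurd hρ₂ (not_lt.2 h4)) hh₀
  obtain ⟨ρ₃, hfar₃, hρ₃⟩ := (((eventually_all_finite hfin).2 fun z hz =>
    hB.ev_far (z := z) hz.2).and (Ioo_mem_nhdsGT hρ₂)).exists
  obtain ⟨η, hη, hΓ⟩ := hchain h hB.hpos hh (T + 1) ρ₃ _ _ hρ₃.1 hB.cptK hB.opO hB.KO
    fun p hp hz => hB.hit hA₀ hf hY hT (hcov _ ⟨p, ⟨hp, mem_iInter₂.2 hz⟩, rfl⟩)
  obtain ⟨εs, hεs, hstep⟩ := step V Y K fl h η hK hf hB.hpos hη
  choose δ hδ hpass using fun b => hB.pass hA₀ hf hY b hεs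
  choose ι inst₁ inst₂ H Ω hO using fun b => box (bx b).n h (bx b).w (δ b) (1 / 16) hB.hpos hB.hle
    (hB.wpos b) (hB.wle b) (hδ b) (by norm_num)
  refine ⟨Fintype.card (Σ b, ι b), fun k hk => ?_⟩
  obtain ⟨e'⟩ : Nonempty ((Σ b, ι b) ↪ Fin k) :=
    Function.Embedding.nonempty_of_card_le (by simpa using hk)
  set e : ∀ b, ι b → Fin k := fun b i => e' ⟨b, i⟩ with he
  obtain ⟨G, hG⟩ := ham V d M l Pi φ H₀ _ m bx h (1 / 16) ι H k e hH₀ hfar₀ hA₀ hB (by norm_num)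
    (fun b => (hO b).sm) (fun b => (hO b).supp) (fun b => (hO b).rad) e'.injective
  choose 𝒵 h𝒵f h𝒵g h𝒵r using fun b => good V d M l l₀ Pi φ _ m bx h (1 / 16) ι H k e G b (Ω b)
    hA₀ hA.sl hB hG (fun i j hij => by simpa using e'.injective hij) le_rfl (hO b).cpt (hO b).sub
    (hO b).lyap
  have hsm := smZH hA.sl hA.sP hG.sm
  have hfree : ∀ z ∈ 𝒵₀, ∀ p : V × (Fin k → ℂ), p.1 ∈ M → nsq p.2 < 1 / 2 → dist p.1 z ≤ ρ₃ →
      ZH l Pi G p = (Pi p.1 (l₀ p.1), (1 / 2 : ℝ) • p.2) := fun z hz p h1 h2 h3 =>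
    hG.free p h1 h2 (hfar₃ z hz _ h3)
  refine (lyap _ (Euc d × (Fin k → ℂ)) (hat M (Fin k))
    ((⋃ b, 𝒵 b) ∪ (fun z => (z, 0)) '' 𝒵₀) (ZH l Pi G) (ph φ) hA.sub.hat hsm (contDiff_ph hA.sφ)
    (fun p hp => tg_hat (hA.tan _ hp _)) (cpt_hat hA (by norm_num)) ?_
    ((finite_iUnion h𝒵f).union (hfin.image _)) ?_ ?_).elim
    fun Φ ⟨A, B, hΦ, hApos, hΦe, hΦp⟩ => ⟨G, Φ, A, B, hG.sm, hΦ, hApos, hG.far, hΦe, hΦp⟩
  · intro p hp h2
    have h3 := nsq_nonneg p.2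
    have h4 : 1 ≤ φ p.1 ∨ 1 ≤ nsq p.2 := by
      simp only [ph] at h2
      by_contra h5
      linarith [not_le.1 (not_or.1 h5).1, not_le.1 (not_or.1 h5).2]
    rw [old_prod hA.sφ (ZH_of_zero (hG.far p hp h4))]
    rcases h4 with h4 | h4
    · linarith [hA.shell _ hp (by linarith)]
    · linarith [hnn _ hp]
  · rintro p (hp | ⟨z, hz, rfl⟩)
    · obtain ⟨b, hb⟩ := mem_iUnion.1 hp
      exact h𝒵g b p hb
    · exact ⟨hz.1, _, old_good hρ₃.1 (hu z hz) hz.1 (hfree z hz)⟩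
  intro p₀ _ _ hp₀
  have hsub : ∀ {ε c}, Cyc {p ∈ hat M (Fin k) | ph φ p ≤ 2} (ZH l Pi G) ε c →
      Cyc (hat M (Fin k)) (ZH l Pi G) ε c := fun hc => hc.mono (fun t => (hc.mem t).1) le_rfl
  choose ε₀ hε₀ hdyn using fun b => (hO b).dyn
  have e1 := ev_cyc (cyc_small hA hG.far hG.rad)
  have e2 := eventually_all.2 fun b => ev_cyc (h𝒵r b p₀ fun hb => hp₀ (Or.inl (mem_iUnion.2 ⟨b, hb⟩)))
  have e3 := eventually_all.2 fun b =>
    ev_cyc (seen V d M l l₀ Pi φ _ m bx h (1 / 16) ι H k e G b (ε₀ b) hA₀ hB hG (hε₀ b))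
  have e4 := (eventually_all_finite hfin).2 fun z hz => ev_cyc (old_reg (p₀ := p₀) hA₀
    hsm.continuous (hu z hz).2.1 hρ₂
    (fun x hx hd => (hq z hz x hx (by linarith [hρ₃.2, hρ₃.1])).2) (hfree z hz)
    fun h => hp₀ (Or.inr ⟨z, hz, h.symm⟩))
  obtain ⟨ε, ⟨⟨⟨h1, h2⟩, h3⟩, h4⟩, hε⟩ :=
    ((((e1.and e2).and e3).and e4).and (Ioo_mem_nhdsGT hεs)).exists
  refine ⟨ε, hε.1, fun c hc => ?_⟩
  have hs := h1 c hc
  have hn : ∀ t, nsq (c t).2 < 1 / 2 := fun t => by linarith [(hs t).1]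
  have hb := fun b => hdyn b _ _ (h3 b c (hsub hc) hn)
  by_cases hconf : ∃ b, ∀ t, InBox M (bx b) h (c t).1 ∧
      ((bx b).κ (c t).1, fun i => (c t).2 (e b i)) ∈ Ω b
  · obtain ⟨b, hb'⟩ := hconf
    exact h2 b c (hsub hc) fun t => ⟨(hb' t).1, (hs t).1, (hb' t).2⟩
  have hb' := fun b => (hb b).resolve_left fun h => hconf ⟨b, h⟩
  have hxc : Continuous fun t => (c t).1 := continuous_fst.comp hc.cont
  have hxM : ∀ t, (c t).1 ∈ M := fun t => (hc.mem t).1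
  obtain ⟨τ, hτ, hper⟩ := hc.per
  have hper' : Function.Periodic (fun t => (c t).1) τ := fun t => by simp only [hper t]
  obtain ⟨z, hz, hball⟩ := hΓ (range fun t => (c t).1)
    (by rintro _ ⟨t, rfl⟩; exact ⟨hxM t, (hs t).2⟩)
    (hper'.compact_of_continuous hτ.ne' hxc) (isPreconnected_range hxc) (range_nonempty _)
    (hstep _ {t | ∃ b, InAct M (bx b) h (c t).1} hxc (hB.isClosed_act.preimage hxc)
      (fun t ht => by
        obtain ⟨v, h5, h6⟩ := hc.near t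
        refine ⟨v.1, (ContinuousLinearMap.fst ℝ V (Fin k → ℂ)).hasFDerivAt.comp_hasDerivWithinAt t h5,
          ?_⟩
        rw [hG.free _ (hxM t) (hn t) fun b hb => ht ⟨b, hb⟩] at h6
        rw [hY _ (hxM t) (by linarith [(hs t).2])]
        exact ((norm_fst_le _).trans h6).trans hε.2.le)
      fun t ⟨b, ht⟩ => hpass b _ _ _ (hb' b).1 t ht)
    (hB.nohit hxM fun b => (hb' b).2)
  exact h4 z hz c hc fun t => ⟨(hs t).1, (mem_ball.1 (hball ⟨t, rfl⟩)).le⟩

end Pool.Agent.MP_6d695c_gt.SW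

end MrgPart6

-- marker of a merged file
example : 731051 + 652139 = 731051 + 652139 := rfl

end MrgPart0

-- ======== part 1: formerly Pool.Agent.MP_6d695c_gt.sw.Compl
section MrgPart1

-- ======== part 0: formerly Pool.Agent.MP_6d695c_gt.sw.Calc
section MrgPart0

/-! PROJECT SW, row CALC: the field of the trap. -/

open scoped ContDiff Topology
open Set Metric Filter Real

namespace Pool.Agent.MP_6d695c_gt.SW

namespace Cl

theorem line {X F : Type} [NormedAddCommGroup X] [NormedSpace ℝ X] [NormedAddCommGroup F]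
    [NormedSpace ℝ F] {u : X → F} {p : X} (hu : DifferentiableAt ℝ u p) (v : X) :
    HasDerivAt (fun t : ℝ => u (p + t • v)) (fderiv ℝ u p v) 0 := by
  have h1 : HasDerivAt (fun t : ℝ => p + t • v) v 0 := by
    simpa using ((hasDerivAt_id (0 : ℝ)).smul_const v).const_add p
  exact HasFDerivAt.comp_hasDerivAt_of_eq (0 : ℝ) hu.hasFDerivAt h1 (by simp)

theorem aff (a b : ℝ) : HasDerivAt (fun t : ℝ => a + t * b) b 0 := by
  simpa using ((hasDerivAt_id (0 : ℝ)).mul_const b).const_add a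

theorem expand (u : R3 → ℝ) (x w : R3) :
    fderiv ℝ u x w = dP u x * w.1 + da u x * w.2.1 + db u x * w.2.2 := by
  have : w = w.1 • ((1, 0, 0) : R3) + w.2.1 • ((0, 1, 0) : R3) + w.2.2 • ((0, 0, 1) : R3) := by
    ext <;> simp
  conv_lhs => rw [this]
  simp only [map_add, map_smul, smul_eq_mul, dP, da, db]
  ring

variable {n K : ℕ} {h0 h1 : R3 → ℝ} {A : Fin (n + 1) → Q n → ℝ} {d r : ℝ}

theorem sm_re (f : Fa n K) : ContDiff ℝ ∞ fun p : Q n × (Fa n K → ℂ) => (p.2 f).re :=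
  Complex.reCLM.contDiff.comp (by fun_prop)

theorem sm_im (f : Fa n K) : ContDiff ℝ ∞ fun p : Q n × (Fa n K → ℂ) => (p.2 f).im :=
  Complex.imCLM.contDiff.comp (by fun_prop)

theorem smp (f : Fa n K) : ContDiff ℝ ∞ (pab d r f) := by
  have a := sm_re f
  have b := sm_im f
  have c : ContDiff ℝ ∞ fun p : Q n × (Fa n K → ℂ) => ang d r f p.1 := by
    unfold ang; fun_prop
  have e : ContDiff ℝ ∞ fun p : Q n × (Fa n K → ℂ) => exp (p.1.1 f.1) := by fun_prop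
  exact ((e.div_const _).sub (((a.pow 2).add (b.pow 2)).div_const _)).prodMk
    ((((a.mul c.cos).sub (b.mul c.sin)).div_const _).prodMk
      (((a.mul c.sin).add (b.mul c.cos)).div_const _))

theorem dpab (f : Fa n K) (p v : Q n × (Fa n K → ℂ)) : fderiv ℝ (pab d r f) p v =
    (exp (p.1.1 f.1) / LL d f * v.1.1 f.1 -
        2 * ((p.2 f).re * (v.2 f).re + (p.2 f).im * (v.2 f).im) / r ^ 2,
      ((v.2 f).re * cos (ang d r f p.1) - (v.2 f).im * sin (ang d r f p.1)) / r -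
        2 * LL d f / r ^ 2 * (pab d r f p).2.2 * v.1.2 f.1,
      ((v.2 f).re * sin (ang d r f p.1) + (v.2 f).im * cos (ang d r f p.1)) / r +
        2 * LL d f / r ^ 2 * (pab d r f p).2.1 * v.1.2 f.1) := by
  refine (line ((smp f).differentiable (by simp) p) v).unique ?_
  have a := aff (p.2 f).re (v.2 f).re
  have b := aff (p.2 f).im (v.2 f).im
  have c := (aff (p.1.2 f.1) (v.1.2 f.1)).const_mul (2 * LL d f / r ^ 2)
  have e := (aff (p.1.1 f.1) (v.1.1 f.1)).exp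
  have := HasDerivAt.prodMk
    ((e.div_const (LL d f)).fun_sub (((a.fun_pow 2).fun_add (b.fun_pow 2)).div_const (r ^ 2)))
    (HasDerivAt.prodMk (((a.fun_mul c.cos).fun_sub (b.fun_mul c.sin)).div_const r)
      (((a.fun_mul c.sin).fun_add (b.fun_mul c.cos)).div_const r))
  refine (this.congr_deriv ?_).congr_of_eventuallyEq (Eventually.of_forall fun t => ?_)
  · simp only [pab, ang, Prod.mk.injEq]
    refine ⟨?_, ?_, ?_⟩ <;> simp <;> ring
  · simp [pab, ang]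

theorem smH (s0 : ContDiff ℝ ∞ h0) (s1 : ContDiff ℝ ∞ h1) (sA : ∀ j, ContDiff ℝ ∞ (A j)) :
    ContDiff ℝ ∞ (HT (K := K) h0 h1 A d r) := by
  refine contDiff_const.mul (ContDiff.sum fun f _ => ((sA _).comp contDiff_fst).mul
    ((s0.comp (smp f)).add (ContDiff.mul ?_ (s1.comp (smp f)))))
  unfold sn; fun_prop

theorem dH (s0 : ContDiff ℝ ∞ h0) (s1 : ContDiff ℝ ∞ h1) (sA : ∀ j, ContDiff ℝ ∞ (A j))
    (p v : Q n × (Fa n K → ℂ)) : fderiv ℝ (HT h0 h1 A d r) p v = r ^ 2 * ∑ f : Fa n K,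
      (fderiv ℝ (A f.1) p.1 v.1 * hs h0 h1 (sn d (p.1.2 f.1)) (pab d r f p) +
        A f.1 p.1 * (π / d * cos (π * p.1.2 f.1 / d) * v.1.2 f.1 * h1 (pab d r f p) +
          hP h0 h1 (sn d (p.1.2 f.1)) (pab d r f p) * (fderiv ℝ (pab d r f) p v).1 +
          ha h0 h1 (sn d (p.1.2 f.1)) (pab d r f p) * (fderiv ℝ (pab d r f) p v).2.1 +
          hb h0 h1 (sn d (p.1.2 f.1)) (pab d r f p) * (fderiv ℝ (pab d r f) p v).2.2)) := by
  refine (line ((smH s0 s1 sA).differentiable (by simp) p) v).unique ?_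
  refine HasDerivAt.const_mul _ (HasDerivAt.fun_sum fun f _ => ?_)
  have a := line ((sA f.1).differentiable (by simp) p.1) v.1
  have b := line ((smp (d := d) (r := r) f).differentiable (by simp) p) v
  have c : ∀ u : R3 → ℝ, ContDiff ℝ ∞ u → HasDerivAt (fun t : ℝ => u (pab d r f (p + t • v)))
      (fderiv ℝ u (pab d r f p) (fderiv ℝ (pab d r f) p v)) 0 := fun u hu =>
    HasFDerivAt.comp_hasDerivAt_of_eq (0 : ℝ) (hu.differentiable (by simp) _).hasFDerivAt b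
      (by simp)
  have e := (((aff (p.1.2 f.1) (v.1.2 f.1)).const_mul π).div_const d).sin
  refine ((a.fun_mul ((c h0 s0).fun_add (e.fun_mul (c h1 s1)))).congr_deriv ?_).congr_of_eventuallyEq
    (Eventually.of_forall fun t => rfl)
  rw [expand h0, expand h1]
  simp only [hs, hP, ha, hb, sn, zero_smul, add_zero, zero_mul]
  ring

theorem sum_dir (j : Fin (n + 1)) (u : Fa n K → ℝ) :
    ∑ f : Fa n K, u f * (Pi.single j 1 : Fin (n + 1) → ℝ) f.1 = ∑ k, u (j, k) := by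
  rw [Fintype.sum_prod_type, Finset.sum_eq_single j]
  · simp
  · intro i _ hi
    simp [hi]
  · simp

theorem LL_pos (f : Fa n K) : 0 < LL d f := exp_pos _

end Cl

open Cl in
theorem calcT : CalcStmt := by
  intro n K h0 h1 A d r s0 s1 sA hd hr0
  have hr' := hr0.ne'
  have cs := fun (f : Fa n K) (p : Q n × (Fa n K → ℂ)) => cos_sq_add_sin_sq (ang d r f p.1)
  have fdot : ∀ (p : Q n × (Fa n K → ℂ)) j, (XM (HT h0 h1 A d r) p).1.1 j = 1 + exp (-p.1.1 j) *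
      (r ^ 2 * (Ecut h0 h1 A d r j p + Esin h1 A d r j p) +
        ∑ k, 2 * LL d (j, k) * A j p.1 * hr h0 h1 (sn d (p.1.2 j)) (pab d r (j, k) p)) := by
    intro p j
    have : fderiv ℝ (HT h0 h1 A d r) p ((0, Pi.single j 1), 0) =
        r ^ 2 * (Ecut h0 h1 A d r j p + Esin h1 A d r j p) +
        ∑ k, 2 * LL d (j, k) * A j p.1 * hr h0 h1 (sn d (p.1.2 j)) (pab d r (j, k) p) := by
      rw [dH s0 s1 sA, Finset.sum_add_distrib, Ecut, Esin, mul_add, mul_add, add_assoc]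
      congr 1
      rw [Finset.mul_sum, Finset.mul_sum, Finset.mul_sum, ← Finset.sum_add_distrib]
      refine (Finset.sum_congr rfl fun f _ => ?_).trans (sum_dir j fun f =>
        r ^ 2 * (A f.1 p.1 * (π / d * cos (π * p.1.2 f.1 / d)) * h1 (pab d r f p)) +
          2 * LL d f * A f.1 p.1 * hr h0 h1 (sn d (p.1.2 f.1)) (pab d r f p))
      simp only [dpab, hr, Pi.zero_apply, Complex.zero_re, Complex.zero_im]
      field_simp
      ring
    rw [← this]
    rfl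
  have gdot : ∀ (p : Q n × (Fa n K → ℂ)) j, (XM (HT h0 h1 A d r) p).1.2 j = -(r ^ 2 *
      (exp (-p.1.1 j) * Fcut h0 h1 A d r j p +
        A j p.1 * ∑ k, hP h0 h1 (sn d (p.1.2 j)) (pab d r (j, k) p) / LL d (j, k))) := by
    intro p j
    have : fderiv ℝ (HT h0 h1 A d r) p ((Pi.single j 1, 0), 0) =
        r ^ 2 * (Fcut h0 h1 A d r j p + exp (p.1.1 j) *
          (A j p.1 * ∑ k, hP h0 h1 (sn d (p.1.2 j)) (pab d r (j, k) p) / LL d (j, k))) := by
      rw [dH s0 s1 sA, Finset.sum_add_distrib, Fcut, Finset.mul_sum, Finset.mul_sum]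
      congr 2
      refine (Finset.sum_congr rfl fun f _ => ?_).trans (sum_dir j fun f =>
        exp (p.1.1 f.1) * (A f.1 p.1 * (hP h0 h1 (sn d (p.1.2 f.1)) (pab d r f p) / LL d f)))
      simp only [dpab, Pi.zero_apply, Complex.zero_re, Complex.zero_im]
      ring
    have e : (XM (HT h0 h1 A d r) p).1.2 j =
        0 + -(exp (-p.1.1 j) * fderiv ℝ (HT h0 h1 A d r) p ((Pi.single j 1, 0), 0)) := rfl
    rw [e, this, exp_neg]
    field_simp
    ring
  have zd : ∀ (p : Q n × (Fa n K → ℂ)) f (c : ℂ),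
      fderiv ℝ (HT h0 h1 A d r) p (0, Pi.single f c) = r ^ 2 * (A f.1 p.1 *
        (hP h0 h1 (sn d (p.1.2 f.1)) (pab d r f p) *
            -(2 * ((p.2 f).re * c.re + (p.2 f).im * c.im) / r ^ 2) +
          ha h0 h1 (sn d (p.1.2 f.1)) (pab d r f p) *
            ((c.re * cos (ang d r f p.1) - c.im * sin (ang d r f p.1)) / r) +
          hb h0 h1 (sn d (p.1.2 f.1)) (pab d r f p) *
            ((c.re * sin (ang d r f p.1) + c.im * cos (ang d r f p.1)) / r))) := by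
    intro p f c
    rw [dH s0 s1 sA, Finset.sum_eq_single f]
    · simp [dpab]
    · intro g _ hg
      simp [dpab, hg]
    · simp
  have xy : ∀ (f : Fa n K) (p : Q n × (Fa n K → ℂ)),
      (p.2 f).re = r * ((pab d r f p).2.1 * cos (ang d r f p.1) +
        (pab d r f p).2.2 * sin (ang d r f p.1)) ∧
      (p.2 f).im = r * ((pab d r f p).2.2 * cos (ang d r f p.1) -
        (pab d r f p).2.1 * sin (ang d r f p.1)) := fun f p => by
    simp only [pab]
    constructor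
    · field_simp
      linear_combination (-(p.2 f).re) * cs f p
    · field_simp
      linear_combination (-(p.2 f).im) * cs f p
  have absp : ∀ (f : Fa n K) p, r ^ 2 * ((pab d r f p).2.1 ^ 2 + (pab d r f p).2.2 ^ 2) =
      (p.2 f).re ^ 2 + (p.2 f).im ^ 2 := fun f p => by
    simp only [pab]
    field_simp
    linear_combination ((p.2 f).re ^ 2 + (p.2 f).im ^ 2) * cs f p
  have zdot : ∀ (p : Q n × (Fa n K → ℂ)) f,
      let x := pab d r f p
      let s := sn d (p.1.2 f.1)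
      let u := A f.1 p.1 * (hb h0 h1 s x - 2 * x.2.2 * hP h0 h1 s x)
      let v := -(A f.1 p.1 * (ha h0 h1 s x - 2 * x.2.1 * hP h0 h1 s x))
      (shC (d2 (HT h0 h1 A d r) p) f).re =
          r * (u * cos (ang d r f p.1) + v * sin (ang d r f p.1)) ∧
        (shC (d2 (HT h0 h1 A d r) p) f).im =
          r * (v * cos (ang d r f p.1) - u * sin (ang d r f p.1)) := by
    intro p f x s u v
    constructor
    · refine (zd p f Complex.I).trans ?_
      rw [(xy f p).2]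
      simp only [u, v, x, s, Complex.I_re, Complex.I_im]
      field_simp
      ring
    · refine (congrArg Neg.neg (zd p f 1)).trans ?_
      rw [(xy f p).1]
      simp only [u, v, x, s, Complex.one_re, Complex.one_im]
      field_simp
      ring
  have rdot : ∀ (p : Q n × (Fa n K → ℂ)) f,
      (p.2 f).re * (shC (d2 (HT h0 h1 A d r) p) f).re +
        (p.2 f).im * (shC (d2 (HT h0 h1 A d r) p) f).im =
        r ^ 2 * (A f.1 p.1 * hr h0 h1 (sn d (p.1.2 f.1)) (pab d r f p)) := fun p f => by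
    rw [(zdot p f).1, (zdot p f).2, (xy f p).1, (xy f p).2, hr]
    linear_combination (r ^ 2 * (A f.1 p.1 * ((pab d r f p).2.1 *
      hb h0 h1 (sn d (p.1.2 f.1)) (pab d r f p) - (pab d r f p).2.2 *
      ha h0 h1 (sn d (p.1.2 f.1)) (pab d r f p)))) * cs f p
  have xre : ∀ (p : Q n × (Fa n K → ℂ)) f, ((XM (HT h0 h1 A d r) p).2 f).re =
      (p.2 f).re / 2 + (shC (d2 (HT h0 h1 A d r) p) f).re := fun p f => by
    simp [XM]; ring
  have xim : ∀ (p : Q n × (Fa n K → ℂ)) f, ((XM (HT h0 h1 A d r) p).2 f).im =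
      (p.2 f).im / 2 + (shC (d2 (HT h0 h1 A d r) p) f).im := fun p f => by
    simp [XM]; ring
  have rot : ∀ (p : Q n × (Fa n K → ℂ)) f,
      let x := pab d r f p
      let s := sn d (p.1.2 f.1)
      (((XM (HT h0 h1 A d r) p).2 f).re * cos (ang d r f p.1) -
          ((XM (HT h0 h1 A d r) p).2 f).im * sin (ang d r f p.1)) / r =
        x.2.1 / 2 + A f.1 p.1 * (hb h0 h1 s x - 2 * x.2.2 * hP h0 h1 s x) ∧
      (((XM (HT h0 h1 A d r) p).2 f).re * sin (ang d r f p.1) +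
          ((XM (HT h0 h1 A d r) p).2 f).im * cos (ang d r f p.1)) / r =
        x.2.2 / 2 - A f.1 p.1 * (ha h0 h1 s x - 2 * x.2.1 * hP h0 h1 s x) := by
    intro p f x s
    rw [xre, xim, (zdot p f).1, (zdot p f).2, (xy f p).1, (xy f p).2, div_eq_iff hr',
      div_eq_iff hr']
    constructor
    · linear_combination
        (r * (x.2.1 / 2 + A f.1 p.1 * (hb h0 h1 s x - 2 * x.2.2 * hP h0 h1 s x))) * cs f p
    · linear_combination
        (r * (x.2.2 / 2 - A f.1 p.1 * (ha h0 h1 s x - 2 * x.2.1 * hP h0 h1 s x))) * cs f p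
  refine ⟨smH s0 s1 sA, smp, fun f p => ?_, absp, fdot, gdot, zdot, rdot, fun p f => ?_,
    fun p f hF hk => ?_⟩
  · have := absp f p
    rw [exp_sub]
    simp only [rad]
    rw [add_assoc, eq_div_iff (pow_ne_zero 2 hr') |>.2 ((mul_comm _ _).trans this)]
    simp [pab, LL]
  · simp only [dpab, (rot p f).1, (rot p f).2, hr]
    ring
  · have e1 : ∑ k, 2 * LL d (f.1, k) * A f.1 p.1 *
        hr h0 h1 (sn d (p.1.2 f.1)) (pab d r (f.1, k) p) =
        2 * LL d f * A f.1 p.1 * hr h0 h1 (sn d (p.1.2 f.1)) (pab d r f p) :=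
      Finset.sum_eq_single f.2 (fun k _ h => by rw [(hk k h).2, mul_zero]) (by simp)
    have e2 : ∑ k, hP h0 h1 (sn d (p.1.2 f.1)) (pab d r (f.1, k) p) / LL d (f.1, k) =
        hP h0 h1 (sn d (p.1.2 f.1)) (pab d r f p) / LL d f :=
      Finset.sum_eq_single f.2 (fun k _ h => by rw [(hk k h).1, zero_div]) (by simp)
    have hL := (LL_pos (d := d) f).ne'
    rw [dpab, (rot p f).1, (rot p f).2, fdot, gdot, e1, e2, hF, xre, xim, XL]
    refine Prod.ext ?_ (Prod.ext ?_ ?_)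
    · have e3 : (p.2 f).re * ((p.2 f).re / 2 + (shC (d2 (HT h0 h1 A d r) p) f).re) +
          (p.2 f).im * ((p.2 f).im / 2 + (shC (d2 (HT h0 h1 A d r) p) f).im) =
          ((p.2 f).re ^ 2 + (p.2 f).im ^ 2) / 2 +
          r ^ 2 * (A f.1 p.1 * hr h0 h1 (sn d (p.1.2 f.1)) (pab d r f p)) := by
        rw [← rdot]; ring
      have e4 : (pab d r f p).1 =
        exp (p.1.1 f.1) / LL d f - ((p.2 f).re ^ 2 + (p.2 f).im ^ 2) / r ^ 2 := rfl
      simp only [e3, e4, exp_neg]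
      field_simp
      ring
    · simp only
      field_simp
      ring
    · simp only
      field_simp
      ring

end Pool.Agent.MP_6d695c_gt.SW

end MrgPart0

-- ======== part 1: formerly Pool.Agent.MP_6d695c_gt.sw.Compl
section MrgPart1

/-! PROJECT SW, row COMPL: a field that agrees with a complete field far out is complete. -/

open scoped Manifold ContDiff Topology
open Set Metric Filter Real

namespace Pool.Agent.MP_6d695c_gt.SW

namespace Cpl

variable {E : Type} [NormedAddCommGroup E] [NormedSpace ℝ E] {H : Type} [TopologicalSpace H]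
  {I : ModelWithCorners ℝ E H} {M : Type} [TopologicalSpace M] [ChartedSpace H M]

/-- the curve `γ` has velocity `v` at time `t` on `s` -/
def Vel (I : ModelWithCorners ℝ E H) (γ : ℝ → M) (s : Set ℝ) (t : ℝ) (v : E) : Prop :=
  HasMFDerivWithinAt 𝓘(ℝ, ℝ) I γ s t ((1 : ℝ →L[ℝ] ℝ).smulRight v : ℝ →L[ℝ] E)

/-- the curve `γ` follows `Z` at time `t` -/
def Fol (Z : VField I M) (γ : ℝ → M) (t : ℝ) : Prop := Vel I γ univ t (Z (γ t))

theorem fol_iff {Z : VField I M} {γ : ℝ → M} : IsMIntegralCurve γ Z ↔ ∀ t, Fol Z γ t :=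
  forall_congr' fun _ => hasMFDerivWithinAt_univ.symm

theorem Fol.congr {Z : VField I M} {γ γ' : ℝ → M} {s : Set ℝ} {t : ℝ} (h : Fol Z γ t)
    (ht : t ∈ s) (he : ∀ u ∈ s, γ' u = γ u) : Vel I γ' s t (Z (γ' t)) := by
  have e : @Eq E (Z (γ' t)) (Z (γ t)) := by rw [he t ht]
  have h1 : Vel I γ' s t (Z (γ t)) :=
    (HasMFDerivWithinAt.mono h (subset_univ s)).congr_of_eventuallyEq
      (eventually_nhdsWithin_of_forall he) (he t ht)
  exact (congrArg (Vel I γ' s t) e).mpr h1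

theorem glue {Z : VField I M} {γ₁ γ₂ : ℝ → M} {s : ℝ} (h : γ₁ s = γ₂ s)
    (h1 : ∀ t ≤ s, Fol Z γ₁ t) (h2 : ∀ t, s ≤ t → Fol Z γ₂ t) :
    ∃ γ : ℝ → M, (∀ t ≤ s, γ t = γ₁ t) ∧ (∀ t, s ≤ t → γ t = γ₂ t) ∧ IsMIntegralCurve γ Z := by
  have e1 : ∀ t ∈ Iic s, (if t ≤ s then γ₁ t else γ₂ t) = γ₁ t := fun t ht => if_pos ht
  have e2 : ∀ t ∈ Ici s, (if t ≤ s then γ₁ t else γ₂ t) = γ₂ t := fun t ht => by
    split_ifs with h'
    · rw [le_antisymm h' ht, h]
    · rfl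
  refine ⟨fun t => if t ≤ s then γ₁ t else γ₂ t, e1, e2, fun t => ?_⟩
  rcases lt_trichotomy t s with ht | rfl | ht
  · exact HasMFDerivWithinAt.hasMFDerivAt ((h1 t ht.le).congr ht.le e1) (Iic_mem_nhds ht)
  · have := HasMFDerivWithinAt.union ((h1 t le_rfl).congr (s := Iic t) self_mem_Iic e1)
      ((h2 t le_rfl).congr (s := Ici t) self_mem_Ici e2)
    rw [Iic_union_Ici] at this
    exact hasMFDerivWithinAt_univ.1 this
  · exact HasMFDerivWithinAt.hasMFDerivAt ((h2 t ht.le).congr ht.le e2) (Ici_mem_nhds ht)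

/-- chain rule along a curve -/
theorem Vel.comp {X : Type} [NormedAddCommGroup X] [NormedSpace ℝ X] {γ : ℝ → M} {t : ℝ} {v : E}
    (h : Vel I γ univ t v) {e : M → X} (he : MDifferentiableAt I 𝓘(ℝ, X) e (γ t)) :
    HasDerivAt (fun u => e (γ u)) (mfderiv I 𝓘(ℝ, X) e (γ t) v) t := by
  have h1 : HasFDerivAt (fun u => e (γ u)) ((show E →L[ℝ] X from mfderiv I 𝓘(ℝ, X) e (γ t)).comp
      ((1 : ℝ →L[ℝ] ℝ).smulRight v)) t :=
    (he.hasMFDerivAt.comp t (hasMFDerivWithinAt_univ.1 h)).hasFDerivAt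
  refine h1.hasDerivAt.congr_deriv ?_
  change mfderiv I 𝓘(ℝ, X) e (γ t) ((1 : ℝ) • v) = _
  rw [one_smul]

theorem exists_vel {γ : ℝ → M} {t : ℝ} (h : MDifferentiableAt 𝓘(ℝ, ℝ) I γ t) :
    ∃ v : E, Vel I γ univ t v := by
  refine ⟨mfderiv 𝓘(ℝ, ℝ) I γ t (1 : ℝ),
    hasMFDerivWithinAt_univ.2 (h.hasMFDerivAt.congr_mfderiv ?_)⟩
  refine ContinuousLinearMap.ext_ring (M₁ := E) ?_
  exact (one_smul ℝ (show E from mfderiv 𝓘(ℝ, ℝ) I γ t (1 : ℝ))).symm

/-- the abstract gluing argument -/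
theorem compl_abs {Z : VField I M} {ψ : M → ℝ} (hψ : ContMDiff I 𝓘(ℝ, ℝ) ∞ ψ)
    (hp : ∀ x, 2 ≤ ψ x → 0 < der I ψ x (Z x))
    (hA : ∀ x s, ψ x ≤ 3 → ∃ γ : ℝ → M, γ s = x ∧ Continuous γ ∧ ∀ t, ψ (γ t) ≤ 4 → Fol Z γ t)
    (hB : ∀ x s, ∃ γ : ℝ → M, γ s = x ∧ Continuous γ ∧ ∀ t, 2 ≤ ψ (γ t) → Fol Z γ t) (x : M) :
    ∃ γ : ℝ → M, γ 0 = x ∧ IsMIntegralCurve γ Z := by
  have rd : ∀ (γ : ℝ → M) t, 2 ≤ ψ (γ t) → Fol Z γ t → RD (fun u => ψ (γ u)) t fun a => 0 < a :=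
    fun γ t h1 h2 => ⟨_, (Vel.comp h2 (hψ.mdifferentiableAt (by simp))).hasDerivWithinAt, hp _ h1⟩
  have kA : ∀ γ : ℝ → M, Continuous γ → (∀ t, ψ (γ t) ≤ 4 → Fol Z γ t) → ∀ s, ψ (γ s) ≤ 3 →
      ∀ t ≤ s, Fol Z γ t := fun γ hc hγ s hs t ht =>
    hγ t (fence_back (f := fun u => ψ (γ u)) (a := t) (b := s) (v := 4)
      (hψ.continuous.comp hc).continuousOn
      (fun u _ hu => rd γ u (by linarith) (hγ u hu.le)) (by linarith) t ⟨le_rfl, ht⟩).le
  have kB : ∀ γ : ℝ → M, Continuous γ → (∀ t, 2 ≤ ψ (γ t) → Fol Z γ t) → ∀ s, 3 ≤ ψ (γ s) →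
      ∀ t, s ≤ t → Fol Z γ t := fun γ hc hγ s hs t ht =>
    hγ t (fence_up (f := fun u => ψ (γ u)) (a := s) (b := t) (v := 2)
      (hψ.continuous.comp hc).continuousOn
      (fun u _ hu => rd γ u hu.ge (hγ u hu.ge)) (by linarith) t ⟨ht, le_rfl⟩)
  rcases le_total (ψ x) 3 with hx | hx
  · obtain ⟨γ₁, h0, hc, hγ⟩ := hA x 0 hx
    by_cases h : ∀ t, 0 ≤ t → ψ (γ₁ t) ≤ 3
    · exact ⟨γ₁, h0, fol_iff.2 fun t =>
        kA γ₁ hc hγ (max t 0) (h _ (le_max_right _ _)) t (le_max_left _ _)⟩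
    · push Not at h
      obtain ⟨t, ht, h⟩ := h
      obtain ⟨s, hs, e⟩ := intermediate_value_Icc ht (hψ.continuous.comp hc).continuousOn
        (show (3 : ℝ) ∈ _ from ⟨by simpa [h0] using hx, h.le⟩)
      obtain ⟨γ₂, g0, gc, gγ⟩ := hB (γ₁ s) s
      obtain ⟨γ, k1, -, k3⟩ := glue g0.symm (kA γ₁ hc hγ s (le_of_eq e))
        (kB γ₂ gc gγ s (by rw [g0]; exact ge_of_eq e))
      rcases hs.1.eq_or_lt with rfl | _
      · exact ⟨γ, (k1 0 le_rfl).trans h0, k3⟩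
      · exact ⟨γ, (k1 0 hs.1).trans h0, k3⟩
  · obtain ⟨γ₂, h0, hc, hγ⟩ := hB x 0
    by_cases h : ∀ t ≤ 0, 3 ≤ ψ (γ₂ t)
    · exact ⟨γ₂, h0, fol_iff.2 fun t =>
        kB γ₂ hc hγ (min t 0) (h _ (min_le_right _ _)) t (min_le_left _ _)⟩
    · push Not at h
      obtain ⟨t, ht, h⟩ := h
      obtain ⟨s, hs, e⟩ := intermediate_value_Icc ht (hψ.continuous.comp hc).continuousOn
        (show (3 : ℝ) ∈ _ from ⟨h.le, by simpa [h0] using hx⟩)
      obtain ⟨γ₁, g0, gc, gγ⟩ := hA (γ₂ s) s (le_of_eq e)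
      obtain ⟨γ, -, k2, k3⟩ := glue g0 (kA γ₁ gc gγ s (by rw [g0]; exact le_of_eq e))
        (kB γ₂ hc hγ s (ge_of_eq e))
      exact ⟨γ, (k2 0 hs.2).trans h0, k3⟩

end Cpl

open Cpl in
theorem compl (aflow : AFlowStmt) : ComplStmt := by
  intro E _ _ _ H _ I _ M _ _ _ X E' _ _ _ _ _ _ Z₀ Z₁ ψ U e Y ψ' hZ hψ h2 hU he hS hY hψ' hψe hc hx
  have hK : IsCompact {y ∈ e '' U | ψ' y ≤ 4 + 1} := by
    refine (congrArg IsCompact ?_).mp (hc.image he.continuous)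
    ext y
    constructor
    · rintro ⟨x, h, rfl⟩
      exact ⟨⟨x, hU x h, rfl⟩, by rw [hψe x (hU x h)]; linarith [show ψ x ≤ 5 from h]⟩
    · rintro ⟨⟨x, h, rfl⟩, h'⟩
      exact ⟨x, show ψ x ≤ 5 by rw [hψe x h] at h'; linarith, rfl⟩
  obtain ⟨Y', K, fl, -, -, hYY, hf, hinv⟩ := aflow X E' (e '' U) Y ψ' 4 hS hY hψ'
    (by rintro _ ⟨x, h, rfl⟩; exact (hx x h).1) hK
  refine compl_abs hψ (fun x h => by rw [(h2 x h).1]; exact (h2 x h).2) (fun x s h => ?_)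
    fun x s => ?_
  · have hxU := hU x (by linarith)
    have hm : ∀ t, fl (t - s) (e x) ∈ e '' U := fun t =>
      (hinv _ _ ⟨x, hxU, rfl⟩ (by rw [hψe x hxU]; linarith)).1
    choose γ γU γe using hm
    have hd : ∀ t, HasDerivAt (fun t => fl (t - s) (e x)) (Y' (fl (t - s) (e x))) t := fun t =>
      (hf.der (e x) (t - s)).comp_sub_const t s
    have hm : ∀ t, MDifferentiableAt 𝓘(ℝ, ℝ) I γ t := fun t => by
      obtain ⟨-, -, -, ρ, hρ, hev⟩ := hx _ (γU t)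
      rw [γe] at hρ hev
      have h1 : MDifferentiableAt 𝓘(ℝ, ℝ) I (ρ ∘ fun t => fl (t - s) (e x)) t :=
        (hρ.mdifferentiableAt (by simp)).comp t (hd t).differentiableAt.mdifferentiableAt
      refine h1.congr_of_eventuallyEq ?_
      filter_upwards [(hd t).continuousAt.eventually hev] with u hu
      exact (hu _ (γU u) (γe u)).symm
    refine ⟨γ, ?_, continuous_iff_continuousAt.2 fun t => (hm t).continuousAt, fun t ht => ?_⟩
    · obtain ⟨-, -, -, ρ, -, hev⟩ := hx x hxU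
      have h1 := hev.self_of_nhds
      exact (h1 _ (γU s) (by rw [γe, sub_self, hf.zero])).symm.trans (h1 x hxU rfl)
    · obtain ⟨v, hv⟩ := exists_vel (hm t)
      obtain ⟨-, k1, k2, -⟩ := hx _ (γU t)
      have h1 := hv.comp (he.mdifferentiableAt (by simp))
      have h3 : (fun u => e (γ u)) = fun t => fl (t - s) (e x) := funext γe
      rw [h3] at h1
      have h4 := h1.unique (hd t)
      rw [← γe, hYY _ ⟨_, γU t, rfl⟩ (by rw [hψe _ (γU t)]; exact ht), ← k1] at h4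
      have h5 : v = Z₁ (γ t) := k2 h4
      exact (congrArg (Vel I γ univ t) h5).mp hv
  · obtain ⟨γ, h0, hγ⟩ := hZ x
    have h1 := hγ.comp_add (-s)
    refine ⟨γ ∘ (· + -s), by simp [h0], h1.continuous, fun t ht => ?_⟩
    have h3 := fol_iff.1 h1 t
    unfold Fol at h3 ⊢
    rwa [(h2 _ ht).1]

end Pool.Agent.MP_6d695c_gt.SW

end MrgPart1

-- marker of a merged file
example : 731051 + 150193 = 731051 + 150193 := rfl

end MrgPart1

-- marker of a merged file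
example : 731051 + 150193 = 731051 + 150193 := rfl
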