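import Pool.Agent.MP_6d695c_gt.sw.Base

/-! PROJECT SW, row DARB: symplectic linear algebra and the model form. -/

open scoped ContDiff Topology
open Set Metric Filter Real

namespace Pool.Agent.MP_6d695c_gt.SW

namespace Darb

/-- the standard symplectic form -/
def om0 {n : ℕ} (u v : Q n) : ℝ := ∑ j, (u.1 j * v.2 j - v.1 j * u.2 j)

/-- forgetting the first pair of coordinates -/
def tl (n : ℕ) : Q (n + 1) →ₗ[ℝ] Q n where
  toFun u := (fun j => u.1 j.succ, fun j => u.2 j.succ)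
  map_add' _ _ := rfl
  map_smul' _ _ := rfl

/-- the first coordinate -/
def hd (n : ℕ) : Q n →ₗ[ℝ] ℝ := (LinearMap.proj 0).comp (LinearMap.fst ℝ _ _)

/-- the sum of the second coordinates -/
def sg (n : ℕ) : Q n →ₗ[ℝ] ℝ where
  toFun u := ∑ j, u.2 j
  map_add' _ _ := by simp [Finset.sum_add_distrib]
  map_smul' _ _ := by simp [Finset.mul_sum]

theorem lin_aux (m : ℕ) : ∀ (E : Type) [AddCommGroup E] [Module ℝ E] [FiniteDimensional ℝ E]
    (Ω : E →ₗ[ℝ] E →ₗ[ℝ] ℝ), Module.finrank ℝ E ≤ m → (∀ u v, Ω u v = -Ω v u) →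
    (∀ u, (∀ v, Ω u v = 0) → u = 0) → ∀ Z : E, Z ≠ 0 →
    ∃ (n : ℕ) (A : Q n →ₗ[ℝ] E), Function.Surjective A ∧ A (one n) = Z ∧
      ∀ u v, Ω (A u) (A v) = om0 u v := by
  induction m with
  | zero =>
    intro E _ _ _ Ω hm _ _ Z hZ
    have := Module.finrank_zero_iff.1 (Nat.le_zero.1 hm)
    exact absurd (Subsingleton.elim _ _) hZ
  | succ m ih =>
    intro E _ _ _ Ω hm ha hn Z hZ
    have hs : ∀ u, Ω u u = 0 := fun u => by linarith [ha u u]
    obtain ⟨R, hR⟩ : ∃ R, Ω Z R = 1 := by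
      obtain ⟨v, hv⟩ : ∃ v, Ω Z v ≠ 0 := by
        by_contra h
        push Not at h
        exact hZ (hn Z h)
      exact ⟨(Ω Z v)⁻¹ • v, by simp [hv]⟩
    have hR' : Ω R Z = -1 := by rw [ha, hR]
    let E' : Submodule ℝ E := LinearMap.ker (Ω Z) ⊓ LinearMap.ker (Ω R)
    have hE : ∀ x : E', Ω Z x = 0 ∧ Ω R x = 0 ∧ Ω x Z = 0 ∧ Ω x R = 0 := fun x =>
      ⟨x.2.1, x.2.2, by rw [ha, show Ω Z x = 0 from x.2.1, neg_zero],
        by rw [ha, show Ω R x = 0 from x.2.2, neg_zero]⟩
    have hp : ∀ v, v + Ω R v • Z - Ω Z v • R ∈ E' := fun v =>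
      ⟨by simp [hs, hR], by simp [hs, hR']⟩
    by_cases h0 : ∀ x : E', x = 0
    · refine ⟨0, (hd 0).smulRight Z + (sg 0).smulRight R, fun v => ?_, ?_, fun u v => ?_⟩
      · refine ⟨(fun _ => -Ω R v, fun _ => Ω Z v), ?_⟩
        have : v + Ω R v • Z - Ω Z v • R = 0 := congrArg Subtype.val (h0 ⟨_, hp v⟩)
        simp only [hd, sg, LinearMap.add_apply, LinearMap.smulRight_apply, LinearMap.comp_apply,
          LinearMap.fst_apply, LinearMap.proj_apply, LinearMap.coe_mk, AddHom.coe_mk,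
          Fin.sum_univ_succ, Fin.sum_univ_zero]
        linear_combination (norm := module) -this
      · simp [hd, sg, one]
      · simp [hd, sg, om0, hs, hR, hR']
        ring
    · push Not at h0
      obtain ⟨Z', hZ'⟩ := h0
      have hlt : Module.finrank ℝ E' < Module.finrank ℝ E := by
        refine Submodule.finrank_lt fun e => ?_
        have : R ∈ E' := e ▸ Submodule.mem_top
        have h1 : Ω Z R = 0 := this.1
        rw [hR] at h1
        exact one_ne_zero h1
      obtain ⟨n, A, h1, h2, h3⟩ := ih E' (Ω.compl₁₂ E'.subtype E'.subtype) (by omega)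
        (fun u v => ha u v) (fun u hu => Subtype.ext (hn u fun v => by
          have : Ω u (v + Ω R v • Z - Ω Z v • R) = 0 := hu ⟨_, hp v⟩
          simpa [(hE u).2.2.1, (hE u).2.2.2] using this)) Z' hZ'
      have h3' : ∀ u v, Ω (A u) (A v) = om0 u v := h3
      have h4 : ∀ u, Ω Z' (A u) = ∑ j, u.2 j := fun u => by
        rw [← h2, h3']
        simp [om0, one]
      have h5 : ∀ u, Ω (A u) Z' = -∑ j, u.2 j := fun u => by rw [ha, h4]
      refine ⟨n + 1, (hd _).smulRight (Z - Z') + (sg _).smulRight R +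
        E'.subtype.comp (A.comp (tl n)), fun v => ?_, ?_, fun u v => ?_⟩
      · obtain ⟨w, hw⟩ := h1 (⟨_, hp v⟩ - Ω R v • Z')
        refine ⟨(Fin.cons (-Ω R v) w.1, Fin.cons (Ω Z v - ∑ j, w.2 j) w.2), ?_⟩
        have e1 : tl n (Fin.cons (-Ω R v) w.1, Fin.cons (Ω Z v - ∑ j, w.2 j) w.2) = w := rfl
        simp only [LinearMap.add_apply, LinearMap.smulRight_apply, LinearMap.comp_apply, e1, hw]
        simp only [hd, sg, LinearMap.comp_apply, LinearMap.fst_apply, LinearMap.proj_apply,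
          LinearMap.coe_mk, AddHom.coe_mk, Fin.sum_univ_succ (n := n + 1), Fin.cons_zero,
          Fin.cons_succ, Submodule.subtype_apply, Submodule.coe_sub, Submodule.coe_smul]
        module
      · have e1 : tl n (one (n + 1)) = one n := rfl
        simp only [LinearMap.add_apply, LinearMap.smulRight_apply, LinearMap.comp_apply, e1, h2]
        simp [hd, sg, one]
      · simp only [LinearMap.add_apply, LinearMap.smulRight_apply, LinearMap.comp_apply,
          Submodule.subtype_apply, map_add, map_smul, map_sub, LinearMap.sub_apply,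
          LinearMap.smul_apply, smul_eq_mul, hs, hR, hR', h3', h4, h5, (hE _).1, (hE _).2.1,
          (hE _).2.2.1, (hE _).2.2.2]
        simp only [hd, sg, tl, om0, LinearMap.comp_apply, LinearMap.fst_apply,
          LinearMap.proj_apply, LinearMap.coe_mk, AddHom.coe_mk, Fin.sum_univ_succ (n := n + 1)]
        ring

variable {n : ℕ}

/-- the model form -/
noncomputable def l0 (q : Q n) : Q n →L[ℝ] ℝ :=
  ∑ j, exp (q.1 j) • (ContinuousLinearMap.proj j).comp (ContinuousLinearMap.snd ℝ _ _)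

theorem l0_apply (q v : Q n) : l0 q v = ∑ j, exp (q.1 j) * v.2 j := by
  simp [l0]

theorem contDiff_l0 : ContDiff ℝ ∞ (l0 : Q n → _) :=
  ContDiff.sum fun j _ => ContDiff.smul (f := fun q : Q n => exp (q.1 j)) (by fun_prop) contDiff_const

theorem fderiv_l0 (q u v : Q n) : fderiv ℝ l0 q u v = ∑ j, exp (q.1 j) * (u.1 j * v.2 j) := by
  have h : ∀ j, HasFDerivAt (fun q : Q n => q.1 j)
      ((ContinuousLinearMap.proj j).comp (ContinuousLinearMap.fst ℝ _ _)) q := fun j =>
    ((ContinuousLinearMap.proj j).comp (ContinuousLinearMap.fst ℝ _ _) :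
      Q n →L[ℝ] ℝ).hasFDerivAt
  have h1 : fderiv ℝ l0 q = _ := (HasFDerivAt.fun_sum (u := Finset.univ) fun j _ =>
    (h j).exp.smul_const ((ContinuousLinearMap.proj j).comp
      (ContinuousLinearMap.snd ℝ _ _) : Q n →L[ℝ] ℝ)).fderiv
  rw [h1]
  simp [mul_assoc]

theorem dd_l0 (q u v : Q n) :
    dd l0 q u v = ∑ j, exp (q.1 j) * (u.1 j * v.2 j - v.1 j * u.2 j) := by
  simp [dd, fderiv_l0, mul_sub, Finset.sum_sub_distrib]

theorem dd_l0_zero (u v : Q n) : dd l0 0 u v = om0 u v := by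
  simp [dd_l0, om0]

theorem l0_one (q : Q n) : l0 q (one n) = 0 := by
  simp [l0_apply, one]

theorem dd_l0_one (q v : Q n) : dd l0 q (one n) v = l0 q v := by
  simp [dd_l0, l0_apply, one]

theorem dd_l0_sh (q : Q n) (α : Q n →L[ℝ] ℝ) (v : Q n) : dd l0 q (sh q α) v = α v := by
  have h : v = ∑ j, (v.2 j • ((0, Pi.single j 1) : Q n) + v.1 j • ((Pi.single j 1, 0) : Q n)) := by
    ext i <;> simp [Prod.fst_sum, Prod.snd_sum, Pi.single_apply]
  conv_rhs => rw [h]
  rw [dd_l0, map_sum]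
  refine Finset.sum_congr rfl fun j _ => ?_
  have := exp_pos (q.1 j)
  simp only [sh, map_add, map_smul, smul_eq_mul, exp_neg]
  field_simp
  ring

theorem l0_nondeg {q u : Q n} (h : ∀ v, dd l0 q u v = 0) : u = 0 := by
  ext i
  · have := h (0, Pi.single i 1)
    simpa [dd_l0, Pi.single_apply] using this
  · have := h (Pi.single i 1, 0)
    simpa [dd_l0, Pi.single_apply] using this

theorem l0_uniq {q u w : Q n} (h : ∀ v, dd l0 q u v = dd l0 q w v) : u = w :=
  sub_eq_zero.1 (l0_nondeg (q := q) fun v => by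
    have := h v
    simp only [dd, map_sub, sub_apply] at this ⊢
    linarith)

end Darb

end Pool.Agent.MP_6d695c_gt.SW
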