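import Mathlib.Geometry.Manifold.MFDeriv.Atlas
import Mathlib.Geometry.Manifold.MFDeriv.FDeriv
import Mathlib.Geometry.Manifold.ContMDiff.NormedSpace
import Mathlib.Analysis.Calculus.ContDiff.FiniteDimension
import Pool.Agent.MP_6d695c_gt.sw.Base
import Pool.Agent.MP_6d695c_gt.sw.Darb1
import Pool.Agent.MP_6d695c_gt.sw.Flow
import Mathlib.Analysis.Calculus.InverseFunctionTheorem.ContDiff
import Pool.Agent.MP_6d695c_gt.sw.Compl
import Mathlib.Topology.Instances.AddCircle.Defs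
import Mathlib.Analysis.Calculus.LocalExtr.Basic
import Mathlib.Analysis.SpecialFunctions.Trigonometric.Bounds
import Mathlib.Analysis.SpecialFunctions.Log.Deriv
import Pool.Agent.MP_6d695c_gt.sw.Rate

-- ======== part 0: formerly Pool.Agent.MP_6d695c_gt.sw.Mfd
section MrgPart0

/-! PROJECT SW, row MFD: the exterior derivative in charts and under pull-back. -/

open scoped Manifold ContDiff Topology
open Set Metric Filter Real

namespace Pool.Agent.MP_6d695c_gt.SW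

namespace Mfd

variable {E : Type} [NormedAddCommGroup E] [NormedSpace ℝ E]

/-- a nondegenerate bilinear form identifies the space with its dual -/
theorem isInvertible_of_nondeg [FiniteDimensional ℝ E] {B : E →L[ℝ] E →L[ℝ] ℝ}
    (h : ∀ u, (∀ v, B u v = 0) → u = 0) : B.IsInvertible := by
  have h1 : Function.Injective B.toLinearMap :=
    (injective_iff_map_eq_zero _).2 fun u hu => h u fun v => congrArg (fun L => L v) hu
  have h2 : Module.finrank ℝ E = Module.finrank ℝ (E →L[ℝ] ℝ) := by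
    rw [← (LinearMap.toContinuousLinearMap (𝕜 := ℝ) (E := E) (F' := ℝ)).finrank_eq]
    exact Subspace.dual_finrank_eq.symm
  exact ⟨(B.toLinearMap.linearEquivOfInjective h1 h2).toContinuousLinearEquiv, by ext; rfl⟩

variable {H : Type} [TopologicalSpace H] {I : ModelWithCorners ℝ E H} [I.Boundaryless] {M : Type}
  [TopologicalSpace M] [ChartedSpace H M] [IsManifold I ∞ M] {X : Type} [NormedAddCommGroup X]
  [NormedSpace ℝ X]

theorem sm_symm {p : M} {y : E} (hy : y ∈ (extChartAt I p).target) :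
    ContMDiffAt 𝓘(ℝ, E) I ∞ (extChartAt I p).symm y :=
  (contMDiffOn_extChartAt_symm p).contMDiffAt (extChartAt_target_mem_nhds' hy)

omit [I.Boundaryless] in
theorem sm_chart {p x : M} (hx : x ∈ (extChartAt I p).source) :
    ContMDiffAt I 𝓘(ℝ, E) ∞ (extChartAt I p) x :=
  contMDiffAt_extChartAt' (by rwa [← extChartAt_source I])

theorem dS_dC {p x : M} (hx : x ∈ (extChartAt I p).source) (v : E) :
    mfderiv 𝓘(ℝ, E) I (extChartAt I p).symm (extChartAt I p x)
      (mfderiv I 𝓘(ℝ, E) (extChartAt I p) x v) = v := by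
  have := mfderivWithin_extChartAt_symm_comp_mfderiv_extChartAt' hx
  rw [I.range_eq_univ, mfderivWithin_univ] at this
  exact congrArg (fun L => L v) this

theorem dC_dS {p x : M} (hx : x ∈ (extChartAt I p).source) (v : E) :
    mfderiv I 𝓘(ℝ, E) (extChartAt I p) x
      (mfderiv 𝓘(ℝ, E) I (extChartAt I p).symm (extChartAt I p x) v) = v := by
  have := mfderiv_extChartAt_comp_mfderivWithin_extChartAt_symm' hx
  rw [I.range_eq_univ, mfderivWithin_univ] at this
  exact congrArg (fun L => L v) this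

theorem dS_self (x : M) (v : E) :
    mfderiv 𝓘(ℝ, E) I (extChartAt I x).symm (extChartAt I x x) v = v := by
  have := mfderivWithin_range_extChartAt_symm (I := I) (x := x)
  rw [I.range_eq_univ, mfderivWithin_univ] at this
  exact congrArg (fun L => L v) this

omit [I.Boundaryless] in
theorem dC_self (x : M) (v : E) : mfderiv I 𝓘(ℝ, E) (extChartAt I x) x v = v :=
  congrArg (fun L => L v) (mfderiv_extChartAt_self (I := I) (x := x))

/-- the derivative of a map read in a chart -/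
theorem fderiv_in {e : M → X} {p : M} {y : E} (hy : y ∈ (extChartAt I p).target)
    (he : MDifferentiableAt I 𝓘(ℝ, X) e ((extChartAt I p).symm y)) (v : E) :
    fderiv ℝ (fun z => e ((extChartAt I p).symm z)) y v =
      mfderiv I 𝓘(ℝ, X) e ((extChartAt I p).symm y)
        (mfderiv 𝓘(ℝ, E) I (extChartAt I p).symm y v) := by
  have := mfderiv_comp y he ((sm_symm hy).mdifferentiableAt (by simp))
  rw [mfderiv_eq_fderiv] at this
  exact congrArg (fun L => L v) this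

/-- the derivative of a map from its reading in a chart -/
theorem fderiv_in' {e : M → X} {p x : M} (hx : x ∈ (extChartAt I p).source)
    (he : MDifferentiableAt I 𝓘(ℝ, X) e x) (v : E) :
    fderiv ℝ (fun z => e ((extChartAt I p).symm z)) (extChartAt I p x)
      (mfderiv I 𝓘(ℝ, E) (extChartAt I p) x v) = mfderiv I 𝓘(ℝ, X) e x v := by
  have h1 := (extChartAt I p).left_inv hx
  rw [fderiv_in ((extChartAt I p).map_source hx) (by rwa [h1]), dS_dC hx]
  exact congrArg (fun z => (show E →L[ℝ] X from mfderiv I 𝓘(ℝ, X) e z) v) h1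

theorem sm_in {e : M → X} {p x : M} (hx : x ∈ (extChartAt I p).source)
    (he : ContMDiffAt I 𝓘(ℝ, X) ∞ e x) :
    ContDiffAt ℝ ∞ (fun z => e ((extChartAt I p).symm z)) (extChartAt I p x) := by
  rw [← (extChartAt I p).left_inv hx] at he
  exact (he.comp _ (sm_symm ((extChartAt I p).map_source hx))).contDiffAt

theorem formIn_dC (l : OneForm I M) {p x : M} (hx : x ∈ (extChartAt I p).source) (v : E) :
    formIn I l p (extChartAt I p x) (mfderiv I 𝓘(ℝ, E) (extChartAt I p) x v) = l x v :=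
  (congrArg (l _) (dS_dC hx v)).trans
    (congrArg (fun z => (show E →L[ℝ] ℝ from l z) v) ((extChartAt I p).left_inv hx))

theorem pull (l : OneForm I M) {e : M → X} {a : X → X →L[ℝ] ℝ} {x : M}
    (he : ContMDiffAt I 𝓘(ℝ, X) ∞ e x) (ha : ContDiffAt ℝ ∞ a (e x))
    (h : ∀ᶠ y in 𝓝 x, ∀ v : E, l y v = a (e y) (mfderiv I 𝓘(ℝ, X) e y v)) (u v : E) :
    dForm I l x u v = dd a (e x) (mfderiv I 𝓘(ℝ, X) e x u) (mfderiv I 𝓘(ℝ, X) e x v) := by
  have hx := mem_extChartAt_source (I := I) x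
  have h1 := (contMDiffAt_iff_contMDiffAt_nhds (n := 1) (by simp)).1 (he.of_le (by simp))
  have h2 : Tendsto (extChartAt I x).symm (𝓝 (extChartAt I x x)) (𝓝 x) := by
    have := (continuousAt_extChartAt_symm (I := I) x).tendsto
    rwa [extChartAt_to_inv] at this
  have h3 : formIn I l x =ᶠ[𝓝 (extChartAt I x x)] fun y => (a (e ((extChartAt I x).symm y))).comp
      (fderiv ℝ (fun z => e ((extChartAt I x).symm z)) y) := by
    filter_upwards [h2.eventually h, h2.eventually h1, extChartAt_target_mem_nhds x]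
      with y k1 k2 k3
    ext w
    exact (k1 _).trans (congrArg _ (fderiv_in k3 (k2.mdifferentiableAt one_ne_zero) w).symm)
  have h4 := dd_pullback (l := a) (f := fun z => e ((extChartAt I x).symm z))
    (y := extChartAt I x x) (by rw [extChartAt_to_inv]; exact ha.differentiableAt (by simp))
    ((sm_in hx he).of_le (by decide)) u v
  have h5 := fun w => fderiv_in' hx (he.mdifferentiableAt (by simp)) w
  simp only [dC_self] at h5
  rw [h5, h5, extChartAt_to_inv] at h4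
  rw [← h4, dForm, h3.fderiv_eq]
  rfl

theorem chart (l : OneForm I M) (hl : ∀ p, ContDiffOn ℝ ∞ (formIn I l p) (extChartAt I p).target)
    (p : M) {x : M} (hx : x ∈ (extChartAt I p).source) (u v : E) :
    dForm I l x u v = dd (formIn I l p) (extChartAt I p x) (mfderiv I 𝓘(ℝ, E) (extChartAt I p) x u)
      (mfderiv I 𝓘(ℝ, E) (extChartAt I p) x v) := by
  refine pull l (sm_chart hx)
    ((hl p).contDiffAt (extChartAt_target_mem_nhds' ((extChartAt I p).map_source hx))) ?_ u v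
  filter_upwards [extChartAt_source_mem_nhds' hx] with y hy w using (formIn_dC l hy w).symm

/-- nondegeneracy in a chart -/
theorem nondeg_in {l : OneForm I M} {Z : VField I M} (h : PreL I l Z) {p x : M}
    (hx : x ∈ (extChartAt I p).source) (u : E)
    (hu : ∀ v, dd (formIn I l p) (extChartAt I p x) u v = 0) : u = 0 := by
  have h1 := h.nondeg x (mfderiv 𝓘(ℝ, E) I (extChartAt I p).symm (extChartAt I p x) u) fun v => by
    rw [chart l h.smooth p hx, dC_dS hx, hu]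
  rw [← dC_dS hx u]
  exact (congrArg (mfderiv I 𝓘(ℝ, E) (extChartAt I p) x) h1).trans (map_zero _)

/-- duality in a chart -/
theorem dual_in {l : OneForm I M} {Z : VField I M} (h : PreL I l Z) {p x : M}
    (hx : x ∈ (extChartAt I p).source) (v : E) :
    dd (formIn I l p) (extChartAt I p x) (fieldIn I Z p x) v =
      formIn I l p (extChartAt I p x) v := by
  have h1 := h.dual x (mfderiv 𝓘(ℝ, E) I (extChartAt I p).symm (extChartAt I p x) v)
  rw [chart l h.smooth p hx, ← formIn_dC l hx, dC_dS hx] at h1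
  exact h1

theorem field [FiniteDimensional ℝ E] {l : OneForm I M} {Z : VField I M} (h : PreL I l Z) (p : M) :
    ContDiffOn ℝ ∞ (fun y => fieldIn I Z p ((extChartAt I p).symm y)) (extChartAt I p).target := by
  have ho := isOpen_extChartAt_target (I := I) p
  have hD : ContDiffOn ℝ ∞ (fderiv ℝ (formIn I l p)) (extChartAt I p).target :=
    (h.smooth p).fderiv_of_isOpen ho (by simp)
  have hB : ContDiffOn ℝ ∞ (fun y => fderiv ℝ (formIn I l p) y - (fderiv ℝ (formIn I l p) y).flip)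
      (extChartAt I p).target :=
    hD.sub (contDiffOn_clm_apply.2 fun u => contDiffOn_clm_apply.2 fun v =>
      (hD.clm_apply contDiffOn_const).clm_apply contDiffOn_const)
  have hi : ∀ y ∈ (extChartAt I p).target,
      (fderiv ℝ (formIn I l p) y - (fderiv ℝ (formIn I l p) y).flip).IsInvertible := fun y hy =>
    isInvertible_of_nondeg fun u hu => nondeg_in h ((extChartAt I p).map_target hy) u fun v => by
      rw [(extChartAt I p).right_inv hy]
      exact hu v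
  refine ContDiffOn.congr (ContDiffOn.clm_apply (fun y hy =>
    (hi y hy).contDiffAt_map_inverse.comp_contDiffWithinAt y (hB y hy)) (h.smooth p))
    fun y hy => ?_
  refine ((hi y hy).inverse_apply_eq.2 ?_).symm
  ext v
  have := dual_in h ((extChartAt I p).map_target hy) v
  rw [(extChartAt I p).right_inv hy] at this
  exact this.symm

end Mfd

theorem mfd : MfdStmt := fun _ _ _ _ _ _ _ _ _ _ _ _ l hl =>
  ⟨fun p _ hx => Mfd.chart l hl p hx, fun _ _ _ _ _ _ he ha h => Mfd.pull l he ha h,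
    fun _ h => Mfd.field h⟩

end Pool.Agent.MP_6d695c_gt.SW

end MrgPart0

-- ======== part 1: formerly Pool.Agent.MP_6d695c_gt.sw.Darb2
section MrgPart1

/-! PROJECT SW, row DARB: straightening and the argument of Moser. -/

open scoped ContDiff Topology
open Set Metric Filter Real

namespace Pool.Agent.MP_6d695c_gt.SW

namespace Darb

variable {X E F : Type} [NormedAddCommGroup X] [NormedSpace ℝ X] [NormedAddCommGroup E]
  [NormedSpace ℝ E] [NormedAddCommGroup F] [NormedSpace ℝ F]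

/-- pull-back of a one-form -/
noncomputable def pb (a : X → X →L[ℝ] ℝ) (f : E → X) (y : E) : E →L[ℝ] ℝ :=
  (a (f y)).comp (fderiv ℝ f y)

theorem pb_apply (a : X → X →L[ℝ] ℝ) (f : E → X) (y v : E) :
    pb a f y v = a (f y) (fderiv ℝ f y v) := rfl

theorem contDiffAt_pb {a : X → X →L[ℝ] ℝ} {f : E → X} {y : E} (ha : ContDiffAt ℝ ∞ a (f y))
    (hf : ContDiffAt ℝ ∞ f y) : ContDiffAt ℝ ∞ (pb a f) y :=
  (ha.comp y hf).clm_comp (hf.fderiv_right (by simp))

theorem contDiff_pb {a : X → X →L[ℝ] ℝ} {f : E → X} (ha : ContDiff ℝ ∞ a)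
    (hf : ContDiff ℝ ∞ f) : ContDiff ℝ ∞ (pb a f) :=
  contDiff_iff_contDiffAt.2 fun _ => contDiffAt_pb ha.contDiffAt hf.contDiffAt

theorem dd_pb {a : X → X →L[ℝ] ℝ} {f : E → X} {y : E} (ha : ContDiffAt ℝ ∞ a (f y))
    (hf : ContDiffAt ℝ ∞ f y) (u v : E) :
    dd (pb a f) y u v = dd a (f y) (fderiv ℝ f y u) (fderiv ℝ f y v) :=
  dd_pullback (ha.differentiableAt (by simp)) (hf.of_le (WithTop.coe_le_coe.2 le_top)) u v

theorem pb_comp {a : X → X →L[ℝ] ℝ} {f : E → X} {g : F → E} {z : F}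
    (hf : ContDiffAt ℝ ∞ f (g z)) (hg : ContDiffAt ℝ ∞ g z) :
    pb a (f ∘ g) z = pb (pb a f) g z := by
  rw [pb, fderiv_comp z (hf.differentiableAt (by simp)) (hg.differentiableAt (by simp))]
  rfl

theorem dd_congr {a a' : X → X →L[ℝ] ℝ} {x : X} (h : a =ᶠ[𝓝 x] a') (u v : X) :
    dd a x u v = dd a' x u v := by
  simp only [dd, h.fderiv_eq]

theorem dd_self (a : X → X →L[ℝ] ℝ) (x u : X) : dd a x u u = 0 := sub_self _

theorem dd_add {a b : X → X →L[ℝ] ℝ} {x : X} (ha : DifferentiableAt ℝ a x)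
    (hb : DifferentiableAt ℝ b x) (u v : X) :
    dd (fun y => a y + b y) x u v = dd a x u v + dd b x u v := by
  simp only [dd, fderiv_fun_add ha hb, add_apply]
  ring

theorem dd_sub {a b : X → X →L[ℝ] ℝ} {x : X} (ha : DifferentiableAt ℝ a x)
    (hb : DifferentiableAt ℝ b x) (u v : X) :
    dd (fun y => a y - b y) x u v = dd a x u v - dd b x u v := by
  simp only [dd, fderiv_fun_sub ha hb, sub_apply]
  ring

theorem dd_smul {f : X → ℝ} {a : X → X →L[ℝ] ℝ} {x : X} (hf : DifferentiableAt ℝ f x)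
    (ha : DifferentiableAt ℝ a x) (u v : X) : dd (fun y => f y • a y) x u v =
      fderiv ℝ f x u * a x v - fderiv ℝ f x v * a x u + f x * dd a x u v := by
  simp only [dd, fderiv_fun_smul hf ha]
  simp
  ring

/-- the exterior derivative as a continuous bilinear map -/
noncomputable def DD (a : X → X →L[ℝ] ℝ) (x : X) : X →L[ℝ] X →L[ℝ] ℝ :=
  fderiv ℝ a x - (fderiv ℝ a x).flip

theorem DD_apply (a : X → X →L[ℝ] ℝ) (x u v : X) : DD a x u v = dd a x u v := rfl

theorem contDiff_dd {a : X → X →L[ℝ] ℝ} (ha : ContDiff ℝ ∞ a) (u v : X) :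
    ContDiff ℝ ∞ fun x => dd a x u v :=
  have h : ContDiff ℝ ∞ (fderiv ℝ a) := ha.fderiv_right (by simp)
  ((h.clm_apply contDiff_const).clm_apply contDiff_const).sub
    ((h.clm_apply contDiff_const).clm_apply contDiff_const)

theorem der_slice {A : ℝ × X → F} {s : ℝ} {x : X} (h : DifferentiableAt ℝ A (s, x)) :
    HasDerivAt (fun t => A (t, x)) (fderiv ℝ A (s, x) (1, 0)) s :=
  HasFDerivAt.comp_hasDerivAt (f := fun t => (t, x)) s h.hasFDerivAt
    ((hasDerivAt_id s).prodMk (hasDerivAt_const s x))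

/-- solving `Ω v = β` near a compact set -/
theorem sharp [FiniteDimensional ℝ X] [FiniteDimensional ℝ E] {Ω : X → E →L[ℝ] E →L[ℝ] ℝ}
    {β : X → E →L[ℝ] ℝ} (hΩ : ∀ u v, ContDiff ℝ ∞ fun x => Ω x u v) (hβ : ContDiff ℝ ∞ β) {K : Set X}
    (hK : IsCompact K) (h : ∀ x ∈ K, ∀ u, (∀ v, Ω x u v = 0) → u = 0) :
    ∃ v : X → E, ContDiff ℝ ∞ v ∧ HasCompactSupport v ∧
      ∀ x ∈ K, ∀ᶠ y in 𝓝 x, Ω y (v y) = β y := by
  have := FiniteDimensional.complete ℝ E
  replace hΩ : ContDiff ℝ ∞ Ω :=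
    contDiff_clm_apply_iff.2 fun u => contDiff_clm_apply_iff.2 (hΩ u)
  have hN : IsOpen {y | (Ω y).IsInvertible} :=
    ContinuousLinearEquiv.isOpen.preimage hΩ.continuous
  obtain ⟨b, hb, hc, hs, h1, -⟩ := exists_cut hK hN fun x hx => Mfd.isInvertible_of_nondeg (h x hx)
  refine ⟨fun y => b y • (Ω y).inverse (β y), contDiff_cut_smul hN hb hs fun y hy => ?_,
    hc.smul_right, fun x hx => ?_⟩
  · exact ((ContinuousLinearMap.IsInvertible.contDiffAt_map_inverse hy).comp y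
      hΩ.contDiffAt).contDiffWithinAt.clm_apply hβ.contDiffAt.contDiffWithinAt
  · filter_upwards [h1 x hx, hN.mem_nhds (Mfd.isInvertible_of_nondeg (h x hx))] with y h2 h3
    rw [h2, one_smul, ContinuousLinearMap.IsInvertible.self_apply_inverse h3]

section Flow

variable {W : X → X} {fl : ℝ → X → X} (hf : IsFlow W fl)
include hf

theorem flow_sm (s : ℝ) : ContDiff ℝ ∞ (fl s) :=
  hf.sm.comp (contDiff_const.prodMk contDiff_id)

theorem flow_fderiv (s : ℝ) (x : X) (a : ℝ) (u : X) :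
    fderiv ℝ (fun q : ℝ × X => fl q.1 q.2) (s, x) (a, u) =
      a • W (fl s x) + fderiv ℝ (fl s) x u := by
  have h0 := (hf.sm.differentiable (by simp) (s, x)).hasFDerivAt
  have h1 := (der_slice h0.differentiableAt).unique (hf.der x s)
  have h2 : fderiv ℝ (fl s) x = _ := (h0.comp x (hasFDerivAt_prodMk_right s x)).fderiv
  rw [h2, ← h1, ← map_smul, ContinuousLinearMap.comp_apply, ← map_add]
  simp

theorem flow_fderiv_zero (x u : X) : fderiv ℝ (fl 0) x u = u := by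
  rw [show fl 0 = id from funext hf.zero, fderiv_id]
  rfl

/-- a form that is killed by a field, together with its derivative, is invariant -/
theorem inv_flow {L : X → X →L[ℝ] ℝ} (hL : ContDiff ℝ ∞ L) {U : Set X} (hU : IsOpen U)
    (h1 : ∀ x ∈ U, L x (W x) = 0) (h2 : ∀ x ∈ U, ∀ w, dd L x (W x) w = 0) {x : X}
    (hx : ∀ s ∈ Icc (0 : ℝ) 1, fl s x ∈ U) (u : X) : pb L (fl 1) x u = L x u := by
  set A := pb L fun q : ℝ × X => fl q.1 q.2 with hA
  have hs : Differentiable ℝ A := (contDiff_pb hL hf.sm).differentiable (by simp)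
  have hv : ∀ s, A (s, x) (0, u) = pb L (fl s) x u := fun s => by
    simp [hA, pb_apply, flow_fderiv hf]
  have hd : ∀ s, HasDerivAt (fun s => A (s, x) (0, u)) (fderiv ℝ A (s, x) (1, 0) (0, u)) s :=
    fun s => by
      have := (der_slice (hs (s, x))).clm_apply (hasDerivAt_const s ((0 : ℝ), u))
      rwa [map_zero, add_zero] at this
  have h0 : ∀ s ∈ Icc (0 : ℝ) 1, fderiv ℝ A (s, x) (1, 0) (0, u) = 0 := fun s hs' => by
    have e1 : dd A (s, x) (1, 0) (0, u) = 0 := by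
      rw [hA, dd_pb hL.contDiffAt hf.sm.contDiffAt, flow_fderiv hf, map_zero, add_zero, one_smul]
      exact h2 _ (hx s hs') _
    have e2 : (fun q => A q (1, 0)) =ᶠ[𝓝 (s, x)] fun _ => 0 := by
      filter_upwards [hf.sm.continuous.continuousAt.preimage_mem_nhds (hU.mem_nhds (hx s hs'))]
        with q hq
      rw [hA, pb_apply, flow_fderiv hf, map_zero, add_zero, one_smul]
      exact h1 _ hq
    have e3 := e2.fderiv_eq (𝕜 := ℝ)
    rw [fderiv_clm_apply (hs _) (differentiableAt_const _)] at e3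
    have e4 := congrArg (fun T => T (0, u)) e3
    simp only [dd] at e1
    simp at e4
    linarith
  have := constant_of_has_deriv_right_zero (f := fun s => A (s, x) (0, u)) (a := 0) (b := 1)
    (fun s _ => (hd s).continuousAt.continuousWithinAt)
    (fun s hs' => (h0 s ⟨hs'.1, hs'.2.le⟩ ▸ hd s).hasDerivWithinAt) 1 ⟨zero_le_one, le_rfl⟩
  simp only [hv] at this
  rw [this, pb_apply, flow_fderiv_zero hf, hf.zero]

end Flow

variable {n : ℕ}

theorem moser {l1 : Q n → Q n →L[ℝ] ℝ} (hs : ContDiff ℝ ∞ l1) (h0 : l1 0 = l0 0)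
    (hd : ∀ u v, dd l1 0 u v = dd l0 0 u v)
    (hz : ∀ᶠ q in 𝓝 (0 : Q n), l1 q (one n) = 0 ∧ ∀ v, dd l1 q (one n) v = l1 q v) :
    ∃ ψ : Q n → Q n, ContDiff ℝ ∞ ψ ∧ ψ 0 = 0 ∧ ∀ᶠ q in 𝓝 (0 : Q n), pb l1 ψ q = l0 q := by
  set β : Q n → Q n →L[ℝ] ℝ := fun q => l1 q - l0 q with hβ
  have sβ : ContDiff ℝ ∞ β := hs.sub contDiff_l0
  have dβ : ∀ q u v, dd β q u v = dd l1 q u v - dd l0 q u v := fun q =>
    dd_sub (hs.differentiable (by simp) q) (contDiff_l0.differentiable (by simp) q)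
  have hK : IsCompact (Icc (0 : ℝ) 1 ×ˢ ({0} : Set (Q n))) := isCompact_Icc.prod isCompact_singleton
  have hΩ : ∀ (t : ℝ) (u v : Q n), (DD l0 (0 : Q n) + t • DD β 0) u v = dd l0 0 u v := fun t u v => by
    simp [DD_apply, dβ, hd]
  obtain ⟨v, sv, cv, hv⟩ := sharp (Ω := fun x : ℝ × Q n => DD l0 x.2 + x.1 • DD β x.2)
    (β := fun x => -β x.2) (fun u w => ((contDiff_dd contDiff_l0 u w).comp contDiff_snd).add
      (contDiff_fst.mul ((contDiff_dd sβ u w).comp contDiff_snd))) (sβ.comp contDiff_snd).neg hK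
    (by
      rintro ⟨t, _⟩ ⟨-, rfl⟩ u hu
      exact l0_nondeg (q := 0) fun w => (hΩ t u w).symm.trans (hu w))
  obtain ⟨K, hK'⟩ := sv.lipschitzWith_of_hasCompactSupport cv (by simp)
  obtain ⟨fl, hf⟩ := exists_isFlow (f := fun x : ℝ × Q n => ((1 : ℝ), v x))
    (contDiff_const.prodMk sv) ((LipschitzWith.const _).prodMk hK')
  set L : ℝ × Q n → ℝ × Q n →L[ℝ] ℝ := fun x => pb l0 Prod.snd x + x.1 • pb β Prod.snd x with hL
  have s0 := contDiff_pb (contDiff_l0 (n := n)) (contDiff_snd (E := ℝ))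
  have s1 := contDiff_pb sβ (contDiff_snd (E := ℝ))
  have sL : ContDiff ℝ ∞ L := s0.add (contDiff_fst.smul s1)
  have La : ∀ x w, L x w = l0 x.2 w.2 + x.1 * β x.2 w.2 := fun x w => by
    simp [hL, pb_apply, fderiv_snd]
  have dL : ∀ x u w, dd L x u w = dd l0 x.2 u.2 w.2 +
      (u.1 * β x.2 w.2 - w.1 * β x.2 u.2 + x.1 * dd β x.2 u.2 w.2) := fun x u w => by
    rw [hL, dd_add (b := fun x : ℝ × Q n => x.1 • pb β Prod.snd x)
      (s0.differentiable (by simp) x) ((contDiff_fst.smul s1).differentiable (by simp) x),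
      dd_smul differentiableAt_fst (s1.differentiable (by simp) x),
      dd_pb contDiff_l0.contDiffAt contDiffAt_snd, dd_pb sβ.contDiffAt contDiffAt_snd]
    simp [pb_apply, fderiv_snd, fderiv_fst]
  set P : ℝ × Q n → Prop := fun x => (DD l0 x.2 + x.1 • DD β x.2) (v x) = -β x.2 ∧
    l1 x.2 (one n) = 0 ∧ ∀ w, dd l1 x.2 (one n) w = l1 x.2 w with hP
  have key : ∀ x, P x → L x (1, v x) = 0 ∧ ∀ w, dd L x (1, v x) w = 0 := by
    rintro x ⟨k1, k2, k3⟩
    have e : ∀ w, dd l0 x.2 (v x) w + x.1 * dd β x.2 (v x) w = -β x.2 w := fun w => by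
      simpa [DD_apply] using congrArg (fun T => T w) k1
    have e1 : β x.2 (v x) = 0 := by simpa [dd_self] using e (v x)
    have e2 : dd β x.2 (one n) (v x) = 0 := by rw [dβ, k3, dd_l0_one]; exact e1
    have e3 : β x.2 (one n) = 0 := by simp [hβ, k2, l0_one]
    have e4 := e (one n)
    rw [dd_anti l0, dd_anti β, e2, e3, dd_l0_one] at e4
    refine ⟨by rw [La, e1]; linarith, fun w => ?_⟩
    rw [dL, e1]
    linarith [e w.2]
  have hU : ∀ s ∈ Icc (0 : ℝ) 1, (s, (0 : Q n)) ∈ interior {x | P x} := fun s hs' =>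
    mem_interior_iff_mem_nhds.2 ((hv (s, 0) ⟨hs', rfl⟩).and
      (continuous_snd.continuousAt (x := (s, (0 : Q n))).eventually hz))
  have horb : ∀ s ∈ Icc (0 : ℝ) 1, fl s (0, 0) = (s, 0) := fun s hs' => by
    have := hf.eq_of (c := fun t => (t, (0 : Q n))) (a := 0) (b := s) fun t ht => by
      rw [uIcc_of_le hs'.1] at ht
      have k1 := (interior_subset (hU t ⟨ht.1, ht.2.trans hs'.2⟩)).1
      have k2 : v (t, 0) = 0 := l0_nondeg (q := 0) fun w => by
        rw [← hΩ t, k1]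
        simp [hβ, h0]
      simpa [k2] using (hasDerivAt_id t).prodMk (hasDerivAt_const t (0 : Q n))
    rw [sub_zero] at this
    exact this.symm
  have hone : ∀ x, (fl 1 x).1 = x.1 + 1 := fun x => by
    have k : ∀ s, HasDerivAt (fun s => (fl s x).1 - s) 0 s := fun s => by
      have k1 : HasDerivAt (fun s => (fl s x).1) 1 s :=
        (ContinuousLinearMap.fst ℝ ℝ (Q n)).hasFDerivAt.comp_hasDerivAt s (hf.der x s)
      simpa using k1.fun_sub (hasDerivAt_id' s)
    have := is_const_of_deriv_eq_zero (fun s => (k s).differentiableAt) (fun s => (k s).deriv) 1 0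
    rw [hf.zero] at this
    linarith
  have sj : ContDiff ℝ ∞ fun q : Q n => ((0 : ℝ), q) := contDiff_const.prodMk contDiff_id
  refine ⟨fun q => (fl 1 (0, q)).2, ((flow_sm hf 1).comp sj).snd,
    by simp [horb 1 ⟨zero_le_one, le_rfl⟩], ?_⟩
  have hev : ∀ᶠ q in 𝓝 (0 : Q n), ∀ s ∈ Icc (0 : ℝ) 1, fl s (0, q) ∈ interior {x | P x} :=
    isCompact_Icc.eventually_forall_of_forall_eventually fun s hs' =>
      (hf.sm.continuous.comp (continuous_snd.prodMk
        (sj.continuous.comp continuous_fst))).continuousAt.preimage_mem_nhds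
          (isOpen_interior.mem_nhds (by simpa [horb s hs'] using hU s hs'))
  filter_upwards [hev] with q hq
  refine ContinuousLinearMap.ext fun u => ?_
  have k := inv_flow hf sL isOpen_interior
    (fun x hx => (key x (interior_subset (s := {x | P x}) hx)).1)
    (fun x hx => (key x (interior_subset (s := {x | P x}) hx)).2) hq (0, u)
  have k2 : fderiv ℝ (fun q => (fl 1 (0, q)).2) q = _ :=
    (((flow_sm hf 1).differentiable (by simp) (0, q)).hasFDerivAt.comp q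
      (hasFDerivAt_prodMk_right 0 q)).snd.fderiv
  rw [pb_apply, La, La, hone] at k
  rw [pb_apply, k2]
  simpa [hβ] using k

/-- the theorem of Darboux for Liouville forms in a vector space -/
theorem local_darb [FiniteDimensional ℝ E] {lam : E → E →L[ℝ] ℝ} (hs : ContDiff ℝ ∞ lam) {y : E}
    (hn : ∀ u, (∀ v, dd lam y u v = 0) → u = 0) (h0 : lam y ≠ 0) :
    ∃ (n : ℕ) (Θ : Q n → E), ContDiff ℝ ∞ Θ ∧ Θ 0 = y ∧
      Module.finrank ℝ (Q n) = Module.finrank ℝ E ∧ ∀ᶠ q in 𝓝 (0 : Q n), pb lam Θ q = l0 q := by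
  have := FiniteDimensional.complete ℝ E
  obtain ⟨Z, sZ, cZ, hZ⟩ := sharp (Ω := DD lam) (contDiff_dd hs) hs isCompact_singleton
    (fun x hx => by rw [hx]; exact hn)
  replace hZ := hZ y rfl
  obtain ⟨n, A, h1, h2, h3⟩ := lin_aux _ E (DD lam y).toLinearMap₁₂ le_rfl
    (fun u v => dd_anti lam y u v) hn (Z y) fun e => h0 (by rw [← hZ.self_of_nhds, e, map_zero])
  have h3' : ∀ u v, dd lam y (A u) (A v) = dd l0 0 u v := fun u v =>
    (h3 u v).trans (dd_l0_zero u v).symm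
  have hi : Function.Injective A := (injective_iff_map_eq_zero _).2 fun u hu =>
    l0_nondeg (q := 0) fun v => by rw [← h3', hu]; simp [dd]
  obtain ⟨K, fl, -, hf⟩ := exists_isFlow_cpt sZ cZ
  let B : Q n →L[ℝ] ℝ × E := (LinearMap.toContinuousLinearMap (hd n)).prod
    ((LinearMap.toContinuousLinearMap A).comp (latL n))
  have hB : ∀ q, B q = (q.1 0, A (lat q)) := fun _ => rfl
  set Θ : Q n → E := fun q => fl ((0, y) + B q).1 ((0, y) + B q).2 with hΘ
  have sΘ : ContDiff ℝ ∞ Θ := hf.sm.comp (contDiff_const.add B.contDiff)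
  have dΘ : ∀ q v, fderiv ℝ Θ q v = v.1 0 • Z (Θ q) +
      fderiv ℝ (fl ((0, y) + B q).1) ((0, y) + B q).2 (A (lat v)) := fun q v => by
    have : fderiv ℝ Θ q = _ := ((hf.sm.differentiable (by simp) _).hasFDerivAt.comp q
      (B.hasFDerivAt.const_add (0, y))).fderiv
    rw [this, ContinuousLinearMap.comp_apply, hB v, flow_fderiv hf]
  have Θ0 : Θ 0 = y := by simp [hΘ, hf.zero]
  have d1 : ∀ q, fderiv ℝ Θ q (one n) = Z (Θ q) := fun q => by
    rw [dΘ, lat_one]
    simp [one]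
  have d0 : ∀ v, fderiv ℝ Θ 0 v = A v := fun v => by
    rw [dΘ, Θ0, map_zero, add_zero, flow_fderiv_zero hf, ← h2, ← map_smul, ← map_add]
    congr 1
    ext i <;> simp [one, lat]
  have hz : ∀ᶠ q in 𝓝 (0 : Q n), ∀ v, dd (pb lam Θ) q (one n) v = pb lam Θ q v := by
    filter_upwards [sΘ.continuous.continuousAt.eventually (Θ0 ▸ hZ)] with q hq v
    rw [dd_pb hs.contDiffAt sΘ.contDiffAt, d1, ← DD_apply, hq, pb_apply]
  have hd : ∀ u v, dd (pb lam Θ) 0 u v = dd l0 0 u v := fun u v => by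
    rw [dd_pb hs.contDiffAt sΘ.contDiffAt, d0, d0, Θ0, h3']
  obtain ⟨ψ, sψ, ψ0, hψ⟩ := moser (contDiff_pb hs sΘ)
    (ContinuousLinearMap.ext fun v => by rw [← hz.self_of_nhds, hd, dd_l0_one]) hd
    (hz.mono fun q hq => ⟨by rw [← hq, dd_self], hq⟩)
  refine ⟨n, Θ ∘ ψ, sΘ.comp sψ, by rw [Function.comp_apply, ψ0, Θ0],
    (LinearEquiv.ofBijective A ⟨hi, h1⟩).finrank_eq, hψ.mono fun q hq => ?_⟩
  rw [pb_comp sΘ.contDiffAt sψ.contDiffAt, hq]

end Darb

end Pool.Agent.MP_6d695c_gt.SW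

end MrgPart1

-- ======== part 2: formerly Pool.Agent.MP_6d695c_gt.sw.Darb
section MrgPart2

/-! PROJECT SW, row DARB: Liouville charts. -/

open scoped ContDiff Topology
open Set Metric Filter Real

namespace Pool.Agent.MP_6d695c_gt.SW

namespace Darb

variable {V : Type} [NormedAddCommGroup V] [NormedSpace ℝ V] {E : Type} [NormedAddCommGroup E]
  [NormedSpace ℝ E] {M : Set V} {l : V → V →L[ℝ] ℝ} {Pi : V → (V →L[ℝ] ℝ) →L[ℝ] V} {φ : V → ℝ}
  {s : ℝ} {n : ℕ}

/-- a chart that pulls `l` back to the model is a Liouville chart -/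
theorem lch_of (h : Amb E M l Pi φ s) {Ψ : Q n → V} {κ : V → Q n} {O : Set (Q n)} {N : Set V}
    (hp : Par M Ψ κ O N) (hκ : ContDiff ℝ ∞ κ) (he : ∀ q ∈ O, pb l Ψ q = l0 q) :
    LCh M l Pi Ψ κ O N := by
  have key : ∀ x ∈ M, x ∈ N → ∀ β v,
      dd l0 (κ x) (fderiv ℝ κ x (Pi x β)) v = β (fderiv ℝ Ψ (κ x) v) := by
    intro x hx hN β v
    obtain ⟨h1, h2⟩ := hp.rm x hx hN
    have h3 : pb l Ψ =ᶠ[𝓝 (κ x)] l0 := eventually_of_mem (hp.oO.mem_nhds h1) he
    rw [← dd_congr h3, dd_pb h.sl.contDiffAt (hp.cg h1), hp.ret hx hN (h.tan x hx β), h2]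
    refine h.dual x hx β _ ?_
    have := hp.tg h1
    rw [h2] at this
    rw [this]
    exact mem_range_self v
  refine ⟨hp, hκ, fun x hx hN => l0_uniq (q := κ x) fun v => ?_,
    fun x hx hN α => l0_uniq (q := κ x) fun v => ?_⟩
  · obtain ⟨h1, h2⟩ := hp.rm x hx hN
    rw [key x hx hN, dd_l0_one, ← he _ h1, pb_apply, h2]
  · obtain ⟨h1, h2⟩ := hp.rm x hx hN
    have := hp.dr_dg h1 v
    rw [h2] at this
    rw [key x hx hN, dd_l0_sh, ContinuousLinearMap.comp_apply, this]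

/-- reparametrisation by a local diffeomorphism -/
theorem par_comp {g : E → V} {r : V → E} {O : Set E} {N : Set V} (hp : Par M g r O N)
    (e : OpenPartialHomeomorph (Q n) E) (he : ContDiff ℝ ∞ e) {U : Set (Q n)} (hU : IsOpen U)
    (h1 : ∀ q ∈ U, q ∈ e.source ∧ e q ∈ O ∧ (fderiv ℝ e q).IsInvertible) :
    Par M (g ∘ e) (e.symm ∘ r) U (N ∩ r ⁻¹' (e.target ∩ e.symm ⁻¹' U)) := by
  refine ⟨hU, hp.sr.continuousOn.isOpen_inter_preimage hp.oN (e.isOpen_inter_preimage_symm hU),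
    hp.sg.comp he.contDiffOn fun q hq => (h1 q hq).2.1, fun x hx => ?_, fun q hq => ?_,
    fun x hx hN => ?_⟩
  · obtain ⟨A, hA⟩ := (h1 _ hx.2.2).2.2
    refine ((e.contDiffAt_symm (f₀' := A) hx.2.1 ?_ he.contDiffAt).comp x
      (hp.cr hx.1)).contDiffWithinAt
    rw [hA]
    exact (he.differentiable (by simp) _).hasFDerivAt
  · obtain ⟨k1, k2, -⟩ := h1 q hq
    obtain ⟨k3, k4, k5⟩ := hp.gm _ k2
    have k6 := e.left_inv k1
    refine ⟨k3, ⟨k4, ?_⟩, ?_⟩
    · rw [mem_preimage, Function.comp_apply, k5]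
      exact ⟨e.map_source k1, by rwa [mem_preimage, k6]⟩
    · rw [Function.comp_apply, Function.comp_apply, k5, k6]
  · refine ⟨hN.2.2, ?_⟩
    rw [Function.comp_apply, Function.comp_apply, e.right_inv hN.2.1]
    exact (hp.rm x hx hN.1).2

end Darb

open Darb in
theorem darb : DarbStmt := by
  intro V _ _ _ d M l Pi φ s h p hp hZ
  obtain ⟨g, r, O, N, hP, hN⟩ := h.sub p hp
  obtain ⟨hy, hg⟩ := hP.rm p hp hN
  obtain ⟨b, hb, -, hs, h1, -⟩ := exists_cut (isCompact_singleton (x := r p)) hP.oO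
    (singleton_subset_iff.2 hy)
  have sl : ContDiff ℝ ∞ fun y => b y • pb l g y := contDiff_cut_smul hP.oO hb hs fun y hy =>
    (contDiffAt_pb h.sl.contDiffAt (hP.cg hy)).contDiffWithinAt
  have he : (fun y => b y • pb l g y) =ᶠ[𝓝 (r p)] pb l g :=
    (h1 _ rfl).mono fun y hy => by simp only [hy, one_smul]
  have htg := hP.tg hy
  rw [hg] at htg
  obtain ⟨n, Θ, sΘ, Θ0, hr, hΘ⟩ := local_darb sl (y := r p) (fun u hu => by
    have : fderiv ℝ g (r p) u = 0 := h.nondeg hp (htg ▸ mem_range_self u) fun v hv => by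
      rw [htg] at hv
      obtain ⟨w, rfl⟩ := hv
      have := hu w
      rwa [dd_congr he, dd_pb h.sl.contDiffAt (hP.cg hy), hg] at this
    rw [← hP.dr_dg hy u, this, map_zero]) fun e => hZ (by
    rw [h.congr (β := 0) hp fun v hv => ?_, map_zero]
    rw [htg] at hv
    obtain ⟨w, rfl⟩ := hv
    have := congrArg (fun T => T w) (he.self_of_nhds.symm.trans e)
    simp only [pb_apply, hg] at this
    exact this)
  have hinv : ∀ q, (∀ᶠ q' in 𝓝 q, pb (fun y => b y • pb l g y) Θ q' = l0 q') →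
      (fderiv ℝ Θ q).IsInvertible := fun q hq => by
    have hi : Function.Injective (fderiv ℝ Θ q).toLinearMap :=
      (injective_iff_map_eq_zero _).2 fun u hu => l0_nondeg (q := q) fun v => by
        rw [← dd_congr hq, dd_pb sl.contDiffAt sΘ.contDiffAt, show fderiv ℝ Θ q u = 0 from hu]
        simp [dd]
    exact ⟨((fderiv ℝ Θ q).toLinearMap.linearEquivOfInjective hi hr).toContinuousLinearEquiv,
      ContinuousLinearMap.ext fun _ => rfl⟩
  obtain ⟨A, hA⟩ := hinv 0 hΘ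
  have hA' : HasFDerivAt Θ (A : Q n →L[ℝ] Euc d) 0 := by
    rw [hA]
    exact (sΘ.differentiable (by simp) _).hasFDerivAt
  set e := sΘ.contDiffAt.toOpenPartialHomeomorph Θ hA' (by simp) with hedef
  have h0 : (0 : Q n) ∈ e.source := sΘ.contDiffAt.mem_toOpenPartialHomeomorph_source hA' (by simp)
  have hev : ∀ᶠ q in 𝓝 (0 : Q n), (q ∈ e.source ∧ Θ q ∈ O ∧ (fderiv ℝ Θ q).IsInvertible) ∧
      pb l (g ∘ Θ) q = l0 q := by
    filter_upwards [e.open_source.mem_nhds h0,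
      sΘ.continuous.continuousAt.preimage_mem_nhds (hP.oO.mem_nhds (Θ0 ▸ hy)),
      sΘ.continuous.continuousAt.eventually (Θ0 ▸ he), hΘ.eventually_nhds] with q k1 k2 k3 k4
    refine ⟨⟨k1, k2, hinv q k4⟩, ?_⟩
    rw [pb_comp (hP.cg k2) sΘ.contDiffAt, ← k4.self_of_nhds, pb, ← k3]
    rfl
  obtain ⟨U, hU, hUo, hU0⟩ := _root_.eventually_nhds_iff.1 hev
  have hpar := par_comp hP e sΘ hUo fun q hq => (hU q hq).1
  have hs0 : e.symm (r p) = 0 := by
    rw [← Θ0]
    exact e.left_inv h0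
  obtain ⟨κ, O', N', k1, k2, k3, -, k5, k6⟩ := hpar.global hp
    ⟨hN, Θ0 ▸ e.map_source h0, by rwa [mem_preimage, hs0]⟩
  exact ⟨n, _, κ, O', N', lch_of h k1 k2 fun q hq => (hU q (k5 hq)).2, k3, (k6 k3).trans hs0⟩

end Pool.Agent.MP_6d695c_gt.SW

end MrgPart2

-- ======== part 3: formerly Pool.Agent.MP_6d695c_gt.sw.Seen
section MrgPart3

/-! PROJECT SW: curves seen from a box; the zeros inside a box. -/

open scoped ContDiff Topology
open Set Metric Filter Real

namespace Pool.Agent.MP_6d695c_gt.SW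

section
variable {ι : Type} [Fintype ι] {k : ℕ}

/-- restriction to the factors of one box -/
noncomputable def res (e : ι → Fin k) : (Fin k → ℂ) →L[ℝ] (ι → ℂ) :=
  ContinuousLinearMap.pi fun i => ContinuousLinearMap.proj (e i)

theorem norm_res_le (e : ι → Fin k) (z : Fin k → ℂ) : ‖res e z‖ ≤ ‖z‖ :=
  (pi_norm_le_iff_of_nonneg (norm_nonneg _)).2 fun i => norm_le_pi_norm z (e i)

variable {V : Type} [NormedAddCommGroup V] [NormedSpace ℝ V] {n : ℕ}

/-- the coordinates of the box -/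
noncomputable def see (κ : V → Q n) (e : ι → Fin k) (p : V × (Fin k → ℂ)) : Q n × (ι → ℂ) :=
  (κ p.1, res e p.2)

theorem see_smooth {κ : V → Q n} (hκ : ContDiff ℝ ∞ κ) (e : ι → Fin k) :
    ContDiff ℝ ∞ (see κ e) :=
  (hκ.comp contDiff_fst).prodMk ((res e).contDiff.comp contDiff_snd)

theorem see_der {κ : V → Q n} (hκ : ContDiff ℝ ∞ κ) (e : ι → Fin k) (p v : V × (Fin k → ℂ)) :
    fderiv ℝ (see κ e) p v = (fderiv ℝ κ p.1 v.1, res e v.2) := by
  have h := ((hκ.differentiable (by simp) p.1).hasFDerivAt.comp p hasFDerivAt_fst).prodMk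
    ((res e).hasFDerivAt.comp p hasFDerivAt_snd)
  exact congrArg (fun L => L v) h.fderiv

end

theorem seen : SeenStmt := by
  intro V _ _ _ d M l l₀ Pi φ s m bx h ρ ι _ _ H k e G b ε₀ _ hB hG hε₀
  have hκ := (hB.ch b).sκ
  have hK := hB.cpt b (isCompact_cbox _ _) Subset.rfl
  obtain ⟨C, hC, hCb⟩ := exists_fderiv_bound (hκ.of_le (by simp)) hK
  have hob : obox (bx b).n (10 * h) (5 * (bx b).w) ⊆ cbox (bx b).n (10 * h) (5 * (bx b).w) :=
    fun q hq => ⟨hq.1.le, hq.2.le⟩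
  refine ⟨min ε₀ (ε₀ / C), by positivity, fun c hc hn => ?_⟩
  set ε := min ε₀ (ε₀ / C) with hε
  have e1 : ε ≤ ε₀ := min_le_left _ _
  have e2 : C * ε ≤ ε₀ := (le_div_iff₀' hC).1 (min_le_right _ _)
  have hxc : Continuous fun t => (c t).1 := continuous_fst.comp hc.cont
  have hxM : ∀ t, (c t).1 ∈ M := hc.mem
  obtain ⟨τ, hτ, hper⟩ := hc.per
  refine ⟨(see_smooth hκ (e b)).continuous.comp hc.cont,
    ⟨τ, hτ, fun t => by simp only [hper t], fun t => by simp only [mem_ofPred_eq, hper t]⟩, ?_,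
    fun t ht => ht.2.2, fun K hK' hKs => ?_, fun t ht => ?_, fun t ht => ?_⟩
  · have : {t | InBox M (bx b) h (c t).1} = (fun t => (c t).1) ⁻¹'
        ((bx b).N ∩ (bx b).κ ⁻¹' obox (bx b).n (10 * h) (5 * (bx b).w)) := by
      ext t
      exact ⟨fun h => h.2, fun h => ⟨hxM t, h⟩⟩
    rw [this]
    exact ((hB.ch b).par.oN.inter ((isOpen_obox _ _).preimage hκ.continuous)).preimage hxc
  · have : {t | t ∈ {t | InBox M (bx b) h (c t).1} ∧ (bx b).κ (c t).1 ∈ K} =
        (fun t => (c t).1) ⁻¹' ((bx b).Ψ '' K) := by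
      ext t
      rw [mem_preimage, (hB.ch b).par.mem_image ((hKs.trans hob).trans (hB.sub b))]
      exact ⟨fun h => ⟨h.1.1, h.1.2.1, h.2⟩, fun h => ⟨⟨h.1, h.2.1, hKs h.2.2⟩, h.2.2⟩⟩
    rw [this]
    exact (hB.cpt b hK' (hKs.trans hob)).isClosed.preimage hxc
  · obtain ⟨v, h1, h2⟩ := hc.near t
    refine ⟨_, ((see_smooth hκ (e b)).differentiable (by simp) _).hasFDerivAt.comp_hasDerivWithinAt
      t h1, ?_⟩
    rw [← (hG.ins (c t) (hn t) b ht).1, see_der hκ]
    have h3 := hCb _ (((hB.ch b).par.mem_image (hB.sub b)).2 ⟨ht.1, ht.2.1, hob ht.2.2⟩)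
    refine max_le ?_ ?_
    · show ‖fderiv ℝ (bx b).κ (c t).1 v.1 - fderiv ℝ (bx b).κ (c t).1 (ZH l Pi G (c t)).1‖ ≤ ε₀
      rw [← map_sub]
      refine (ContinuousLinearMap.le_opNorm _ _).trans (le_trans ?_ e2)
      exact mul_le_mul h3 ((norm_fst_le (v - ZH l Pi G (c t))).trans h2) (norm_nonneg _) hC.le
    · show ‖res (e b) v.2 - res (e b) (ZH l Pi G (c t)).2‖ ≤ ε₀
      rw [← map_sub]
      exact (norm_res_le _ _).trans (((norm_snd_le (v - ZH l Pi G (c t))).trans h2).trans e1)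
  · obtain ⟨v, h1, h2⟩ := hc.near t
    refine ⟨res (e b) v.2, ((res (e b)).comp (ContinuousLinearMap.snd ℝ V (Fin k → ℂ))).hasFDerivAt
      |>.comp_hasDerivWithinAt t h1, ?_⟩
    have h3 : (1 / 2 : ℝ) • (fun i => (c t).2 (e b i)) = res (e b) (ZH l Pi G (c t)).2 :=
      funext fun i => (hG.out (c t) (hxM t) (hn t) b ht i).symm
    show ‖res (e b) v.2 - (1 / 2 : ℝ) • fun i => (c t).2 (e b i)‖ ≤ ε₀
    rw [h3, ← map_sub]
    exact (norm_res_le _ _).trans (((norm_snd_le (v - ZH l Pi G (c t))).trans h2).trans e1)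

end Pool.Agent.MP_6d695c_gt.SW

end MrgPart3

-- ======== part 4: formerly Pool.Agent.MP_6d695c_gt.sw.Good
section MrgPart4

/-! PROJECT SW: the zeros inside a box. -/

open scoped ContDiff Topology
open Set Metric Filter Real

namespace Pool.Agent.MP_6d695c_gt.SW

section
variable {ι : Type} {k : ℕ}

open Classical in
/-- the factors that do not belong to the box -/
noncomputable def rest (e : ι → Fin k) : (Fin k → ℂ) →L[ℝ] (Fin k → ℂ) :=
  ContinuousLinearMap.pi fun j => if j ∈ range e then 0 else ContinuousLinearMap.proj j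

theorem rest_in (e : ι → Fin k) (z : Fin k → ℂ) {j : Fin k} (h : j ∈ range e) : rest e z j = 0 := by
  simp only [rest, ContinuousLinearMap.pi_apply, if_pos h, zero_apply]

theorem rest_out (e : ι → Fin k) (z : Fin k → ℂ) {j : Fin k} (h : j ∉ range e) :
    rest e z j = z j := by
  simp only [rest, ContinuousLinearMap.pi_apply, if_neg h, ContinuousLinearMap.proj_apply]

variable [Fintype ι]

theorem norm_le_res_rest (e : ι → Fin k) (z : Fin k → ℂ) : ‖z‖ ≤ ‖res e z‖ + ‖rest e z‖ :=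
  (pi_norm_le_iff_of_nonneg (by positivity)).2 fun j => by
    by_cases h : j ∈ range e
    · obtain ⟨i, rfl⟩ := h
      exact (norm_le_pi_norm (res e z) i).trans (le_add_of_nonneg_right (norm_nonneg _))
    · rw [← rest_out e z h]
      exact (norm_le_pi_norm _ j).trans (le_add_of_nonneg_left (norm_nonneg _))

theorem nsq_res {e : ι → Fin k} (he : Function.Injective e) {z : Fin k → ℂ} (h : rest e z = 0) :
    nsq z = nsq (res e z) := by
  refine (Fintype.sum_of_injective e he _ _ (fun j hj => ?_) fun i => rfl).symm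
  rw [← rest_out e z hj, h]
  simp

end

theorem good : GoodStmt := by
  intro V _ _ _ d M l l₀ Pi φ s m bx h ρ ι _ _ H k e G b Ω hA hl hB hG he hρ hΩ hsub
    ⟨Λ, 𝒵, hΛ, hfin, h𝒵Ω, hpos, hgood⟩
  have hκ := (hB.ch b).sκ
  have hP := (hB.ch b).par
  have hh := hB.hpos
  have hw := hB.wpos b
  have hsee := see_smooth hκ (e b)
  set L : V × (Fin k → ℂ) → ℝ := fun p => Λ (see (bx b).κ (e b) p) + nsq (rest (e b) p.2) with hL
  have hrs : ContDiff ℝ ∞ fun p : V × (Fin k → ℂ) => nsq (rest (e b) p.2) :=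
    contDiff_nsq.comp ((rest (e b)).contDiff.comp contDiff_snd)
  have hLs : ContDiff ℝ ∞ L := (hΛ.comp hsee).add hrs
  have hLd : ∀ p v, fderiv ℝ L p v = fderiv ℝ Λ (see (bx b).κ (e b) p)
      (fderiv ℝ (bx b).κ p.1 v.1, res (e b) v.2) + 2 * ipc (rest (e b) p.2) (rest (e b) v.2) :=
    fun p v => by
      have h1 := ((hΛ.differentiable (by simp) _).hasFDerivAt.comp p
        (hsee.differentiable (by simp) p).hasFDerivAt).add
        ((contDiff_nsq.differentiable (by simp) _).hasFDerivAt.comp p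
          ((rest (e b)).hasFDerivAt.comp p hasFDerivAt_snd))
      have h2 : fderiv ℝ L p v = _ := congrArg (fun T => T v) h1.fderiv
      rw [h2, ← see_der hκ, ← fderiv_nsq]
      rfl
  have hrest : ∀ p : V × (Fin k → ℂ), nsq p.2 < 1 / 2 → InBox M (bx b) h p.1 →
      rest (e b) (ZH l Pi G p).2 = (1 / 2 : ℝ) • rest (e b) p.2 := fun p h1 h2 => by
    funext j
    by_cases hj : j ∈ range (e b)
    · simp [rest_in _ _ hj]
    · rw [_root_.Pi.smul_apply, rest_out _ _ hj, rest_out _ _ hj, (hG.ins p h1 b h2).2 j hj]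
  have hprod : ∀ p : V × (Fin k → ℂ), nsq p.2 < 1 / 2 → InBox M (bx b) h p.1 →
      fderiv ℝ L p (ZH l Pi G p) = fderiv ℝ Λ (see (bx b).κ (e b) p)
        (XM (H b) (see (bx b).κ (e b) p)) + nsq (rest (e b) p.2) := fun p h1 h2 => by
    rw [hLd, hrest p h1 h2, ipc_smul, ipc_self]
    exact congrArg₂ (· + ·) (congrArg _ (hG.ins p h1 b h2).1) (by ring)
  have hcb : cbox (bx b).n h (4 * (bx b).w) ⊆ cbox (bx b).n (10 * h) (5 * (bx b).w) :=
    cbox_mono (by linarith) (by linarith)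
  have hF : Set.Finite
      {p | InBox M (bx b) h p.1 ∧ see (bx b).κ (e b) p ∈ 𝒵 ∧ rest (e b) p.2 = 0} := by
    refine Finite.of_injOn (f := see (bx b).κ (e b)) (fun p hp => hp.2.1) ?_ hfin
    intro p hp p' hp' hpp
    refine Prod.ext ?_ ?_
    · rw [← (hP.rm _ hp.1.1 hp.1.2.1).2, ← (hP.rm _ hp'.1.1 hp'.1.2.1).2]
      exact congrArg _ (congrArg Prod.fst hpp)
    · have h1 := norm_le_res_rest (e b) (p.2 - p'.2)
      rw [map_sub, map_sub, hp.2.2, hp'.2.2, show res (e b) p.2 = res (e b) p'.2 from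
        congrArg Prod.snd hpp] at h1
      exact sub_eq_zero.1 (norm_le_zero_iff.1 (by simpa using h1))
  refine ⟨{p | InBox M (bx b) h p.1 ∧ see (bx b).κ (e b) p ∈ 𝒵 ∧ rest (e b) p.2 = 0}, hF,
    fun p hp => ⟨hp.1.1, L, ?_, hLs, ?_, ?_⟩, fun p₀ hp₀ => ?_⟩
  · have hn : nsq p.2 < 1 / 2 := by
      rw [nsq_res he hp.2.2]
      linarith [show nsq (res (e b) p.2) ≤ ρ from (hsub _ (h𝒵Ω hp.2.1)).2]
    have h1 := (hG.ins p hn b hp.1).1.trans (hgood _ hp.2.1).1
    refine Prod.ext ?_ ?_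
    · have h2 := hP.ret hp.1.1 hp.1.2.1 (hA.tan _ hp.1.1 (l p.1 + d1 G p))
      have h3 : fderiv ℝ (bx b).κ p.1 (Pi p.1 (l p.1 + d1 G p)) = 0 := congrArg Prod.fst h1
      rw [h3, map_zero] at h2
      exact h2.symm
    · have h2 := norm_le_res_rest (e b) (ZH l Pi G p).2
      rw [hrest p hn hp.1, hp.2.2, show res (e b) (ZH l Pi G p).2 = 0 from congrArg Prod.snd h1]
        at h2
      exact norm_le_zero_iff.1 (by simpa using h2)
  · refine ContinuousLinearMap.ext fun v => ?_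
    rw [hLd, (hgood _ hp.2.1).2.2.1, hp.2.2]
    simp [ipc]
  · obtain ⟨-, -, -, c, hc, hev⟩ := hgood _ hp.2.1
    rw [nhdsWithin_univ] at hev
    obtain ⟨Lp, hLp, hlip⟩ := hP.lip (isCompact_cbox _ _) (convex_cbox _ _) (hB.sub b)
    have hn : nsq p.2 < 1 / 2 := by
      rw [nsq_res he hp.2.2]
      linarith [show nsq (res (e b) p.2) ≤ ρ from (hsub _ (h𝒵Ω hp.2.1)).2]
    have t1 : ∀ᶠ q in 𝓝 p, q.1 ∈ (bx b).N ∩ (bx b).κ ⁻¹' obox (bx b).n (10 * h) (5 * (bx b).w) :=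
      (continuous_fst.tendsto p).eventually
        ((hP.oN.inter ((isOpen_obox _ _).preimage hκ.continuous)).mem_nhds hp.1.2)
    have t2 : ∀ᶠ q in 𝓝 p, nsq q.2 < 1 / 2 :=
      (contDiff_nsq.continuous.comp continuous_snd).continuousAt.eventually (gt_mem_nhds hn)
    refine ⟨min c 1 / (2 * (Lp + 1) ^ 2), by positivity, ?_⟩
    filter_upwards [self_mem_nhdsWithin, mem_nhdsWithin_of_mem_nhds t1,
      mem_nhdsWithin_of_mem_nhds t2,
      mem_nhdsWithin_of_mem_nhds ((hsee.continuous.tendsto p).eventually hev)] with q a1 a2 a3 a4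
    rw [hprod q a3 ⟨a1, a2⟩]
    set x := ‖see (bx b).κ (e b) q - see (bx b).κ (e b) p‖ with hx
    set y := ‖rest (e b) q.2‖ with hy
    have hx0 : 0 ≤ x := norm_nonneg _
    have hy0 : 0 ≤ y := norm_nonneg _
    have b1 : ‖q.1 - p.1‖ ≤ Lp * x := by
      have := hlip _ ⟨a2.2.1.le, a2.2.2.le⟩ _ ⟨hp.1.2.2.1.le, hp.1.2.2.2.le⟩
      rw [(hP.rm _ a1 a2.1).2, (hP.rm _ hp.1.1 hp.1.2.1).2] at this
      exact this.trans (mul_le_mul_of_nonneg_left
        (norm_fst_le (see (bx b).κ (e b) q - see (bx b).κ (e b) p)) hLp.le)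
    have b2 : ‖q.2 - p.2‖ ≤ x + y := by
      have := norm_le_res_rest (e b) (q.2 - p.2)
      rw [map_sub, map_sub, hp.2.2, sub_zero] at this
      exact this.trans (add_le_add
        (norm_snd_le (see (bx b).κ (e b) q - see (bx b).κ (e b) p)) le_rfl)
    have b3 : ‖q - p‖ ≤ (Lp + 1) * (x + y) := max_le (b1.trans (by nlinarith))
      (b2.trans (by nlinarith))
    have b4 : ‖q - p‖ ^ 2 ≤ 2 * (Lp + 1) ^ 2 * (x ^ 2 + y ^ 2) :=
      (pow_le_pow_left₀ (norm_nonneg _) b3 2).trans (by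
        rw [mul_pow]
        nlinarith [mul_nonneg (sq_nonneg (Lp + 1)) (sq_nonneg (x - y))])
    have b5 := norm_sq_le_nsq (rest (e b) q.2)
    have b6 : min c 1 ≤ c := min_le_left _ _
    have b7 : min c 1 ≤ 1 := min_le_right _ _
    have b8 : 0 < min c 1 := by positivity
    calc _ ≤ min c 1 / (2 * (Lp + 1) ^ 2) * (2 * (Lp + 1) ^ 2 * (x ^ 2 + y ^ 2)) := by gcongr
      _ = min c 1 * x ^ 2 + min c 1 * y ^ 2 := by field_simp
      _ ≤ c * x ^ 2 + 1 * y ^ 2 := by gcongr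
      _ ≤ _ := by linarith
  · have hS : IsCompact (((bx b).Ψ '' cbox (bx b).n h (4 * (bx b).w)) ×ˢ {z | nsq z ≤ 1 / 4} ∩
        see (bx b).κ (e b) ⁻¹' Ω) :=
      ((hB.cpt b (isCompact_cbox _ _) hcb).prod (isCompact_nsq _)).inter_right
        (hΩ.isClosed.preimage hsee.continuous)
    refine (regband _ _ _ (ZH l Pi G) L hS hF (smZH hl hA.sP hG.sm).continuous
      (hLs.of_le (by simp)) (fun p hp hp' => ?_) p₀ hp₀).imp fun ε hε => ⟨hε.1, fun c hc hb =>
      hε.2 c (hc.mono (fun t => ⟨⟨(hP.mem_image (hcb.trans (hB.sub b))).2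
        ⟨(hb t).1.1, (hb t).1.2.1, (hsub _ (hb t).2.2).1⟩, (hb t).2.1⟩, (hb t).2.2⟩) le_rfl)⟩
    · obtain ⟨h1, h2, h3⟩ := (hP.mem_image (hcb.trans (hB.sub b))).1 hp.1.1
      have hI : InBox M (bx b) h p.1 :=
        ⟨h1, h2, h3.1.trans_lt (by linarith), h3.2.trans_lt (by linarith)⟩
      rw [hprod p (by linarith [show nsq p.2 ≤ 1 / 4 from hp.1.2]) hI]
      have h4 := norm_sq_le_nsq (rest (e b) p.2)
      by_cases hz : see (bx b).κ (e b) p ∈ 𝒵
      · have h5 : rest (e b) p.2 ≠ 0 := fun h0 => hp' ⟨hI, hz, h0⟩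
        rw [(hgood _ hz).2.2.1]
        have := pow_pos (norm_pos_iff.2 h5) 2
        simp only [zero_apply]
        linarith
      · linarith [hpos _ hp.2 hz, sq_nonneg ‖rest (e b) p.2‖]

end Pool.Agent.MP_6d695c_gt.SW

end MrgPart4

-- ======== part 5: formerly Pool.Agent.MP_6d695c_gt.sw.Lyap1
section MrgPart5

/-! PROJECT SW: the attractor function through a point without recurrence. -/

open scoped ContDiff Topology
open Set Metric Filter Real

namespace Pool.Agent.MP_6d695c_gt.SW.Lyap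

variable {X : Type} [NormedAddCommGroup X] [NormedSpace ℝ X]

theorem near_shift {c : ℝ → X} {t a : ℝ} {y : X} {ε : ℝ} (h : Near c (t - a) y ε) :
    Near (fun s => c (s - a)) t y ε := by
  obtain ⟨v, h1, h2⟩ := h
  refine ⟨v, ?_, h2⟩
  have h3 : HasDerivWithinAt (fun s => s - a) 1 (Ici t) t :=
    ((hasDerivAt_id t).sub_const a).hasDerivWithinAt
  have h4 := HasDerivWithinAt.scomp (h := fun s => s - a) t h1 h3 fun s hs => by simpa using hs
  rwa [one_smul] at h4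

theorem near_congr {c c' : ℝ → X} {t : ℝ} {y : X} {ε : ℝ} (h : Near c t y ε)
    (he : c' =ᶠ[𝓝[Ici t] t] c) : Near c' t y ε := by
  obtain ⟨v, h1, h2⟩ := h
  exact ⟨v, h1.congr_of_eventuallyEq_of_mem he self_mem_Ici, h2⟩

/-- an `ε`-curve in `D` from `a` to `b` of duration `T` -/
def Arc (D : Set X) (Y : X → X) (ε : ℝ) (a b : X) (T : ℝ) : Prop :=
  0 ≤ T ∧ ∃ c, Crv Y ε c 0 T ∧ c 0 = a ∧ c T = b ∧ ∀ t ∈ Icc 0 T, c t ∈ D

variable {D : Set X} {Y : X → X} {ε : ℝ} {a b e : X} {T T' : ℝ}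

theorem Arc.refl (ha : a ∈ D) : Arc D Y ε a a 0 :=
  ⟨le_rfl, fun _ => a, ⟨continuousOn_const, by simp⟩, rfl, rfl, fun _ _ => ha⟩

theorem Arc.mem (h : Arc D Y ε a b T) : b ∈ D := by
  obtain ⟨hT, c, -, -, c4, c5⟩ := h
  exact c4 ▸ c5 T ⟨hT, le_rfl⟩

theorem Arc.trans (h1 : Arc D Y ε a b T) (h2 : Arc D Y ε b e T') : Arc D Y ε a e (T + T') := by
  obtain ⟨hT, c, ⟨c1, c2⟩, c3, c4, c5⟩ := h1
  obtain ⟨hT', d, ⟨d1, d2⟩, d3, d4, d5⟩ := h2
  obtain ⟨f, e1, e2⟩ : ∃ f : ℝ → X, (∀ t ≤ T, f t = c t) ∧ ∀ t, T ≤ t → f t = d (t - T) := by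
    refine ⟨fun t => if t < T then c t else d (t - T), fun t ht => ?_,
      fun t ht => if_neg (not_lt.2 ht)⟩
    rcases ht.eq_or_lt with rfl | h
    · simp [d3, c4]
    · exact if_pos h
  refine ⟨by linarith, f, ⟨?_, fun t ht => ?_⟩, by rw [e1 0 hT, c3],
    by rw [e2 _ (by linarith), add_sub_cancel_left, d4], fun t ht => ?_⟩
  · rw [← Icc_union_Icc_eq_Icc hT (by linarith : T ≤ T + T')]
    refine ContinuousOn.union_of_isClosed (c1.congr fun t ht => e1 t ht.2) ?_ isClosed_Icc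
      isClosed_Icc
    exact (d1.comp (f := fun s => s - T) (by fun_prop)
      fun t ht => ⟨by linarith [ht.1], by linarith [ht.2]⟩).congr fun t ht => e2 t ht.1
  · rcases lt_or_ge t T with h | h
    · rw [e1 t h.le]
      refine near_congr (c2 t ⟨ht.1, h⟩) ?_
      filter_upwards [mem_nhdsWithin_of_mem_nhds (Iio_mem_nhds h)] with s hs using e1 s hs.le
    · rw [e2 t h]
      refine near_congr (near_shift (d2 (t - T) ⟨by linarith, by linarith [ht.2]⟩)) ?_
      filter_upwards [self_mem_nhdsWithin] with s hs using e2 s (h.trans hs)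
  · rcases le_total t T with h | h
    · rw [e1 t h]; exact c5 t ⟨ht.1, h⟩
    · rw [e2 t h]; exact d5 _ ⟨by linarith, by linarith [ht.2]⟩

theorem Arc.cyc (h : Arc D Y ε a a T) (hT : 0 < T) : ∃ c, Cyc D Y ε c ∧ c 0 = a := by
  obtain ⟨-, c, ⟨c1, c2⟩, c3, c4, c5⟩ := h
  have : Fact (0 < T) := ⟨hT⟩
  obtain ⟨f, hf, hp, e⟩ : ∃ f : ℝ → X, Continuous f ∧ Function.Periodic f T ∧
      ∀ t ∈ Ico 0 T, f t = c t :=
    ⟨fun t => AddCircle.liftIco T 0 c (t : AddCircle T),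
      (AddCircle.liftIco_zero_continuous (c3.trans c4.symm) c1).comp (AddCircle.continuous_mk' T),
      fun t => by simp only [AddCircle.coe_add_period],
      fun t ht => AddCircle.liftIco_zero_coe_apply ht⟩
  refine ⟨f, ⟨hf, ⟨T, hT, hp⟩, fun t => ?_, fun t => ?_⟩, by rw [e 0 ⟨le_rfl, hT⟩, c3]⟩
  · obtain ⟨s, hs, h⟩ := hp.exists_mem_Ico₀ hT t
    rw [h, e s hs]
    exact c5 s (Ico_subset_Icc_self hs)
  · obtain ⟨n, hn, -⟩ := existsUnique_zsmul_near_of_pos' hT t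
    have h1 : Near f (t - n • T) (Y (f (t - n • T))) ε := by
      rw [e _ hn]
      refine near_congr (c2 _ hn) ?_
      filter_upwards [self_mem_nhdsWithin, mem_nhdsWithin_of_mem_nhds (Iio_mem_nhds hn.2)]
        with s hs hs' using e s ⟨hn.1.trans hs, hs'⟩
    have h2 := near_shift h1
    simpa only [hp.sub_zsmul_eq] using h2

variable {E : Type} [NormedAddCommGroup E] [NormedSpace ℝ E] [FiniteDimensional ℝ E] {S : Set X}
  {fl : ℝ → X → X}

/-- steering from a point near `y` to the image of another point near `y` -/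
theorem steer (hS : Sub E S) (hf : IsFlow Y fl) (hi : ∀ t, ∀ x ∈ D, fl t x ∈ D) (hε : 0 < ε)
    {y : X} (hy : y ∈ S) (hD : ∀ᶠ x in 𝓝 y, x ∈ S → x ∈ D) :
    ∃ W ∈ 𝓝 y, ∀ y' ∈ W, y' ∈ S → ∀ y'' ∈ W, y'' ∈ S → Arc D Y ε y' (fl 1 y'') 1 := by
  have := FiniteDimensional.proper_real E
  obtain ⟨g, r, O, N, hP, hN⟩ := hS y hy
  obtain ⟨hO, hg⟩ := hP.rm y hy hN
  have h1 : ∀ᶠ z in 𝓝 (r y), z ∈ O ∧ g z ∈ D := by
    have h2 : Tendsto g (𝓝 (r y)) (𝓝 y) := by
      simpa [hg] using (hP.cg hO).continuousAt.tendsto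
    filter_upwards [hP.oO.mem_nhds hO, h2.eventually hD] with z hz hz'
      using ⟨hz, hz' (hP.gm z hz).1⟩
  obtain ⟨ρ, hρ, hb⟩ := nhds_basis_closedBall.eventually_iff.1 h1
  set G : ℝ × E → X := fun q => fl q.1 (g q.2) with hG
  have hGs : ContDiffOn ℝ ∞ G (univ ×ˢ O) :=
    hf.sm.comp_contDiffOn (f := fun q : ℝ × E => (q.1, g q.2))
      (contDiffOn_fst.prodMk (hP.sg.comp contDiffOn_snd fun q hq => hq.2))
  have ho : IsOpen (univ ×ˢ O : Set (ℝ × E)) := isOpen_univ.prod hP.oO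
  obtain ⟨C, hC⟩ := ((isCompact_Icc (a := (0 : ℝ)) (b := 1)).prod
    (isCompact_closedBall (r y) ρ)).exists_bound_of_continuousOn
      ((hGs.continuousOn_fderiv_of_isOpen ho (by simp)).mono fun q hq => ⟨trivial, (hb hq.2).1⟩)
  have hδ : 0 < min ρ (ε / (2 * (|C| + 1))) := by positivity
  refine ⟨N ∩ r ⁻¹' closedBall (r y) (min ρ (ε / (2 * (|C| + 1)))),
    inter_mem (hP.oN.mem_nhds hN) ((hP.cr hN).continuousAt (closedBall_mem_nhds _ hδ)),
    fun y' h' hS' y'' h'' hS'' => ?_⟩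
  set p := r y'
  set v := r y'' - r y' with hv
  have hvn : ‖v‖ ≤ ε / (|C| + 1) := by
    have h2 := dist_triangle_right (r y'') (r y') (r y)
    have h3 : dist (r y') (r y) ≤ _ := h'.2.trans (min_le_right _ _)
    have h4 : dist (r y'') (r y) ≤ _ := h''.2.trans (min_le_right _ _)
    have h5 : ε / (|C| + 1) = 2 * (ε / (2 * (|C| + 1))) := by field_simp
    rw [hv, ← dist_eq_norm]
    linarith
  have hseg : ∀ t ∈ Icc (0 : ℝ) 1, p + t • v ∈ closedBall (r y) ρ := fun t ht =>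
    (convex_closedBall _ _).add_smul_sub_mem (closedBall_subset_closedBall (min_le_left _ _) h'.2)
      (closedBall_subset_closedBall (min_le_left _ _) h''.2) ht
  have hder : ∀ t ∈ Icc (0 : ℝ) 1, HasDerivAt (fun s => G (s, p + s • v))
      (Y (G (t, p + t • v)) + fderiv ℝ G (t, p + t • v) (0, v)) t := fun t ht => by
    have hd : HasFDerivAt G (fderiv ℝ G (t, p + t • v)) (t, p + t • v) :=
      ((hGs.contDiffAt (ho.mem_nhds ⟨trivial, (hb (hseg t ht)).1⟩)).differentiableAt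
        (by simp)).hasFDerivAt
    have h2 : HasDerivAt (fun s : ℝ => (s, p + s • v)) (1, v) t := by
      simpa using (hasDerivAt_id t).prodMk (((hasDerivAt_id t).smul_const v).const_add p)
    have h3 : HasDerivAt (fun s : ℝ => (s, p + t • v)) (1, 0) t :=
      (hasDerivAt_id t).prodMk (hasDerivAt_const t _)
    have h4 := (hd.comp_hasDerivAt t h3).unique (hf.der (g (p + t • v)) t)
    have h5 := hd.comp_hasDerivAt t h2
    rwa [show ((1 : ℝ), v) = (1, 0) + (0, v) by simp, map_add, h4] at h5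
  refine ⟨zero_le_one, fun s => G (s, p + s • v),
    ⟨fun t ht => (hder t ht).continuousAt.continuousWithinAt, fun t ht => ?_⟩, ?_, ?_,
    fun t ht => hi t _ (hb (hseg t ht)).2⟩
  · have ht' := Ico_subset_Icc_self ht
    refine ⟨_, (hder t ht').hasDerivWithinAt, ?_⟩
    rw [add_sub_cancel_left]
    have h2 := (fderiv ℝ G (t, p + t • v)).le_opNorm (0, v)
    have h3 := hC (t, p + t • v) ⟨ht', hseg t ht'⟩
    have h4 : ‖((0 : ℝ), v)‖ = ‖v‖ := by simp
    have h5 : (|C| + 1) * (ε / (|C| + 1)) = ε := by field_simp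
    rw [h4] at h2
    exact h2.trans (h5 ▸ mul_le_mul (by linarith [le_abs_self C]) hvn (norm_nonneg _)
      (by positivity))
  · simp only [hG, zero_smul, add_zero, hf.zero]
    exact (hP.rm y' hS' h'.1).2
  · simp only [hG, one_smul, hv, p, add_sub_cancel]
    rw [(hP.rm y'' hS'' h''.1).2]

/-- a function that does not decrease under the time one map and jumps at `a` -/
theorem sep [FiniteDimensional ℝ X] (hS : Sub E S) (hf : IsFlow Y fl)
    (hDS : D ⊆ S) (hi : ∀ t, ∀ x ∈ D, fl t x ∈ D) (hε : 0 < ε) {D' : Set X} (hD' : IsCompact D')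
    (hDD : D' ⊆ D) (hint : ∀ y ∈ D', ∀ᶠ x in 𝓝 y, x ∈ S → x ∈ D) (ha : a ∈ D')
    (hno : ∀ c, Cyc D Y ε c → c 0 ≠ a) :
    ∃ b : X → ℝ, ContDiff ℝ ∞ b ∧ HasCompactSupport b ∧ (∀ x ∈ D', b x ≤ b (fl 1 x)) ∧
      b a < b (fl 1 a) := by
  set R := {z | ∃ T, Arc D Y ε a z T} with hR
  have hc : ∀ t, Continuous (fl t) := fun t =>
    hf.sm.continuous.comp (continuous_const.prodMk continuous_id)
  have hinv : ∀ z, fl 1 (fl (-1) z) = z := fun z => by rw [← hf.add, add_neg_cancel, hf.zero]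
  have hinv' : ∀ z, fl (-1) (fl 1 z) = z := fun z => by rw [← hf.add, neg_add_cancel, hf.zero]
  have key : ∀ y ∈ closure R ∩ D', ∀ᶠ z in 𝓝 (fl 1 y), z ∈ D → ∃ T, 0 < T ∧ Arc D Y ε a z T :=
    fun y hy => by
      obtain ⟨W, hW, h⟩ := steer hS hf hi hε (hDS (hDD hy.2)) (hint y hy.2)
      obtain ⟨y', h1, T, h2⟩ := mem_closure_iff_nhds.1 hy.1 W hW
      have h3 : Tendsto (fl (-1)) (𝓝 (fl 1 y)) (𝓝 y) := by
        simpa [hinv'] using (hc (-1)).tendsto (fl 1 y)
      filter_upwards [h3.eventually hW] with z hz hzD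
      have h4 := h2.trans (h y' h1 (hDS h2.mem) _ hz (hDS (hi _ _ hzD)))
      rw [hinv] at h4
      exact ⟨T + 1, by linarith [h2.1], h4⟩
  have hA : IsCompact (fl 1 '' (closure R ∩ D')) := (hD'.inter_left isClosed_closure).image (hc 1)
  have hB : IsOpen ({a} ∪ closure (D \ R))ᶜ :=
    (isClosed_singleton.union isClosed_closure).isOpen_compl
  obtain ⟨b, h1, h2, h3, h4, h5⟩ := exists_cut hA hB (by
    rintro _ ⟨y, hy, rfl⟩ (h | h)
    · obtain ⟨T, hT, h'⟩ := (key y hy).self_of_nhds (hi _ _ (hDD hy.2))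
      rw [show fl 1 y = a from h] at h'
      obtain ⟨c, h1, h2⟩ := h'.cyc hT
      exact hno c h1 h2
    · obtain ⟨z, h1, h2⟩ := mem_closure_iff_nhds.1 h _ (key y hy)
      obtain ⟨T, -, h'⟩ := h1 h2.1
      exact h2.2 ⟨T, h'⟩)
  have h0 : ∀ x ∈ {a} ∪ closure (D \ R), b x = 0 := fun x hx =>
    image_eq_zero_of_notMem_tsupport fun h => h3 h hx
  have h6 : ∀ x ∈ D', x ∈ R → b (fl 1 x) = 1 := fun x hx hx' =>
    (h4 _ ⟨x, ⟨subset_closure hx', hx⟩, rfl⟩).self_of_nhds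
  refine ⟨b, h1, h2, fun x hx => ?_, ?_⟩
  · by_cases h : x ∈ R
    · rw [h6 x hx h]; exact (h5 x).2
    · rw [h0 x (Or.inr (subset_closure ⟨hDD hx, h⟩))]; exact (h5 _).1
  · rw [h0 a (Or.inl rfl), h6 a ha ⟨0, Arc.refl (hDD ha)⟩]
    exact one_pos

/-- the average of `b` along the flow -/
theorem avg [FiniteDimensional ℝ X] {K : NNReal} (hY : ContDiff ℝ ∞ Y) (hK : LipschitzWith K Y)
    (hf : IsFlow Y fl) {b : X → ℝ} (hb : ContDiff ℝ ∞ b) (hc : HasCompactSupport b) :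
    ∃ u : X → ℝ, ContDiff ℝ ∞ u ∧ ∀ x, fderiv ℝ u x (Y x) = b (fl 1 x) - b x := by
  have := FiniteDimensional.complete ℝ X
  obtain ⟨K', hK'⟩ := hb.lipschitzWith_of_hasCompactSupport hc (by simp)
  obtain ⟨F, hF⟩ := exists_isFlow (f := fun q : X × ℝ => (Y q.1, b q.1))
    ((hY.comp contDiff_fst).prodMk (hb.comp contDiff_fst))
    ((hK.comp LipschitzWith.prod_fst).prodMk (hK'.comp LipschitzWith.prod_fst))
  have hu : ContDiff ℝ ∞ fun x : X => (F 1 (x, 0)).2 :=
    (hF.sm.comp (contDiff_const.prodMk (contDiff_id.prodMk contDiff_const))).snd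
  refine ⟨_, hu, fun x => ?_⟩
  obtain ⟨P, -, -, hP⟩ := exists_primitive (b := fun s => b (fl s x))
    (hb.comp (hf.sm.comp (contDiff_id.prodMk contDiff_const)))
  have h1 : ∀ τ, (F 1 (fl τ x, 0)).2 = P (1 + τ) - P τ := fun τ => by
    have h2 := hF.eq_of (c := fun t => (fl (t + τ) x, P (t + τ) - P τ)) (a := 0) (b := 1)
      fun t _ => ((hf.der x (t + τ)).comp_add_const t τ).prodMk
        (((hP (t + τ)).comp_add_const t τ).sub_const _)
    simp only [sub_zero, zero_add, sub_self] at h2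
    rw [← h2]
  have h3 : HasDerivAt (fun τ => P (1 + τ) - P τ) (b (fl 1 x) - b x) 0 := by
    have h4 := ((hP (1 + 0)).comp_const_add 1 0).sub (hP 0)
    simp only [add_zero, hf.zero] at h4
    exact h4
  have h5 := (hu.differentiable (by simp) (fl 0 x)).hasFDerivAt.comp_hasDerivAt 0 (hf.der x 0)
  rw [hf.zero] at h5
  exact h5.unique (h3.congr_of_eventuallyEq (Eventually.of_forall h1))

end Pool.Agent.MP_6d695c_gt.SW.Lyap

end MrgPart5

-- ======== part 6: formerly Pool.Agent.MP_6d695c_gt.sw.Lyap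
section MrgPart6

/-! PROJECT SW: the global Lyapunov function. -/

open scoped ContDiff Topology
open Set Metric Filter Real

namespace Pool.Agent.MP_6d695c_gt.SW

namespace Lyap

variable {X : Type} [NormedAddCommGroup X] [NormedSpace ℝ X] {S 𝒵 : Set X} {Y Y' : X → X}
  {ψ : X → ℝ}

theorem contD {u : X → ℝ} (hu : ContDiff ℝ ∞ u) (hY : ContDiff ℝ ∞ Y) :
    Continuous fun x => fderiv ℝ u x (Y x) :=
  (hu.continuous_fderiv (by simp)).clm_apply hY.continuous

theorem der_add {u w : X → ℝ} (hu : ContDiff ℝ ∞ u) (hw : ContDiff ℝ ∞ w) (A : ℝ) (x v : X) :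
    fderiv ℝ (fun y => u y + A * w y) x v = fderiv ℝ u x v + A * fderiv ℝ w x v := by
  have h := (hu.differentiable (by simp) x).hasFDerivAt.add
    ((hw.differentiable (by simp) x).hasFDerivAt.const_mul A)
  have h' : fderiv ℝ (fun y => u y + A * w y) x = _ := h.fderiv
  rw [h']
  simp

theorem cpt (hψ : ContDiff ℝ ∞ ψ) (hK : IsCompact {x ∈ S | ψ x ≤ 5}) {J : Set ℝ} (hJ : IsClosed J)
    (h5 : ∀ t ∈ J, t ≤ 5) : IsCompact {x ∈ S | ψ x ∈ J} := by
  have : {x ∈ S | ψ x ∈ J} = {x ∈ S | ψ x ≤ 5} ∩ ψ ⁻¹' J :=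
    Set.ext fun x => ⟨fun h => ⟨⟨h.1, h5 _ h.2⟩, h.2⟩, fun h => ⟨h.1.1, h.2⟩⟩
  rw [this]
  exact hK.inter_right (hJ.preimage hψ.continuous)

/-- no periodic pseudo-orbit of the cut-off field -/
theorem nocyc (hY : ContDiff ℝ ∞ Y) (hψ : ContDiff ℝ ∞ ψ) (hK : IsCompact {x ∈ S | ψ x ≤ 5})
    (hpos : ∀ x ∈ S, 2 ≤ ψ x → 0 < fderiv ℝ ψ x (Y x)) (hY' : ∀ x ∈ S, ψ x ≤ 4 → Y' x = Y x)
    {a : X} (ha : ψ a ≤ 3)
    (h : ψ a ≤ 2 → ∃ ε, 0 < ε ∧ ∀ c, Cyc {x ∈ S | ψ x ≤ 2} Y ε c → ∀ t, c t ≠ a) :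
    ∃ ε, 0 < ε ∧ ∀ c, Cyc {x ∈ S | ψ x ≤ 5} Y' ε c → c 0 ≠ a := by
  obtain ⟨ε₀, hε₀, h0⟩ : ∃ ε, 0 < ε ∧ ∀ c, Cyc {x ∈ S | ψ x ≤ 2} Y ε c → ∀ t, c t ≠ a := by
    by_cases h2 : ψ a ≤ 2
    · exact h h2
    · exact ⟨1, one_pos, fun c hc t e => h2 (e ▸ (hc.mem t).2)⟩
  obtain ⟨m, hm, hmb⟩ := exists_pos_le (cpt hψ hK (isClosed_Icc (a := 2) (b := 4))
    fun t ht => by linarith [ht.2]) (contD hψ hY).continuousOn fun x hx => hpos x hx.1 hx.2.1
  obtain ⟨C, hC, hCb⟩ := exists_fderiv_bound (hψ.of_le (by simp)) hK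
  refine ⟨min ε₀ (m / (2 * C)), by positivity, fun c hc e => ?_⟩
  have hε : C * min ε₀ (m / (2 * C)) ≤ m / 2 := by
    have := min_le_right ε₀ (m / (2 * C))
    rw [le_div_iff₀ (by positivity)] at this
    linarith
  obtain ⟨τ, hτ, hp⟩ := hc.per
  have hcont : Continuous fun s => ψ (c s) := hψ.continuous.comp hc.cont
  have h1 : ∀ t, ψ (c t) ∉ Ioo (2 : ℝ) 4 := band (f := fun s => ψ (c s)) hcont hτ
    (fun s => by simp only [hp s]) fun s hs =>
      ((hc.near s).comp (hψ.differentiable (by simp) _)).rd.mono fun v hv => by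
        have h2 := mul_le_mul_of_nonneg_right (hCb _ (hc.mem s))
          (show 0 ≤ min ε₀ (m / (2 * C)) by positivity)
        have h3 := hmb (c s) ⟨(hc.mem s).1, hs.1.le, hs.2.le⟩
        rw [hY' _ (hc.mem s).1 hs.2.le] at hv
        linarith [hv.1]
  have h2 : ∀ t, ψ (c t) ≤ 2 := fun t => by
    by_contra h3
    have h4 : 4 ≤ ψ (c t) := not_lt.1 fun h => h1 t ⟨not_le.1 h3, h⟩
    obtain ⟨s, hs⟩ := intermediate_value_univ 0 t hcont
      (show (3 : ℝ) ∈ Icc (ψ (c 0)) (ψ (c t)) from ⟨e ▸ ha, by linarith⟩)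
    exact h1 s (by simp only [] at hs; rw [hs]; norm_num)
  refine h0 c ⟨hc.cont, ⟨τ, hτ, hp⟩, fun t => ⟨(hc.mem t).1, h2 t⟩, fun t => ?_⟩ 0 e
  rw [← hY' _ (hc.mem t).1 (by linarith [h2 t])]
  exact (hc.near t).mono (min_le_left _ _)

/-- finite sums of local functions -/
theorem cover (hY : ContDiff ℝ ∞ Y) {D K : Set X} (hK : IsCompact K)
    (h : ∀ a ∈ K, ∃ u : X → ℝ, ContDiff ℝ ∞ u ∧ (∀ x ∈ D, 0 ≤ fderiv ℝ u x (Y x)) ∧
      0 < fderiv ℝ u a (Y a)) :
    ∃ u : X → ℝ, ContDiff ℝ ∞ u ∧ ∀ x ∈ D, 0 ≤ fderiv ℝ u x (Y x) ∧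
      (x ∈ K → 0 < fderiv ℝ u x (Y x)) := by
  refine hK.induction_on (p := fun K => ∃ u : X → ℝ, ContDiff ℝ ∞ u ∧
    ∀ x ∈ D, 0 ≤ fderiv ℝ u x (Y x) ∧ (x ∈ K → 0 < fderiv ℝ u x (Y x)))
    ⟨fun _ => 0, contDiff_const, fun x _ => by simp⟩ ?_ ?_ ?_
  · rintro s t hst ⟨u, h1, h2⟩
    exact ⟨u, h1, fun x hx => ⟨(h2 x hx).1, fun h => (h2 x hx).2 (hst h)⟩⟩
  · rintro s t ⟨u, h1, h2⟩ ⟨w, h3, h4⟩
    refine ⟨fun y => u y + 1 * w y, h1.add (contDiff_const.mul h3), fun x hx => ?_⟩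
    rw [der_add h1 h3]
    obtain ⟨h5, h6⟩ := h2 x hx
    obtain ⟨h7, h8⟩ := h4 x hx
    exact ⟨by linarith, fun h => h.elim (fun h => by linarith [h6 h]) fun h => by linarith [h8 h]⟩
  · intro a ha
    obtain ⟨u, h1, h2, h3⟩ := h a ha
    exact ⟨_, mem_nhdsWithin_of_mem_nhds ((contD h1 hY).continuousAt.eventually (lt_mem_nhds h3)),
      u, h1, fun x hx => ⟨h2 x hx, id⟩⟩

theorem good_congr {p : X} {u w : X → ℝ} (h : GoodWith S Y p u) (hw : ContDiff ℝ ∞ w)
    (he : w =ᶠ[𝓝 p] u) : GoodWith S Y p w := by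
  obtain ⟨h1, -, h3, c, hc, h4⟩ := h
  refine ⟨h1, hw, he.fderiv_eq.trans h3, c, hc, ?_⟩
  filter_upwards [h4, mem_nhdsWithin_of_mem_nhds (he.fderiv (𝕜 := ℝ))] with x h5 h6
  rwa [show fderiv ℝ w x = _ from h6]

/-- one function for all the zeros -/
theorem zeros [FiniteDimensional ℝ X] (hZ : 𝒵.Finite) (h : ∀ p ∈ 𝒵, ∃ u, GoodWith S Y p u) :
    ∃ w : X → ℝ, ContDiff ℝ ∞ w ∧ ∀ p ∈ 𝒵, GoodWith S Y p w := by
  induction 𝒵, hZ using Set.Finite.induction_on with
  | empty => exact ⟨fun _ => 0, contDiff_const, by simp⟩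
  | @insert z Z hz hZ ih =>
    obtain ⟨w, hw, h1⟩ := ih fun p hp => h p (mem_insert_of_mem _ hp)
    obtain ⟨u, hu⟩ := h z (mem_insert _ _)
    obtain ⟨b, hb, -, h2, h3, -⟩ := exists_cut (isCompact_singleton (x := z))
      hZ.isClosed.isOpen_compl (singleton_subset_iff.2 hz)
    have hs : ContDiff ℝ ∞ fun x => w x + b x * (u x - w x) := hw.add (hb.mul (hu.2.1.sub hw))
    refine ⟨_, hs, ?_⟩
    rintro p (rfl | hp)
    · refine good_congr hu hs ?_
      filter_upwards [h3 p rfl] with x hx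
      rw [hx]; ring
    · refine good_congr (h1 p hp) hs ?_
      filter_upwards [notMem_tsupport_iff_eventuallyEq.1 fun h => h2 h hp] with x hx
      rw [show b x = 0 from hx]; ring

theorem good_smul {p : X} {w : X → ℝ} (h : GoodWith S Y p w) {θ : ℝ} (hθ : 0 < θ) :
    GoodWith S Y p fun y => 0 + θ * w y := by
  obtain ⟨h1, h2, h3, c, hc, h4⟩ := h
  have e := der_add (u := fun _ => 0) contDiff_const h2 θ
  refine ⟨h1, contDiff_const.add (contDiff_const.mul h2), ?_, θ * c, by positivity, ?_⟩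
  · ext v
    rw [e, h3]
    simp
  · filter_upwards [h4] with x hx
    rw [e, mul_assoc]
    simpa using mul_le_mul_of_nonneg_left hx hθ.le

/-- the Lyapunov function on the inner part -/
theorem inner [FiniteDimensional ℝ X] (hY : ContDiff ℝ ∞ Y) {D K : Set X} (hK : IsCompact K)
    (hKS : K ⊆ S) (hD : ∀ y ∈ K, ∀ᶠ x in 𝓝 y, x ∈ S → x ∈ D) (hZ : 𝒵.Finite)
    (hg : ∀ p ∈ 𝒵, ∃ u, GoodWith S Y p u)
    (h : ∀ a ∈ K, a ∉ 𝒵 → ∃ u : X → ℝ, ContDiff ℝ ∞ u ∧ (∀ x ∈ D, 0 ≤ fderiv ℝ u x (Y x)) ∧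
      0 < fderiv ℝ u a (Y a)) :
    ∃ Φ : X → ℝ, ContDiff ℝ ∞ Φ ∧ ∀ x ∈ K, 0 < fderiv ℝ Φ x (Y x) ∨ GoodFor S Y Φ x := by
  obtain ⟨w, hw, hwg⟩ := zeros hZ hg
  set G := interior {x | x ∈ S → x ∈ 𝒵 ∨ 0 < fderiv ℝ w x (Y x)} with hG
  have hZG : ∀ p ∈ 𝒵, p ∈ G := fun p hp => by
    obtain ⟨-, -, -, c, hc, h4⟩ := hwg p hp
    refine mem_interior_iff_mem_nhds.2 ?_
    filter_upwards [eventually_nhdsWithin_iff.1 h4] with x hx hxS
    by_cases e : x = p
    · exact Or.inl (e ▸ hp)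
    · have : 0 < ‖x - p‖ := norm_pos_iff.2 (sub_ne_zero.2 e)
      exact Or.inr (lt_of_lt_of_le (by positivity) (hx hxS))
  have hKD : K ⊆ D := fun y hy => (hD y hy).self_of_nhds (hKS hy)
  have hK' : IsCompact (K \ G) := hK.diff isOpen_interior
  obtain ⟨u, hu, hup⟩ := cover hY hK' fun a ha => h a ha.1 fun hz => ha.2 (hZG a hz)
  obtain ⟨m, hm, hmb⟩ := exists_pos_le hK' (contD hu hY).continuousOn
    fun x hx => (hup x (hKD hx.1)).2 hx
  obtain ⟨C, hC⟩ := hK'.exists_bound_of_continuousOn (contD hw hY).continuousOn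
  have hθ : 0 < m / (|C| + 1) := by positivity
  refine ⟨fun y => u y + m / (|C| + 1) * w y, hu.add (contDiff_const.mul hw), fun x hx => ?_⟩
  by_cases hz : x ∈ 𝒵
  · refine Or.inr ⟨_, good_smul (hwg x hz) hθ, ?_⟩
    filter_upwards [self_mem_nhdsWithin, mem_nhdsWithin_of_mem_nhds (hD x hx)] with y h1 h2
    rw [der_add hu hw, der_add contDiff_const hw]
    simpa using (hup y (h2 h1)).1
  refine Or.inl ?_
  rw [der_add hu hw]
  by_cases hx' : x ∈ G
  · have h1 := (interior_subset hx' (hKS hx)).resolve_left hz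
    exact add_pos_of_nonneg_of_pos (hup x (hKD hx)).1 (mul_pos hθ h1)
  · have h1 := hmb x ⟨hx, hx'⟩
    have h2 := (abs_le.1 ((hC x ⟨hx, hx'⟩).trans (le_abs_self C))).1
    have h3 : m / (|C| + 1) * (|C| + 1) = m := by field_simp
    nlinarith

/-- the outer part -/
theorem outer (hψ : ContDiff ℝ ∞ ψ) (hpos : ∀ x ∈ S, 2 ≤ ψ x → 0 < fderiv ℝ ψ x (Y x)) :
    ∃ Θ : X → ℝ, ContDiff ℝ ∞ Θ ∧ (∀ x, 3 ≤ ψ x → Θ x = ψ x) ∧
      ∀ x ∈ S, 0 ≤ fderiv ℝ Θ x (Y x) ∧ (7 / 3 ≤ ψ x → 0 < fderiv ℝ Θ x (Y x)) := by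
  obtain ⟨b, hb, h1, h0, h2, h3⟩ := exists_step (show (2 : ℝ) < 7 / 3 by norm_num)
  have hs : ContDiff ℝ ∞ fun x => ψ x * (1 - b (ψ x)) := hψ.mul (contDiff_const.sub (hb.comp hψ))
  refine ⟨_, hs, fun x hx => by rw [h0 _ (by linarith), sub_zero, mul_one], fun x hx => ?_⟩
  have hd : HasDerivAt (fun t => t * (1 - b t)) (1 * (1 - b (ψ x)) + ψ x * -deriv b (ψ x)) (ψ x) :=
    (hasDerivAt_id _).mul ((hb.differentiable (by simp) _).hasDerivAt.const_sub 1)
  have h4 : fderiv ℝ (fun x => ψ x * (1 - b (ψ x))) x = _ :=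
    (hd.comp_hasFDerivAt x (hψ.differentiable (by simp) x).hasFDerivAt).fderiv
  rcases lt_or_ge (ψ x) 2 with h | h
  · have h5 : (fun x => ψ x * (1 - b (ψ x))) =ᶠ[𝓝 x] fun _ => 0 := by
      filter_upwards [hψ.continuous.continuousAt.eventually (gt_mem_nhds h)] with y hy
      rw [h1 _ hy.le, sub_self, mul_zero]
    rw [h5.fderiv_eq]
    exact ⟨by simp, fun h' => by linarith⟩
  · rw [h4, smul_apply, smul_eq_mul]
    have h5 := hpos x hx h
    have h6 : 0 ≤ ψ x * -deriv b (ψ x) := mul_nonneg (by linarith) (by linarith [h3 (ψ x)])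
    refine ⟨mul_nonneg (by linarith [(h2 (ψ x)).2]) h5.le, fun h' => mul_pos ?_ h5⟩
    rw [h0 _ h']
    linarith

end Lyap

open Lyap in
theorem lyap (aflow : AFlowStmt) : LyapStmt := by
  intro X E _ _ _ _ _ _ S 𝒵 Y ψ hS hY hψ htg hK hpos hZ hg hno
  obtain ⟨Y', K, fl, hY', hL, he, hf, hi⟩ := aflow X E S Y ψ 4 hS hY hψ htg (by
    rwa [show (4 : ℝ) + 1 = 5 by norm_num])
  rw [show (4 : ℝ) + 1 = 5 by norm_num] at hi
  have hlt : ∀ {y : X} {c : ℝ}, ψ y < c → ∀ᶠ x in 𝓝 y, ψ x < c := fun h =>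
    hψ.continuous.continuousAt.eventually (gt_mem_nhds h)
  obtain ⟨Φ₀, hΦ₀, hin⟩ := inner (S := S) (D := {x ∈ S | ψ x ≤ 3}) hY
    (cpt hψ hK (isClosed_Iic (a := 7 / 3)) fun t ht => le_trans ht (by norm_num))
    (fun x hx => hx.1)
    (fun y hy => (hlt (lt_of_le_of_lt hy.2 (by norm_num : (7 / 3 : ℝ) < 3))).mono
      fun x hx h => ⟨h, hx.le⟩) hZ (fun p hp => (hg p hp).2) fun a ha hz => by
      have ha3 : ψ a ≤ 3 := le_trans ha.2 (by norm_num)
      obtain ⟨ε, hε, hc⟩ := nocyc hY hψ hK hpos he ha3 fun h => hno a ha.1 h hz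
      obtain ⟨b, h1, h2, h3, h4⟩ := sep (D := {x ∈ S | ψ x ≤ 5}) (D' := {x ∈ S | ψ x ∈ Iic 3})
        hS hf (fun x hx => hx.1) (fun t x hx => hi t x hx.1 hx.2) hε
        (cpt hψ hK isClosed_Iic fun t ht => le_trans ht (by norm_num))
        (fun x hx => ⟨hx.1, le_trans hx.2 (by norm_num)⟩)
        (fun y hy => (hlt (lt_of_le_of_lt hy.2 (by norm_num : (3 : ℝ) < 5))).mono
          fun x hx h => ⟨h, hx.le⟩) ⟨ha.1, ha3⟩ hc
      obtain ⟨u, hu, hd⟩ := avg hY' hL hf h1 h2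
      refine ⟨u, hu, fun x hx => ?_, ?_⟩
      · rw [← he x hx.1 (by linarith [hx.2]), hd]
        exact sub_nonneg.2 (h3 x hx)
      · rw [← he a ha.1 (by linarith), hd]
        exact sub_pos.2 h4
  obtain ⟨Θ, hΘ, hΘ1, hΘ2⟩ := outer hψ hpos
  obtain ⟨χ, hχ, hχ1, hχ0, -⟩ := exists_step (show (8 / 3 : ℝ) < 3 by norm_num)
  have hs : ContDiff ℝ ∞ fun x => χ (ψ x) * Φ₀ x := (hχ.comp hψ).mul hΦ₀
  have hK' := cpt hψ hK (isClosed_Icc (a := 7 / 3) (b := 4)) fun t ht => by linarith [ht.2]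
  obtain ⟨m, hm, hmb⟩ := exists_pos_le hK' (contD hΘ hY).continuousOn
    fun x hx => (hΘ2 x hx.1).2 hx.2.1
  obtain ⟨C, hC⟩ := hK'.exists_bound_of_continuousOn (contD hs hY).continuousOn
  have hA : 0 < (|C| + 1) / m := by positivity
  refine ⟨fun x => χ (ψ x) * Φ₀ x + (|C| + 1) / m * Θ x, (|C| + 1) / m, 0,
    hs.add (contDiff_const.mul hΘ), hA, fun x hx => by
      simp only [hχ0 _ hx, hΘ1 x hx, zero_mul, zero_add, add_zero], fun x hx hx4 => ?_⟩
  have hge : ∀ y ∈ S, ψ y < 8 / 3 → fderiv ℝ Φ₀ y (Y y) ≤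
      fderiv ℝ (fun x => χ (ψ x) * Φ₀ x + (|C| + 1) / m * Θ x) y (Y y) := fun y hy h => by
    have h1 : (fun x => χ (ψ x) * Φ₀ x) =ᶠ[𝓝 y] Φ₀ := by
      filter_upwards [hlt h] with z hz
      rw [hχ1 _ hz.le, one_mul]
    rw [der_add hs hΘ, h1.fderiv_eq]
    exact le_add_of_nonneg_right (mul_nonneg hA.le (hΘ2 y hy).1)
  rcases le_total (ψ x) (7 / 3) with h | h
  · have h' : ψ x < 8 / 3 := by linarith
    rcases hin x ⟨hx, h⟩ with h1 | ⟨u, h1, h2⟩
    · exact Or.inl (h1.trans_le (hge x hx h'))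
    · refine Or.inr ⟨u, h1, ?_⟩
      filter_upwards [h2, self_mem_nhdsWithin, mem_nhdsWithin_of_mem_nhds (hlt h')]
        with y h3 h4 h5 using h3.trans (hge y h4 h5)
  · refine Or.inl ?_
    rw [der_add hs hΘ]
    have h1 := mul_le_mul_of_nonneg_left (hmb x ⟨hx, h, hx4⟩) hA.le
    have h2 := (abs_le.1 ((hC x ⟨hx, h, hx4⟩).trans (le_abs_self C))).1
    have h3 : (|C| + 1) / m * m = |C| + 1 := by field_simp
    linarith

end Pool.Agent.MP_6d695c_gt.SW

end MrgPart6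

-- ======== part 7: formerly Pool.Agent.MP_6d695c_gt.sw.Wcrit
section MrgPart7

/-! PROJECT SW, row WCRIT: criterion for Morse and gradient-like. -/

open scoped Manifold ContDiff Topology
open Set Metric Filter Real

namespace Pool.Agent.MP_6d695c_gt.SW

namespace Wcr

variable {E : Type} [NormedAddCommGroup E] [NormedSpace ℝ E]

theorem slope {F : Type} [NormedAddCommGroup F] [NormedSpace ℝ F] {A : E → F} {y : E}
    (hA : DifferentiableAt ℝ A y) (h0 : A y = 0) (v : E) :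
    Tendsto (fun t : ℝ => t⁻¹ • A (y + t • v)) (𝓝[≠] 0) (𝓝 (fderiv ℝ A y v)) := by
  have h1 : HasDerivAt (fun t : ℝ => y + t • v) v 0 := by
    simpa using ((hasDerivAt_id (0 : ℝ)).smul_const v).const_add y
  have h2 := HasFDerivAt.comp_hasDerivAt_of_eq (0 : ℝ) hA.hasFDerivAt h1 (by simp)
  simpa [h0] using h2.tendsto_slope_zero

/-- the second order term of a quadratic lower bound -/
theorem quad {A : E → E →L[ℝ] ℝ} {W : E → E} {y : E} {c : ℝ} (hA : DifferentiableAt ℝ A y)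
    (hW : DifferentiableAt ℝ W y) (A0 : A y = 0) (W0 : W y = 0)
    (h : ∀ᶠ z in 𝓝 y, c * ‖z - y‖ ^ 2 ≤ A z (W z)) (v : E) :
    c * ‖v‖ ^ 2 ≤ fderiv ℝ A y v (fderiv ℝ W y v) := by
  have h1 : Tendsto (fun t : ℝ => (t⁻¹ • A (y + t • v)) (t⁻¹ • W (y + t • v))) (𝓝[≠] 0)
      (𝓝 (fderiv ℝ A y v (fderiv ℝ W y v))) :=
    ((isBoundedBilinearMap_apply (𝕜 := ℝ) (E := E) (F := ℝ)).continuous.tendsto
      (fderiv ℝ A y v, fderiv ℝ W y v)).comp ((slope hA A0 v).prodMk_nhds (slope hW W0 v))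
  have h2 : Tendsto (fun t : ℝ => y + t • v) (𝓝[≠] 0) (𝓝 y) :=
    tendsto_nhdsWithin_of_tendsto_nhds
      ((by fun_prop : Continuous fun t : ℝ => y + t • v).tendsto' 0 y (by simp))
  refine ge_of_tendsto h1 ?_
  filter_upwards [h2.eventually h, self_mem_nhdsWithin] with t k ht
  have ht' : t ≠ 0 := ht
  rw [add_sub_cancel_left, norm_smul, mul_pow, Real.norm_eq_abs, sq_abs] at k
  have e : (t⁻¹ • A (y + t • v)) (t⁻¹ • W (y + t • v)) =
      (t ^ 2)⁻¹ * A (y + t • v) (W (y + t • v)) := by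
    simp only [smul_apply, map_smul, smul_eq_mul]
    field_simp
  rw [e, le_inv_mul_iff₀ (by positivity)]
  linarith

theorem lin_bound {F : Type} [NormedAddCommGroup F] [NormedSpace ℝ F] {A : E → F} {y : E}
    (hA : DifferentiableAt ℝ A y) (h0 : A y = 0) :
    ∃ C, 0 < C ∧ ∀ᶠ z in 𝓝 y, ‖A z‖ ^ 2 ≤ C * ‖z - y‖ ^ 2 := by
  obtain ⟨C, hC, h⟩ := hA.hasFDerivAt.isBigO_sub.exists_pos
  refine ⟨C ^ 2, by positivity, ?_⟩
  filter_upwards [h.bound] with z hz
  rw [h0, sub_zero] at hz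
  rw [← mul_pow]
  gcongr

/-- a good zero in a vector space -/
theorem good [FiniteDimensional ℝ E] {A B : E → E →L[ℝ] ℝ} {W : E → E} {y : E} {c : ℝ}
    (hA : DifferentiableAt ℝ A y) (hB : DifferentiableAt ℝ B y) (hW : DifferentiableAt ℝ W y)
    (B0 : B y = 0) (W0 : W y = 0) (hc : 0 < c)
    (h : ∀ᶠ z in 𝓝 y, c * ‖z - y‖ ^ 2 ≤ B z (W z) ∧ B z (W z) ≤ A z (W z)) :
    (∀ u, (∀ v, fderiv ℝ A y u v = 0) → u = 0) ∧
      ∃ δ, 0 < δ ∧ ∀ᶠ z in 𝓝 y, δ * (‖W z‖ ^ 2 + ‖A z‖ ^ 2) ≤ A z (W z) := by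
  have z0 : ∀ v : E, c * ‖v‖ ^ 2 ≤ 0 → v = 0 := fun v hv => by
    by_contra hne
    have := norm_pos_iff.2 hne
    have : 0 < c * ‖v‖ ^ 2 := by positivity
    linarith
  have h' : ∀ᶠ z in 𝓝 y, c * ‖z - y‖ ^ 2 ≤ A z (W z) := h.mono fun z hz => hz.1.trans hz.2
  have hinj : Function.Injective (fderiv ℝ W y).toLinearMap :=
    (injective_iff_map_eq_zero _).2 fun v hv => z0 v (by
      have := quad hB hW B0 W0 (h.mono fun z hz => hz.1) v
      rwa [show fderiv ℝ W y v = 0 from hv, map_zero] at this)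
  have hmin : IsLocalMin (fun z => A z (W z)) y := h'.mono fun z hz => by
    simp only [W0, map_zero]
    exact le_trans (by positivity) hz
  have A0 : A y = 0 := by
    ext w
    obtain ⟨v, rfl⟩ := LinearMap.injective_iff_surjective.1 hinj w
    have := congrArg (fun L => L v) (hmin.hasFDerivAt_eq_zero
      (hA.hasFDerivAt.clm_apply hW.hasFDerivAt))
    simpa [W0] using this
  refine ⟨fun u hu => z0 u (by simpa [hu] using quad hA hW A0 W0 h' u), ?_⟩
  obtain ⟨C₁, p1, b1⟩ := lin_bound hW W0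
  obtain ⟨C₂, p2, b2⟩ := lin_bound hA A0
  refine ⟨c / (C₁ + C₂), by positivity, ?_⟩
  filter_upwards [h', b1, b2] with z k k1 k2
  refine le_trans ?_ k
  rw [div_mul_eq_mul_div, div_le_iff₀ (by positivity), mul_assoc]
  exact mul_le_mul_of_nonneg_left (by linarith) hc.le

/-- a regular point in a vector space -/
theorem reg {A : E → E →L[ℝ] ℝ} {W : E → E} {y : E} (hA : ContinuousAt A y)
    (hW : ContinuousAt W y) (h : 0 < A y (W y)) :
    ∃ δ, 0 < δ ∧ ∀ᶠ z in 𝓝 y, δ * (‖W z‖ ^ 2 + ‖A z‖ ^ 2) ≤ A z (W z) := by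
  refine ⟨A y (W y) / (‖W y‖ ^ 2 + ‖A y‖ ^ 2 + 1), by positivity, ?_⟩
  refine (ContinuousAt.eventually_lt (by fun_prop) (hA.clm_apply hW) ?_).mono fun z hz => hz.le
  rw [div_mul_eq_mul_div, div_lt_iff₀ (by positivity)]
  nlinarith

end Wcr

theorem wcrit : WcritStmt := by
  intro E _ _ _ H _ I _ M _ _ _ l Z Φ hl hΦ h
  have hs : ∀ p : M, Tendsto (extChartAt I p).symm (𝓝 (extChartAt I p p)) (𝓝 p) := fun p => by
    have := (continuousAt_extChartAt_symm (I := I) p).tendsto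
    rwa [extChartAt_to_inv] at this
  have hW : ∀ p, DifferentiableAt ℝ (fun y => fieldIn I Z p ((extChartAt I p).symm y))
      (extChartAt I p p) := fun p =>
    ((Mfd.field hl p).contDiffAt (extChartAt_target_mem_nhds p)).differentiableAt (by simp)
  have hD : ∀ (u : M → ℝ) p, ContMDiffAt I 𝓘(ℝ, ℝ) ∞ u p →
      DifferentiableAt ℝ (fderiv ℝ (funIn I u p)) (extChartAt I p p) := fun u p hu =>
    ((Mfd.sm_in (mem_extChartAt_source p) hu).fderiv_right (m := 1)
      (by decide)).differentiableAt one_ne_zero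
  have hE : ∀ (u : M → ℝ) p, ContMDiffAt I 𝓘(ℝ, ℝ) ∞ u p → ∀ᶠ x in 𝓝 p,
      fderiv ℝ (funIn I u p) (extChartAt I p x) (fieldIn I Z p x) = der I u x (Z x) :=
    fun u p hu => by
      filter_upwards [extChartAt_source_mem_nhds (I := I) p,
        (contMDiffAt_iff_contMDiffAt_nhds (n := 1) (by simp)).1 (hu.of_le (by simp))] with x k1 k2
      exact Mfd.fderiv_in' k1 (k2.mdifferentiableAt one_ne_zero) _
  have key : ∀ p, ((∀ v, der I Φ p v = 0) → ∀ u : E,
      (∀ v, fderiv ℝ (fderiv ℝ (funIn I Φ p)) (extChartAt I p p) u v = 0) → u = 0) ∧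
      ∃ δ, 0 < δ ∧ ∀ᶠ y in 𝓝 (extChartAt I p p),
        δ * (‖fieldIn I Z p ((extChartAt I p).symm y)‖ ^ 2 + ‖fderiv ℝ (funIn I Φ p) y‖ ^ 2) ≤
          fderiv ℝ (funIn I Φ p) y (fieldIn I Z p ((extChartAt I p).symm y)) := by
    intro p
    rcases h p with h | ⟨h0, u, c, hu, u0, hc, h⟩
    · refine ⟨fun hv => absurd (hv _) h.ne', Wcr.reg (hD Φ p (hΦ p)).continuousAt
        (hW p).continuousAt ?_⟩
      rw [extChartAt_to_inv, (hE Φ p (hΦ p)).self_of_nhds]
      exact h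
    · refine (Wcr.good (hD Φ p (hΦ p)) (hD u p hu) (hW p) ?_ ?_ hc ?_).imp_left fun k _ => k
      · ext v
        have := Mfd.fderiv_in' (mem_extChartAt_source p) (hu.mdifferentiableAt (by simp)) v
        rw [Mfd.dC_self] at this
        exact this.trans (u0 v)
      · rw [extChartAt_to_inv, fieldIn, h0]
        exact map_zero _
      · filter_upwards [(hs p).eventually h, (hs p).eventually (hE u p hu),
          (hs p).eventually (hE Φ p (hΦ p)), extChartAt_target_mem_nhds p] with y k1 k2 k3 k4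
        rw [(extChartAt I p).right_inv k4] at k1 k2 k3
        rw [k2, k3]
        exact k1
  refine ⟨fun p => (key p).1, fun p => ?_⟩
  obtain ⟨δ, hδ, k⟩ := (key p).2
  refine ⟨δ, hδ, ?_⟩
  filter_upwards [(continuousAt_extChartAt (I := I) p).eventually k, hE Φ p (hΦ p),
    extChartAt_source_mem_nhds (I := I) p] with x k1 k2 k3
  rwa [(extChartAt I p).left_inv k3, k2] at k1

end Pool.Agent.MP_6d695c_gt.SW

end MrgPart7

-- ======== part 8: formerly Pool.Agent.MP_6d695c_gt.sw.Zer1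
section MrgPart8

/-! PROJECT SW, row ZER, part 1: adapted coordinates and the zeros of the trap. -/

open scoped ContDiff Topology
open Set Metric Filter Real

namespace Pool.Agent.MP_6d695c_gt.SW.Lam

variable {n K k₁ : ℕ} {w d δ CA C r m KΛ : ℝ} {h0 h1 τ Λ0 Λ1 : R3 → ℝ} {Zs : Finset ℝ}
  {A : Fin (n + 1) → Q n → ℝ} {k : Fin (n + 1) → Fin (2 * K + 1)} {a : Fin (n + 1) → ℝ}
  {p : Q n × (Fa n K → ℂ)}

/-- the space of adapted coordinates -/
abbrev YY (n K : ℕ) : Type := (Fin (n + 1) → R3) × (Fin (n + 1) → ℝ) × (Fa n K → ℂ)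

/-- adapted coordinates -/
noncomputable def FF (d r : ℝ) (k : Fin (n + 1) → Fin (2 * K + 1)) (p : Q n × (Fa n K → ℂ)) :
    YY n K :=
  (fun j => pab d r (j, k j) p, p.1.2, fun f => if f.2 = k f.1 then 0 else p.2 f)

/-- the point with given adapted coordinates -/
noncomputable def GG (d r : ℝ) (k : Fin (n + 1) → Fin (2 * K + 1)) (y : YY n K) :
    Q n × (Fa n K → ℂ) :=
  ((fun j => lev (k j) * d + log (rad (y.1 j)), y.2.1), fun f => if f.2 = k f.1 then
    Complex.equivRealProdCLM.symm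
      (r * ((y.1 f.1).2.1 * cos (2 * LL d f / r ^ 2 * y.2.1 f.1) +
        (y.1 f.1).2.2 * sin (2 * LL d f / r ^ 2 * y.2.1 f.1)),
      r * ((y.1 f.1).2.2 * cos (2 * LL d f / r ^ 2 * y.2.1 f.1) -
        (y.1 f.1).2.1 * sin (2 * LL d f / r ^ 2 * y.2.1 f.1))) else y.2.2 f)

theorem z_eq (hr : 0 < r) (f : Fa n K) (p : Q n × (Fa n K → ℂ)) :
    (p.2 f).re = r * ((pab d r f p).2.1 * cos (ang d r f p.1) +
      (pab d r f p).2.2 * sin (ang d r f p.1)) ∧
    (p.2 f).im = r * ((pab d r f p).2.2 * cos (ang d r f p.1) -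
      (pab d r f p).2.1 * sin (ang d r f p.1)) := by
  have h := sin_sq_add_cos_sq (ang d r f p.1)
  simp only [pab]
  constructor
  · field_simp
    linear_combination (-(p.2 f).re) * h
  · field_simp
    linear_combination (-(p.2 f).im) * h

theorem GG_FF (hr : 0 < r) (hC : Calc (K := K) h0 h1 A d r) (k : Fin (n + 1) → Fin (2 * K + 1))
    (p : Q n × (Fa n K → ℂ)) : GG d r k (FF d r k p) = p := by
  refine Prod.ext (Prod.ext (funext fun j => ?_) rfl) (funext fun f => ?_)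
  · simp only [GG, FF, hC.radp, log_exp]
    ring
  · obtain ⟨j, k'⟩ := f
    by_cases h : k' = k j
    · subst h
      obtain ⟨e1, e2⟩ := z_eq (d := d) hr (j, k j) p
      simp only [GG, FF, if_true]
      exact Complex.ext e1.symm e2.symm
    · simp only [GG, FF, if_neg h]

theorem diff_GG {y : YY n K} (h : ∀ j, rad (y.1 j) ≠ 0) : DifferentiableAt ℝ (GG d r k) y := by
  refine ((differentiableAt_pi.2 fun j => ?_).prodMk (by fun_prop)).prodMk
    (differentiableAt_pi.2 fun f => ?_)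
  · refine DifferentiableAt.const_add _ (DifferentiableAt.log ?_ (h j))
    unfold rad
    fun_prop
  · by_cases hf : f.2 = k f.1
    · simp only [if_pos hf]
      exact Complex.equivRealProdCLM.symm.differentiableAt.comp y (by fun_prop)
    · simp only [if_neg hf]
      fun_prop

theorem cont_FF (hC : Calc (K := K) h0 h1 A d r) : Continuous (FF (n := n) d r k) := by
  refine (continuous_pi fun j => (hC.smp _).continuous).prodMk
    ((by fun_prop : Continuous fun p : Q n × (Fa n K → ℂ) => p.1.2).prodMk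
      (continuous_pi fun f => ?_))
  by_cases hf : f.2 = k f.1
  · simp only [if_pos hf]
    exact continuous_const
  · simp only [if_neg hf]
    fun_prop

theorem ev_dist (hr : 0 < r) (hC : Calc (K := K) h0 h1 A d r) (k : Fin (n + 1) → Fin (2 * K + 1))
    (p : Q n × (Fa n K → ℂ)) :
    ∃ c, 0 < c ∧ ∀ᶠ x in 𝓝 p, ‖x - p‖ ≤ c * ‖FF d r k x - FF d r k p‖ := by
  have h1' := (diff_GG (d := d) (r := r) (k := k) (y := FF d r k p) fun j => by
    simp only [FF, hC.radp]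
    exact (exp_pos _).ne').isBigO_sub.comp_tendsto ((cont_FF hC).tendsto p)
  obtain ⟨c, hc, h⟩ := h1'.exists_pos
  refine ⟨c, hc, h.bound.mono fun x hx => ?_⟩
  simpa only [Function.comp_apply, GG_FF hr hC] using hx

theorem sn_le (hd : 0 < d) (hd' : d ≤ 2) {g g₀ : ℝ} (h₀ : sn d g₀ = 0) (h : |g - g₀| ≤ d / 2) :
    |g - g₀| ≤ |sn d g| := by
  have e1 : sn d g = sin (π * (g - g₀) / d) * cos (π * g₀ / d) := by
    unfold sn at h₀ ⊢
    rw [show π * g / d = π * (g - g₀) / d + π * g₀ / d by ring, sin_add, h₀, mul_zero, add_zero]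
  have e2 : |cos (π * g₀ / d)| = 1 := by
    rcases sin_eq_zero_iff_cos_eq.1 h₀ with h | h <;> simp [h]
  have e3 : |π * (g - g₀) / d| = π * (|g - g₀| / d) := by
    rw [abs_div, abs_mul, abs_of_pos pi_pos, abs_of_pos hd, mul_div_assoc]
  have e4 : |g - g₀| / d ≤ 1 / 2 := by rw [div_le_iff₀ hd]; linarith
  have e5 := mul_abs_le_abs_sin (x := π * (g - g₀) / d) (by rw [e3]; nlinarith [pi_pos])
  rw [e3, ← mul_assoc, div_mul_cancel₀ _ pi_pos.ne'] at e5
  rw [e1, abs_mul, e2, mul_one]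
  refine le_trans ?_ e5
  rw [← mul_div_assoc, le_div_iff₀ hd]
  nlinarith [abs_nonneg (g - g₀)]

/-- a zero of the trap -/
structure ZP (Zs : Finset ℝ) (A : Fin (n + 1) → Q n → ℝ) (d r : ℝ)
    (k : Fin (n + 1) → Fin (2 * K + 1)) (a : Fin (n + 1) → ℝ) (p : Q n × (Fa n K → ℂ)) : Prop where
  mem : ∀ j, a j ∈ Zs
  val : ∀ j, pab d r (j, k j) p = (0, a j, 0)
  sz : ∀ j, sn d (p.1.2 j) = 0
  one : ∀ j, A j p.1 = 1
  oth : ∀ f, f.2 ≠ k f.1 → p.2 f = 0

theorem finite_ZP (hc : Con w d δ k₁ K) (hr : 0 < r) (hC : Calc (K := K) h0 h1 A d r) (R : ℝ) :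
    {p ∈ Om n (Fa n K) d w R | ∃ k a, ZP Zs A d r k a p}.Finite := by
  have hd := hc.dpos
  have h1' : {y : Fin (n + 1) → R3 | ∀ j, y j ∈ (fun a => ((0, a, 0) : R3)) '' Zs}.Finite :=
    Finite.pi' fun _ => Zs.finite_toSet.image _
  have h2 : {y : Fin (n + 1) → ℝ |
      ∀ j, y j ∈ (fun m : ℤ => (m : ℝ) * d) '' Icc (-(K : ℤ)) K}.Finite :=
    Finite.pi' fun _ => (finite_Icc _ _).image _
  refine (finite_iUnion fun k : Fin (n + 1) → Fin (2 * K + 1) =>
    (h1'.prod (h2.prod (finite_singleton (0 : Fa n K → ℂ)))).image (GG d r k)).subset ?_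
  rintro p ⟨hp, k, a, h⟩
  refine mem_iUnion.2 ⟨k, FF d r k p, ⟨fun j => ⟨a j, h.mem j, (h.val j).symm⟩, fun j => ?_,
    funext fun f => ?_⟩, GG_FF hr hC k p⟩
  · obtain ⟨m, hm⟩ := sin_eq_zero_iff.1 (h.sz j)
    have e : (m : ℝ) * d = p.1.2 j := by
      rw [eq_div_iff hd.ne'] at hm
      exact mul_left_cancel₀ pi_pos.ne' (by linarith)
    have e2 : |p.1.2 j| ≤ 4 * w := ((norm_le_pi_norm (lat p.1).2 j).trans (norm_snd_le _)).trans hp.1.2
    rw [← e, abs_mul, abs_of_pos hd] at e2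
    have e3 : |(m : ℝ)| ≤ K := le_of_mul_le_mul_right (by linarith [hc.Klo]) hd
    have e4 : |m| ≤ K := by exact_mod_cast e3
    exact ⟨m, abs_le.1 e4, e⟩
  · by_cases hf : f.2 = k f.1
    · simp only [FF, if_pos hf, Pi.zero_apply]
    · simp only [FF, if_neg hf, h.oth f hf, Pi.zero_apply]

theorem ZP.rad (h : ZP Zs A d r k a p) (j : Fin (n + 1)) : rad (pab d r (j, k j) p) = a j ^ 2 := by
  simp [h.val j, SW.rad]

theorem ZP.near (h : ZP Zs A d r k a p) (hc : Con w d δ k₁ K) (hl : Loc h0 h1 δ τ Zs)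
    (hC : Calc (K := K) h0 h1 A d r) (j : Fin (n + 1)) : |xx d (j, k j) p| < d / 16 :=
  near_of_rad hc hC (by rw [h.rad]; exact (hl.zero _ (h.mem j)).2.1)

theorem ZP.zero (h : ZP Zs A d r k a p) (hc : Con w d δ k₁ K) (hl : Loc h0 h1 δ τ Zs)
    (hA : Cut d k₁ A CA) (hr : 0 < r) (hC : Calc (K := K) h0 h1 A d r) :
    XM (HT h0 h1 A d r) p = 0 := by
  have hd := hc.dpos
  have nr := h.near hc hl hC
  have ot : ∀ j k', k' ≠ k j → Van h0 h1 (pab d r (j, k') p) := fun j k' hk =>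
    others hc hl hC hk ((nr j).le.trans (by linarith))
  refine Prod.ext (Prod.ext (funext fun j => ?_) (funext fun j => ?_)) (funext fun f => ?_)
  · obtain ⟨-, -, -, z1, z2, z3⟩ := hl.zero _ (h.mem j)
    have a1 : Ecut h0 h1 A d r j p = 0 := Finset.sum_eq_zero fun f _ => by
      rw [hA.gg f.1 p.1 j (by rw [h.sz j]; norm_num), zero_mul]
    have a2 : Esin h1 A d r j p = 0 := by
      rw [Esin, sum_one (k j) fun k' hk => (ot j k' hk).v1, h.val j, z3, mul_zero]
    have a3 : exp (-p.1.1 j) * (LL d (j, k j) * a j ^ 2) = 1 := by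
      rw [← h.rad, hC.radp, LL, ← exp_add, ← exp_add]
      simp
    rw [hC.fdot, a1, a2, sum_one (k j) fun k' hk => by rw [(ot j k' hk).hr, mul_zero], h.val j,
      h.one j, h.sz j]
    simp only [SW.hr, ha, hb, z1, z2, Prod.fst_zero, Pi.zero_apply]
    linear_combination -a3
  · obtain ⟨-, -, z0, -⟩ := hl.zero _ (h.mem j)
    rw [hC.gdot, (bandX hc hl hA hC (f := (j, k j)) ((nr j).trans (by linarith))).1,
      sum_one (k j) fun k' hk => by rw [(ot j k' hk).hP, zero_div], h.val j, h.sz j]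
    simp [hP, z0]
  · obtain ⟨y1, y2⟩ := hC.zdot p f
    have e1 : ((XM (HT h0 h1 A d r) p).2 f).re =
        (p.2 f).re / 2 + (shC (d2 (HT h0 h1 A d r) p) f).re := by
      simp [XM]; ring
    have e2 : ((XM (HT h0 h1 A d r) p).2 f).im =
        (p.2 f).im / 2 + (shC (d2 (HT h0 h1 A d r) p) f).im := by
      simp [XM]; ring
    obtain ⟨j, k'⟩ := f
    by_cases hk : k' = k j
    · subst hk
      obtain ⟨-, -, z0, z1, z2, -⟩ := hl.zero _ (h.mem j)
      obtain ⟨x1, x2⟩ := z_eq (d := d) hr (j, k j) p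
      simp only [h.val j, h.one j, h.sz j, hP, ha, hb, z0, z1, z2] at y1 y2 x1 x2
      refine Complex.ext ?_ ?_
      · rw [e1, y1, x1]; simp only [Prod.snd_zero, Pi.zero_apply, Complex.zero_re]; ring
      · rw [e2, y2, x2]; simp only [Prod.snd_zero, Pi.zero_apply, Complex.zero_im]; ring
    · have v := ot j k' hk
      simp only [hP, ha, hb, dP, da, db, v.d0, v.d1, zero_apply] at y1 y2
      refine Complex.ext ?_ ?_
      · rw [e1, y1, h.oth (j, k') hk]; simp
      · rw [e2, y2, h.oth (j, k') hk]; simp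

theorem ZP.int (h : ZP Zs A d r k a p) (hc : Con w d δ k₁ K) (hl : Loc h0 h1 δ τ Zs)
    (hA : Cut d k₁ A CA) (hr : 0 < r) (hC : Calc (K := K) h0 h1 A d r)
    (hn : 2 * (n + 1 : ℝ) < C) : ∀ᶠ x in 𝓝 p, x ∈ Om n (Fa n K) d w (C * r ^ 2) := by
  have hd := hc.dpos
  have hw := hc.wpos
  have a1 : ¬ (3 / 4 * d < |p.1.1 0| ∨ ¬ Zone ((k₁ + 11) * d) p.1) := fun hh => by
    have := (hA.supp 0 p.1 hh).self_of_nhds
    rw [h.one 0] at this
    exact one_ne_zero this
  push Not at a1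
  have a2 := lat_le hc a1.1 a1.2
  have a3 : nsq p.2 < C * r ^ 2 := by
    rw [nsq, sum_split k (G := fun _ => 0) fun f hf => by simp [h.oth f hf]]
    have : ∑ j, ((p.2 (j, k j)).re ^ 2 + (p.2 (j, k j)).im ^ 2) ≤ ∑ _j : Fin (n + 1), r ^ 2 * 2 := by
      refine Finset.sum_le_sum fun j _ => ?_
      rw [← hC.absp, h.val j]
      have := (abs_le.1 (hl.zero _ (h.mem j)).2.1).2
      refine mul_le_mul_of_nonneg_left ?_ (sq_nonneg r)
      simp only
      linarith [hc.δle, hc.dle, hc.wle]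
    simp only [Finset.sum_const, Finset.card_univ, Fintype.card_fin, nsmul_eq_mul] at this
    simp only [ite_self, Finset.sum_const_zero, add_zero]
    push_cast at this
    nlinarith [sq_pos_of_pos hr]
  have c1 : Continuous fun x : Q n × (Fa n K → ℂ) => |x.1.1 0| := by fun_prop
  have c2 : Continuous fun x : Q n × (Fa n K → ℂ) => ‖lat x.1‖ :=
    (continuous_lat.comp continuous_fst).norm
  have c3 : Continuous fun x : Q n × (Fa n K → ℂ) => nsq x.2 :=
    contDiff_nsq.continuous.comp continuous_snd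
  filter_upwards [c1.continuousAt.eventually_lt_const (by linarith [a1.1] : |p.1.1 0| < d),
    c2.continuousAt.eventually_lt_const (by linarith : ‖lat p.1‖ < 4 * w),
    c3.continuousAt.eventually_lt_const a3] with x b1 b2 b3
  exact ⟨⟨b1.le, b2.le⟩, b3.le⟩

/-- square of the distance in adapted coordinates -/
noncomputable def DD (d r : ℝ) (k : Fin (n + 1) → Fin (2 * K + 1)) (a : Fin (n + 1) → ℝ)
    (p : Q n × (Fa n K → ℂ)) : ℝ :=
  ∑ j, ((pab d r (j, k j) p).1 ^ 2 + (pab d r (j, k j) p).2.2 ^ 2 +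
    ((pab d r (j, k j) p).2.1 - a j) ^ 2 + sn d (p.1.2 j) ^ 2) +
  ∑ f : Fa n K, if f.2 = k f.1 then 0 else W r f p

theorem Wn (k : Fin (n + 1) → Fin (2 * K + 1)) (p : Q n × (Fa n K → ℂ)) (f : Fa n K) :
    0 ≤ if f.2 = k f.1 then 0 else W r f p := by
  split_ifs
  exacts [le_rfl, W_nonneg _ _]

theorem le_DD (j : Fin (n + 1)) : (pab d r (j, k j) p).1 ^ 2 + (pab d r (j, k j) p).2.2 ^ 2 +
    ((pab d r (j, k j) p).2.1 - a j) ^ 2 + sn d (p.1.2 j) ^ 2 ≤ DD d r k a p :=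
  le_add_of_le_of_nonneg (Finset.single_le_sum (f := fun j => (pab d r (j, k j) p).1 ^ 2 +
    (pab d r (j, k j) p).2.2 ^ 2 + ((pab d r (j, k j) p).2.1 - a j) ^ 2 + sn d (p.1.2 j) ^ 2)
    (fun _ _ => by positivity) (Finset.mem_univ j)) (Finset.sum_nonneg fun f _ => Wn k p f)

theorem le_DD' {f : Fa n K} (hf : f.2 ≠ k f.1) : W r f p ≤ DD d r k a p := by
  refine le_add_of_nonneg_of_le (Finset.sum_nonneg fun _ _ => by positivity) ?_
  have := Finset.single_le_sum (f := fun f : Fa n K => if f.2 = k f.1 then 0 else W r f p)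
    (fun f _ => Wn k p f) (Finset.mem_univ f)
  rwa [if_neg hf] at this

theorem norm_le_DD (h : ZP Zs A d r k a p) (hr : 0 < r) {x : Q n × (Fa n K → ℂ)}
    (hg : ∀ j, |x.1.2 j - p.1.2 j| ≤ |sn d (x.1.2 j)|) :
    ‖FF d r k x - FF d r k p‖ ^ 2 ≤ (1 + r) ^ 2 * DD d r k a x := by
  have h0' : 0 ≤ DD d r k a x := le_trans (by positivity) (le_DD 0)
  have hs := sqrt_nonneg (DD d r k a x)
  have t : ∀ u : ℝ, u ^ 2 ≤ DD d r k a x → ‖u‖ ≤ (1 + r) * √(DD d r k a x) := fun u hu =>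
    (abs_le_sqrt hu).trans (by nlinarith)
  have : ‖FF d r k x - FF d r k p‖ ≤ (1 + r) * √(DD d r k a x) := by
    rw [Prod.norm_def, Prod.norm_def]
    refine max_le ((pi_norm_le_iff_of_nonneg (by positivity)).2 fun j => ?_) (max_le
      ((pi_norm_le_iff_of_nonneg (by positivity)).2 fun j => ?_)
      ((pi_norm_le_iff_of_nonneg (by positivity)).2 fun f => ?_))
    · have := le_DD (d := d) (r := r) (k := k) (a := a) (p := x) j
      simp only [FF, Prod.fst_sub, Pi.sub_apply, h.val j, Prod.norm_def, Prod.snd_sub, sub_zero]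
      refine max_le (t _ ?_) (max_le (t _ ?_) (t _ ?_)) <;>
        nlinarith [sq_nonneg (pab d r (j, k j) x).1, sq_nonneg (pab d r (j, k j) x).2.2,
          sq_nonneg ((pab d r (j, k j) x).2.1 - a j), sq_nonneg (sn d (x.1.2 j))]
    · have := le_DD (d := d) (r := r) (k := k) (a := a) (p := x) j
      have e := sq_le_sq.2 (hg j)
      refine t _ ?_
      simp only [FF, Prod.fst_sub, Pi.sub_apply, Prod.snd_sub]
      nlinarith [sq_nonneg (pab d r (j, k j) x).1, sq_nonneg (pab d r (j, k j) x).2.2,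
        sq_nonneg ((pab d r (j, k j) x).2.1 - a j)]
    · by_cases hf : f.2 = k f.1
      · simp only [FF, Prod.snd_sub, Pi.sub_apply, if_pos hf, sub_zero, norm_zero]
        positivity
      · simp only [FF, Prod.snd_sub, Pi.sub_apply, if_neg hf, h.oth f hf, sub_zero]
        have e := le_DD' (d := d) (r := r) (a := a) (p := x) hf
        rw [W, div_le_iff₀ (by positivity), ← sq_norm_eq] at e
        refine le_of_sq_le_sq ?_ (by positivity)
        rw [mul_pow, sq_sqrt h0']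
        nlinarith [mul_nonneg hr.le h0']
  calc ‖FF d r k x - FF d r k p‖ ^ 2 ≤ ((1 + r) * √(DD d r k a x)) ^ 2 := by gcongr
    _ = _ := by rw [mul_pow, sq_sqrt h0']

end Pool.Agent.MP_6d695c_gt.SW.Lam

end MrgPart8

-- ======== part 9: formerly Pool.Agent.MP_6d695c_gt.sw.Zer
section MrgPart9

/-! PROJECT SW, row ZER: the Lyapunov function of the trap. -/

open scoped ContDiff Topology
open Set Metric Filter Real

namespace Pool.Agent.MP_6d695c_gt.SW

namespace Lam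

variable {n K k₁ : ℕ} {w d δ CA C r m KΛ : ℝ} {h0 h1 τ Λ0 Λ1 : R3 → ℝ} {Zs : Finset ℝ}
  {A : Fin (n + 1) → Q n → ℝ} {k : Fin (n + 1) → Fin (2 * K + 1)} {a : Fin (n + 1) → ℝ}
  {p : Q n × (Fa n K → ℂ)}

/-- the coordinate `g j` -/
noncomputable def cg (K : ℕ) (j : Fin (n + 1)) : (Q n × (Fa n K → ℂ)) →L[ℝ] ℝ :=
  (ContinuousLinearMap.proj j).comp
    ((ContinuousLinearMap.snd ℝ _ _).comp (ContinuousLinearMap.fst ℝ _ _))

/-- the unbounded part of the Lyapunov function -/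
noncomputable def Cs (d r : ℝ) (p : Q n × (Fa n K → ℂ)) : ℝ :=
  (∑ j, -(d / π * cos (π * p.1.2 j / d))) / r ^ 2

theorem contDiff_Cs : ContDiff ℝ ∞ (Cs (n := n) (K := K) d r) :=
  (ContDiff.sum fun j _ => (contDiff_const.mul (contDiff_cos.comp
    ((contDiff_const.mul (cg K j).contDiff).div_const d))).neg).div_const _

theorem dCs (hd : 0 < d) (p v : Q n × (Fa n K → ℂ)) :
    fderiv ℝ (Cs d r) p v = (∑ j, sn d (p.1.2 j) * v.1.2 j) / r ^ 2 := by
  have h1' : ∀ g : ℝ, HasDerivAt (fun g : ℝ => -(d / π * cos (π * g / d))) (sn d g) g :=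
    fun g => by
      have := ((((hasDerivAt_id g).const_mul π).div_const d).cos.const_mul (d / π)).fun_neg
      refine this.congr_deriv ?_
      have := pi_pos
      simp only [sn, id]
      field_simp
  have h2 := (HasFDerivAt.fun_sum (u := Finset.univ) fun j _ =>
    (h1' (p.1.2 j)).comp_hasFDerivAt p (cg K j).hasFDerivAt).mul_const (r ^ 2)⁻¹
  have h3 := h2.congr_of_eventuallyEq (f₁ := Cs d r) (Eventually.of_forall fun y => by
    simp only [Cs, cg, Function.comp_apply, ContinuousLinearMap.comp_apply,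
      ContinuousLinearMap.proj_apply, ContinuousLinearMap.coe_fst', ContinuousLinearMap.coe_snd',
      div_eq_mul_inv])
  rw [h3.fderiv]
  simp only [cg, smul_apply, sum_apply, smul_eq_mul, ContinuousLinearMap.comp_apply,
    ContinuousLinearMap.proj_apply, ContinuousLinearMap.coe_fst', ContinuousLinearMap.coe_snd']
  rw [div_eq_inv_mul]

theorem ZP.crit (h : ZP Zs A d r k a p) (hL : LocL h0 h1 Zs C Λ0 Λ1 m KΛ)
    (hC : Calc (K := K) h0 h1 A d r) (h1' : ∀ᶠ x in 𝓝 p, ∀ j, A j x.1 = 1)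
    {L : Q n × (Fa n K → ℂ) → ℝ} {c₀ : ℝ} (hc₀ : ∀ᶠ p' in 𝓝 p, L p' = c₀ +
      ∑ j, (Λ0 (pab d r (j, k j) p') + A j p'.1 * Λ1 (pab d r (j, k j) p')) +
      ∑ f : Fa n K, (if f.2 = k f.1 then 0 else ((p'.2 f).re ^ 2 + (p'.2 f).im ^ 2) / r ^ 2)) :
    fderiv ℝ L p = 0 := by
  have a1 : ∀ j, HasFDerivAt (fun x => Λ0 (pab d r (j, k j) x) + Λ1 (pab d r (j, k j) x))
      (0 : _ →L[ℝ] ℝ) p := fun j => by
    have b0 := (hL.sm0.differentiable (by simp) (pab d r (j, k j) p)).hasFDerivAt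
    have b1 := (hL.sm1.differentiable (by simp) (pab d r (j, k j) p)).hasFDerivAt
    have := (b0.fun_add b1).comp p ((hC.smp (j, k j)).differentiable (by simp) p).hasFDerivAt
    rw [h.val j, hL.crit _ (h.mem j), ContinuousLinearMap.zero_comp] at this
    exact this
  have a2 : ∀ f : Fa n K, HasFDerivAt (fun x : Q n × (Fa n K → ℂ) =>
      if f.2 = k f.1 then 0 else ((x.2 f).re ^ 2 + (x.2 f).im ^ 2) / r ^ 2) (0 : _ →L[ℝ] ℝ) p := by
    intro f
    by_cases hf : f.2 = k f.1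
    · simp only [if_pos hf]
      exact hasFDerivAt_const _ _
    · simp only [if_neg hf]
      have hre : HasFDerivAt (fun p : Q n × (Fa n K → ℂ) => (p.2 f).re)
          (Complex.reCLM.comp (cz f)) p := (Complex.reCLM.comp (cz f)).hasFDerivAt
      have him : HasFDerivAt (fun p : Q n × (Fa n K → ℂ) => (p.2 f).im)
          (Complex.imCLM.comp (cz f)) p := (Complex.imCLM.comp (cz f)).hasFDerivAt
      have := ((hre.fun_mul hre).fun_add (him.fun_mul him)).mul_const (r ^ 2)⁻¹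
      simp only [h.oth f hf, Complex.zero_re, Complex.zero_im, zero_smul, add_zero,
        smul_zero] at this
      simpa only [sq, div_eq_mul_inv] using this
  have a3 := (((HasFDerivAt.fun_sum (u := Finset.univ) fun j _ => a1 j).const_add c₀).fun_add
    (HasFDerivAt.fun_sum (u := Finset.univ) fun f _ => a2 f)).congr_of_eventuallyEq (f₁ := L) (by
      filter_upwards [hc₀, h1'] with x b1 b2
      simp only [b1, b2, one_mul])
  rw [a3.fderiv]
  simp

end Lam

open Lam in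
theorem zer : ZerStmt := by
  intro n K k₁ w d δ CA C m KΛ r m' B h0 h1 τ Λ0 Λ1 Zs A L hc hl hA hL hn hr hm' hC hM
  obtain ⟨hLs, -, M3, M4⟩ := hM
  have hd := hc.dpos
  have hm := hL.pos
  have dΛ : ∀ p v : Q n × (Fa n K → ℂ), fderiv ℝ (fun p => L p + Cs d r p) p v =
      fderiv ℝ L p v + (∑ j, sn d (p.1.2 j) * v.1.2 j) / r ^ 2 := fun p v => by
    rw [fderiv_fun_add (hLs.differentiable (by simp) p) (contDiff_Cs.differentiable (by simp) p),
      add_apply, dCs hd]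
  have key : ∀ p ∈ Om n (Fa n K) d w (C * r ^ 2), ∀ k : Fin (n + 1) → Fin (2 * K + 1),
      (∀ j, |xx d (j, k j) p| < d / 8) → (∀ j, sn d (p.1.2 j) ^ 2 < 1 / 4) →
      ((∃ j, A j p.1 = 0) → 0 < fderiv ℝ (fun p => L p + Cs d r p) p (XM (HT h0 h1 A d r) p)) ∧
      ((∀ j, A j p.1 = 1) → ∃ a : Fin (n + 1) → ℝ, (∀ j, a j ∈ Zs) ∧
        min (m / 2) 1 * DD d r k a p ≤
          fderiv ℝ (fun p => L p + Cs d r p) p (XM (HT h0 h1 A d r) p)) := by
    intro p hp k hk hs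
    have h4 := (M4 p k hk).1 (fun j => sn d (p.1.2 j)) hp hs
    rw [← dΛ] at h4
    have pr := fun j => hL.prod (pab d r (j, k j) p) (rad_near hc hC ((hk j).le.trans (by linarith)))
      ((W_eq hr hC _ p).symm.le.trans (W_le hr _ hp)) (A j p.1) (hA.mem j p.1) (sn d (p.1.2 j))
      (sn d (p.1.2 j) / LL d (j, k j)) (abs_sin_le_one _) (by
        have := LL_mem hc (j, k j)
        have e : |sn d (p.1.2 j)| ≤ 1 := abs_sin_le_one _
        rw [abs_div, abs_of_pos (by linarith : 0 < LL d (j, k j)), div_le_iff₀ (by linarith)]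
        linarith) (by
        have := LL_mem hc (j, k j)
        rw [div_mul_eq_mul_div]
        exact div_nonneg (mul_self_nonneg _) (by linarith))
    have wn : 0 ≤ ∑ f : Fa n K, if f.2 = k f.1 then 0 else W r f p :=
      Finset.sum_nonneg fun f _ => Wn k p f
    refine ⟨fun ⟨j, hj⟩ => lt_of_lt_of_le ?_ h4, fun h1' => ?_⟩
    · refine add_pos_of_pos_of_nonneg (Finset.sum_pos' (fun i _ => ?_) ⟨j, Finset.mem_univ _, ?_⟩) wn
      · linarith [(pr i).1, sq_nonneg (pab d r (i, k i) p).1]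
      · linarith [(pr j).1, (pr j).2.1 (Or.inr hj)]
    · choose a ha hb using fun j => (pr j).2.2 (h1' j) (by
        have := LL_mem hc (j, k j)
        rw [div_mul_eq_mul_div, le_div_iff₀ (by linarith)]
        nlinarith [sq_nonneg (sn d (p.1.2 j))])
      refine ⟨a, ha, le_trans ?_ h4⟩
      rw [DD, mul_add, Finset.mul_sum]
      refine add_le_add (Finset.sum_le_sum fun j _ => ?_)
        (mul_le_of_le_one_left wn (min_le_right _ _))
      refine (mul_le_mul_of_nonneg_right (min_le_left _ _) (by positivity)).trans ?_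
      linarith [(pr j).1, hb j]
  refine ⟨fun p => L p + Cs d r p, _, hLs.add contDiff_Cs, finite_ZP (Zs := Zs) hc hr hC (C * r ^ 2),
    fun p hp => hp.1, fun p hp hz => ?_, ?_⟩
  · by_cases hb : ∃ j, ¬ NearL d (d / 8) (p.1.1 j) ∨ 1 / 4 ≤ sn d (p.1.2 j) * sn d (p.1.2 j)
    · rw [dΛ]
      exact hm'.trans_le (M3 p hp (fun j => sn d (p.1.2 j))
        (fun j => ⟨abs_sin_le_one _, mul_self_nonneg _⟩) hb)
    push Not at hb
    have hs : ∀ j, sn d (p.1.2 j) ^ 2 < 1 / 4 := fun j => by rw [sq]; exact (hb j).2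
    choose k hk using exists_lev hc hp
    have hk' : ∀ j, |xx d (j, k j) p| < d / 8 := fun j => by
      obtain ⟨l, hl'⟩ := (hb j).1
      by_cases e : l - lev (k j) = 0
      · rw [sub_eq_zero.1 e] at hl'
        exact hl'
      · have e1 : (1 : ℝ) ≤ |(l : ℝ) - lev (k j)| := by exact_mod_cast Int.one_le_abs e
        have e2 := abs_sub (xx d (j, k j) p) (p.1.1 j - l * d)
        have e3 : xx d (j, k j) p - (p.1.1 j - l * d) = ((l : ℝ) - lev (k j)) * d := by
          simp only [xx]; ring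
        rw [e3, abs_mul, abs_of_pos hd] at e2
        nlinarith [hk j]
    obtain ⟨k1, k2⟩ := key p hp k hk' hs
    by_cases h0' : ∃ j, A j p.1 = 0
    · exact k1 h0'
    push Not at h0'
    have h1' : ∀ j, A j p.1 = 1 := fun j => (hA.loc j p.1
      (fun i => ⟨lev (k i), (hk' i).trans (by linarith)⟩) hs).1.resolve_left (h0' j)
    obtain ⟨a, ha, hb⟩ := k2 h1'
    refine lt_of_lt_of_le (mul_pos (by positivity) (not_le.1 fun hD => hz ⟨hp, k, a, ?_⟩)) hb
    have t : ∀ j, (pab d r (j, k j) p).1 = 0 ∧ (pab d r (j, k j) p).2.2 = 0 ∧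
        (pab d r (j, k j) p).2.1 - a j = 0 ∧ sn d (p.1.2 j) = 0 := fun j => by
      have := (le_DD (d := d) (r := r) (k := k) (a := a) (p := p) j).trans hD
      refine ⟨pow_eq_zero_iff two_ne_zero |>.1 (le_antisymm ?_ (sq_nonneg _)),
        pow_eq_zero_iff two_ne_zero |>.1 (le_antisymm ?_ (sq_nonneg _)),
        pow_eq_zero_iff two_ne_zero |>.1 (le_antisymm ?_ (sq_nonneg _)),
        pow_eq_zero_iff two_ne_zero |>.1 (le_antisymm ?_ (sq_nonneg _))⟩ <;>
      linarith [sq_nonneg (pab d r (j, k j) p).1, sq_nonneg (pab d r (j, k j) p).2.2,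
        sq_nonneg ((pab d r (j, k j) p).2.1 - a j), sq_nonneg (sn d (p.1.2 j))]
    refine ⟨ha, fun j => Prod.ext (t j).1 (Prod.ext (sub_eq_zero.1 (t j).2.2.1) (t j).2.1),
      fun j => (t j).2.2.2, h1', fun f hf => ?_⟩
    have e := (le_DD' (d := d) (r := r) (a := a) (p := p) hf).trans hD
    rw [W, div_le_iff₀ (by positivity), zero_mul, ← sq_norm_eq] at e
    exact norm_eq_zero.1 (pow_eq_zero_iff two_ne_zero |>.1 (le_antisymm e (sq_nonneg _)))
  rintro p ⟨hp, k, a, h⟩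
  have nr := h.near hc hl hC
  have hs : ∀ j, sn d (p.1.2 j) ^ 2 < 1 / 4 := fun j => by rw [h.sz j]; norm_num
  have e1 : ∀ᶠ x in 𝓝 p, ∀ j, A j x.1 = 1 := eventually_all.2 fun j => by
    have := (hA.loc j p.1 (fun i => ⟨lev (k i), (nr i).trans (by linarith)⟩) hs).2
    rw [h.one j] at this
    exact continuous_fst.continuousAt.eventually this
  refine ⟨h.zero hc hl hA hr hC, hLs.add contDiff_Cs, ?_, ?_⟩
  · obtain ⟨c₀, hc₀⟩ := (M4 p k fun j => (nr j).trans (by linarith)).2 nr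
    refine ContinuousLinearMap.ext fun v => ?_
    rw [dΛ, h.crit hL hC e1 hc₀]
    simp [h.sz]
  obtain ⟨c, hc0, e2⟩ := ev_dist hr hC k p
  have e3 : ∀ᶠ x in 𝓝 p, ∀ j, |xx d (j, k j) x| < d / 8 := eventually_all.2 fun j => by
    have : Continuous fun x : Q n × (Fa n K → ℂ) => |xx d (j, k j) x| := by unfold xx; fun_prop
    exact this.continuousAt.eventually_lt_const ((nr j).trans (by linarith))
  have e4 : ∀ᶠ x in 𝓝 p, ∀ j, sn d (x.1.2 j) ^ 2 < 1 / 4 := eventually_all.2 fun j => by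
    have : Continuous fun x : Q n × (Fa n K → ℂ) => sn d (x.1.2 j) ^ 2 := by unfold sn; fun_prop
    exact this.continuousAt.eventually_lt_const (hs j)
  have e5 : ∀ᶠ x in 𝓝 p, ∀ j, |x.1.2 j - p.1.2 j| < d / 2 := eventually_all.2 fun j => by
    have : Continuous fun x : Q n × (Fa n K → ℂ) => |x.1.2 j - p.1.2 j| := by fun_prop
    exact this.continuousAt.eventually_lt_const (by simpa using hd)
  have e6 : ∀ᶠ x in 𝓝 p, ∀ j, ∀ a' ∈ Zs,
      ((pab d r (j, k j) x).2.1 - a j) ^ 2 ≤ ((pab d r (j, k j) x).2.1 - a') ^ 2 :=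
    eventually_all.2 fun j => (eventually_all_finset Zs).2 fun a' _ => by
      by_cases e : a j - a' = 0
      · rw [sub_eq_zero.1 e]
        exact Eventually.of_forall fun _ => le_rfl
      · have cp := (hC.smp (j, k j)).continuous.snd.fst
        have c1 : Continuous fun x => ((pab d r (j, k j) x).2.1 - a j) ^ 2 :=
          (cp.sub continuous_const).pow 2
        have c2 : Continuous fun x => ((pab d r (j, k j) x).2.1 - a') ^ 2 :=
          (cp.sub continuous_const).pow 2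
        refine (c1.continuousAt.eventually_lt c2.continuousAt ?_).mono fun _ => le_of_lt
        simp only [h.val j, sub_self, zero_pow two_ne_zero]
        positivity
  refine ⟨min (m / 2) 1 / (c ^ 2 * (1 + r) ^ 2), by positivity, ?_⟩
  rw [nhdsWithin_univ]
  filter_upwards [e1, e2, e3, e4, e5, e6, h.int hc hl hA hr hC hn] with x b1 b2 b3 b4 b5 b6 b7
  obtain ⟨a', ha', hb⟩ := (key x b7 k b3 b4).2 b1
  have f1 : DD d r k a x ≤ DD d r k a' x :=
    add_le_add (Finset.sum_le_sum fun j _ => by linarith [b6 j _ (ha' j)]) le_rfl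
  have f2 := norm_le_DD h hr fun j =>
    sn_le hd (by linarith [hc.dle, hc.wle]) (h.sz j) (b5 j).le
  have f3 : ‖x - p‖ ^ 2 ≤ c ^ 2 * (1 + r) ^ 2 * DD d r k a' x :=
    calc ‖x - p‖ ^ 2 ≤ (c * ‖FF d r k x - FF d r k p‖) ^ 2 := by gcongr
      _ ≤ c ^ 2 * ((1 + r) ^ 2 * DD d r k a x) := by rw [mul_pow]; gcongr
      _ ≤ _ := by rw [mul_assoc]; gcongr
  refine le_trans ?_ hb
  rw [div_mul_eq_mul_div, div_le_iff₀ (by positivity), mul_assoc]
  refine mul_le_mul_of_nonneg_left ?_ (by positivity)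
  linarith

end Pool.Agent.MP_6d695c_gt.SW

end MrgPart9

-- marker of a merged file
example : 731051 + 176807 = 731051 + 176807 := rfl
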