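import Mathlib.Geometry.Manifold.PartitionOfUnity
import Mathlib.Analysis.Calculus.Deriv.Slope
import Pool.Agent.MP_6d695c_gt.sw.Zer
import Mathlib.Geometry.Manifold.MFDeriv.SpecificFunctions
import Mathlib.Geometry.Manifold.MFDeriv.Atlas
import Mathlib.Geometry.Manifold.ContMDiff.NormedSpace
import Mathlib.Geometry.Manifold.Algebra.Structures
import Pool.Agent.MP_6d695c_gt.sw.Compl
import Mathlib.MeasureTheory.Function.Jacobian
import Mathlib.Analysis.InnerProductSpace.Dual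
import Pool.Agent.MP_6d695c_gt.sw.Base
import Mathlib.LinearAlgebra.Eigenspace.Minpoly

-- ======== part 0: formerly Pool.Agent.MP_6d695c_gt.sw.Emb
section MrgPart0

/-! PROJECT SW, row EMB: the part `φ < 6` of the manifold inside a vector space. -/

open scoped Manifold ContDiff Topology
open Set Metric Filter Real

namespace Pool.Agent.MP_6d695c_gt.SW

namespace Em

variable {d : ℕ} {W : Type} [TopologicalSpace W] [ChartedSpace (Euc d) W]
  {V : Type} [NormedAddCommGroup V] [NormedSpace ℝ V]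

theorem der_cp {e : W → V} {u : V → ℝ} {u' : W → ℝ} {x : W}
    (he : MDifferentiableAt (𝓡 d) 𝓘(ℝ, V) e x) (hu : DifferentiableAt ℝ u (e x))
    (h : ∀ᶠ y in 𝓝 x, u' y = u (e y)) (v : Euc d) :
    der (𝓡 d) u' x v = fderiv ℝ u (e x) (mfderiv (𝓡 d) 𝓘(ℝ, V) e x v) := by
  have h1 := (hu.hasFDerivAt.hasMFDerivAt.comp x he.hasMFDerivAt).congr_of_eventuallyEq h
  exact congrArg (fun L => L v) h1.mfderiv

/-- the exhausting function, made flat on the compact part -/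
theorem flat {Z : VField (𝓡 d) W} {φ₀ : W → ℝ} {K : Set W} (hex : Exhausting (𝓡 d) φ₀)
    (hK : IsCompact K) (hpos : ∀ x ∉ K, 0 < der (𝓡 d) φ₀ x (Z x)) :
    ∃ φ : W → ℝ, Exhausting (𝓡 d) φ ∧ (∀ x, 0 ≤ φ x) ∧ (∀ x, 0 ≤ der (𝓡 d) φ x (Z x)) ∧
      ∀ x, 1 / 8 ≤ φ x → 0 < der (𝓡 d) φ x (Z x) := by
  obtain ⟨a, ha⟩ := (hK.image hex.1.continuous).bddAbove
  have hs : ContDiff ℝ ∞ smoothTransition := smoothTransition.contDiff
  let β : ℝ → ℝ := fun s => (s - a) * smoothTransition (s - a)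
  have hβ : ContDiff ℝ ∞ β :=
    (contDiff_id.sub contDiff_const).mul (hs.comp (contDiff_id.sub contDiff_const))
  have hd : ∀ s, HasDerivAt β (smoothTransition (s - a) +
      (s - a) * deriv smoothTransition (s - a)) s := fun s => by
    have h1 : HasDerivAt (fun s : ℝ => s - a) 1 s := (hasDerivAt_id s).sub_const a
    have h2 := h1.mul ((hs.differentiable (by simp) (s - a)).hasDerivAt.comp s h1)
    rw [one_mul, mul_one] at h2
    exact h2
  have hz : ∀ s ≤ a, β s = 0 := fun s h => by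
    simp only [β, smoothTransition.zero_of_nonpos (sub_nonpos.2 h), mul_zero]
  have hder : ∀ x, der (𝓡 d) (fun x => β (φ₀ x)) x (Z x) = der (𝓡 d) φ₀ x (Z x) *
      (smoothTransition (φ₀ x - a) + (φ₀ x - a) * deriv smoothTransition (φ₀ x - a)) := fun x => by
    rw [der_cp (e := φ₀) (u := β) (hex.1.mdifferentiableAt (by simp))
      (hβ.differentiable (by simp) _) (Eventually.of_forall fun _ => rfl),
      (hd _).hasFDerivAt.fderiv]
    rfl
  have hp : ∀ x, a < φ₀ x → 0 < der (𝓡 d) (fun x => β (φ₀ x)) x (Z x) := fun x hx => by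
    rw [hder]
    refine mul_pos (hpos x fun h => absurd (ha ⟨x, h, rfl⟩) (not_le.2 hx)) ?_
    have h1 := smoothTransition.pos_of_pos (sub_pos.2 hx)
    have h2 := mul_nonneg (sub_pos.2 hx).le
      (smoothTransition.monotone.deriv_nonneg (x := φ₀ x - a))
    linarith
  refine ⟨fun x => β (φ₀ x), ⟨hβ.contMDiff.comp hex.1, fun c => ?_⟩, fun x => ?_, fun x => ?_,
    fun x hx => hp x (not_le.1 fun h => by linarith [hz _ h, show 1 / 8 ≤ β (φ₀ x) from hx])⟩
  · refine (hex.2 (a + max 1 c)).of_isClosed_subset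
      (isClosed_le (hβ.continuous.comp hex.1.continuous) continuous_const) fun x hx => ?_
    by_contra h
    have h1 := max_lt_iff.1 (show max 1 c < φ₀ x - a by
      linarith [show a + max 1 c < φ₀ x from not_le.1 h])
    have h2 : β (φ₀ x) ≤ c := hx
    simp only [β, smoothTransition.one_of_one_le h1.1.le, mul_one] at h2
    linarith [h1.2]
  · rcases le_or_gt (φ₀ x) a with h | h
    · exact (hz _ h).ge
    · exact mul_nonneg (sub_pos.2 h).le (smoothTransition.nonneg _)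
  · rcases lt_trichotomy (φ₀ x) a with h | h | h
    · have h1 : deriv smoothTransition (φ₀ x - a) = 0 := by
        have : smoothTransition =ᶠ[𝓝 (φ₀ x - a)] fun _ => 0 :=
          (gt_mem_nhds (sub_neg.2 h)).mono fun s hs => smoothTransition.zero_of_nonpos hs.le
        rw [this.deriv_eq, deriv_const]
      rw [hder, h1, smoothTransition.zero_of_nonpos (sub_nonpos.2 h.le)]
      simp
    · rw [hder, h]
      simp
    · exact (hp x h).le

/-- a chart of `W` read through `e` -/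
structure Loc (e : W → V) (p : W) (r : V → Euc d) (N : Set V) : Prop where
  oN : IsOpen N
  sr : ContDiffOn ℝ ∞ r N
  src : ∀ x, e x ∈ N → x ∈ (extChartAt (𝓡 d) p).source ∧ r (e x) = extChartAt (𝓡 d) p x

variable [IsManifold (𝓡 d) ∞ W] {e : W → V} {p : W} {r : V → Euc d} {N : Set V}

/-- finitely many bump functions times charts -/
theorem exists_loc [T2Space W] {C : Set W} (hC : IsCompact C) :
    ∃ (n : ℕ) (e : W → Fin n → Euc d × ℝ), ContMDiff (𝓡 d) 𝓘(ℝ, Fin n → Euc d × ℝ) ∞ e ∧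
      ∀ x ∈ C, ∃ (p : W) (r : (Fin n → Euc d × ℝ) → Euc d) (N : Set (Fin n → Euc d × ℝ)),
        Loc e p r N ∧ e x ∈ N := by
  let θ : ∀ p : W, SmoothBumpFunction (𝓡 d) p := fun p => Classical.arbitrary _
  obtain ⟨t, -, ht⟩ := hC.elim_nhds_subcover (fun p => Function.support (θ p))
    fun p _ => (θ p).support_mem_nhds
  let q : Fin t.card → W := fun i => t.equivFin.symm i
  refine ⟨t.card, fun x i => (θ (q i) x • extChartAt (𝓡 d) (q i) x, θ (q i) x),
    contMDiff_pi_space.2 fun i => ((θ (q i)).contMDiff_smul contMDiffOn_extChartAt).prodMk_space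
      (θ (q i)).contMDiff, fun x hx => ?_⟩
  obtain ⟨p, hp, hx⟩ := mem_iUnion₂.1 (ht hx)
  have h1 : ∀ i, ContDiff ℝ ∞ fun v : Fin t.card → Euc d × ℝ => v i := fun i => contDiff_apply _ _ i
  refine ⟨q (t.equivFin ⟨p, hp⟩), fun v => (v (t.equivFin ⟨p, hp⟩)).2⁻¹ • (v (t.equivFin ⟨p, hp⟩)).1,
    {v | (v (t.equivFin ⟨p, hp⟩)).2 ≠ 0}, ⟨isOpen_ne_fun (h1 _).snd.continuous continuous_const,
      ((h1 _).snd.contDiffOn.inv fun v hv => hv).smul (h1 _).fst.contDiffOn, fun y hy => ?_⟩, ?_⟩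
  · refine ⟨by rw [extChartAt_source]; exact (θ _).support_subset_source hy, ?_⟩
    exact inv_smul_smul₀ hy _
  · have : q (t.equivFin ⟨p, hp⟩) = p := by simp [q]
    show θ _ x ≠ 0
    rw [this]
    exact hx

omit [IsManifold (𝓡 d) ∞ W] in
theorem Loc.der (h : Loc e p r N) (he : ContMDiff (𝓡 d) 𝓘(ℝ, V) ∞ e) {x : W} (hx : e x ∈ N)
    (v : Euc d) : fderiv ℝ r (e x) (mfderiv (𝓡 d) 𝓘(ℝ, V) e x v) =
      mfderiv (𝓡 d) 𝓘(ℝ, Euc d) (extChartAt (𝓡 d) p) x v := by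
  have h0 : extChartAt (𝓡 d) p =ᶠ[𝓝 x] r ∘ e :=
    (he.continuous.continuousAt.eventually (h.oN.mem_nhds hx)).mono fun y hy => (h.src y hy).2.symm
  have h1 := (((h.sr.contDiffAt (h.oN.mem_nhds hx)).differentiableAt
    (by simp)).hasFDerivAt.hasMFDerivAt.comp x
      (he.mdifferentiableAt (x := x) (by simp)).hasMFDerivAt).congr_of_eventuallyEq h0
  exact (congrArg (fun L => L v) h1.mfderiv).symm

theorem sm_g {F : Type} [NormedAddCommGroup F] [NormedSpace ℝ F] {u : W → F}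
    (hu : ContMDiff (𝓡 d) 𝓘(ℝ, F) ∞ u) (p : W) :
    ContDiffOn ℝ ∞ (fun y => u ((extChartAt (𝓡 d) p).symm y)) (extChartAt (𝓡 d) p).target :=
  fun _ hy => ((hu _).comp _ (Mfd.sm_symm hy)).contDiffAt.contDiffWithinAt

theorem Loc.par (h : Loc e p r N) (he : ContMDiff (𝓡 d) 𝓘(ℝ, V) ∞ e) {U : Set W} (hU : IsOpen U) :
    Par (e '' U) (fun y => e ((extChartAt (𝓡 d) p).symm y)) r
      ((extChartAt (𝓡 d) p).target ∩ (extChartAt (𝓡 d) p).symm ⁻¹' (U ∩ e ⁻¹' N)) N where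
  oO := (continuousOn_extChartAt_symm p).isOpen_inter_preimage (isOpen_extChartAt_target p)
    (hU.inter (h.oN.preimage he.continuous))
  oN := h.oN
  sg := (sm_g he p).mono inter_subset_left
  sr := h.sr
  gm y hy := ⟨⟨_, hy.2.1, rfl⟩, hy.2.2,
    (h.src _ hy.2.2).2.trans ((extChartAt (𝓡 d) p).right_inv hy.1)⟩
  rm := by
    rintro _ ⟨x, hx, rfl⟩ hN
    obtain ⟨h1, h2⟩ := h.src x hN
    have h3 := (extChartAt (𝓡 d) p).left_inv h1
    rw [h2]
    exact ⟨⟨(extChartAt (𝓡 d) p).map_source h1, by rw [mem_preimage, h3]; exact ⟨hx, hN⟩⟩,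
      congrArg e h3⟩

theorem Loc.tg (h : Loc e p r N) (he : ContMDiff (𝓡 d) 𝓘(ℝ, V) ∞ e) {U : Set W} (hU : IsOpen U)
    {x : W} (hx : x ∈ U) (hN : e x ∈ N) :
    Tg (e '' U) (e x) = range (mfderiv (𝓡 d) 𝓘(ℝ, V) e x) := by
  obtain ⟨h1, h2⟩ := h.src x hN
  obtain ⟨h3, h4⟩ := (h.par he hU).rm _ ⟨x, hx, rfl⟩ hN
  have h5 := (h.par he hU).tg h3
  have h6 := fun v => Mfd.fderiv_in' h1 (he.mdifferentiableAt (x := x) (by simp)) v
  rw [h4, h2] at h5
  rw [h5]
  ext v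
  constructor
  · rintro ⟨u, rfl⟩
    refine ⟨mfderiv 𝓘(ℝ, Euc d) (𝓡 d) (extChartAt (𝓡 d) p).symm (extChartAt (𝓡 d) p x) u, ?_⟩
    exact (h6 _).symm.trans (congrArg _ (Mfd.dC_dS h1 u))
  · rintro ⟨u, rfl⟩
    exact ⟨_, h6 u⟩

theorem Loc.inj (h : Loc e p r N) (he : ContMDiff (𝓡 d) 𝓘(ℝ, V) ∞ e) {x : W} (hN : e x ∈ N) :
    Function.Injective (mfderiv (𝓡 d) 𝓘(ℝ, V) e x) := fun u v huv => by
  have h1 := (h.der he hN u).symm.trans ((congrArg _ huv).trans (h.der he hN v))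
  exact (Mfd.dS_dC (h.src x hN).1 u).symm.trans
    ((congrArg _ h1).trans (Mfd.dS_dC (h.src x hN).1 v))

omit [IsManifold (𝓡 d) ∞ W] in
/-- smooth extension of data given on the image of a compact set -/
theorem extend [FiniteDimensional ℝ V] {F : Type} [NormedAddCommGroup F] [NormedSpace ℝ F]
    {C : Set W} (hC : IsCompact C) (he : Continuous e)
    (hl : ∀ x ∈ C, ∃ (p : W) (r : V → Euc d) (N : Set V), Loc e p r N ∧ e x ∈ N)
    {P : W → Set F} (hP : ∀ x, Convex ℝ (P x))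
    (ha : ∀ (p : W) (r : V → Euc d) (N : Set V), Loc e p r N → ∃ a : V → F,
      ContDiffOn ℝ ∞ a (N ∩ r ⁻¹' (extChartAt (𝓡 d) p).target) ∧ ∀ x, e x ∈ N → a (e x) ∈ P x) :
    ∃ A : V → F, ContDiff ℝ ∞ A ∧ ∀ x ∈ C, A (e x) ∈ P x := by
  obtain ⟨A, hA⟩ := exists_contMDiffMap_forall_mem_convex_of_local (n := ⊤) 𝓘(ℝ, V)
    (t := fun v => ⋂ x ∈ {x ∈ C | e x = v}, P x)
    (fun v => convex_iInter₂ fun x _ => hP x) fun v => by
      by_cases hv : v ∈ e '' C
      · obtain ⟨x, hx, rfl⟩ := hv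
        obtain ⟨p, r, N, h, hN⟩ := hl x hx
        obtain ⟨a, h1, h2⟩ := ha p r N h
        refine ⟨_, (h.sr.continuousOn.isOpen_inter_preimage h.oN
          (isOpen_extChartAt_target p)).mem_nhds ⟨hN, ?_⟩, a, h1.contMDiffOn, fun y hy => ?_⟩
        · rw [mem_preimage, (h.src x hN).2]
          exact (extChartAt (𝓡 d) p).map_source (h.src x hN).1
        · refine mem_iInter₂.2 fun x' hx' => ?_
          obtain ⟨-, rfl⟩ := hx'
          exact h2 x' hy.1
      · exact ⟨_, (hC.image he).isClosed.isOpen_compl.mem_nhds hv, fun _ => 0, contMDiffOn_const,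
          fun y hy => mem_iInter₂.2 fun x' hx' => absurd ⟨x', hx'.1, hx'.2⟩ hy⟩
  exact ⟨A, A.contMDiff.contDiff, fun x hx => mem_iInter₂.1 (hA (e x)) x ⟨hx, rfl⟩⟩

variable {l : OneForm (𝓡 d) W} {Z : VField (𝓡 d) W}

/-- the inverse of `dl` in a chart -/
theorem inv_in (h : PreL (𝓡 d) l Z) (p : W) :
    ∃ S : Euc d → (Euc d →L[ℝ] ℝ) →L[ℝ] Euc d, ContDiffOn ℝ ∞ S (extChartAt (𝓡 d) p).target ∧
      ∀ y ∈ (extChartAt (𝓡 d) p).target, ∀ α v, dd (formIn (𝓡 d) l p) y (S y α) v = α v := by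
  have ho := isOpen_extChartAt_target (I := 𝓡 d) p
  have hD : ContDiffOn ℝ ∞ (fderiv ℝ (formIn (𝓡 d) l p)) (extChartAt (𝓡 d) p).target :=
    (h.smooth p).fderiv_of_isOpen ho (by simp)
  have hB : ContDiffOn ℝ ∞ (fun y => fderiv ℝ (formIn (𝓡 d) l p) y -
      (fderiv ℝ (formIn (𝓡 d) l p) y).flip) (extChartAt (𝓡 d) p).target :=
    hD.sub (contDiffOn_clm_apply.2 fun u => contDiffOn_clm_apply.2 fun v =>
      (hD.clm_apply contDiffOn_const).clm_apply contDiffOn_const)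
  have hi : ∀ y ∈ (extChartAt (𝓡 d) p).target, (fderiv ℝ (formIn (𝓡 d) l p) y -
      (fderiv ℝ (formIn (𝓡 d) l p) y).flip).IsInvertible := fun y hy =>
    Mfd.isInvertible_of_nondeg fun u hu =>
      Mfd.nondeg_in h ((extChartAt (𝓡 d) p).map_target hy) u fun v => by
        rw [(extChartAt (𝓡 d) p).right_inv hy]
        exact hu v
  refine ⟨_, fun y hy => (hi y hy).contDiffAt_map_inverse.comp_contDiffWithinAt y (hB y hy),
    fun y hy α v => ?_⟩
  exact congrArg (fun L => L v) ((hi y hy).inverse_apply_eq.1 (rfl : _ = _)).symm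

/-- `A` inverts `dl` at `x` -/
def PiAt (l : OneForm (𝓡 d) W) (e : W → V) (x : W) : Set ((V →L[ℝ] ℝ) →L[ℝ] V) :=
  {A | ∀ α, ∃ u : Euc d, A α = mfderiv (𝓡 d) 𝓘(ℝ, V) e x u ∧
    ∀ v : Euc d, dForm (𝓡 d) l x u v = α (mfderiv (𝓡 d) 𝓘(ℝ, V) e x v)}

omit [IsManifold (𝓡 d) ∞ W] in
theorem convex_PiAt (l : OneForm (𝓡 d) W) (e : W → V) (x : W) : Convex ℝ (PiAt l e x) := by
  intro A hA B hB s t _ _ hst α
  obtain ⟨u, h1, h2⟩ := hA α
  obtain ⟨w, h3, h4⟩ := hB α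
  let D : Euc d →L[ℝ] V := mfderiv (𝓡 d) 𝓘(ℝ, V) e x
  refine ⟨s • u + t • w, ?_, fun v => ?_⟩
  · show s • A α + t • B α = D (s • u + t • w)
    rw [map_add, map_smul, map_smul, h1, h3]
    rfl
  · have : dForm (𝓡 d) l x (s • u + t • w) v =
        s * dForm (𝓡 d) l x u v + t * dForm (𝓡 d) l x w v := by
      simp only [dForm, map_add, map_smul, add_apply, smul_apply, smul_eq_mul]
      ring
    rw [this, h2, h4, ← add_mul, hst, one_mul]

theorem Loc.pi [FiniteDimensional ℝ V] (h : Loc e p r N) (he : ContMDiff (𝓡 d) 𝓘(ℝ, V) ∞ e)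
    (hP : PreL (𝓡 d) l Z) : ∃ a : V → (V →L[ℝ] ℝ) →L[ℝ] V,
      ContDiffOn ℝ ∞ a (N ∩ r ⁻¹' (extChartAt (𝓡 d) p).target) ∧
        ∀ x, e x ∈ N → a (e x) ∈ PiAt l e x := by
  obtain ⟨S, hS, hd⟩ := inv_in hP p
  have hg := (sm_g he p).fderiv_of_isOpen (m := ∞) (isOpen_extChartAt_target p) (by simp)
  set D := fderiv ℝ fun y => e ((extChartAt (𝓡 d) p).symm y) with hD
  refine ⟨fun v => (D (r v)).comp ((S (r v)).comp
    ((ContinuousLinearMap.compL ℝ (Euc d) V ℝ).flip (D (r v)))), ?_, fun x hx α => ?_⟩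
  · exact (hg.clm_comp (hS.clm_comp ((ContinuousLinearMap.contDiff _).comp_contDiffOn hg))).comp
      (h.sr.mono inter_subset_left) fun v hv => hv.2
  · obtain ⟨h1, h2⟩ := h.src x hx
    have h6 := fun v => Mfd.fderiv_in' h1 (he.mdifferentiableAt (x := x) (by simp)) v
    refine ⟨mfderiv 𝓘(ℝ, Euc d) (𝓡 d) (extChartAt (𝓡 d) p).symm (extChartAt (𝓡 d) p x)
      (S (extChartAt (𝓡 d) p x) (α.comp (D (extChartAt (𝓡 d) p x)))), ?_, fun v => ?_⟩
    · refine Eq.trans ?_ (h6 _)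
      rw [Mfd.dC_dS h1]
      show D (r (e x)) (S (r (e x)) (α.comp (D (r (e x))))) = _
      rw [h2]
    · rw [Mfd.chart l hP.smooth p h1, Mfd.dC_dS h1, hd _ ((extChartAt (𝓡 d) p).map_source h1)]
      exact congrArg α (h6 v)

end Em

theorem emb : EmbStmt := by
  intro d W _ _ _ _ l Z φ₀ K hP hex hK hpos
  obtain ⟨φ, hφ, hn, hd, hs⟩ := Em.flat hex hK hpos
  obtain ⟨n, e, he, hl⟩ := Em.exists_loc (d := d) (hφ.2 6)
  have hU : IsOpen {x | φ x < 6} := isOpen_lt hφ.1.continuous continuous_const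
  have le6 : ∀ {x}, x ∈ {x | φ x < 6} → x ∈ {x | φ x ≤ 6} := fun {x} hx =>
    (show φ x < 6 from hx).le
  have hm : ∀ x, MDifferentiableAt (𝓡 d) 𝓘(ℝ, Fin n → Euc d × ℝ) e x := fun x =>
    he.mdifferentiableAt (by simp)
  obtain ⟨φ', hφ', fn⟩ := Em.extend (hφ.2 6) he.continuous hl (P := fun x => {φ x})
    (fun x => convex_singleton _) fun p r N h =>
      ⟨fun v => φ ((extChartAt (𝓡 d) p).symm (r v)),
        (Em.sm_g hφ.1 p).comp (h.sr.mono inter_subset_left) fun v hv => hv.2, fun x hx => by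
          show φ _ = φ x
          rw [(h.src x hx).2, (extChartAt (𝓡 d) p).left_inv (h.src x hx).1]⟩
  obtain ⟨l', hl', form⟩ := Em.extend (F := (Fin n → Euc d × ℝ) →L[ℝ] ℝ) (hφ.2 6) he.continuous hl
    (P := fun x => {a | ∀ v : Euc d, l x v = a (mfderiv (𝓡 d) 𝓘(ℝ, Fin n → Euc d × ℝ) e x v)})
    (fun x a ha b hb s t _ _ hst v => by
      rw [add_apply, smul_apply, smul_apply, ← ha v, ← hb v, ← add_smul, hst, one_smul])
    fun p r N h => ⟨fun v => (formIn (𝓡 d) l p (r v)).comp (fderiv ℝ r v),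
      ((hP.smooth p).comp (h.sr.mono inter_subset_left) fun v hv => hv.2).clm_comp
        ((h.sr.fderiv_of_isOpen h.oN (by simp)).mono inter_subset_left), fun x hx v => by
          refine (Mfd.formIn_dC l (h.src x hx).1 v).symm.trans ?_
          rw [← h.der he hx v, ← (h.src x hx).2]
          rfl⟩
  obtain ⟨Pi, hPi, pi⟩ := Em.extend (hφ.2 6) he.continuous hl (Em.convex_PiAt l e)
    fun p r N h => h.pi he hP
  have tg : ∀ x, φ x < 6 → Tg (e '' {x | φ x < 6}) (e x) =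
      range (mfderiv (𝓡 d) 𝓘(ℝ, Fin n → Euc d × ℝ) e x) := fun x hx => by
    obtain ⟨p, r, N, h, hN⟩ := hl x hx.le
    exact h.tg he hU hx hN
  have fld : ∀ x, φ x < 6 →
      mfderiv (𝓡 d) 𝓘(ℝ, Fin n → Euc d × ℝ) e x (Z x) = Pi (e x) (l' (e x)) := fun x hx => by
    obtain ⟨u, h1, h2⟩ := pi x hx.le (l' (e x))
    have h3 : u - (show Euc d from Z x) = 0 := hP.nondeg x _ fun v => by
      have h4 := (h2 v).trans ((form x hx.le v).symm.trans (hP.dual x v).symm)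
      simp only [dForm, map_sub, sub_apply] at h4 ⊢
      linarith
    rw [h1, sub_eq_zero.1 h3]
  refine ⟨n, φ, e, l', Pi, φ', hφ, hn, hd, hs, he, ⟨?_, hl', hPi, hφ', ?_, ?_, fun c hc => ?_, ?_, ?_⟩,
    fun x hx => fn x hx.le, fun x hx => form x hx.le, tg, fun x hx => ?_, fld, fun x hx => ?_⟩
  · rintro _ ⟨x, hx, rfl⟩
    obtain ⟨p, r, N, h, hN⟩ := hl x (le6 hx)
    exact ⟨_, _, _, _, h.par he hU, hN⟩
  · rintro _ ⟨x, hx, rfl⟩ α
    obtain ⟨u, h1, -⟩ := pi x (le6 hx) α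
    rw [tg x hx]
    exact ⟨u, h1.symm⟩
  · rintro _ ⟨x, hx, rfl⟩ α v hv
    obtain ⟨u, h1, h2⟩ := pi x (le6 hx) α
    rw [tg x hx] at hv
    obtain ⟨w, rfl⟩ := hv
    rw [h1, ← h2]
    exact (Mfd.pull l (he x) hl'.contDiffAt
      (mem_of_superset (hU.mem_nhds hx) fun y hy => form y (le6 hy)) u w).symm
  · have : {v ∈ e '' {x | φ x < 6} | φ' v ≤ c} = e '' {x | φ x ≤ c} := by
      ext v
      constructor
      · rintro ⟨⟨x, hx, rfl⟩, h⟩
        exact ⟨x, (fn x (le6 hx)).symm.trans_le h, rfl⟩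
      · rintro ⟨x, hx, rfl⟩
        have h6 : φ x < 6 := lt_of_le_of_lt hx hc
        exact ⟨⟨x, h6, rfl⟩, (fn x h6.le).trans_le hx⟩
    rw [this]
    exact (hφ.2 c).image he.continuous
  · rintro _ ⟨x, hx, rfl⟩
    exact (hn x).trans_eq (fn x (le6 hx)).symm
  · rintro _ ⟨x, hx, rfl⟩ h
    rw [← fld x hx]
    exact (hs x (h.trans_eq (fn x (le6 hx)))).trans_eq (Em.der_cp (hm x)
      (hφ'.differentiable (by simp) _)
      (mem_of_superset (hU.mem_nhds hx) fun y hy => (fn y (le6 hy)).symm) _)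
  · obtain ⟨p, r, N, h, hN⟩ := hl x hx.le
    exact h.inj he hN
  · obtain ⟨p, r, N, h, hN⟩ := hl x hx.le
    refine ⟨fun v => (extChartAt (𝓡 d) p).symm (r v), ContMDiffAt.comp (e x) (Mfd.sm_symm ?_)
      (h.sr.contDiffAt (h.oN.mem_nhds hN)).contMDiffAt, ?_⟩
    · rw [(h.src x hN).2]
      exact (extChartAt (𝓡 d) p).map_source (h.src x hN).1
    · filter_upwards [h.oN.mem_nhds hN] with v hv x' _ hx'
      subst hx'
      rw [(h.src x' hv).2, (extChartAt (𝓡 d) p).left_inv (h.src x' hv).1]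

end Pool.Agent.MP_6d695c_gt.SW

end MrgPart0

-- ======== part 1: formerly Pool.Agent.MP_6d695c_gt.sw.FinA
section MrgPart1

/-! PROJECT SW: from the ambient space to `W × ℂ^k`, derivatives. -/

open scoped Manifold ContDiff Topology
open Set Metric Filter Real

namespace Pool.Agent.MP_6d695c_gt.SW

variable {d k : ℕ} {W : Type} [TopologicalSpace W] [ChartedSpace (Euc d) W]
  {V : Type} [NormedAddCommGroup V] [NormedSpace ℝ V]

/-- `e × id` -/
def eh (e : W → V) (k : ℕ) (p : W × (Fin k → ℂ)) : V × (Fin k → ℂ) := (e p.1, p.2)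

theorem eh_smooth {e : W → V} (he : ContMDiff (𝓡 d) 𝓘(ℝ, V) ∞ e) :
    ContMDiff (IP d k) 𝓘(ℝ, V × (Fin k → ℂ)) ∞ (eh e k) :=
  (he.comp contMDiff_fst).prodMk_space contMDiff_snd

theorem eh_der {e : W → V} (he : ContMDiff (𝓡 d) 𝓘(ℝ, V) ∞ e) (p : W × (Fin k → ℂ))
    (v : Euc d × (Fin k → ℂ)) :
    mfderiv (IP d k) 𝓘(ℝ, V × (Fin k → ℂ)) (eh e k) p v =
      (mfderiv (𝓡 d) 𝓘(ℝ, V) e p.1 v.1, v.2) := by
  have h0 := ((eh_smooth (k := k) he).mdifferentiableAt (x := p) (by simp)).hasMFDerivAt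
  have h1 := (he.mdifferentiableAt (x := p.1) (by simp)).hasMFDerivAt.comp p
    (hasMFDerivAt_fst (I := 𝓡 d) (I' := 𝓘(ℝ, Fin k → ℂ)) p)
  have h2 := hasMFDerivAt_snd (I := 𝓡 d) (I' := 𝓘(ℝ, Fin k → ℂ)) p
  have h3 := (ContinuousLinearMap.fst ℝ V (Fin k → ℂ)).hasFDerivAt.hasMFDerivAt.comp p h0
  have h4 := (ContinuousLinearMap.snd ℝ V (Fin k → ℂ)).hasFDerivAt.hasMFDerivAt.comp p h0
  have h5 := h3.mfderiv.symm.trans h1.mfderiv
  have h6 := h4.mfderiv.symm.trans h2.mfderiv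
  exact Prod.ext (congrArg (fun L => L v) h5) (congrArg (fun L => L v) h6)

section
variable {E : Type} [NormedAddCommGroup E] [NormedSpace ℝ E] {H : Type} [TopologicalSpace H]
  {I : ModelWithCorners ℝ E H} {M : Type} [TopologicalSpace M] [ChartedSpace H M]

theorem der_comp {e : M → V} {u : V → ℝ} {u' : M → ℝ} {x : M}
    (he : MDifferentiableAt I 𝓘(ℝ, V) e x) (hu : DifferentiableAt ℝ u (e x))
    (h : ∀ᶠ y in 𝓝 x, u' y = u (e y)) (v : E) :
    der I u' x v = fderiv ℝ u (e x) (mfderiv I 𝓘(ℝ, V) e x v) := by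
  have h1 := (hu.hasFDerivAt.hasMFDerivAt.comp x he.hasMFDerivAt).congr_of_eventuallyEq h
  exact congrArg (fun L => L v) h1.mfderiv

theorem der_zero {u : M → ℝ} {x : M} (h : ∀ᶠ y in 𝓝 x, u y = 0) (v : E) : der I u x v = 0 := by
  have h1 := (hasMFDerivAt_const (I := I) (I' := 𝓘(ℝ, ℝ)) (0 : ℝ) x).congr_of_eventuallyEq h
  exact congrArg (fun L => L v) h1.mfderiv

theorem der_affine {u u' : M → ℝ} {x : M} {A B : ℝ} (hu : MDifferentiableAt I 𝓘(ℝ, ℝ) u x)
    (h : ∀ᶠ y in 𝓝 x, u' y = A * u y + B) (v : E) : der I u' x v = A * der I u x v := by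
  have h0 : HasFDerivAt (fun s : ℝ => A * s + B) (A • ContinuousLinearMap.id ℝ ℝ) (u x) :=
    ((hasFDerivAt_id (u x)).const_mul A).add_const B
  rw [der_comp (e := u) (u := fun s => A * s + B) hu h0.differentiableAt h, h0.fderiv]
  rfl

end

/-- `φ + |z|²` on `W × ℂ^k` -/
def psi (φ : W → ℝ) (k : ℕ) (p : W × (Fin k → ℂ)) : ℝ := φ p.1 + nsq p.2

theorem psi_smooth {φ : W → ℝ} (h : ContMDiff (𝓡 d) 𝓘(ℝ, ℝ) ∞ φ) :
    ContMDiff (IP d k) 𝓘(ℝ, ℝ) ∞ (psi φ k) :=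
  (contDiff_ph (V := ℝ) (u := id) contDiff_id).contMDiff.comp (eh_smooth h)

theorem psi_der {φ : W → ℝ} (h : ContMDiff (𝓡 d) 𝓘(ℝ, ℝ) ∞ φ) (p : W × (Fin k → ℂ))
    (v : Euc d × (Fin k → ℂ)) :
    der (IP d k) (psi φ k) p v = der (𝓡 d) φ p.1 v.1 + 2 * ipc p.2 v.2 := by
  refine (der_comp (e := eh φ k) (u := ph id) (u' := psi φ k)
    ((eh_smooth h).mdifferentiableAt (by simp))
    ((contDiff_ph (V := ℝ) (u := id) contDiff_id).differentiable (by simp) _)
    (Eventually.of_forall fun _ => rfl) v).trans ?_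
  rw [eh_der h]
  refine (fderiv_ph contDiff_id _ _).trans ?_
  rw [fderiv_id]
  rfl

theorem psi_cpt {φ : W → ℝ} (h : Exhausting (𝓡 d) φ) (nn : ∀ x, 0 ≤ φ x) (c : ℝ) :
    IsCompact {p | psi φ k p ≤ c} := by
  refine ((h.2 c).prod (isCompact_nsq c)).of_isClosed_subset
    (isClosed_le (psi_smooth h.1).continuous continuous_const) fun p hp => ?_
  have h1 := nn p.1
  have h2 := nsq_nonneg p.2
  simp only [psi, mem_ofPred_eq] at hp
  exact ⟨show φ p.1 ≤ c by linarith, show nsq p.2 ≤ c by linarith⟩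

/-- the product field -/
noncomputable def Z0 (Z : VField (𝓡 d) W) (k : ℕ) : VField (IP d k) (W × (Fin k → ℂ)) :=
  fun p => (Z p.1, (1 / 2 : ℝ) • p.2)

theorem Z0_complete {Z : VField (𝓡 d) W} (h : ∀ x, ∃ γ : ℝ → W, γ 0 = x ∧ IsMIntegralCurve γ Z)
    (p : W × (Fin k → ℂ)) : ∃ γ : ℝ → W × (Fin k → ℂ), γ 0 = p ∧ IsMIntegralCurve γ (Z0 Z k) := by
  obtain ⟨γ, h0, hγ⟩ := h p.1
  refine ⟨fun t => (γ t, exp (t / 2) • p.2), by simp [h0], fun t => ?_⟩
  have h1 : HasDerivAt (fun t : ℝ => exp (t / 2) • p.2) ((1 / 2 : ℝ) • exp (t / 2) • p.2) t := by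
    have := (((hasDerivAt_id t).div_const 2).exp).smul_const p.2
    rwa [mul_comm, mul_smul] at this
  have h2 := (hγ t).prodMk h1.hasFDerivAt.hasMFDerivAt
  refine h2.congr_mfderiv (ContinuousLinearMap.ext fun s => ?_)
  rfl

theorem omC_nondeg {ι : Type} [Fintype ι] [DecidableEq ι] {u : ι → ℂ} (h : ∀ v, omC u v = 0) :
    u = 0 := by
  funext i
  have key : ∀ c : ℂ, omC u (Pi.single i c) = (u i).re * c.im - (u i).im * c.re := fun c => by
    rw [omC, Finset.sum_eq_single i]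
    · simp
    · intro j _ hj; simp [Pi.single_eq_of_ne hj]
    · simp
  have h1 := key 1
  have h2 := key Complex.I
  rw [h] at h1 h2
  simp at h1 h2
  exact Complex.ext h2.symm h1

theorem omC_sub {ι : Type} [Fintype ι] (u u' v : ι → ℂ) : omC (u - u') v = omC u v - omC u' v := by
  simp only [omC, ← Finset.sum_sub_distrib, Pi.sub_apply, Complex.sub_re, Complex.sub_im]
  exact Finset.sum_congr rfl fun i _ => by ring

theorem dForm_zero (l : OneForm (𝓡 d) W) (x : W) (u : Euc d) : dForm (𝓡 d) l x u 0 = 0 := by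
  simp [dForm]

end Pool.Agent.MP_6d695c_gt.SW

end MrgPart1

-- ======== part 2: formerly Pool.Agent.MP_6d695c_gt.sw.Final
section MrgPart2

/-! PROJECT SW: the theorem on manifolds from the ambient theorem. -/

open scoped Manifold ContDiff Topology
open Set Metric Filter Real

namespace Pool.Agent.MP_6d695c_gt.SW

section
variable {d k : ℕ} {W : Type} [TopologicalSpace W] [ChartedSpace (Euc d) W]
  {V : Type} [NormedAddCommGroup V] [NormedSpace ℝ V] {l : OneForm (𝓡 d) W} {Z : VField (𝓡 d) W}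
  {φ : W → ℝ} {e : W → V} {l' : V → V →L[ℝ] ℝ} {Pi : V → (V →L[ℝ] ℝ) →L[ℝ] V} {φ' : V → ℝ}

/-- the derivative of `e` -/
noncomputable def De (d : ℕ) [ChartedSpace (Euc d) W] (e : W → V) (x : W) : Euc d →L[ℝ] V :=
  mfderiv (𝓡 d) 𝓘(ℝ, V) e x

open Classical in
/-- `G ∘ (e × id)` on `φ < 6`, and `F` elsewhere -/
noncomputable def glue (φ : W → ℝ) (e : W → V) (G : V × (Fin k → ℂ) → ℝ)
    (F : W × (Fin k → ℂ) → ℝ) (p : W × (Fin k → ℂ)) : ℝ := if φ p.1 < 6 then G (eh e k p) else F p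

variable {G : V × (Fin k → ℂ) → ℝ} {F : W × (Fin k → ℂ) → ℝ}

omit [NormedAddCommGroup V] [NormedSpace ℝ V] in
theorem glue_in (hφ : Continuous φ) {p : W × (Fin k → ℂ)} (hp : φ p.1 < 6) :
    ∀ᶠ q in 𝓝 p, glue φ e G F q = G (eh e k q) := by
  filter_upwards [(hφ.comp continuous_fst).continuousAt.eventually (gt_mem_nhds hp)] with q hq
  exact if_pos hq

omit [NormedAddCommGroup V] [NormedSpace ℝ V] in
theorem glue_out {p : W × (Fin k → ℂ)} (h : ∀ᶠ q in 𝓝 p, φ q.1 < 6 → G (eh e k q) = F q) :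
    ∀ᶠ q in 𝓝 p, glue φ e G F q = F q := by
  filter_upwards [h] with q hq
  by_cases h6 : φ q.1 < 6
  · exact (if_pos h6).trans (hq h6)
  · exact if_neg h6

theorem glue_smooth (hφ : Continuous φ) (he : ContMDiff (𝓡 d) 𝓘(ℝ, V) ∞ e) (hG : ContDiff ℝ ∞ G)
    (hF : ContMDiff (IP d k) 𝓘(ℝ, ℝ) ∞ F)
    (h : ∀ q : W × (Fin k → ℂ), 5 < φ q.1 → φ q.1 < 6 → G (eh e k q) = F q) :
    ContMDiff (IP d k) 𝓘(ℝ, ℝ) ∞ (glue φ e G F) := fun p => by
  by_cases hp : φ p.1 < 6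
  · exact ((hG.contMDiff.comp (eh_smooth he)) p).congr_of_eventuallyEq (glue_in hφ hp)
  · refine (hF p).congr_of_eventuallyEq (glue_out ?_)
    filter_upwards [(hφ.comp continuous_fst).continuousAt.eventually
      (lt_mem_nhds (show 5 < φ p.1 by linarith [not_lt.1 hp]))] with q hq using h q hq

theorem Emb.img (_ : Emb l Z φ e l' Pi φ') :
    eh e k '' {p | φ p.1 < 6} = hat (e '' {x | φ x < 6}) (Fin k) := by
  ext p
  constructor
  · rintro ⟨q, hq, rfl⟩
    exact ⟨q.1, hq, rfl⟩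
  · rintro ⟨x, hx, h⟩
    exact ⟨(x, p.2), hx, Prod.ext h rfl⟩

theorem Emb.ehinv (hE : Emb l Z φ e l' Pi φ') {p : W × (Fin k → ℂ)} (hp : φ p.1 < 6) :
    ∃ ρ : V × (Fin k → ℂ) → W × (Fin k → ℂ),
      ContMDiffAt 𝓘(ℝ, V × (Fin k → ℂ)) (IP d k) ∞ ρ (eh e k p) ∧
      ∀ᶠ v in 𝓝 (eh e k p), ∀ x' ∈ {p : W × (Fin k → ℂ) | φ p.1 < 6}, eh e k x' = v → ρ v = x' := by
  obtain ⟨ρ, h1, h2⟩ := hE.inv p.1 hp
  refine ⟨fun v => (ρ v.1, v.2), ?_, ?_⟩
  · exact (ContMDiffAt.comp (eh e k p) h1 contDiff_fst.contMDiff.contMDiffAt).prodMk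
      contDiff_snd.contMDiff.contMDiffAt
  · filter_upwards [(continuous_fst.tendsto (eh e k p)).eventually h2] with v hv x' hx' h
    exact Prod.ext (hv x'.1 hx' (congrArg Prod.fst h)) (congrArg Prod.snd h).symm

theorem Emb.ehinj (hE : Emb l Z φ e l' Pi φ') {p : W × (Fin k → ℂ)} (hp : φ p.1 < 6) :
    Function.Injective (mfderiv (IP d k) 𝓘(ℝ, V × (Fin k → ℂ)) (eh e k) p) := fun u v h => by
  have h1 := (eh_der hE.sm p u).symm.trans (h.trans (eh_der hE.sm p v))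
  exact Prod.ext (hE.inj p.1 hp (Prod.mk.inj h1).1) (Prod.mk.inj h1).2

variable {X : VField (IP d k) (W × (Fin k → ℂ))}

/-- the Hamiltonian field on the manifold is the ambient one -/
theorem Emb.link (hE : Emb l Z φ e l' Pi φ') (hG : ContDiff ℝ ∞ G)
    (hd : ∀ x, φ x < 6 → ∀ u v, dForm (𝓡 d) l x u v = dd l' (e x) (De d e x u) (De d e x v))
    (hX : ∀ p (v : Euc d × (Fin k → ℂ)), dForm (𝓡 d) l p.1 (X p).1 v.1 + omC (X p).2 v.2 =
      der (IP d k) (glue φ e G F) p v) (t : ℝ) {p : W × (Fin k → ℂ)} (hp : φ p.1 < 6) :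
    mfderiv (IP d k) 𝓘(ℝ, V × (Fin k → ℂ)) (eh e k) p (ZT Z X t p) =
      ZH l' Pi (fun q => t * G q) (eh e k p) := by
  have hGd : DifferentiableAt ℝ G (eh e k p) := hG.differentiable (by simp) _
  have key : ∀ v : Euc d × (Fin k → ℂ), dd l' (e p.1) (De d e p.1 (X p).1) (De d e p.1 v.1) +
      omC (X p).2 v.2 = fderiv ℝ G (eh e k p) (De d e p.1 v.1, v.2) := fun v => by
    rw [← hd p.1 hp, hX]
    exact (der_comp ((eh_smooth hE.sm).mdifferentiableAt (by simp)) hGd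
      (glue_in hE.ex.1.continuous hp) v).trans (congrArg _ (eh_der hE.sm p v))
  have hM : e p.1 ∈ e '' {x | φ x < 6} := ⟨p.1, hp, rfl⟩
  have htg : Tg (e '' {x | φ x < 6}) (e p.1) = range (De d e p.1) := hE.tg p.1 hp
  have h1 : De d e p.1 (X p).1 = Pi (e p.1) (d1 G (eh e k p)) :=
    hE.amb.uniq hM (by rw [htg]; exact ⟨_, rfl⟩) fun v hv => by
      rw [htg] at hv
      obtain ⟨u, rfl⟩ := hv
      simpa [omC, d1] using key (u, 0)
  have h2 : (X p).2 = shC (d2 G (eh e k p)) := sub_eq_zero.1 (omC_nondeg fun v => by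
    have := key (0, v)
    simp only [map_zero, dd, zero_apply, sub_self, zero_add] at this
    rw [omC_sub, omC_shC, this]
    simp [d2])
  have h3 : De d e p.1 (Z p.1) = Pi (e p.1) (l' (e p.1)) := hE.fld p.1 hp
  have h4 : fderiv ℝ (fun q => t * G q) (eh e k p) = t • fderiv ℝ G (eh e k p) :=
    fderiv_const_mul hGd t
  refine (eh_der hE.sm p _).trans (Prod.ext ?_ ?_)
  · show De d e p.1 ((show Euc d from Z p.1) + t • (X p).1) =
      Pi (e p.1) (l' (e p.1) + d1 (fun q => t * G q) (eh e k p))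
    rw [map_add, map_smul, map_add, h1, d1, d1, h4, ContinuousLinearMap.smul_comp, map_smul]
    exact congrArg (· + _) h3
  · show (1 / 2 : ℝ) • p.2 + t • (X p).2 =
      (1 / 2 : ℝ) • p.2 + shC (d2 (fun q => t * G q) (eh e k p))
    rw [h2, d2, d2, h4, ContinuousLinearMap.smul_comp, shC_smul]

theorem ZT_far (hP : PreL (𝓡 d) l Z)
    (hX : ∀ p (v : Euc d × (Fin k → ℂ)), dForm (𝓡 d) l p.1 (X p).1 v.1 + omC (X p).2 v.2 =
      der (IP d k) F p v) (t : ℝ) {p : W × (Fin k → ℂ)} (hp : ∀ᶠ q in 𝓝 p, F q = 0) :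
    ZT Z X t p = Z0 Z k p := by
  have h1 : (X p).1 = 0 := hP.nondeg p.1 _ fun v => by
    simpa [omC] using (hX p (v, 0)).trans (der_zero hp _)
  have h2 : (X p).2 = 0 := omC_nondeg fun v => by
    simpa [dForm_zero] using (hX p (0, v)).trans (der_zero hp _)
  refine Prod.ext ?_ ?_
  · show (show Euc d from Z p.1) + t • (X p).1 = Z p.1
    rw [h1, smul_zero, add_zero]
  · show (1 / 2 : ℝ) • p.2 + t • (X p).2 = (1 / 2 : ℝ) • p.2
    rw [h2, smul_zero, add_zero]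

theorem Emb.psi_pos (hE : Emb l Z φ e l' Pi φ') {p : W × (Fin k → ℂ)} (hp : 2 ≤ psi φ k p) :
    0 < der (IP d k) (psi φ k) p (Z0 Z k p) := by
  refine lt_of_lt_of_eq ?_ (psi_der hE.ex.1 p (Z0 Z k p)).symm
  show 0 < der (𝓡 d) φ p.1 (Z p.1) + 2 * ipc p.2 ((1 / 2 : ℝ) • p.2)
  rw [ipc_smul, ipc_self]
  have h1 := nsq_nonneg p.2
  have h2 := hE.nd p.1
  simp only [psi] at hp
  by_cases h : 1 ≤ φ p.1
  · linarith [hE.shell p.1 (by linarith)]
  · linarith [not_le.1 h]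

theorem chart_le [IsManifold (𝓡 d) ∞ W] (hE : Emb l Z φ e l' Pi φ') {p : W × (Fin k → ℂ)}
    (hp : φ p.1 < 6) : ∃ L, 0 < L ∧ ∀ᶠ x in 𝓝 p,
      ‖extChartAt (IP d k) p x - extChartAt (IP d k) p p‖ ≤ L * ‖eh e k x - eh e k p‖ := by
  obtain ⟨ρ, h1, h2⟩ := hE.ehinv hp
  have h0 : ρ (eh e k p) = p := h2.self_of_nhds p hp rfl
  have h3 : ContMDiffAt 𝓘(ℝ, V × (Fin k → ℂ)) 𝓘(ℝ, Euc d × (Fin k → ℂ)) ∞
      (extChartAt (IP d k) p ∘ ρ) (eh e k p) :=
    ContMDiffAt.comp _ (by rw [h0]; exact contMDiffAt_extChartAt) h1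
  obtain ⟨L, hL, h4⟩ := ((contMDiffAt_iff_contDiffAt.1 h3).differentiableAt
    (by simp)).hasFDerivAt.isBigO_sub.exists_pos
  have ht : Tendsto (eh e k) (𝓝 p) (𝓝 (eh e k p)) := (eh_smooth hE.sm).continuous.tendsto p
  refine ⟨L, hL, ?_⟩
  filter_upwards [ht.eventually h4.bound, ht.eventually h2,
    (hE.ex.1.continuous.comp continuous_fst).continuousAt.eventually (gt_mem_nhds hp)]
    with x h5 h6 h7
  simpa only [Function.comp_apply, h0, h6 x h7 rfl] using h5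

end

theorem final (mfd : MfdStmt) (main : MainStmt) (emb : EmbStmt) (prod : ProdStmt)
    (compl : ComplStmt) (wcrit : WcritStmt) : StablyWeinstein := by
  rintro n W _ _ _ _ l ⟨Z, φ₀, K, hL, hex, hK, hpos⟩
  have hP : PreL (𝓡 (2 * n)) l Z := ⟨hL.smooth, hL.nondeg, hL.dual⟩
  obtain ⟨N, φ, e, l', Pi, φ', hE⟩ := emb (2 * n) W l Z φ₀ K hP hex hK hpos
  have hφc : Continuous φ := hE.ex.1.continuous
  have hlt : ∀ x, φ x < 6 → ∀ᶠ y in 𝓝 x, φ y < 6 := fun x hx =>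
    hφc.continuousAt.eventually (gt_mem_nhds hx)
  have hd : ∀ x, φ x < 6 → ∀ u v, dForm (𝓡 (2 * n)) l x u v =
      dd l' (e x) (De (2 * n) e x u) (De (2 * n) e x v) := fun x hx =>
    (mfd _ _ (𝓡 (2 * n)) W l hL.smooth).2.1 _ e l' x (hE.sm x) hE.amb.sl.contDiffAt
      ((hlt x hx).mono fun y hy => hE.form y hy)
  obtain ⟨k₀, hk₀⟩ := main _ (2 * n) _ l' Pi φ' hE.amb (by
    rintro _ ⟨x, hx, rfl⟩
    have := der_comp (u' := φ) (hE.sm.mdifferentiableAt (x := x) (by simp))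
      (hE.amb.sφ.differentiable (by simp) _) ((hlt x hx).mono fun y hy => (hE.fn y hy).symm) (Z x)
    rw [← hE.fld x hx]
    exact (hE.nd x).trans_eq this)
  refine ⟨k₀, fun k hk => ?_⟩
  obtain ⟨G, Φ, A, B, hG, hΦ, hA, hfar, hΦe, hΦp⟩ := hk₀ k hk
  have hψ := psi_smooth (k := k) hE.ex.1
  have hph : ∀ p : W × (Fin k → ℂ), φ p.1 < 6 → ph φ' (eh e k p) = psi φ k p := fun p hp => by
    simp only [ph, psi, eh, hE.fn _ hp]
  have hφψ : ∀ p : W × (Fin k → ℂ), φ p.1 ≤ psi φ k p := fun p => by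
    simp only [psi]; linarith [nsq_nonneg p.2]
  have hG0 : ∀ q : W × (Fin k → ℂ), 1 ≤ φ q.1 ∨ 1 ≤ nsq q.2 → φ q.1 < 6 →
      ∀ᶠ v in 𝓝 (eh e k q), G v = 0 := fun q h h6 =>
    hfar _ ⟨q.1, h6, rfl⟩ (by rwa [← hE.fn _ h6] at h)
  set GW := glue φ e G fun _ => 0 with hGW
  have hGWs : ContMDiff (IP (2 * n) k) 𝓘(ℝ, ℝ) ∞ GW := glue_smooth hφc hE.sm hG contMDiff_const
    fun q h5 h6 => (hG0 q (Or.inl (by linarith)) h6).self_of_nhds
  have hGW0 : ∀ p, 2 ≤ psi φ k p → ∀ᶠ q in 𝓝 p, GW q = 0 := fun p hp => by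
    refine glue_out ?_
    by_cases h6 : φ p.1 < 6
    · have h7 : 1 ≤ φ p.1 ∨ 1 ≤ nsq p.2 := by
        simp only [psi] at hp
        by_contra h5
        linarith [not_le.1 (not_or.1 h5).1, not_le.1 (not_or.1 h5).2]
      exact (((eh_smooth hE.sm).continuous.tendsto p).eventually (hG0 p h7 h6)).mono
        fun q hq _ => hq
    · filter_upwards [(hφc.comp continuous_fst).continuousAt.eventually
        (lt_mem_nhds (show 5 < φ p.1 by linarith [not_lt.1 h6]))] with q hq h7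
      exact (hG0 q (Or.inl (by linarith [show 5 < φ q.1 from hq])) h7).self_of_nhds
  obtain ⟨hsm, X, hX, hPre⟩ := prod (2 * n) k W l Z GW hP hGWs
  have hfarZ : ∀ t p, 2 ≤ psi φ k p → ZT Z X t p = Z0 Z k p := fun t p hp =>
    ZT_far hP hX t (hGW0 p hp)
  have hLi : ∀ t, IsLiouville (IP (2 * n) k) (LT l GW t) (ZT Z X t) := fun t => by
    refine ⟨(hPre t).smooth, (hPre t).nondeg, (hPre t).dual, ?_⟩
    have hGt : ContDiff ℝ ∞ fun q => t * G q := contDiff_const.mul hG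
    refine compl _ _ (IP (2 * n) k) _ _ (Euc (2 * n) × (Fin k → ℂ)) (Z0 Z k) (ZT Z X t) (psi φ k)
      {p | φ p.1 < 6} (eh e k) (ZH l' Pi fun q => t * G q) (ph φ') (Z0_complete hL.complete) hψ
      (fun p hp => ⟨hfarZ t p hp, hE.psi_pos hp⟩)
      (fun p hp => show φ p.1 < 6 by linarith [hφψ p]) (eh_smooth hE.sm)
      (by rw [hE.img]; exact hE.amb.sub.hat) (smZH hE.amb.sl hE.amb.sP hGt)
      (contDiff_ph hE.amb.sφ) hph (psi_cpt hE.ex hE.nn 5) fun p hp =>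
      ⟨?_, hE.link hG hd hX t hp, hE.ehinj hp, hE.ehinv hp⟩
    rw [hE.img]
    exact tg_hat (hE.amb.tan _ ⟨p.1, hp, rfl⟩ _)
  have hψex : Exhausting (IP (2 * n) k) (psi φ k) := ⟨hψ, psi_cpt hE.ex hE.nn⟩
  have hout : ∀ t, ∀ p ∉ {p | psi φ k p ≤ 2}, 0 < der (IP (2 * n) k) (psi φ k) p (ZT Z X t p) :=
    fun t p hp => by
      rw [hfarZ t p (not_le.1 hp).le]
      exact hE.psi_pos (not_le.1 hp).le
  set ΦW := glue φ e Φ fun p => A * psi φ k p + B with hΦW
  have hΦeq : ∀ q : W × (Fin k → ℂ), 3 ≤ psi φ k q → φ q.1 < 6 →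
      Φ (eh e k q) = A * psi φ k q + B := fun q h3 h6 => by
    rw [hΦe _ (by rwa [hph q h6]), hph q h6]
  have hΦWs : ContMDiff (IP (2 * n) k) 𝓘(ℝ, ℝ) ∞ ΦW := glue_smooth hφc hE.sm hΦ
    (((contDiff_const.mul contDiff_id).add contDiff_const).contMDiff.comp hψ)
    fun q h5 h6 => hΦeq q (by linarith [hφψ q]) h6
  have hΦW3 : ∀ p, 3 < psi φ k p → ∀ᶠ q in 𝓝 p, ΦW q = A * psi φ k q + B := fun p hp =>
    glue_out ((hψ.continuous.continuousAt.eventually (lt_mem_nhds hp)).mono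
      fun q hq => hΦeq q hq.le)
  refine ⟨LT l GW 1, ⟨LT l GW, ZT Z X, psi φ k, _, ?_, rfl,
    fun p => (hsm p).mono (prod_mono (subset_univ _) Subset.rfl), fun t _ => hLi t, hψex,
    hψex.2 2, fun t _ => hout t⟩, ⟨_, _, _, hLi 1, hψex, hψex.2 2, hout 1⟩, ZT Z X 1, ΦW, hLi 1,
    ⟨hΦWs, fun c => ?_⟩, wcrit _ _ (IP (2 * n) k) _ _ _ ΦW (hPre 1) hΦWs fun p => ?_⟩
  · funext p
    exact (congrArg (stab _ l k p + ·) (zero_smul ℝ _)).trans (add_zero _)
  · refine (hψex.2 (max 3 ((c - B) / A))).of_isClosed_subset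
      (isClosed_le hΦWs.continuous continuous_const) fun p hp => ?_
    by_contra h
    have h1 := max_lt_iff.1 (show max 3 ((c - B) / A) < psi φ k p from not_le.1 h)
    have h2 := (hΦW3 p h1.1).self_of_nhds
    have h3 := (div_lt_iff₀' hA).1 h1.2
    linarith [show ΦW p ≤ c from hp]
  by_cases hp : psi φ k p ≤ 4
  swap
  · left
    refine lt_of_lt_of_eq ?_ (der_affine (hψ.mdifferentiableAt (by simp))
      (hΦW3 p (by linarith [not_le.1 hp])) (ZT Z X 1 p)).symm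
    exact mul_pos hA (hout 1 p fun h => hp (by linarith [show psi φ k p ≤ 2 from h]))
  have h6 : φ p.1 < 6 := by linarith [hφψ p]
  have hlink : ∀ q : W × (Fin k → ℂ), φ q.1 < 6 →
      mfderiv (IP (2 * n) k) 𝓘(ℝ, _) (eh e k) q (ZT Z X 1 q) = ZH l' Pi G (eh e k q) :=
    fun q hq => by simpa only [one_mul] using hE.link hG hd hX 1 hq
  have hder : ∀ (u : _ → ℝ) (u' : W × (Fin k → ℂ) → ℝ), ContDiff ℝ ∞ u →
      ∀ q : W × (Fin k → ℂ), φ q.1 < 6 → (∀ᶠ y in 𝓝 q, u' y = u (eh e k y)) →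
      der (IP (2 * n) k) u' q (ZT Z X 1 q) = fderiv ℝ u (eh e k q) (ZH l' Pi G (eh e k q)) :=
    fun u u' hu q hq h => (der_comp ((eh_smooth hE.sm).mdifferentiableAt (by simp))
      (hu.differentiable (by simp) _) h (ZT Z X 1 q)).trans (congrArg _ (hlink q hq))
  rcases hΦp (eh e k p) ⟨p.1, h6, rfl⟩ (by rwa [hph p h6]) with h | ⟨u, ⟨h0, hu, h1, c, hc, h2⟩, h3⟩
  · exact Or.inl (h.trans_eq (hder Φ ΦW hΦ p h6 (glue_in hφc h6)).symm)
  right
  obtain ⟨L, hLp, hLe⟩ := chart_le hE h6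
  have h7 : ∀ᶠ q in 𝓝 p, φ q.1 < 6 := (continuous_fst.tendsto p).eventually (hlt _ h6)
  have ht : Tendsto (eh e k) (𝓝 p) (𝓝[hat (e '' {x | φ x < 6}) (Fin k)] (eh e k p)) :=
    tendsto_nhdsWithin_iff.2 ⟨(eh_smooth hE.sm).continuous.tendsto p,
      h7.mono fun q hq => ⟨q.1, hq, rfl⟩⟩
  refine ⟨hE.ehinj h6 ((hlink p h6).trans (h0.trans (map_zero _).symm)), fun q => u (eh e k q),
    c / L ^ 2, (hu.contMDiff.comp (eh_smooth hE.sm)) p, fun v => ?_, by positivity, ?_⟩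
  · refine (der_comp ((eh_smooth hE.sm).mdifferentiableAt (by simp))
      (hu.differentiable (by simp) _) (Eventually.of_forall fun _ => rfl) v).trans ?_
    rw [h1]; rfl
  · filter_upwards [h7, hLe, ht.eventually h2, ht.eventually h3] with q a1 a2 a3 a4
    rw [hder u _ hu q a1 (Eventually.of_forall fun _ => rfl), hder Φ ΦW hΦ q a1 (glue_in hφc a1)]
    refine ⟨le_trans ?_ a3, a4⟩
    calc _ ≤ c / L ^ 2 * (L * ‖eh e k q - eh e k p‖) ^ 2 := by gcongr
      _ = _ := by field_simp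

end Pool.Agent.MP_6d695c_gt.SW

end MrgPart2

-- ======== part 3: formerly Pool.Agent.MP_6d695c_gt.sw.Prod
section MrgPart3

/-! PROJECT SW, row PROD: the family `l + radial + t dG` on `W × ℂ^k`. -/

open scoped Manifold ContDiff Topology
open Set Metric Filter Real

namespace Pool.Agent.MP_6d695c_gt.SW

namespace Prd

section Fac
variable {ι : Type} [Fintype ι]

theorem radial_apply (z v : ι → ℂ) : radial z v = omC z v / 2 := by
  simp only [radial, omC, sum_apply, Finset.sum_div]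
  refine Finset.sum_congr rfl fun i _ => ?_
  simp
  ring

theorem omC_add (u u' v : ι → ℂ) : omC (u + u') v = omC u v + omC u' v := by
  simp only [omC, ← Finset.sum_add_distrib, Pi.add_apply, Complex.add_re, Complex.add_im]
  exact Finset.sum_congr rfl fun i _ => by ring

theorem omC_smul (c : ℝ) (u v : ι → ℂ) : omC (c • u) v = c * omC u v := by
  simp only [omC, Finset.mul_sum, Pi.smul_apply, Complex.smul_re, Complex.smul_im, smul_eq_mul]
  exact Finset.sum_congr rfl fun i _ => by ring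

theorem omC_anti (u v : ι → ℂ) : omC u v = -omC v u := by
  simp only [omC, ← Finset.sum_neg_distrib]
  exact Finset.sum_congr rfl fun i _ => by ring

theorem omC_zero (u : ι → ℂ) : omC u 0 = 0 := by simp [omC]

theorem omC_nondeg {u : ι → ℂ} (h : ∀ v, omC u v = 0) : u = 0 := by
  have h1 : omC u (fun i => Complex.I * u i) = nsq u :=
    Finset.sum_congr rfl fun i _ => by simp; ring
  have h2 := norm_sq_le_nsq u
  rw [← h1, h] at h2
  exact norm_eq_zero.1 (pow_eq_zero_iff two_ne_zero |>.1 (le_antisymm h2 (sq_nonneg _)))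

/-- `radial` as a continuous linear map -/
noncomputable def radL (ι : Type) [Fintype ι] : (ι → ℂ) →L[ℝ] (ι → ℂ) →L[ℝ] ℝ :=
  LinearMap.toContinuousLinearMap
    { toFun := radial
      map_add' := fun u u' => ContinuousLinearMap.ext fun v => by
        rw [add_apply, radial_apply, radial_apply, radial_apply, omC_add, add_div]
      map_smul' := fun c u => ContinuousLinearMap.ext fun v => by
        rw [RingHom.id_apply, smul_apply, radial_apply, radial_apply, omC_smul, smul_eq_mul,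
          mul_div_assoc] }

theorem radial_eq : (radial : (ι → ℂ) → _) = radL ι := rfl

theorem contDiff_radial : ContDiff ℝ ∞ (radial : (ι → ℂ) → (ι → ℂ) →L[ℝ] ℝ) :=
  (radL ι).contDiff

theorem dd_radial (z u v : ι → ℂ) : dd radial z u v = omC u v := by
  have h : fderiv ℝ (radial : (ι → ℂ) → (ι → ℂ) →L[ℝ] ℝ) z = radL ι := (radL ι).fderiv
  rw [dd, h]
  change radial u v - radial v u = _
  rw [radial_apply, radial_apply, omC_anti v u]
  ring

end Fac

section Sum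
variable {E F : Type} [NormedAddCommGroup E] [NormedSpace ℝ E] [NormedAddCommGroup F]
  [NormedSpace ℝ F]

theorem dd_sum {a : E → E →L[ℝ] ℝ} {b : F → F →L[ℝ] ℝ} {g : E × F → ℝ} {y : E × F}
    (ha : DifferentiableAt ℝ a y.1) (hb : DifferentiableAt ℝ b y.2) (hg : ContDiffAt ℝ 2 g y)
    (t : ℝ) (u v : E × F) :
    dd (fun y => (a y.1).comp (ContinuousLinearMap.fst ℝ E F) +
      (b y.2).comp (ContinuousLinearMap.snd ℝ E F) + t • fderiv ℝ g y) y u v =
      dd a y.1 u.1 v.1 + dd b y.2 u.2 v.2 := by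
  have h1 : DifferentiableAt ℝ (fderiv ℝ g) y :=
    (hg.fderiv_right (m := 1) (by norm_num)).differentiableAt one_ne_zero
  have h2 := (hg.isSymmSndFDerivAt (by simp)).eq u v
  have h3 := (((ha.hasFDerivAt.comp y hasFDerivAt_fst).clm_comp
    (hasFDerivAt_const (ContinuousLinearMap.fst ℝ E F) y)).add
    ((hb.hasFDerivAt.comp y hasFDerivAt_snd).clm_comp
      (hasFDerivAt_const (ContinuousLinearMap.snd ℝ E F) y))).add (h1.hasFDerivAt.const_smul t)
  have h4 : fderiv ℝ (fun y : E × F => (a y.1).comp (ContinuousLinearMap.fst ℝ E F) +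
      (b y.2).comp (ContinuousLinearMap.snd ℝ E F) + t • fderiv ℝ g y) y = _ := h3.fderiv
  simp only [dd, h4]
  simp [h2]
  ring

end Sum

variable {d k : ℕ} {W : Type} [TopologicalSpace W] [ChartedSpace (Euc d) W]

theorem symm_eq (p : W × (Fin k → ℂ)) : ⇑(extChartAt (IP d k) p).symm =
    fun y : Euc d × (Fin k → ℂ) => ((extChartAt (𝓡 d) p.1).symm y.1, y.2) := by
  rw [extChartAt_prod]
  rfl

theorem chart_eq (p : W × (Fin k → ℂ)) : ⇑(extChartAt (IP d k) p) =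
    fun x : W × (Fin k → ℂ) => (extChartAt (𝓡 d) p.1 x.1, x.2) := by
  rw [extChartAt_prod]
  rfl

theorem mem_target {p : W × (Fin k → ℂ)} {y : Euc d × (Fin k → ℂ)} :
    y ∈ (extChartAt (IP d k) p).target ↔ y.1 ∈ (extChartAt (𝓡 d) p.1).target := by
  rw [extChartAt_prod, extChartAt_model_space_eq_id]
  exact ⟨fun h => h.1, fun h => ⟨h, trivial⟩⟩

variable [IsManifold (𝓡 d) ∞ W]

theorem dS_prod {p : W × (Fin k → ℂ)} {y : Euc d × (Fin k → ℂ)}
    (hy : y ∈ (extChartAt (IP d k) p).target) (v : Euc d × (Fin k → ℂ)) :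
    mfderiv 𝓘(ℝ, Euc d × (Fin k → ℂ)) (IP d k) (extChartAt (IP d k) p).symm y v =
      (show Euc d × (Fin k → ℂ) from
        (mfderiv 𝓘(ℝ, Euc d) (𝓡 d) (extChartAt (𝓡 d) p.1).symm y.1 v.1, v.2)) := by
  have h1 := ((Mfd.sm_symm (mem_target.1 hy)).mdifferentiableAt (by simp)).hasMFDerivAt.comp y
    (hasFDerivAt_fst (𝕜 := ℝ) (p := y)).hasMFDerivAt
  have h2 := (h1.prodMk (hasFDerivAt_snd (𝕜 := ℝ) (p := y)).hasMFDerivAt).mfderiv
  rw [symm_eq]
  exact congrArg (fun L => L v) h2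

theorem formIn_LT (l : OneForm (𝓡 d) W) {G : W × (Fin k → ℂ) → ℝ}
    (hG : ContMDiff (IP d k) 𝓘(ℝ, ℝ) ∞ G) (t : ℝ) {p : W × (Fin k → ℂ)}
    {y : Euc d × (Fin k → ℂ)} (hy : y ∈ (extChartAt (IP d k) p).target) :
    formIn (IP d k) (LT l G t) p y =
      (formIn (𝓡 d) l p.1 y.1).comp (ContinuousLinearMap.fst ℝ _ _) +
      (radial y.2).comp (ContinuousLinearMap.snd ℝ _ _) +
      t • fderiv ℝ (funIn (IP d k) G p) y := by
  refine ContinuousLinearMap.ext fun v => ?_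
  have h1 := Mfd.fderiv_in hy (hG.mdifferentiableAt (by simp)) v
  have h2 := dS_prod hy v
  have h3 := congrFun (symm_eq p) y
  change stab _ l k _ (mfderiv 𝓘(ℝ, Euc d × (Fin k → ℂ)) (IP d k) (extChartAt (IP d k) p).symm y v)
    + t • der (IP d k) G _
      (mfderiv 𝓘(ℝ, Euc d × (Fin k → ℂ)) (IP d k) (extChartAt (IP d k) p).symm y v) = _ + t • _
  congr 1
  · rw [h2]
    exact congrArg (fun z => (show Euc d × (Fin k → ℂ) →L[ℝ] ℝ from stab _ l k z) _) h3
  · exact congrArg _ h1.symm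

theorem sm_funIn {G : W × (Fin k → ℂ) → ℝ} (hG : ContMDiff (IP d k) 𝓘(ℝ, ℝ) ∞ G)
    (p : W × (Fin k → ℂ)) : ContDiffOn ℝ ∞ (funIn (IP d k) G p) (extChartAt (IP d k) p).target :=
  fun _ hy => ((hG _).comp _ (Mfd.sm_symm hy)).contDiffAt.contDiffWithinAt

theorem sm_LT {l : OneForm (𝓡 d) W}
    (hl : ∀ p, ContDiffOn ℝ ∞ (formIn (𝓡 d) l p) (extChartAt (𝓡 d) p).target)
    {G : W × (Fin k → ℂ) → ℝ} (hG : ContMDiff (IP d k) 𝓘(ℝ, ℝ) ∞ G) (p : W × (Fin k → ℂ)) :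
    ContDiffOn ℝ ∞ (fun q : ℝ × (Euc d × (Fin k → ℂ)) => formIn (IP d k) (LT l G q.1) p q.2)
      (univ ×ˢ (extChartAt (IP d k) p).target) := by
  refine ContDiffOn.congr (((((hl p.1).comp (contDiffOn_snd.fst)
    fun q hq => mem_target.1 hq.2).clm_comp contDiffOn_const).add
    (((contDiff_radial (ι := Fin k)).comp_contDiffOn contDiffOn_snd.snd).clm_comp contDiffOn_const)).add
    (contDiffOn_fst.smul ((((sm_funIn hG p).fderiv_of_isOpen (m := ∞) (isOpen_extChartAt_target p)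
      (by simp))).comp contDiffOn_snd fun q hq => hq.2))) fun q hq => formIn_LT l hG q.1 hq.2

theorem dForm_LT {l : OneForm (𝓡 d) W}
    (hl : ∀ p, ContDiffOn ℝ ∞ (formIn (𝓡 d) l p) (extChartAt (𝓡 d) p).target)
    {G : W × (Fin k → ℂ) → ℝ} (hG : ContMDiff (IP d k) 𝓘(ℝ, ℝ) ∞ G) (t : ℝ)
    (p : W × (Fin k → ℂ)) (u v : Euc d × (Fin k → ℂ)) :
    dForm (IP d k) (LT l G t) p u v = dForm (𝓡 d) l p.1 u.1 v.1 + omC u.2 v.2 := by
  have hn := extChartAt_target_mem_nhds (I := IP d k) p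
  have e := congrFun (chart_eq (d := d) p) p
  have h1 : formIn (IP d k) (LT l G t) p =ᶠ[𝓝 (extChartAt (IP d k) p p)] _ :=
    mem_of_superset hn fun y hy => formIn_LT l hG t hy
  have h2 := dd_sum (a := formIn (𝓡 d) l p.1) (b := radial) (g := funIn (IP d k) G p)
    (y := extChartAt (IP d k) p p)
    (by rw [e]; exact ((hl p.1).contDiffAt (extChartAt_target_mem_nhds _)).differentiableAt (by simp))
    (contDiff_radial.differentiable (by simp) _) (((sm_funIn hG p).contDiffAt hn).of_le (by decide))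
    t u v
  rw [dd_radial] at h2
  rw [dForm, h1.fderiv_eq]
  refine h2.trans ?_
  rw [e]
  rfl

end Prd

theorem prod : ProdStmt := by
  intro d k W _ _ _ l Z G hl hG
  refine ⟨Prd.sm_LT hl.smooth hG, ?_⟩
  have ex : ∀ (x : W) (α : Euc d →L[ℝ] ℝ), ∃ u : Euc d, ∀ v, dForm (𝓡 d) l x u v = α v :=
    fun x α => by
      obtain ⟨B, hB⟩ := Mfd.isInvertible_of_nondeg
        (B := fderiv ℝ (formIn (𝓡 d) l x) (extChartAt (𝓡 d) x x) -
          (fderiv ℝ (formIn (𝓡 d) l x) (extChartAt (𝓡 d) x x)).flip) (hl.nondeg x)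
      refine ⟨B.symm α, fun v => ?_⟩
      have h := congrArg (fun L => L (B.symm α) v) hB
      simp only [ContinuousLinearEquiv.coe_coe, ContinuousLinearEquiv.apply_symm_apply] at h
      exact h.symm
  choose sh hsh using ex
  let D : W × (Fin k → ℂ) → Euc d × (Fin k → ℂ) →L[ℝ] ℝ := fun p => mfderiv (IP d k) 𝓘(ℝ, ℝ) G p
  let X : W × (Fin k → ℂ) → Euc d × (Fin k → ℂ) := fun p =>
    (sh p.1 ((D p).comp (ContinuousLinearMap.inl ℝ _ _)),
      shC ((D p).comp (ContinuousLinearMap.inr ℝ _ _)))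
  have hX : ∀ p (v : Euc d × (Fin k → ℂ)),
      dForm (𝓡 d) l p.1 (X p).1 v.1 + omC (X p).2 v.2 = D p v := fun p v => by
    simp only [X, hsh, omC_shC, ContinuousLinearMap.comp_apply, ← map_add]
    simp
  refine ⟨X, hX, fun t => ⟨fun p => ?_, fun p u hu => ?_, fun p v => ?_⟩⟩
  · exact (Prd.sm_LT hl.smooth hG p).comp (f := fun y => (t, y))
      (contDiffOn_const.prodMk contDiffOn_id) fun y hy => ⟨trivial, hy⟩
  · simp only [Prd.dForm_LT hl.smooth hG] at hu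
    refine Prod.ext (hl.nondeg p.1 u.1 fun v => ?_) (Prd.omC_nondeg fun v => ?_)
    · simpa [Prd.omC_zero] using hu (v, 0)
    · simpa [dForm] using hu (0, v)
  · have h1 := hl.dual p.1 v.1
    have h2 := hX p v
    have h3 : ∀ a b : Euc d, dForm (𝓡 d) l p.1 (a + t • b) v.1 =
        dForm (𝓡 d) l p.1 a v.1 + t * dForm (𝓡 d) l p.1 b v.1 := fun a b => by
      simp only [dForm, map_add, map_smul, add_apply, smul_apply, smul_eq_mul]
      ring
    refine (Prd.dForm_LT hl.smooth hG t p _ v).trans ?_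
    change dForm (𝓡 d) l p.1 ((show Euc d from Z p.1) + t • (X p).1) v.1 +
      omC ((1 / 2 : ℝ) • p.2 + t • (X p).2) v.2 = l p.1 v.1 + radial p.2 v.2 + t * D p v
    rw [h3, Prd.omC_add, Prd.omC_smul, Prd.omC_smul, Prd.radial_apply, ← h2, ← h1]
    ring

end Pool.Agent.MP_6d695c_gt.SW

end MrgPart3

-- ======== part 4: formerly Pool.Agent.MP_6d695c_gt.sw.Zero1
section MrgPart4

/-! PROJECT SW, ZERO: after a small perturbation all zeros are nondegenerate. -/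

open scoped ContDiff Topology
open Set Metric Filter

namespace Pool.Agent.MP_6d695c_gt.SW.Zero

section
variable {V : Type} [NormedAddCommGroup V] [NormedSpace ℝ V]

/-- the form `l + dH` -/
noncomputable abbrev lH (l : V → V →L[ℝ] ℝ) (H : V → ℝ) : V → V →L[ℝ] ℝ :=
  fun x => l x + fderiv ℝ H x

/-- the field dual to `l` -/
noncomputable abbrev fld (Pi : V → (V →L[ℝ] ℝ) →L[ℝ] V) (l : V → V →L[ℝ] ℝ) : V → V :=
  fun x => Pi x (l x)

theorem two_le : (2 : WithTop ℕ∞) ≤ ∞ := WithTop.coe_le_coe.2 (le_top (a := (2 : ℕ∞)))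

theorem two_le' : (1 + 1 : WithTop ℕ∞) ≤ ∞ := one_add_one_eq_two.trans_le two_le

/-- smooth functions that vanish near `1 / 4 ≤ φ` -/
def Adm (M : Set V) (φ H : V → ℝ) : Prop :=
  ContDiff ℝ ∞ H ∧ ∀ x ∈ M, 1 / 4 ≤ φ x → ∀ᶠ y in 𝓝 x, H y = 0

/-- the derivative is injective on the tangent space -/
def ND (M : Set V) (Y : V → V) (x : V) : Prop := ∀ v ∈ Tg M x, fderiv ℝ Y x v = 0 → v = 0

variable {M : Set V} {φ H H' : V → ℝ} {l : V → V →L[ℝ] ℝ}

theorem Adm.add (h : Adm M φ H) (h' : Adm M φ H') : Adm M φ fun x => H x + H' x :=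
  ⟨h.1.add h'.1, fun x hx h4 => by
    filter_upwards [h.2 x hx h4, h'.2 x hx h4] with y h1 h2
    rw [h1, h2, add_zero]⟩

theorem Adm.smul (h : Adm M φ H) (c : ℝ) : Adm M φ fun x => c * H x :=
  ⟨contDiff_const.mul h.1, fun x hx h4 => by
    filter_upwards [h.2 x hx h4] with y h1
    rw [h1, mul_zero]⟩

theorem adm_cut {b u : V → ℝ} (hb : ContDiff ℝ ∞ b) (hu : ContDiff ℝ ∞ u)
    (hs : tsupport b ⊆ {x | φ x < 1 / 4}) : Adm M φ fun x => b x * u x :=
  ⟨hb.mul hu, fun x _ h4 => by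
    have : b =ᶠ[𝓝 x] 0 := notMem_tsupport_iff_eventuallyEq.1 fun h => (hs h).not_ge h4
    filter_upwards [this] with y hy
    rw [hy, Pi.zero_apply, zero_mul]⟩

theorem Adm.fd (h : Adm M φ H) {x : V} (hx : x ∈ M) (h4 : 1 / 4 ≤ φ x) : fderiv ℝ H x = 0 := by
  rw [Filter.EventuallyEq.fderiv_eq (f := fun _ => (0 : ℝ)) (h.2 x hx h4)]
  simp

theorem lH_add (h : ContDiff ℝ ∞ H) (h' : ContDiff ℝ ∞ H') :
    lH l (fun x => H x + H' x) = lH (lH l H) H' := by
  funext x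
  simp only [lH]
  rw [fderiv_fun_add (h.differentiable (by simp) x) (h'.differentiable (by simp) x), add_assoc]

variable {E : Type} [NormedAddCommGroup E] [NormedSpace ℝ E] {Pi : V → (V →L[ℝ] ℝ) →L[ℝ] V}
  {s : ℝ} {g : E → V} {r : V → E} {O : Set E} {N : Set V}

theorem dd_lH (hA : Amb E M l Pi φ s) (h : ContDiff ℝ ∞ H) (x u v : V) :
    dd (lH l H) x u v = dd l x u v :=
  dd_add_fderiv (hA.sl.differentiable (by simp) x)
    (h.contDiffAt.of_le two_le) u v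

theorem amb (hA : Amb E M l Pi φ s) (hs : s ≤ 1 / 4) (h : Adm M φ H) :
    Amb E M (lH l H) Pi φ (1 / 4) where
  sub := hA.sub
  sl := hA.sl.add (h.1.fderiv_right (m := ∞) (by simp))
  sP := hA.sP
  sφ := hA.sφ
  tan := hA.tan
  dual x hx α v hv := (dd_lH hA h.1 _ _ _).trans (hA.dual x hx α v hv)
  cpt := hA.cpt
  nn := hA.nn
  shell x hx h4 := by
    simp only [lH]
    rw [h.fd hx h4, add_zero]
    exact hA.shell x hx (hs.trans h4)

/-- the form in a chart -/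
noncomputable abbrev lam (l : V → V →L[ℝ] ℝ) (g : E → V) : E → E →L[ℝ] ℝ :=
  fun y => (l (g y)).comp (fderiv ℝ g y)

theorem ddg (hP : Par M g r O N) {y : E} (hy : y ∈ O) : DifferentiableAt ℝ (fderiv ℝ g) y :=
  ((hP.cg hy).fderiv_right (m := 1) two_le').differentiableAt one_ne_zero

theorem dlam (hA : Amb E M l Pi φ s) (hP : Par M g r O N) {y : E} (hy : y ∈ O) :
    DifferentiableAt ℝ (lam l g) y :=
  ((hA.sl.differentiable (by simp) _).comp y (hP.dg hy)).clm_comp (ddg hP hy)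

theorem lam_eq (hA : Amb E M l Pi φ s) (hP : Par M g r O N) {y : E} (hy : y ∈ O) (w : E) :
    lam l g y w = dd l (g y) (fld Pi l (g y)) (fderiv ℝ g y w) :=
  (hA.dual _ (hP.gm y hy).1 _ _ (by rw [hP.tg hy]; exact mem_range_self w)).symm

theorem lam_zero (hA : Amb E M l Pi φ s) (hP : Par M g r O N) {y : E} (hy : y ∈ O)
    (h0 : fld Pi l (g y) = 0) : lam l g y = 0 := by
  ext w
  rw [lam_eq hA hP hy, h0]
  simp [dd]

/-- the derivative of the form at a zero -/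
theorem key (hA : Amb E M l Pi φ s) (hP : Par M g r O N) {y : E} (hy : y ∈ O)
    (h0 : fld Pi l (g y) = 0) (u w : E) :
    fderiv ℝ (lam l g) y u w =
      dd l (g y) (fderiv ℝ (fld Pi l) (g y) (fderiv ℝ g y u)) (fderiv ℝ g y w) := by
  have h1 := (((hA.sl.fderiv_right (m := 1) two_le').differentiable
    one_ne_zero (g y)).comp y (hP.dg hy)).hasFDerivAt
  have h2 := (hA.smZ.differentiable (by simp) (g y)).hasFDerivAt.comp y (hP.dg hy).hasFDerivAt
  have h3 := ((ddg hP hy).clm_apply (differentiableAt_const w)).hasFDerivAt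
  have h4 := ((h1.clm_apply h2).clm_apply h3).sub ((h1.clm_apply h3).clm_apply h2)
  have h5 := (dlam hA hP hy).hasFDerivAt.clm_apply (hasFDerivAt_const w y)
  have h6 := h5.unique (h4.congr_of_eventuallyEq (by
    filter_upwards [hP.oO.mem_nhds hy] with y' hy'
    exact lam_eq hA hP hy' w))
  have h7 := congrArg (fun T : E →L[ℝ] ℝ => T u) h6
  have h8 : Pi (g y) (l (g y)) = 0 := h0
  simpa [dd, h8] using h7

/-- the derivative of a tangent field at a zero preserves the tangent space -/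
theorem tan_der (hA : Amb E M l Pi φ s) (hP : Par M g r O N) {y : E} (hy : y ∈ O)
    (h0 : fld Pi l (g y) = 0) :
    HasFDerivAt (fun y => fderiv ℝ r (g y) (fld Pi l (g y))) ((fderiv ℝ r (g y)).comp
      ((fderiv ℝ (fld Pi l) (g y)).comp (fderiv ℝ g y))) y ∧
    ∀ u, fderiv ℝ g y (fderiv ℝ r (g y) (fderiv ℝ (fld Pi l) (g y) (fderiv ℝ g y u))) =
      fderiv ℝ (fld Pi l) (g y) (fderiv ℝ g y u) := by
  have h1 := ((((hP.cr (hP.gm y hy).2.1).fderiv_right (m := 1)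
    two_le').differentiableAt one_ne_zero).comp y (hP.dg hy)).hasFDerivAt
  have h2 := (hA.smZ.differentiable (by simp) (g y)).hasFDerivAt.comp y (hP.dg hy).hasFDerivAt
  have h8 : Pi (g y) (l (g y)) = 0 := h0
  have h3 : HasFDerivAt (fun y => fderiv ℝ r (g y) (fld Pi l (g y))) ((fderiv ℝ r (g y)).comp
      ((fderiv ℝ (fld Pi l) (g y)).comp (fderiv ℝ g y))) y :=
    (h1.clm_apply h2).congr_fderiv (by ext u; simp [h8])
  refine ⟨h3, fun u => ?_⟩
  have h4 := ((ddg hP hy).hasFDerivAt.clm_apply h3).unique (h2.congr_of_eventuallyEq (by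
    filter_upwards [hP.oO.mem_nhds hy] with y' hy'
    obtain ⟨a, b, c⟩ := hP.gm y' hy'
    have := hP.ret a b (hA.tan _ a (l (g y')))
    rwa [c] at this))
  have h7 := congrArg (fun T : E →L[ℝ] V => T u) h4
  simpa [h8] using h7

theorem nd_iff (hP : Par M g r O N) {x : V} (hx : x ∈ M) (hN : x ∈ N) {Y : V → V} :
    ND M Y x ↔ Function.Injective ((fderiv ℝ Y x).comp (fderiv ℝ g (r x))) := by
  obtain ⟨h1, h2⟩ := hP.rm x hx hN
  rw [injective_iff_map_eq_zero, ND, ← h2, hP.tg h1, (hP.gm _ h1).2.2]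
  refine ⟨fun h u hu => ?_, ?_⟩
  · rw [← hP.dr_dg h1 u, h _ (mem_range_self u) hu, map_zero]
  · rintro h _ ⟨u, rfl⟩ hu
    rw [h u hu, map_zero]

/-- nondegeneracy of the zeros in a compact set is stable -/
theorem stable [FiniteDimensional ℝ E] {A : Type} [NormedAddCommGroup A] [NormedSpace ℝ A]
    (hM : Sub E M) {W : A → V → V} (hW : ContDiff ℝ ∞ (Function.uncurry W)) {K : Set V}
    (hK : IsCompact K) (hKM : K ⊆ M) (h : ∀ x ∈ K, W 0 x = 0 → ND M (W 0) x) :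
    ∀ᶠ a in 𝓝 0, ∀ x ∈ K, W a x = 0 → ND M (W a) x := by
  have h1 : Continuous fun p : A × V => fderiv ℝ (W p.1) p.2 :=
    (ContDiff.fderiv (f := fun p : A × V => W p.1) (g := Prod.snd) (n := 0) (m := ∞)
      (hW.comp (contDiff_fst.fst.prodMk contDiff_snd)) contDiff_snd
      (by exact_mod_cast le_top)).continuous
  have h2 : ∀ᶠ a in 𝓝 (0 : A), ∀ x ∈ K, x ∈ M → W a x = 0 → ND M (W a) x := by
    refine hK.eventually_forall_of_forall_eventually fun x hx => ?_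
    by_cases h0 : W 0 x = 0
    · obtain ⟨g, r, O, N, hP, hN⟩ := hM x (hKM hx)
      have h3 : ContinuousAt (fun p : A × V => fderiv ℝ g (r p.2)) (0, x) :=
        (ddg hP (hP.rm x (hKM hx) hN).1).continuousAt.comp_of_eq
          ((hP.dr hN).continuousAt.comp_of_eq continuousAt_snd rfl) rfl
      have h4 := (h1.continuousAt.clm_comp h3).eventually
        (ContinuousLinearMap.isOpen_injective.mem_nhds ((nd_iff hP (hKM hx) hN).1 (h x hx h0)))
      filter_upwards [h4, continuousAt_snd.eventually (hP.oN.mem_nhds hN)] with p h5 h6 h7 _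
      exact (nd_iff hP h7 h6).2 h5
    · filter_upwards [hW.continuous.continuousAt.eventually_ne (x := (0, x)) h0] with p h5 _ h6
      exact (h5 h6).elim
  exact h2.mono fun a ha x hx => ha x hx (hKM hx)

end

variable {V : Type} [NormedAddCommGroup V] [NormedSpace ℝ V] {M : Set V} {φ : V → ℝ}
  {l : V → V →L[ℝ] ℝ} {E : Type} [NormedAddCommGroup E] [InnerProductSpace ℝ E]
  [FiniteDimensional ℝ E] {Pi : V → (V →L[ℝ] ℝ) →L[ℝ] V}
  {s : ℝ} {g : E → V} {r : V → E} {O : Set E} {N : Set V}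

/-- Sard's lemma in a chart -/
theorem dense (hA : Amb E M l Pi φ s) (hs : s ≤ 1 / 4) (hP : Par M g r O N)
    (hr : ContDiff ℝ ∞ r) {b : V → ℝ} (hb : ContDiff ℝ ∞ b)
    (hbs : tsupport b ⊆ {x | φ x < 1 / 4}) :
    ∃ᶠ a in 𝓝 (0 : E), ∀ y ∈ O, (∀ᶠ x in 𝓝 (g y), b x = 1) →
      fld Pi (lH l fun x => b x * inner ℝ a (r x)) (g y) = 0 →
      ND M (fld Pi (lH l fun x => b x * inner ℝ a (r x))) (g y) := by
  borelize E
  let T : (E →L[ℝ] ℝ) ≃L[ℝ] E := (InnerProductSpace.toDual ℝ E).symm.toContinuousLinearEquiv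
  let f : E → E := fun y => -T (lam l g y)
  have hf : ∀ y ∈ O, HasFDerivAt f (-(T : (E →L[ℝ] ℝ) →L[ℝ] E).comp (fderiv ℝ (lam l g) y)) y :=
    fun y hy => (T.hasFDerivAt.comp y (dlam hA hP hy).hasFDerivAt).neg
  have h0 := MeasureTheory.addHaar_image_eq_zero_of_det_fderivWithin_eq_zero
    (MeasureTheory.Measure.addHaar) (s := {y ∈ O | (fderiv ℝ f y).det = 0}) (f := f)
    (f' := fderiv ℝ f) (fun y hy => (hf y hy.1).differentiableAt.hasFDerivAt.hasFDerivWithinAt)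
    fun y hy => hy.2
  have h1 := MeasureTheory.Measure.dense_of_ae (MeasureTheory.measure_eq_zero_iff_ae_notMem.1 h0)
  refine (mem_closure_iff_frequently.1 (h1 0)).mono fun a ha y hy hb1 hz => ?_
  have hA' := amb hA hs (adm_cut (M := M) hb (contDiff_const.inner ℝ hr (f := fun _ => a)) hbs)
  have h2 : lam (lH l fun x => b x * inner ℝ a (r x)) g =ᶠ[𝓝 y]
      fun y => lam l g y + innerSL ℝ a := by
    filter_upwards [hP.oO.mem_nhds hy,
      (hP.dg hy).continuousAt.eventually hb1.eventually_nhds] with y' h3 h4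
    have h5 : fderiv ℝ (fun x => b x * inner ℝ a (r x)) (g y') =
        (innerSL ℝ a).comp (fderiv ℝ r (g y')) :=
      (((innerSL ℝ a).hasFDerivAt.comp _
        (hr.differentiable (by simp) _).hasFDerivAt).congr_of_eventuallyEq
        (h4.mono fun x hx => by simp [hx])).fderiv
    ext w
    simp [lam, lH, h5, hP.dr_dg h3]
  have h3 : f y = a := by
    have h4 := h2.self_of_nhds
    rw [lam_zero hA' hP hy hz] at h4
    rw [show f y = -T (lam l g y) from rfl, eq_neg_of_add_eq_zero_left h4.symm, map_neg, neg_neg]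
    exact (InnerProductSpace.toDual ℝ E).symm_apply_apply a
  have h4 : (fderiv ℝ f y).det ≠ 0 := fun h => ha ⟨y, ⟨hy, h⟩, h3⟩
  obtain ⟨h5, h6, h7⟩ := hP.gm y hy
  rw [nd_iff hP h5 h6, h7, injective_iff_map_eq_zero]
  intro u hu
  have h8 : fderiv ℝ (lam l g) y u = 0 := by
    ext w
    have h9 := key hA' hP hy hz u w
    rw [ContinuousLinearMap.comp_apply] at hu
    rw [h2.fderiv_eq, fderiv_add_const, hu] at h9
    simpa [dd] using h9
  by_contra hu0
  refine h4 (LinearMap.det_eq_zero_iff_ker_ne_bot.2 ((Submodule.ne_bot_iff _).2 ⟨u, ?_, hu0⟩))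
  simp [(hf y hy).fderiv, h8]

/-- all zeros can be made nondegenerate -/
theorem step1 [FiniteDimensional ℝ V] (hA : Amb E M l Pi φ (1 / 8)) :
    ∃ H, Adm M φ H ∧ ∀ x ∈ M, fld Pi (lH l H) x = 0 → ND M (fld Pi (lH l H)) x := by
  have hc : ∀ c < 6, IsCompact {x ∈ M | φ x ≤ c} := hA.cpt
  have main : ∀ (K : Set V) (H : V → ℝ), IsCompact K → K ⊆ M → Adm M φ H →
      (∀ x ∈ K, fld Pi (lH l H) x = 0 → ND M (fld Pi (lH l H)) x) →
      ∃ (K' : Set V) (H' : V → ℝ), IsCompact K' ∧ K' ⊆ M ∧ Adm M φ H' ∧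
      (∀ x ∈ K', fld Pi (lH l H') x = 0 → ND M (fld Pi (lH l H')) x) ∧ K ⊆ K' ∧
      {x ∈ M | φ x ≤ 1 / 8} ⊆ K' := by
    refine (hc (1 / 8) (by norm_num)).induction_on ?_ ?_ ?_ ?_
    · exact fun K H h1 h2 h3 h4 => ⟨K, H, h1, h2, h3, h4, Subset.rfl, empty_subset _⟩
    · intro s t hst h K H h1 h2 h3 h4
      obtain ⟨K', H', a1, a2, a3, a4, a5, a6⟩ := h K H h1 h2 h3 h4
      exact ⟨K', H', a1, a2, a3, a4, a5, hst.trans a6⟩
    · intro s t h h' K H h1 h2 h3 h4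
      obtain ⟨K', H', a1, a2, a3, a4, a5, a6⟩ := h K H h1 h2 h3 h4
      obtain ⟨K'', H'', b1, b2, b3, b4, b5, b6⟩ := h' K' H' a1 a2 a3 a4
      exact ⟨K'', H'', b1, b2, b3, b4, a5.trans b5, union_subset (a6.trans b5) b6⟩
    · rintro z ⟨hz, hz8⟩
      obtain ⟨g, r₀, O₀, N₀, hP₀, hN₀⟩ := hA.sub z hz
      obtain ⟨r, O, N, hP, hr, hN, -⟩ := hP₀.global hz hN₀
      obtain ⟨h1, h2⟩ := hP.rm z hz hN
      have ho : IsOpen {x | φ x < 1 / 4} := isOpen_lt hA.sφ.continuous continuous_const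
      have h3 : ∀ᶠ y in 𝓝 (r z), y ∈ O ∧ φ (g y) < 1 / 4 :=
        (hP.oO.eventually_mem h1).and ((hP.dg h1).continuousAt.eventually
          (ho.mem_nhds (by rw [h2]; exact hz8.trans_lt (by norm_num))))
      obtain ⟨C, hC, hCs, hCc⟩ := local_compact_nhds h3
      have hKc : IsCompact (g '' C) :=
        hCc.image_of_continuousOn (hP.sg.continuousOn.mono fun y hy => (hCs hy).1)
      obtain ⟨b, hb, -, hbs, hb1, -⟩ := exists_cut hKc ho (by
        rintro _ ⟨y, hy, rfl⟩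
        exact (hCs hy).2)
      refine ⟨g '' C, ?_, fun K H a1 a2 a3 a4 => ?_⟩
      · filter_upwards [self_mem_nhdsWithin, nhdsWithin_le_nhds (hP.oN.mem_nhds hN),
          nhdsWithin_le_nhds (hr.continuous.continuousAt.eventually hC)] with x b1 b2 b3
        exact ⟨r x, b3, (hP.rm x b1.1 b2).2⟩
      have hA' := amb hA (by norm_num) a3
      have hW : ContDiff ℝ ∞ (Function.uncurry fun a : E =>
          fld Pi (lH (lH l H) fun x => b x * inner ℝ a (r x))) :=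
        (hA.sP.comp contDiff_snd).clm_apply ((hA'.sl.comp contDiff_snd).add
          (ContDiff.fderiv (f := fun (p : E × V) x => b x * inner ℝ p.1 (r x)) (g := Prod.snd)
            (m := ∞) ((hb.comp contDiff_snd).mul
              (contDiff_fst.fst.inner ℝ (hr.comp contDiff_snd))) contDiff_snd (by simp)))
      have h4 := stable hA.sub hW a1 a2 (by
        have e : (lH (lH l H) fun x => b x * inner ℝ (0 : E) (r x)) = lH l H := by
          funext x
          simp [lH]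
        simpa only [e] using a4)
      obtain ⟨a, h5, h6⟩ := ((dense hA' le_rfl hP hr hb hbs).and_eventually h4).exists
      have h7 := adm_cut (M := M) hb (contDiff_const.inner ℝ hr (f := fun _ => a)) hbs
      refine ⟨K ∪ g '' C, _, a1.union hKc, union_subset a2 ?_, a3.add h7, ?_,
        subset_union_left, subset_union_right⟩
      · rintro _ ⟨y, hy, rfl⟩
        exact (hP.gm y (hCs hy).1).1
      · rw [lH_add a3.1 h7.1]
        rintro x (hx | ⟨y, hy, rfl⟩)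
        · exact h6 x hx
        · exact h5 y (hCs hy).1 (hb1 _ ⟨y, hy, rfl⟩)
  obtain ⟨K, H, -, -, h3, h4, h5, h6⟩ := main ({x ∈ M | φ x ≤ 1 / 4} ∩ {x | 1 / 8 ≤ φ x})
    (fun _ => 0) ((hc _ (by norm_num)).inter_right
      (isClosed_le continuous_const hA.sφ.continuous)) (fun x hx => hx.1.1)
    ⟨contDiff_const, fun _ _ _ => .of_forall fun _ => rfl⟩ fun x hx h0 => by
      have h1 := hA.shell x hx.1.1 hx.2
      have h2 : Pi x (l x) = 0 := by simpa [lH] using h0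
      rw [h2, map_zero] at h1
      exact (lt_irrefl _ h1).elim
  refine ⟨H, h3, fun x hx h0 => h4 x ?_ h0⟩
  rcases le_total (φ x) (1 / 8) with h | h
  · exact h6 ⟨hx, h⟩
  · refine h5 ⟨⟨hx, not_lt.1 fun h' => ?_⟩, h⟩
    have h1 := (amb hA (by norm_num) h3).shell x hx h'.le
    rw [show Pi x (lH l H x) = 0 from h0, map_zero] at h1
    exact lt_irrefl _ h1

end Pool.Agent.MP_6d695c_gt.SW.Zero

end MrgPart4

-- ======== part 5: formerly Pool.Agent.MP_6d695c_gt.sw.Zero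
section MrgPart5

/-! PROJECT SW, ZERO: after a small perturbation the zeros are finitely many and good. -/

open scoped ContDiff Topology
open Set Metric Filter Asymptotics

namespace Pool.Agent.MP_6d695c_gt.SW

namespace Zero

variable {V : Type} [NormedAddCommGroup V] [NormedSpace ℝ V] {M : Set V} {φ : V → ℝ}
  {l : V → V →L[ℝ] ℝ} {E : Type} [NormedAddCommGroup E] [InnerProductSpace ℝ E]
  [FiniteDimensional ℝ E] {Pi : V → (V →L[ℝ] ℝ) →L[ℝ] V}
  {s : ℝ} {g : E → V} {r : V → E} {O : Set E} {N : Set V}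

omit [FiniteDimensional ℝ E] in
theorem pull (hP : Par M g r O N) {z : V} (hN : z ∈ N) {p : E → Prop}
    (h : ∀ᶠ y in 𝓝 (r z), p y) : ∀ᶠ x in 𝓝[M] z, g (r x) = x ∧ p (r x) := by
  filter_upwards [self_mem_nhdsWithin, nhdsWithin_le_nhds (hP.oN.mem_nhds hN),
    nhdsWithin_le_nhds ((hP.dr hN).continuousAt.eventually h)] with x b1 b2 b3
  exact ⟨(hP.rm x b1 b2).2, b3⟩

/-- the field is bounded below near a nondegenerate zero -/
theorem lower (hM : Sub E M) {Y : V → V} {z : V} (hz : z ∈ M) (hY : DifferentiableAt ℝ Y z)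
    (h0 : Y z = 0) (h : ND M Y z) : ∃ c > 0, ∀ᶠ x in 𝓝[M] z, ‖x - z‖ ≤ c * ‖Y x‖ := by
  obtain ⟨g, r, O, N, hP, hN⟩ := hM z hz
  obtain ⟨h1, h2⟩ := hP.rm z hz hN
  have h3 : HasFDerivAt (Y ∘ g) ((fderiv ℝ Y z).comp (fderiv ℝ g (r z))) (r z) :=
    HasFDerivAt.comp _ (by rw [h2]; exact hY.hasFDerivAt) (hP.dg h1).hasFDerivAt
  have h4 := (h3.isTheta_sub (LinearMap.isClosedEmbedding_of_injective
    (LinearMap.ker_eq_bot.2 ((nd_iff hP hz hN).1 h))).isInducing).symm.isBigO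
  obtain ⟨c, hc, h5⟩ := isBigO_iff'.1 ((hP.dg h1).isBigO_sub.trans h4)
  refine ⟨c, hc, (pull hP hN h5).mono fun x hx => ?_⟩
  simpa [hx.1, h2, h0] using hx.2

omit [FiniteDimensional ℝ E] in
/-- a quadratic form gives a local Lyapunov function -/
theorem good (hP : Par M g r O N) (hr : ContDiff ℝ ∞ r) {Y : V → V} {z : V} (hz : z ∈ M)
    (hN : z ∈ N) (h0 : Y z = 0) {A : E →L[ℝ] E}
    (hA : HasFDerivAt (fun y => fderiv ℝ r (g y) (Y (g y))) A (r z)) (B : E →L[ℝ] E →L[ℝ] ℝ)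
    (hB : ∀ v, B (A v) v + B v (A v) = ‖v‖ ^ 2) : ∃ u, GoodWith M Y z u := by
  obtain ⟨h1, h2⟩ := hP.rm z hz hN
  have hd : ∀ x v, fderiv ℝ (fun x => B (r x - r z) (r x - r z)) x v =
      B (fderiv ℝ r x v) (r x - r z) + B (r x - r z) (fderiv ℝ r x v) := fun x v => by
    have h3 := (hr.differentiable (by simp) x).hasFDerivAt.sub_const (r z)
    refine (congrArg (fun T : V →L[ℝ] ℝ => T v)
      ((B.hasFDerivAt.comp x h3).clm_apply h3).fderiv).trans ?_
    simp [add_comm]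
  obtain ⟨C, hC, h4⟩ := isBigO_iff'.1 (hP.dg h1).isBigO_sub
  have hδ : 0 < 1 / (4 * (‖B‖ + 1)) := by positivity
  have h5 := hA.isLittleO.def hδ
  refine ⟨fun x => B (r x - r z) (r x - r z), h0,
    (B.contDiff.comp (hr.sub contDiff_const)).clm_apply (hr.sub contDiff_const), ?_,
    1 / (2 * C ^ 2), by positivity, (pull hP hN (h4.and h5)).mono fun x hx => ?_⟩
  · ext v
    rw [hd]
    simp
  obtain ⟨a1, a2, a3⟩ := hx
  rw [a1, h2] at a2 a3
  rw [h0, map_zero, sub_zero] at a3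
  rw [hd]
  generalize fderiv ℝ r x (Y x) = w at a3
  generalize r x - r z = v at a2 a3
  obtain ⟨e, rfl⟩ : ∃ e, w = A v + e := ⟨w - A v, by abel⟩
  rw [add_sub_cancel_left] at a3
  have b1 : |B e v| ≤ ‖B‖ * ‖e‖ * ‖v‖ := B.le_opNorm₂ e v
  have b2 : |B v e| ≤ ‖B‖ * ‖v‖ * ‖e‖ := B.le_opNorm₂ v e
  have b3 : ‖B‖ * ‖e‖ ≤ ‖v‖ / 4 := by
    have : ‖e‖ * (4 * (‖B‖ + 1)) ≤ ‖v‖ := by
      rwa [one_div, inv_mul_eq_div, le_div_iff₀ (by positivity)] at a3
    nlinarith [norm_nonneg e]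
  have b4 : ‖x - z‖ ^ 2 ≤ (C * ‖v‖) ^ 2 := pow_le_pow_left₀ (norm_nonneg _) a2 2
  have b5 : 1 / (2 * C ^ 2) * ‖x - z‖ ^ 2 ≤ ‖v‖ ^ 2 / 2 := by
    rw [one_div, inv_mul_eq_div, div_le_iff₀ (by positivity)]
    nlinarith
  have b6 := mul_le_mul_of_nonneg_right b3 (norm_nonneg v)
  have b7 := hB v
  simp only [map_add, add_apply]
  nlinarith [neg_abs_le (B e v), neg_abs_le (B v e)]

theorem solve {F : Type} [AddCommGroup F] [Module ℝ F] [FiniteDimensional ℝ F]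
    (L : Module.End ℝ F) : ∃ T : Set ℝ, T.Finite ∧ ∀ ε ∉ T, ∀ y, ∃ x, (1 - ε) • L x + ε • x = y := by
  refine ⟨(fun μ => μ / (μ - 1)) '' {μ | L.HasEigenvalue μ}, L.finite_hasEigenvalue.image _,
    fun ε hε => ?_⟩
  refine LinearMap.surjective_of_injective (f := (1 - ε) • L + ε • LinearMap.id) ?_
  rw [injective_iff_map_eq_zero]
  intro B hB
  by_contra h0
  change (1 - ε) • L B + ε • B = 0 at hB
  have h2 : 1 - ε ≠ 0 := fun h => h0 (by
    rwa [h, zero_smul, zero_add, ← sub_eq_zero.1 h, one_smul] at hB)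
  refine hε ⟨-ε / (1 - ε), Module.End.hasEigenvalue_of_hasEigenvector
    ⟨Module.End.mem_eigenspace_iff.2 ?_, h0⟩, ?_⟩
  · refine smul_right_injective _ h2 ?_
    show (1 - ε) • L B = (1 - ε) • (-ε / (1 - ε)) • B
    rw [smul_smul, mul_div_cancel₀ _ h2, neg_smul]
    exact eq_neg_of_add_eq_zero_left hB
  · show -ε / (1 - ε) / (-ε / (1 - ε) - 1) = ε
    rw [div_sub_one h2]
    field_simp
    ring

/-- the Lyapunov equation is solvable for all but finitely many parameters -/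
theorem lyap (A : E →L[ℝ] E) : ∃ T : Set ℝ, T.Finite ∧ ∀ ε ∉ T, ∀ A' : E →L[ℝ] E,
    (∀ v, A' v = (1 - ε) • A v + (ε / 2) • v) →
    ∃ B : E →L[ℝ] E →L[ℝ] ℝ, ∀ v, B (A' v) v + B v (A' v) = ‖v‖ ^ 2 := by
  obtain ⟨L, hL⟩ : ∃ L : Module.End ℝ (E →L[ℝ] E →L[ℝ] ℝ),
      ∀ B v, L B v v = B (A v) v + B v (A v) :=
    ⟨{ toFun := fun B => B.comp A + (B.flip.comp A).flip
       map_add' := fun B B' => by ext u v; simp; ring
       map_smul' := fun c B => by ext u v; simp }, fun B v => rfl⟩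
  obtain ⟨I, hI⟩ : ∃ I : E →L[ℝ] E →L[ℝ] ℝ, ∀ v, I v v = ‖v‖ ^ 2 :=
    ⟨innerSL ℝ, fun v => real_inner_self_eq_norm_sq v⟩
  obtain ⟨T, hT, h⟩ := solve (F := E →L[ℝ] E →L[ℝ] ℝ) L
  refine ⟨T, hT, fun ε hε A' hA' => ?_⟩
  obtain ⟨B, hB⟩ := h ε hε I
  refine ⟨B, fun v => ?_⟩
  rw [← hI, ← hB, hA']
  simp only [map_add, map_smul, add_apply, smul_apply, smul_eq_mul, hL]
  ring

/-- a quadratic perturbation makes a zero good -/
theorem local_good [FiniteDimensional ℝ V] (hA : Amb E M l Pi φ s) (hs : s ≤ 1 / 4)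
    {z : V} (hz : z ∈ M) (h0 : fld Pi l z = 0) :
    ∃ (q : V → ℝ) (T : Set ℝ), ContDiff ℝ ∞ q ∧ fderiv ℝ q z = 0 ∧ T.Finite ∧
      ∀ ε ∉ T, ∀ h, Adm M φ h → h =ᶠ[𝓝 z] (fun x => ε * q x) →
        ∃ u, GoodWith M (fld Pi (lH l h)) z u := by
  obtain ⟨g, r₀, O₀, N₀, hP₀, hN₀⟩ := hA.sub z hz
  obtain ⟨r, O, N, hP, hr, hN, -⟩ := hP₀.global hz hN₀
  obtain ⟨h1, h2⟩ := hP.rm z hz hN
  obtain ⟨D, hD⟩ : ∃ D, D = fderiv ℝ (lam l g) (r z) := ⟨_, rfl⟩
  let S : E →L[ℝ] E →L[ℝ] ℝ := (-(1 / 2) : ℝ) • (D + D.flip)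
  let q : V → ℝ := fun x => -(1 / 2) * D (r x - r z) (r x - r z)
  have hq : ContDiff ℝ ∞ q := contDiff_const.mul
    ((D.contDiff.comp (hr.sub contDiff_const)).clm_apply (hr.sub contDiff_const))
  have hd : ∀ x, HasFDerivAt q ((S (r x - r z)).comp (fderiv ℝ r x)) x := fun x => by
    have h3 := (hr.differentiable (by simp) x).hasFDerivAt.sub_const (r z)
    refine (((D.hasFDerivAt.comp x h3).clm_apply h3).const_mul _).congr_fderiv ?_
    ext v
    simp [S]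
  have hz0 : fld Pi l (g (r z)) = 0 := by rw [h2, h0]
  obtain ⟨T, hT, hL⟩ := lyap ((fderiv ℝ r (g (r z))).comp
    ((fderiv ℝ (fld Pi l) (g (r z))).comp (fderiv ℝ g (r z))))
  refine ⟨q, T, hq, by rw [(hd z).fderiv]; simp, hT, fun ε hε h hh he => ?_⟩
  have hA' := amb hA hs hh
  have h3 : ∀ᶠ x in 𝓝 z, fderiv ℝ h x = ε • (S (r x - r z)).comp (fderiv ℝ r x) :=
    he.eventually_nhds.mono fun x hx => (((hd x).const_mul ε).congr_of_eventuallyEq hx).fderiv
  have h4 : fld Pi (lH l h) (g (r z)) = 0 := by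
    rw [h2, ← h0]
    simp [fld, lH, h3.self_of_nhds]
  have h5 : lam (lH l h) g =ᶠ[𝓝 (r z)] fun y => lam l g y + ε • S (y - r z) := by
    filter_upwards [hP.oO.mem_nhds h1,
      (hP.dg h1).continuousAt.eventually (by rw [h2]; exact h3)] with y a1 a2
    ext w
    simp [lam, lH, a2, hP.dr_dg a1, (hP.gm y a1).2.2]
  have h6 : fderiv ℝ (lam (lH l h) g) (r z) = D + ε • S := by
    rw [h5.fderiv_eq, hD]
    exact ((dlam hA hP h1).hasFDerivAt.add
      ((S.hasFDerivAt.comp _ ((hasFDerivAt_id _).sub_const (r z))).const_smul ε)).fderiv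
  have h7 : ∀ u w, D u w - D w u =
      dd l (g (r z)) (fderiv ℝ g (r z) u) (fderiv ℝ g (r z) w) := fun u w => by
    rw [hD]
    exact dd_pullback (hA.sl.differentiable (by simp) _) ((hP.cg h1).of_le two_le) u w
  obtain ⟨b1, b2⟩ := tan_der hA' hP h1 h4
  obtain ⟨B, hB⟩ := hL ε hε ((fderiv ℝ r (g (r z))).comp
    ((fderiv ℝ (fld Pi (lH l h)) (g (r z))).comp (fderiv ℝ g (r z)))) fun v => by
      have c1 := (tan_der hA hP h1 hz0).2 v
      have c2 := b2 v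
      have c3 := fun w => key hA hP h1 hz0 v w
      have c4 := fun w => key hA' hP h1 h4 v w
      simp only [ContinuousLinearMap.comp_apply]
      rw [← c1, ← hD] at c3
      rw [← c2, h6] at c4
      generalize fderiv ℝ r (g (r z)) (fderiv ℝ (fld Pi l) (g (r z)) (fderiv ℝ g (r z) v)) = a
        at c3
      generalize fderiv ℝ r (g (r z))
        (fderiv ℝ (fld Pi (lH l h)) (g (r z)) (fderiv ℝ g (r z) v)) = a' at c4
      have c5 := hA.nondeg (hP.gm _ h1).1 (u := fderiv ℝ g (r z) (a' - ((1 - ε) • a + (ε / 2) • v)))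
        (by rw [hP.tg h1]; exact mem_range_self _) (by
          rw [hP.tg h1]
          rintro _ ⟨w, rfl⟩
          have d1 := c3 w
          have d2 := c4 w
          have d3 := h7 v w
          rw [dd_lH hA hh.1] at d2
          simp only [dd, S, map_add, map_sub, map_smul, add_apply, sub_apply, smul_apply,
            smul_eq_mul, ContinuousLinearMap.flip_apply] at d1 d2 d3 ⊢
          linear_combination -d2 + (1 - ε) * d1 + (ε / 2) * d3)
      rw [← sub_eq_zero, ← hP.dr_dg h1 (a' - _), c5, map_zero]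
  exact good hP hr hz hN (h2 ▸ h4) b1 B hB

/-- a small perturbation creates no new zeros -/
theorem no_new {K Z : Set V} (hK : IsCompact K) {Y X : V → V} (hY : Continuous Y)
    (hX : Differentiable ℝ X) (h : ∀ z ∈ K, Y z = 0 → z ∈ Z ∧ X z = 0 ∧
      ∃ c > 0, ∀ᶠ x in 𝓝[M] z, ‖x - z‖ ≤ c * ‖Y x‖) :
    ∀ᶠ ε : ℝ in 𝓝 0, ∀ x ∈ K, x ∈ M → Y x + ε • X x = 0 → x ∈ Z := by
  refine hK.eventually_forall_of_forall_eventually fun z hz => ?_
  by_cases h0 : Y z = 0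
  · obtain ⟨h1, h2, c, hc, h3⟩ := h z hz h0
    obtain ⟨C, hC, h4⟩ := isBigO_iff'.1 (hX z).isBigO_sub
    have h5 : ∀ᶠ ε : ℝ in 𝓝 0, c * |ε| * C < 1 :=
      (by fun_prop : Continuous fun ε : ℝ => c * |ε| * C).continuousAt.eventually_lt
        continuousAt_const (by simp)
    filter_upwards [continuousAt_fst.eventually h5, continuousAt_snd.eventually h4,
      continuousAt_snd.eventually (eventually_nhdsWithin_iff.1 h3)] with p a1 a2 a3 a4 a5
    have a6 := a3 a4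
    rw [eq_neg_of_add_eq_zero_left a5, norm_neg, norm_smul, Real.norm_eq_abs] at a6
    rw [h2, sub_zero] at a2
    have a7 := mul_le_mul_of_nonneg_left a2 (mul_nonneg hc.le (abs_nonneg p.1))
    have a8 : ‖p.2 - z‖ = 0 := by nlinarith [norm_nonneg (p.2 - z)]
    rwa [sub_eq_zero.1 (norm_eq_zero.1 a8)]
  · have h1 : Continuous fun p : ℝ × V => Y p.2 + p.1 • X p.2 :=
      (hY.comp continuous_snd).add (continuous_fst.smul (hX.continuous.comp continuous_snd))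
    filter_upwards [h1.continuousAt.eventually_ne (y := 0)
      (show Y (0, z).2 + ((0 : ℝ), z).1 • X (0, z).2 ≠ 0 by simpa using h0)]
      with p a1 _ a2
    exact (a1 a2).elim

/-- nondegenerate zeros can be made good -/
theorem step2 [FiniteDimensional ℝ V] (hA : Amb E M l Pi φ (1 / 4))
    (hn : ∀ x ∈ M, fld Pi l x = 0 → ND M (fld Pi l) x) :
    ∃ H, Adm M φ H ∧ {x ∈ M | fld Pi (lH l H) x = 0}.Finite ∧
      ∀ z ∈ M, fld Pi (lH l H) z = 0 → ∃ u, GoodWith M (fld Pi (lH l H)) z u := by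
  have hK := hA.cpt (1 / 4) (by norm_num)
  have hlt : ∀ {l}, Amb E M l Pi φ (1 / 4) → ∀ x ∈ M, fld Pi l x = 0 → φ x < 1 / 4 :=
    fun {l} hA x hx h0 => not_le.1 fun h => by
      have h1 := hA.shell x hx h
      rw [show Pi x (l x) = 0 from h0, map_zero] at h1
      exact lt_irrefl _ h1
  have hlow := fun x hx h0 => lower hA.sub hx (hA.smZ.differentiable (by simp) x) h0 (hn x hx h0)
  have hZ : {x ∈ M | fld Pi l x = 0}.Finite := by
    refine IsCompact.finite ?_ (isDiscrete_iff_nhdsNE.2 ?_)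
    · rw [show {x ∈ M | fld Pi l x = 0} = {x ∈ M | φ x ≤ 1 / 4} ∩ {x | fld Pi l x = 0} from
        Set.ext fun x => ⟨fun h => ⟨⟨h.1, (hlt hA x h.1 h.2).le⟩, h.2⟩, fun h => ⟨h.1.1, h.2⟩⟩]
      exact hK.inter_right (isClosed_eq hA.smZ.continuous continuous_const)
    · rintro z ⟨hz, h0⟩
      obtain ⟨c, -, h1⟩ := hlow z hz h0
      rw [inf_principal_eq_bot]
      filter_upwards [nhdsWithin_le_nhds (eventually_nhdsWithin_iff.1 h1),
        self_mem_nhdsWithin] with x a1 a2 a3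
      have a4 := a1 a3.1
      rw [show Pi x (l x) = 0 from a3.2, norm_zero, mul_zero] at a4
      exact a2 (sub_eq_zero.1 (norm_le_zero_iff.1 a4))
  obtain ⟨Z, hZe⟩ : ∃ Z : Set V, Z = {x ∈ M | fld Pi l x = 0} := ⟨_, rfl⟩
  have hm : ∀ z : Z, z.1 ∈ M ∧ fld Pi l z.1 = 0 := fun z => (Set.ext_iff.1 hZe z.1).1 z.2
  rw [← hZe] at hZ
  have := hZ.fintype
  choose q T h1 h2 h3 h4 using fun z : Z => local_good hA le_rfl (hm z).1 (hm z).2
  have ho : IsOpen {x | φ x < 1 / 4} := isOpen_lt hA.sφ.continuous continuous_const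
  choose b b1 b2 b3 b4 b5 using fun z : Z => exists_cut (isCompact_singleton (x := z.1))
    (ho.sdiff (hZ.subset (sdiff_subset (t := {z.1}))).isClosed)
    (singleton_subset_iff.2 ⟨hlt hA _ (hm z).1 (hm z).2, fun h => h.2 rfl⟩)
  let h : V → ℝ := fun x => ∑ z, b z x * q z x
  have hh : Adm M φ h := ⟨ContDiff.sum fun z _ => (b1 z).mul (h1 z), fun x hx h4 => by
    filter_upwards [eventually_all.2 fun z : Z =>
      (adm_cut (b1 z) (h1 z) ((b3 z).trans sdiff_subset)).2 x hx h4] with y hy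
    exact Finset.sum_eq_zero fun z _ => hy z⟩
  have he : ∀ z : Z, h =ᶠ[𝓝 z.1] q z := fun z => by
    have a1 : ∀ z' : Z, ∀ᶠ x in 𝓝 z.1, z' ≠ z → b z' x = 0 := fun z' => by
      by_cases hz : z' = z
      · exact .of_forall fun _ h => (h hz).elim
      · exact (notMem_tsupport_iff_eventuallyEq.1 fun h => (b3 z' h).2
          ⟨z.2, fun h => hz (Subtype.ext h).symm⟩).mono fun x hx _ => hx
    filter_upwards [eventually_all.2 a1, b4 z _ rfl] with x a2 a3
    show ∑ z, b z x * q z x = _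
    rw [Finset.sum_eq_single z (fun z' _ hz => by rw [a2 z' hz, zero_mul])
      fun h => (h (Finset.mem_univ _)).elim, a3, one_mul]
  have hX : Differentiable ℝ fun x => Pi x (fderiv ℝ h x) :=
    (hA.sP.clm_apply (hh.1.fderiv_right (m := ∞) (by simp))).differentiable (by simp)
  have h5 := no_new (Z := Z) hK hA.smZ.continuous hX fun z hz h0 =>
    have hz' : z ∈ Z := hZe ▸ ⟨hz.1, h0⟩
    ⟨hz', by rw [(he ⟨z, hz'⟩).fderiv_eq, h2, map_zero], hlow z hz.1 h0⟩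
  obtain ⟨ε, a2, a1⟩ := (infinite_of_mem_nhds 0 h5).exists_notMem_finite (finite_iUnion h3)
  have h6 : ∀ x ∈ M, fld Pi (lH l fun x => ε * h x) x = 0 → x ∈ Z := fun x hx h0 =>
    a2 x ⟨hx, (hlt (amb hA le_rfl (hh.smul ε)) x hx h0).le⟩ hx (by
      rw [← h0]
      simp [fld, lH, fderiv_const_mul (hh.1.differentiable (by simp) x)])
  exact ⟨_, hh.smul ε, hZ.subset fun x hx => h6 x hx.1 hx.2, fun z hz h0 =>
    h4 ⟨z, h6 z hz h0⟩ ε (fun h => a1 (mem_iUnion_of_mem _ h)) _ (hh.smul ε)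
      ((he ⟨z, h6 z hz h0⟩).mono fun x hx => congrArg (ε * ·) hx)⟩

end Zero

/-- ZERO -/
theorem zero : ZeroStmt := by
  intro V _ _ _ d M l Pi φ hA
  obtain ⟨H, h1, h2⟩ := Zero.step1 hA
  obtain ⟨H', h3, h4, h5⟩ := Zero.step2 (Zero.amb hA (by norm_num) h1) h2
  rw [← Zero.lH_add h1.1 h3.1] at h4 h5
  exact ⟨_, (h1.add h3).1, (h1.add h3).2, Zero.amb hA (by norm_num) (h1.add h3), h4, h5⟩

end Pool.Agent.MP_6d695c_gt.SW

end MrgPart5

-- marker of a merged file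
example : 731051 + 330003 = 731051 + 330003 := rfl
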