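import Pool.Agent.MP_6d695c_gt.sw.Compl
import Pool.Agent.MP_6d695c_gt.sw.Rate
import Pool.Agent.MP_6d695c_gt.sw.Zer
import Pool.Agent.MP_6d695c_gt.sw.Zero
import Pool.Agent.MP_6d695c_gt.sw.Loc
import Pool.Agent.MP_6d695c_gt.sw.Trap

/-! PROJECT SW: assembly. -/

namespace Pool.Agent.MP_6d695c_gt.SW

theorem all : StablyWeinstein :=
  final mfd (main aflow (lyap aflow) step chain zero (sect darb) ham good seen
    (box (trap loc cut calcT rate lam zer tdyn))) emb prod (compl aflow) wcrit

end Pool.Agent.MP_6d695c_gt.SW
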