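import Pool.Agent.MP_6d695c_gt.sw.Loc

/-! PROJECT SW: the Hamiltonian of the shift register. -/

open scoped ContDiff Topology
open Set Metric Filter Real

namespace Pool.Agent.MP_6d695c_gt.SW.Box

variable {n M : ℕ} {ι : Type} [Fintype ι] [DecidableEq ι]

/-- the coordinate `f 0` -/
noncomputable def f0L (n : ℕ) : Q n →L[ℝ] ℝ :=
  (ContinuousLinearMap.proj 0 : (Fin (n + 1) → ℝ) →L[ℝ] ℝ).comp
    (ContinuousLinearMap.fst ℝ (Fin (n + 1) → ℝ) (Fin (n + 1) → ℝ))

theorem f0L_apply (q : Q n) : f0L n q = q.1 0 := rfl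

theorem XM_congr {H H' : Q n × (ι → ℂ) → ℝ} {p : Q n × (ι → ℂ)} (h : ∀ᶠ p' in 𝓝 p, H p' = H' p') :
    XM H p = XM H' p := by
  have h1 : fderiv ℝ H p = fderiv ℝ H' p := EventuallyEq.fderiv_eq h
  simp only [XM, d1, d2, h1]

theorem d_pr {H : Q n × (ι → ℂ) → ℝ} (hH : ContDiff ℝ ∞ H) (p : Q n × (Sl ι M → ℂ)) :
    d1 (fun p => H (pr n ι M p)) p = d1 H (pr n ι M p) ∧
      d2 (fun p => H (pr n ι M p)) p = (d2 H (pr n ι M p)).comp (sl 0) := by
  have h := ((hH.differentiable (by simp) _).hasFDerivAt.comp p (pr n ι M).hasFDerivAt).fderiv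
  have h' : fderiv ℝ (fun p => H (pr n ι M p)) p = _ := h
  constructor
  · refine ContinuousLinearMap.ext fun v => ?_
    simp only [d1, h', ContinuousLinearMap.comp_apply]
    congr 1
  · refine ContinuousLinearMap.ext fun v => ?_
    simp only [d2, h', ContinuousLinearMap.comp_apply]
    congr 1

theorem XM_pr {H : Q n × (ι → ℂ) → ℝ} (hH : ContDiff ℝ ∞ H) (p : Q n × (Sl ι M → ℂ)) :
    pr n ι M (XM (fun p => H (pr n ι M p)) p) = XM H (pr n ι M p) ∧
      ∀ i, i ≠ 0 → sl i (XM (fun p => H (pr n ι M p)) p).2 = (1 / 2 : ℝ) • sl i p.2 := by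
  obtain ⟨h1, h2⟩ := d_pr hH p
  refine ⟨Prod.ext ?_ ?_, fun i hi => ?_⟩
  · show one n + sh p.1 _ = one n + sh p.1 _
    rw [h1]
  · show sl 0 ((1 / 2 : ℝ) • p.2 + shC _) = (1 / 2 : ℝ) • sl 0 p.2 + shC _
    rw [map_add, map_smul, h2, shC_sl0, if_pos rfl]
  · show sl i ((1 / 2 : ℝ) • p.2 + shC _) = _
    rw [map_add, map_smul, h2, shC_sl0, if_neg hi, add_zero]

theorem rad_pr {H : Q n × (ι → ℂ) → ℝ} (hH : ContDiff ℝ ∞ H) (p : Q n × (Sl ι M → ℂ)) :
    ipc p.2 (shC (d2 (fun p => H (pr n ι M p)) p)) =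
      ipc (pr n ι M p).2 (shC (d2 H (pr n ι M p))) := by
  rw [(d_pr hH p).2, ipc_sl, Finset.sum_eq_single 0]
  · rw [shC_sl0, if_pos rfl]
    rfl
  · intro i _ hi
    rw [shC_sl0, if_neg hi, ipc_zero]
  · simp

/-- a sum of rotations with coefficients `g` -/
noncomputable def HR (g : Fin M → Q n → ℝ) (p : Q n × (Sl ι M → ℂ)) : ℝ :=
  ∑ m, g m p.1 * QQ m p.2

omit [DecidableEq ι] in
theorem HR_smooth {g : Fin M → Q n → ℝ} (hg : ∀ m, ContDiff ℝ ∞ (g m)) :
    ContDiff ℝ ∞ (HR (ι := ι) g) :=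
  ContDiff.sum fun m _ => ((hg m).comp contDiff_fst).mul ((QQ_smooth m).comp contDiff_snd)

omit [DecidableEq ι] in
theorem HR_der {g : Fin M → Q n → ℝ} (hg : ∀ m, ContDiff ℝ ∞ (g m)) (p v : Q n × (Sl ι M → ℂ)) :
    fderiv ℝ (HR g) p v =
      ∑ m, (g m p.1 * omC (rot m p.2) v.2 + QQ m p.2 * fderiv ℝ (g m) p.1 v.1) := by
  have h := HasFDerivAt.fun_sum (u := Finset.univ) fun (m : Fin M) _ =>
    (((hg m).differentiable (by simp) p.1).hasFDerivAt.comp p hasFDerivAt_fst).fun_mul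
      (((QQ_smooth (ι := ι) m).differentiable (by simp) p.2).hasFDerivAt.comp p hasFDerivAt_snd)
  have h2 : fderiv ℝ (HR g) p = _ := h.fderiv
  rw [h2]
  simp [QQ_der]

theorem HR_snd {g : Fin M → Q n → ℝ} (hg : ∀ m, ContDiff ℝ ∞ (g m)) (p : Q n × (Sl ι M → ℂ)) :
    shC (d2 (HR g) p) = ∑ m, g m p.1 • rot m p.2 := by
  refine shC_eq fun v => ?_
  rw [← omL_apply, map_sum]
  simp [d2, HR_der hg, omL_apply]

omit [DecidableEq ι] in
theorem HR_fst {g : Fin M → Q n → ℝ} (hg : ∀ m, ContDiff ℝ ∞ (g m)) (p : Q n × (Sl ι M → ℂ)) :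
    sh p.1 (d1 (HR g) p) = ∑ m, QQ m p.2 • sh p.1 (fderiv ℝ (g m) p.1) := by
  have h0 : ∀ u : Sl ι M → ℂ, omC u 0 = 0 := fun u => by simp [omC]
  refine Prod.ext (funext fun j => ?_) (funext fun j => ?_)
  · simp only [sh, d1, ContinuousLinearMap.comp_apply, HR_der hg, ContinuousLinearMap.inl_apply, h0,
      Prod.fst_sum, Finset.sum_apply, Prod.smul_fst, Pi.smul_apply, smul_eq_mul, Finset.mul_sum]
    exact Finset.sum_congr rfl fun m _ => by ring
  · simp only [sh, d1, ContinuousLinearMap.comp_apply, HR_der hg, ContinuousLinearMap.inl_apply, h0,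
      Prod.snd_sum, Finset.sum_apply, Prod.smul_snd, Pi.smul_apply, smul_eq_mul, Finset.mul_sum,
      ← Finset.sum_neg_distrib]
    exact Finset.sum_congr rfl fun m _ => by ring

theorem cont_sh {g : Q n → ℝ} (hg : ContDiff ℝ ∞ g) : Continuous fun q => sh q (fderiv ℝ g q) := by
  have h := hg.continuous_fderiv (by simp)
  refine Continuous.prodMk (continuous_pi fun j => ?_) (continuous_pi fun j => ?_)
  · exact Continuous.mul (by fun_prop) (h.clm_apply continuous_const)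
  · exact (Continuous.mul (by fun_prop) (h.clm_apply continuous_const)).neg

/-- the combination of two slots that is carried by the rotation -/
noncomputable def YY (B : ℝ → ℝ) (m : Fin M) (p : Q n × (Sl ι M → ℂ)) : ι → ℂ :=
  (-sin (B (p.1.1 0))) • sl m.castSucc p.2 + cos (B (p.1.1 0)) • sl m.succ p.2

omit [DecidableEq ι] in
theorem YY_smooth {B : ℝ → ℝ} (hB : ContDiff ℝ ∞ B) (m : Fin M) :
    ContDiff ℝ ∞ (YY (n := n) (ι := ι) B m) := by
  have h : ContDiff ℝ ∞ fun p : Q n × (Sl ι M → ℂ) => B (p.1.1 0) := hB.comp (by fun_prop)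
  exact (h.sin.neg.smul ((sl (ι := ι) _).contDiff.comp contDiff_snd)).add
    (h.cos.smul ((sl (ι := ι) _).contDiff.comp contDiff_snd))

omit [DecidableEq ι] in
theorem YY_der {B : ℝ → ℝ} (hB : ContDiff ℝ ∞ B) (m : Fin M) (p v : Q n × (Sl ι M → ℂ))
    (h1 : v.1.1 0 = 1) (h2 : v.2 = (1 / 2 : ℝ) • p.2 + deriv B (p.1.1 0) • rot m p.2) :
    fderiv ℝ (fun p => nsq (YY B m p)) p v = nsq (YY B m p) := by
  have hf : HasFDerivAt (fun p : Q n × (Sl ι M → ℂ) => p.1.1 0)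
      ((f0L n).comp (ContinuousLinearMap.fst ℝ _ _)) p :=
    ((f0L n).comp (ContinuousLinearMap.fst ℝ (Q n) (Sl ι M → ℂ))).hasFDerivAt
  have hb := (hB.differentiable (by simp) (p.1.1 0)).hasDerivAt.comp_hasFDerivAt p hf
  have hs : ∀ i, HasFDerivAt (fun p : Q n × (Sl ι M → ℂ) => sl i p.2)
      ((sl i).comp (ContinuousLinearMap.snd ℝ _ _)) p := fun i =>
    ((sl i).comp (ContinuousLinearMap.snd ℝ (Q n) _)).hasFDerivAt
  have hY := (hb.sin.fun_neg.fun_smul (hs m.castSucc)).fun_add (hb.cos.fun_smul (hs m.succ))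
  have h3 : fderiv ℝ (fun p => nsq (YY B m p)) p = _ := (hasF_nsq hY).fderiv
  rw [h3, ContinuousLinearMap.comp_apply, fderiv_nsq]
  have h4 : ∀ y : ι → ℂ, y = (1 / 2 : ℝ) • YY B m p → 2 * ipc (YY B m p) y = nsq (YY B m p) := by
    rintro y rfl
    rw [ipc_smul, ipc_self]
    ring
  refine h4 _ ?_
  simp only [add_apply, smul_apply, ContinuousLinearMap.comp_apply, ContinuousLinearMap.coe_snd',
    ContinuousLinearMap.smulRight_apply, neg_apply, ContinuousLinearMap.coe_fst',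
    f0L_apply, h1, h2, map_add, map_smul, sl_rot, if_neg (cs_ne m), if_true,
    YY, Function.comp_apply, smul_eq_mul]
  module

/-- the shift register -/
structure Reg (h w CR : ℝ) (u : ℕ → ℝ) (G : Fin M → Q n × (Sl ι M → ℂ) → ℝ)
    (H : Q n × (Sl ι M → ℂ) → ℝ) : Prop where
  sm : ContDiff ℝ ∞ H
  u0 : u 0 = -(h / 2)
  uM : u M = -h
  anti : StrictAnti u
  supp : ∀ p : Q n × (Sl ι M → ℂ), p.1 ∉ cbox n h (3 * w) ∨ -(h / 2) ≤ p.1.1 0 →
    ∀ᶠ p' in 𝓝 p, H p' = 0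
  rad : ∀ p, ipc p.2 (shC (d2 H p)) = 0
  bd : ∀ p, ‖(XM H p).1 - one n‖ ≤ CR * nsq p.2
  low : ∀ (p : Q n × (Sl ι M → ℂ)) (a : Fin (M + 1) → ℝ),
    (∀ m : Fin M, p.1.1 0 ∈ Ioo (u (m + 1)) (u m) → a m.castSucc = a m.succ) →
    fderiv ℝ (NW a) p.2 (XM H p).2 = NW a p.2
  smG : ∀ m, ContDiff ℝ ∞ (G m)
  G0 : ∀ (m : Fin M) p, p.1.1 0 = u (m + 1) → G m p = nsq (sl m.succ p.2)
  G1 : ∀ (m : Fin M) p, p.1.1 0 = u m → G m p = nsq (sl m.castSucc p.2)
  dG : ∀ (m : Fin M) p, p.1.1 0 ∈ Icc (u (m + 1)) (u m) → ‖lat p.1‖ ≤ 5 / 2 * w →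
    fderiv ℝ (G m) p (XM H p) = G m p

theorem exists_rise {a b : ℝ} (hab : a < b) : ∃ B : ℝ → ℝ, ContDiff ℝ ∞ B ∧ B a = 0 ∧
    B b = π / 2 ∧ ∀ x, x ∉ Ioo a b → ∀ᶠ y in 𝓝 x, deriv B y = 0 := by
  obtain ⟨s, hs, h1, h0, -, -⟩ :=
    exists_step (u := a + (b - a) / 3) (v := b - (b - a) / 3) (by linarith)
  refine ⟨fun x => π / 2 * (1 - s x), contDiff_const.mul (contDiff_const.sub hs), ?_, ?_,
    fun x hx => ?_⟩
  · simp [h1 a (by linarith)]
  · simp [h0 b (by linarith)]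
  · have key : ∀ c : ℝ, (∀ᶠ y in 𝓝 x, s y = c) →
        ∀ᶠ y in 𝓝 x, deriv (fun x => π / 2 * (1 - s x)) y = 0 := fun c hc => by
      have h2 : (fun x => π / 2 * (1 - s x)) =ᶠ[𝓝 x] fun _ => π / 2 * (1 - c) :=
        hc.mono fun y hy => by simp [hy]
      exact h2.deriv.mono fun y hy => by simp [hy]
    rcases le_or_gt x a with h | h
    · exact key 1 ((gt_mem_nhds (show x < a + (b - a) / 3 by linarith)).mono fun y hy => h1 y hy.le)
    · have : b ≤ x := not_lt.1 fun h' => hx ⟨h, h'⟩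
      exact key 0 ((lt_mem_nhds (show b - (b - a) / 3 < x by linarith)).mono fun y hy => h0 y hy.le)

theorem exists_reg (n M : ℕ) (ι : Type) [Fintype ι] [DecidableEq ι] {h w : ℝ} (hM : 0 < M)
    (hh : 0 < h) (hw : 0 < w) : ∃ (CR : ℝ) (u : ℕ → ℝ) (G : Fin M → Q n × (Sl ι M → ℂ) → ℝ)
      (H : Q n × (Sl ι M → ℂ) → ℝ), 0 < CR ∧ Reg h w CR u G H := by
  have hM' : (0 : ℝ) < M := by exact_mod_cast hM
  set u : ℕ → ℝ := fun m => -(h / 2) - m * (h / (2 * M)) with hu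
  have anti : StrictAnti u := fun a b hab => by
    have h1 : (a : ℝ) < b := by exact_mod_cast hab
    have h2 : 0 < h / (2 * M) := by positivity
    simp only [hu]
    nlinarith
  have u0 : u 0 = -(h / 2) := by simp [hu]
  have uM : u M = -h := by
    simp only [hu]
    field_simp
    ring
  choose B hB hB0 hB1 hBd using fun m : Fin M => exists_rise (anti (Nat.lt_succ_self (m : ℕ)))
  obtain ⟨b, hb, -, hs, hb1, -⟩ := exists_cut (isCompact_closedBall (0 : Q n) (5 / 2 * w))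
    (isOpen_ball (x := (0 : Q n)) (ε := 3 * w)) (closedBall_subset_ball (by linarith))
  set g : Fin M → Q n → ℝ := fun m q => b (lat q) * deriv (B m) (q.1 0) with hg
  have hβ : ∀ m, ContDiff ℝ ∞ (deriv (B m)) := fun m => (contDiff_infty_iff_deriv.1 (hB m)).2
  have sg : ∀ m, ContDiff ℝ ∞ (g m) := fun m =>
    (hb.comp (latL n).contDiff).mul ((hβ m).comp (by fun_prop))
  have cf : Continuous fun q : Q n => q.1 0 := by fun_prop
  have gz : ∀ (m : Fin M) (q : Q n), q.1 0 ∉ Ioo (u (m + 1)) (u m) → ∀ᶠ q' in 𝓝 q, g m q' = 0 :=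
    fun m q hq => (cf.continuousAt.eventually (hBd m _ hq)).mono fun q' h' => by simp [hg, h']
  have supp : ∀ p : Q n × (Sl ι M → ℂ), p.1 ∉ cbox n h (3 * w) ∨ -(h / 2) ≤ p.1.1 0 →
      ∀ᶠ p' in 𝓝 p, HR g p' = 0 := fun p hp => by
    have key : ∀ m : Fin M, ∀ᶠ q' in 𝓝 p.1, g m q' = 0 := fun m => by
      by_cases hq : p.1.1 0 ∈ Ioo (u (m + 1)) (u m)
      swap
      · exact gz m _ hq
      have h1 : u m ≤ u 0 := anti.antitone (Nat.zero_le _)
      have h2 : u M ≤ u (m + 1) := anti.antitone m.2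
      have h3 : 3 * w < ‖lat p.1‖ := by
        rcases hp with hp | hp
        · exact not_le.1 fun h' => hp ⟨abs_le.2 ⟨by linarith [hq.1], by linarith [hq.2]⟩, h'⟩
        · linarith [hq.2]
      have h4 : b =ᶠ[𝓝 (lat p.1)] 0 := notMem_tsupport_iff_eventuallyEq.1 fun h' => by
        have := mem_ball_zero_iff.1 (hs h')
        linarith
      exact (continuous_lat.continuousAt.eventually h4).mono fun q' h' => by
        simp only [hg]; rw [h']; simp
    exact (continuous_fst.continuousAt.eventually (eventually_all.2 key)).mono fun p' h' =>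
      Finset.sum_eq_zero fun m _ => by rw [h' m, zero_mul]
  have snd : ∀ p : Q n × (Sl ι M → ℂ),
      (XM (HR g) p).2 = (1 / 2 : ℝ) • p.2 + ∑ m, g m p.1 • rot m p.2 := fun p => by
    rw [← HR_snd sg]; rfl
  have fst : ∀ p : Q n × (Sl ι M → ℂ),
      (XM (HR g) p).1 = one n + ∑ m, QQ m p.2 • sh p.1 (fderiv ℝ (g m) p.1) := fun p => by
    rw [← HR_fst sg]; rfl
  choose C hC using fun m => (isCompact_cbox (n := n) h (3 * w)).exists_bound_of_continuousOn
    (cont_sh (sg m)).continuousOn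
  have hsum : 0 ≤ ∑ m, |C m| := Finset.sum_nonneg fun m _ => abs_nonneg _
  refine ⟨2 * ∑ m, |C m| + 1, u, fun m p => nsq (YY (B m) m p), HR g, by positivity,
    HR_smooth sg, u0, uM, anti, supp, fun p => ?_, fun p => ?_, fun p a ha => ?_,
    fun m => contDiff_nsq.comp (YY_smooth (hB m) m), fun m p hp => ?_, fun m p hp => ?_,
    fun m p hp hl => ?_⟩
  · rw [HR_snd sg, ← mul_right_inj' (two_ne_zero (α := ℝ)), ← fderiv_nsq, map_sum]
    simp [fderiv_nsq, ipc_rot]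
  · have h0 := nsq_nonneg p.2
    by_cases hp : p.1 ∈ cbox n h (3 * w)
    · rw [fst, add_sub_cancel_left]
      refine (norm_sum_le _ _).trans ?_
      have : ∑ m, ‖QQ m p.2 • sh p.1 (fderiv ℝ (g m) p.1)‖ ≤ ∑ m, 2 * nsq p.2 * |C m| :=
        Finset.sum_le_sum fun m _ => by
          rw [norm_smul]
          exact mul_le_mul (abs_QQ_le m p.2) ((hC m _ hp).trans (le_abs_self _)) (norm_nonneg _)
            (by positivity)
      rw [← Finset.mul_sum] at this
      nlinarith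
    · rw [XM_of_zero (supp p (Or.inl hp)), sub_self, norm_zero]
      positivity
  · rw [snd, map_add, NW_half, map_sum, add_eq_left]
    refine Finset.sum_eq_zero fun m _ => ?_
    rw [map_smul]
    by_cases hq : p.1.1 0 ∈ Ioo (u (m + 1)) (u m)
    · rw [NW_rot (ha m hq), smul_zero]
    · rw [(gz m _ hq).self_of_nhds, zero_smul]
  · simp [YY, hp, hB0]
  · have : ∀ y : ι → ℂ, nsq (-y) = nsq y := fun y => by simp [nsq]
    simp [YY, hp, hB1, this]
  · have hb2 : ∀ᶠ q' in 𝓝 p.1, b (lat q') = 1 :=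
      continuous_lat.continuousAt.eventually (hb1 _ (mem_closedBall_zero_iff.2 hl))
    refine YY_der (hB m) m p _ ?_ ?_
    · rw [fst]
      simp only [Prod.fst_add, Pi.add_apply, one, Prod.fst_sum, Finset.sum_apply, Prod.smul_fst,
        Pi.smul_apply, sh, add_eq_left]
      refine Finset.sum_eq_zero fun m' _ => ?_
      have h1 : g m' =ᶠ[𝓝 p.1] fun q => deriv (B m') (q.1 0) :=
        hb2.mono fun q' h' => by simp [hg, h']
      have hf : HasFDerivAt (fun q : Q n => q.1 0) (f0L n) p.1 := (f0L n).hasFDerivAt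
      have h3 := ((hβ m').differentiable (by simp) (p.1.1 0)).hasDerivAt.comp_hasFDerivAt p.1 hf
      have h2 : fderiv ℝ (fun q : Q n => deriv (B m') (q.1 0)) p.1 = _ := h3.fderiv
      rw [h1.fderiv_eq, h2]
      simp [f0L_apply]
    · rw [snd, Finset.sum_eq_single m]
      · simp [hg, hb2.self_of_nhds]
      · intro m' _ hm
        rw [(gz m' _ fun hq => ?_).self_of_nhds, zero_smul]
        rcases lt_or_gt_of_ne hm with h' | h'
        · have : u m ≤ u (m' + 1) := anti.antitone h'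
          linarith [hq.1, hp.2]
        · have : u m' ≤ u (m + 1) := anti.antitone h'
          linarith [hq.2, hp.1]
      · simp

end Pool.Agent.MP_6d695c_gt.SW.Box
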